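import Pool.Agent.H15.AV.Defs

/-!
# The transport equation on the torus, tested with functions moved by the free flow

MODULE Tr. `pair φ h t = ∫ φ(v, x - t v) h(t,x,v) dν`. By shear invariance on the torus
(`shear_nu` in H25/Kin/Per) `pair φ h t = ∫ φ(v,y) h(t, y + t v, v) dν(v,y)`, and
`d/dt h(t, y + t v, v) = (transport h) = S`. Differentiate under the integral with the bound
`C * wt d v` (compare `testA_hasDerivAt` in H25/Kin/Char and `mom_hasDerivAt` in H25/Kin/Trans,
whose proofs can be copied).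
-/

set_option autoImplicit false

open MeasureTheory Set Filter Topology Pool.Agent.H25.Kin

namespace Pool.Agent.H15.AV

variable {d : ℕ}

/-- the integral over the torus and all velocities does not change under the free flow -/
theorem pair_const {φ : Vec d × Vec d → ℝ} (hφ : Continuous φ) {C : ℝ}
    (hb : ∀ q, |φ q| ≤ C * wt d q.1) (hp : ∀ v, Per fun y => φ (v, y)) (t : ℝ) :
    ∫ q, φ (q.1, q.2 - t • q.1) ∂(nu d) = ∫ q, φ q ∂(nu d) := by
  rw [← shear_nu hφ hb hp (-t)]
  refine integral_congr_ae (Eventually.of_forall fun q => ?_)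
  simp only [neg_smul, sub_eq_add_neg]

variable {T : ℝ} {S h : ℝ → Vec d → Vec d → ℝ}

private lemma cont_h (H : TSol T S h) {s : ℝ} (hs : s ∈ Ico 0 T) :
    Continuous fun q : Vec d × Vec d => h s q.1 q.2 := by
  have h1 : Continuous fun q : Vec d × Vec d => (s, q.1, q.2) := by fun_prop
  exact H.cont.comp_continuous h1 fun q => ⟨hs, mem_univ _⟩

private lemma contOn_S (H : TSol T S h) :
    ContinuousOn (fun p : ℝ × Vec d × Vec d => S p.1 p.2.1 p.2.2) (Ioo 0 T ×ˢ univ) := by
  have h1 : ContinuousOn (fderiv ℝ (unc h)) (Ioo 0 T ×ˢ univ) :=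
    H.smooth.continuousOn_fderiv_of_isOpen (isOpen_Ioo.prod isOpen_univ) (by norm_num)
  have h2 : ContinuousOn (fun p : ℝ × Vec d × Vec d => fderiv ℝ (unc h) p (1, p.2.2, 0))
      (Ioo 0 T ×ˢ univ) := h1.clm_apply (by fun_prop)
  refine h2.congr fun p hp => ?_
  exact (H.solves p.1 hp.1 p.2.1 p.2.2).symm

private lemma cont_S (H : TSol T S h) {s : ℝ} (hs : s ∈ Ioo 0 T) :
    Continuous fun q : Vec d × Vec d => S s q.1 q.2 := by
  have h1 : Continuous fun q : Vec d × Vec d => (s, q.1, q.2) := by fun_prop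
  exact (contOn_S H).comp_continuous h1 fun q => ⟨hs, mem_univ _⟩

private lemma per_S (H : TSol T S h) {s : ℝ} (hs : s ∈ Ioo 0 T) (x v : Vec d) (i : Fin d) :
    S s (x + Pi.single i 1) v = S s x v := by
  rw [← H.solves s hs, ← H.solves s hs]
  unfold transport
  congr 1
  have e4 : (fun z : ℝ × Vec d × Vec d => unc h (z + (0, Pi.single i 1, 0))) =ᶠ[𝓝 (s, x, v)]
      unc h := by
    have hop : {z : ℝ × Vec d × Vec d | z.1 ∈ Ioo 0 T} ∈ 𝓝 (s, x, v) :=
      (isOpen_Ioo.preimage continuous_fst).mem_nhds hs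
    filter_upwards [hop] with z hz
    have := H.per z.1 ⟨hz.1.le, hz.2⟩ z.2.1 z.2.2 i
    simpa [unc] using this
  have e5 := e4.fderiv_eq (𝕜 := ℝ)
  rw [fderiv_comp_add_right] at e5
  have e6 : (s, x, v) + ((0 : ℝ), (Pi.single i 1 : Vec d), (0 : Vec d)) =
      (s, x + Pi.single i 1, v) := by simp
  rw [e6] at e5
  exact e5

private lemma char_h (H : TSol T S h) {t : ℝ} (ht : t ∈ Ioo 0 T) (x v : Vec d) :
    HasDerivAt (fun s => h s (x + s • v) v) (S t (x + t • v) v) t := by
  have h0 : DifferentiableAt ℝ (unc h) (t, x + t • v, v) :=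
    (H.smooth.contDiffAt ((isOpen_Ioo.prod isOpen_univ).mem_nhds ⟨ht, mem_univ _⟩)).differentiableAt
      (by norm_num)
  have h1 : HasFDerivAt (unc h) (fderiv ℝ (unc h) (t, x + t • v, v)) (t, x + t • v, v) :=
    h0.hasFDerivAt
  have h2 : HasDerivAt (fun s : ℝ => (s, x + s • v, v)) (1, v, 0) t := by
    refine (hasDerivAt_id t).prodMk (HasDerivAt.prodMk ?_ (hasDerivAt_const t v))
    have := ((hasDerivAt_id t).smul_const v).const_add x
    simpa using this
  have h3 := h1.comp_hasDerivAt t h2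
  have h4 := H.solves t ht (x + t • v) v
  unfold transport at h4
  rw [h4] at h3
  exact h3

private lemma bd_mul {A C a b w : ℝ} (ha : |a| ≤ A) (hb : |b| ≤ C * w) :
    |a * b| ≤ A * C * w := by
  rw [abs_mul]
  have h0 : 0 ≤ A := (abs_nonneg _).trans ha
  calc |a| * |b| ≤ A * (C * w) := mul_le_mul ha hb (abs_nonneg _) h0
    _ = A * C * w := by ring

/-- the sheared form of the pairing, for a bounded periodic slice -/
private lemma pair_shear {φ : Vec d × Vec d → ℝ} (hφ : Continuous φ) {A C : ℝ}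
    (hb : ∀ q, |φ q| ≤ A) (hp : ∀ v, Per fun y => φ (v, y)) {g : Vec d → Vec d → ℝ}
    (hg : Continuous fun q : Vec d × Vec d => g q.1 q.2) (hC : ∀ x v, |g x v| ≤ C * wt d v)
    (hgp : ∀ x v i, g (x + Pi.single i 1) v = g x v) (t : ℝ) :
    ∫ q, φ (q.1, q.2 - t • q.1) * g q.2 q.1 ∂(nu d) =
      ∫ q, φ q * g (q.2 + t • q.1) q.1 ∂(nu d) := by
  have c1 : Continuous fun q : Vec d × Vec d => φ (q.1, q.2 - t • q.1) :=
    hφ.comp (by fun_prop)
  have c2 : Continuous fun q : Vec d × Vec d => g q.2 q.1 :=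
    hg.comp (by fun_prop : Continuous fun q : Vec d × Vec d => (q.2, q.1))
  rw [← shear_nu (G := fun q => φ (q.1, q.2 - t • q.1) * g q.2 q.1) (c1.mul c2) (C := A * C)
    (fun q => bd_mul (hb _) (hC _ _)) ?_ t]
  · refine integral_congr_ae (Eventually.of_forall fun q => ?_)
    simp only [add_sub_cancel_right]
  · intro v x i
    simp only
    rw [hgp]
    congr 1
    have e : x + Pi.single i 1 - t • v = (x - t • v) + Pi.single i 1 := by abel
    rw [e]
    exact hp v (x - t • v) i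

theorem TSol.pair_hasDerivAt (H : TSol T S h) {φ : Vec d × Vec d → ℝ} (hφ : Continuous φ) {A : ℝ}
    (hb : ∀ q, |φ q| ≤ A) (hp : ∀ v, Per fun y => φ (v, y)) {t : ℝ} (ht : t ∈ Ioo 0 T) :
    HasDerivAt (pair φ h) (pair φ S t) t := by
  obtain ⟨D, hD⟩ := H.dec ((t + T) / 2) (by linarith [ht.2])
  obtain ⟨C, hC⟩ := H.decS (t / 2) (by linarith [ht.1]) ((t + T) / 2) (by linarith [ht.2])
  have hnhds : Ioo (t / 2) ((t + T) / 2) ∈ 𝓝 t :=
    Ioo_mem_nhds (by linarith [ht.1]) (by linarith [ht.2])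
  have hsub : ∀ r ∈ Ioo (t / 2) ((t + T) / 2), r ∈ Ioo 0 T := fun r hr =>
    ⟨by linarith [hr.1, ht.1], by linarith [hr.2, ht.2]⟩
  have htt : t ∈ Ioo (t / 2) ((t + T) / 2) := ⟨by linarith [ht.1], by linarith [ht.2]⟩
  have key := (hasDerivAt_integral_of_dominated_loc_of_deriv_le (μ := nu d)
    (F := fun s (q : Vec d × Vec d) => φ q * h s (q.2 + s • q.1) q.1)
    (F' := fun s q => φ q * S s (q.2 + s • q.1) q.1) (bound := fun q => A * C * wt d q.1)
    hnhds ?_ ?_ ?_ ?_ ?_ ?_).2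
  · have e1 : pair φ S t = ∫ q, φ q * S t (q.2 + t • q.1) q.1 ∂(nu d) :=
      pair_shear hφ hb hp (cont_S H ht) (fun x v => hC t ⟨htt.1.le, htt.2.le⟩ x v)
        (fun x v i => per_S H ht x v i) t
    rw [e1]
    refine key.congr_of_eventuallyEq ?_
    filter_upwards [hnhds] with r hr
    have hr' := hsub r hr
    exact pair_shear hφ hb hp (cont_h H ⟨hr'.1.le, hr'.2⟩)
      (fun x v => hD r ⟨hr'.1.le, hr.2.le⟩ x v) (fun x v i => H.per r ⟨hr'.1.le, hr'.2⟩ x v i) r
  · filter_upwards [hnhds] with r hr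
    have hr' := hsub r hr
    exact (hφ.mul ((cont_h H ⟨hr'.1.le, hr'.2⟩).comp (shear_cont r))).aestronglyMeasurable
  · refine integrable_nu (C := A * D)
      (hφ.mul ((cont_h H ⟨ht.1.le, ht.2⟩).comp (shear_cont t))).aestronglyMeasurable fun q => ?_
    exact bd_mul (hb q) (hD t ⟨ht.1.le, htt.2.le⟩ _ _)
  · exact (hφ.mul ((cont_S H ht).comp (shear_cont t))).aestronglyMeasurable
  · refine Eventually.of_forall fun q r hr => ?_
    rw [Real.norm_eq_abs]
    exact bd_mul (hb q) (hC r ⟨hr.1.le, hr.2.le⟩ _ _)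
  · exact ((integrable_wt (d := d)).comp_fst (muD d)).const_mul _
  · refine Eventually.of_forall fun q r hr => ?_
    exact (char_h H (hsub r hr) q.2 q.1).const_mul (φ q)

theorem TSol.pair_cont (H : TSol T S h) {φ : Vec d × Vec d → ℝ} (hφ : Continuous φ) {A : ℝ}
    (hb : ∀ q, |φ q| ≤ A) (hp : ∀ v, Per fun y => φ (v, y)) : ContinuousOn (pair φ h) (Ico 0 T) := by
  have main : ∀ T₁ < T, ContinuousOn (pair φ h) (Icc 0 T₁) := by
    intro T₁ h1
    obtain ⟨C, hC⟩ := H.dec T₁ h1
    unfold pair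
    refine continuousOn_of_dominated (bound := fun q => A * C * wt d q.1) ?_ ?_ ?_ ?_
    · intro s hs
      have hs' : s ∈ Ico 0 T := ⟨hs.1, hs.2.trans_lt h1⟩
      have c1 : Continuous fun q : Vec d × Vec d => φ (q.1, q.2 - s • q.1) :=
        hφ.comp (by fun_prop)
      have c2 : Continuous fun q : Vec d × Vec d => h s q.2 q.1 :=
        (cont_h H hs').comp (by fun_prop : Continuous fun q : Vec d × Vec d => (q.2, q.1))
      exact (c1.mul c2).aestronglyMeasurable
    · intro s hs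
      refine Eventually.of_forall fun q => ?_
      rw [Real.norm_eq_abs]
      exact bd_mul (hb _) (hC s hs _ _)
    · exact ((integrable_wt (d := d)).comp_fst (muD d)).const_mul _
    · refine Eventually.of_forall fun q => ?_
      have c1 : Continuous fun s : ℝ => φ (q.1, q.2 - s • q.1) := hφ.comp (by fun_prop)
      refine c1.continuousOn.mul ?_
      have c2 : Continuous fun s : ℝ => (s, q.2, q.1) := by fun_prop
      exact H.cont.comp c2.continuousOn fun s hs => ⟨⟨hs.1, hs.2.trans_lt h1⟩, mem_univ _⟩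
  intro t ht
  have h1 : (t + T) / 2 < T := by linarith [ht.2]
  have h2 : t < (t + T) / 2 := by linarith [ht.2]
  refine (main _ h1 t ⟨ht.1, h2.le⟩).mono_of_mem_nhdsWithin ?_
  have h3 : Iio ((t + T) / 2) ∈ 𝓝 t := Iio_mem_nhds h2
  filter_upwards [mem_nhdsWithin_of_mem_nhds h3, self_mem_nhdsWithin] with s hs hs'
  exact ⟨hs'.1, (le_of_lt hs)⟩

theorem TSol.pairS_cont (H : TSol T S h) {φ : Vec d × Vec d → ℝ} (hφ : Continuous φ) {A : ℝ}
    (hb : ∀ q, |φ q| ≤ A) (hp : ∀ v, Per fun y => φ (v, y)) : ContinuousOn (pair φ S) (Ioo 0 T) := by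
  have main : ∀ T₀ > 0, ∀ T₁ < T, ContinuousOn (pair φ S) (Icc T₀ T₁) := by
    intro T₀ h0 T₁ h1
    obtain ⟨C, hC⟩ := H.decS T₀ h0 T₁ h1
    unfold pair
    refine continuousOn_of_dominated (bound := fun q => A * C * wt d q.1) ?_ ?_ ?_ ?_
    · intro s hs
      have hs' : s ∈ Ioo 0 T := ⟨h0.trans_le hs.1, hs.2.trans_lt h1⟩
      have c1 : Continuous fun q : Vec d × Vec d => φ (q.1, q.2 - s • q.1) :=
        hφ.comp (by fun_prop)
      have c2 : Continuous fun q : Vec d × Vec d => S s q.2 q.1 :=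
        (cont_S H hs').comp (by fun_prop : Continuous fun q : Vec d × Vec d => (q.2, q.1))
      exact (c1.mul c2).aestronglyMeasurable
    · intro s hs
      refine Eventually.of_forall fun q => ?_
      rw [Real.norm_eq_abs]
      exact bd_mul (hb _) (hC s hs _ _)
    · exact ((integrable_wt (d := d)).comp_fst (muD d)).const_mul _
    · refine Eventually.of_forall fun q => ?_
      have c1 : Continuous fun s : ℝ => φ (q.1, q.2 - s • q.1) := hφ.comp (by fun_prop)
      refine c1.continuousOn.mul ?_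
      have c2 : Continuous fun s : ℝ => (s, q.2, q.1) := by fun_prop
      exact (contOn_S H).comp c2.continuousOn
        fun s hs => ⟨⟨h0.trans_le hs.1, hs.2.trans_lt h1⟩, mem_univ _⟩
  intro t ht
  have h1 : (t + T) / 2 < T := by linarith [ht.2]
  have h2 : t < (t + T) / 2 := by linarith [ht.2]
  have h3 : t / 2 < t := by linarith [ht.1]
  have h4 : 0 < t / 2 := by linarith [ht.1]
  exact ((main _ h4 _ h1).continuousAt (Icc_mem_nhds h3 h2)).continuousWithinAt

/-- integrated form -/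
theorem TSol.ftc (H : TSol T S h) {φ : Vec d × Vec d → ℝ} (hφ : Continuous φ) {A : ℝ}
    (hb : ∀ q, |φ q| ≤ A) (hp : ∀ v, Per fun y => φ (v, y)) {s t : ℝ} (hs : 0 < s) (hst : s ≤ t)
    (ht : t < T) : pair φ h t - pair φ h s = ∫ τ in s..t, pair φ S τ := by
  have hsub : uIcc s t ⊆ Ioo 0 T := by
    rw [uIcc_of_le hst]
    exact fun r hr => ⟨hs.trans_le hr.1, hr.2.trans_lt ht⟩
  refine (intervalIntegral.integral_eq_sub_of_hasDerivAt (fun r hr => ?_) ?_).symm
  · exact H.pair_hasDerivAt hφ hb hp (hsub hr)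
  · exact ((H.pairS_cont hφ hb hp).mono hsub).intervalIntegrable

/-- the same as an integral over space-time of the fiber integrals -/
theorem TSol.ftc_st (H : TSol T S h) {φ : Vec d × Vec d → ℝ} (hφ : Continuous φ) {A : ℝ}
    (hb : ∀ q, |φ q| ≤ A) (hp : ∀ v, Per fun y => φ (v, y)) {s t : ℝ} (hs : 0 < s) (hst : s ≤ t)
    (ht : t < T) :
    Integrable (fun p : ℝ × Vec d => ∫ v, φ (v, p.2 - p.1 • v) * S p.1 p.2 v) (st d s t) ∧
      pair φ h t - pair φ h s =
        ∫ p, (∫ v, φ (v, p.2 - p.1 • v) * S p.1 p.2 v) ∂(st d s t) := by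
  obtain ⟨C, hC⟩ := H.decS s hs t ht
  set K : (ℝ × Vec d) × Vec d → ℝ := fun z => φ (z.2, z.1.2 - z.1.1 • z.2) * S z.1.1 z.1.2 z.2
    with hK
  have hmeas : (st d s t).prod (volume : Measure (Vec d)) =
      (((volume : Measure ℝ).prod (volume : Measure (Vec d))).prod
        (volume : Measure (Vec d))).restrict ((Icc s t ×ˢ Icc (0 : Vec d) 1) ×ˢ univ) := by
    rw [← Measure.prod_restrict, ← Measure.prod_restrict, Measure.restrict_univ]
    rfl
  have hKc : ContinuousOn K ((Icc s t ×ˢ Icc (0 : Vec d) 1) ×ˢ univ) := by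
    have c1 : Continuous fun z : (ℝ × Vec d) × Vec d => φ (z.2, z.1.2 - z.1.1 • z.2) :=
      hφ.comp (by fun_prop)
    refine c1.continuousOn.mul ?_
    have c2 : Continuous fun z : (ℝ × Vec d) × Vec d => (z.1.1, z.1.2, z.2) := by fun_prop
    refine (contOn_S H).comp c2.continuousOn fun z hz => ?_
    exact ⟨⟨hs.trans_le hz.1.1.1, hz.1.1.2.trans_lt ht⟩, mem_univ _⟩
  have hms : MeasurableSet ((Icc s t ×ˢ Icc (0 : Vec d) 1) ×ˢ (univ : Set (Vec d))) :=
    (measurableSet_Icc.prod measurableSet_Icc).prod MeasurableSet.univ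
  have hKm : AEStronglyMeasurable K ((st d s t).prod (volume : Measure (Vec d))) := by
    rw [hmeas]
    exact hKc.aestronglyMeasurable hms
  have hfin : IsFiniteMeasure (st d s t) := by
    unfold st
    infer_instance
  have hKi : Integrable K ((st d s t).prod (volume : Measure (Vec d))) := by
    have hw : Integrable (fun z : (ℝ × Vec d) × Vec d => A * C * wt d z.2)
        ((st d s t).prod (volume : Measure (Vec d))) :=
      ((integrable_wt (d := d)).comp_snd (st d s t)).const_mul _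
    refine hw.mono' hKm ?_
    rw [hmeas]
    refine (ae_restrict_iff' hms).2 (Eventually.of_forall fun z hz => ?_)
    rw [Real.norm_eq_abs]
    exact bd_mul (hb _) (hC _ hz.1.1 _ _)
  have hI : Integrable (fun p : ℝ × Vec d => ∫ v, φ (v, p.2 - p.1 • v) * S p.1 p.2 v)
      (st d s t) := hKi.integral_prod_left
  refine ⟨hI, ?_⟩
  rw [H.ftc hφ hb hp hs hst ht, intervalIntegral.integral_of_le hst, ← integral_Icc_eq_integral_Ioc]
  have e1 : ∫ p, (∫ v, φ (v, p.2 - p.1 • v) * S p.1 p.2 v) ∂(st d s t) =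
      ∫ τ in Icc s t, ∫ x, (∫ v, φ (v, x - τ • v) * S τ x v) ∂(muD d) := by
    unfold st
    exact integral_prod _ (by exact hI)
  rw [e1]
  refine setIntegral_congr_fun measurableSet_Icc fun τ hτ => ?_
  have hτ' : τ ∈ Ioo 0 T := ⟨hs.trans_le hτ.1, hτ.2.trans_lt ht⟩
  unfold pair nu
  have c1 : Continuous fun q : Vec d × Vec d => φ (q.1, q.2 - τ • q.1) := hφ.comp (by fun_prop)
  have c2 : Continuous fun q : Vec d × Vec d => S τ q.2 q.1 :=
    (cont_S H hτ').comp (by fun_prop : Continuous fun q : Vec d × Vec d => (q.2, q.1))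
  have i1 : Integrable (fun q : Vec d × Vec d => φ (q.1, q.2 - τ • q.1) * S τ q.2 q.1) (nu d) :=
    integrable_nu (C := A * C) (c1.mul c2).aestronglyMeasurable
      fun q => bd_mul (hb _) (hC τ hτ _ _)
  exact integral_prod_symm _ (by exact i1)

end Pool.Agent.H15.AV
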