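import Pool.Agent.H15.AV.SlcB
import Pool.Agent.H15.AV.Tr

/-!
# Conservation laws and the H-theorem along classical solutions

MODULE Ent. `mass_const`, `energy_const`: `mom_hasDerivAt` and `mom_cont` (H25/Kin/Trans) with
`c = 1`, `p = 1` or `p = nsq`, then a function on `[0,t]` with zero derivative is constant.
`entropy_le`: for `δ > 0` let `β a = a log a` and `h(t,x,v) = β(f + δ gau) - β(δ gau)`; it is a
`TSol` with source `(1 + log (f + δ gau v)) Q`, so (test function `1`, mass conservation of `Q`,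
`HTh`, uniformity by `sol_unice`) `∫ h(t) ≤ ∫ h(s) + ε (t - s)`, `0 < s < t`. Let `δ → 0`
(dominated convergence), then `ε → 0` and `s → 0` (continuity of the entropy in time).
-/

set_option autoImplicit false

open MeasureTheory Set Filter Topology Pool.Agent.H25.Kin

namespace Pool.Agent.H15.AV

variable {d : ℕ} {T : ℝ} {Q : (Vec d → ℝ) → Vec d → ℝ} {f : ℝ → Vec d → Vec d → ℝ}

private theorem ent_pos1 : Pos (fun _ : Vec d => (1 : ℝ)) 1 where
  per := fun _ _ => rfl
  smooth := contDiff_const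
  le0 := fun _ => by simp
  le1 := fun x => by
    have h : fderiv ℝ (fun _ : Vec d => (1 : ℝ)) x = 0 := by simp
    rw [h, norm_zero]
    exact zero_le_one

private theorem ent_mom {Q' : ℝ → Vec d → Vec d → ℝ} (hf : IsClassicalSol T Q' f)
    {p : Vec d → ℝ} (hp : PG p) (hpc : Continuous p)
    (hQ : ∀ s ∈ Ioo 0 T, ∀ x, ∫ v, Q' s x v * p v = 0) {t : ℝ} (ht : t ∈ Ico 0 T) :
    mom (fun _ => 1) p f t = mom (fun _ => 1) p f 0 := by
  rcases ht.1.eq_or_lt with h0 | h0
  · rw [← h0]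
  · have hd : ∀ s ∈ Ioo 0 t, HasDerivAt (mom (fun _ => 1) p f) 0 s := by
      intro s hs
      have h1 := mom_hasDerivAt ent_pos1 hp hpc hf ⟨hs.1, hs.2.trans ht.2⟩
        (hQ s ⟨hs.1, hs.2.trans ht.2⟩)
      refine h1.congr_deriv ?_
      simp
    obtain ⟨c, -, hc⟩ := exists_hasDerivAt_eq_slope (mom (fun _ => 1) p f) (fun _ => 0) h0
      (mom_cont ent_pos1 hp hpc hf ht.2) hd
    rw [sub_zero, eq_comm, div_eq_zero_iff] at hc
    rcases hc with hc | hc
    · linarith
    · exact absurd hc h0.ne'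

theorem mass_const (hf : IsClassicalSol T (fun t x => Q (f t x)) f)
    (hI : HasInvariants T fun t x => Q (f t x)) {t : ℝ} (ht : t ∈ Ico 0 T) :
    ∫ q, f t q.2 q.1 ∂(nu d) = ∫ q, f 0 q.2 q.1 ∂(nu d) := by
  have h := ent_mom hf (PG.const 1) continuous_const (p := fun _ => (1 : ℝ))
    (fun s hs x => by simpa using (hI s hs x).1) ht
  unfold mom at h
  simpa using h

theorem energy_const (hf : IsClassicalSol T (fun t x => Q (f t x)) f)
    (hI : HasInvariants T fun t x => Q (f t x)) {t : ℝ} (ht : t ∈ Ico 0 T) :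
    ∫ q, f t q.2 q.1 * nsq q.1 ∂(nu d) = ∫ q, f 0 q.2 q.1 * nsq q.1 ∂(nu d) := by
  have h := ent_mom hf (p := fun v => nsq v) PG.nsq continuous_sq
    (fun s hs x => (hI s hs x).2.2) ht
  unfold mom at h
  simp only [one_mul] at h
  simp_rw [mul_comm (nsq _)] at h
  exact h

/-! ### the function `a log a` -/

private noncomputable def ebt (a : ℝ) : ℝ := a * Real.log a

private theorem ebt_cont : Continuous ebt := Real.continuous_mul_log

private theorem ebt_zero : ebt 0 = 0 := by simp [ebt]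

private theorem ent_log {c y : ℝ} (hc : 0 < c) (hcy : c ≤ y) :
    |Real.log y| ≤ |Real.log c| + y := by
  have hy : 0 < y := hc.trans_le hcy
  rcases le_total 1 y with h | h
  · rw [abs_of_nonneg (Real.log_nonneg h)]
    have h1 := Real.log_le_self hy.le
    have h2 := abs_nonneg (Real.log c)
    linarith
  · have h1 : Real.log y ≤ 0 := Real.log_nonpos hy.le h
    have h2 := Real.log_le_log hc hcy
    rw [abs_of_nonpos h1]
    have h3 := neg_abs_le (Real.log c)
    linarith

private theorem ent_abs {a : ℝ} (ha : 0 ≤ a) : |ebt a| ≤ a ^ 2 + 2 * √a := by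
  rcases ha.eq_or_lt with h0 | h0
  · rw [← h0, ebt_zero]
    simp
  · unfold ebt
    rw [abs_mul, abs_of_pos h0]
    rcases le_total 1 a with h | h
    · rw [abs_of_nonneg (Real.log_nonneg h)]
      have h1 := mul_le_mul_of_nonneg_left (Real.log_le_self ha) ha
      have h2 := Real.sqrt_nonneg a
      nlinarith
    · rw [abs_of_nonpos (Real.log_nonpos ha h)]
      have hr : 0 < √a := Real.sqrt_pos.2 h0
      have h1 : Real.log (√a)⁻¹ ≤ (√a)⁻¹ - 1 := Real.log_le_sub_one_of_pos (inv_pos.2 hr)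
      rw [Real.log_inv, Real.log_sqrt ha] at h1
      have h2 : -Real.log a ≤ 2 * (√a)⁻¹ := by linarith
      have h3 : a * (√a)⁻¹ = √a := by
        nth_rw 1 [← Real.mul_self_sqrt ha]
        rw [mul_assoc, mul_inv_cancel₀ hr.ne', mul_one]
      calc a * -Real.log a ≤ a * (2 * (√a)⁻¹) := mul_le_mul_of_nonneg_left h2 ha
        _ = 2 * (a * (√a)⁻¹) := by ring
        _ = 2 * √a := by rw [h3]
        _ ≤ a ^ 2 + 2 * √a := by nlinarith [sq_nonneg a]

private theorem ent_diff {a b : ℝ} (ha : 0 ≤ a) (hb : 0 < b) (hb1 : b ≤ 1) :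
    |ebt (a + b) - ebt b| ≤ 2 * a ^ 2 + 2 * a + 2 * √a := by
  rcases ha.eq_or_lt with h0 | h0
  · rw [← h0, zero_add, sub_self, abs_zero]
    positivity
  · have hab : 0 < a + b := by linarith
    have e : ebt (a + b) - ebt b = a * Real.log (a + b) + b * (Real.log (a + b) - Real.log b) := by
      unfold ebt; ring
    have h1 : 0 ≤ Real.log (a + b) - Real.log b :=
      sub_nonneg.2 (Real.log_le_log hb (by linarith))
    have h2 : Real.log (a + b) - Real.log b ≤ a / b := by
      rw [← Real.log_div hab.ne' hb.ne']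
      refine (Real.log_le_sub_one_of_pos (div_pos hab hb)).trans (le_of_eq ?_)
      field_simp
      ring
    have h3 : b * (Real.log (a + b) - Real.log b) ≤ a := by
      calc b * (Real.log (a + b) - Real.log b) ≤ b * (a / b) :=
            mul_le_mul_of_nonneg_left h2 hb.le
        _ = a := by field_simp
    have h4 := ent_log h0 (by linarith : a ≤ a + b)
    have h5 := ent_abs ha
    have h6 : |a * Real.log (a + b)| ≤ |ebt a| + a * (a + b) := by
      unfold ebt
      rw [abs_mul, abs_mul, abs_of_pos h0, ← mul_add]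
      exact mul_le_mul_of_nonneg_left h4 ha
    rw [e]
    refine (abs_add_le _ _).trans ?_
    rw [abs_of_nonneg (mul_nonneg hb.le h1)]
    nlinarith

/-! ### the regularized entropy -/

private theorem gau_pos (v : Vec d) : 0 < gau v := Real.exp_pos _

private theorem gau_le (v : Vec d) : gau v ≤ 1 := by
  unfold gau
  rw [← Real.exp_zero]
  exact Real.exp_le_exp.2 (by linarith [sq_nonneg' v])

private theorem gau_smooth : ContDiff ℝ 1 (gau : Vec d → ℝ) := by
  unfold gau nsq
  fun_prop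

private theorem ent_wt_le (v : Vec d) : wt d v ≤ 1 := by
  unfold wt
  exact inv_le_one_of_one_le₀ (one_le_pow₀ (one_le_w v))

private noncomputable def eh (δ : ℝ) (f : ℝ → Vec d → Vec d → ℝ) (t : ℝ) (x v : Vec d) : ℝ :=
  ebt (f t x v + δ * gau v) - ebt (δ * gau v)

private noncomputable def eS (δ : ℝ) (Q' f : ℝ → Vec d → Vec d → ℝ) (t : ℝ) (x v : Vec d) : ℝ :=
  (1 + Real.log (f t x v + δ * gau v)) * Q' t x v

private theorem ent_bd {Q' : ℝ → Vec d → Vec d → ℝ} (hf : IsClassicalSol T Q' f) {T₁ : ℝ}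
    (h1 : T₁ < T) : ∃ K, 0 ≤ K ∧ ∀ t ∈ Icc 0 T₁, ∀ x v, f t x v ≤ K * wt d v ∧
      f t x v ^ 2 ≤ K * wt d v ∧ √(f t x v) ≤ K * wt d v := by
  obtain ⟨C, hC0, hC⟩ := hf.f_le h1 (2 * (d + 1))
  refine ⟨C + C ^ 2 + √C, by positivity, fun t ht x v => ?_⟩
  have h2 := hC t ht x v
  have h0 := hf.nonneg t ⟨ht.1, ht.2.trans_lt h1⟩ x v
  rw [abs_of_nonneg h0] at h2
  have hw0 := wt_nonneg (d := d) v
  have hw1 := ent_wt_le v
  have e : ((1 + ‖v‖) ^ (2 * (d + 1)))⁻¹ = wt d v ^ 2 := by
    unfold wt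
    rw [mul_comm 2, pow_mul, inv_pow]
  rw [e] at h2
  have hs := Real.sqrt_nonneg C
  have hw2 : wt d v ^ 2 ≤ wt d v := by nlinarith
  have h3 : f t x v ≤ C * wt d v := h2.trans (mul_le_mul_of_nonneg_left hw2 hC0)
  have h4 : f t x v ^ 2 ≤ C ^ 2 * wt d v := by
    have h5 : f t x v ^ 2 ≤ (C * wt d v) ^ 2 := pow_le_pow_left₀ h0 h3 2
    rw [mul_pow] at h5
    exact h5.trans (mul_le_mul_of_nonneg_left hw2 (by positivity))
  have h6 : √(f t x v) ≤ √C * wt d v := by
    refine (Real.sqrt_le_sqrt h2).trans (le_of_eq ?_)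
    rw [Real.sqrt_mul hC0, Real.sqrt_sq hw0]
  refine ⟨?_, ?_, ?_⟩ <;> nlinarith [mul_nonneg hC0 hw0, mul_nonneg (sq_nonneg C) hw0,
    mul_nonneg hs hw0]

private theorem ent_tsol {Q' : ℝ → Vec d → Vec d → ℝ} (hf : IsClassicalSol T Q' f) {δ : ℝ}
    (h0 : 0 < δ) (h1 : δ ≤ 1) : TSol T (eS δ Q' f) (eh δ f) where
  per := by
    intro t ht x v i
    unfold eh
    rw [hf.periodic t ht x v i]
  cont := by
    have hg : Continuous fun p : ℝ × Vec d × Vec d => δ * gau p.2.2 :=
      continuous_const.mul (gau_smooth.continuous.comp (by fun_prop))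
    have h2 : unc (eh δ f) = fun p => ebt (unc f p + δ * gau p.2.2) - ebt (δ * gau p.2.2) := rfl
    rw [h2]
    exact (ebt_cont.comp_continuousOn (hf.cont.add hg.continuousOn)).sub
      (ebt_cont.comp hg).continuousOn
  smooth := by
    have hg : ContDiff ℝ 1 fun p : ℝ × Vec d × Vec d => δ * gau p.2.2 :=
      contDiff_const.mul (gau_smooth.comp (by fun_prop))
    have h2 : unc (eh δ f) = fun p => (unc f p + δ * gau p.2.2) *
        Real.log (unc f p + δ * gau p.2.2) - (δ * gau p.2.2) * Real.log (δ * gau p.2.2) := rfl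
    rw [h2]
    have h3 : ContDiffOn ℝ 1 (fun p => unc f p + δ * gau p.2.2) (Ioo 0 T ×ˢ univ) :=
      (hf.smooth.of_le (by norm_num)).add hg.contDiffOn
    refine (h3.mul (h3.log fun p hp => ?_)).sub (hg.contDiffOn.mul (hg.contDiffOn.log fun p _ => ?_))
    · have := hf.nonneg p.1 ⟨hp.1.1.le, hp.1.2⟩ p.2.1 p.2.2
      have h5 := mul_pos h0 (gau_pos p.2.2)
      exact (by unfold unc; linarith : 0 < unc f p + δ * gau p.2.2).ne'
    · exact (mul_pos h0 (gau_pos p.2.2)).ne'
  dec := by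
    intro T₁ hT₁
    obtain ⟨K, hK0, hK⟩ := ent_bd hf hT₁
    refine ⟨6 * K, fun t ht x v => ?_⟩
    obtain ⟨a1, a2, a3⟩ := hK t ht x v
    have h2 := ent_diff (hf.nonneg t ⟨ht.1, ht.2.trans_lt hT₁⟩ x v) (mul_pos h0 (gau_pos v))
      (by have := gau_le v; have := gau_pos v; nlinarith)
    unfold eh
    linarith
  decS := by
    intro T₀ hT₀ T₁ hT₁
    obtain ⟨D, hD0, hD⟩ := hf.Q_le hT₀ hT₁ (2 + (d + 1))
    obtain ⟨K, hK0, hK⟩ := ent_bd hf hT₁
    refine ⟨(2 + |Real.log δ| + d + K) * D, fun t ht x v => ?_⟩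
    have ht' : t ∈ Icc 0 T₁ := ⟨hT₀.le.trans ht.1, ht.2⟩
    obtain ⟨a1, -, -⟩ := hK t ht' x v
    have hn := hf.nonneg t ⟨ht'.1, ht'.2.trans_lt hT₁⟩ x v
    have hb := mul_pos h0 (gau_pos v)
    have h2 := ent_log hb (by linarith : δ * gau v ≤ f t x v + δ * gau v)
    have h3 : |Real.log (δ * gau v)| ≤ |Real.log δ| + nsq v := by
      rw [Real.log_mul h0.ne' (gau_pos v).ne']
      refine (abs_add_le _ _).trans ?_
      unfold gau
      rw [Real.log_exp, abs_neg, abs_of_nonneg (sq_nonneg' v)]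
    have h4 := sq_le v
    have hw1 := ent_wt_le v
    have hw0 := wt_nonneg (d := d) v
    have hb1 : δ * gau v ≤ 1 := by have := gau_le v; have := gau_pos v; nlinarith
    have hv := norm_nonneg v
    have h5 : f t x v ≤ K := a1.trans (by nlinarith)
    have h6 : |1 + Real.log (f t x v + δ * gau v)| ≤
        (2 + |Real.log δ| + d + K) * (1 + ‖v‖) ^ 2 := by
      have h7 : |1 + Real.log (f t x v + δ * gau v)| ≤ 1 + |Real.log (f t x v + δ * gau v)| := by
        refine (abs_add_le _ _).trans ?_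
        rw [abs_one]
      have h8 : |1 + Real.log (f t x v + δ * gau v)| ≤
          1 + (|Real.log δ| + d * ‖v‖ ^ 2) + (K + 1) := by linarith
      refine h8.trans ?_
      have h9 : (1 : ℝ) ≤ (1 + ‖v‖) ^ 2 := one_le_pow₀ (one_le_w v)
      have h10 : ‖v‖ ^ 2 ≤ (1 + ‖v‖) ^ 2 := pow_le_pow_left₀ hv (by linarith) 2
      have h11 := abs_nonneg (Real.log δ)
      have h12 : (d : ℝ) * ‖v‖ ^ 2 ≤ d * (1 + ‖v‖) ^ 2 :=
        mul_le_mul_of_nonneg_left h10 (Nat.cast_nonneg d)
      nlinarith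
    unfold eS
    rw [abs_mul]
    calc |1 + Real.log (f t x v + δ * gau v)| * |Q' t x v| ≤
        ((2 + |Real.log δ| + d + K) * (1 + ‖v‖) ^ 2) * (D * ((1 + ‖v‖) ^ (2 + (d + 1)))⁻¹) :=
          mul_le_mul h6 (hD t ht x v) (abs_nonneg _) (by positivity)
      _ = _ := wt_bound (by positivity) hD0 v 2
  solves := by
    intro t ht x v
    have hn := hf.nonneg t ⟨ht.1.le, ht.2⟩ x v
    have hb := mul_pos h0 (gau_pos v)
    have hF : HasFDerivAt (unc f) (fderiv ℝ (unc f) (t, x, v)) (t, x, v) :=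
      ((hf.cda ht x v).differentiableAt (by norm_num)).hasFDerivAt
    have hG : HasFDerivAt (fun p : ℝ × Vec d × Vec d => δ * gau p.2.2)
        (δ • (fderiv ℝ gau v).comp ((ContinuousLinearMap.snd ℝ (Vec d) (Vec d)).comp
          (ContinuousLinearMap.snd ℝ ℝ (Vec d × Vec d)))) (t, x, v) := by
      have h2 : HasFDerivAt (gau : Vec d → ℝ) (fderiv ℝ gau v) v :=
        (gau_smooth.differentiable one_ne_zero v).hasFDerivAt
      have h3 : HasFDerivAt (fun p : ℝ × Vec d × Vec d => p.2.2)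
          ((ContinuousLinearMap.snd ℝ (Vec d) (Vec d)).comp
          (ContinuousLinearMap.snd ℝ ℝ (Vec d × Vec d))) (t, x, v) :=
        ((ContinuousLinearMap.snd ℝ (Vec d) (Vec d)).comp
          (ContinuousLinearMap.snd ℝ ℝ (Vec d × Vec d))).hasFDerivAt
      have h4 : HasFDerivAt (fun p : ℝ × Vec d × Vec d => gau p.2.2)
          ((fderiv ℝ gau v).comp ((ContinuousLinearMap.snd ℝ (Vec d) (Vec d)).comp
          (ContinuousLinearMap.snd ℝ ℝ (Vec d × Vec d)))) (t, x, v) :=
        HasFDerivAt.comp (g := (gau : Vec d → ℝ)) (t, x, v) h2 h3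
      exact h4.const_mul δ
    have hA := hF.add hG
    have d1 : HasDerivAt ebt (Real.log (f t x v + δ * gau v) + 1) (f t x v + δ * gau v) :=
      Real.hasDerivAt_mul_log (by linarith [hb] : 0 < f t x v + δ * gau v).ne'
    have d2 : HasDerivAt ebt (Real.log (δ * gau v) + 1) (δ * gau v) :=
      Real.hasDerivAt_mul_log hb.ne'
    have e1 := HasDerivAt.comp_hasFDerivAt (h₂ := ebt)
      (f := fun p : ℝ × Vec d × Vec d => unc f p + δ * gau p.2.2) (t, x, v) d1 hA
    have e2 := HasDerivAt.comp_hasFDerivAt (h₂ := ebt)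
      (f := fun p : ℝ × Vec d × Vec d => δ * gau p.2.2) (t, x, v) d2 hG
    have e3 := e1.sub e2
    have e4 : unc (eh δ f) = (ebt ∘ fun p : ℝ × Vec d × Vec d => unc f p + δ * gau p.2.2) -
        (ebt ∘ fun p : ℝ × Vec d × Vec d => δ * gau p.2.2) := rfl
    unfold transport
    rw [e4, e3.fderiv]
    simp only [sub_apply, smul_apply, add_apply, ContinuousLinearMap.comp_apply,
      ContinuousLinearMap.coe_snd', map_zero, smul_eq_mul]
    rw [hf.eqn t ht x v]
    unfold eS
    ring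

private theorem ent_muD : (muD d).real univ = 1 := by
  unfold muD Measure.real
  rw [Measure.restrict_apply_univ, Real.volume_Icc_pi]
  simp

private theorem ent_step (hH : HTh Q) (hf : IsClassicalSol T (fun t x => Q (f t x)) f)
    (hI : HasInvariants T fun t x => Q (f t x)) {s t : ℝ} (hs : 0 < s) (hst : s ≤ t) (ht : t < T)
    {ε : ℝ} (hε : 0 < ε) : ∃ δ₀ > 0, ∀ δ ∈ Ioc (0 : ℝ) δ₀,
      ∫ q, eh δ f t q.2 q.1 ∂(nu d) ≤ ∫ q, eh δ f s q.2 q.1 ∂(nu d) + ε * (t - s) := by
  obtain ⟨C, hC⟩ := sol_unice hf hs ht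
  obtain ⟨δ₀, hδ₀, hh⟩ := hH C ε hε
  refine ⟨min δ₀ 1, lt_min hδ₀ one_pos, fun δ hδ => ?_⟩
  have hδ1 : δ ≤ 1 := hδ.2.trans (min_le_right _ _)
  have hδ2 : δ ∈ Ioc (0 : ℝ) δ₀ := ⟨hδ.1, hδ.2.trans (min_le_left _ _)⟩
  have H := ent_tsol hf hδ.1 hδ1
  have hφ : Continuous fun _ : Vec d × Vec d => (1 : ℝ) := continuous_const
  have hb : ∀ q : Vec d × Vec d, |(fun _ : Vec d × Vec d => (1 : ℝ)) q| ≤ 1 := fun _ => by simp
  have hp : ∀ v : Vec d, Per fun y => (fun _ : Vec d × Vec d => (1 : ℝ)) (v, y) :=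
    fun _ _ _ => rfl
  have h1 := H.ftc hφ hb hp hs hst ht
  have hpair : ∀ (h : ℝ → Vec d → Vec d → ℝ) (τ : ℝ),
      pair (fun _ => 1) h τ = ∫ q, h τ q.2 q.1 ∂(nu d) := by
    intro h τ
    unfold pair
    simp only [one_mul]
  have hS : ∀ τ ∈ Icc s t, pair (fun _ => 1) (eS δ (fun t x => Q (f t x)) f) τ ≤ ε := by
    intro τ hτ
    have hτ' : τ ∈ Ioo 0 T := ⟨hs.trans_le hτ.1, hτ.2.trans_lt ht⟩
    obtain ⟨K, hK⟩ := H.decS s hs t ht
    obtain ⟨D, hD0, hD⟩ := hf.Q_le hs ht (d + 1)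
    have cQ := hf.cont_Q hτ'
    have cf := hf.cont_slice ⟨hτ'.1.le, hτ'.2⟩
    have cL : Continuous fun q : Vec d × Vec d => Real.log (f τ q.1 q.2 + δ * gau q.2) := by
      refine Continuous.log ?_ fun q => ?_
      · exact cf.add (continuous_const.mul (gau_smooth.continuous.comp continuous_snd))
      · have h2 := hf.nonneg τ ⟨hτ'.1.le, hτ'.2⟩ q.1 q.2
        have h3 := mul_pos hδ.1 (gau_pos q.2)
        exact (by linarith : 0 < f τ q.1 q.2 + δ * gau q.2).ne'
    have cS : Continuous fun q : Vec d × Vec d => eS δ (fun t x => Q (f t x)) f τ q.2 q.1 := by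
      have h2 : Continuous fun q : Vec d × Vec d => (1 + Real.log (f τ q.1 q.2 + δ * gau q.2)) *
          Q (f τ q.1) q.2 := (continuous_const.add cL).mul cQ
      exact h2.comp (by fun_prop : Continuous fun q : Vec d × Vec d => (q.2, q.1))
    have iS : Integrable (fun q : Vec d × Vec d => eS δ (fun t x => Q (f t x)) f τ q.2 q.1)
        (nu d) := integrable_nu cS.aestronglyMeasurable fun q => hK τ hτ q.2 q.1
    rw [hpair, nu_integral iS]
    have hin : ∀ x : Vec d, ∫ v, eS δ (fun t x => Q (f t x)) f τ x v ≤ ε := by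
      intro x
      have c1 : Continuous fun v : Vec d => Q (f τ x) v :=
        cQ.comp (by fun_prop : Continuous fun v : Vec d => (x, v))
      have c2 : Continuous fun v : Vec d => Real.log (f τ x v + δ * gau v) :=
        cL.comp (by fun_prop : Continuous fun v : Vec d => (x, v))
      have i1 : Integrable fun v : Vec d => Q (f τ x) v := by
        refine (integrable_wt.const_mul D).mono' c1.aestronglyMeasurable
          (Eventually.of_forall fun v => ?_)
        exact hD τ hτ x v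
      have i2 : Integrable fun v : Vec d => eS δ (fun t x => Q (f t x)) f τ x v := by
        refine (integrable_wt.const_mul K).mono' ((continuous_const.add c2).mul
          c1).aestronglyMeasurable (Eventually.of_forall fun v => ?_)
        exact hK τ hτ x v
      have i3 : Integrable fun v : Vec d => Q (f τ x) v * Real.log (f τ x v + δ * gau v) := by
        refine (i2.sub i1).congr (Eventually.of_forall fun v => ?_)
        simp only [Pi.sub_apply, eS]
        ring
      have e1 : ∫ v, eS δ (fun t x => Q (f t x)) f τ x v =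
          (∫ v, Q (f τ x) v) + ∫ v, Q (f τ x) v * Real.log (f τ x v + δ * gau v) := by
        rw [← integral_add i1 i3]
        refine integral_congr_ae (Eventually.of_forall fun v => ?_)
        simp only [eS]
        ring
      rw [e1, (hI τ hτ' x).1, zero_add]
      exact hh δ hδ2 (f τ x) (hC τ hτ x)
    have hint : Integrable (fun x : Vec d => ∫ v, eS δ (fun t x => Q (f t x)) f τ x v) (muD d) := by
      have := iS
      unfold nu at this
      exact this.integral_prod_right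
    calc ∫ x, (∫ v, eS δ (fun t x => Q (f t x)) f τ x v) ∂(muD d) ≤ ∫ _x, ε ∂(muD d) :=
          integral_mono hint (integrable_const ε) hin
      _ = ε := by rw [integral_const, ent_muD, one_smul]
  have hcS := H.pairS_cont hφ hb hp
  have hii : IntervalIntegrable (pair (fun _ => 1) (eS δ (fun t x => Q (f t x)) f)) volume s t := by
    refine ContinuousOn.intervalIntegrable_of_Icc hst (hcS.mono fun τ hτ => ?_)
    exact ⟨hs.trans_le hτ.1, hτ.2.trans_lt ht⟩
  have h2 : ∫ τ in s..t, pair (fun _ => 1) (eS δ (fun t x => Q (f t x)) f) τ ≤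
      ∫ _τ in s..t, ε :=
    intervalIntegral.integral_mono_on hst hii intervalIntegrable_const hS
  rw [intervalIntegral.integral_const, smul_eq_mul] at h2
  rw [← h1, hpair, hpair] at h2
  linarith

private theorem ent_lim {Q' : ℝ → Vec d → Vec d → ℝ} (hf : IsClassicalSol T Q' f) {t : ℝ}
    (ht : t ∈ Ico 0 T) : Tendsto (fun δ => ∫ q, eh δ f t q.2 q.1 ∂(nu d)) (𝓝[>] 0)
      (𝓝 (∫ q, ebt (f t q.2 q.1) ∂(nu d))) := by
  obtain ⟨K, hK0, hK⟩ := ent_bd hf ht.2
  have cf : Continuous fun q : Vec d × Vec d => f t q.2 q.1 :=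
    (hf.cont_slice ht).comp (by fun_prop : Continuous fun q : Vec d × Vec d => (q.2, q.1))
  have cg : Continuous fun q : Vec d × Vec d => gau q.1 := gau_smooth.continuous.comp continuous_fst
  have hev : ∀ᶠ δ : ℝ in 𝓝[>] 0, δ ∈ Ioo (0 : ℝ) 1 := Ioo_mem_nhdsGT one_pos
  refine tendsto_integral_filter_of_dominated_convergence (fun q => 6 * K * wt d q.1) ?_ ?_ ?_ ?_
  · refine Eventually.of_forall fun δ => ?_
    exact ((ebt_cont.comp (cf.add (continuous_const.mul cg))).sub
      (ebt_cont.comp (continuous_const.mul cg))).aestronglyMeasurable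
  · filter_upwards [hev] with δ hδ
    refine Eventually.of_forall fun q => ?_
    obtain ⟨a1, a2, a3⟩ := hK t ⟨ht.1, le_rfl⟩ q.2 q.1
    have h2 := ent_diff (hf.nonneg t ht q.2 q.1) (mul_pos hδ.1 (gau_pos q.1))
      (by have := gau_le q.1; have := gau_pos q.1; nlinarith [hδ.1, hδ.2])
    rw [Real.norm_eq_abs]
    unfold eh
    linarith
  · exact ((integrable_wt (d := d)).comp_fst (muD d)).const_mul _
  · refine Eventually.of_forall fun q => ?_
    have hc : Continuous fun δ : ℝ => eh δ f t q.2 q.1 := by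
      unfold eh
      exact (ebt_cont.comp (continuous_const.add (continuous_id.mul continuous_const))).sub
        (ebt_cont.comp (continuous_id.mul continuous_const))
    have h2 : eh 0 f t q.2 q.1 = ebt (f t q.2 q.1) := by
      unfold eh
      rw [zero_mul, add_zero, ebt_zero, sub_zero]
    rw [← h2]
    exact (hc.tendsto 0).mono_left nhdsWithin_le_nhds

private theorem ent_mono (hH : HTh Q) (hf : IsClassicalSol T (fun t x => Q (f t x)) f)
    (hI : HasInvariants T fun t x => Q (f t x)) {s t : ℝ} (hs : 0 < s) (hst : s ≤ t)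
    (ht : t < T) : ∫ q, ebt (f t q.2 q.1) ∂(nu d) ≤ ∫ q, ebt (f s q.2 q.1) ∂(nu d) := by
  refine le_of_forall_pos_le_add fun ε hε => ?_
  have hts : 0 < t - s + 1 := by linarith
  obtain ⟨δ₀, hδ₀, h⟩ := ent_step hH hf hI hs hst ht (div_pos hε hts)
  have h1 := ent_lim hf (t := t) ⟨hs.le.trans hst, ht⟩
  have h2 := (ent_lim hf (t := s) ⟨hs.le, hst.trans_lt ht⟩).add_const (ε / (t - s + 1) * (t - s))
  have h3 : ε / (t - s + 1) * (t - s) ≤ ε := by
    rw [div_mul_eq_mul_div, div_le_iff₀ hts]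
    nlinarith
  refine le_trans (le_of_tendsto_of_tendsto h1 h2 ?_) (by linarith)
  filter_upwards [Ioc_mem_nhdsGT hδ₀] with δ hδ
  exact h δ hδ

private theorem ent_cont {Q' : ℝ → Vec d → Vec d → ℝ} (hf : IsClassicalSol T Q' f) {t : ℝ}
    (ht : t < T) : ContinuousOn (fun s => ∫ q, ebt (f s q.2 q.1) ∂(nu d)) (Icc 0 t) := by
  obtain ⟨K, hK0, hK⟩ := ent_bd hf ht
  refine continuousOn_of_dominated (bound := fun q => 3 * K * wt d q.1) ?_ ?_ ?_ ?_
  · intro s hs
    have cf : Continuous fun q : Vec d × Vec d => f s q.2 q.1 :=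
      (hf.cont_slice ⟨hs.1, hs.2.trans_lt ht⟩).comp
        (by fun_prop : Continuous fun q : Vec d × Vec d => (q.2, q.1))
    exact (ebt_cont.comp cf).aestronglyMeasurable
  · intro s hs
    refine Eventually.of_forall fun q => ?_
    obtain ⟨a1, a2, a3⟩ := hK s hs q.2 q.1
    have h2 := ent_abs (hf.nonneg s ⟨hs.1, hs.2.trans_lt ht⟩ q.2 q.1)
    rw [Real.norm_eq_abs]
    linarith
  · exact ((integrable_wt (d := d)).comp_fst (muD d)).const_mul _
  · refine Eventually.of_forall fun q => ?_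
    have h1 : Continuous fun s : ℝ => (s, q.2, q.1) := by fun_prop
    exact ebt_cont.comp_continuousOn (hf.cont.comp h1.continuousOn
      fun s hs => ⟨⟨hs.1, hs.2.trans_lt ht⟩, mem_univ _⟩)

theorem entropy_le (hH : HTh Q) (hf : IsClassicalSol T (fun t x => Q (f t x)) f)
    (hI : HasInvariants T fun t x => Q (f t x)) {t : ℝ} (ht : t ∈ Ico 0 T) :
    ∫ q, f t q.2 q.1 * Real.log (f t q.2 q.1) ∂(nu d) ≤
      ∫ q, f 0 q.2 q.1 * Real.log (f 0 q.2 q.1) ∂(nu d) := by
  change ∫ q, ebt (f t q.2 q.1) ∂(nu d) ≤ ∫ q, ebt (f 0 q.2 q.1) ∂(nu d)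
  rcases ht.1.eq_or_lt with h0 | h0
  · rw [← h0]
  · have hc := ent_cont hf ht.2 0 ⟨le_rfl, ht.1⟩
    have h1 : Tendsto (fun s => ∫ q, ebt (f s q.2 q.1) ∂(nu d)) (𝓝[>] 0)
        (𝓝 (∫ q, ebt (f 0 q.2 q.1) ∂(nu d))) := by
      refine hc.tendsto.mono_left ?_
      rw [nhdsWithin_le_iff]
      exact mem_of_superset (Ioo_mem_nhdsGT h0) Ioo_subset_Icc_self
    refine ge_of_tendsto h1 ?_
    filter_upwards [Ioc_mem_nhdsGT h0] with s hs
    exact ent_mono hH hf hI hs.1 hs.2 ht.2

end Pool.Agent.H15.AV
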