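import Pool.Agent.H15.AV.Defs

/-!
# Averaging over balls in position space

MODULE Av1. `av r F x = ∫ kb y F(x - r y) dy` with a fixed smooth even bump function `kb ≥ 0`,
supported in the unit ball (sup norm), of integral `1`. For the derivative bounds write
`av r F x = ∫ r^{-d} kb ((x - z)/r) F z dz` and differentiate under the integral (bounded support).
-/

set_option autoImplicit false

open MeasureTheory Set Filter Topology Pool.Agent.H25.Kin

namespace Pool.Agent.H15.AV

variable {d : ℕ}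

/-- a bump function -/
noncomputable def bumpF (d : ℕ) : ContDiffBump (0 : Vec d) := ⟨1 / 2, 1, by norm_num, by norm_num⟩

/-- the averaging kernel -/
noncomputable def kb (d : ℕ) : Vec d → ℝ := (bumpF d).normed volume

/-- the average of `F` over the ball of radius `r` around `x` -/
noncomputable def av (r : ℝ) (F : Vec d → ℝ) (x : Vec d) : ℝ := ∫ y, kb d y * F (x - r • y)

theorem kb_nonneg (y : Vec d) : 0 ≤ kb d y := (bumpF d).nonneg_normed y

theorem kb_int : ∫ y, kb d y = 1 := (bumpF d).integral_normed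

theorem kb_supp {y : Vec d} (h : 1 ≤ ‖y‖) : kb d y = 0 := by
  by_contra hne
  have h1 : y ∈ Function.support (kb d) := hne
  unfold kb at h1
  rw [(bumpF d).support_normed_eq, mem_ball_zero_iff] at h1
  exact absurd h1 (not_lt.2 h)

theorem kb_even (y : Vec d) : kb d (-y) = kb d y := (bumpF d).normed_neg y

theorem kb_cont : Continuous (kb d) := (bumpF d).continuous_normed

theorem kb_integrable : Integrable (kb d) := (bumpF d).integrable_normed

theorem av_nonneg (r : ℝ) {F : Vec d → ℝ} (hF : ∀ x, 0 ≤ F x) (x : Vec d) : 0 ≤ av r F x :=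
  integral_nonneg fun y => mul_nonneg (kb_nonneg y) (hF _)

theorem av_abs_le (r : ℝ) {F : Vec d → ℝ} {A : ℝ} (hA : ∀ x, |F x| ≤ A) (x : Vec d) :
    |av r F x| ≤ A := by
  unfold av
  refine (abs_integral_le_integral_abs).trans ?_
  have h1 : ∫ y, |kb d y * F (x - r • y)| ≤ ∫ y, kb d y * A := by
    refine integral_mono_of_nonneg (Eventually.of_forall fun y => abs_nonneg _)
      (kb_integrable.mul_const A) (Eventually.of_forall fun y => ?_)
    show |kb d y * F (x - r • y)| ≤ kb d y * A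
    rw [abs_mul, abs_of_nonneg (kb_nonneg y)]
    exact mul_le_mul_of_nonneg_left (hA _) (kb_nonneg y)
  rw [integral_mul_const, kb_int, one_mul] at h1
  exact h1

theorem av_per (r : ℝ) {F : Vec d → ℝ} (hF : Per F) : Per (av r F) := by
  intro x i
  unfold av
  refine integral_congr_ae (Eventually.of_forall fun y => ?_)
  show kb d y * F (x + Pi.single i 1 - r • y) = kb d y * F (x - r • y)
  rw [show x + Pi.single i 1 - r • y = x - r • y + Pi.single i 1 by abel, hF]

theorem av_one (r : ℝ) (x : Vec d) : av r (fun _ => (1 : ℝ)) x = 1 := by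
  unfold av
  rw [integral_mul_const, kb_int, one_mul]

section Smooth

variable {V : Type} [NormedAddCommGroup V] [NormedSpace ℝ V] [FiniteDimensional ℝ V]
  [MeasurableSpace V] [BorelSpace V] {μ : Measure V} [μ.IsAddHaarMeasure]
  {E : Type} [NormedAddCommGroup E] [NormedSpace ℝ E]

/-- convolution with a vector valued kernel -/
private noncomputable def Av1J (μ : Measure V) (k : V → E) (F : V → ℝ) (x : V) : E :=
  ∫ t, F (x - t) • k t ∂μ

private lemma Av1_bd {F : V → ℝ} {A : ℝ} (hA : ∀ x, |F x| ≤ A) {k : V → E}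
    (hk : Integrable k μ) (x : V) : ‖Av1J μ k F x‖ ≤ A * ∫ t, ‖k t‖ ∂μ := by
  unfold Av1J
  refine (norm_integral_le_integral_norm _).trans ?_
  rw [← integral_const_mul]
  refine integral_mono_of_nonneg (Eventually.of_forall fun y => norm_nonneg _)
    (hk.norm.const_mul A) (Eventually.of_forall fun y => ?_)
  show ‖F (x - y) • k y‖ ≤ A * ‖k y‖
  rw [norm_smul, Real.norm_eq_abs]
  exact mul_le_mul_of_nonneg_right (hA _) (norm_nonneg _)

private lemma Av1_loc {F : V → ℝ} (mF : Measurable F) {A : ℝ} (hA : ∀ x, |F x| ≤ A) :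
    LocallyIntegrable F μ := by
  have h1 : LocallyIntegrable (fun _ : V => A) μ := locallyIntegrable_const A
  exact h1.mono mF.aestronglyMeasurable
    (Eventually.of_forall fun x => (hA x).trans (le_abs_self A))

private lemma Av1_deriv {F : V → ℝ} (hF : LocallyIntegrable F μ)
    {k : V → E} (hk : HasCompactSupport k) (hk1 : ContDiff ℝ 1 k) (x : V) :
    HasFDerivAt (Av1J μ k F) (Av1J μ (fderiv ℝ k) F x) x := by
  have h := hk.hasFDerivAt_convolution_left (ContinuousLinearMap.lsmul ℝ ℝ).flip hk1 hF x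
  have e1 : convolution k F (ContinuousLinearMap.lsmul ℝ ℝ).flip μ = Av1J μ k F := by
    funext z
    rfl
  have e2 : convolution (fderiv ℝ k) F
      (((ContinuousLinearMap.lsmul ℝ ℝ).flip).precompL V) μ x =
      Av1J μ (fderiv ℝ k) F x := by
    unfold Av1J convolution
    refine integral_congr_ae (Eventually.of_forall fun t => ?_)
    ext v
    simp
  rw [e1, e2] at h
  exact h

private lemma Av1_contDiff {F : V → ℝ} (hF : LocallyIntegrable F μ)
    {k : V → E} (hk : HasCompactSupport k) (hk2 : ContDiff ℝ 2 k) :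
    ContDiff ℝ 2 (Av1J μ k F) := by
  have h := hk.contDiff_convolution_left (n := 2) (ContinuousLinearMap.lsmul ℝ ℝ).flip hk2 hF
  exact h

private lemma Av1_fd {c r : ℝ} {K : V → E} (hK : ContDiff ℝ 1 K) :
    fderiv ℝ (fun t : V => c • K (r⁻¹ • t)) = fun t : V => (c * r⁻¹) • fderiv ℝ K (r⁻¹ • t) := by
  funext t
  have h1 : HasFDerivAt (fun t : V => r⁻¹ • t) (r⁻¹ • ContinuousLinearMap.id ℝ V) t :=
    (hasFDerivAt_id t).const_smul r⁻¹
  have h2 : HasFDerivAt K (fderiv ℝ K (r⁻¹ • t)) (r⁻¹ • t) :=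
    ((hK.differentiable one_ne_zero) _).hasFDerivAt
  have h3 := (h2.comp t h1).const_smul c
  have h4 : HasFDerivAt (fun t : V => c • K (r⁻¹ • t)) ((c * r⁻¹) • fderiv ℝ K (r⁻¹ • t)) t := by
    refine h3.congr_fderiv ?_
    ext v
    simp [mul_smul]
  exact h4.fderiv

private lemma Av1_scale {r : ℝ} (hr : 0 < r) (c : ℝ) (g : V → ℝ) :
    ∫ t : V, ((r ^ Module.finrank ℝ V)⁻¹ * c) * g (r⁻¹ • t) ∂μ = c * ∫ t, g t ∂μ := by
  rw [integral_const_mul, Measure.integral_comp_inv_smul_of_nonneg μ g hr.le, smul_eq_mul]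
  have : r ^ Module.finrank ℝ V ≠ 0 := (pow_pos hr _).ne'
  field_simp

/-- one derivative of the average with a rescaled vector valued kernel -/
private lemma Av1_one {K : V → E} (hK : ContDiff ℝ 1 K) (hKc : HasCompactSupport K) {r a : ℝ}
    (hr : 0 < r) (ha : 0 ≤ a) {F : V → ℝ} (mF : Measurable F) {A : ℝ} (hA : ∀ x, |F x| ≤ A)
    {G : V → E} (hG : G = Av1J μ (fun t => ((r ^ Module.finrank ℝ V)⁻¹ * a) • K (r⁻¹ • t)) F) :
    fderiv ℝ G = Av1J μ (fun t => ((r ^ Module.finrank ℝ V)⁻¹ * (a * r⁻¹)) •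
      fderiv ℝ K (r⁻¹ • t)) F ∧
      ∀ x, ‖fderiv ℝ G x‖ ≤ A * (a * r⁻¹ * ∫ t, ‖fderiv ℝ K t‖ ∂μ) := by
  set c := (r ^ Module.finrank ℝ V)⁻¹ with hc
  have hc0 : 0 < c := by positivity
  have hloc : LocallyIntegrable F μ := Av1_loc mF hA
  set k : V → E := fun t => (c * a) • K (r⁻¹ • t) with hk
  have hk1 : ContDiff ℝ 1 k := (hK.comp (contDiff_const_smul r⁻¹)).const_smul (c * a)
  have hkc : HasCompactSupport k := by
    have h1 : HasCompactSupport fun t : V => K (r⁻¹ • t) := hKc.comp_smul (inv_ne_zero hr.ne')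
    exact h1.smul_left (f := fun _ => c * a)
  have hkc' : HasCompactSupport (fderiv ℝ k) := hkc.fderiv ℝ
  have hi1 : Integrable (fderiv ℝ k) μ :=
    (hk1.continuous_fderiv one_ne_zero).integrable_of_hasCompactSupport hkc'
  have hfk : fderiv ℝ k = fun t : V => (c * (a * r⁻¹)) • fderiv ℝ K (r⁻¹ • t) := by
    rw [← mul_assoc]
    exact Av1_fd hK
  have hfd : fderiv ℝ G = Av1J μ (fderiv ℝ k) F := by
    rw [hG]
    funext x
    exact (Av1_deriv hloc hkc hk1 x).fderiv
  refine ⟨by rw [hfd, hfk], fun x => ?_⟩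
  rw [hfd]
  refine (Av1_bd hA hi1 x).trans (le_of_eq ?_)
  have h1 : ∫ t, ‖fderiv ℝ k t‖ ∂μ = a * r⁻¹ * ∫ t, ‖fderiv ℝ K t‖ ∂μ := by
    rw [← Av1_scale hr (a * r⁻¹), hfk]
    refine integral_congr_ae (Eventually.of_forall fun t => ?_)
    show ‖(c * (a * r⁻¹)) • fderiv ℝ K (r⁻¹ • t)‖ = _
    rw [norm_smul, Real.norm_of_nonneg (by positivity)]
  rw [h1]

private lemma Av1_gen {K : V → ℝ} (hK : ContDiff ℝ 2 K) (hKc : HasCompactSupport K) {r : ℝ}
    (hr : 0 < r) {F : V → ℝ} (mF : Measurable F) {A : ℝ} (hA : ∀ x, |F x| ≤ A) {G : V → ℝ}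
    (hG : ∀ x, G x = ∫ y, K y * F (x - r • y) ∂μ) :
    ContDiff ℝ 2 G ∧ (∀ x, ‖fderiv ℝ G x‖ ≤ (∫ t, ‖fderiv ℝ K t‖ ∂μ) * A / r) ∧
      ∀ x, ‖fderiv ℝ (fderiv ℝ G) x‖ ≤ (∫ t, ‖fderiv ℝ (fderiv ℝ K) t‖ ∂μ) * A / r ^ 2 := by
  have hloc : LocallyIntegrable F μ := Av1_loc mF hA
  have hK1 : ContDiff ℝ 1 K := hK.of_le (by norm_num)
  have hK1' : ContDiff ℝ 1 (fderiv ℝ K) := hK.fderiv_right (by norm_num)
  have hGJ : G = Av1J μ (fun t => ((r ^ Module.finrank ℝ V)⁻¹ * 1) • K (r⁻¹ • t)) F := by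
    funext x
    rw [hG]
    unfold Av1J
    have h1 := Av1_scale (μ := μ) hr 1 fun y => K y * F (x - r • y)
    rw [one_mul] at h1
    rw [← h1]
    refine integral_congr_ae (Eventually.of_forall fun t => ?_)
    show (r ^ Module.finrank ℝ V)⁻¹ * 1 * (K (r⁻¹ • t) * F (x - r • r⁻¹ • t)) =
      F (x - t) • (((r ^ Module.finrank ℝ V)⁻¹ * 1) • K (r⁻¹ • t))
    rw [smul_inv_smul₀ hr.ne', smul_eq_mul, smul_eq_mul]
    ring
  obtain ⟨a1, a2⟩ := Av1_one hK1 hKc hr zero_le_one mF hA hGJ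
  obtain ⟨b1, b2⟩ := Av1_one hK1' (hKc.fderiv ℝ) hr
    (mul_nonneg zero_le_one (inv_nonneg.2 hr.le)) mF hA a1
  refine ⟨?_, fun x => (a2 x).trans (le_of_eq ?_), fun x => (b2 x).trans (le_of_eq ?_)⟩
  · rw [hGJ]
    refine Av1_contDiff hloc ?_ ?_
    · have h1 : HasCompactSupport fun t : V => K (r⁻¹ • t) := hKc.comp_smul (inv_ne_zero hr.ne')
      exact h1.smul_left (f := fun _ => (r ^ Module.finrank ℝ V)⁻¹ * 1)
    · exact (hK.comp (contDiff_const_smul r⁻¹)).const_smul _
  · rw [div_eq_mul_inv]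
    ring
  · rw [div_eq_mul_inv, ← inv_pow, pow_two, one_mul]
    ring

end Smooth

private lemma Av1_kb_smooth : ContDiff ℝ 2 (kb d) := (bumpF d).contDiff_normed

private lemma Av1_kb_cpt : HasCompactSupport (kb d) := (bumpF d).hasCompactSupport_normed

/-- regularity of the averages -/
theorem av_smooth (d : ℕ) : ∃ C : ℝ, 0 ≤ C ∧ ∀ r ∈ Ioc (0 : ℝ) 1, ∀ F : Vec d → ℝ, Measurable F →
    ∀ A : ℝ, (∀ x, |F x| ≤ A) → ContDiff ℝ 2 (av r F) ∧ (∀ x, ‖fderiv ℝ (av r F) x‖ ≤ C * A / r) ∧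
      ∀ x, ‖fderiv ℝ (fderiv ℝ (av r F)) x‖ ≤ C * A / r ^ 2 := by
  set C1 := ∫ t, ‖fderiv ℝ (kb d) t‖ with hC1
  set C2 := ∫ t, ‖fderiv ℝ (fderiv ℝ (kb d)) t‖ with hC2
  have h10 : 0 ≤ C1 := integral_nonneg fun _ => norm_nonneg _
  have h20 : 0 ≤ C2 := integral_nonneg fun t => norm_nonneg (fderiv ℝ (fderiv ℝ (kb d)) t)
  refine ⟨C1 + C2, add_nonneg h10 h20, fun r hr F mF A hA => ?_⟩
  have hr0 : 0 < r := hr.1
  have hA0 : 0 ≤ A := (abs_nonneg _).trans (hA 0)
  obtain ⟨g1, g2, g3⟩ := Av1_gen (V := Vec d) (μ := (volume : Measure (Vec d)))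
    Av1_kb_smooth Av1_kb_cpt hr0 mF hA (G := av r F) (fun x => rfl)
  refine ⟨g1, fun x => (g2 x).trans ?_, fun x => (g3 x).trans ?_⟩
  · refine div_le_div_of_nonneg_right (mul_le_mul_of_nonneg_right ?_ hA0) hr0.le
    linarith
  · refine div_le_div_of_nonneg_right (mul_le_mul_of_nonneg_right ?_ hA0) (by positivity)
    linarith

private lemma Av1_int {F G : Vec d → ℝ} (mF : Measurable F) (mG : Measurable G) {A B : ℝ}
    (hA : ∀ x, |F x| ≤ A) (hB : ∀ x, |G x| ≤ B) (r : ℝ) :
    Integrable (fun q : Vec d × Vec d => F q.1 * (kb d q.2 * G (q.1 - r • q.2)))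
      ((muD d).prod volume) := by
  have hA0 : 0 ≤ A := (abs_nonneg _).trans (hA 0)
  have h1 : Integrable (fun q : Vec d × Vec d => kb d q.2) ((muD d).prod volume) :=
    kb_integrable.comp_snd (muD d)
  refine (h1.const_mul (A * B)).mono' ?_ (Eventually.of_forall fun q => ?_)
  · refine Measurable.aestronglyMeasurable ?_
    exact (mF.comp measurable_fst).mul ((kb_cont.measurable.comp measurable_snd).mul
      (mG.comp (measurable_fst.sub (measurable_snd.const_smul r))))
  · rw [Real.norm_eq_abs, abs_mul, abs_mul, abs_of_nonneg (kb_nonneg q.2)]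
    have h2 : |F q.1| * (kb d q.2 * |G (q.1 - r • q.2)|) ≤ A * (kb d q.2 * B) :=
      mul_le_mul (hA _) (mul_le_mul_of_nonneg_left (hB _) (kb_nonneg _))
        (mul_nonneg (kb_nonneg _) (abs_nonneg _)) hA0
    linarith

private lemma Av1_swap {F G : Vec d → ℝ} (mF : Measurable F) (mG : Measurable G) {A B : ℝ}
    (hA : ∀ x, |F x| ≤ A) (hB : ∀ x, |G x| ≤ B) (r : ℝ) :
    ∫ x, F x * av r G x ∂(muD d) = ∫ y, kb d y * ∫ x, F x * G (x - r • y) ∂(muD d) := by
  have h1 : ∫ x, F x * av r G x ∂(muD d) =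
      ∫ x, (∫ y, F x * (kb d y * G (x - r • y))) ∂(muD d) := by
    refine integral_congr_ae (Eventually.of_forall fun x => ?_)
    show F x * av r G x = ∫ y, F x * (kb d y * G (x - r • y))
    rw [integral_const_mul]
    rfl
  have h2 := integral_integral_swap (μ := muD d) (ν := (volume : Measure (Vec d)))
    (f := fun x y => F x * (kb d y * G (x - r • y))) (Av1_int mF mG hA hB r)
  rw [h1]
  refine h2.trans ?_
  refine integral_congr_ae (Eventually.of_forall fun y => ?_)
  show ∫ x, F x * (kb d y * G (x - r • y)) ∂(muD d) = kb d y * ∫ x, F x * G (x - r • y) ∂(muD d)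
  rw [← integral_const_mul]
  refine integral_congr_ae (Eventually.of_forall fun x => ?_)
  show F x * (kb d y * G (x - r • y)) = kb d y * (F x * G (x - r • y))
  ring

/-- symmetry on the torus -/
theorem av_sym (r : ℝ) {F G : Vec d → ℝ} (mF : Measurable F) (mG : Measurable G) {A B : ℝ}
    (hA : ∀ x, |F x| ≤ A) (hB : ∀ x, |G x| ≤ B) (pF : Per F) (pG : Per G) :
    ∫ x, F x * av r G x ∂(muD d) = ∫ x, av r F x * G x ∂(muD d) := by
  have h1 := Av1_swap mF mG hA hB r
  have h2 := Av1_swap mG mF hB hA r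
  have h3 : ∫ x, av r F x * G x ∂(muD d) = ∫ x, G x * av r F x ∂(muD d) :=
    integral_congr_ae (Eventually.of_forall fun x => mul_comm _ _)
  rw [h3, h1, h2]
  have h4 : ∫ y, kb d y * ∫ x, F x * G (x - r • y) ∂(muD d) =
      ∫ y, kb d (-y) * ∫ x, F x * G (x - r • (-y)) ∂(muD d) :=
    (integral_neg_eq_self (fun y => kb d y * ∫ x, F x * G (x - r • y) ∂(muD d)) volume).symm
  rw [h4]
  refine integral_congr_ae (Eventually.of_forall fun y => ?_)
  show kb d (-y) * ∫ x, F x * G (x - r • (-y)) ∂(muD d) =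
    kb d y * ∫ x, G x * F (x - r • y) ∂(muD d)
  rw [kb_even]
  congr 1
  have hp : Per fun x => G x * F (x - r • y) := by
    intro x i
    show G (x + Pi.single i 1) * F (x + Pi.single i 1 - r • y) = G x * F (x - r • y)
    rw [pG, show x + Pi.single i 1 - r • y = x - r • y + Pi.single i 1 by abel, pF]
  have h5 := hp.integral (r • y)
  unfold muD
  rw [← h5]
  refine integral_congr_ae (Eventually.of_forall fun x => ?_)
  show F x * G (x - r • (-y)) = G (x + r • y) * F (x + r • y - r • y)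
  rw [add_sub_cancel_right, smul_neg, sub_neg_eq_add, mul_comm]

theorem av_int (r : ℝ) {G : Vec d → ℝ} (mG : Measurable G) {B : ℝ} (hB : ∀ x, |G x| ≤ B)
    (pG : Per G) : ∫ x, av r G x ∂(muD d) = ∫ x, G x ∂(muD d) := by
  have h := av_sym r (F := fun _ => (1 : ℝ)) (G := G) measurable_const mG (A := 1)
    (fun _ => by simp) hB (fun _ _ => rfl) pG
  simp only [av_one, one_mul] at h
  exact h

/-- convergence as `r → 0`, pointwise for continuous functions -/
theorem av_tendsto {F : Vec d → ℝ} (hF : Continuous F) (x : Vec d) :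
    Tendsto (fun r => av r F x) (𝓝 0) (𝓝 (F x)) := by
  have h1 : ∀ r : ℝ, av r F x = ∫ y in Metric.closedBall (0 : Vec d) 1,
      kb d y * F (x - r • y) := by
    intro r
    unfold av
    refine (setIntegral_eq_integral_of_forall_compl_eq_zero fun y hy => ?_).symm
    rw [mem_closedBall_zero_iff, not_le] at hy
    rw [kb_supp hy.le, zero_mul]
  have h2 : Continuous fun r : ℝ => ∫ y in Metric.closedBall (0 : Vec d) 1,
      kb d y * F (x - r • y) := by
    refine continuous_parametric_integral_of_continuous ?_ (isCompact_closedBall _ _)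
    have := kb_cont (d := d)
    show Continuous fun q : ℝ × Vec d => kb d q.2 * F (x - q.1 • q.2)
    fun_prop
  have h3 := h2.tendsto 0
  have h4 : (fun r => av r F x) = fun r : ℝ => ∫ y in Metric.closedBall (0 : Vec d) 1,
      kb d y * F (x - r • y) := funext h1
  have h5 : av 0 F x = F x := by
    unfold av
    simp only [zero_smul, sub_zero]
    rw [integral_mul_const, kb_int, one_mul]
  rw [h4, ← h5, h1 0]
  exact h3

/-- joint measurability -/
theorem av_meas (r : ℝ) {ε : ℝ × Vec d → ℝ} (hε : Measurable ε) :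
    Measurable fun p : ℝ × Vec d => av r (fun y => ε (p.1, y)) p.2 := by
  have h1 : Measurable fun q : (ℝ × Vec d) × Vec d =>
      kb d q.2 * ε (q.1.1, q.1.2 - r • q.2) := by
    have hk : Measurable (kb d) := kb_cont.measurable
    refine (hk.comp measurable_snd).mul (hε.comp ?_)
    exact (measurable_fst.comp measurable_fst).prodMk
      ((measurable_snd.comp measurable_fst).sub (measurable_snd.const_smul r))
  exact (h1.stronglyMeasurable.integral_prod_right
    (f := fun (p : ℝ × Vec d) (y : Vec d) => kb d y * ε (p.1, p.2 - r • y))).measurable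

end Pool.Agent.H15.AV
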