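import Pool.Agent.H15.AV.TrC
import Pool.Agent.H15.AV.Av1

/-!
# The two ends of the main inequality

MODULE One. Test function `φ(v,y) = χ(v) G(y + s v)`, so that `φ(v, x - t v) = χ(v) G(x - (t-s) v)` and
`φ(v, x - s v) = χ(v) G(x)`.
-/

set_option autoImplicit false

open MeasureTheory Set Filter Topology Pool.Agent.H25.Kin

namespace Pool.Agent.H15.AV

variable {d : ℕ}

private theorem one_comp {χ : Vec d → ℝ} {R' : ℝ} (hs : ∀ v, R' ≤ ‖v‖ → χ v = 0) :
    HasCompactSupport χ :=
  HasCompactSupport.intro (isCompact_closedBall (0 : Vec d) R') fun v hv => hs v (by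
    rw [Metric.mem_closedBall, dist_zero_right, not_le] at hv
    exact hv.le)

private theorem one_cube {G : Vec d → ℝ} (pG : Per G) (a : Vec d) :
    ∫ y in Icc a (a + 1), G y = ∫ y, G y ∂(muD d) := by
  have h := pG.integral a
  unfold muD
  rw [← h, ← integral_indicator measurableSet_Icc, ← integral_indicator measurableSet_Icc,
    ← integral_add_right_eq_self ((Icc a (a + 1)).indicator G) a]
  congr 1
  funext y
  have e : y + a ∈ Icc a (a + 1) ↔ y ∈ Icc (0 : Vec d) 1 := by
    rw [mem_Icc, mem_Icc, le_add_iff_nonneg_left, add_comm a 1, add_le_add_iff_right]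
  by_cases hy : y ∈ Icc (0 : Vec d) 1
  · rw [indicator_of_mem hy, indicator_of_mem (e.2 hy)]
  · rw [indicator_of_notMem hy, indicator_of_notMem (fun h => hy (e.1 h))]

private theorem one_mu_univ : (muD d) univ = 1 := by
  unfold muD
  rw [Measure.restrict_apply_univ, Real.volume_Icc_pi]
  simp

private theorem one_mu_le (s : Set (Vec d)) : ((muD d) s).toReal ≤ 1 := by
  have h : (muD d) s ≤ 1 := (measure_mono (subset_univ s)).trans_eq one_mu_univ
  exact ENNReal.toReal_le_of_le_ofReal zero_le_one (by simpa using h)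

private theorem one_meas {F : Vec d → Vec d → ℝ} (hF : Slice F) {k : Vec d → ℝ → ℝ}
    (hk : Measurable fun p : Vec d × ℝ => k p.1 p.2) : Measurable fun x => ∫ v, k v (F x v) := by
  have h : StronglyMeasurable (Function.uncurry fun x v => k v (F x v)) :=
    (hk.comp (measurable_snd.prodMk hF.cont.measurable)).stronglyMeasurable
  exact h.integral_prod_right.measurable

private theorem one_int {F : Vec d → Vec d → ℝ} (hF : Slice F) (x : Vec d) :
    Integrable (F x) := by
  obtain ⟨C, hC⟩ := hF.decay (d + 1)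
  refine (integrable_wt.const_mul C).mono'
    (hF.cont.comp (by fun_prop : Continuous fun v : Vec d => (x, v))).aestronglyMeasurable
    (Eventually.of_forall fun v => ?_)
  have h := hC x v
  rw [Real.norm_eq_abs, abs_of_nonneg (hF.nonneg x v)]
  unfold wt
  rw [← div_eq_mul_inv, le_div_iff₀ (pow_pos (w_pos v) _), mul_comm]
  exact h

private theorem one_ufc {F : Vec d → Vec d → ℝ} (hF : Slice F) {δ : ℝ} (h0 : 0 < δ) :
    Continuous fun q : Vec d × Vec d => uf δ (F q.1 q.2) := by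
  have c := hF.cont
  have c1 : Continuous fun q : Vec d × Vec d => Real.log (1 + F q.1 q.2) :=
    (continuous_const.add c).log fun q => ne_of_gt (by
      have h := hF.nonneg q.1 q.2
      change 0 < 1 + F q.1 q.2
      linarith)
  have c2 : Continuous fun q : Vec d × Vec d => Real.log (δ + F q.1 q.2) :=
    (continuous_const.add c).log fun q => ne_of_gt (by
      have h := hF.nonneg q.1 q.2
      change 0 < δ + F q.1 q.2
      linarith)
  exact c1.sub c2

private theorem one_nu_int {H : Vec d × Vec d → ℝ} (hH : Continuous H) {B R : ℝ} (hR : 0 ≤ R)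
    (hb : ∀ q, |H q| ≤ B) (hs : ∀ q, R ≤ ‖q.1‖ → H q = 0) : Integrable H (nu d) := by
  have hB : 0 ≤ B := (abs_nonneg _).trans (hb 0)
  refine integrable_nu (C := B * (1 + R) ^ (d + 1)) hH.aestronglyMeasurable fun q => ?_
  by_cases h : R ≤ ‖q.1‖
  · rw [hs q h, abs_zero]
    exact mul_nonneg (by positivity) (wt_nonneg _)
  · push Not at h
    refine (hb q).trans ?_
    unfold wt
    rw [← div_eq_mul_inv, le_div_iff₀ (pow_pos (w_pos q.1) _)]
    exact mul_le_mul_of_nonneg_left
      (pow_le_pow_left₀ (w_pos q.1).le (by linarith) _) hB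

private theorem one_bd0 {E : Type*} [NormedAddCommGroup E] {ψ : Vec d → E} (c : Continuous ψ)
    (s : HasCompactSupport ψ) : ∃ C, ∀ v, ‖ψ v‖ ≤ C := s.exists_bound_of_continuous c
private theorem one_bd1 {χ : Vec d → ℝ} (hs : ContDiff ℝ 2 χ) (hc : HasCompactSupport χ) :
    ∃ C : ℝ, ∀ v, ‖fderiv ℝ χ v‖ ≤ C := by
  have c1 : Continuous (fderiv ℝ χ) := hs.continuous_fderiv (by norm_num)
  have s1 : HasCompactSupport (fderiv ℝ χ) := hc.fderiv ℝ
  exact one_bd0 (E := Vec d →L[ℝ] ℝ) c1 s1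
private theorem one_bd2 {χ : Vec d → ℝ} (hs : ContDiff ℝ 2 χ) (hc : HasCompactSupport χ) :
    ∃ C : ℝ, ∀ v, ‖fderiv ℝ (fderiv ℝ χ) v‖ ≤ C := by
  have c3 : ContDiff ℝ 1 (fderiv ℝ χ) := hs.fderiv_right (by norm_num)
  have c2 : Continuous (fderiv ℝ (fderiv ℝ χ)) := c3.continuous_fderiv (by norm_num)
  have s1 : HasCompactSupport (fderiv ℝ χ) := hc.fderiv ℝ
  have s2 : HasCompactSupport (fderiv ℝ (fderiv ℝ χ)) := s1.fderiv ℝ
  exact one_bd0 (E := Vec d →L[ℝ] Vec d →L[ℝ] ℝ) c2 s2
private theorem one_bd {χ : Vec d → ℝ} (hs : ContDiff ℝ 2 χ) (hc : HasCompactSupport χ) :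
    ∃ C1 C2 : ℝ, (∀ v, ‖fderiv ℝ χ v‖ ≤ C1) ∧ ∀ v, ‖fderiv ℝ (fderiv ℝ χ) v‖ ≤ C2 := by
  obtain ⟨C1, h1⟩ := one_bd1 hs hc
  obtain ⟨C2, h2⟩ := one_bd2 hs hc
  exact ⟨C1, C2, h1, h2⟩

/-- existence of cut-off functions -/
theorem exists_chi (d : ℕ) {R : ℝ} (hR : 0 < R) : ∃ (K : ℝ) (χ : Vec d → ℝ), Tst (2 * R) K χ ∧
    (∀ v, 0 ≤ χ v) ∧ (∀ v, χ v ≤ 1) ∧ ∀ v, ‖v‖ ≤ R → χ v = 1 := by
  obtain ⟨B, hB1, hB2⟩ : ∃ B : ContDiffBump (0 : Vec d), B.rIn = R ∧ B.rOut = 2 * R :=
    ⟨⟨R, 2 * R, hR, by linarith⟩, rfl, rfl⟩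
  obtain ⟨C1, C2, h1, h2⟩ := one_bd (χ := B) B.contDiff B.hasCompactSupport
  have l1 : C1 ≤ max 1 (max C1 C2) := (le_max_left C1 C2).trans (le_max_right 1 _)
  have l2 : C2 ≤ max 1 (max C1 C2) := (le_max_right C1 C2).trans (le_max_right 1 _)
  refine ⟨max 1 (max C1 C2), B, ⟨B.contDiff, fun v hv => ?_, fun v => ?_, fun v => (h1 v).trans l1,
    fun v => (h2 v).trans l2⟩, fun v => B.nonneg, fun v => B.le_one, fun v hv => ?_⟩
  · exact B.zero_of_le_dist (by rw [dist_zero_right, hB2]; exact hv)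
  · rw [abs_of_nonneg B.nonneg]
    exact B.le_one.trans (le_max_left _ _)
  · exact B.one_of_mem_closedBall (by rw [Metric.mem_closedBall, dist_zero_right, hB1]; exact hv)

/-- the velocities of length `≤ R` connect every point of the torus with every other one in time
`τ ∈ (0,1]` if `τ R ≥ 1/2` -/
theorem spread_lower {χ : Vec d → ℝ} {R R' : ℝ} (hc : Continuous χ) (h0 : ∀ v, 0 ≤ χ v)
    (h1 : ∀ v, ‖v‖ ≤ R → 1 ≤ χ v) (hs : ∀ v, R' ≤ ‖v‖ → χ v = 0) {τ : ℝ} (hτ : 0 < τ)
    (hτ1 : τ ≤ 1) (hτR : 1 / 2 ≤ τ * R) {G : Vec d → ℝ} (cG : Continuous G) (G0 : ∀ x, 0 ≤ G x)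
    (pG : Per G) (x : Vec d) :
    ∫ y, G y ∂(muD d) ≤ ∫ v, χ v * G (x - τ • v) := by
  set g : Vec d → ℝ := fun y => χ (τ⁻¹ • (x - y)) * G y with hg
  have cg : Continuous g := (hc.comp (by fun_prop)).mul cG
  have g0 : ∀ y, 0 ≤ g y := fun y => mul_nonneg (h0 _) (G0 y)
  have gs : HasCompactSupport g :=
    HasCompactSupport.intro (isCompact_closedBall x (τ * R')) fun y hy => by
      rw [Metric.mem_closedBall, not_le, dist_comm, dist_eq_norm] at hy
      have h : R' ≤ ‖τ⁻¹ • (x - y)‖ := by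
        rw [norm_smul, Real.norm_eq_abs, abs_of_pos (inv_pos.2 hτ), ← div_eq_inv_mul,
          le_div_iff₀ hτ, mul_comm]
        exact hy.le
      simp only [hg]
      rw [hs _ h, zero_mul]
  have ig : Integrable g := cg.integrable_of_hasCompactSupport gs
  have e1 : ∫ v, χ v * G (x - τ • v) = |(τ ^ d)⁻¹| * ∫ y, g y := by
    have e : (fun v => χ v * G (x - τ • v)) = fun v => (fun w => g (x - w)) (τ • v) := by
      funext v
      simp only [hg]
      rw [sub_sub_cancel, smul_smul, inv_mul_cancel₀ hτ.ne', one_smul]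
    have e' := Measure.integral_comp_smul (volume : Measure (Vec d)) (fun w => g (x - w)) τ
    rw [e, e', smul_eq_mul, Module.finrank_fin_fun, integral_sub_left_eq_self]
  set a : Vec d := x - fun _ => 1 / 2 with ha
  have e2 : ∫ y, G y ∂(muD d) ≤ ∫ y, g y := by
    rw [← one_cube pG a]
    refine le_trans ?_ (setIntegral_le_integral (s := Icc a (a + 1)) ig
      (Eventually.of_forall g0))
    refine setIntegral_mono_on (cG.continuousOn.integrableOn_compact isCompact_Icc)
      ig.integrableOn measurableSet_Icc fun y hy => ?_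
    have hn : ‖τ⁻¹ • (x - y)‖ ≤ R := by
      have h2 : ‖x - y‖ ≤ 1 / 2 := by
        rw [pi_norm_le_iff_of_nonneg (by norm_num)]
        intro i
        have h3 := hy.1 i
        have h4 := hy.2 i
        simp only [ha, Pi.sub_apply, Pi.add_apply, Pi.one_apply] at h3 h4
        rw [Real.norm_eq_abs, abs_le, Pi.sub_apply]
        constructor <;> linarith
      rw [norm_smul, Real.norm_eq_abs, abs_of_pos (inv_pos.2 hτ), ← div_eq_inv_mul,
        div_le_iff₀ hτ, mul_comm]
      linarith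
    have h5 := h1 _ hn
    simp only [hg]
    nlinarith [G0 y]
  have h6 : (1 : ℝ) ≤ |(τ ^ d)⁻¹| := by
    rw [abs_of_pos (inv_pos.2 (pow_pos hτ d))]
    exact (one_le_inv₀ (pow_pos hτ d)).2 (pow_le_one₀ hτ.le hτ1)
  have h7 : 0 ≤ ∫ y, g y := integral_nonneg g0
  rw [e1]
  nlinarith

/-- at the final time: vacuum fibers have maximal deficit -/
theorem lower_t {F : Vec d → Vec d → ℝ} (hF : Slice F) {δ : ℝ} (h0 : 0 < δ) (h1 : δ ≤ 1 / 2)
    {χ : Vec d → ℝ} {R K : ℝ} (hR : 0 < R) (hχ : Tst (2 * R) K χ) (χ0 : ∀ v, 0 ≤ χ v)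
    (χ1 : ∀ v, χ v ≤ 1) (χR : ∀ v, ‖v‖ ≤ R → χ v = 1) {τ : ℝ} (hτ : 0 < τ) (hτ1 : τ ≤ 1)
    (hτR : 1 / 2 ≤ τ * R) {G : Vec d → ℝ} (cG : Continuous G) (G0 : ∀ x, 0 ≤ G x) {A : ℝ}
    (GA : ∀ x, G x ≤ A) (pG : Per G) :
    ((muD d) {x | ∫ v, F x v < δ}).toReal * (lam δ * ∫ y, G y ∂(muD d)) ≤
      (∫ q, χ q.1 * G (q.2 - τ • q.1) * uf δ (F q.2 q.1) ∂(nu d)) + A := by
  have hA : 0 ≤ A := (G0 0).trans (GA 0)
  have hδ1 : δ ≤ 1 := by linarith
  have cχ : Continuous χ := hχ.smooth.continuous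
  have hl : 0 ≤ lam δ := (kf_nonneg h0 hδ1 le_rfl).trans (kf_le_lam h0 hδ1 le_rfl)
  set H : Vec d × Vec d → ℝ := fun q => χ q.1 * G (q.2 - τ • q.1) * uf δ (F q.2 q.1) with hH
  have cH : Continuous H :=
    ((cχ.comp continuous_fst).mul (cG.comp (by fun_prop))).mul
      ((one_ufc hF h0).comp (by fun_prop : Continuous fun q : Vec d × Vec d => (q.2, q.1)))
  have u0 : ∀ x v, 0 ≤ uf δ (F x v) := fun x v => uf_nonneg h0 hδ1 (hF.nonneg x v)
  have u1 : ∀ x v, uf δ (F x v) ≤ lam δ := fun x v => uf_le_lam h0 hδ1 (hF.nonneg x v)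
  have H0 : ∀ q, 0 ≤ H q := fun q => mul_nonneg (mul_nonneg (χ0 _) (G0 _)) (u0 _ _)
  have iH : Integrable H (nu d) := by
    refine one_nu_int cH (B := A * lam δ) (R := 2 * R) (by linarith) (fun q => ?_) fun q hq => ?_
    · rw [abs_of_nonneg (H0 q)]
      refine mul_le_mul ?_ (u1 _ _) (u0 _ _) hA
      calc χ q.1 * G (q.2 - τ • q.1) ≤ 1 * A := mul_le_mul (χ1 _) (GA _) (G0 _) zero_le_one
        _ = A := one_mul A
    · simp only [hH]
      rw [hχ.supp q.1 hq, zero_mul, zero_mul]
  have e1 : ∫ q, H q ∂(nu d) = ∫ x, (∫ v, H (v, x)) ∂(muD d) := by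
    unfold nu at iH ⊢
    exact integral_prod_symm H iH
  have iΦ : Integrable (fun x => ∫ v, H (v, x)) (muD d) := by
    unfold nu at iH
    exact iH.integral_prod_right
  set V : Set (Vec d) := {x | ∫ v, F x v < δ} with hV
  have mV : MeasurableSet V :=
    measurableSet_lt (one_meas hF (k := fun _ a => a) measurable_snd) measurable_const
  have key : ∀ x ∈ V, lam δ * (∫ y, G y ∂(muD d)) - A ≤ ∫ v, H (v, x) := by
    intro x hx
    have sx := spread_lower (R := R) cχ χ0 (fun v hv => (χR v hv).ge) hχ.supp hτ hτ1 hτR cG G0 pG x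
    have c1 : Continuous fun v => χ v * G (x - τ • v) := cχ.mul (cG.comp (by fun_prop))
    have i1 : Integrable fun v => χ v * G (x - τ • v) :=
      c1.integrable_of_hasCompactSupport ((one_comp hχ.supp).mul_right)
    have i2 := one_int hF x
    have i3 : Integrable fun v => H (v, x) := by
      refine (cH.comp (by fun_prop : Continuous fun v : Vec d => (v, x))).integrable_of_hasCompactSupport
        (HasCompactSupport.intro (isCompact_closedBall (0 : Vec d) (2 * R)) fun v hv => ?_)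
      rw [Metric.mem_closedBall, dist_zero_right, not_le] at hv
      simp only [hH, Function.comp]
      rw [hχ.supp v hv.le, zero_mul, zero_mul]
    have i4 : Integrable fun v => lam δ * (χ v * G (x - τ • v)) - A / δ * F x v :=
      (i1.const_mul _).sub (i2.const_mul _)
    have h2 : ∫ v, (lam δ * (χ v * G (x - τ • v)) - A / δ * F x v) ≤ ∫ v, H (v, x) := by
      refine integral_mono i4 i3 fun v => ?_
      simp only [hH]
      have h3 : uf δ (F x v) = lam δ - kf δ (F x v) := by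
        rw [← kf_add_uf δ (F x v)]; ring
      have h4 : χ v * G (x - τ • v) ≤ A := by
        calc χ v * G (x - τ • v) ≤ 1 * A := mul_le_mul (χ1 _) (GA _) (G0 _) zero_le_one
          _ = A := one_mul A
      have h5 := kf_le_div h0 hδ1 (hF.nonneg x v)
      have h6 := kf_nonneg h0 hδ1 (hF.nonneg x v)
      have h7 : χ v * G (x - τ • v) * kf δ (F x v) ≤ A * (F x v / δ) :=
        mul_le_mul h4 h5 h6 hA
      have h8 : A / δ * F x v = A * (F x v / δ) := by ring
      rw [h3, h8]
      nlinarith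
    rw [integral_sub (i1.const_mul _) (i2.const_mul _), integral_const_mul,
      integral_const_mul] at h2
    have h9 : A / δ * ∫ v, F x v ≤ A := by
      calc A / δ * ∫ v, F x v ≤ A / δ * δ :=
            mul_le_mul_of_nonneg_left (le_of_lt hx) (div_nonneg hA h0.le)
        _ = A := by field_simp
    have h10 := mul_le_mul_of_nonneg_left sx hl
    linarith
  have h2 : ((muD d) V).toReal * (lam δ * (∫ y, G y ∂(muD d)) - A) ≤ ∫ x, (∫ v, H (v, x)) ∂(muD d) := by
    calc ((muD d) V).toReal * (lam δ * (∫ y, G y ∂(muD d)) - A)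
        = ∫ _ in V, (lam δ * (∫ y, G y ∂(muD d)) - A) ∂(muD d) := by
          rw [setIntegral_const, smul_eq_mul]
          rfl
      _ ≤ ∫ x in V, (∫ v, H (v, x)) ∂(muD d) :=
          setIntegral_mono_on (integrable_const _).integrableOn iΦ.integrableOn mV key
      _ ≤ _ := setIntegral_le_integral iΦ
          (Eventually.of_forall fun x => integral_nonneg fun v => H0 (v, x))
  rw [e1]
  have h3 := one_mu_le V
  have h4 : 0 ≤ ((muD d) V).toReal := ENNReal.toReal_nonneg
  nlinarith [mul_le_mul_of_nonneg_right h3 hA]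

private theorem one_ub {F : Vec d → Vec d → ℝ} (hF : Slice F) {δ : ℝ} (h0 : 0 < δ) (h1 : δ ≤ 1)
    {χ : Vec d → ℝ} {R K : ℝ} (hχ : Tst (2 * R) K χ)
    (χ1 : ∀ v, χ v ≤ 1) (x : Vec d) :
    ∫ v, χ v * uf δ (F x v) ≤ ub δ (2 * R) (F x) := by
  have c1 : Continuous fun v => uf δ (F x v) :=
    (one_ufc hF h0).comp (by fun_prop : Continuous fun v : Vec d => (x, v))
  have u0 : ∀ v, 0 ≤ uf δ (F x v) := fun v => uf_nonneg h0 h1 (hF.nonneg x v)
  unfold ub
  rw [← integral_indicator Metric.isClosed_closedBall.measurableSet]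
  refine integral_mono ?_ ?_ fun v => ?_
  · exact (hχ.smooth.continuous.mul c1).integrable_of_hasCompactSupport
      ((one_comp hχ.supp).mul_right)
  · exact (c1.continuousOn.integrableOn_compact (isCompact_closedBall _ _)).integrable_indicator
      Metric.isClosed_closedBall.measurableSet
  · by_cases hv : v ∈ Metric.closedBall (0 : Vec d) (2 * R)
    · rw [indicator_of_mem hv]
      simp only
      nlinarith [u0 v, χ1 v]
    · rw [indicator_of_notMem hv]
      rw [Metric.mem_closedBall, dist_zero_right, not_le] at hv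
      simp only
      rw [hχ.supp v hv.le, zero_mul]

private theorem one_vol {R : ℝ} (hR : 0 ≤ R) :
    (volume (Metric.closedBall (0 : Vec d) (2 * R))).toReal = (4 * R) ^ d := by
  rw [Real.volume_pi_closedBall _ (by linarith), Fintype.card_fin,
    ENNReal.toReal_ofReal (by positivity)]
  ring

private theorem one_ub_le {F : Vec d → Vec d → ℝ} (hF : Slice F) {δ : ℝ} (h0 : 0 < δ)
    (h1 : δ ≤ 1) {R : ℝ} (hR : 0 ≤ R) (x : Vec d) :
    ub δ (2 * R) (F x) ≤ (4 * R) ^ d * lam δ := by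
  have c1 : Continuous fun v => uf δ (F x v) :=
    (one_ufc hF h0).comp (by fun_prop : Continuous fun v : Vec d => (x, v))
  unfold ub
  calc ∫ v in Metric.closedBall (0 : Vec d) (2 * R), uf δ (F x v)
      ≤ ∫ _ in Metric.closedBall (0 : Vec d) (2 * R), lam δ := by
        refine setIntegral_mono_on (c1.continuousOn.integrableOn_compact (isCompact_closedBall _ _))
          (continuous_const.continuousOn.integrableOn_compact (isCompact_closedBall _ _))
          Metric.isClosed_closedBall.measurableSet fun v _ => uf_le_lam h0 h1 (hF.nonneg x v)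
    _ = (4 * R) ^ d * lam δ := by
        rw [setIntegral_const, smul_eq_mul, ← one_vol hR]
        rfl

private theorem one_ub_nonneg {F : Vec d → Vec d → ℝ} (hF : Slice F) {δ : ℝ} (h0 : 0 < δ)
    (h1 : δ ≤ 1) (R : ℝ) (x : Vec d) : 0 ≤ ub δ R (F x) :=
  integral_nonneg fun v => uf_nonneg h0 h1 (hF.nonneg x v)

private theorem one_ub_meas {F : Vec d → Vec d → ℝ} (hF : Slice F) {δ : ℝ} (R : ℝ) :
    Measurable fun x => ub δ R (F x) := by
  unfold ub
  have h : StronglyMeasurable (Function.uncurry fun x v => uf δ (F x v)) :=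
    ((measurable_uf δ).comp hF.cont.measurable).stronglyMeasurable
  exact (h.integral_prod_right (ν := volume.restrict (Metric.closedBall (0 : Vec d) R))).measurable

private theorem one_good_meas {F : Vec d → Vec d → ℝ} (hF : Slice F) (m N : ℝ) :
    MeasurableSet {x | Good m N (F x)} := by
  have m1 : Measurable fun x => ∫ v, F x v := one_meas hF (k := fun _ a => a) measurable_snd
  have m2 : Measurable fun x => ∫ v, F x v * nsq v :=
    one_meas hF (k := fun v a => a * nsq v)
      (measurable_snd.mul (continuous_sq.measurable.comp measurable_fst))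
  have m3 : Measurable fun x => ∫ v, F x v * Real.log (F x v) :=
    one_meas hF (k := fun _ a => a * Real.log a)
      (measurable_snd.mul (Real.measurable_log.comp measurable_snd))
  have e : {x | Good m N (F x)} = ({x | m ≤ ∫ v, F x v} ∩ {x | ∫ v, F x v ≤ N}) ∩
      ({x | ∫ v, F x v * nsq v ≤ N} ∩ {x | ∫ v, F x v * Real.log (F x v) ≤ N}) := by
    ext x
    constructor
    · intro h
      exact ⟨⟨h.mass, h.massU⟩, h.energy, h.entropy⟩
    · rintro ⟨⟨h2, h3⟩, h4, h5⟩
      exact ⟨h2, h3, h4, h5⟩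
  rw [e]
  exact ((measurableSet_le measurable_const m1).inter (measurableSet_le m1 measurable_const)).inter
    ((measurableSet_le m2 measurable_const).inter (measurableSet_le m3 measurable_const))

/-- at the initial time: low, good and wild fibers -/
theorem upper_s {F : Vec d → Vec d → ℝ} (hF : Slice F) {δ : ℝ} (h0 : 0 < δ) (h1 : δ ≤ 1 / 2)
    {χ : Vec d → ℝ} {R K : ℝ} (hR : 0 < R) (hχ : Tst (2 * R) K χ) (χ0 : ∀ v, 0 ≤ χ v)
    (χ1 : ∀ v, χ v ≤ 1) {G : Vec d → ℝ} (cG : Continuous G) (G0 : ∀ x, 0 ≤ G x) {A : ℝ}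
    (GA : ∀ x, G x ≤ A) (pG : Per G) (m₁ N : ℝ) :
    ∫ q, χ q.1 * G q.2 * uf δ (F q.2 q.1) ∂(nu d) ≤
      (4 * R) ^ d * lam δ * ∫ x in {x | ∫ v, F x v < m₁}, G x ∂(muD d) +
      A * ∫ x in {x | Good m₁ N (F x)}, ub δ (2 * R) (F x) ∂(muD d) +
      A * ((4 * R) ^ d * lam δ) * ((muD d) {x | m₁ ≤ (∫ v, F x v) ∧ ¬ Good m₁ N (F x)}).toReal := by
  have hA : 0 ≤ A := (G0 0).trans (GA 0)
  have hδ1 : δ ≤ 1 := by linarith
  have cχ : Continuous χ := hχ.smooth.continuous
  have hl : 0 ≤ lam δ := (kf_nonneg h0 hδ1 le_rfl).trans (kf_le_lam h0 hδ1 le_rfl)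
  set H : Vec d × Vec d → ℝ := fun q => χ q.1 * G q.2 * uf δ (F q.2 q.1) with hH
  have cH : Continuous H :=
    ((cχ.comp continuous_fst).mul (cG.comp continuous_snd)).mul
      ((one_ufc hF h0).comp (by fun_prop : Continuous fun q : Vec d × Vec d => (q.2, q.1)))
  have u0 : ∀ x v, 0 ≤ uf δ (F x v) := fun x v => uf_nonneg h0 hδ1 (hF.nonneg x v)
  have u1 : ∀ x v, uf δ (F x v) ≤ lam δ := fun x v => uf_le_lam h0 hδ1 (hF.nonneg x v)
  have H0 : ∀ q, 0 ≤ H q := fun q => mul_nonneg (mul_nonneg (χ0 _) (G0 _)) (u0 _ _)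
  have iH : Integrable H (nu d) := by
    refine one_nu_int cH (B := A * lam δ) (R := 2 * R) (by linarith) (fun q => ?_) fun q hq => ?_
    · rw [abs_of_nonneg (H0 q)]
      refine mul_le_mul ?_ (u1 _ _) (u0 _ _) hA
      calc χ q.1 * G q.2 ≤ 1 * A := mul_le_mul (χ1 _) (GA _) (G0 _) zero_le_one
        _ = A := one_mul A
    · simp only [hH]
      rw [hχ.supp q.1 hq, zero_mul, zero_mul]
  have e1 : ∫ q, H q ∂(nu d) = ∫ x, (∫ v, H (v, x)) ∂(muD d) := by
    unfold nu at iH ⊢
    exact integral_prod_symm H iH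
  have iΦ : Integrable (fun x => ∫ v, H (v, x)) (muD d) := by
    unfold nu at iH
    exact iH.integral_prod_right
  have e2 : ∀ x, ∫ v, H (v, x) = G x * ∫ v, χ v * uf δ (F x v) := by
    intro x
    rw [← integral_const_mul]
    refine integral_congr_ae (Eventually.of_forall fun v => ?_)
    simp only [hH]
    ring
  have b1 : ∀ x, ∫ v, H (v, x) ≤ G x * ub δ (2 * R) (F x) := fun x => by
    rw [e2]
    exact mul_le_mul_of_nonneg_left (one_ub hF h0 hδ1 hχ χ1 x) (G0 x)
  have hc0 : 0 ≤ (4 * R) ^ d * lam δ := mul_nonneg (by positivity) hl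
  have b2 := one_ub_le hF h0 hδ1 hR.le
  have b3 := one_ub_nonneg hF h0 hδ1 (2 * R)
  set L : Set (Vec d) := {x | ∫ v, F x v < m₁} with hL
  set D : Set (Vec d) := {x | Good m₁ N (F x)} with hD
  set W : Set (Vec d) := {x | m₁ ≤ (∫ v, F x v) ∧ ¬ Good m₁ N (F x)} with hW
  have mL : MeasurableSet L :=
    measurableSet_lt (one_meas hF (k := fun _ a => a) measurable_snd) measurable_const
  have mD : MeasurableSet D := one_good_meas hF m₁ N
  have eW : W = Lᶜ ∩ Dᶜ := by
    ext x
    simp only [hW, hL, hD, mem_ofPred_eq, mem_inter_iff, mem_compl_iff, not_lt]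
  have mW : MeasurableSet W := by
    rw [eW]
    exact mL.compl.inter mD.compl
  have eD : Lᶜ ∩ D = D := by
    ext x
    simp only [hL, hD, mem_ofPred_eq, mem_inter_iff, mem_compl_iff, not_lt]
    exact ⟨fun h => h.2, fun h => ⟨h.mass, h⟩⟩
  have split : ∫ x, (∫ v, H (v, x)) ∂(muD d) = (∫ x in L, (∫ v, H (v, x)) ∂(muD d)) +
      ((∫ x in D, (∫ v, H (v, x)) ∂(muD d)) + ∫ x in W, (∫ v, H (v, x)) ∂(muD d)) := by
    rw [← integral_add_compl mL iΦ]
    congr 1
    rw [← integral_inter_add_sdiff mD iΦ.integrableOn, eD, eW]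
    rfl
  have iG : Integrable G (muD d) := by
    unfold muD
    exact cG.continuousOn.integrableOn_compact isCompact_Icc
  have iU : Integrable (fun x => ub δ (2 * R) (F x)) (muD d) := by
    refine (integrable_const ((4 * R) ^ d * lam δ)).mono'
      (one_ub_meas hF (2 * R)).aestronglyMeasurable (Eventually.of_forall fun x => ?_)
    rw [Real.norm_eq_abs, abs_of_nonneg (b3 x)]
    exact b2 x
  have p1 : ∫ x in L, (∫ v, H (v, x)) ∂(muD d) ≤ (4 * R) ^ d * lam δ * ∫ x in L, G x ∂(muD d) := by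
    rw [← integral_const_mul]
    refine setIntegral_mono_on iΦ.integrableOn (iG.const_mul _).integrableOn mL fun x _ => ?_
    refine (b1 x).trans ?_
    rw [mul_comm]
    exact mul_le_mul_of_nonneg_right (b2 x) (G0 x)
  have p2 : ∫ x in D, (∫ v, H (v, x)) ∂(muD d) ≤ A * ∫ x in D, ub δ (2 * R) (F x) ∂(muD d) := by
    rw [← integral_const_mul]
    refine setIntegral_mono_on iΦ.integrableOn (iU.const_mul _).integrableOn mD fun x _ => ?_
    exact (b1 x).trans (mul_le_mul_of_nonneg_right (GA x) (b3 x))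
  have p3 : ∫ x in W, (∫ v, H (v, x)) ∂(muD d) ≤ A * ((4 * R) ^ d * lam δ) * ((muD d) W).toReal := by
    calc ∫ x in W, (∫ v, H (v, x)) ∂(muD d) ≤ ∫ _ in W, A * ((4 * R) ^ d * lam δ) ∂(muD d) := by
          refine setIntegral_mono_on iΦ.integrableOn (integrable_const _).integrableOn mW
            fun x _ => ?_
          exact (b1 x).trans (mul_le_mul (GA x) (b2 x) (b3 x) hA)
      _ = _ := by
          rw [setIntegral_const, smul_eq_mul, mul_comm]
          rfl
  rw [e1, split]
  linarith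

/-- bounds of the velocity average -/
theorem gav_bounds {F : Vec d → Vec d → ℝ} (hF : Slice F) {χ : Vec d → ℝ} {R K : ℝ} (hR : 0 < R)
    (hχ : Tst (2 * R) K χ) (χ0 : ∀ v, 0 ≤ χ v) (χ1 : ∀ v, χ v ≤ 1) (x : Vec d) :
    0 ≤ (∫ v, χ v * kf (1 / 2) (F x v)) ∧ (∫ v, χ v * kf (1 / 2) (F x v)) ≤ (4 * R) ^ d ∧
      (∫ v, χ v * kf (1 / 2) (F x v)) ≤ 2 * ∫ v, F x v := by
  have k0 : ∀ v, 0 ≤ kf (1 / 2) (F x v) := fun v =>
    kf_nonneg (by norm_num) (by norm_num) (hF.nonneg x v)
  have k1 : ∀ v, kf (1 / 2) (F x v) ≤ 1 := fun v => half_le_one (hF.nonneg x v)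
  have k2 : ∀ v, kf (1 / 2) (F x v) ≤ 2 * F x v := fun v => by
    have h := kf_le_div (δ := 1 / 2) (by norm_num) (by norm_num) (hF.nonneg x v)
    linarith
  have i2 := one_int hF x
  have cF : Continuous fun v => F x v :=
    hF.cont.comp (by fun_prop : Continuous fun v : Vec d => (x, v))
  have mk : Measurable fun v => χ v * kf (1 / 2) (F x v) :=
    hχ.smooth.continuous.measurable.mul ((measurable_kf _).comp cF.measurable)
  have i1 : Integrable fun v => χ v * kf (1 / 2) (F x v) := by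
    refine (i2.const_mul 2).mono' mk.aestronglyMeasurable (Eventually.of_forall fun v => ?_)
    rw [Real.norm_eq_abs, abs_of_nonneg (mul_nonneg (χ0 v) (k0 v))]
    nlinarith [k0 v, k2 v, χ1 v, χ0 v]
  refine ⟨integral_nonneg fun v => mul_nonneg (χ0 v) (k0 v), ?_, ?_⟩
  · have hm : MeasurableSet (Metric.closedBall (0 : Vec d) (2 * R)) :=
      Metric.isClosed_closedBall.measurableSet
    calc ∫ v, χ v * kf (1 / 2) (F x v)
        ≤ ∫ v, (Metric.closedBall (0 : Vec d) (2 * R)).indicator (fun _ => (1 : ℝ)) v := by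
          refine integral_mono i1 ?_ fun v => ?_
          · exact IntegrableOn.integrable_indicator
              (continuous_const.continuousOn.integrableOn_compact (isCompact_closedBall _ _)) hm
          · by_cases hv : v ∈ Metric.closedBall (0 : Vec d) (2 * R)
            · rw [indicator_of_mem hv]
              simp only
              nlinarith [k0 v, k1 v, χ1 v, χ0 v]
            · rw [indicator_of_notMem hv]
              rw [Metric.mem_closedBall, dist_zero_right, not_le] at hv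
              simp only
              rw [hχ.supp v hv.le, zero_mul]
      _ = (4 * R) ^ d := by
          rw [integral_indicator hm, setIntegral_const, smul_eq_mul, mul_one, ← one_vol hR.le]
          rfl
  · rw [← integral_const_mul]
    refine integral_mono i1 (i2.const_mul 2) fun v => ?_
    simp only
    nlinarith [k0 v, k2 v, χ1 v, χ0 v]

end Pool.Agent.H15.AV
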