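import Pool.Agent.H15.AV.Evo
import Pool.Agent.H15.AV.One

/-!
# No vacuum in measure, at small times

MODULE Ini. Choose `R, ℓ, κ₀ > 0` with `|{v : ‖v‖ ≤ R, F₀(x,v) ≥ 2ℓ}| ≥ κ₀` for all `x` (lower mass
bound, `F₀` bounded, Gaussian tail), a smooth `θ : ℝ → [0,1]`, `θ = 0` on `(-∞, ℓ]`, `θ = 1` on
`[3ℓ/2, ∞)`, and `φ(v,y) = χ(v) θ(F₀(y,v))`. Then `pairU φ δ f 0 ≤ C` (`uf_le`), by `evol_crude`
`pairU φ δ f t ≤ C + K C t lam δ`; for `t ≤ h` uniform continuity of `F₀` on the ball gives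
`∫ φ(v, x - t v) dv ≥ κ₀`. In vacuum fibers `∫ kf δ (f t x v) dv ≤ 1`, so
`muD {∫ f t x < δ} κ₀ lam δ ≤ pairU φ δ f t + 1 ≤ C + 1 + K C t lam δ`.
-/

set_option autoImplicit false

open MeasureTheory Set Filter Topology Pool.Agent.H25.Kin

namespace Pool.Agent.H15.AV

variable {d : ℕ} {q : ℝ} {Q : (Vec d → ℝ) → Vec d → ℝ}

private theorem Ini_red {F : Vec d → ℝ} (hF : Per F) (y : Vec d) :
    ∃ z ∈ Icc (0 : Vec d) 1, F y = F z := by
  set l : Vec d := fun i => (⌊y i⌋ : ℝ) with hl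
  have hmem : l ∈ Submodule.span ℤ (Set.range (Pi.basisFun ℝ (Fin d))) := by
    have e : l = ∑ i, ⌊y i⌋ • Pi.basisFun ℝ (Fin d) i := by
      funext j
      simp [hl, Finset.sum_apply, Pi.single_apply]
    rw [e]
    exact Submodule.sum_mem _ fun i _ => Submodule.smul_mem _ _ (Submodule.subset_span ⟨i, rfl⟩)
  refine ⟨y - l, ⟨fun i => ?_, fun i => ?_⟩, ?_⟩
  · simp only [hl, Pi.zero_apply, Pi.sub_apply]
    linarith [Int.floor_le (y i)]
  · simp only [hl, Pi.one_apply, Pi.sub_apply]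
    linarith [Int.lt_floor_add_one (y i)]
  · have := hF.span hmem (y - l)
    rw [← this]
    congr 1
    abel

private theorem Ini_bdd {P : Vec d × Vec d → ℝ} (hc : Continuous P) {R : ℝ}
    (hp : ∀ v, Per fun y => P (y, v)) (hs : ∀ y v, R < ‖v‖ → P (y, v) = 0) :
    ∃ B : ℝ, 0 ≤ B ∧ ∀ p, |P p| ≤ B := by
  obtain ⟨B, hB⟩ := (isCompact_Icc.prod (isCompact_closedBall (0 : Vec d)
    R)).exists_bound_of_continuousOn (s := Icc (0 : Vec d) 1 ×ˢ Metric.closedBall (0 : Vec d) R)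
    hc.continuousOn
  refine ⟨max B 0, le_max_right _ _, fun p => ?_⟩
  obtain ⟨y, v⟩ := p
  rcases le_or_gt ‖v‖ R with hv | hv
  · obtain ⟨z, hz, e⟩ := Ini_red (hp v) y
    rw [e]
    exact (hB (z, v) ⟨hz, by simpa using hv⟩).trans (le_max_left _ _)
  · rw [hs y v hv, abs_zero]
    exact le_max_right _ _

private theorem Ini_per {E : Type*} [NormedAddCommGroup E] [NormedSpace ℝ E]
    {G : Vec d × Vec d → E} {a : Vec d × Vec d} (h : ∀ p, G (p + a) = G p) (p : Vec d × Vec d) :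
    fderiv ℝ G (p + a) = fderiv ℝ G p := by
  rw [← fderiv_comp_add_right]
  congr 1
  funext r
  exact h r

private theorem Ini_supp {E : Type*} [NormedAddCommGroup E] [NormedSpace ℝ E]
    {G : Vec d × Vec d → E} {R : ℝ} (h : ∀ p, R < ‖p.2‖ → G p = 0) (p : Vec d × Vec d)
    (hp : R < ‖p.2‖) : fderiv ℝ G p = 0 := by
  have e : G =ᶠ[𝓝 p] fun _ => 0 := by
    filter_upwards [(isOpen_lt continuous_const (continuous_norm.comp continuous_snd)).mem_nhds
      hp] with r hr using h r hr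
  rw [e.fderiv_eq]
  simp

private theorem Ini_nc {X E : Type*} [TopologicalSpace X] [NormedAddCommGroup E] {f : X → E}
    (h : Continuous f) : Continuous fun x => ‖f x‖ := h.norm

private theorem Ini_bounds {G : Vec d × Vec d → ℝ} (hG : ContDiff ℝ 2 G) {R : ℝ}
    (hp : ∀ p i, G (p + (Pi.single i 1, 0)) = G p) (hs : ∀ p, R < ‖p.2‖ → G p = 0) :
    ∃ B : ℝ, 0 ≤ B ∧ (∀ p, |G p| ≤ B) ∧ (∀ p, ‖fderiv ℝ G p‖ ≤ B) ∧
      ∀ p, ‖fderiv ℝ (fderiv ℝ G) p‖ ≤ B := by
  have hG1 : ContDiff ℝ 1 (fderiv ℝ G) := hG.fderiv_right (m := 1) (by norm_num)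
  have hG2 : Continuous (fderiv ℝ (fderiv ℝ G)) := hG1.continuous_fderiv (by norm_num)
  have hp1 : ∀ i p, fderiv ℝ G (p + (Pi.single i 1, 0)) = fderiv ℝ G p := fun i p =>
    Ini_per (fun p => hp p i) p
  have hp2 : ∀ i p, fderiv ℝ (fderiv ℝ G) (p + (Pi.single i 1, 0)) =
    fderiv ℝ (fderiv ℝ G) p := fun i p => Ini_per (fun p => hp1 i p) p
  have hs1 := Ini_supp hs
  have hs2 := Ini_supp hs1
  have ee : ∀ (y v : Vec d) (i : Fin d), (y + Pi.single i 1, v) =
      (y, v) + ((Pi.single i 1 : Vec d), (0 : Vec d)) := fun y v i => by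
    rw [Prod.mk_add_mk, add_zero]
  obtain ⟨B0, h0, hB0⟩ := Ini_bdd (P := G) hG.continuous (R := R)
    (fun v y i => by simp only; rw [ee, hp]) (fun y v hv => hs _ hv)
  obtain ⟨B1, h1, hB1⟩ := Ini_bdd (P := fun p => ‖fderiv ℝ G p‖) hG1.continuous.norm (R := R)
    (fun v y i => by simp only; rw [ee, hp1]) (fun y v hv => by
      rw [hs1 (y, v) hv]; exact norm_zero)
  obtain ⟨B2, h2, hB2⟩ := Ini_bdd (P := fun p => ‖fderiv ℝ (fderiv ℝ G) p‖)
    (Ini_nc (E := Vec d × Vec d →L[ℝ] Vec d × Vec d →L[ℝ] ℝ) hG2) (R := R)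
    (fun v y i => by simp only; rw [ee, hp2]) (fun y v hv => by
      rw [hs2 (y, v) hv]
      exact norm_zero (E := Vec d × Vec d →L[ℝ] Vec d × Vec d →L[ℝ] ℝ))
  refine ⟨B0 + B1 + B2, by positivity, fun p => ?_, fun p => ?_, fun p => ?_⟩
  · linarith [hB0 p]
  · have h3 := le_abs_self ‖fderiv ℝ G p‖
    have h4 := hB1 p
    linarith
  · have h3 := le_abs_self ‖fderiv ℝ (fderiv ℝ G) p‖
    have h4 := hB2 p
    linarith

private theorem Ini_tst {G : Vec d × Vec d → ℝ} (hG : ContDiff ℝ 2 G) {R B : ℝ} (hB : 0 ≤ B)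
    (hs : ∀ p, R ≤ ‖p.2‖ → G p = 0) (h0 : ∀ p, |G p| ≤ B) (h1 : ∀ p, ‖fderiv ℝ G p‖ ≤ B)
    (h2 : ∀ p, ‖fderiv ℝ (fderiv ℝ G) p‖ ≤ B) {τ : ℝ} (hτ : |τ| ≤ 1) (x : Vec d) :
    Tst R B fun v => G (x - τ • v, v) := by
  obtain ⟨A, hA⟩ : ∃ A : Vec d →L[ℝ] Vec d × Vec d, ∀ v, A v = (-(τ • v), v) :=
    ⟨(-(τ • ContinuousLinearMap.id ℝ (Vec d))).prod (ContinuousLinearMap.id ℝ (Vec d)),
      fun v => rfl⟩
  have hn : ∀ v, ‖A v‖ ≤ ‖v‖ := fun v => by
    rw [hA, Prod.norm_mk, norm_neg, norm_smul, Real.norm_eq_abs]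
    exact max_le (mul_le_of_le_one_left (norm_nonneg v) hτ) le_rfl
  have dG : Differentiable ℝ G := hG.differentiable (by norm_num)
  have hG1 : ContDiff ℝ 1 (fderiv ℝ G) := hG.fderiv_right (m := 1) (by norm_num)
  have dG1 : Differentiable ℝ (fderiv ℝ G) := hG1.differentiable (by norm_num)
  have e0 : (fun v => G (x - τ • v, v)) = fun v => G (A v + (x, 0)) := by
    funext v
    rw [hA, Prod.mk_add_mk, add_zero]
    congr 2
    abel
  have hi : ∀ v, HasFDerivAt (fun v => A v + ((x, 0) : Vec d × Vec d)) A v := fun v =>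
    A.hasFDerivAt.add_const _
  have e1 : fderiv ℝ (fun v => G (A v + (x, 0))) =
      fun v => (fderiv ℝ G (A v + (x, 0))).comp A := by
    funext v
    exact ((dG (A v + (x, 0))).hasFDerivAt.comp v (hi v)).fderiv
  have hd2 : ∀ v u w, fderiv ℝ (fun v => (fderiv ℝ G (A v + (x, 0))).comp A) v u w =
      fderiv ℝ (fderiv ℝ G) (A v + (x, 0)) (A u) (A w) := by
    intro v u w
    have h3 : HasFDerivAt (fun v => fderiv ℝ G (A v + (x, 0)))
        ((fderiv ℝ (fderiv ℝ G) (A v + (x, 0))).comp A) v :=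
      (dG1 (A v + (x, 0))).hasFDerivAt.comp v (hi v)
    have h4 := (h3.clm_comp (hasFDerivAt_const A v)).fderiv
    rw [h4]
    simp
  rw [e0]
  refine ⟨?_, ?_, ?_, ?_, ?_⟩
  · exact hG.comp (A.contDiff.add contDiff_const)
  · intro v hv
    refine hs _ ?_
    rw [hA]
    simpa using hv
  · exact fun v => h0 _
  · intro v
    rw [e1]
    refine ContinuousLinearMap.opNorm_le_bound _ hB fun u => ?_
    exact (ContinuousLinearMap.le_opNorm (fderiv ℝ G (A v + (x, 0))) (A u)).trans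
      (mul_le_mul (h1 _) (hn u) (norm_nonneg _) hB)
  · intro v
    rw [e1]
    refine ContinuousLinearMap.opNorm_le_bound _ hB fun u => ?_
    refine ContinuousLinearMap.opNorm_le_bound _ (by positivity) fun w => ?_
    rw [hd2]
    refine (ContinuousLinearMap.le_opNorm _ _).trans ?_
    refine mul_le_mul ?_ (hn w) (norm_nonneg _) (by positivity)
    refine (ContinuousLinearMap.le_opNorm _ _).trans ?_
    exact mul_le_mul (h2 _) (hn u) (norm_nonneg _) hB

private theorem Ini_comp {χ : Vec d → ℝ} {R' : ℝ} (hs : ∀ v, R' ≤ ‖v‖ → χ v = 0) :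
    HasCompactSupport χ :=
  HasCompactSupport.intro (isCompact_closedBall (0 : Vec d) R') fun v hv => hs v (by
    rw [Metric.mem_closedBall, dist_zero_right, not_le] at hv
    exact hv.le)

private theorem Ini_mu_univ : (muD d) univ = 1 := by
  unfold muD
  rw [Measure.restrict_apply_univ, Real.volume_Icc_pi]
  simp

private theorem Ini_mu_le (s : Set (Vec d)) : ((muD d) s).toReal ≤ 1 := by
  have h : (muD d) s ≤ 1 := (measure_mono (subset_univ s)).trans_eq Ini_mu_univ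
  exact ENNReal.toReal_le_of_le_ofReal zero_le_one (by simpa using h)

private theorem Ini_meas {F : Vec d → Vec d → ℝ} (hF : Slice F) :
    Measurable fun x => ∫ v, F x v := by
  have h : StronglyMeasurable (Function.uncurry fun x v => F x v) := hF.cont.stronglyMeasurable
  exact h.integral_prod_right.measurable

private theorem Ini_int {F : Vec d → Vec d → ℝ} (hF : Slice F) (x : Vec d) :
    Integrable (F x) := by
  obtain ⟨C, hC⟩ := hF.decay (d + 1)
  refine (integrable_wt.const_mul C).mono'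
    (hF.cont.comp (by fun_prop : Continuous fun v : Vec d => (x, v))).aestronglyMeasurable
    (Eventually.of_forall fun v => ?_)
  have h := hC x v
  rw [Real.norm_eq_abs, abs_of_nonneg (hF.nonneg x v)]
  unfold wt
  rw [← div_eq_mul_inv, le_div_iff₀ (pow_pos (w_pos v) _), mul_comm]
  exact h

private theorem Ini_ufc {F : Vec d → Vec d → ℝ} (hF : Slice F) {δ : ℝ} (h0 : 0 < δ) :
    Continuous fun q : Vec d × Vec d => uf δ (F q.1 q.2) := by
  have c := hF.cont
  have c1 : Continuous fun q : Vec d × Vec d => Real.log (1 + F q.1 q.2) :=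
    (continuous_const.add c).log fun q => ne_of_gt (by
      have h := hF.nonneg q.1 q.2
      change 0 < 1 + F q.1 q.2
      linarith)
  have c2 : Continuous fun q : Vec d × Vec d => Real.log (δ + F q.1 q.2) :=
    (continuous_const.add c).log fun q => ne_of_gt (by
      have h := hF.nonneg q.1 q.2
      change 0 < δ + F q.1 q.2
      linarith)
  exact c1.sub c2

private theorem Ini_nu_int {H : Vec d × Vec d → ℝ} (hH : Continuous H) {B R : ℝ} (hR : 0 ≤ R)
    (hb : ∀ q, |H q| ≤ B) (hs : ∀ q, R ≤ ‖q.1‖ → H q = 0) : Integrable H (nu d) := by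
  have hB : 0 ≤ B := (abs_nonneg _).trans (hb 0)
  refine integrable_nu (C := B * (1 + R) ^ (d + 1)) hH.aestronglyMeasurable fun q => ?_
  by_cases h : R ≤ ‖q.1‖
  · rw [hs q h, abs_zero]
    exact mul_nonneg (by positivity) (wt_nonneg _)
  · push Not at h
    refine (hb q).trans ?_
    unfold wt
    rw [← div_eq_mul_inv, le_div_iff₀ (pow_pos (w_pos q.1) _)]
    exact mul_le_mul_of_nonneg_left
      (pow_le_pow_left₀ (w_pos q.1).le (by linarith) _) hB

/-- vacuum fibers have maximal deficit -/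
private theorem Ini_lower {F : Vec d → Vec d → ℝ} (hF : Slice F) {δ : ℝ} (h0 : 0 < δ)
    (h1 : δ ≤ 1) {φ : Vec d × Vec d → ℝ} (cφ : Continuous φ) (φ0 : ∀ p, 0 ≤ φ p)
    (φ1 : ∀ p, φ p ≤ 1) {R : ℝ} (hR : 0 ≤ R) (φs : ∀ v y, R ≤ ‖v‖ → φ (v, y) = 0) {t κ : ℝ}
    (hκ : ∀ x, κ ≤ ∫ v, φ (v, x - t • v)) :
    ((muD d) {x | ∫ v, F x v < δ}).toReal * (lam δ * κ - 1) ≤
      ∫ p, φ (p.1, p.2 - t • p.1) * uf δ (F p.2 p.1) ∂(nu d) := by
  have hl : 0 ≤ lam δ := (kf_nonneg h0 h1 le_rfl).trans (kf_le_lam h0 h1 le_rfl)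
  set H : Vec d × Vec d → ℝ := fun p => φ (p.1, p.2 - t • p.1) * uf δ (F p.2 p.1) with hH
  have cH : Continuous H :=
    (cφ.comp (by fun_prop)).mul
      ((Ini_ufc hF h0).comp (by fun_prop : Continuous fun q : Vec d × Vec d => (q.2, q.1)))
  have u0 : ∀ x v, 0 ≤ uf δ (F x v) := fun x v => uf_nonneg h0 h1 (hF.nonneg x v)
  have u1 : ∀ x v, uf δ (F x v) ≤ lam δ := fun x v => uf_le_lam h0 h1 (hF.nonneg x v)
  have H0 : ∀ q, 0 ≤ H q := fun q => mul_nonneg (φ0 _) (u0 _ _)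
  have iH : Integrable H (nu d) := by
    refine Ini_nu_int cH (B := 1 * lam δ) (R := R) hR (fun q => ?_) fun q hq => ?_
    · rw [abs_of_nonneg (H0 q)]
      exact mul_le_mul (φ1 _) (u1 _ _) (u0 _ _) zero_le_one
    · simp only [hH]
      rw [φs q.1 _ hq, zero_mul]
  have e1 : ∫ q, H q ∂(nu d) = ∫ x, (∫ v, H (v, x)) ∂(muD d) := by
    unfold nu at iH ⊢
    exact integral_prod_symm H iH
  have iΦ : Integrable (fun x => ∫ v, H (v, x)) (muD d) := by
    unfold nu at iH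
    exact iH.integral_prod_right
  set V : Set (Vec d) := {x | ∫ v, F x v < δ} with hV
  have mV : MeasurableSet V := measurableSet_lt (Ini_meas hF) measurable_const
  have key : ∀ x ∈ V, lam δ * κ - 1 ≤ ∫ v, H (v, x) := by
    intro x hx
    have c1 : Continuous fun v => φ (v, x - t • v) := cφ.comp (by fun_prop)
    have i1 : Integrable fun v => φ (v, x - t • v) :=
      c1.integrable_of_hasCompactSupport (Ini_comp fun v hv => φs v _ hv)
    have i2 := Ini_int hF x
    have i3 : Integrable fun v => H (v, x) := by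
      refine (cH.comp (by fun_prop :
        Continuous fun v : Vec d => (v, x))).integrable_of_hasCompactSupport
        (Ini_comp (R' := R) fun v hv => ?_)
      simp only [hH, Function.comp]
      rw [φs v _ hv, zero_mul]
    have i4 : Integrable fun v => lam δ * φ (v, x - t • v) - 1 / δ * F x v :=
      (i1.const_mul _).sub (i2.const_mul _)
    have h2 : ∫ v, (lam δ * φ (v, x - t • v) - 1 / δ * F x v) ≤ ∫ v, H (v, x) := by
      refine integral_mono i4 i3 fun v => ?_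
      simp only [hH]
      have h3 : uf δ (F x v) = lam δ - kf δ (F x v) := by
        rw [← kf_add_uf δ (F x v)]; ring
      have h5 := kf_le_div h0 h1 (hF.nonneg x v)
      have h6 := kf_nonneg h0 h1 (hF.nonneg x v)
      have h7 : φ (v, x - t • v) * kf δ (F x v) ≤ 1 * (F x v / δ) :=
        mul_le_mul (φ1 _) h5 h6 zero_le_one
      have h8 : 1 / δ * F x v = 1 * (F x v / δ) := by ring
      rw [h3, h8]
      nlinarith
    rw [integral_sub (i1.const_mul _) (i2.const_mul _), integral_const_mul,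
      integral_const_mul] at h2
    have h9 : 1 / δ * ∫ v, F x v ≤ 1 := by
      calc 1 / δ * ∫ v, F x v ≤ 1 / δ * δ :=
            mul_le_mul_of_nonneg_left (le_of_lt hx) (by positivity)
        _ = 1 := by field_simp
    have h10 := mul_le_mul_of_nonneg_left (hκ x) hl
    linarith
  calc ((muD d) V).toReal * (lam δ * κ - 1)
      = ∫ _ in V, (lam δ * κ - 1) ∂(muD d) := by
        rw [setIntegral_const, smul_eq_mul]
        rfl
    _ ≤ ∫ x in V, (∫ v, H (v, x)) ∂(muD d) :=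
        setIntegral_mono_on (integrable_const _).integrableOn iΦ.integrableOn mV key
    _ ≤ ∫ x, (∫ v, H (v, x)) ∂(muD d) := setIntegral_le_integral iΦ
        (Eventually.of_forall fun x => integral_nonneg fun v => H0 (v, x))
    _ = _ := e1.symm

/-- the smooth cut-off of the values -/
private noncomputable def Ini_th (ℓ a : ℝ) : ℝ := Real.smoothTransition (a / ℓ - 1)

private theorem Ini_th_smooth (ℓ : ℝ) : ContDiff ℝ 2 (Ini_th ℓ) :=
  Real.smoothTransition.contDiff.comp ((contDiff_id.div_const ℓ).sub contDiff_const)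

private theorem Ini_th_zero {ℓ a : ℝ} (hℓ : 0 < ℓ) (ha : a ≤ ℓ) : Ini_th ℓ a = 0 := by
  unfold Ini_th
  refine Real.smoothTransition.zero_of_nonpos ?_
  rw [sub_nonpos, div_le_one hℓ]
  exact ha

private theorem Ini_th_one {ℓ a : ℝ} (hℓ : 0 < ℓ) (ha : 2 * ℓ ≤ a) : Ini_th ℓ a = 1 := by
  unfold Ini_th
  refine Real.smoothTransition.one_of_one_le ?_
  rw [le_sub_iff_add_le, le_div_iff₀ hℓ]
  linarith

private theorem Ini_th_lower {ℓ a A : ℝ} (hℓ : 0 < ℓ) (hA : 0 < A) (ha : a ≤ A) :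
    (a - 2 * ℓ) / A ≤ Ini_th ℓ a := by
  rcases le_or_gt (2 * ℓ) a with h | h
  · rw [Ini_th_one hℓ h, div_le_one hA]
    linarith
  · exact (div_nonpos_of_nonpos_of_nonneg (by linarith) hA.le).trans
      (Real.smoothTransition.nonneg _)

/-- the mass in the ball, uniformly in space -/
private theorem Ini_mass {F₀ : Vec d → Vec d → ℝ} (hF : Slice F₀) {m₀ : ℝ} (hm₀ : 0 < m₀)
    (hm : ∀ x, m₀ ≤ ∫ v, F₀ x v) : ∃ R : ℝ, 0 < R ∧
      ∀ x, 3 / 4 * m₀ ≤ ∫ v in Metric.closedBall (0 : Vec d) R, F₀ x v := by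
  obtain ⟨C, hC⟩ := hF.decay (d + 2)
  have hC0 : 0 ≤ C := (mul_nonneg (pow_nonneg (w_pos 0).le _) (hF.nonneg 0 0)).trans (hC 0 0)
  set W : ℝ := ∫ v, wt d v with hW
  have hW0 : 0 ≤ W := integral_nonneg fun v => wt_nonneg v
  set R : ℝ := 4 * C * W / m₀ + 1 with hR
  have hR0 : 0 < R := by positivity
  refine ⟨R, hR0, fun x => ?_⟩
  have hi := Ini_int hF x
  have hcv : Continuous (F₀ x) :=
    hF.cont.comp (by fun_prop : Continuous fun v : Vec d => (x, v))
  have hb : ∀ v, F₀ x v ≤ (Metric.closedBall (0 : Vec d) R).indicator (F₀ x) v +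
      C / (1 + R) * wt d v := by
    intro v
    by_cases hv : ‖v‖ ≤ R
    · have hm : v ∈ Metric.closedBall (0 : Vec d) R := by
        rw [Metric.mem_closedBall, dist_zero_right]; exact hv
      rw [indicator_of_mem hm]
      have : 0 ≤ C / (1 + R) * wt d v := mul_nonneg (by positivity) (wt_nonneg v)
      linarith
    · have hv' : R < ‖v‖ := not_le.1 hv
      have hm : v ∉ Metric.closedBall (0 : Vec d) R := by
        rw [Metric.mem_closedBall, dist_zero_right]; exact hv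
      rw [indicator_of_notMem hm, zero_add]
      have h := hC x v
      unfold wt
      rw [div_mul_eq_mul_div, le_div_iff₀ (by positivity), ← div_eq_mul_inv,
        le_div_iff₀ (pow_pos (w_pos v) _)]
      have h3 : F₀ x v * (1 + R) ≤ F₀ x v * (1 + ‖v‖) :=
        mul_le_mul_of_nonneg_left (by linarith) (hF.nonneg x v)
      calc F₀ x v * (1 + R) * (1 + ‖v‖) ^ (d + 1) ≤
          F₀ x v * (1 + ‖v‖) * (1 + ‖v‖) ^ (d + 1) :=
            mul_le_mul_of_nonneg_right h3 (pow_nonneg (w_pos v).le _)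
        _ = (1 + ‖v‖) ^ (d + 2) * F₀ x v := by ring
        _ ≤ C := h
  have h1 : ∫ v, F₀ x v ≤ (∫ v in Metric.closedBall (0 : Vec d) R, F₀ x v) +
      C / (1 + R) * W := by
    rw [← integral_indicator measurableSet_closedBall, hW, ← integral_const_mul,
      ← integral_add (hi.indicator measurableSet_closedBall) (integrable_wt.const_mul _)]
    exact integral_mono hi ((hi.indicator measurableSet_closedBall).add
      (integrable_wt.const_mul _)) hb
  have h2 : C / (1 + R) * W ≤ m₀ / 4 := by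
    rw [div_mul_eq_mul_div, div_le_iff₀ (by positivity)]
    have h3 : m₀ / 4 * (4 * C * W / m₀) = C * W := by
      field_simp
    rw [hR]
    nlinarith
  have h3 := hm x
  linarith

/-- uniform continuity along the free flow -/
private theorem Ini_flow {F₀ : Vec d → Vec d → ℝ} (hF : Slice F₀) {R η : ℝ} (hR : 0 < R)
    (hη : 0 < η) : ∃ h : ℝ, 0 < h ∧ h ≤ 1 ∧ ∀ t, 0 ≤ t → t ≤ h → ∀ x v : Vec d, ‖v‖ ≤ R →
      |F₀ (x - t • v) v - F₀ x v| ≤ η := by
  have hK : IsCompact (Metric.closedBall (0 : Vec d) (1 + R) ×ˢ Metric.closedBall (0 : Vec d) R) :=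
    (isCompact_closedBall _ _).prod (isCompact_closedBall _ _)
  have hu := hK.uniformContinuousOn_of_continuous hF.cont.continuousOn
  rw [Metric.uniformContinuousOn_iff] at hu
  obtain ⟨ρ, hρ, hu⟩ := hu η hη
  refine ⟨min 1 (ρ / (2 * R)), by positivity, min_le_left _ _, ?_⟩
  intro t ht0 hth x v hv
  have ht1 : t ≤ 1 := hth.trans (min_le_left _ _)
  have ht2 : t * R < ρ := by
    have h3 : t ≤ ρ / (2 * R) := hth.trans (min_le_right _ _)
    rw [le_div_iff₀ (by positivity)] at h3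
    nlinarith
  have hp : Per fun x => |F₀ (x - t • v) v - F₀ x v| := by
    intro x i
    have e : x + Pi.single i 1 - t • v = (x - t • v) + Pi.single i 1 := by abel
    simp only
    rw [e, hF.per, hF.per]
  obtain ⟨z, hz, e⟩ := Ini_red hp x
  rw [e]
  have hz1 : ‖z‖ ≤ 1 := by
    rw [pi_norm_le_iff_of_nonneg zero_le_one]
    intro i
    have h3 := hz.1 i
    have h4 := hz.2 i
    simp only [Pi.zero_apply, Pi.one_apply] at h3 h4
    rw [Real.norm_eq_abs, abs_of_nonneg h3]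
    exact h4
  have htv : ‖t • v‖ ≤ t * R := by
    rw [norm_smul, Real.norm_eq_abs, abs_of_nonneg ht0]
    exact mul_le_mul_of_nonneg_left hv ht0
  have htR : t * R ≤ R := mul_le_of_le_one_left hR.le ht1
  have h5 := hu (z - t • v, v) ⟨by
      rw [Metric.mem_closedBall, dist_zero_right]
      exact (norm_sub_le _ _).trans (by linarith), by
      rw [Metric.mem_closedBall, dist_zero_right]; exact hv⟩ (z, v) ⟨by
      rw [Metric.mem_closedBall, dist_zero_right]
      linarith, by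
      rw [Metric.mem_closedBall, dist_zero_right]; exact hv⟩ (by
      rw [Prod.dist_eq, dist_self, dist_eq_norm, sub_sub_cancel_left, norm_neg]
      exact max_lt (htv.trans_lt ht2) hρ)
  rw [Real.dist_eq] at h5
  exact h5.le

theorem init_pos (hQ : FibTh q Q) (hq : 0 ≤ q) (hq2 : q < 2) (m M : ℝ) {F₀ : Vec d → Vec d → ℝ}
    (hs : ContDiff ℝ 2 fun q : Vec d × Vec d => F₀ q.1 q.2) (hF : Slice F₀)
    (hm : ∃ m₀ > 0, ∀ x, m₀ ≤ ∫ v, F₀ x v) {ε : ℝ} (hε : 0 < ε) :
    ∃ δ > 0, ∃ h > 0, ∀ (T : ℝ) (f : ℝ → Vec d → Vec d → ℝ),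
      IsClassicalSol T (fun t x => Q (f t x)) f → (∀ t ∈ Ico 0 T, Glob m M (f t)) → f 0 = F₀ →
      ∀ t ∈ Ico 0 T, t ≤ h → muD d {x | ∫ v, f t x v < δ} ≤ ENNReal.ofReal ε := by
  obtain ⟨m₀, hm₀, hm⟩ := hm
  obtain ⟨R, hR, hmass⟩ := Ini_mass hF hm₀ hm
  obtain ⟨V, hV⟩ : ∃ V, V = (2 * R) ^ d := ⟨_, rfl⟩
  have hV0 : 0 < V := by rw [hV]; positivity
  obtain ⟨ℓ, hℓ⟩ : ∃ ℓ, ℓ = m₀ / (8 * V) := ⟨_, rfl⟩
  have hℓ0 : 0 < ℓ := by rw [hℓ]; positivity
  obtain ⟨h₁, hh₁, hh₁1, hflow⟩ := Ini_flow hF hR (η := m₀ / (4 * V)) (by positivity)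
  obtain ⟨A₀, hA₀⟩ := hF.decay 0
  obtain ⟨A, hA⟩ : ∃ A, A = |A₀| + 1 := ⟨_, rfl⟩
  have hA0 : 0 < A := by rw [hA]; positivity
  have hFA : ∀ x v, F₀ x v ≤ A := fun x v => by
    have h3 := hA₀ x v
    rw [pow_zero, one_mul] at h3
    rw [hA]
    linarith [le_abs_self A₀]
  obtain ⟨K₀, χ, hχ, χ0, χ1, χR⟩ := exists_chi d hR
  have cχ : Continuous χ := hχ.smooth.continuous
  -- the test function
  obtain ⟨G, hG⟩ : ∃ G : Vec d × Vec d → ℝ, G = fun p => χ p.2 * Ini_th ℓ (F₀ p.1 p.2) := ⟨_, rfl⟩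
  have sG : ContDiff ℝ 2 G := by
    rw [hG]
    exact (hχ.smooth.comp contDiff_snd).mul ((Ini_th_smooth ℓ).comp hs)
  have G0 : ∀ p, 0 ≤ G p := fun p => by
    rw [hG]; exact mul_nonneg (χ0 _) (Real.smoothTransition.nonneg _)
  have G1 : ∀ p, G p ≤ χ p.2 := fun p => by
    rw [hG]; exact mul_le_of_le_one_right (χ0 _) (Real.smoothTransition.le_one _)
  have Gs : ∀ p, 2 * R ≤ ‖p.2‖ → G p = 0 := fun p hp => by
    rw [hG]; simp only; rw [hχ.supp _ hp, zero_mul]
  obtain ⟨B, hB, hB0, hB1, hB2⟩ := Ini_bounds sG (R := 2 * R) (fun p i => by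
    rw [hG]
    simp only [Prod.fst_add, Prod.snd_add, add_zero]
    rw [hF.per]) (fun p hp => Gs p hp.le)
  obtain ⟨φ, hφ⟩ : ∃ φ : Vec d × Vec d → ℝ, φ = fun p => G (p.2, p.1) := ⟨_, rfl⟩
  have cφ : Continuous φ := by rw [hφ]; exact sG.continuous.comp (by fun_prop)
  have φ0 : ∀ p, 0 ≤ φ p := fun p => by rw [hφ]; exact G0 _
  have φ1 : ∀ p, φ p ≤ χ p.1 := fun p => by rw [hφ]; exact G1 _
  have φp : ∀ v, Per fun y => φ (v, y) := fun v y i => by
    rw [hφ, hG]; simp only; rw [hF.per]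
  have φT : ∀ τ : ℝ, |τ| ≤ 1 → ∀ x, Tst (2 * R) B fun v => φ (v, x - τ • v) := fun τ hτ x => by
    rw [hφ]; exact Ini_tst sG hB Gs hB0 hB1 hB2 hτ x
  have h2R : 0 < 2 * R := by linarith
  obtain ⟨C, hC, hev⟩ := evol_crude hQ hq hq2 m M h2R
  obtain ⟨L, hL⟩ : ∃ L, L = ∫ p : Vec d × Vec d, Real.log (1 + 1 / ℓ) * χ p.1 ∂(nu d) := ⟨_, rfl⟩
  have hlog : 0 ≤ Real.log (1 + 1 / ℓ) := Real.log_nonneg (by
    have : 0 < 1 / ℓ := by positivity
    linarith)
  have hL0 : 0 ≤ L := by rw [hL]; exact integral_nonneg fun p => mul_nonneg hlog (χ0 _)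
  obtain ⟨κ, hκ⟩ : ∃ κ, κ = m₀ / (4 * A) := ⟨_, rfl⟩
  have hκ0 : 0 < κ := by rw [hκ]; positivity
  obtain ⟨δ, hδ, hδ1, hlam⟩ := exists_lam_ge (2 * (L + 1) / (κ * ε))
  have hlamδ := hlam δ ⟨hδ, le_rfl⟩
  have hδ1' : δ ≤ 1 := by linarith
  have hlp : 0 < lam δ := lam_pos hδ (by linarith)
  refine ⟨δ, hδ, min h₁ (κ * ε / (2 * (B * C + 1))), by positivity, ?_⟩
  intro T f hf hGl hf0 t ht hth
  have ht1 : t ≤ h₁ := hth.trans (min_le_left _ _)
  have ht2 : t ≤ κ * ε / (2 * (B * C + 1)) := hth.trans (min_le_right _ _)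
  have htone : t ≤ 1 := ht1.trans hh₁1
  have hup := hev δ ⟨hδ, hδ1⟩ T f hf hGl t ht htone B φ cφ φ0 φp fun τ hτ x =>
    φT τ (by rw [abs_of_nonneg hτ.1]; exact hτ.2.trans htone) x
  -- the initial deficit
  have hini : pairU φ δ f 0 ≤ L := by
    unfold pairU
    rw [hf0, hL]
    refine integral_mono_of_nonneg (Eventually.of_forall fun p =>
      mul_nonneg (φ0 _) (uf_nonneg hδ hδ1' (hF.nonneg _ _))) ?_ (Eventually.of_forall fun p => ?_)
    · refine Ini_nu_int (continuous_const.mul (cχ.comp continuous_fst)) h2R.le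
        (B := Real.log (1 + 1 / ℓ) * 1) (fun p => ?_) fun p hp => ?_
      · rw [abs_of_nonneg (mul_nonneg hlog (χ0 _))]
        exact mul_le_mul_of_nonneg_left (χ1 _) hlog
      · rw [hχ.supp _ hp, mul_zero]
    · simp only [zero_smul, sub_zero]
      rcases le_or_gt (F₀ p.2 p.1) ℓ with h3 | h3
      · have e : φ (p.1, p.2) = 0 := by
          rw [hφ, hG]; simp only; rw [Ini_th_zero hℓ0 h3, mul_zero]
        rw [e, zero_mul]
        exact mul_nonneg hlog (χ0 _)
      · rw [mul_comm (Real.log _)]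
        exact mul_le_mul (φ1 _) (uf_le hδ hℓ0 h3.le)
          (uf_nonneg hδ hδ1' (hF.nonneg _ _)) (χ0 _)
  -- the lower bound of the transported test function
  have hlow : ∀ x, κ ≤ ∫ v, φ (v, x - t • v) := by
    intro x
    have i1 : Integrable fun v => φ (v, x - t • v) :=
      (cφ.comp (by fun_prop)).integrable_of_hasCompactSupport (Ini_comp (R' := 2 * R) fun v hv => by
        simp only [Function.comp]; rw [hφ]; exact Gs _ hv)
    have hfin : (volume : Measure (Vec d)) (Metric.closedBall (0 : Vec d) R) ≠ ⊤ :=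
      (isCompact_closedBall (0 : Vec d) R).measure_lt_top.ne
    have i2 := (Ini_int hF x).integrableOn (s := Metric.closedBall (0 : Vec d) R)
    have h3 : ∫ v in Metric.closedBall (0 : Vec d) R,
        (1 / A * F₀ x v - 1 / A * (m₀ / (4 * V) + 2 * ℓ)) ≤
        ∫ v in Metric.closedBall (0 : Vec d) R, φ (v, x - t • v) := by
      refine setIntegral_mono_on ((i2.const_mul _).sub (integrableOn_const hfin)) i1.integrableOn
        measurableSet_closedBall fun v hv => ?_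
      rw [Metric.mem_closedBall, dist_zero_right] at hv
      have h4 := (abs_le.1 (hflow t ht.1 ht1 x v hv)).1
      have h5 := Ini_th_lower hℓ0 hA0 (hFA (x - t • v) v)
      rw [hφ, hG]
      simp only
      rw [χR v hv, one_mul]
      refine le_trans ?_ h5
      rw [← mul_sub, div_eq_mul_one_div (F₀ (x - t • v) v - 2 * ℓ) A,
        mul_comm (F₀ (x - t • v) v - 2 * ℓ) (1 / A)]
      exact mul_le_mul_of_nonneg_left (by linarith) (by positivity)
    have h4 : ∫ v in Metric.closedBall (0 : Vec d) R, φ (v, x - t • v) ≤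
        ∫ v, φ (v, x - t • v) :=
      setIntegral_le_integral i1 (Eventually.of_forall fun v => φ0 _)
    have h5 : ∫ v in Metric.closedBall (0 : Vec d) R,
        (1 / A * F₀ x v - 1 / A * (m₀ / (4 * V) + 2 * ℓ)) =
        1 / A * (∫ v in Metric.closedBall (0 : Vec d) R, F₀ x v) -
          V * (1 / A * (m₀ / (4 * V) + 2 * ℓ)) := by
      rw [integral_sub (i2.const_mul _) (integrableOn_const hfin), integral_const_mul,
        setIntegral_const, smul_eq_mul, measureReal_def, Real.volume_pi_closedBall _ hR.le,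
        ENNReal.toReal_ofReal (by positivity), Fintype.card_fin, ← hV]
    have h6 := mul_le_mul_of_nonneg_left (hmass x) (show 0 ≤ 1 / A by positivity)
    have h7 : V * (1 / A * (m₀ / (4 * V) + 2 * ℓ)) = 1 / A * (m₀ / 2) := by
      rw [hℓ]
      field_simp
      ring
    have h8 : κ = 1 / A * (3 / 4 * m₀) - 1 / A * (m₀ / 2) := by
      rw [hκ]
      field_simp
      ring
    rw [h5, h7] at h3
    rw [h8]
    linarith
  have hdown := Ini_lower (sol_slice hf ht) hδ hδ1' cφ φ0 (fun p => (φ1 p).trans (χ1 _))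
    h2R.le (fun v y hv => by rw [hφ]; exact Gs _ hv) hlow
  have hpu : pairU φ δ f t = ∫ p, φ (p.1, p.2 - t • p.1) * uf δ (f t p.2 p.1) ∂(nu d) := rfl
  rw [← hpu] at hdown
  obtain ⟨μ, hμ⟩ : ∃ μ, μ = ((muD d) {x | ∫ v, f t x v < δ}).toReal := ⟨_, rfl⟩
  rw [← hμ] at hdown
  have hμ1 : μ ≤ 1 := by rw [hμ]; exact Ini_mu_le _
  have hμ0 : 0 ≤ μ := by rw [hμ]; exact ENNReal.toReal_nonneg
  have hBC : B * (C * t * lam δ) ≤ κ * ε / 2 * lam δ := by
    have h3 : t * (2 * (B * C + 1)) ≤ κ * ε := by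
      rwa [le_div_iff₀ (by positivity)] at ht2
    have h4 : B * C * t ≤ κ * ε / 2 := by nlinarith [ht.1]
    have h5 := mul_le_mul_of_nonneg_right h4 hlp.le
    linarith
  have hLl : L + 1 ≤ κ * ε / 2 * lam δ := by
    rw [div_le_iff₀ (by positivity)] at hlamδ
    linarith
  have h6 : μ * (lam δ * κ) ≤ ε * (lam δ * κ) := by nlinarith
  have h7 : μ ≤ ε := le_of_mul_le_mul_right h6 (by positivity)
  rw [ENNReal.le_ofReal_iff_toReal_le (measure_ne_top _ _) hε.le, ← hμ]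
  exact h7

end Pool.Agent.H15.AV
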