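import Pool.Agent.H15.AV.Fin
import Pool.Agent.H15.AV.Ini
import Pool.Agent.H15.AV.Ent

/-!
# Hydrodynamic bounds in measure: the abstract theorem

MODULE Abs. `Glob m M (f t)` for all `t` by `mass_const`, `energy_const`, `entropy_le` with
`m = ∫ F₀ > 0`. Lower bound of the mass density: `init_pos` for `t ≤ h` and `main_pos` for `t ≥ h`,
`ε/4` each; upper bounds by Chebyshev (`∫ (∫ f log f)⁺ dx ≤ 2M + zg d` by `plog_bound`).
-/

set_option autoImplicit false

open MeasureTheory Set Filter Topology Pool.Agent.H25.Kin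

namespace Pool.Agent.H15.AV

variable {d : ℕ} {q : ℝ} {Q : (Vec d → ℝ) → Vec d → ℝ}

private lemma abs_le_wt {F : Vec d → Vec d → ℝ} (hF : Slice F) (k : ℕ) : ∃ C : ℝ, 0 ≤ C ∧
    ∀ x v, (1 + ‖v‖) ^ k * F x v ≤ C * wt d v := by
  obtain ⟨C, hC⟩ := hF.decay (d + 1 + k)
  have hC0 : 0 ≤ C := (mul_nonneg (by positivity) (hF.nonneg 0 0)).trans (hC 0 0)
  refine ⟨C, hC0, fun x v => ?_⟩
  unfold wt
  rw [← div_eq_mul_inv, le_div_iff₀ (pow_pos (w_pos v) _)]
  calc (1 + ‖v‖) ^ k * F x v * (1 + ‖v‖) ^ (d + 1) = (1 + ‖v‖) ^ (d + 1 + k) * F x v := by ring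
    _ ≤ C := hC x v

private lemma abs_meas {F : Vec d → Vec d → ℝ} (hF : Slice F) :
    Measurable fun q : Vec d × Vec d => F q.2 q.1 :=
  (hF.cont.comp (continuous_snd.prodMk continuous_fst)).measurable

private lemma abs_int0 {F : Vec d → Vec d → ℝ} (hF : Slice F) :
    Integrable (fun q : Vec d × Vec d => F q.2 q.1) (nu d) := by
  obtain ⟨C, _, hC⟩ := abs_le_wt hF 0
  refine integrable_nu (C := C) (abs_meas hF).aestronglyMeasurable fun q => ?_
  rw [abs_of_nonneg (hF.nonneg _ _)]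
  have := hC q.2 q.1
  rwa [pow_zero, one_mul] at this

private lemma abs_int2 {F : Vec d → Vec d → ℝ} (hF : Slice F) :
    Integrable (fun q : Vec d × Vec d => F q.2 q.1 * nsq q.1) (nu d) := by
  obtain ⟨C, hC0, hC⟩ := abs_le_wt hF 2
  have hm : Measurable fun q : Vec d × Vec d => nsq q.1 := by unfold nsq; fun_prop
  refine integrable_nu (C := d * C) ((abs_meas hF).mul hm).aestronglyMeasurable fun q => ?_
  have hn : 0 ≤ nsq q.1 := Finset.sum_nonneg fun i _ => sq_nonneg _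
  rw [abs_of_nonneg (mul_nonneg (hF.nonneg _ _) hn)]
  have h1 := hC q.2 q.1
  have h2 : nsq q.1 ≤ d * (1 + ‖q.1‖) ^ 2 := by
    refine (sq_le q.1).trans (mul_le_mul_of_nonneg_left ?_ (Nat.cast_nonneg _))
    exact pow_le_pow_left₀ (norm_nonneg _) (by linarith) 2
  calc F q.2 q.1 * nsq q.1 ≤ F q.2 q.1 * (d * (1 + ‖q.1‖) ^ 2) :=
        mul_le_mul_of_nonneg_left h2 (hF.nonneg _ _)
    _ = d * ((1 + ‖q.1‖) ^ 2 * F q.2 q.1) := by ring
    _ ≤ d * (C * wt d q.1) := mul_le_mul_of_nonneg_left h1 (Nat.cast_nonneg _)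
    _ = _ := by ring

private lemma abs_intL {F : Vec d → Vec d → ℝ} (hF : Slice F) :
    Integrable (fun q : Vec d × Vec d => F q.2 q.1 * max 0 (Real.log (F q.2 q.1))) (nu d) := by
  obtain ⟨C, hC0, hC⟩ := abs_le_wt hF 0
  obtain ⟨C', hC'⟩ := hF.decay 0
  have hm : Measurable fun q : Vec d × Vec d => max 0 (Real.log (F q.2 q.1)) :=
    measurable_const.max (Real.measurable_log.comp (abs_meas hF))
  refine integrable_nu (C := C * Real.log (max C' 1)) ((abs_meas hF).mul hm).aestronglyMeasurable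
    fun q => ?_
  have hF0 := hF.nonneg q.2 q.1
  have h1 := hC q.2 q.1
  rw [pow_zero, one_mul] at h1
  have h2 := hC' q.2 q.1
  rw [pow_zero, one_mul] at h2
  have hl0 : 0 ≤ Real.log (max C' 1) := Real.log_nonneg (le_max_right _ _)
  rw [abs_of_nonneg (mul_nonneg hF0 (le_max_left _ _))]
  have h3 : max 0 (Real.log (F q.2 q.1)) ≤ Real.log (max C' 1) := by
    refine max_le hl0 ?_
    rcases hF0.eq_or_lt with h | h
    · rw [← h, Real.log_zero]; exact hl0
    · exact Real.log_le_log h (h2.trans (le_max_left _ _))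
  calc F q.2 q.1 * max 0 (Real.log (F q.2 q.1)) ≤ (C * wt d q.1) * Real.log (max C' 1) :=
        mul_le_mul h1 h3 (le_max_left _ _) (mul_nonneg hC0 (wt_nonneg _))
    _ = _ := by ring

/-- Markov's inequality on the torus -/
private lemma abs_markov {G : Vec d × Vec d → ℝ} (hG : Integrable G (nu d)) (h0 : ∀ q, 0 ≤ G q)
    {B N : ℝ} (hB : ∫ q, G q ∂(nu d) ≤ B) (hN : 0 < N) :
    muD d {x | N ≤ ∫ v, G (v, x)} ≤ ENNReal.ofReal (B / N) := by
  have h1 : Integrable (fun x => ∫ v, G (v, x)) (muD d) := hG.integral_prod_right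
  have h2 := mul_meas_ge_le_integral_of_nonneg (μ := muD d) (f := fun x => ∫ v, G (v, x))
    (Eventually.of_forall fun x => integral_nonneg fun v => h0 (v, x)) h1 N
  rw [← nu_integral hG] at h2
  have h3 : (muD d).real {x | N ≤ ∫ v, G (v, x)} ≤ B / N := by
    rw [le_div_iff₀ hN, mul_comm]
    exact h2.trans hB
  rw [← ofReal_measureReal (measure_ne_top _ _)]
  exact ENNReal.ofReal_le_ofReal h3

private lemma abs_entropy_le {F : Vec d → Vec d → ℝ} (hF : Slice F) (x : Vec d) :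
    ∫ v, F x v * Real.log (F x v) ≤ ∫ v, F x v * max 0 (Real.log (F x v)) := by
  have h0 : ∀ v, 0 ≤ F x v * max 0 (Real.log (F x v)) := fun v =>
    mul_nonneg (hF.nonneg x v) (le_max_left _ _)
  by_cases hi : Integrable fun v => F x v * Real.log (F x v)
  · refine integral_mono hi ?_ fun v => mul_le_mul_of_nonneg_left (le_max_right _ _) (hF.nonneg x v)
    have := hi.pos_part
    refine this.congr (Eventually.of_forall fun v => ?_)
    show max (F x v * Real.log (F x v)) 0 = F x v * max 0 (Real.log (F x v))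
    rw [mul_max_of_nonneg _ _ (hF.nonneg x v), mul_zero, max_comm]
  · rw [integral_undef hi]
    exact integral_nonneg h0

theorem chebyshev (m M : ℝ) {ε : ℝ} (hε : 0 < ε) : ∃ N : ℝ, ∀ F : Vec d → Vec d → ℝ, Slice F →
    Glob m M F → muD d {x | ¬ ((∫ v, F x v ≤ N) ∧ (∫ v, F x v * nsq v ≤ N) ∧
      ∫ v, F x v * Real.log (F x v) ≤ N)} ≤ ENNReal.ofReal ε := by
  set B : ℝ := |M| + |2 * M + zg d| + 1 with hB
  have hB0 : 0 < B := by positivity
  have hMB : M ≤ B := by
    have := le_abs_self M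
    have := abs_nonneg (2 * M + zg d)
    linarith
  have hMB2 : 2 * M + zg d ≤ B := by
    have := le_abs_self (2 * M + zg d)
    have := abs_nonneg M
    linarith
  have hN : 0 < 3 * B / ε := by positivity
  refine ⟨3 * B / ε, fun F hF hG => ?_⟩
  have e : B / (3 * B / ε) = ε / 3 := by field_simp
  have h1 := abs_markov (abs_int0 hF) (fun q => hF.nonneg _ _) (hG.massU.trans hMB) hN
  have h2 := abs_markov (abs_int2 hF) (fun q => mul_nonneg (hF.nonneg _ _)
    (Finset.sum_nonneg fun i _ => sq_nonneg _)) (hG.energy.trans hMB) hN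
  have h3 := abs_markov (abs_intL hF) (fun q => mul_nonneg (hF.nonneg _ _) (le_max_left _ _))
    ((plog_bound hF hG).trans hMB2) hN
  rw [e] at h1 h2 h3
  simp only at h1 h2 h3
  set N : ℝ := 3 * B / ε with hNdef
  have hsub : {x | ¬ ((∫ v, F x v ≤ N) ∧ (∫ v, F x v * nsq v ≤ N) ∧
      ∫ v, F x v * Real.log (F x v) ≤ N)} ⊆
      ({x | N ≤ ∫ v, F x v} ∪ {x | N ≤ ∫ v, F x v * nsq v}) ∪
        {x | N ≤ ∫ v, F x v * max 0 (Real.log (F x v))} := by
    intro x hx
    by_contra hcon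
    simp only [mem_union, mem_ofPred_eq, not_or, not_le] at hcon
    exact hx ⟨hcon.1.1.le, hcon.1.2.le, (abs_entropy_le hF x).trans hcon.2.le⟩
  refine (measure_mono hsub).trans ((measure_union_le _ _).trans ?_)
  refine (add_le_add (measure_union_le _ _) le_rfl).trans ?_
  refine (add_le_add (add_le_add h1 h2) h3).trans ?_
  rw [← ENNReal.ofReal_add (by positivity) (by positivity),
    ← ENNReal.ofReal_add (by positivity) (by positivity)]
  exact ENNReal.ofReal_le_ofReal (by linarith)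

theorem hydro_in_measure (hQ : FibTh q Q) (hH : HTh Q) (hq : 0 ≤ q) (hq2 : q < 2)
    (hI : ∀ (T : ℝ) (f : ℝ → Vec d → Vec d → ℝ), IsClassicalSol T (fun t x => Q (f t x)) f →
      HasInvariants T fun t x => Q (f t x))
    {F₀ : Vec d → Vec d → ℝ} (hs : ContDiff ℝ 2 fun q : Vec d × Vec d => F₀ q.1 q.2)
    (hF : Slice F₀) (hm : ∃ m₀ > 0, ∀ x, m₀ ≤ ∫ v, F₀ x v) {ε : ℝ} (hε : 0 < ε) :
    ∃ m > 0, ∃ M E H : ℝ, ∀ (T : ℝ) (f : ℝ → Vec d → Vec d → ℝ),
      IsClassicalSol T (fun t x => Q (f t x)) f → f 0 = F₀ → ∀ t ∈ Ico 0 T,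
        volume {x ∈ Icc (0 : Vec d) 1 | ¬ HydroBounds m M E H (f t x)} ≤ ENNReal.ofReal ε := by
  obtain ⟨m₀, hm₀, hm₀'⟩ := id hm
  set m : ℝ := ∫ q, F₀ q.2 q.1 ∂(nu d) with hmdef
  have hmu : (muD d) univ = 1 := by
    unfold muD
    rw [Measure.restrict_apply_univ, Real.volume_Icc_pi]
    simp
  have hmpos : 0 < m := by
    have hint : Integrable (fun x => ∫ v, F₀ x v) (muD d) := (abs_int0 hF).integral_prod_right
    have h1 : ∫ _x : Vec d, m₀ ∂(muD d) ≤ ∫ x, (∫ v, F₀ x v) ∂(muD d) :=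
      integral_mono (integrable_const _) hint fun x => hm₀' x
    rw [integral_const, measureReal_def, hmu] at h1
    have h2 : m = ∫ x, (∫ v, F₀ x v) ∂(muD d) := nu_integral (abs_int0 hF)
    rw [h2]
    simp only [ENNReal.toReal_one, one_smul] at h1
    linarith
  set M : ℝ := max m (max (∫ q, F₀ q.2 q.1 * nsq q.1 ∂(nu d))
    (∫ q, F₀ q.2 q.1 * Real.log (F₀ q.2 q.1) ∂(nu d))) with hM
  obtain ⟨δ₁, hδ₁, h, hh, hinit⟩ := init_pos hQ hq hq2 m M hs hF hm (ε := ε / 4) (by linarith)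
  obtain ⟨δ₂, hδ₂, hmain⟩ := main_pos hQ hq hq2 hmpos M hh (ε := ε / 4) (by linarith)
  obtain ⟨N, hN⟩ := chebyshev (d := d) m M (ε := ε / 2) (by linarith)
  refine ⟨min δ₁ δ₂, lt_min hδ₁ hδ₂, N, N, N, fun T f hf hf0 t ht => ?_⟩
  have hinv := hI T f hf
  have hglob : ∀ t ∈ Ico 0 T, Glob m M (f t) := by
    intro t ht
    have h1 := mass_const hf hinv ht
    have h2 := energy_const hf hinv ht
    have h3 := entropy_le hH hf hinv ht
    rw [hf0] at h1 h2 h3
    refine ⟨by rw [h1], by rw [h1]; exact le_max_left _ _, ?_, ?_⟩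
    · rw [h2]
      exact (le_max_left _ _).trans (le_max_right _ _)
    · exact h3.trans ((le_max_right _ _).trans (le_max_right _ _))
  have hlow : muD d {x | ∫ v, f t x v < min δ₁ δ₂} ≤ ENNReal.ofReal (ε / 4) := by
    rcases le_total t h with hth | hth
    · refine (measure_mono fun x hx => ?_).trans (hinit T f hf hglob hf0 t ht hth)
      exact lt_of_lt_of_le (mem_ofPred_eq ▸ hx) (min_le_left _ _)
    · refine (measure_mono fun x hx => ?_).trans (hmain T f hf hglob t ht hth)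
      exact lt_of_lt_of_le (mem_ofPred_eq ▸ hx) (min_le_right _ _)
  have hup := hN (f t) (sol_slice hf ht) (hglob t ht)
  have hvol : volume {x ∈ Icc (0 : Vec d) 1 | ¬ HydroBounds (min δ₁ δ₂) N N N (f t x)} ≤
      muD d {x | ¬ HydroBounds (min δ₁ δ₂) N N N (f t x)} := by
    unfold muD
    rw [Measure.restrict_apply' measurableSet_Icc]
    exact measure_mono fun x hx => ⟨hx.2, hx.1⟩
  refine hvol.trans ?_
  have hsub : {x | ¬ HydroBounds (min δ₁ δ₂) N N N (f t x)} ⊆
      {x | ∫ v, f t x v < min δ₁ δ₂} ∪ {x | ¬ ((∫ v, f t x v ≤ N) ∧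
        (∫ v, f t x v * nsq v ≤ N) ∧ ∫ v, f t x v * Real.log (f t x v) ≤ N)} := by
    intro x hx
    by_contra hcon
    simp only [mem_union, mem_ofPred_eq, not_or, not_not, not_lt] at hcon
    exact hx ⟨hcon.1, hcon.2.1, hcon.2.2.1, hcon.2.2.2⟩
  refine (measure_mono hsub).trans ((measure_union_le _ _).trans ?_)
  refine (add_le_add hlow hup).trans ?_
  rw [← ENNReal.ofReal_add (by positivity) (by positivity)]
  exact ENNReal.ofReal_le_ofReal (by linarith)

end Pool.Agent.H15.AV
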