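import Pool.Agent.H15.AV.Av1

/-!
# The velocity integral of an averaged function

MODULE Av2. `∫ χ(v)² (av r F)(y + τ v) dv = ∫ kb z ∫ χ(v)² F(y + τ v - r z) dv dz`, and by the shift
`v ↦ v + (r/τ) z` the inner integral is `∫ χ(v + (r/τ) z)² F(y + τ v) dv`. Then
`∫ |χ(v + a)² - χ(v)²| dv ≤ C |a|` for every `a` (Lipschitz and compactly supported).
-/

set_option autoImplicit false

open MeasureTheory Set Filter Topology Pool.Agent.H25.Kin

namespace Pool.Agent.H15.AV

variable {d : ℕ}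

private lemma Av2_sq_cont {χ : Vec d → ℝ} {R K : ℝ} (hχ : Tst R K χ) :
    Continuous fun v => χ v ^ 2 :=
  hχ.smooth.continuous.pow 2

private lemma Av2_ind_integrable (R : ℝ) :
    Integrable ((Metric.closedBall (0 : Vec d) R).indicator fun _ => (1 : ℝ)) :=
  (integrable_indicator_iff Metric.isClosed_closedBall.measurableSet).2
    (integrableOn_const (isCompact_closedBall (0 : Vec d) R).measure_lt_top.ne)

private lemma Av2_sq_le {χ : Vec d → ℝ} {R K : ℝ} (hχ : Tst R K χ) (v : Vec d) :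
    χ v ^ 2 ≤ K ^ 2 * (Metric.closedBall (0 : Vec d) R).indicator (fun _ => (1 : ℝ)) v := by
  by_cases hv : v ∈ Metric.closedBall (0 : Vec d) R
  · rw [Set.indicator_of_mem hv, mul_one]
    exact sq_le_sq' (by linarith [(abs_le.1 (hχ.le0 v)).1]) (abs_le.1 (hχ.le0 v)).2
  · rw [Set.indicator_of_notMem hv, mul_zero, hχ.supp v]
    · simp
    · rw [mem_closedBall_zero_iff, not_le] at hv
      exact hv.le

private lemma Av2_sq_integrable {χ : Vec d → ℝ} {R K : ℝ} (hχ : Tst R K χ) :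
    Integrable fun v => χ v ^ 2 := by
  refine ((Av2_ind_integrable (d := d) R).const_mul (K ^ 2)).mono'
    (Av2_sq_cont hχ).aestronglyMeasurable (Eventually.of_forall fun v => ?_)
  rw [Real.norm_eq_abs, abs_of_nonneg (sq_nonneg _)]
  exact Av2_sq_le hχ v

theorem lip_shift {χ : Vec d → ℝ} {R K : ℝ} (hχ : Tst R K χ) : ∃ C : ℝ, 0 ≤ C ∧ ∀ a : Vec d,
    ∫ v, |χ (v + a) ^ 2 - χ v ^ 2| ≤ C * ‖a‖ := by
  obtain ⟨b, hb⟩ : ∃ b : Vec d → ℝ, b = (Metric.closedBall (0 : Vec d) R).indicator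
    fun _ => (1 : ℝ) := ⟨_, rfl⟩
  have hbi : Integrable b := by
    rw [hb]
    exact Av2_ind_integrable R
  have hb0 : ∀ v, 0 ≤ b v := fun v => by
    rw [hb]
    exact Set.indicator_nonneg (fun _ _ => zero_le_one) v
  have hK : 0 ≤ K := (abs_nonneg _).trans (hχ.le0 0)
  have hlip : ∀ v a, |χ (v + a) - χ v| ≤ K * ‖a‖ := by
    intro v a
    have h1 := Convex.norm_image_sub_le_of_norm_fderiv_le (𝕜 := ℝ) (f := χ) (s := univ) (C := K)
      (fun x _ => hχ.smooth.differentiable (by norm_num) x) (fun x _ => hχ.le1 x) convex_univ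
      (mem_univ v) (mem_univ (v + a))
    rwa [add_sub_cancel_left, Real.norm_eq_abs] at h1
  have hz : ∀ v, b v = 0 → χ v = 0 := by
    intro v hv
    apply hχ.supp
    by_contra hc
    rw [not_le] at hc
    have h1 : v ∈ Metric.closedBall (0 : Vec d) R := by
      rw [mem_closedBall_zero_iff]
      exact hc.le
    rw [hb, Set.indicator_of_mem h1] at hv
    exact one_ne_zero hv
  have hb1 : ∀ v, b v = 0 ∨ b v = 1 := by
    intro v
    rw [hb]
    by_cases h1 : v ∈ Metric.closedBall (0 : Vec d) R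
    · exact Or.inr (Set.indicator_of_mem h1 _)
    · exact Or.inl (Set.indicator_of_notMem h1 _)
  refine ⟨2 * K ^ 2 * (2 * ∫ v, b v), by
    have : 0 ≤ ∫ v, b v := integral_nonneg (f := b) hb0
    positivity, fun a => ?_⟩
  have hpt : ∀ v, |χ (v + a) ^ 2 - χ v ^ 2| ≤ 2 * K ^ 2 * ‖a‖ * (b (v + a) + b v) := by
    intro v
    have h1 : |χ (v + a) ^ 2 - χ v ^ 2| ≤ 2 * K ^ 2 * ‖a‖ := by
      have e : χ (v + a) ^ 2 - χ v ^ 2 = (χ (v + a) - χ v) * (χ (v + a) + χ v) := by ring
      rw [e, abs_mul]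
      have h2 : |χ (v + a) + χ v| ≤ 2 * K :=
        (abs_add_le _ _).trans (by linarith [hχ.le0 (v + a), hχ.le0 v])
      calc |χ (v + a) - χ v| * |χ (v + a) + χ v| ≤ (K * ‖a‖) * (2 * K) :=
            mul_le_mul (hlip v a) h2 (abs_nonneg _) (mul_nonneg hK (norm_nonneg _))
        _ = 2 * K ^ 2 * ‖a‖ := by ring
    have h0 : 0 ≤ 2 * K ^ 2 * ‖a‖ := by positivity
    rcases hb1 (v + a) with h2 | h2
    · rcases hb1 v with h3 | h3
      · rw [hz _ h2, hz _ h3, h2, h3]
        simp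
      · rw [h2, h3]
        linarith
    · have := hb0 v
      rw [h2]
      have h4 : 2 * K ^ 2 * ‖a‖ * 1 ≤ 2 * K ^ 2 * ‖a‖ * (1 + b v) :=
        mul_le_mul_of_nonneg_left (by linarith) h0
      linarith
  have hbs : Integrable fun v => b (v + a) := hbi.comp_add_right a
  calc ∫ v, |χ (v + a) ^ 2 - χ v ^ 2| ≤ ∫ v, 2 * K ^ 2 * ‖a‖ * (b (v + a) + b v) :=
        integral_mono_of_nonneg (Eventually.of_forall fun v => abs_nonneg _)
          ((hbs.add hbi).const_mul _) (Eventually.of_forall hpt)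
    _ = 2 * K ^ 2 * ‖a‖ * ((∫ v, b (v + a)) + ∫ v, b v) := by
        rw [integral_const_mul, integral_add hbs hbi]
    _ = 2 * K ^ 2 * (2 * ∫ v, b v) * ‖a‖ := by
        rw [integral_add_right_eq_self]
        ring

theorem av_inner {χ : Vec d → ℝ} {R K : ℝ} (hχ : Tst R K χ) : ∃ C : ℝ, 0 ≤ C ∧
    ∀ r > 0, ∀ F : Vec d → ℝ, Measurable F → (∀ x, |F x| ≤ 1) → ∀ τ : ℝ, τ ≠ 0 → ∀ y : Vec d,
      |(∫ v, χ v ^ 2 * av r F (y + τ • v)) - ∫ v, χ v ^ 2 * F (y + τ • v)| ≤ C * (r / |τ|) := by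
  obtain ⟨C, hC, hCs⟩ := lip_shift hχ
  refine ⟨C, hC, fun r hr F mF hF τ hτ y => ?_⟩
  have hχi := Av2_sq_integrable hχ
  have hχc := Av2_sq_cont hχ
  have hki := kb_integrable (d := d)
  -- integrable functions
  have hsh : ∀ a : Vec d, Integrable fun v => χ (v + a) ^ 2 * F (y + τ • v) := by
    intro a
    refine (hχi.comp_add_right a).mono' ?_ (Eventually.of_forall fun v => ?_)
    · refine AEStronglyMeasurable.mul ?_ ?_
      · exact (hχc.comp (continuous_id.add continuous_const)).aestronglyMeasurable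
      · exact (mF.comp (by fun_prop)).aestronglyMeasurable
    · rw [Real.norm_eq_abs, abs_mul, abs_of_nonneg (sq_nonneg _)]
      exact mul_le_of_le_one_right (sq_nonneg _) (hF _)
  have hprod : Integrable (Function.uncurry fun v z : Vec d =>
      χ v ^ 2 * (kb d z * F (y + τ • v - r • z))) (volume.prod volume) := by
    refine (hχi.mul_prod hki).mono' ?_ (Eventually.of_forall fun p => ?_)
    · refine AEStronglyMeasurable.mul ?_ (AEStronglyMeasurable.mul ?_ ?_)
      · exact (hχc.comp continuous_fst).aestronglyMeasurable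
      · exact (kb_cont.comp continuous_snd).aestronglyMeasurable
      · exact (mF.comp (by fun_prop)).aestronglyMeasurable
    · change ‖χ p.1 ^ 2 * (kb d p.2 * F (y + τ • p.1 - r • p.2))‖ ≤ χ p.1 ^ 2 * kb d p.2
      rw [Real.norm_eq_abs, abs_mul, abs_of_nonneg (sq_nonneg _), abs_mul,
        abs_of_nonneg (kb_nonneg p.2)]
      exact mul_le_mul_of_nonneg_left (mul_le_of_le_one_right (kb_nonneg _) (hF _)) (sq_nonneg _)
  -- the first integral
  have e5 : ∀ z, ∫ v, χ v ^ 2 * (kb d z * F (y + τ • v - r • z)) =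
      kb d z * ∫ v, χ (v + (r / τ) • z) ^ 2 * F (y + τ • v) := by
    intro z
    rw [← integral_const_mul, ← integral_add_right_eq_self _ ((r / τ) • z)]
    refine integral_congr_ae (Eventually.of_forall fun v => ?_)
    change χ (v + (r / τ) • z) ^ 2 * (kb d z * F (y + τ • (v + (r / τ) • z) - r • z)) =
      kb d z * (χ (v + (r / τ) • z) ^ 2 * F (y + τ • v))
    have e3 : y + τ • (v + (r / τ) • z) - r • z = y + τ • v := by
      rw [smul_add, smul_smul, mul_div_cancel₀ _ hτ]
      abel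
    rw [e3]
    ring
  have e1 : ∫ v, χ v ^ 2 * av r F (y + τ • v) =
      ∫ z, kb d z * ∫ v, χ (v + (r / τ) • z) ^ 2 * F (y + τ • v) := by
    have e2 : ∀ v, χ v ^ 2 * av r F (y + τ • v) =
        ∫ z, χ v ^ 2 * (kb d z * F (y + τ • v - r • z)) := fun v => by
      rw [integral_const_mul]
      rfl
    simp_rw [e2]
    rw [integral_integral_swap hprod]
    exact integral_congr_ae (Eventually.of_forall e5)
  have e4 : ∫ v, χ v ^ 2 * F (y + τ • v) = ∫ z, kb d z * ∫ v, χ v ^ 2 * F (y + τ • v) := by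
    rw [integral_mul_const, kb_int, one_mul]
  have h0 := hsh 0
  simp only [add_zero] at h0
  have hin : ∀ z, |(∫ v, χ (v + (r / τ) • z) ^ 2 * F (y + τ • v)) -
      ∫ v, χ v ^ 2 * F (y + τ • v)| ≤ C * ‖(r / τ) • z‖ := by
    intro z
    rw [← integral_sub (hsh _) h0]
    refine (abs_integral_le_integral_abs).trans ((integral_mono_of_nonneg
      (Eventually.of_forall fun v => abs_nonneg _) ?_
      (Eventually.of_forall fun v => ?_)).trans (hCs _))
    · exact ((hχi.comp_add_right _).sub hχi).abs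
    · change |χ (v + (r / τ) • z) ^ 2 * F (y + τ • v) - χ v ^ 2 * F (y + τ • v)| ≤
        |χ (v + (r / τ) • z) ^ 2 - χ v ^ 2|
      rw [← sub_mul, abs_mul]
      exact mul_le_of_le_one_right (abs_nonneg _) (hF _)
  have hm : Integrable fun z => kb d z * ∫ v, χ (v + (r / τ) • z) ^ 2 * F (y + τ • v) := by
    refine (hprod.integral_prod_right).congr (Eventually.of_forall fun z => ?_)
    exact e5 z
  have hm2 : Integrable fun z => kb d z * ∫ v, χ v ^ 2 * F (y + τ • v) := hki.mul_const _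
  rw [e1, e4, ← integral_sub hm hm2]
  have hpt : ∀ z, |kb d z * (∫ v, χ (v + (r / τ) • z) ^ 2 * F (y + τ • v)) -
      kb d z * ∫ v, χ v ^ 2 * F (y + τ • v)| ≤ kb d z * (C * (r / |τ|)) := by
    intro z
    rw [← mul_sub, abs_mul, abs_of_nonneg (kb_nonneg z)]
    by_cases hz : 1 ≤ ‖z‖
    · rw [kb_supp hz]
      simp
    · rw [not_le] at hz
      refine mul_le_mul_of_nonneg_left ((hin z).trans ?_) (kb_nonneg z)
      refine mul_le_mul_of_nonneg_left ?_ hC
      rw [norm_smul, Real.norm_eq_abs, abs_div, abs_of_pos hr]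
      exact mul_le_of_le_one_right (by positivity) hz.le
  calc |∫ z, (kb d z * (∫ v, χ (v + (r / τ) • z) ^ 2 * F (y + τ • v)) -
        kb d z * ∫ v, χ v ^ 2 * F (y + τ • v))| ≤
        ∫ z, kb d z * (C * (r / |τ|)) :=
        (abs_integral_le_integral_abs).trans (integral_mono_of_nonneg
          (Eventually.of_forall fun v => abs_nonneg _) (hki.mul_const _)
          (Eventually.of_forall hpt))
    _ = C * (r / |τ|) := by rw [integral_mul_const, kb_int, one_mul]

end Pool.Agent.H15.AV
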