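import Pool.Agent.H15.AV.Defs

/-!
# The main term of the velocity averaging lemma

MODULE Av3. Put `φ'(t,x) = 1_{[t₁,t₂]}(t) φ(t,x)` and `W(t,x,v) = ∫₀^L φ'(t+σ, x+σ v) dσ`. After the
substitution `t ↦ t - σ` the left side is `∫_{t₁-L}^{t₂} ∫ χ(v) W(t,x,v) h(t,x,v) dν dt`, hence by
Cauchy-Schwarz at most `((t₂ - t₁ + L) (2R)^d)^{1/2} (∫∫ χ² W² dν dt)^{1/2}`. Expand
`W² = ∫∫ φ'(t+σ,x+σv) φ'(t+σ',x+σ'v) dσ dσ'`, exchange the integrals, substitute `t + σ ↦ t` and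
`x + σ v ↦ x` (`Per.integral`): for fixed `σ ≠ σ'`, with `τ = σ' - σ`, the integral is
`∫_t ∫_x φ'(t,x) (∫ χ(v)² φ'(t+τ, x+τ v) dv) dx dt`, at most `2 min(C₁, C₀ r/|τ|) ≤
2 (C₀ C₁)^{1/2} (r/|τ|)^{1/2}`, `C₁ = 2 ∫ χ²`. And `∫₀^L ∫₀^L |σ-σ'|^{-1/2} ≤ 4 L^{3/2}`.
With `r = ρ⁴ L` this gives `∫∫ χ² W² ≤ C L² ρ²`.
-/

set_option autoImplicit false

open MeasureTheory Set Filter Topology Pool.Agent.H25.Kin

namespace Pool.Agent.H15.AV

variable {d : ℕ}

private lemma Av3_ib {α : Type*} [MeasurableSpace α] {μ : Measure α} [IsFiniteMeasure μ]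
    {f : α → ℝ} (hf : Measurable f) (C : ℝ) (h : ∀ x, |f x| ≤ C) : Integrable f μ :=
  Integrable.of_bound hf.aestronglyMeasurable C (Eventually.of_forall fun x => by
    rw [Real.norm_eq_abs]; exact h x)

/-- Lebesgue measure on the ball of radius `R` of velocities -/
private noncomputable def Bm (d : ℕ) (R : ℝ) : Measure (Vec d) :=
  volume.restrict (Metric.closedBall (0 : Vec d) R)

private instance Av3_Bfin (R : ℝ) : IsFiniteMeasure (Bm d R) :=
  ⟨by unfold Bm; rw [Measure.restrict_apply_univ]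
      exact (isCompact_closedBall (0 : Vec d) R).measure_lt_top⟩

private lemma Av3_N {R : ℝ} {G : Vec d × Vec d → ℝ} (hG : ∀ q : Vec d × Vec d, R ≤ ‖q.1‖ → G q = 0) :
    ∫ q, G q ∂(nu d) = ∫ q, G q ∂((Bm d R).prod (muD d)) := by
  have h1 : (Bm d R).prod (muD d) =
      (nu d).restrict (Metric.closedBall (0 : Vec d) R ×ˢ (univ : Set (Vec d))) := by
    unfold Bm nu
    rw [← Measure.prod_restrict, Measure.restrict_univ]
  rw [h1]
  refine (setIntegral_eq_integral_of_forall_compl_eq_zero fun q hq => ?_).symm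
  apply hG
  by_contra hcon
  apply hq
  refine ⟨?_, mem_univ _⟩
  rw [mem_closedBall_zero_iff]
  exact (not_le.mp hcon).le

private lemma Av3_B {R : ℝ} {G : Vec d → ℝ} (hG : ∀ v : Vec d, R ≤ ‖v‖ → G v = 0) :
    ∫ v, G v ∂(Bm d R) = ∫ v, G v := by
  unfold Bm
  refine setIntegral_eq_integral_of_forall_compl_eq_zero fun q hq => ?_
  apply hG
  by_contra hcon
  apply hq
  rw [mem_closedBall_zero_iff]
  exact (not_le.mp hcon).le

/-- the localized functions -/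
private structure Loc (χ : Vec d → ℝ) (t₁ t₂ a b c : ℝ) (ψ : ℝ × Vec d → ℝ) : Prop where
  meas : Measurable ψ
  le2 : ∀ p, |ψ p| ≤ 2
  per : ∀ t, Per fun x => ψ (t, x)
  supp : ∀ t, t ∉ Ioc t₁ t₂ → ∀ x, ψ (t, x) = 0
  disp : ∀ t τ : ℝ, a < |τ| → ∀ y : Vec d, |∫ v, χ v ^ 2 * ψ (t, y + τ • v)| ≤ b
  disp' : ∀ t τ : ℝ, ∀ y : Vec d, |∫ v, χ v ^ 2 * ψ (t, y + τ • v)| ≤ c

private lemma Loc.b0 {χ : Vec d → ℝ} {t₁ t₂ a b c : ℝ} {ψ : ℝ × Vec d → ℝ}
    (h : Loc χ t₁ t₂ a b c ψ) : 0 ≤ b := by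
  refine (abs_nonneg _).trans (h.disp 0 (|a| + 1) ?_ 0)
  have := le_abs_self a
  have h1 : 0 < |a| + 1 := by positivity
  rw [abs_of_pos h1]
  linarith

private lemma Loc.c0 {χ : Vec d → ℝ} {t₁ t₂ a b c : ℝ} {ψ : ℝ × Vec d → ℝ}
    (h : Loc χ t₁ t₂ a b c ψ) : 0 ≤ c :=
  (abs_nonneg _).trans (h.disp' 0 0 0)

/-- one time of the correlation -/
private lemma Loc.slice {χ : Vec d → ℝ} {R K t₁ t₂ a b c : ℝ} (hχ : Tst R K χ)
    {ψ : ℝ × Vec d → ℝ} (h : Loc χ t₁ t₂ a b c ψ) (s₁ s₂ t : ℝ) :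
    |∫ q, χ q.1 ^ 2 * (ψ (t, q.2 + s₁ • q.1) * ψ (t + (s₂ - s₁), q.2 + s₂ • q.1))
        ∂((Bm d R).prod (muD d))| ≤
      2 * (c * (if |s₂ - s₁| ≤ a then 1 else 0) + b) * (muD d).real univ := by
  have hχm : Measurable χ := hχ.smooth.continuous.measurable
  have hK : 0 ≤ K := (abs_nonneg _).trans (hχ.le0 0)
  set τ : ℝ := s₂ - s₁ with hτ
  have hψ := h.meas
  have hb1 : ∀ v p p', |χ v ^ 2 * (ψ p * ψ p')| ≤ K ^ 2 * (2 * 2) := by
    intro v p p'
    rw [abs_mul, abs_pow, abs_mul]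
    have h1 := hχ.le0 v
    have h2 := h.le2 p
    have h3 := h.le2 p'
    gcongr
  rw [integral_prod _ (Av3_ib (by fun_prop) _ fun q => hb1 _ _ _)]
  have e1 : ∀ v : Vec d, ∫ x, χ v ^ 2 * (ψ (t, x + s₁ • v) * ψ (t + τ, x + s₂ • v)) ∂(muD d) =
      ∫ x, χ v ^ 2 * (ψ (t, x) * ψ (t + τ, x + τ • v)) ∂(muD d) := by
    intro v
    have hper : Per fun x : Vec d => χ v ^ 2 * (ψ (t, x) * ψ (t + τ, x + τ • v)) := by
      intro x i
      have h1 : ψ (t, x + Pi.single i 1) = ψ (t, x) := h.per t x i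
      have h2 : ψ (t + τ, x + τ • v + Pi.single i 1) = ψ (t + τ, x + τ • v) :=
        h.per (t + τ) (x + τ • v) i
      have h3 : x + Pi.single i 1 + τ • v = x + τ • v + Pi.single i 1 := by abel
      simp only
      rw [h1, h3, h2]
    have h4 := hper.integral (s₁ • v)
    unfold muD
    rw [← h4]
    refine integral_congr_ae (Eventually.of_forall fun x => ?_)
    have h5 : x + s₁ • v + τ • v = x + s₂ • v := by
      rw [add_assoc, ← add_smul, hτ]
      congr 2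
      ring
    simp only
    rw [h5]
  simp only [e1]
  rw [integral_integral_swap (f := fun (v x : Vec d) =>
    χ v ^ 2 * (ψ (t, x) * ψ (t + τ, x + τ • v)))
    (Av3_ib (by
      change Measurable fun q : Vec d × Vec d =>
        χ q.1 ^ 2 * (ψ (t, q.2) * ψ (t + τ, q.2 + τ • q.1))
      fun_prop) (K ^ 2 * (2 * 2)) fun q => hb1 _ _ _)]
  have e2 : ∀ x : Vec d, ∫ v, χ v ^ 2 * (ψ (t, x) * ψ (t + τ, x + τ • v)) ∂(Bm d R) =
      ψ (t, x) * ∫ v, χ v ^ 2 * ψ (t + τ, x + τ • v) := by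
    intro x
    rw [Av3_B (fun v hv => by rw [hχ.supp v hv]; ring), ← integral_const_mul]
    refine integral_congr_ae (Eventually.of_forall fun v => ?_)
    simp only
    ring
  simp only [e2]
  have hm : ∀ x : Vec d, |∫ v, χ v ^ 2 * ψ (t + τ, x + τ • v)| ≤
      c * (if |τ| ≤ a then 1 else 0) + b := by
    intro x
    have h0 := h.b0
    have h1 := h.c0
    by_cases hτa : |τ| ≤ a
    · rw [if_pos hτa]
      have := h.disp' (t + τ) τ x
      linarith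
    · rw [if_neg hτa]
      have := h.disp (t + τ) τ (not_le.mp hτa) x
      linarith
  have := norm_integral_le_of_norm_le_const (μ := muD d)
    (f := fun x => ψ (t, x) * ∫ v, χ v ^ 2 * ψ (t + τ, x + τ • v))
    (C := 2 * (c * (if |τ| ≤ a then 1 else 0) + b)) (Eventually.of_forall fun x => by
      rw [Real.norm_eq_abs, abs_mul]
      have h1 := h.le2 (t, x)
      have h2 := hm x
      gcongr)
  rwa [Real.norm_eq_abs] at this

/-- the correlation for two given shifts -/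
private lemma Loc.corr {χ : Vec d → ℝ} {R K t₁ t₂ a b c : ℝ} (hχ : Tst R K χ) (ht : t₁ ≤ t₂)
    (ht' : t₂ ≤ t₁ + 1)
    {ψ : ℝ × Vec d → ℝ} (h : Loc χ t₁ t₂ a b c ψ) {s₁ : ℝ} (s₂ : ℝ) (hs : s₁ ∈ Icc (0 : ℝ) 1) :
    |∫ p, χ p.2.1 ^ 2 * (ψ (p.1 + s₁, p.2.2 + s₁ • p.2.1) * ψ (p.1 + s₂, p.2.2 + s₂ • p.2.1))
        ∂((volume.restrict (Icc (t₁ - 1) t₂)).prod ((Bm d R).prod (muD d)))| ≤
      2 * (c * (if |s₂ - s₁| ≤ a then 1 else 0) + b) * (muD d).real univ := by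
  have hχm : Measurable χ := hχ.smooth.continuous.measurable
  have hψ := h.meas
  have hb1 : ∀ v p p', |χ v ^ 2 * (ψ p * ψ p')| ≤ K ^ 2 * (2 * 2) := by
    intro v p p'
    rw [abs_mul, abs_pow, abs_mul]
    have h1 := hχ.le0 v
    have h2 := h.le2 p
    have h3 := h.le2 p'
    gcongr
  rw [integral_prod _ (Av3_ib (by fun_prop) _ fun q => hb1 _ _ _)]
  set g : ℝ → ℝ := fun t => ∫ q, χ q.1 ^ 2 * (ψ (t, q.2 + s₁ • q.1) *
    ψ (t + (s₂ - s₁), q.2 + s₂ • q.1)) ∂((Bm d R).prod (muD d)) with hg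
  have hg0 : ∀ t, t ∉ Ioc t₁ t₂ → g t = 0 := by
    intro t htn
    simp only [hg]
    have : ∀ q : Vec d × Vec d, χ q.1 ^ 2 * (ψ (t, q.2 + s₁ • q.1) *
        ψ (t + (s₂ - s₁), q.2 + s₂ • q.1)) = 0 := fun q => by
      rw [h.supp t htn]; ring
    simp only [this, integral_zero]
  have e1 : ∀ t : ℝ, ∫ q, χ q.1 ^ 2 * (ψ (t + s₁, q.2 + s₁ • q.1) *
      ψ (t + s₂, q.2 + s₂ • q.1)) ∂((Bm d R).prod (muD d)) = g (t + s₁) := by
    intro t
    simp only [hg]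
    have : t + s₁ + (s₂ - s₁) = t + s₂ := by ring
    rw [this]
  simp only [e1]
  have hg1 : ∀ t, t ∉ Icc (t₁ - 1) t₂ → g (t + s₁) = 0 := fun t htn => hg0 _ fun hmem => htn
    ⟨by linarith [hmem.1, hs.2], by linarith [hmem.2, hs.1]⟩
  rw [setIntegral_eq_integral_of_forall_compl_eq_zero hg1,
    integral_add_right_eq_self g s₁, ← setIntegral_eq_integral_of_forall_compl_eq_zero hg0]
  have hM : 0 ≤ (muD d).real univ := measureReal_nonneg
  have hm0 : 0 ≤ 2 * (c * (if |s₂ - s₁| ≤ a then 1 else 0) + b) * (muD d).real univ :=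
    (abs_nonneg _).trans (h.slice hχ s₁ s₂ 0)
  have := norm_setIntegral_le_of_norm_le_const (μ := volume) (s := Ioc t₁ t₂) (f := g)
    (C := 2 * (c * (if |s₂ - s₁| ≤ a then 1 else 0) + b) * (muD d).real univ)
    (by rw [Real.volume_Ioc]; exact ENNReal.ofReal_lt_top) (fun t _ => by
      rw [Real.norm_eq_abs]
      exact h.slice hχ s₁ s₂ t)
  rw [Real.norm_eq_abs, Real.volume_real_Ioc_of_le ht] at this
  refine this.trans ?_
  have h3 : t₂ - t₁ ≤ 1 := by linarith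
  calc 2 * (c * (if |s₂ - s₁| ≤ a then 1 else 0) + b) * (muD d).real univ * (t₂ - t₁)
      ≤ 2 * (c * (if |s₂ - s₁| ≤ a then 1 else 0) + b) * (muD d).real univ * 1 := by gcongr
    _ = _ := by ring

/-- measure of the neighbourhood of the diagonal -/
private lemma Av3_diag {L a : ℝ} (hL : 0 ≤ L) (ha : 0 ≤ a) :
    ∫ s : ℝ × ℝ, (if |s.2 - s.1| ≤ a then (1 : ℝ) else 0)
      ∂((volume.restrict (Ioc 0 L)).prod (volume.restrict (Ioc 0 L))) ≤ 2 * a * L := by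
  have hms : MeasurableSet {s : ℝ × ℝ | |s.2 - s.1| ≤ a} :=
    measurableSet_le (by fun_prop) measurable_const
  have hm : Measurable fun s : ℝ × ℝ => (if |s.2 - s.1| ≤ a then (1 : ℝ) else 0) :=
    Measurable.ite hms measurable_const measurable_const
  have hi : Integrable (fun s : ℝ × ℝ => (if |s.2 - s.1| ≤ a then (1 : ℝ) else 0))
      ((volume.restrict (Ioc 0 L)).prod (volume.restrict (Ioc 0 L))) :=
    Av3_ib hm 1 fun s => by split_ifs <;> simp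
  rw [integral_prod _ hi]
  have h1 : ∀ s₁ : ℝ, ∫ s₂ in Ioc (0 : ℝ) L, (if |s₂ - s₁| ≤ a then (1 : ℝ) else 0) ≤ 2 * a := by
    intro s₁
    have e1 : (fun s₂ : ℝ => (if |s₂ - s₁| ≤ a then (1 : ℝ) else 0)) =
        (Icc (s₁ - a) (s₁ + a)).indicator (fun _ => (1 : ℝ)) := by
      funext s₂
      have hiff : |s₂ - s₁| ≤ a ↔ s₂ ∈ Icc (s₁ - a) (s₁ + a) := by
        rw [abs_le, mem_Icc]
        constructor <;> rintro ⟨h1, h2⟩ <;> constructor <;> linarith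
      by_cases h : |s₂ - s₁| ≤ a
      · rw [if_pos h, indicator_of_mem (hiff.mp h)]
      · rw [if_neg h, indicator_of_notMem (fun hc => h (hiff.mpr hc))]
    rw [e1]
    have i1 : Integrable ((Icc (s₁ - a) (s₁ + a)).indicator (fun _ => (1 : ℝ))) volume := by
      rw [integrable_indicator_iff measurableSet_Icc]
      exact integrableOn_const (by rw [Real.volume_Icc]; exact ENNReal.ofReal_ne_top)
    refine (setIntegral_le_integral i1 (Eventually.of_forall fun x => ?_)).trans ?_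
    · exact indicator_nonneg (fun _ _ => zero_le_one) _
    · rw [integral_indicator measurableSet_Icc, setIntegral_const, Real.volume_real_Icc_of_le
        (by linarith)]
      simp only [smul_eq_mul, mul_one]
      linarith
  have h2 : ∫ s₁ in Ioc (0 : ℝ) L, (∫ s₂ in Ioc (0 : ℝ) L,
      (if |s₂ - s₁| ≤ a then (1 : ℝ) else 0)) ≤ ∫ _s₁ in Ioc (0 : ℝ) L, 2 * a := by
    refine integral_mono hi.integral_prod_left (integrable_const _) fun s₁ => h1 s₁
  refine h2.trans ?_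
  rw [setIntegral_const, Real.volume_real_Ioc_of_le hL]
  simp only [smul_eq_mul, sub_zero]
  linarith

/-- the second moment -/
private lemma Loc.second {χ : Vec d → ℝ} {R K t₁ t₂ a b c L : ℝ} (hχ : Tst R K χ)
    (ht : t₁ ≤ t₂) (ht' : t₂ ≤ t₁ + 1) (hL : 0 ≤ L) (hL1 : L ≤ 1) (ha : 0 ≤ a)
    {ψ : ℝ × Vec d → ℝ} (h : Loc χ t₁ t₂ a b c ψ) :
    ∫ p : ℝ × Vec d × Vec d, (χ p.2.1 * ∫ σ in Ioc (0 : ℝ) L, ψ (p.1 + σ, p.2.2 + σ • p.2.1)) ^ 2
        ∂((volume.restrict (Icc (t₁ - 1) t₂)).prod ((Bm d R).prod (muD d))) ≤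
      2 * (c * (2 * a * L) + b * L ^ 2) * (muD d).real univ := by
  have hχm : Measurable χ := hχ.smooth.continuous.measurable
  have hψ := h.meas
  have hb1 : ∀ v p p', |χ v ^ 2 * (ψ p * ψ p')| ≤ K ^ 2 * (2 * 2) := by
    intro v p p'
    rw [abs_mul, abs_pow, abs_mul]
    have h1 := hχ.le0 v
    have h2 := h.le2 p
    have h3 := h.le2 p'
    gcongr
  set S : Measure ℝ := volume.restrict (Ioc 0 L) with hS
  set P : Measure (ℝ × Vec d × Vec d) :=
    (volume.restrict (Icc (t₁ - 1) t₂)).prod ((Bm d R).prod (muD d)) with hP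
  have e1 : ∀ p : ℝ × Vec d × Vec d,
      (χ p.2.1 * ∫ σ, ψ (p.1 + σ, p.2.2 + σ • p.2.1) ∂S) ^ 2 =
      ∫ s : ℝ × ℝ, χ p.2.1 ^ 2 * (ψ (p.1 + s.1, p.2.2 + s.1 • p.2.1) *
        ψ (p.1 + s.2, p.2.2 + s.2 • p.2.1)) ∂(S.prod S) := by
    intro p
    rw [integral_const_mul, integral_prod_mul
      (fun σ : ℝ => ψ (p.1 + σ, p.2.2 + σ • p.2.1)) (fun σ : ℝ => ψ (p.1 + σ, p.2.2 + σ • p.2.1))]
    ring
  simp only [e1]
  have hi : Integrable (Function.uncurry fun (p : ℝ × Vec d × Vec d) (s : ℝ × ℝ) =>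
      χ p.2.1 ^ 2 * (ψ (p.1 + s.1, p.2.2 + s.1 • p.2.1) *
        ψ (p.1 + s.2, p.2.2 + s.2 • p.2.1))) (P.prod (S.prod S)) := by
    refine Av3_ib ?_ (K ^ 2 * (2 * 2)) fun q => hb1 _ _ _
    change Measurable fun q : (ℝ × Vec d × Vec d) × (ℝ × ℝ) =>
      χ q.1.2.1 ^ 2 * (ψ (q.1.1 + q.2.1, q.1.2.2 + q.2.1 • q.1.2.1) *
        ψ (q.1.1 + q.2.2, q.1.2.2 + q.2.2 • q.1.2.1))
    fun_prop
  rw [integral_integral_swap hi]
  have hSS : S.prod S = (volume : Measure (ℝ × ℝ)).restrict (Ioc 0 L ×ˢ Ioc 0 L) := by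
    rw [hS, Measure.prod_restrict]
    rfl
  have hms : MeasurableSet {s : ℝ × ℝ | |s.2 - s.1| ≤ a} :=
    measurableSet_le (by fun_prop) measurable_const
  have hm : Measurable fun s : ℝ × ℝ => (if |s.2 - s.1| ≤ a then (1 : ℝ) else 0) :=
    Measurable.ite hms measurable_const measurable_const
  have hii : Integrable (fun s : ℝ × ℝ => (if |s.2 - s.1| ≤ a then (1 : ℝ) else 0))
      (S.prod S) := Av3_ib hm 1 fun s => by split_ifs <;> simp
  have hI2 : Integrable (fun s : ℝ × ℝ =>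
      2 * (c * (if |s.2 - s.1| ≤ a then 1 else 0) + b) * (muD d).real univ) (S.prod S) :=
    (((hii.const_mul c).add (integrable_const b)).const_mul 2).mul_const _
  have step : ∫ s : ℝ × ℝ, (∫ p : ℝ × Vec d × Vec d, χ p.2.1 ^ 2 *
      (ψ (p.1 + s.1, p.2.2 + s.1 • p.2.1) * ψ (p.1 + s.2, p.2.2 + s.2 • p.2.1)) ∂P) ∂(S.prod S) ≤
      ∫ s : ℝ × ℝ, 2 * (c * (if |s.2 - s.1| ≤ a then 1 else 0) + b) * (muD d).real univ
        ∂(S.prod S) := by
    refine integral_mono_ae hi.integral_prod_right hI2 ?_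
    have hmem : ∀ᵐ s ∂(S.prod S), s ∈ Ioc (0 : ℝ) L ×ˢ Ioc (0 : ℝ) L := by
      rw [hSS]
      exact ae_restrict_mem (measurableSet_Ioc.prod measurableSet_Ioc)
    filter_upwards [hmem] with s hs
    refine (le_abs_self _).trans ?_
    exact h.corr hχ ht ht' s.2 ⟨hs.1.1.le, hs.1.2.trans hL1⟩
  refine step.trans ?_
  rw [integral_mul_const, integral_const_mul, integral_add (hii.const_mul c) (integrable_const b),
    integral_const_mul, integral_const]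
  have hM : 0 ≤ (muD d).real univ := measureReal_nonneg
  have hSr : (S.prod S).real univ = L ^ 2 := by
    rw [← univ_prod_univ, measureReal_prod_prod, hS, measureReal_restrict_apply_univ,
      Real.volume_real_Ioc_of_le hL]
    ring
  rw [hSr]
  have h5 := Av3_diag hL ha
  have h6 := h.c0
  simp only [smul_eq_mul]
  have h7 : c * ∫ s : ℝ × ℝ, (if |s.2 - s.1| ≤ a then (1 : ℝ) else 0) ∂(S.prod S) ≤
      c * (2 * a * L) := mul_le_mul_of_nonneg_left h5 h6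
  have h8 : L ^ 2 * b = b * L ^ 2 := mul_comm _ _
  rw [h8]
  gcongr

/-- the estimate for localized functions -/
private lemma Loc.main {χ : Vec d → ℝ} {R K t₁ t₂ a b c L lm : ℝ} (hχ : Tst R K χ)
    (ht : t₁ ≤ t₂) (ht' : t₂ ≤ t₁ + 1) (hL : 0 ≤ L) (hL1 : L ≤ 1) (ha : 0 ≤ a) (hlm : 0 < lm)
    {ψ : ℝ × Vec d → ℝ} (hloc : Loc χ t₁ t₂ a b c ψ)
    {h : ℝ × Vec d × Vec d → ℝ} (hm : Measurable h) (hh : ∀ p, |h p| ≤ 1) :
    |∫ t in Ioc t₁ t₂, ∫ σ in Ioc (0 : ℝ) L,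
      ∫ q, χ q.1 * ψ (t, q.2 + σ • q.1) * h (t - σ, q.2, q.1) ∂((Bm d R).prod (muD d))| ≤
      lm * ((Bm d R).real univ * (muD d).real univ) +
        (2 * lm)⁻¹ * (2 * (c * (2 * a * L) + b * L ^ 2) * (muD d).real univ) := by
  have hχm : Measurable χ := hχ.smooth.continuous.measurable
  have hψ := hloc.meas
  have hK : 0 ≤ K := (abs_nonneg _).trans (hχ.le0 0)
  set N : Measure (Vec d × Vec d) := (Bm d R).prod (muD d) with hN
  set S : Measure ℝ := volume.restrict (Ioc 0 L) with hS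
  set T : Measure ℝ := volume.restrict (Icc (t₁ - 1) t₂) with hT
  have hb1 : ∀ v p r, |χ v * ψ p * h r| ≤ K * 2 * 1 := by
    intro v p r
    rw [abs_mul, abs_mul]
    have h1 := hχ.le0 v
    have h2 := hloc.le2 p
    have h3 := hh r
    gcongr
  -- exchange of time and shift
  have hi1 : Integrable (fun z : (ℝ × ℝ) × (Vec d × Vec d) =>
      χ z.2.1 * ψ (z.1.1, z.2.2 + z.1.2 • z.2.1) * h (z.1.1 - z.1.2, z.2.2, z.2.1))
      (((volume.restrict (Ioc t₁ t₂)).prod S).prod N) :=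
    Av3_ib (by fun_prop) _ fun z => hb1 _ _ _
  have e1 : ∫ t in Ioc t₁ t₂, (∫ σ, (∫ q, χ q.1 * ψ (t, q.2 + σ • q.1) *
        h (t - σ, q.2, q.1) ∂N) ∂S) =
      ∫ σ, (∫ t in Ioc t₁ t₂, (∫ q, χ q.1 * ψ (t, q.2 + σ • q.1) *
        h (t - σ, q.2, q.1) ∂N)) ∂S :=
    integral_integral_swap (f := fun (t σ : ℝ) =>
      ∫ q, χ q.1 * ψ (t, q.2 + σ • q.1) * h (t - σ, q.2, q.1) ∂N) hi1.integral_prod_left
  -- translation in time
  have e2 : ∀ σ ∈ Ioc (0 : ℝ) L,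
      ∫ t in Ioc t₁ t₂, (∫ q, χ q.1 * ψ (t, q.2 + σ • q.1) * h (t - σ, q.2, q.1) ∂N) =
      ∫ t, (∫ q, χ q.1 * ψ (t + σ, q.2 + σ • q.1) * h (t, q.2, q.1) ∂N) ∂T := by
    intro σ hσ
    set g : ℝ → ℝ := fun t => ∫ q, χ q.1 * ψ (t, q.2 + σ • q.1) * h (t - σ, q.2, q.1) ∂N with hg
    have hg0 : ∀ t, t ∉ Ioc t₁ t₂ → g t = 0 := by
      intro t htn
      simp only [hg]
      have : ∀ q : Vec d × Vec d, χ q.1 * ψ (t, q.2 + σ • q.1) * h (t - σ, q.2, q.1) = 0 :=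
        fun q => by rw [hloc.supp t htn]; ring
      simp only [this, integral_zero]
    have e3 : ∀ t : ℝ, ∫ q, χ q.1 * ψ (t + σ, q.2 + σ • q.1) * h (t, q.2, q.1) ∂N = g (t + σ) := by
      intro t
      simp only [hg]
      have : t + σ - σ = t := by ring
      rw [this]
    simp only [e3]
    have hg1 : ∀ t, t ∉ Icc (t₁ - 1) t₂ → g (t + σ) = 0 := fun t htn => hg0 _ fun hmem => htn
      ⟨by linarith [hmem.1, hσ.2], by linarith [hmem.2, hσ.1]⟩
    rw [hT, setIntegral_eq_integral_of_forall_compl_eq_zero hg1,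
      integral_add_right_eq_self g σ,
      ← setIntegral_eq_integral_of_forall_compl_eq_zero (μ := volume) hg0]
  have e3 : ∫ σ, (∫ t in Ioc t₁ t₂, (∫ q, χ q.1 * ψ (t, q.2 + σ • q.1) *
        h (t - σ, q.2, q.1) ∂N)) ∂S =
      ∫ σ, (∫ t, (∫ q, χ q.1 * ψ (t + σ, q.2 + σ • q.1) * h (t, q.2, q.1) ∂N) ∂T) ∂S :=
    setIntegral_congr_fun measurableSet_Ioc e2
  -- inner integral over time and phase space
  have hi2 : Integrable (Function.uncurry fun (σ : ℝ) (p : ℝ × Vec d × Vec d) =>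
      χ p.2.1 * ψ (p.1 + σ, p.2.2 + σ • p.2.1) * h (p.1, p.2.2, p.2.1)) (S.prod (T.prod N)) := by
    refine Av3_ib ?_ _ fun q => hb1 _ _ _
    change Measurable fun q : ℝ × ℝ × Vec d × Vec d =>
      χ q.2.2.1 * ψ (q.2.1 + q.1, q.2.2.2 + q.1 • q.2.2.1) * h (q.2.1, q.2.2.2, q.2.2.1)
    fun_prop
  have e4 : ∀ σ : ℝ, ∫ t, (∫ q, χ q.1 * ψ (t + σ, q.2 + σ • q.1) * h (t, q.2, q.1) ∂N) ∂T =
      ∫ p : ℝ × Vec d × Vec d, χ p.2.1 * ψ (p.1 + σ, p.2.2 + σ • p.2.1) *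
        h (p.1, p.2.2, p.2.1) ∂(T.prod N) := by
    intro σ
    rw [integral_prod _ (Av3_ib (by fun_prop) _ fun q => hb1 _ _ _)]
  rw [e1, e3]
  simp only [e4]
  rw [integral_integral_swap hi2]
  set W : ℝ × Vec d × Vec d → ℝ := fun p =>
    χ p.2.1 * ∫ σ in Ioc (0 : ℝ) L, ψ (p.1 + σ, p.2.2 + σ • p.2.1) with hW
  have e5 : ∀ p : ℝ × Vec d × Vec d,
      ∫ σ, χ p.2.1 * ψ (p.1 + σ, p.2.2 + σ • p.2.1) * h (p.1, p.2.2, p.2.1) ∂S =
      W p * h (p.1, p.2.2, p.2.1) := by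
    intro p
    rw [integral_mul_const, integral_const_mul]
  simp only [e5]
  -- measurability and boundedness of `W`
  have hWm : Measurable W := by
    have h1 : StronglyMeasurable fun p : ℝ × Vec d × Vec d =>
        ∫ σ in Ioc (0 : ℝ) L, ψ (p.1 + σ, p.2.2 + σ • p.2.1) := by
      apply StronglyMeasurable.integral_prod_right (f := fun (p : ℝ × Vec d × Vec d) (σ : ℝ) =>
        ψ (p.1 + σ, p.2.2 + σ • p.2.1))
      apply Measurable.stronglyMeasurable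
      change Measurable fun q : (ℝ × Vec d × Vec d) × ℝ =>
        ψ (q.1.1 + q.2, q.1.2.2 + q.2 • q.1.2.1)
      fun_prop
    exact (hχm.comp (measurable_fst.comp measurable_snd)).mul h1.measurable
  have hWb : ∀ p, |W p| ≤ K * 2 := by
    intro p
    simp only [hW]
    rw [abs_mul]
    have h1 := hχ.le0 p.2.1
    have h2 : |∫ σ in Ioc (0 : ℝ) L, ψ (p.1 + σ, p.2.2 + σ • p.2.1)| ≤ 2 := by
      have := norm_setIntegral_le_of_norm_le_const (μ := volume) (s := Ioc (0 : ℝ) L)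
        (f := fun σ => ψ (p.1 + σ, p.2.2 + σ • p.2.1)) (C := 2)
        (by rw [Real.volume_Ioc]; exact ENNReal.ofReal_lt_top) (fun σ _ => by
          rw [Real.norm_eq_abs]
          exact hloc.le2 _)
      rw [Real.norm_eq_abs, Real.volume_real_Ioc_of_le hL] at this
      linarith
    gcongr
  have hi3 : Integrable (fun p => W p ^ 2) (T.prod N) := by
    refine Av3_ib (hWm.pow_const 2) ((K * 2) ^ 2) fun p => ?_
    rw [abs_pow]
    have := hWb p
    gcongr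
  have h2nd : ∫ p, W p ^ 2 ∂(T.prod N) ≤
      2 * (c * (2 * a * L) + b * L ^ 2) * (muD d).real univ :=
    hloc.second hχ ht ht' hL hL1 ha
  have hM : 0 ≤ (muD d).real univ := measureReal_nonneg
  have hV : 0 ≤ (Bm d R).real univ := measureReal_nonneg
  have hpt : ∀ p : ℝ × Vec d × Vec d, ‖W p * h (p.1, p.2.2, p.2.1)‖ ≤
      lm / 2 + (2 * lm)⁻¹ * W p ^ 2 := by
    intro p
    rw [Real.norm_eq_abs, abs_mul]
    have h1 : |W p| * |h (p.1, p.2.2, p.2.1)| ≤ |W p| :=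
      mul_le_of_le_one_right (abs_nonneg _) (hh _)
    refine h1.trans ?_
    have h2 : 0 ≤ (|W p| - lm) ^ 2 := sq_nonneg _
    have h3 : |W p| ^ 2 = W p ^ 2 := sq_abs _
    have h4 : lm / 2 + (2 * lm)⁻¹ * W p ^ 2 - |W p| = (2 * lm)⁻¹ * (|W p| - lm) ^ 2 := by
      rw [← h3]
      field_simp
      ring
    have h5 : 0 ≤ (2 * lm)⁻¹ * (|W p| - lm) ^ 2 := by positivity
    linarith
  have hTr : T.real univ ≤ 2 := by
    rw [hT, measureReal_restrict_apply_univ, Real.volume_real_Icc_of_le (by linarith)]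
    linarith
  have hreal : (T.prod N).real univ ≤ 2 * ((Bm d R).real univ * (muD d).real univ) := by
    rw [← univ_prod_univ, measureReal_prod_prod, hN, ← univ_prod_univ, measureReal_prod_prod]
    gcongr
  calc |∫ p : ℝ × Vec d × Vec d, W p * h (p.1, p.2.2, p.2.1) ∂(T.prod N)|
      ≤ ∫ p : ℝ × Vec d × Vec d, (lm / 2 + (2 * lm)⁻¹ * W p ^ 2) ∂(T.prod N) := by
        rw [← Real.norm_eq_abs]
        exact norm_integral_le_of_norm_le ((integrable_const _).add (hi3.const_mul _))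
          (Eventually.of_forall hpt)
    _ = (T.prod N).real univ * (lm / 2) + (2 * lm)⁻¹ * ∫ p, W p ^ 2 ∂(T.prod N) := by
        rw [integral_add (integrable_const _) (hi3.const_mul _), integral_const,
          integral_const_mul, smul_eq_mul]
    _ ≤ (2 * ((Bm d R).real univ * (muD d).real univ)) * (lm / 2) +
        (2 * lm)⁻¹ * (2 * (c * (2 * a * L) + b * L ^ 2) * (muD d).real univ) := by
        gcongr
    _ = _ := by ring

theorem square_bound {χ : Vec d → ℝ} {R K : ℝ} (hχ : Tst R K χ) {C₀ : ℝ} (hC₀ : 0 ≤ C₀) :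
    ∃ C : ℝ, 0 ≤ C ∧ ∀ ρ ∈ Ioc (0 : ℝ) 1, ∀ L ∈ Ioc (0 : ℝ) 1, ∀ t₁ t₂ : ℝ, t₁ ≤ t₂ →
      t₂ ≤ t₁ + 1 → ∀ φ : ℝ × Vec d → ℝ, Measurable φ → (∀ p, |φ p| ≤ 2) →
      (∀ t, Per fun x => φ (t, x)) →
      (∀ t τ : ℝ, τ ≠ 0 → ∀ y : Vec d,
        |∫ v, χ v ^ 2 * φ (t, y + τ • v)| ≤ C₀ * (ρ ^ 4 * L / |τ|)) →
      ∀ h : ℝ × Vec d × Vec d → ℝ, Measurable h → (∀ p, |h p| ≤ 1) →
        |∫ t in t₁..t₂, ∫ σ in (0 : ℝ)..L,
          ∫ q, χ q.1 * φ (t, q.2 + σ • q.1) * h (t - σ, q.2, q.1) ∂(nu d)| ≤ L * (C * ρ) := by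
  have hK : 0 ≤ K := (abs_nonneg _).trans (hχ.le0 0)
  have hM : 0 ≤ (muD d).real univ := measureReal_nonneg
  have hV : 0 ≤ (Bm d R).real univ := measureReal_nonneg
  set M : ℝ := (muD d).real univ with hMdef
  set V : ℝ := (Bm d R).real univ with hVdef
  set C₁ : ℝ := K ^ 2 * 2 * V with hC₁
  have hC₁0 : 0 ≤ C₁ := by positivity
  refine ⟨M * (V + 2 * C₁ + C₀), by positivity, ?_⟩
  intro ρ hρ L hL t₁ t₂ ht ht' φ hφ hφ2 hφp hdisp h hm hh
  have hρ0 := hρ.1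
  have hL0 := hL.1
  set ψ : ℝ × Vec d → ℝ := fun p => if p.1 ∈ Ioc t₁ t₂ then φ p else 0 with hψ
  have hψt : ∀ t, t ∈ Ioc t₁ t₂ → ∀ x, ψ (t, x) = φ (t, x) := fun t htm x => if_pos htm
  have hψn : ∀ t, t ∉ Ioc t₁ t₂ → ∀ x, ψ (t, x) = 0 := fun t htm x => if_neg htm
  have hψ2 : ∀ p, |ψ p| ≤ 2 := by
    intro p
    simp only [hψ]
    split_ifs
    · exact hφ2 p
    · simp
  have hloc : Loc χ t₁ t₂ (ρ ^ 2 * L) (C₀ * ρ ^ 2) C₁ ψ := by
    refine ⟨?_, hψ2, ?_, hψn, ?_, ?_⟩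
    · exact Measurable.ite (measurableSet_Ioc.preimage measurable_fst) hφ measurable_const
    · intro t x i
      simp only
      by_cases htm : t ∈ Ioc t₁ t₂
      · rw [hψt t htm, hψt t htm]
        exact hφp t x i
      · rw [hψn t htm, hψn t htm]
    · intro t τ hτ y
      have ha0 : 0 < ρ ^ 2 * L := by positivity
      have hτ0 : 0 < |τ| := ha0.trans hτ
      by_cases htm : t ∈ Ioc t₁ t₂
      · simp only [hψt t htm]
        refine (hdisp t τ (abs_pos.mp hτ0) y).trans ?_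
        refine mul_le_mul_of_nonneg_left ?_ hC₀
        rw [div_le_iff₀ hτ0]
        calc ρ ^ 4 * L = ρ ^ 2 * (ρ ^ 2 * L) := by ring
          _ ≤ ρ ^ 2 * |τ| := by gcongr
      · simp only [hψn t htm, mul_zero, integral_zero, abs_zero]
        positivity
    · intro t τ y
      rw [← Av3_B (R := R) (fun v hv => by rw [hχ.supp v hv]; ring)]
      have := norm_integral_le_of_norm_le_const (μ := Bm d R)
        (f := fun v => χ v ^ 2 * ψ (t, y + τ • v)) (C := K ^ 2 * 2) (Eventually.of_forall fun v => by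
          rw [Real.norm_eq_abs, abs_mul, abs_pow]
          have h1 := hχ.le0 v
          have h2 := hψ2 (t, y + τ • v)
          gcongr)
      rwa [Real.norm_eq_abs] at this
  have e0 : ∫ t in t₁..t₂, ∫ σ in (0 : ℝ)..L,
        ∫ q, χ q.1 * φ (t, q.2 + σ • q.1) * h (t - σ, q.2, q.1) ∂(nu d) =
      ∫ t in Ioc t₁ t₂, ∫ σ in Ioc (0 : ℝ) L,
        ∫ q, χ q.1 * ψ (t, q.2 + σ • q.1) * h (t - σ, q.2, q.1) ∂((Bm d R).prod (muD d)) := by
    rw [intervalIntegral.integral_of_le ht]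
    refine setIntegral_congr_fun measurableSet_Ioc fun t htm => ?_
    rw [intervalIntegral.integral_of_le hL0.le]
    refine integral_congr_ae (Eventually.of_forall fun σ => ?_)
    beta_reduce
    rw [← Av3_N (R := R) (fun q hq => by rw [hχ.supp _ hq]; ring)]
    refine integral_congr_ae (Eventually.of_forall fun q => ?_)
    simp only
    rw [hψt t htm]
  rw [e0]
  have hlm : 0 < L * ρ := by positivity
  refine (hloc.main (lm := L * ρ) hχ ht ht' hL0.le hL.2 (by positivity) hlm hm hh).trans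
    (le_of_eq ?_)
  rw [← hMdef, ← hVdef]
  field_simp
  ring

end Pool.Agent.H15.AV
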