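import Pool.Agent.H15.AV.Slc

/-!
# Measurable sets of fibers, elementary bounds, Fubini on the torus

MODULE SlcB. Uses the continuity statements of `Slc`.
-/

set_option autoImplicit false

open MeasureTheory Set Filter Topology Pool.Agent.H25.Kin

namespace Pool.Agent.H15.AV

variable {d : ℕ} {T : ℝ} {Q : (Vec d → ℝ) → Vec d → ℝ} {f : ℝ → Vec d → Vec d → ℝ}

private theorem SlcB_closed {T s t : ℝ} (hs : 0 ≤ s) (ht : t < T) {F : ℝ × Vec d → ℝ}
    (hF : ContinuousOn F (Ico 0 T ×ˢ univ)) {A : Set ℝ} (hA : IsClosed A) :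
    IsClosed ((Icc s t ×ˢ (univ : Set (Vec d))) ∩ F ⁻¹' A) := by
  have hD : IsClosed (Icc s t ×ˢ (univ : Set (Vec d))) := isClosed_Icc.prod isClosed_univ
  refine (hF.mono ?_).preimage_isClosed_of_isClosed hD hA
  exact fun p hp => ⟨⟨hs.trans hp.1.1, hp.1.2.trans_lt ht⟩, mem_univ _⟩

private theorem SlcB_uf_int {δ : ℝ} (h0 : 0 < δ) (h1 : δ ≤ 1) (R : ℝ) {g : Vec d → ℝ}
    (hc : Continuous g) (hg : ∀ v, 0 ≤ g v) :
    IntegrableOn (fun v => uf δ (g v)) (Metric.closedBall (0 : Vec d) R) := by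
  refine IntegrableOn.of_bound (isCompact_closedBall _ _).measure_lt_top
    ((measurable_uf δ).comp hc.measurable).aestronglyMeasurable (lam δ) ?_
  refine Eventually.of_forall fun v => ?_
  rw [Real.norm_eq_abs, abs_of_nonneg (uf_nonneg h0 h1 (hg v))]
  exact uf_le_lam h0 h1 (hg v)

/-- the set of good fibers in space-time -/
theorem good_meas {Q' : ℝ → Vec d → Vec d → ℝ} (hf : IsClassicalSol T Q' f) (m N : ℝ) {s t : ℝ}
    (hs : 0 ≤ s) (ht : t < T) :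
    MeasurableSet ({p : ℝ × Vec d | Good m N (f p.1 p.2)} ∩ (Icc s t ×ˢ univ)) := by
  have e : {p : ℝ × Vec d | Good m N (f p.1 p.2)} ∩ (Icc s t ×ˢ univ) =
      (((Icc s t ×ˢ univ) ∩ (fun p : ℝ × Vec d => ∫ v, f p.1 p.2 v) ⁻¹' Ici m) ∩
        ((Icc s t ×ˢ univ) ∩ (fun p : ℝ × Vec d => ∫ v, f p.1 p.2 v) ⁻¹' Iic N)) ∩
      (((Icc s t ×ˢ univ) ∩ (fun p : ℝ × Vec d => ∫ v, f p.1 p.2 v * nsq v) ⁻¹' Iic N) ∩
        ((Icc s t ×ˢ univ) ∩
          (fun p : ℝ × Vec d => ∫ v, f p.1 p.2 v * Real.log (f p.1 p.2 v)) ⁻¹' Iic N)) := by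
    ext p
    constructor
    · rintro ⟨⟨h1, h2, h3, h4⟩, hD⟩
      exact ⟨⟨⟨hD, h1⟩, ⟨hD, h2⟩⟩, ⟨⟨hD, h3⟩, ⟨hD, h4⟩⟩⟩
    · rintro ⟨⟨⟨hD, h1⟩, ⟨-, h2⟩⟩, ⟨⟨-, h3⟩, ⟨-, h4⟩⟩⟩
      exact ⟨⟨h1, h2, h3, h4⟩, hD⟩
  rw [e]
  exact (((SlcB_closed hs ht (rho_cont hf) isClosed_Ici).inter
    (SlcB_closed hs ht (rho_cont hf) isClosed_Iic)).inter
    ((SlcB_closed hs ht (energy_cont hf) isClosed_Iic).inter
    (SlcB_closed hs ht (entropy_cont hf) isClosed_Iic))).measurableSet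

/-- the set of low fibers in space-time -/
theorem low_meas {Q' : ℝ → Vec d → Vec d → ℝ} (hf : IsClassicalSol T Q' f) (m : ℝ) {s t : ℝ}
    (hs : 0 ≤ s) (ht : t < T) :
    MeasurableSet ({p : ℝ × Vec d | ∫ v, f p.1 p.2 v < m} ∩ (Icc s t ×ˢ univ)) := by
  have e : {p : ℝ × Vec d | ∫ v, f p.1 p.2 v < m} ∩ (Icc s t ×ˢ univ) =
      (Icc s t ×ˢ univ) \ ((Icc s t ×ˢ univ) ∩ (fun p : ℝ × Vec d => ∫ v, f p.1 p.2 v) ⁻¹' Ici m) := by
    ext p
    constructor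
    · rintro ⟨h1, hD⟩
      have h1' : ∫ v, f p.1 p.2 v < m := h1
      exact ⟨hD, fun h => absurd h1' (not_lt.2 h.2)⟩
    · rintro ⟨hD, h1⟩
      have h2 : ∫ v, f p.1 p.2 v < m := not_le.1 fun h => h1 ⟨hD, h⟩
      exact ⟨h2, hD⟩
  rw [e]
  exact (measurableSet_Icc.prod MeasurableSet.univ).diff
    (SlcB_closed hs ht (rho_cont hf) isClosed_Ici).measurableSet

/-- the bounds of the deficit -/
theorem ub_nonneg {δ : ℝ} (h0 : 0 < δ) (h1 : δ ≤ 1) (R : ℝ) {g : Vec d → ℝ} (hg : ∀ v, 0 ≤ g v) :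
    0 ≤ ub δ R g := by
  exact integral_nonneg fun v => uf_nonneg h0 h1 (hg v)

theorem ub_le {δ : ℝ} (h0 : 0 < δ) (h1 : δ ≤ 1) {R : ℝ} (hR : 0 ≤ R) {g : Vec d → ℝ}
    (hc : Continuous g) (hg : ∀ v, 0 ≤ g v) : ub δ R g ≤ (2 * R) ^ d * lam δ := by
  unfold ub
  have h2 : ∫ v in Metric.closedBall (0 : Vec d) R, uf δ (g v) ≤
      ∫ _ in Metric.closedBall (0 : Vec d) R, lam δ :=
    integral_mono (SlcB_uf_int h0 h1 R hc hg)
      (integrableOn_const (isCompact_closedBall (0 : Vec d) R).measure_lt_top.ne)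
      fun v => uf_le_lam h0 h1 (hg v)
  refine h2.trans (le_of_eq ?_)
  rw [setIntegral_const, smul_eq_mul, measureReal_def, Real.volume_pi_closedBall _ hR,
    ENNReal.toReal_ofReal (by positivity), Fintype.card_fin]

theorem ub_mono {δ : ℝ} (h0 : 0 < δ) (h1 : δ ≤ 1) {R R' : ℝ} (hR : R ≤ R') {g : Vec d → ℝ}
    (hc : Continuous g) (hg : ∀ v, 0 ≤ g v) : ub δ R g ≤ ub δ R' g := by
  unfold ub
  refine setIntegral_mono_set (SlcB_uf_int h0 h1 R' hc hg) ?_ ?_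
  · exact Eventually.of_forall fun v => uf_nonneg h0 h1 (hg v)
  · exact (Metric.closedBall_subset_closedBall hR).eventuallyLE

theorem kap_nonneg (q : ℝ) {g : Vec d → ℝ} (hg : ∀ v, 0 ≤ g v) : 0 ≤ kap q g := by
  exact integral_nonneg fun v => mul_nonneg (hg v) (Real.rpow_nonneg (by positivity) _)

/-- a continuous function on `[s,t] × ℝ^d`, periodic in `x`, is integrable over `[s,t] × torus` -/
theorem st_integrable {s t : ℝ} {F : ℝ × Vec d → ℝ} (hF : ContinuousOn F (Icc s t ×ˢ univ)) :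
    Integrable F (st d s t) := by
  unfold st muD
  rw [Measure.prod_restrict, ← Measure.volume_eq_prod]
  refine ContinuousOn.integrableOn_compact (isCompact_Icc.prod isCompact_Icc) (hF.mono ?_)
  exact fun p hp => ⟨hp.1, mem_univ _⟩

/-- Fubini for `st` -/
theorem st_integral {s t : ℝ} (hst : s ≤ t) {F : ℝ × Vec d → ℝ} (hF : Integrable F (st d s t)) :
    ∫ p, F p ∂(st d s t) = ∫ τ in s..t, ∫ x, F (τ, x) ∂(muD d) := by
  unfold st at hF ⊢
  rw [integral_prod _ hF, integral_Icc_eq_integral_Ioc, intervalIntegral.integral_of_le hst]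

/-- the total mass of `st` -/
theorem st_univ {s t : ℝ} (hst : s ≤ t) : (st d s t) univ = ENNReal.ofReal (t - s) := by
  unfold st muD
  rw [← univ_prod_univ, Measure.prod_prod, Measure.restrict_apply_univ,
    Measure.restrict_apply_univ, Real.volume_Icc, Real.volume_Icc_pi]
  simp

/-- Fubini for `nu` -/
theorem nu_integral {G : Vec d × Vec d → ℝ} (hG : Integrable G (nu d)) :
    ∫ q, G q ∂(nu d) = ∫ x, (∫ v, G (v, x)) ∂(muD d) := by
  unfold nu at hG ⊢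
  exact integral_prod_symm _ hG

end Pool.Agent.H15.AV
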