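import Pool.Agent.H15.AV.Av2
import Pool.Agent.H15.AV.Av3
import Pool.Agent.H15.AV.Tr
import Pool.Agent.H15.AV.SlcB

/-!
# Velocity averaging at one scale

MODULE Av4. `r = ρ^16`, `r' = (ρ/2)^16`, `L = ρ^12`, `φ(t,x) = av r' (ε(t,·)) x - av r (ε(t,·)) x`.
For fixed `t`: by `av_sym` the left side is `∫_t ∫ χ(v) φ(t,x) h(t,x,v) dν dt`. By `TSol.ftc_st` with
the test function `(v,y) ↦ χ(v) φ(t, y + t v)` (fixed `t`), for `σ ∈ [0,L]`:
`∫ χ(v) φ(t,x) h(t,x,v) dν - ∫ χ(v) φ(t,x+σ v) h(t-σ,x,v) dν =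
  ∫_{st (t-σ) t} ∫ χ(v) φ(t, x+(t-τ) v) S(τ,x,v) dv`, and `v ↦ χ(v) φ(t, x+(t-τ)v)` is
`Tst R (4 Kχ C (1 + L/r' + L²/r'²))` (`tst_mul_comp`, `av_smooth`), `L/r' = 2^16 ρ^(-4)`; so the
difference is at most `C ρ^(-8) ∫_{st (t-L) t} μ`, and its integral over `t` is at most
`C ρ^(-8) L ∫_{st (t₁-L) t₂} μ = C ρ⁴ ∫ μ`. The average over `σ ∈ [0,L]` of the main term is bounded
by `square_bound` (with `h` set to `0` outside `[t₁ - L, t₂]`) and `av_inner`.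
-/

set_option autoImplicit false

open MeasureTheory Set Filter Topology Pool.Agent.H25.Kin

namespace Pool.Agent.H15.AV

variable {d : ℕ}

private theorem Av4_ns {G : Type*} [NormedAddCommGroup G] [NormedSpace ℝ G] (c : ℝ) (x : G)
    {a b : ℝ} (h1 : |c| ≤ a) (h2 : ‖x‖ ≤ b) : ‖c • x‖ ≤ a * b := by
  rw [norm_smul, Real.norm_eq_abs]
  exact mul_le_mul h1 h2 (norm_nonneg _) ((abs_nonneg _).trans h1)

private theorem Av4_nsub {G : Type*} [NormedAddCommGroup G] (x y : G)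
    {a b : ℝ} (h1 : ‖x‖ ≤ a) (h2 : ‖y‖ ≤ b) : ‖x - y‖ ≤ a + b :=
  (norm_sub_le _ _).trans (add_le_add h1 h2)

private theorem Av4_comp {E : Type*} [NormedAddCommGroup E] [NormedSpace ℝ E] {φ : E → ℝ}
    {B₁ B₂ : ℝ} (hφ : ContDiff ℝ 2 φ) (h1 : ∀ x, ‖fderiv ℝ φ x‖ ≤ B₁)
    (h2 : ∀ x, ‖fderiv ℝ (fderiv ℝ φ) x‖ ≤ B₂) (x : E) (σ : ℝ) :
    ContDiff ℝ 2 (fun v => φ (x + σ • v)) ∧
    (∀ v, ‖fderiv ℝ (fun v => φ (x + σ • v)) v‖ ≤ |σ| * B₁) ∧
    (∀ v, ‖fderiv ℝ (fderiv ℝ (fun v => φ (x + σ • v))) v‖ ≤ σ ^ 2 * B₂) := by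
  have hB2 : 0 ≤ B₂ := le_trans (norm_nonneg (fderiv ℝ (fderiv ℝ φ) 0)) (h2 0)
  have hs : 0 ≤ |σ| := abs_nonneg σ
  set ψ : E → ℝ := fun v => φ (x + σ • v) with hψ
  have haff : ContDiff ℝ 2 (fun v : E => x + σ • v) := by fun_prop
  have hψs : ContDiff ℝ 2 ψ := hφ.comp haff
  have hφd : Differentiable ℝ φ := hφ.differentiable (by norm_num)
  have hφ1 : ContDiff ℝ 1 (fderiv ℝ φ) := hφ.fderiv_right (by norm_num)
  have hφdd : Differentiable ℝ (fderiv ℝ φ) := hφ1.differentiable (by norm_num)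
  have haffd : ∀ v : E, HasFDerivAt (fun v : E => x + σ • v)
      (σ • ContinuousLinearMap.id ℝ E) v := by
    intro v
    exact ((hasFDerivAt_id v).const_smul σ).const_add x
  have e1 : fderiv ℝ ψ = fun v => σ • fderiv ℝ φ (x + σ • v) := by
    funext v
    have := ((hφd (x + σ • v)).hasFDerivAt.comp v (haffd v)).fderiv
    rw [show ψ = φ ∘ (fun v : E => x + σ • v) from rfl, this]
    ext w
    simp
  refine ⟨hψs, fun v => ?_, fun v => ?_⟩
  · rw [e1]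
    simp only
    rw [norm_smul, Real.norm_eq_abs]
    exact mul_le_mul_of_nonneg_left (h1 _) hs
  · have h3 : HasFDerivAt (fderiv ℝ ψ)
        (σ • ((fderiv ℝ (fderiv ℝ φ) (x + σ • v)).comp (σ • ContinuousLinearMap.id ℝ E))) v := by
      rw [e1]
      exact (((hφdd (x + σ • v)).hasFDerivAt).comp v (haffd v)).const_smul σ
    rw [h3.fderiv]
    have h4 : ‖(fderiv ℝ (fderiv ℝ φ) (x + σ • v)).comp (σ • ContinuousLinearMap.id ℝ E)‖
        ≤ B₂ * |σ| := by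
      refine (ContinuousLinearMap.opNorm_comp_le _ _).trans ?_
      refine mul_le_mul (h2 _) ?_ (norm_nonneg _) hB2
      rw [norm_smul, Real.norm_eq_abs]
      have := mul_le_mul_of_nonneg_left (ContinuousLinearMap.norm_id_le (𝕜 := ℝ) (E := E)) hs
      simpa using this
    refine (Av4_ns (G := E →L[ℝ] E →L[ℝ] ℝ) _ _ le_rfl h4).trans (le_of_eq ?_)
    calc |σ| * (B₂ * |σ|) = |σ| ^ 2 * B₂ := by ring
      _ = σ ^ 2 * B₂ := by rw [sq_abs]

private theorem Av4_prod {E : Type*} [NormedAddCommGroup E] [NormedSpace ℝ E] {χ ψ : E → ℝ}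
    {K B₀ q₁ q₂ : ℝ} (hχ : ContDiff ℝ 2 χ) (hψs : ContDiff ℝ 2 ψ) (hK : 0 ≤ K) (hB0 : 0 ≤ B₀)
    (hq0 : 0 ≤ q₁) (hq1 : 0 ≤ q₂)
    (c0 : ∀ v, |χ v| ≤ K) (c1 : ∀ v, ‖fderiv ℝ χ v‖ ≤ K) (c2 : ∀ v, ‖fderiv ℝ (fderiv ℝ χ) v‖ ≤ K)
    (e4 : ∀ v, |ψ v| ≤ B₀) (e3 : ∀ v, ‖fderiv ℝ ψ v‖ ≤ q₁)
    (e2 : ∀ v, ‖fderiv ℝ (fderiv ℝ ψ) v‖ ≤ q₂) :
    (∀ v, |χ v * ψ v| ≤ 4 * K * (B₀ + q₁ + q₂)) ∧
    (∀ v, ‖fderiv ℝ (fun v => χ v * ψ v) v‖ ≤ 4 * K * (B₀ + q₁ + q₂)) ∧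
    (∀ v, ‖fderiv ℝ (fderiv ℝ (fun v => χ v * ψ v)) v‖ ≤ 4 * K * (B₀ + q₁ + q₂)) := by
  have hχd : Differentiable ℝ χ := hχ.differentiable (by norm_num)
  have hχ1 : ContDiff ℝ 1 (fderiv ℝ χ) := hχ.fderiv_right (by norm_num)
  have hχdd : Differentiable ℝ (fderiv ℝ χ) := hχ1.differentiable (by norm_num)
  have hψd : Differentiable ℝ ψ := hψs.differentiable (by norm_num)
  have hψ1 : ContDiff ℝ 1 (fderiv ℝ ψ) := hψs.fderiv_right (by norm_num)
  have hψdd : Differentiable ℝ (fderiv ℝ ψ) := hψ1.differentiable (by norm_num)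
  have f1 : fderiv ℝ (fun v => χ v * ψ v) = fun v => χ v • fderiv ℝ ψ v + ψ v • fderiv ℝ χ v := by
    funext v
    exact fderiv_fun_mul (hχd v) (hψd v)
  refine ⟨fun v => ?_, fun v => ?_, fun v => ?_⟩
  · rw [abs_mul]
    have := mul_le_mul (c0 v) (e4 v) (abs_nonneg _) hK
    nlinarith [mul_nonneg hK hB0, mul_nonneg hK hq0, mul_nonneg hK hq1]
  · rw [f1]
    simp only
    refine (norm_add_le _ _).trans ?_
    rw [norm_smul, norm_smul, Real.norm_eq_abs, Real.norm_eq_abs]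
    have h3 := mul_le_mul (c0 v) (e3 v) (norm_nonneg _) hK
    have h4 := mul_le_mul (e4 v) (c1 v) (norm_nonneg _) hB0
    nlinarith [mul_nonneg hK hB0, mul_nonneg hK hq0, mul_nonneg hK hq1]
  · rw [f1]
    have g1 : HasFDerivAt (fun v => χ v • fderiv ℝ ψ v)
        (χ v • fderiv ℝ (fderiv ℝ ψ) v + (fderiv ℝ χ v).smulRight (fderiv ℝ ψ v)) v :=
      (hχd v).hasFDerivAt.fun_smul (hψdd v).hasFDerivAt
    have g2 : HasFDerivAt (fun v => ψ v • fderiv ℝ χ v)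
        (ψ v • fderiv ℝ (fderiv ℝ χ) v + (fderiv ℝ ψ v).smulRight (fderiv ℝ χ v)) v :=
      (hψd v).hasFDerivAt.fun_smul (hχdd v).hasFDerivAt
    have g3 := (g1.add g2).fderiv
    have g4 : fderiv ℝ (fun v => χ v • fderiv ℝ ψ v + ψ v • fderiv ℝ χ v) v
        = χ v • fderiv ℝ (fderiv ℝ ψ) v + (fderiv ℝ χ v).smulRight (fderiv ℝ ψ v) +
          (ψ v • fderiv ℝ (fderiv ℝ χ) v + (fderiv ℝ ψ v).smulRight (fderiv ℝ χ v)) := g3
    rw [g4]
    have n1 : ‖χ v • fderiv ℝ (fderiv ℝ ψ) v‖ ≤ K * q₂ :=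
      Av4_ns (G := E →L[ℝ] E →L[ℝ] ℝ) _ _ (c0 v) (e2 v)
    have n2 : ‖(fderiv ℝ χ v).smulRight (fderiv ℝ ψ v)‖ ≤ K * q₁ := by
      rw [ContinuousLinearMap.norm_smulRight_apply]
      exact mul_le_mul (c1 v) (e3 v) (norm_nonneg _) hK
    have n3 : ‖ψ v • fderiv ℝ (fderiv ℝ χ) v‖ ≤ B₀ * K :=
      Av4_ns (G := E →L[ℝ] E →L[ℝ] ℝ) _ _ (e4 v) (c2 v)
    have n4 : ‖(fderiv ℝ ψ v).smulRight (fderiv ℝ χ v)‖ ≤ q₁ * K := by
      rw [ContinuousLinearMap.norm_smulRight_apply]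
      exact mul_le_mul (e3 v) (c1 v) (norm_nonneg _) hq0
    have n5 := norm_add_le (χ v • fderiv ℝ (fderiv ℝ ψ) v + (fderiv ℝ χ v).smulRight (fderiv ℝ ψ v))
      (ψ v • fderiv ℝ (fderiv ℝ χ) v + (fderiv ℝ ψ v).smulRight (fderiv ℝ χ v))
    have n6 := norm_add_le (χ v • fderiv ℝ (fderiv ℝ ψ) v) ((fderiv ℝ χ v).smulRight (fderiv ℝ ψ v))
    have n7 := norm_add_le (ψ v • fderiv ℝ (fderiv ℝ χ) v) ((fderiv ℝ ψ v).smulRight (fderiv ℝ χ v))
    nlinarith [mul_nonneg hK hB0, mul_nonneg hK hq0, mul_nonneg hK hq1]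

/-- products of a test function with a function moved along characteristics -/
theorem tst_mul_comp {χ : Vec d → ℝ} {R K : ℝ} (hχ : Tst R K χ) {φ : Vec d → ℝ} {B₀ B₁ B₂ : ℝ}
    (hφ : ContDiff ℝ 2 φ) (h0 : ∀ x, |φ x| ≤ B₀) (h1 : ∀ x, ‖fderiv ℝ φ x‖ ≤ B₁)
    (h2 : ∀ x, ‖fderiv ℝ (fderiv ℝ φ) x‖ ≤ B₂) (x : Vec d) (σ : ℝ) :
    Tst R (4 * K * (B₀ + |σ| * B₁ + σ ^ 2 * B₂)) fun v => χ v * φ (x + σ • v) := by
  have hK : 0 ≤ K := (abs_nonneg _).trans (hχ.le0 0)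
  have hB0 : 0 ≤ B₀ := (abs_nonneg _).trans (h0 0)
  have hB1 : 0 ≤ B₁ := (norm_nonneg _).trans (h1 0)
  have hB2 : 0 ≤ B₂ := le_trans (norm_nonneg (fderiv ℝ (fderiv ℝ φ) 0)) (h2 0)
  obtain ⟨s1, s2, s3⟩ := Av4_comp hφ h1 h2 x σ
  obtain ⟨p1, p2, p3⟩ := Av4_prod hχ.smooth s1 hK hB0 (mul_nonneg (abs_nonneg σ) hB1)
    (mul_nonneg (sq_nonneg σ) hB2) hχ.le0 hχ.le1 hχ.le2 (fun v => h0 _) s2 s3
  exact ⟨hχ.smooth.mul s1, fun v hv => by rw [hχ.supp v hv, zero_mul], p1, p2, p3⟩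

private theorem Av4_time {m : ℝ → ℝ} {a L t₁ t₂ : ℝ} (hL : 0 ≤ L) (ha : a = t₁ - L)
    (h12 : t₁ ≤ t₂) (hm : IntegrableOn m (Icc a t₂)) (h0 : ∀ t ∈ Icc a t₂, 0 ≤ m t) :
    ∃ D : ℝ → ℝ, Continuous D ∧ (∀ t ∈ Icc t₁ t₂, ∫ τ in (t - L)..t, m τ = D t) ∧
      ∫ t in t₁..t₂, D t ≤ L * ∫ τ in a..t₂, m τ := by
  set m' : ℝ → ℝ := (Icc a t₂).indicator m with hm'
  have hi : Integrable m' := by rw [hm']; exact hm.integrable_indicator measurableSet_Icc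
  have hii : ∀ x y : ℝ, IntervalIntegrable m' volume x y := fun x y => hi.intervalIntegrable
  have hn : ∀ t, 0 ≤ m' t := fun t => indicator_nonneg h0 t
  set M : ℝ → ℝ := fun t => ∫ τ in a..t, m' τ with hM
  have hMc : Continuous M := intervalIntegral.continuous_primitive hii a
  have hMmono : Monotone M := by
    intro x y hxy
    have e : M y - M x = ∫ τ in x..y, m' τ := by
      simp only [hM]
      exact intervalIntegral.integral_interval_sub_left (hii _ _) (hii _ _)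
    have : 0 ≤ ∫ τ in x..y, m' τ := intervalIntegral.integral_nonneg hxy fun t _ => hn t
    linarith
  have hMa : M a = 0 := by simp [hM]
  have hcong : ∀ x ∈ Icc a t₂, ∀ y ∈ Icc a t₂, ∫ τ in x..y, m τ = ∫ τ in x..y, m' τ := by
    intro x hx y hy
    apply intervalIntegral.integral_congr
    intro τ hτ
    have : τ ∈ Icc a t₂ := (uIcc_subset_Icc hx hy) hτ
    simp only [hm', indicator_of_mem this]
  refine ⟨fun t => M t - M (t - L), hMc.sub (hMc.comp (by fun_prop)), fun t ht => ?_, ?_⟩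
  · rw [hcong (t - L) ⟨by linarith [ht.1], by linarith [ht.2]⟩ t ⟨by linarith [ht.1], ht.2⟩]
    simp only [hM]
    exact (intervalIntegral.integral_interval_sub_left (hii _ _) (hii _ _)).symm
  · have hMi : ∀ x y : ℝ, IntervalIntegrable M volume x y := fun x y => hMc.intervalIntegrable x y
    have hMi2 : IntervalIntegrable (fun t => M (t - L)) volume t₁ t₂ :=
      (hMc.comp (by fun_prop : Continuous fun t : ℝ => t - L)).intervalIntegrable _ _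
    rw [intervalIntegral.integral_sub (hMi _ _) hMi2,
      intervalIntegral.integral_comp_sub_right (fun t => M t) L,
      intervalIntegral.integral_interval_sub_interval_comm (hMi _ _) (hMi _ _) (hMi _ _),
      hcong a ⟨le_rfl, by linarith⟩ t₂ ⟨by linarith, le_rfl⟩]
    have h1 : ∫ t in t₁..(t₁ - L), M t ≤ 0 := by
      rw [intervalIntegral.integral_symm]
      have : 0 ≤ ∫ t in (t₁ - L)..t₁, M t := by
        apply intervalIntegral.integral_nonneg (by linarith)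
        intro t ht
        rw [← hMa]
        exact hMmono (by rw [ha]; exact ht.1)
      linarith
    have h2 : ∫ t in (t₂ - L)..t₂, M t ≤ L * M t₂ := by
      have h3 : ∫ t in (t₂ - L)..t₂, M t ≤ ∫ _t in (t₂ - L)..t₂, M t₂ :=
        intervalIntegral.integral_mono_on (by linarith) (hMi _ _)
          intervalIntegrable_const fun t ht => hMmono ht.2
      rw [intervalIntegral.integral_const] at h3
      have : t₂ - (t₂ - L) = L := by ring
      rw [this, smul_eq_mul] at h3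
      exact h3
    have h4 : ∫ t in t₂..(t₂ - L), M t = -∫ t in (t₂ - L)..t₂, M t :=
      intervalIntegral.integral_symm _ _
    have h5 : M t₂ = ∫ τ in a..t₂, m' τ := rfl
    rw [← h5]
    linarith

private theorem Av4_chi {χ : Vec d → ℝ} {R K : ℝ} (hχ : Tst R K χ) :
    Continuous χ ∧ Integrable χ := by
  have hc : Continuous χ := hχ.smooth.continuous
  refine ⟨hc, hc.integrable_of_hasCompactSupport ?_⟩
  refine HasCompactSupport.intro (isCompact_closedBall (0 : Vec d) R) fun v hv => ?_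
  apply hχ.supp
  rw [Metric.mem_closedBall, dist_zero_right, not_le] at hv
  exact hv.le

/-- the difference of two averages -/
private noncomputable def Av4_phi (ρ : ℝ) (ε : ℝ × Vec d → ℝ) (p : ℝ × Vec d) : ℝ :=
  av ((ρ / 2) ^ 16) (fun x => ε (p.1, x)) p.2 - av (ρ ^ 16) (fun x => ε (p.1, x)) p.2

private theorem Av4_phi_meas (ρ : ℝ) {ε : ℝ × Vec d → ℝ} (hε : Measurable ε) :
    Measurable (Av4_phi ρ ε) := (av_meas _ hε).sub (av_meas _ hε)

private theorem Av4_phi_le (ρ : ℝ) {ε : ℝ × Vec d → ℝ} (hε : ∀ p, |ε p| ≤ 1) (p : ℝ × Vec d) :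
    |Av4_phi ρ ε p| ≤ 2 := by
  have h1 := av_abs_le ((ρ / 2) ^ 16) (F := fun x => ε (p.1, x)) (fun x => hε (p.1, x)) p.2
  have h2 := av_abs_le (ρ ^ 16) (F := fun x => ε (p.1, x)) (fun x => hε (p.1, x)) p.2
  unfold Av4_phi
  have := abs_sub (av ((ρ / 2) ^ 16) (fun x => ε (p.1, x)) p.2)
    (av (ρ ^ 16) (fun x => ε (p.1, x)) p.2)
  linarith

private theorem Av4_phi_per (ρ : ℝ) {ε : ℝ × Vec d → ℝ} (hε : ∀ t, Per fun x => ε (t, x)) (t : ℝ) :
    Per fun x => Av4_phi ρ ε (t, x) := by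
  intro x i
  have h1 := av_per ((ρ / 2) ^ 16) (hε t) x i
  have h2 := av_per (ρ ^ 16) (hε t) x i
  simp only [Av4_phi]
  rw [h1, h2]

private theorem Av4_phi_smooth (d : ℕ) : ∃ C : ℝ, 0 ≤ C ∧ ∀ ρ ∈ Ioc (0 : ℝ) 1,
    ∀ ε : ℝ × Vec d → ℝ, Measurable ε → (∀ p, |ε p| ≤ 1) → ∀ t : ℝ,
      ContDiff ℝ 2 (fun x => Av4_phi ρ ε (t, x)) ∧
      (∀ x, ‖fderiv ℝ (fun x => Av4_phi ρ ε (t, x)) x‖ ≤ C / (ρ / 2) ^ 16) ∧
      ∀ x, ‖fderiv ℝ (fderiv ℝ (fun x => Av4_phi ρ ε (t, x))) x‖ ≤ C / ((ρ / 2) ^ 16) ^ 2 := by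
  obtain ⟨C, hC, hav⟩ := av_smooth d
  refine ⟨2 * C, by linarith, fun ρ hρ ε mε hε t => ?_⟩
  have hr1 : (ρ / 2) ^ 16 ∈ Ioc (0 : ℝ) 1 :=
    ⟨by have := hρ.1; positivity, pow_le_one₀ (by linarith [hρ.1]) (by linarith [hρ.2])⟩
  have hr2 : ρ ^ 16 ∈ Ioc (0 : ℝ) 1 :=
    ⟨by have := hρ.1; positivity, pow_le_one₀ hρ.1.le hρ.2⟩
  have hle : (ρ / 2) ^ 16 ≤ ρ ^ 16 :=
    pow_le_pow_left₀ (by linarith [hρ.1]) (by linarith [hρ.1]) 16
  have mF : Measurable fun x => ε (t, x) := mε.comp (by fun_prop)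
  obtain ⟨s1, s2, s3⟩ := hav _ hr1 (fun x => ε (t, x)) mF 1 (fun x => hε (t, x))
  obtain ⟨s1', s2', s3'⟩ := hav _ hr2 (fun x => ε (t, x)) mF 1 (fun x => hε (t, x))
  have hd : Differentiable ℝ (av ((ρ / 2) ^ 16) fun x => ε (t, x)) := s1.differentiable (by norm_num)
  have hd' : Differentiable ℝ (av (ρ ^ 16) fun x => ε (t, x)) := s1'.differentiable (by norm_num)
  have hdd : Differentiable ℝ (fderiv ℝ (av ((ρ / 2) ^ 16) fun x => ε (t, x))) :=
    (s1.fderiv_right (m := 1) (by norm_num)).differentiable (by norm_num)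
  have hdd' : Differentiable ℝ (fderiv ℝ (av (ρ ^ 16) fun x => ε (t, x))) :=
    (s1'.fderiv_right (m := 1) (by norm_num)).differentiable (by norm_num)
  have e1 : fderiv ℝ (fun x => Av4_phi ρ ε (t, x)) = fun x =>
      fderiv ℝ (av ((ρ / 2) ^ 16) fun x => ε (t, x)) x - fderiv ℝ (av (ρ ^ 16) fun x => ε (t, x)) x := by
    funext x
    exact fderiv_fun_sub (hd x) (hd' x)
  have b1 : C * 1 / ρ ^ 16 ≤ C / (ρ / 2) ^ 16 := by
    rw [mul_one]
    exact div_le_div_of_nonneg_left hC hr1.1 hle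
  have b2 : C * 1 / (ρ ^ 16) ^ 2 ≤ C / ((ρ / 2) ^ 16) ^ 2 := by
    rw [mul_one]
    exact div_le_div_of_nonneg_left hC (pow_pos hr1.1 2)
      (pow_le_pow_left₀ hr1.1.le hle 2)
  refine ⟨s1.sub s1', fun x => ?_, fun x => ?_⟩
  · rw [e1]
    refine (norm_sub_le _ _).trans ?_
    have h1 := s2 x
    have h2 := (s2' x).trans b1
    rw [mul_one] at h1
    rw [mul_div_assoc]
    linarith
  · rw [e1]
    have e2 : fderiv ℝ (fun x => fderiv ℝ (av ((ρ / 2) ^ 16) fun x => ε (t, x)) x -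
        fderiv ℝ (av (ρ ^ 16) fun x => ε (t, x)) x) x =
        fderiv ℝ (fderiv ℝ (av ((ρ / 2) ^ 16) fun x => ε (t, x))) x -
          fderiv ℝ (fderiv ℝ (av (ρ ^ 16) fun x => ε (t, x))) x := fderiv_fun_sub (hdd x) (hdd' x)
    rw [e2]
    have h1 := s3 x
    have h2 := (s3' x).trans b2
    rw [mul_one] at h1
    have h3 := Av4_nsub (G := Vec d →L[ℝ] Vec d →L[ℝ] ℝ) _ _ h1 h2
    rw [mul_div_assoc]
    linarith

/-- the velocity average of the difference of two averages -/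
private theorem Av4_inner {χ : Vec d → ℝ} {R K : ℝ} (hχ : Tst R K χ) : ∃ C : ℝ, 0 ≤ C ∧
    ∀ ρ ∈ Ioc (0 : ℝ) 1, ∀ ε : ℝ × Vec d → ℝ, Measurable ε → (∀ p, |ε p| ≤ 1) →
      ∀ t τ : ℝ, τ ≠ 0 → ∀ y : Vec d,
        |∫ v, χ v ^ 2 * Av4_phi ρ ε (t, y + τ • v)| ≤ C * (ρ ^ 4 * ρ ^ 12 / |τ|) := by
  obtain ⟨C, hC, hav⟩ := av_inner hχ
  obtain ⟨hχc, hχi⟩ := Av4_chi hχ
  refine ⟨2 * C, by linarith, fun ρ hρ ε mε hε t τ hτ y => ?_⟩
  have mF : Measurable fun x => ε (t, x) := mε.comp (by fun_prop)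
  have hr1 : 0 < (ρ / 2) ^ 16 := by have := hρ.1; positivity
  have hr2 : 0 < ρ ^ 16 := by have := hρ.1; positivity
  have hle : (ρ / 2) ^ 16 ≤ ρ ^ 16 :=
    pow_le_pow_left₀ (by linarith [hρ.1]) (by linarith [hρ.1]) 16
  have h1 := hav _ hr1 (fun x => ε (t, x)) mF (fun x => hε (t, x)) τ hτ y
  have h2 := hav _ hr2 (fun x => ε (t, x)) mF (fun x => hε (t, x)) τ hτ y
  have hτ' : 0 < |τ| := abs_pos.mpr hτ
  have hint : ∀ r : ℝ, Integrable fun v => χ v ^ 2 * av r (fun x => ε (t, x)) (y + τ • v) := by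
    intro r
    have hK : 0 ≤ K := (abs_nonneg _).trans (hχ.le0 0)
    have m1 : Measurable fun v => av r (fun x => ε (t, x)) (y + τ • v) :=
      (av_meas r mε).comp (by fun_prop : Measurable fun v : Vec d => ((t, y + τ • v) : ℝ × Vec d))
    refine (hχi.norm.const_mul K).mono' ?_ (Eventually.of_forall fun v => ?_)
    · exact ((hχc.measurable.pow_const 2).mul m1).aestronglyMeasurable
    · have h3 := av_abs_le r (F := fun x => ε (t, x)) (fun x => hε (t, x)) (y + τ • v)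
      rw [Real.norm_eq_abs, Real.norm_eq_abs, abs_mul, abs_pow, sq]
      have h4 : |χ v| * |χ v| ≤ K * |χ v| := mul_le_mul_of_nonneg_right (hχ.le0 v) (abs_nonneg _)
      have h5 : 0 ≤ |χ v| * |χ v| := mul_nonneg (abs_nonneg _) (abs_nonneg _)
      calc _ ≤ |χ v| * |χ v| * 1 := mul_le_mul_of_nonneg_left h3 h5
        _ ≤ _ := by linarith
  have e : ∫ v, χ v ^ 2 * Av4_phi ρ ε (t, y + τ • v)
      = (∫ v, χ v ^ 2 * av ((ρ / 2) ^ 16) (fun x => ε (t, x)) (y + τ • v)) -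
        ∫ v, χ v ^ 2 * av (ρ ^ 16) (fun x => ε (t, x)) (y + τ • v) := by
    rw [← integral_sub (hint _) (hint _)]
    apply integral_congr_ae
    filter_upwards with v
    simp only [Av4_phi]
    ring
  rw [e]
  have h3 : (ρ / 2) ^ 16 / |τ| ≤ ρ ^ 16 / |τ| := div_le_div_of_nonneg_right hle hτ'.le
  have h4 : ρ ^ 4 * ρ ^ 12 = ρ ^ 16 := by rw [← pow_add]
  rw [h4]
  have h5 := mul_le_mul_of_nonneg_left h3 hC
  have h6 := abs_le.mp h1
  have h7 := abs_le.mp h2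
  rw [abs_le]
  constructor <;> linarith [h6.1, h6.2, h7.1, h7.2]

private theorem Av4_ae {s t : ℝ} {P : ℝ × Vec d → Prop} (h : ∀ p : ℝ × Vec d, p.1 ∈ Icc s t → P p) :
    ∀ᵐ p ∂(st d s t), P p := by
  unfold st muD
  rw [Measure.prod_restrict]
  exact ae_restrict_of_forall_mem (measurableSet_Icc.prod measurableSet_Icc) fun p hp => h p hp.1

private instance Av4_fin (s t : ℝ) : IsFiniteMeasure (st d s t) := by
  unfold st
  infer_instance

private instance Av4_sf : SFinite (nu d) := by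
  unfold nu
  infer_instance

private theorem Av4_gint {χ : Vec d → ℝ} (hχc : Continuous χ) (hχi : Integrable χ)
    {G : Vec d × Vec d → ℝ} (hG : Measurable G) {A : ℝ} (hA : ∀ q, |G q| ≤ A) :
    Integrable (fun q => χ q.1 * G q) (nu d) := by
  have h1 : Integrable (fun q : Vec d × Vec d => χ q.1) (nu d) := by
    unfold nu
    exact hχi.comp_fst (muD d)
  refine (h1.norm.const_mul A).mono' ?_ (Eventually.of_forall fun q => ?_)
  · exact ((hχc.measurable.comp measurable_fst).mul hG).aestronglyMeasurable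
  · rw [Real.norm_eq_abs, Real.norm_eq_abs, abs_mul, mul_comm]
    exact mul_le_mul_of_nonneg_right (hA q) (abs_nonneg _)

private theorem Av4_gabs {χ : Vec d → ℝ} (hχi : Integrable χ)
    {G : Vec d → ℝ} (hG : ∀ v, |G v| ≤ 1) :
    |∫ v, χ v * G v| ≤ ∫ v, |χ v| := by
  rw [← Real.norm_eq_abs]
  refine norm_integral_le_of_norm_le hχi.abs (Eventually.of_forall fun v => ?_)
  rw [Real.norm_eq_abs, abs_mul]
  exact mul_le_of_le_one_right (abs_nonneg _) (hG v)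

/-- the left side is the integral of the fiber integrals -/
private theorem Av4_sym {χ : Vec d → ℝ} (hχc : Continuous χ) (hχi : Integrable χ)
    {hh : ℝ × Vec d × Vec d → ℝ} (mh : Measurable hh) (hb : ∀ p, |hh p| ≤ 1)
    (hper : ∀ t x v i, hh (t, x + Pi.single i 1, v) = hh (t, x, v)) (ρ : ℝ)
    {ε : ℝ × Vec d → ℝ} (mε : Measurable ε) (hε : ∀ p, |ε p| ≤ 1) (pε : ∀ t, Per fun x => ε (t, x))
    {t₁ t₂ : ℝ} (h12 : t₁ ≤ t₂) :
    ∫ p, ε p * (av ((ρ / 2) ^ 16) (fun x => ∫ v, χ v * hh (p.1, x, v)) p.2 -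
        av (ρ ^ 16) (fun x => ∫ v, χ v * hh (p.1, x, v)) p.2) ∂(st d t₁ t₂) =
      ∫ t in t₁..t₂, ∫ q, χ q.1 * Av4_phi ρ ε (t, q.2) * hh (t, q.2, q.1) ∂(nu d) := by
  set g : ℝ × Vec d → ℝ := fun p => ∫ v, χ v * hh (p.1, p.2, v) with hg
  have mg : Measurable g := by
    have h1 : StronglyMeasurable fun z : (ℝ × Vec d) × Vec d => χ z.2 * hh (z.1.1, z.1.2, z.2) := by
      apply Measurable.stronglyMeasurable
      exact (hχc.measurable.comp measurable_snd).mul (mh.comp (by fun_prop))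
    exact h1.integral_prod_right'.measurable
  have hgb : ∀ p, |g p| ≤ ∫ v, |χ v| := fun p => Av4_gabs hχi fun v => hb _
  set B : ℝ := ∫ v, |χ v| with hB
  have hB0 : 0 ≤ B := integral_nonneg fun v => abs_nonneg _
  have pg : ∀ t, Per fun x => g (t, x) := by
    intro t x i
    simp only [hg]
    congr 1
    funext v
    rw [hper]
  have mav : ∀ r, Measurable fun p : ℝ × Vec d => av r (fun x => g (p.1, x)) p.2 := fun r =>
    av_meas r mg
  have bav : ∀ (r : ℝ) (p : ℝ × Vec d), |av r (fun x => g (p.1, x)) p.2| ≤ B := fun r p =>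
    av_abs_le r (fun x => hgb (p.1, x)) p.2
  have hF : Integrable (fun p : ℝ × Vec d => ε p * (av ((ρ / 2) ^ 16) (fun x => g (p.1, x)) p.2 -
        av (ρ ^ 16) (fun x => g (p.1, x)) p.2)) (st d t₁ t₂) := by
    refine Integrable.of_bound (mε.mul ((mav _).sub (mav _))).aestronglyMeasurable (2 * B)
      (Eventually.of_forall fun p => ?_)
    rw [Real.norm_eq_abs, abs_mul]
    have h1 := abs_sub (av ((ρ / 2) ^ 16) (fun x => g (p.1, x)) p.2)
      (av (ρ ^ 16) (fun x => g (p.1, x)) p.2)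
    have h2 := bav ((ρ / 2) ^ 16) p
    have h3 := bav (ρ ^ 16) p
    have h4 := hε p
    calc _ ≤ 1 * (2 * B) := mul_le_mul h4 (by linarith) (abs_nonneg _) (by norm_num)
      _ = 2 * B := one_mul _
  change ∫ p, ε p * (av ((ρ / 2) ^ 16) (fun x => g (p.1, x)) p.2 -
        av (ρ ^ 16) (fun x => g (p.1, x)) p.2) ∂(st d t₁ t₂) = _
  rw [st_integral h12 hF]
  congr 1
  funext t
  have mεt : Measurable fun x => ε (t, x) := mε.comp (by fun_prop)
  have mgt : Measurable fun x => g (t, x) := mg.comp (by fun_prop)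
  have mavt : ∀ r, Measurable fun x => av r (fun x => g (t, x)) x := fun r =>
    (mav r).comp (by fun_prop : Measurable fun x : Vec d => ((t, x) : ℝ × Vec d))
  have maet : ∀ r, Measurable fun x => av r (fun x => ε (t, x)) x := fun r =>
    (av_meas r mε).comp (by fun_prop : Measurable fun x : Vec d => ((t, x) : ℝ × Vec d))
  have i1 : ∀ r, Integrable (fun x => ε (t, x) * av r (fun x => g (t, x)) x) (muD d) := by
    intro r
    refine Integrable.of_bound (mεt.mul (mavt r)).aestronglyMeasurable (1 * B)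
      (Eventually.of_forall fun x => ?_)
    rw [Real.norm_eq_abs, abs_mul]
    exact mul_le_mul (hε _) (bav r (t, x)) (abs_nonneg _) (by norm_num)
  have i2 : ∀ r, Integrable (fun x => av r (fun x => ε (t, x)) x * g (t, x)) (muD d) := by
    intro r
    refine Integrable.of_bound ((maet r).mul mgt).aestronglyMeasurable (1 * B)
      (Eventually.of_forall fun x => ?_)
    rw [Real.norm_eq_abs, abs_mul]
    exact mul_le_mul (av_abs_le r (fun x => hε (t, x)) x) (hgb _) (abs_nonneg _) (by norm_num)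
  have e1 : ∫ x, ε (t, x) * (av ((ρ / 2) ^ 16) (fun x => g (t, x)) x -
      av (ρ ^ 16) (fun x => g (t, x)) x) ∂(muD d)
      = ∫ x, Av4_phi ρ ε (t, x) * g (t, x) ∂(muD d) := by
    have e2 : ∀ x, ε (t, x) * (av ((ρ / 2) ^ 16) (fun x => g (t, x)) x -
      av (ρ ^ 16) (fun x => g (t, x)) x) = ε (t, x) * av ((ρ / 2) ^ 16) (fun x => g (t, x)) x -
        ε (t, x) * av (ρ ^ 16) (fun x => g (t, x)) x := fun x => by ring
    have e3 : ∀ x, Av4_phi ρ ε (t, x) * g (t, x) =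
      av ((ρ / 2) ^ 16) (fun x => ε (t, x)) x * g (t, x) -
        av (ρ ^ 16) (fun x => ε (t, x)) x * g (t, x) := fun x => by
      simp only [Av4_phi]; ring
    simp only [e2, e3]
    rw [integral_sub (i1 _) (i1 _), integral_sub (i2 _) (i2 _),
      av_sym _ mεt mgt (fun x => hε (t, x)) (fun x => hgb (t, x)) (pε t) (pg t),
      av_sym _ mεt mgt (fun x => hε (t, x)) (fun x => hgb (t, x)) (pε t) (pg t)]
  simp only
  rw [e1]
  have hG : Integrable (fun q : Vec d × Vec d =>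
      χ q.1 * (Av4_phi ρ ε (t, q.2) * hh (t, q.2, q.1))) (nu d) := by
    refine Av4_gint hχc hχi (A := 2) ?_ fun q => ?_
    · exact ((Av4_phi_meas ρ mε).comp (by fun_prop)).mul (mh.comp (by fun_prop))
    · rw [abs_mul]
      calc _ ≤ 2 * 1 := mul_le_mul (Av4_phi_le ρ hε _) (hb _) (abs_nonneg _) (by norm_num)
        _ = 2 := by norm_num
  have e4 : ∫ q, χ q.1 * Av4_phi ρ ε (t, q.2) * hh (t, q.2, q.1) ∂(nu d)
      = ∫ q, χ q.1 * (Av4_phi ρ ε (t, q.2) * hh (t, q.2, q.1)) ∂(nu d) := by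
    simp only [mul_assoc]
  rw [e4, nu_integral hG]
  congr 1
  funext x
  simp only [hg]
  rw [← integral_const_mul]
  congr 1
  funext v
  ring

private theorem Av4_mu0 {T R : ℝ} {S : ℝ → Vec d → Vec d → ℝ} {μ : ℝ × Vec d → ℝ}
    (hμ : ∀ t ∈ Ioo 0 T, ∀ x, ∀ (K : ℝ) (Θ : Vec d → ℝ), Tst R K Θ →
        |∫ v, Θ v * S t x v| ≤ K * μ (t, x)) : ∀ t ∈ Ioo 0 T, ∀ x, 0 ≤ μ (t, x) := by
  intro t ht x
  have h0 : Tst R 1 (fun _ : Vec d => (0 : ℝ)) := by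
    refine ⟨contDiff_const, fun v _ => rfl, fun v => by simp, fun v => ?_, fun v => ?_⟩
    · rw [fderiv_fun_const]
      simp
    · have : fderiv ℝ (fun _ : Vec d => (0 : ℝ)) = fun _ => 0 := by
        funext w
        simp
      rw [this]
      have h2 : fderiv ℝ (fun _ : Vec d => (0 : Vec d →L[ℝ] ℝ)) v = 0 := by simp
      rw [h2]
      have h3 : ‖(0 : Vec d →L[ℝ] Vec d →L[ℝ] ℝ)‖ = 0 := ContinuousLinearMap.opNorm_zero
      rw [h3]
      norm_num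
  have := hμ t ht x 1 _ h0
  rw [one_mul] at this
  exact (abs_nonneg _).trans this

private theorem Av4_m {T : ℝ} {μ : ℝ × Vec d → ℝ} (hc : ContinuousOn μ (Ioo 0 T ×ˢ univ))
    {s t : ℝ} (hs : 0 < s) (ht : t < T) :
    Integrable μ (st d s t) ∧ IntegrableOn (fun τ => ∫ x, μ (τ, x) ∂(muD d)) (Icc s t) := by
  have h1 : Integrable μ (st d s t) := by
    apply st_integrable
    apply hc.mono
    intro p hp
    exact ⟨⟨hs.trans_le hp.1.1, hp.1.2.trans_lt ht⟩, mem_univ _⟩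
  refine ⟨h1, ?_⟩
  unfold st at h1
  exact h1.integral_prod_left

private theorem Av4_diff {χ : Vec d → ℝ} {R Kχ : ℝ} (hχ : Tst R Kχ χ) {T : ℝ}
    {S h : ℝ → Vec d → Vec d → ℝ} (H : TSol T S h)
    {μ : ℝ × Vec d → ℝ} (hμc : ContinuousOn μ (Ioo 0 T ×ˢ univ))
    (hμ : ∀ t ∈ Ioo 0 T, ∀ x, ∀ (K : ℝ) (Θ : Vec d → ℝ), Tst R K Θ →
        |∫ v, Θ v * S t x v| ≤ K * μ (t, x))
    {φ : Vec d → ℝ} {B₁ B₂ : ℝ} (hφ : ContDiff ℝ 2 φ) (pφ : Per φ) (h0 : ∀ x, |φ x| ≤ 2)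
    (h1 : ∀ x, ‖fderiv ℝ φ x‖ ≤ B₁) (h2 : ∀ x, ‖fderiv ℝ (fderiv ℝ φ) x‖ ≤ B₂)
    {t σ L : ℝ} (hσ0 : 0 ≤ σ) (hσL : σ ≤ L) (htL : 0 < t - L) (htT : t < T) :
    |(∫ q, χ q.1 * φ q.2 * h t q.2 q.1 ∂(nu d)) -
      ∫ q, χ q.1 * φ (q.2 + σ • q.1) * h (t - σ) q.2 q.1 ∂(nu d)| ≤
      4 * Kχ * (2 + L * B₁ + L ^ 2 * B₂) * ∫ τ in (t - L)..t, ∫ x, μ (τ, x) ∂(muD d) := by
  have hK : 0 ≤ Kχ := (abs_nonneg _).trans (hχ.le0 0)
  have hB1 : 0 ≤ B₁ := (norm_nonneg _).trans (h1 0)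
  have hB2 : 0 ≤ B₂ := le_trans (norm_nonneg (fderiv ℝ (fderiv ℝ φ) 0)) (h2 0)
  have hL0 : 0 ≤ L := hσ0.trans hσL
  set Φ : Vec d × Vec d → ℝ := fun q => χ q.1 * φ (q.2 + t • q.1) with hΦ
  have hΦc : Continuous Φ := by
    have hc1 : Continuous χ := hχ.smooth.continuous
    have hc2 : Continuous φ := hφ.continuous
    exact (hc1.comp continuous_fst).mul (hc2.comp (by fun_prop))
  have hΦb : ∀ q, |Φ q| ≤ Kχ * 2 := by
    intro q
    simp only [hΦ]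
    rw [abs_mul]
    exact mul_le_mul (hχ.le0 _) (h0 _) (abs_nonneg _) hK
  have hΦp : ∀ v, Per fun y => Φ (v, y) := by
    intro v y i
    simp only [hΦ]
    congr 1
    rw [add_right_comm]
    exact pφ _ i
  have hst : t - σ ≤ t := by linarith
  have hs0 : 0 < t - σ := by linarith
  obtain ⟨hint, heq⟩ := H.ftc_st hΦc hΦb hΦp hs0 hst htT
  have e1 : pair Φ h t = ∫ q, χ q.1 * φ q.2 * h t q.2 q.1 ∂(nu d) := by
    unfold pair
    simp only [hΦ, sub_add_cancel]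
  have e2 : pair Φ h (t - σ) = ∫ q, χ q.1 * φ (q.2 + σ • q.1) * h (t - σ) q.2 q.1 ∂(nu d) := by
    unfold pair
    apply integral_congr_ae
    filter_upwards with q
    simp only [hΦ]
    have : q.2 - (t - σ) • q.1 + t • q.1 = q.2 + σ • q.1 := by
      rw [sub_smul]; abel
    rw [this]
  rw [← e1, ← e2, heq]
  obtain ⟨i1, -⟩ := Av4_m (d := d) hμc hs0 htT
  obtain ⟨-, i2⟩ := Av4_m (d := d) hμc htL htT
  set K' : ℝ := 4 * Kχ * (2 + L * B₁ + L ^ 2 * B₂) with hK'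
  have hK'0 : 0 ≤ K' := by positivity
  have hμ0 := Av4_mu0 hμ
  have b1 : |∫ p, (∫ v, Φ (v, p.2 - p.1 • v) * S p.1 p.2 v) ∂(st d (t - σ) t)| ≤
      ∫ p, K' * μ p ∂(st d (t - σ) t) := by
    rw [← Real.norm_eq_abs]
    refine norm_integral_le_of_norm_le (i1.const_mul K') (Av4_ae fun p hp => ?_)
    rw [Real.norm_eq_abs]
    have hpT : p.1 ∈ Ioo 0 T := ⟨hs0.trans_le hp.1, hp.2.trans_lt htT⟩
    have e3 : (fun v => Φ (v, p.2 - p.1 • v)) = fun v => χ v * φ (p.2 + (t - p.1) • v) := by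
      funext v
      simp only [hΦ]
      have : p.2 - p.1 • v + t • v = p.2 + (t - p.1) • v := by
        rw [sub_smul]; abel
      rw [this]
    have h3 := hμ p.1 hpT p.2 _ _ (tst_mul_comp hχ hφ h0 h1 h2 p.2 (t - p.1))
    have e4 : ∀ v, Φ (v, p.2 - p.1 • v) = χ v * φ (p.2 + (t - p.1) • v) := fun v =>
      congrFun e3 v
    simp only [e4]
    refine h3.trans (mul_le_mul_of_nonneg_right ?_ (hμ0 p.1 hpT p.2))
    have h4 : 0 ≤ t - p.1 := by linarith [hp.2]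
    have h5 : t - p.1 ≤ L := by linarith [hp.1]
    rw [abs_of_nonneg h4]
    have h6 : (t - p.1) ^ 2 ≤ L ^ 2 := pow_le_pow_left₀ h4 h5 2
    have h7 := mul_le_mul_of_nonneg_right h5 hB1
    have h8 := mul_le_mul_of_nonneg_right h6 hB2
    exact mul_le_mul_of_nonneg_left (by linarith) (by positivity)
  refine b1.trans ?_
  rw [integral_const_mul, st_integral hst i1]
  refine mul_le_mul_of_nonneg_left ?_ hK'0
  have hii : IntervalIntegrable (fun τ => ∫ x, μ (τ, x) ∂(muD d)) volume (t - L) t := by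
    rw [intervalIntegrable_iff_integrableOn_Icc_of_le (by linarith)]
    exact i2
  refine intervalIntegral.integral_mono_interval (by linarith) hst le_rfl ?_ hii
  rw [EventuallyLE, ae_restrict_iff' measurableSet_Ioc]
  filter_upwards with τ hτ
  exact integral_nonneg fun x => hμ0 τ ⟨htL.trans hτ.1, hτ.2.trans_lt htT⟩ x

private theorem Av4_num {ρ : ℝ} (hρ : ρ ∈ Ioc (0 : ℝ) 1) {C₁ K : ℝ} (hC : 0 ≤ C₁) (hK : 0 ≤ K) :
    4 * K * (2 + ρ ^ 12 * (C₁ / (ρ / 2) ^ 16) + (ρ ^ 12) ^ 2 * (C₁ / ((ρ / 2) ^ 16) ^ 2)) * ρ ^ 12 ≤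
      4 * K * (2 + 2 ^ 16 * C₁ + 2 ^ 32 * C₁) * ρ := by
  have h0 : 0 < ρ := hρ.1
  have hne : ρ ≠ 0 := h0.ne'
  have e1 : ρ ^ 12 * (C₁ / (ρ / 2) ^ 16) * ρ ^ 12 = 2 ^ 16 * C₁ * ρ ^ 8 := by
    field_simp
  have e2 : (ρ ^ 12) ^ 2 * (C₁ / ((ρ / 2) ^ 16) ^ 2) * ρ ^ 12 = 2 ^ 32 * C₁ * ρ ^ 4 := by
    field_simp
  have p : ∀ n : ℕ, 1 ≤ n → ρ ^ n ≤ ρ := by
    intro n hn
    calc ρ ^ n ≤ ρ ^ 1 := pow_le_pow_of_le_one h0.le hρ.2 hn
      _ = ρ := pow_one _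
  have h12 := p 12 (by norm_num)
  have h8 := p 8 (by norm_num)
  have h4 := p 4 (by norm_num)
  have key : (2 + ρ ^ 12 * (C₁ / (ρ / 2) ^ 16) + (ρ ^ 12) ^ 2 * (C₁ / ((ρ / 2) ^ 16) ^ 2)) * ρ ^ 12 ≤
      (2 + 2 ^ 16 * C₁ + 2 ^ 32 * C₁) * ρ := by
    have e3 : (2 + ρ ^ 12 * (C₁ / (ρ / 2) ^ 16) + (ρ ^ 12) ^ 2 * (C₁ / ((ρ / 2) ^ 16) ^ 2)) * ρ ^ 12
        = 2 * ρ ^ 12 + 2 ^ 16 * C₁ * ρ ^ 8 + 2 ^ 32 * C₁ * ρ ^ 4 := by
      rw [← e1, ← e2]; ring
    rw [e3]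
    have h5 := mul_le_mul_of_nonneg_left h8 (by positivity : 0 ≤ 2 ^ 16 * C₁)
    have h6 := mul_le_mul_of_nonneg_left h4 (by positivity : 0 ≤ 2 ^ 32 * C₁)
    nlinarith
  have h7 := mul_le_mul_of_nonneg_left key (by positivity : 0 ≤ 4 * K)
  calc _ = 4 * K * ((2 + ρ ^ 12 * (C₁ / (ρ / 2) ^ 16) +
        (ρ ^ 12) ^ 2 * (C₁ / ((ρ / 2) ^ 16) ^ 2)) * ρ ^ 12) := by ring
    _ ≤ _ := h7
    _ = _ := by ring

theorem single_scale {χ : Vec d → ℝ} {R Kχ : ℝ} (hR : 0 < R) (hχ : Tst R Kχ χ) :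
    ∃ C : ℝ, 0 ≤ C ∧ ∀ (T : ℝ) (S h : ℝ → Vec d → Vec d → ℝ), TSol T S h →
      (∀ t ∈ Ico 0 T, ∀ x v, 0 ≤ h t x v ∧ h t x v ≤ 1) →
      ∀ μ : ℝ × Vec d → ℝ, ContinuousOn μ (Ioo 0 T ×ˢ univ) →
      (∀ t ∈ Ioo 0 T, ∀ x, ∀ (K : ℝ) (Θ : Vec d → ℝ), Tst R K Θ →
        |∫ v, Θ v * S t x v| ≤ K * μ (t, x)) →
      ∀ ρ ∈ Ioc (0 : ℝ) 1, ∀ t₁ t₂ : ℝ, ρ ^ 12 < t₁ → t₁ ≤ t₂ → t₂ ≤ t₁ + 1 → t₂ < T →
      ∀ ε : ℝ × Vec d → ℝ, Measurable ε → (∀ p, |ε p| ≤ 1) → (∀ t, Per fun x => ε (t, x)) →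
        |∫ p, ε p * (av ((ρ / 2) ^ 16) (fun x => ∫ v, χ v * h p.1 x v) p.2 -
            av (ρ ^ 16) (fun x => ∫ v, χ v * h p.1 x v) p.2) ∂(st d t₁ t₂)| ≤
          C * ρ * (1 + ∫ p, μ p ∂(st d (t₁ - ρ ^ 12) t₂)) := by
  obtain ⟨Ci, hCi, hinner⟩ := Av4_inner hχ
  obtain ⟨Cs, hCs, hsq⟩ := square_bound hχ hCi
  obtain ⟨C₁, hC₁, hsm⟩ := Av4_phi_smooth d
  obtain ⟨hχc, hχi⟩ := Av4_chi hχ
  have hK : 0 ≤ Kχ := (abs_nonneg _).trans (hχ.le0 0)
  set C₂ : ℝ := 4 * Kχ * (2 + 2 ^ 16 * C₁ + 2 ^ 32 * C₁) with hC₂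
  have hC₂0 : 0 ≤ C₂ := by positivity
  refine ⟨Cs + C₂, by linarith, ?_⟩
  intro T S h H hh01 μ hμc hμ ρ hρ t₁ t₂ hLt h12 h21 h2T ε mε hε pε
  have hμ0 := Av4_mu0 hμ
  set L : ℝ := ρ ^ 12 with hL
  have hL0 : 0 < L := pow_pos hρ.1 12
  have hL1 : L ≤ 1 := pow_le_one₀ hρ.1.le hρ.2
  set a : ℝ := t₁ - L with ha
  have ha0 : 0 < a := by rw [ha]; linarith
  have hat : a ≤ t₂ := by rw [ha]; linarith
  -- the function cut off in time
  set hh : ℝ × Vec d × Vec d → ℝ :=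
    (Icc a t₂ ×ˢ (univ : Set (Vec d × Vec d))).piecewise (unc h) (fun _ => 0) with hhdef
  have mset : MeasurableSet (Icc a t₂ ×ˢ (univ : Set (Vec d × Vec d))) :=
    measurableSet_Icc.prod MeasurableSet.univ
  have hIcc : ∀ t ∈ Icc a t₂, t ∈ Ico 0 T := fun t ht => ⟨ha0.le.trans ht.1, ht.2.trans_lt h2T⟩
  have mh : Measurable hh := by
    refine ContinuousOn.measurable_piecewise (H.cont.mono ?_) continuousOn_const mset
    intro p hp
    exact ⟨hIcc p.1 hp.1, mem_univ _⟩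
  have hin : ∀ t ∈ Icc a t₂, ∀ x v, hh (t, x, v) = h t x v := by
    intro t ht x v
    have : ((t, x, v) : ℝ × Vec d × Vec d) ∈ Icc a t₂ ×ˢ (univ : Set (Vec d × Vec d)) :=
      ⟨ht, mem_univ _⟩
    rw [hhdef, piecewise_eq_of_mem _ _ _ this]
    rfl
  have hout : ∀ t, t ∉ Icc a t₂ → ∀ x v, hh (t, x, v) = 0 := by
    intro t ht x v
    have : ((t, x, v) : ℝ × Vec d × Vec d) ∉ Icc a t₂ ×ˢ (univ : Set (Vec d × Vec d)) :=
      fun h => ht h.1
    rw [hhdef, piecewise_eq_of_notMem _ _ _ this]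
  have hb : ∀ p, |hh p| ≤ 1 := by
    rintro ⟨t, x, v⟩
    by_cases ht : t ∈ Icc a t₂
    · rw [hin t ht, abs_of_nonneg (hh01 t (hIcc t ht) x v).1]
      exact (hh01 t (hIcc t ht) x v).2
    · rw [hout t ht]; simp
  have hper : ∀ t x v i, hh (t, x + Pi.single i 1, v) = hh (t, x, v) := by
    intro t x v i
    by_cases ht : t ∈ Icc a t₂
    · rw [hin t ht, hin t ht]
      exact H.per t (hIcc t ht) x v i
    · rw [hout t ht, hout t ht]
  -- the two kinds of fiber integrals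
  set A : ℝ → ℝ := fun t => ∫ q, χ q.1 * Av4_phi ρ ε (t, q.2) * hh (t, q.2, q.1) ∂(nu d) with hA
  set B : ℝ → ℝ → ℝ := fun t σ =>
    ∫ q, χ q.1 * Av4_phi ρ ε (t, q.2 + σ • q.1) * hh (t - σ, q.2, q.1) ∂(nu d) with hB
  have hLHS : ∫ p, ε p * (av ((ρ / 2) ^ 16) (fun x => ∫ v, χ v * h p.1 x v) p.2 -
      av (ρ ^ 16) (fun x => ∫ v, χ v * h p.1 x v) p.2) ∂(st d t₁ t₂) = ∫ t in t₁..t₂, A t := by
    rw [← Av4_sym hχc hχi mh hb hper ρ mε hε pε h12]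
    apply integral_congr_ae
    refine Av4_ae fun p hp => ?_
    have hp' : p.1 ∈ Icc a t₂ := ⟨by linarith [hp.1], hp.2⟩
    have e1 : (fun x => ∫ v, χ v * hh (p.1, x, v)) = fun x => ∫ v, χ v * h p.1 x v := by
      funext x
      congr 1
      funext v
      rw [hin p.1 hp']
    simp only
    rw [e1]
  -- the main term
  have hmain := hsq ρ hρ L ⟨hL0, hL1⟩ t₁ t₂ h12 h21 (Av4_phi ρ ε) (Av4_phi_meas ρ mε)
    (Av4_phi_le ρ hε) (Av4_phi_per ρ pε) (hinner ρ hρ ε mε hε) hh mh hb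
  have hmain' : |∫ t in t₁..t₂, ∫ σ in (0 : ℝ)..L, B t σ| ≤ L * (Cs * ρ) := hmain
  -- measurability and bounds
  have mφ := Av4_phi_meas ρ mε
  set c : ℝ := ∫ v, |χ v| with hc
  have bnd : ∀ (G : Vec d × Vec d → ℝ), (∀ q, |G q| ≤ 2) →
      |∫ q, χ q.1 * G q ∂(nu d)| ≤ 2 * ∫ q, |χ q.1| ∂(nu d) := by
    intro G hG
    have h1 : Integrable (fun q : Vec d × Vec d => χ q.1) (nu d) := by
      unfold nu
      exact hχi.comp_fst (muD d)
    rw [← Real.norm_eq_abs, ← integral_const_mul]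
    refine norm_integral_le_of_norm_le (h1.abs.const_mul 2) (Eventually.of_forall fun q => ?_)
    rw [Real.norm_eq_abs, abs_mul, mul_comm]
    exact mul_le_mul_of_nonneg_right (hG q) (abs_nonneg _)
  set b : ℝ := 2 * ∫ q, |χ q.1| ∂(nu d) with hbdef
  have hAb : ∀ t, |A t| ≤ b := by
    intro t
    have := bnd (fun q => Av4_phi ρ ε (t, q.2) * hh (t, q.2, q.1)) (fun q => by
      rw [abs_mul]
      calc _ ≤ 2 * 1 := mul_le_mul (Av4_phi_le ρ hε _) (hb _) (abs_nonneg _) (by norm_num)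
        _ = 2 := by norm_num)
    simp only [hA]
    simpa only [mul_assoc] using this
  have hBb : ∀ t σ, |B t σ| ≤ b := by
    intro t σ
    have := bnd (fun q => Av4_phi ρ ε (t, q.2 + σ • q.1) * hh (t - σ, q.2, q.1)) (fun q => by
      rw [abs_mul]
      calc _ ≤ 2 * 1 := mul_le_mul (Av4_phi_le ρ hε _) (hb _) (abs_nonneg _) (by norm_num)
        _ = 2 := by norm_num)
    simp only [hB]
    simpa only [mul_assoc] using this
  have mB : StronglyMeasurable fun p : ℝ × ℝ => B p.1 p.2 := by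
    have h1 : StronglyMeasurable fun z : (ℝ × ℝ) × (Vec d × Vec d) =>
        χ z.2.1 * Av4_phi ρ ε (z.1.1, z.2.2 + z.1.2 • z.2.1) *
          hh (z.1.1 - z.1.2, z.2.2, z.2.1) := by
      apply Measurable.stronglyMeasurable
      exact ((hχc.measurable.comp (by fun_prop)).mul (mφ.comp (by fun_prop))).mul
        (mh.comp (by fun_prop))
    exact h1.integral_prod_right'
  have mA : StronglyMeasurable A := by
    have h1 : StronglyMeasurable fun z : ℝ × (Vec d × Vec d) =>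
        χ z.2.1 * Av4_phi ρ ε (z.1, z.2.2) * hh (z.1, z.2.2, z.2.1) := by
      apply Measurable.stronglyMeasurable
      exact ((hχc.measurable.comp (by fun_prop)).mul (mφ.comp (by fun_prop))).mul
        (mh.comp (by fun_prop))
    exact h1.integral_prod_right'
  have iB : ∀ t, IntervalIntegrable (B t) volume 0 L := by
    intro t
    rw [intervalIntegrable_iff]
    refine Measure.integrableOn_of_bounded (M := b) (by simp) ?_ ?_
    · exact (mB.comp_measurable (by fun_prop : Measurable fun σ : ℝ => (t, σ))).aestronglyMeasurable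
    · exact Eventually.of_forall fun σ => hBb t σ
  have iA : IntervalIntegrable A volume t₁ t₂ := by
    rw [intervalIntegrable_iff]
    exact Measure.integrableOn_of_bounded (M := b) (by simp) mA.aestronglyMeasurable
      (Eventually.of_forall fun t => hAb t)
  have mIB : StronglyMeasurable fun t => ∫ σ in (0 : ℝ)..L, B t σ := by
    simp only [intervalIntegral.integral_of_le hL0.le]
    exact mB.integral_prod_right' (ν := volume.restrict (Ioc 0 L))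
  have iIB : IntervalIntegrable (fun t => ∫ σ in (0 : ℝ)..L, B t σ) volume t₁ t₂ := by
    rw [intervalIntegrable_iff]
    refine Measure.integrableOn_of_bounded (M := b * |L - 0|) (by simp) mIB.aestronglyMeasurable
      (Eventually.of_forall fun t => ?_)
    exact intervalIntegral.norm_integral_le_of_norm_le_const fun σ _ => hBb t σ
  -- the error
  obtain ⟨-, im⟩ := Av4_m (d := d) hμc ha0 h2T
  have hm0 : ∀ t ∈ Icc a t₂, 0 ≤ ∫ x, μ (t, x) ∂(muD d) := fun t ht =>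
    integral_nonneg fun x => hμ0 t ⟨ha0.trans_le ht.1, ht.2.trans_lt h2T⟩ x
  obtain ⟨D, hDc, hDe, hDi⟩ := Av4_time hL0.le ha h12 im hm0
  set B₁ : ℝ := C₁ / (ρ / 2) ^ 16 with hB₁
  set B₂ : ℝ := C₁ / ((ρ / 2) ^ 16) ^ 2 with hB₂
  set K' : ℝ := 4 * Kχ * (2 + L * B₁ + L ^ 2 * B₂) with hK'
  have hρ2 : 0 < (ρ / 2) ^ 16 := by have := hρ.1; positivity
  have hB₁0 : 0 ≤ B₁ := div_nonneg hC₁ hρ2.le
  have hB₂0 : 0 ≤ B₂ := div_nonneg hC₁ (pow_pos hρ2 2).le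
  have hK'0 : 0 ≤ K' := by positivity
  have hdiff : ∀ t ∈ Icc t₁ t₂, ∀ σ ∈ Icc 0 L, |A t - B t σ| ≤ K' * D t := by
    intro t ht σ hσ
    obtain ⟨s1, s2, s3⟩ := hsm ρ hρ ε mε hε t
    have h1 := Av4_diff hχ H hμc hμ s1 (Av4_phi_per ρ pε t) (fun x => Av4_phi_le ρ hε (t, x)) s2 s3
      hσ.1 hσ.2 (by linarith [ht.1] : 0 < t - L) (ht.2.trans_lt h2T)
    rw [hDe t ht] at h1
    have ht' : t ∈ Icc a t₂ := ⟨by linarith [ht.1], ht.2⟩
    have hσ' : t - σ ∈ Icc a t₂ := ⟨by linarith [ht.1, hσ.2], by linarith [ht.2, hσ.1]⟩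
    have e1 : A t = ∫ q, χ q.1 * Av4_phi ρ ε (t, q.2) * h t q.2 q.1 ∂(nu d) := by
      simp only [hA, hin t ht']
    have e2 : B t σ = ∫ q, χ q.1 * Av4_phi ρ ε (t, q.2 + σ • q.1) * h (t - σ) q.2 q.1 ∂(nu d) := by
      simp only [hB, hin (t - σ) hσ']
    rw [e1, e2]
    exact h1
  have herr : |∫ t in t₁..t₂, (L * A t - ∫ σ in (0 : ℝ)..L, B t σ)| ≤
      ∫ t in t₁..t₂, L * (K' * D t) := by
    have h1 : ∀ t ∈ Icc t₁ t₂, |L * A t - ∫ σ in (0 : ℝ)..L, B t σ| ≤ L * (K' * D t) := by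
      intro t ht
      have e1 : L * A t - ∫ σ in (0 : ℝ)..L, B t σ = ∫ σ in (0 : ℝ)..L, (A t - B t σ) := by
        rw [intervalIntegral.integral_sub intervalIntegrable_const (iB t),
          intervalIntegral.integral_const, sub_zero, smul_eq_mul]
      rw [e1]
      have h2 := intervalIntegral.norm_integral_le_of_norm_le_const (a := 0) (b := L)
        (f := fun σ => A t - B t σ) (C := K' * D t) (fun σ hσ => by
          rw [uIoc_of_le hL0.le] at hσ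
          exact hdiff t ht σ ⟨hσ.1.le, hσ.2⟩)
      rw [sub_zero, abs_of_pos hL0, mul_comm] at h2
      exact h2
    have iD : IntervalIntegrable (fun t => L * (K' * D t)) volume t₁ t₂ :=
      (continuous_const.mul (continuous_const.mul hDc)).intervalIntegrable _ _
    have h3 := intervalIntegral.norm_integral_le_of_norm_le (μ := volume)
      (f := fun t => L * A t - ∫ σ in (0 : ℝ)..L, B t σ) (g := fun t => L * (K' * D t)) h12
      (Eventually.of_forall fun t ht => h1 t ⟨ht.1.le, ht.2⟩) iD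
    exact h3
  have herr2 : ∫ t in t₁..t₂, L * (K' * D t) ≤
      L * (K' * (L * ∫ τ in a..t₂, ∫ x, μ (τ, x) ∂(muD d))) := by
    rw [intervalIntegral.integral_const_mul, intervalIntegral.integral_const_mul]
    exact mul_le_mul_of_nonneg_left (mul_le_mul_of_nonneg_left hDi hK'0) hL0.le
  obtain ⟨iμ, -⟩ := Av4_m (d := d) hμc ha0 h2T
  have eμ : ∫ p, μ p ∂(st d a t₂) = ∫ τ in a..t₂, ∫ x, μ (τ, x) ∂(muD d) := st_integral hat iμ
  set J : ℝ := ∫ p, μ p ∂(st d a t₂) with hJ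
  have hJ0 : 0 ≤ J := by
    rw [eμ]
    exact intervalIntegral.integral_nonneg hat fun t ht => hm0 t ht
  rw [hLHS]
  have etot : L * ∫ t in t₁..t₂, A t =
      (∫ t in t₁..t₂, (L * A t - ∫ σ in (0 : ℝ)..L, B t σ)) +
        ∫ t in t₁..t₂, ∫ σ in (0 : ℝ)..L, B t σ := by
    rw [intervalIntegral.integral_sub (iA.const_mul L) iIB, intervalIntegral.integral_const_mul]
    ring
  have h5 : L * |∫ t in t₁..t₂, A t| ≤ L * (K' * (L * J) + Cs * ρ) := by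
    rw [← abs_of_pos hL0, ← abs_mul, abs_of_pos hL0, etot]
    refine (abs_add_le _ _).trans ?_
    rw [← eμ] at herr2
    have := herr.trans herr2
    linarith
  have h6 : |∫ t in t₁..t₂, A t| ≤ K' * (L * J) + Cs * ρ := le_of_mul_le_mul_left h5 hL0
  have h7 : K' * L ≤ C₂ * ρ := Av4_num hρ hC₁ hK
  have h8 : K' * (L * J) ≤ C₂ * ρ * J := by
    rw [← mul_assoc]
    exact mul_le_mul_of_nonneg_right h7 hJ0
  have h9 : 0 ≤ Cs * ρ * J := mul_nonneg (mul_nonneg hCs hρ.1.le) hJ0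
  have h10 : 0 ≤ C₂ * ρ := mul_nonneg hC₂0 hρ.1.le
  nlinarith

end Pool.Agent.H15.AV
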