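import Pool.Agent.H15.AV.Av4

/-!
# The velocity averaging lemma

MODULE Av5. Sum `single_scale` over the scales `ρ / 2^j`: telescoping, and let `j → ∞` with
`av_tendsto` and dominated convergence (the averages are continuous and bounded). Note that
`(ρ/2^j)^12 ≤ ρ^12` and that `μ ≥ 0` (test with `Θ = 0`, `K = 1`), so the integrals of `μ` over the
smaller windows are at most the one over the largest.
-/

set_option autoImplicit false

open MeasureTheory Set Filter Topology Pool.Agent.H25.Kin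

namespace Pool.Agent.H15.AV

variable {d : ℕ}

private theorem Av5_st (s t : ℝ) :
    st d s t = ((volume : Measure ℝ).prod (muD d)).restrict (Icc s t ×ˢ univ) := by
  unfold st
  conv_lhs => rw [← Measure.restrict_univ (μ := muD d)]
  rw [Measure.prod_restrict]

private theorem Av5_fin (s t : ℝ) : IsFiniteMeasure (st d s t) := by
  unfold st; infer_instance

private theorem Av5_ae {s t : ℝ} {P : ℝ × Vec d → Prop} (h : ∀ p : ℝ × Vec d, p.1 ∈ Icc s t → P p) :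
    ∀ᵐ p ∂(st d s t), P p := by
  rw [Av5_st]
  exact ae_restrict_of_forall_mem (measurableSet_Icc.prod MeasurableSet.univ) fun p hp => h p hp.1

private theorem Av5_tst (R : ℝ) : Tst (d := d) R 1 (fun _ => (0 : ℝ)) where
  smooth := contDiff_const
  supp := fun _ _ => rfl
  le0 := fun v => by simp
  le1 := fun v => by simp
  le2 := fun v => by
    have h1 : fderiv ℝ (fun _ : Vec d => (0 : ℝ)) = fun _ => 0 := by
      funext x; simp
    have h2 : fderiv ℝ (fun _ : Vec d => (0 : Vec d →L[ℝ] ℝ)) v = 0 := by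
      rw [fderiv_fun_const]; rfl
    rw [h1]
    refine ContinuousLinearMap.opNorm_le_bound _ zero_le_one fun w => ?_
    rw [h2]
    simp

/-- the integral of a nonnegative continuous function over a smaller window -/
private theorem Av5_mono {T s s' t : ℝ} {μ : ℝ × Vec d → ℝ}
    (hc : ContinuousOn μ (Ioo 0 T ×ˢ univ)) (h0 : ∀ t ∈ Ioo 0 T, ∀ x, 0 ≤ μ (t, x))
    (hs : 0 < s) (hss : s ≤ s') (ht : t < T) :
    ∫ p, μ p ∂(st d s' t) ≤ ∫ p, μ p ∂(st d s t) := by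
  have hsub : Icc s t ×ˢ (univ : Set (Vec d)) ⊆ Ioo 0 T ×ˢ univ :=
    prod_mono (fun r hr => ⟨hs.trans_le hr.1, hr.2.trans_lt ht⟩) subset_rfl
  have hi := st_integrable (hc.mono hsub)
  refine integral_mono_measure ?_ ?_ hi
  · rw [Av5_st, Av5_st]
    exact Measure.restrict_mono (prod_mono (Icc_subset_Icc_left hss) subset_rfl) le_rfl
  · exact Av5_ae fun p hp => h0 p.1 ⟨hs.trans_le hp.1, hp.2.trans_lt ht⟩ p.2

/-- continuity of the velocity average -/
private theorem Av5_cont {χ : Vec d → ℝ} {R Kχ : ℝ} (hχ : Tst R Kχ χ) {T : ℝ}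
    {S h : ℝ → Vec d → Vec d → ℝ} (hS : TSol T S h) :
    ContinuousOn (fun p : ℝ × Vec d => ∫ v, χ v * h p.1 p.2 v) (Ico 0 T ×ˢ univ) := by
  have hK : 0 ≤ Kχ := (abs_nonneg _).trans (hχ.le0 0)
  refine cont_int (G := fun t x v => χ v * h t x v) ?_ ?_
  · have h1 : ContinuousOn (fun p : ℝ × Vec d × Vec d => χ p.2.2) (Ico 0 T ×ˢ univ) :=
      (hχ.smooth.continuous.comp (continuous_snd.comp continuous_snd)).continuousOn
    exact h1.mul hS.cont
  · intro t ht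
    obtain ⟨C, hC⟩ := hS.dec ((t + T) / 2) (by linarith [ht.2])
    refine ⟨Ico 0 T ∩ Iio ((t + T) / 2), ?_, Kχ * C, ?_⟩
    · exact inter_mem_nhdsWithin _ (Iio_mem_nhds (by linarith [ht.2]))
    · intro s hs x v
      rw [abs_mul, mul_assoc]
      exact mul_le_mul (hχ.le0 v) (hC s ⟨hs.1.1, hs.2.le⟩ x v) (abs_nonneg _) hK

private theorem Av5_chi {χ : Vec d → ℝ} {R Kχ : ℝ} (hχ : Tst R Kχ χ) :
    Integrable (fun v => |χ v|) := by
  have hc : HasCompactSupport χ := by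
    refine HasCompactSupport.intro (isCompact_closedBall (0 : Vec d) R) fun v hv => ?_
    refine hχ.supp v ?_
    rw [Metric.mem_closedBall, dist_zero_right, not_le] at hv
    exact hv.le
  exact (hχ.smooth.continuous.integrable_of_hasCompactSupport hc).abs

theorem velocity_averaging {χ : Vec d → ℝ} {R Kχ : ℝ} (hR : 0 < R) (hχ : Tst R Kχ χ) :
    ∃ C : ℝ, 0 ≤ C ∧ ∀ (T : ℝ) (S h : ℝ → Vec d → Vec d → ℝ), TSol T S h →
      (∀ t ∈ Ico 0 T, ∀ x v, 0 ≤ h t x v ∧ h t x v ≤ 1) →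
      ∀ μ : ℝ × Vec d → ℝ, ContinuousOn μ (Ioo 0 T ×ˢ univ) →
      (∀ t ∈ Ioo 0 T, ∀ x, ∀ (K : ℝ) (Θ : Vec d → ℝ), Tst R K Θ →
        |∫ v, Θ v * S t x v| ≤ K * μ (t, x)) →
      ∀ ρ ∈ Ioc (0 : ℝ) 1, ∀ t₁ t₂ : ℝ, ρ ^ 12 < t₁ → t₁ ≤ t₂ → t₂ ≤ t₁ + 1 → t₂ < T →
      ∀ ε : ℝ × Vec d → ℝ, Measurable ε → (∀ p, |ε p| ≤ 1) → (∀ t, Per fun x => ε (t, x)) →
        |∫ p, ε p * (av (ρ ^ 16) (fun x => ∫ v, χ v * h p.1 x v) p.2 -
            ∫ v, χ v * h p.1 p.2 v) ∂(st d t₁ t₂)| ≤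
          C * ρ * (1 + ∫ p, μ p ∂(st d (t₁ - ρ ^ 12) t₂)) := by
  obtain ⟨C, hC0, hC⟩ := single_scale hR hχ
  refine ⟨2 * C, by positivity, ?_⟩
  intro T S h hS hh μ hμ hμS ρ hρ t₁ t₂ h1 h2 h3 h4 ε mε hε pε
  have hρ0 : 0 < ρ := hρ.1
  have hp12 : 0 < ρ ^ 12 := by positivity
  have ht1 : 0 < t₁ := hp12.trans h1
  have hμ0 : ∀ t ∈ Ioo 0 T, ∀ x, 0 ≤ μ (t, x) := by
    intro t ht x
    have := hμS t ht x 1 _ (Av5_tst R)
    simpa using this
  set A : ℝ := ∫ v, |χ v| with hA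
  have hA0 : 0 ≤ A := integral_nonneg fun v => abs_nonneg _
  set G : ℝ × Vec d → ℝ := fun p => ∫ v, χ v * h p.1 p.2 v with hG
  have hGc : ContinuousOn G (Ico 0 T ×ˢ univ) := Av5_cont hχ hS
  have hGb : ∀ p : ℝ × Vec d, p.1 ∈ Icc t₁ t₂ → |G p| ≤ A := by
    intro p hp
    have hpT : p.1 ∈ Ico 0 T := ⟨ht1.le.trans hp.1, hp.2.trans_lt h4⟩
    change ‖∫ v, χ v * h p.1 p.2 v‖ ≤ A
    refine norm_integral_le_of_norm_le (Av5_chi hχ) (Eventually.of_forall fun v => ?_)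
    have h5 := hh p.1 hpT p.2 v
    rw [Real.norm_eq_abs, abs_mul, abs_of_nonneg h5.1]
    exact mul_le_of_le_one_right (abs_nonneg _) h5.2
  -- the extension by zero
  classical
  set G' : ℝ × Vec d → ℝ := (Icc t₁ t₂ ×ˢ (univ : Set (Vec d))).piecewise G 0 with hG'
  have hWm : MeasurableSet (Icc t₁ t₂ ×ˢ (univ : Set (Vec d))) :=
    measurableSet_Icc.prod MeasurableSet.univ
  have hG'm : Measurable G' := by
    refine ContinuousOn.measurable_piecewise (hGc.mono ?_) continuousOn_const hWm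
    exact prod_mono (fun r hr => ⟨ht1.le.trans hr.1, hr.2.trans_lt h4⟩) subset_rfl
  have hG'e : ∀ t ∈ Icc t₁ t₂, ∀ x, G' (t, x) = G (t, x) := by
    intro t ht x
    exact Set.piecewise_eq_of_mem _ _ _ (show (t, x) ∈ Icc t₁ t₂ ×ˢ (univ : Set (Vec d)) from
      ⟨ht, trivial⟩)
  -- the averages
  set F : ℝ → ℝ × Vec d → ℝ := fun r p => av r (fun x => ∫ v, χ v * h p.1 x v) p.2 with hF
  have hFb : ∀ r, ∀ p : ℝ × Vec d, p.1 ∈ Icc t₁ t₂ → |F r p| ≤ A := by
    intro r p hp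
    exact av_abs_le r (fun x => hGb (p.1, x) hp) p.2
  have hFm : ∀ r, AEStronglyMeasurable (F r) (st d t₁ t₂) := by
    intro r
    have h5 := (av_meas r hG'm).aestronglyMeasurable (μ := st d t₁ t₂)
    refine h5.congr (Av5_ae fun p hp => ?_)
    simp only [hF]
    congr 1
    funext y
    exact hG'e p.1 hp y
  have hGm : AEStronglyMeasurable G (st d t₁ t₂) := by
    refine (hG'm.aestronglyMeasurable (μ := st d t₁ t₂)).congr (Av5_ae fun p hp => ?_)
    exact hG'e p.1 hp p.2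
  have hfinm := Av5_fin (d := d) t₁ t₂
  have hIF : ∀ r, Integrable (fun p => ε p * F r p) (st d t₁ t₂) := by
    intro r
    refine Integrable.of_bound (mε.aestronglyMeasurable.mul (hFm r)) A
      (Av5_ae fun p hp => ?_)
    rw [Real.norm_eq_abs, abs_mul]
    calc |ε p| * |F r p| ≤ 1 * A := mul_le_mul (hε p) (hFb r p hp) (abs_nonneg _) zero_le_one
      _ = A := one_mul A
  have hIG : Integrable (fun p => ε p * G p) (st d t₁ t₂) := by
    refine Integrable.of_bound (mε.aestronglyMeasurable.mul hGm) A (Av5_ae fun p hp => ?_)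
    rw [Real.norm_eq_abs, abs_mul]
    calc |ε p| * |G p| ≤ 1 * A := mul_le_mul (hε p) (hGb p hp) (abs_nonneg _) zero_le_one
      _ = A := one_mul A
  set M : ℝ := 1 + ∫ p, μ p ∂(st d (t₁ - ρ ^ 12) t₂) with hM
  have hMt : ∀ j : ℕ, 1 + ∫ p, μ p ∂(st d (t₁ - (ρ / 2 ^ j) ^ 12) t₂) ≤ M := by
    intro j
    have hle : ρ / 2 ^ j ≤ ρ := div_le_self hρ0.le (one_le_pow₀ (by norm_num))
    have hle2 : (ρ / 2 ^ j) ^ 12 ≤ ρ ^ 12 := pow_le_pow_left₀ (by positivity) hle 12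
    have := Av5_mono (t := t₂) hμ hμ0 (by linarith : 0 < t₁ - ρ ^ 12)
      (by linarith : t₁ - ρ ^ 12 ≤ t₁ - (ρ / 2 ^ j) ^ 12) h4
    rw [hM]
    linarith
  have hM0 : 0 ≤ M := by
    have h5 : 0 ≤ ∫ p, μ p ∂(st d (t₁ - ρ ^ 12) t₂) := by
      refine integral_nonneg_of_ae (Av5_ae fun p hp => ?_)
      exact hμ0 p.1 ⟨by linarith [hp.1], hp.2.trans_lt h4⟩ p.2
    rw [hM]; linarith
  set a : ℕ → ℝ := fun j => ∫ p, ε p * F ((ρ / 2 ^ j) ^ 16) p ∂(st d t₁ t₂) with ha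
  have hstep : ∀ j, |a (j + 1) - a j| ≤ C * ρ * M * (1 / 2) ^ j := by
    intro j
    have hj0 : 0 < ρ / 2 ^ j := by positivity
    have hle : ρ / 2 ^ j ≤ ρ := div_le_self hρ0.le (one_le_pow₀ (by norm_num))
    have hle2 : (ρ / 2 ^ j) ^ 12 ≤ ρ ^ 12 := pow_le_pow_left₀ hj0.le hle 12
    have h5 := hC T S h hS hh μ hμ hμS (ρ / 2 ^ j) ⟨hj0, hle.trans hρ.2⟩ t₁ t₂ (by linarith) h2 h3
      h4 ε mε hε pε
    have h6 : a (j + 1) - a j = ∫ p, ε p * (av ((ρ / 2 ^ j / 2) ^ 16)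
        (fun x => ∫ v, χ v * h p.1 x v) p.2 -
          av ((ρ / 2 ^ j) ^ 16) (fun x => ∫ v, χ v * h p.1 x v) p.2) ∂(st d t₁ t₂) := by
      simp only [ha]
      rw [← integral_sub (hIF _) (hIF _)]
      refine integral_congr_ae (Eventually.of_forall fun p => ?_)
      simp only [hF]
      have e1 : ρ / 2 ^ (j + 1) = ρ / 2 ^ j / 2 := by
        rw [pow_succ]; field_simp
      rw [e1]
      ring
    rw [h6]
    refine h5.trans ?_
    calc C * (ρ / 2 ^ j) * (1 + ∫ p, μ p ∂(st d (t₁ - (ρ / 2 ^ j) ^ 12) t₂))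
        ≤ C * (ρ / 2 ^ j) * M := mul_le_mul_of_nonneg_left (hMt j) (by positivity)
      _ = C * ρ * M * (1 / 2) ^ j := by
          rw [div_pow, one_pow]; ring
  have htel : ∀ J, |a J - a 0| ≤ 2 * C * ρ * M := by
    intro J
    have h5 : |a J - a 0| ≤ ∑ j ∈ Finset.range J, C * ρ * M * (1 / 2) ^ j := by
      have h6 : a J - a 0 = ∑ j ∈ Finset.range J, (a (j + 1) - a j) :=
        (Finset.sum_range_sub a J).symm
      rw [h6]
      exact (Finset.abs_sum_le_sum_abs _ _).trans (Finset.sum_le_sum fun j _ => hstep j)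
    refine h5.trans ?_
    rw [← Finset.mul_sum]
    have h7 : ∑ j ∈ Finset.range J, (1 / 2 : ℝ) ^ j ≤ 2 := by
      have h8 := geom_sum_eq (x := (1 / 2 : ℝ)) (by norm_num) J
      rw [h8]
      have h9 : (0 : ℝ) ≤ (1 / 2) ^ J := by positivity
      rw [div_le_iff_of_neg (by norm_num)]
      linarith
    have h8 : 0 ≤ C * ρ * M := by positivity
    calc C * ρ * M * ∑ j ∈ Finset.range J, (1 / 2 : ℝ) ^ j ≤ C * ρ * M * 2 :=
          mul_le_mul_of_nonneg_left h7 h8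
      _ = 2 * C * ρ * M := by ring
  -- the limit
  have hlim : Tendsto a atTop (𝓝 (∫ p, ε p * G p ∂(st d t₁ t₂))) := by
    refine tendsto_integral_of_dominated_convergence (fun _ => A) (fun j => (hIF _).1)
      (integrable_const A) (fun j => Av5_ae fun p hp => ?_) (Av5_ae fun p hp => ?_)
    · rw [Real.norm_eq_abs, abs_mul]
      calc |ε p| * |F ((ρ / 2 ^ j) ^ 16) p| ≤ 1 * A :=
            mul_le_mul (hε p) (hFb _ p hp) (abs_nonneg _) zero_le_one
        _ = A := one_mul A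
    · have hc : Continuous fun x => ∫ v, χ v * h p.1 x v := by
        have h5 : Continuous fun x : Vec d => ((p.1, x) : ℝ × Vec d) := by fun_prop
        rw [← continuousOn_univ]
        refine ContinuousOn.comp (g := G) hGc h5.continuousOn fun x _ => ?_
        exact ⟨⟨ht1.le.trans hp.1, hp.2.trans_lt h4⟩, trivial⟩
      have h6 := av_tendsto hc p.2
      have h7 : Tendsto (fun j : ℕ => (ρ / 2 ^ j) ^ 16) atTop (𝓝 0) := by
        have h8 : Tendsto (fun j : ℕ => ρ * (1 / 2 : ℝ) ^ j) atTop (𝓝 (ρ * 0)) :=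
          (tendsto_pow_atTop_nhds_zero_of_lt_one (by norm_num) (by norm_num)).const_mul ρ
        have h9 := h8.pow 16
        rw [mul_zero, zero_pow (by norm_num)] at h9
        refine h9.congr fun j => ?_
        rw [div_pow, one_pow]
        congr 1
        ring
      exact (h6.comp h7).const_mul (ε p)
  have hfin : ∫ p, ε p * (av (ρ ^ 16) (fun x => ∫ v, χ v * h p.1 x v) p.2 -
      ∫ v, χ v * h p.1 p.2 v) ∂(st d t₁ t₂) = a 0 - ∫ p, ε p * G p ∂(st d t₁ t₂) := by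
    simp only [ha, pow_zero, div_one]
    rw [← integral_sub (hIF _) hIG]
    refine integral_congr_ae (Eventually.of_forall fun p => ?_)
    simp only [hF, hG]
    ring
  rw [hfin, abs_sub_comm]
  exact le_of_tendsto ((hlim.sub_const (a 0)).abs) (Eventually.of_forall htel)

end Pool.Agent.H15.AV
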