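import Pool.Agent.H15.AV.Mac

/-!
# The coupling moment: low and wild fibers do not contribute

MODULE Mac3. For `A ≥ 1`, `0 ≤ q < 2`: `(1+‖w‖)^q ≤ A^q + A^(q-2) (1+‖w‖)²`, hence
`kap q g ≤ A^q ∫ g + A^(q-2) ∫ g (1+‖w‖)²` and `(1+‖w‖)² ≤ 2 + 2 nsq w`.
Wild fibers: `∫ g > N` or `∫ g nsq > N` or `∫ g log g > N`; by Chebyshev their measure is
`≤ C(M)/N`, where `∫ (∫ g log g)⁺ dx ≤ 2 M + zg d`. On low fibers `∫ g ≤ m₁`, on wild fibers use
`equi_int`. On good fibers `kap q g ≤ 2^q... (2 N + 2 N)`.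
-/

set_option autoImplicit false

open MeasureTheory Set Filter Topology Pool.Agent.H25.Kin

namespace Pool.Agent.H15.AV

variable {d : ℕ}

private lemma m3_rd {F : Vec d → Vec d → ℝ} (hF : Slice F) (x : Vec d) : RD (F x) := by
  intro N
  obtain ⟨C, hC⟩ := hF.decay N
  refine ⟨C, fun v => ?_⟩
  rw [Real.norm_eq_abs, abs_of_nonneg (hF.nonneg x v)]
  exact hC x v

private lemma m3_cx {F : Vec d → Vec d → ℝ} (hF : Slice F) (x : Vec d) : Continuous (F x) :=
  hF.cont.comp (Continuous.prodMk_right x)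

/-- integrability over phase space -/
private lemma m3_nu {F : Vec d → Vec d → ℝ} (hF : Slice F) {p : Vec d × Vec d → ℝ}
    (hp : Measurable p) (k : ℕ) {A : ℝ} (hA : 0 ≤ A) (hb : ∀ q, |p q| ≤ A * (1 + ‖q.1‖) ^ k) :
    Integrable (fun q : Vec d × Vec d => F q.2 q.1 * p q) (nu d) := by
  obtain ⟨C, hC⟩ := hF.decay (k + (d + 1))
  have hm : Measurable (fun q : Vec d × Vec d => F q.2 q.1) :=
    (hF.cont.comp continuous_swap).measurable
  refine integrable_nu (C := A * C) (hm.mul hp).aestronglyMeasurable fun q => ?_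
  have h0 := hF.nonneg q.2 q.1
  have h1 := hC q.2 q.1
  have hw := w_pos q.1
  rw [abs_mul, abs_of_nonneg h0]
  unfold wt
  rw [← div_eq_mul_inv, le_div_iff₀ (pow_pos hw _)]
  calc F q.2 q.1 * |p q| * (1 + ‖q.1‖) ^ (d + 1)
      ≤ F q.2 q.1 * (A * (1 + ‖q.1‖) ^ k) * (1 + ‖q.1‖) ^ (d + 1) :=
        mul_le_mul_of_nonneg_right (mul_le_mul_of_nonneg_left (hb q) h0) (pow_pos hw _).le
    _ = A * ((1 + ‖q.1‖) ^ (k + (d + 1)) * F q.2 q.1) := by rw [pow_add]; ring
    _ ≤ A * C := mul_le_mul_of_nonneg_left h1 hA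

private lemma m3_rho {F : Vec d → Vec d → ℝ} (hF : Slice F) :
    Integrable (fun x => ∫ v, F x v) (muD d) ∧
      ∫ x, (∫ v, F x v) ∂(muD d) = ∫ q, F q.2 q.1 ∂(nu d) := by
  have h := m3_nu hF (p := fun _ => 1) measurable_const 0 zero_le_one fun q => by simp
  simp only [mul_one] at h
  exact ⟨h.integral_prod_right, (integral_prod_symm _ h).symm⟩

private lemma m3_en {F : Vec d → Vec d → ℝ} (hF : Slice F) :
    Integrable (fun x => ∫ v, F x v * nsq v) (muD d) ∧
      ∫ x, (∫ v, F x v * nsq v) ∂(muD d) = ∫ q, F q.2 q.1 * nsq q.1 ∂(nu d) := by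
  obtain ⟨k, A, hA, hb⟩ := (PG.nsq (d := d)).pos
  have h := m3_nu hF (p := fun q => nsq q.1) (continuous_sq.comp continuous_fst).measurable k hA
    fun q => hb q.1
  exact ⟨h.integral_prod_right, (integral_prod_symm _ h).symm⟩

private lemma m3_logle {a : ℝ} (ha : 0 ≤ a) : max 0 (Real.log a) ≤ a := by
  refine max_le ha ?_
  rcases ha.eq_or_lt with h | h
  · rw [← h, Real.log_zero]
  · linarith [Real.log_le_sub_one_of_pos h]

private lemma m3_ent {F : Vec d → Vec d → ℝ} (hF : Slice F) :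
    Integrable (fun x => ∫ v, F x v * max 0 (Real.log (F x v))) (muD d) ∧
      ∫ x, (∫ v, F x v * max 0 (Real.log (F x v))) ∂(muD d) =
        ∫ q, F q.2 q.1 * max 0 (Real.log (F q.2 q.1)) ∂(nu d) := by
  obtain ⟨C, hC⟩ := hF.decay 0
  have hm : Measurable (fun q : Vec d × Vec d => F q.2 q.1) :=
    (hF.cont.comp continuous_swap).measurable
  have hC0 : 0 ≤ C := (by simpa using hF.nonneg 0 0 : (0 : ℝ) ≤ (1 + ‖(0 : Vec d)‖) ^ 0 * F 0 0).trans
    (hC 0 0)
  have h := m3_nu hF (p := fun q => max 0 (Real.log (F q.2 q.1)))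
    (measurable_const.max (Real.measurable_log.comp hm)) 0 hC0 fun q => by
      rw [abs_of_nonneg (le_max_left _ _), pow_zero, mul_one]
      have h1 := hC q.2 q.1
      rw [pow_zero, one_mul] at h1
      exact (m3_logle (hF.nonneg _ _)).trans h1
  exact ⟨h.integral_prod_right, (integral_prod_symm _ h).symm⟩

private lemma m3_rho0 {F : Vec d → Vec d → ℝ} (hF : Slice F) (x : Vec d) : 0 ≤ ∫ v, F x v :=
  integral_nonneg fun v => hF.nonneg x v

private lemma m3_nsq0 (v : Vec d) : 0 ≤ nsq v := sq_nonneg' v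

private lemma m3_en0 {F : Vec d → Vec d → ℝ} (hF : Slice F) (x : Vec d) :
    0 ≤ ∫ v, F x v * nsq v :=
  integral_nonneg fun v => mul_nonneg (hF.nonneg x v) (m3_nsq0 v)

private lemma m3_ent0 {F : Vec d → Vec d → ℝ} (hF : Slice F) (x : Vec d) :
    0 ≤ ∫ v, F x v * max 0 (Real.log (F x v)) :=
  integral_nonneg fun v => mul_nonneg (hF.nonneg x v) (le_max_left _ _)

private lemma m3_logint {F : Vec d → Vec d → ℝ} (hF : Slice F) (x : Vec d) :
    ∫ v, F x v * Real.log (F x v) ≤ ∫ v, F x v * max 0 (Real.log (F x v)) := by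
  have hc := m3_cx hF x
  have i1 : Integrable (fun v => F x v * Real.log (F x v)) :=
    (rd_mul_log (hF.nonneg x) (m3_rd hF x)).integrable
      (Real.continuous_mul_log.comp hc).aestronglyMeasurable
  have i2 : Integrable (fun v => F x v * max 0 (Real.log (F x v))) := by
    have hs := (m3_rd hF x).mul_PG (m3_rd hF x).toPG
    have hs2 : RD (fun v => F x v * max 0 (Real.log (F x v))) := by
      refine hs.mono 1 fun v => ?_
      have h0 := hF.nonneg x v
      rw [one_mul, Real.norm_eq_abs, Real.norm_eq_abs, abs_of_nonneg (mul_nonneg h0 (le_max_left _ _)),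
        abs_of_nonneg (mul_nonneg h0 h0)]
      exact mul_le_mul_of_nonneg_left (m3_logle h0) h0
    exact hs2.integrable
      (hc.measurable.mul (measurable_const.max (Real.measurable_log.comp
        hc.measurable))).aestronglyMeasurable
  exact integral_mono i1 i2 fun v => mul_le_mul_of_nonneg_left (le_max_right _ _) (hF.nonneg x v)

/-- the pointwise bound of the weight -/
private lemma m3_w {q A : ℝ} (hq : 0 ≤ q) (hq2 : q < 2) (hA : 1 ≤ A) (w : Vec d) :
    (1 + ‖w‖) ^ q ≤ A ^ q + A ^ (q - 2) * (2 + 2 * nsq w) := by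
  have hA0 : 0 < A := by linarith
  have hw := w_pos w
  have hn := norm_sq_le_sq w
  have h2 : (1 + ‖w‖) ^ 2 ≤ 2 + 2 * nsq w := by nlinarith [sq_nonneg (1 - ‖w‖)]
  have p1 : 0 ≤ A ^ q := Real.rpow_nonneg hA0.le _
  have p2 : 0 ≤ A ^ (q - 2) := Real.rpow_nonneg hA0.le _
  rcases le_total (1 + ‖w‖) A with h | h
  · have h3 : (1 + ‖w‖) ^ q ≤ A ^ q := Real.rpow_le_rpow hw.le h hq
    have h4 : 0 ≤ A ^ (q - 2) * (2 + 2 * nsq w) :=
      mul_nonneg p2 (by linarith [m3_nsq0 w])
    linarith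
  · have h3 : (1 + ‖w‖) ^ (q - 2) ≤ A ^ (q - 2) :=
      Real.rpow_le_rpow_of_nonpos hA0 h (by linarith)
    have h4 : (1 + ‖w‖) ^ q = (1 + ‖w‖) ^ (q - 2) * (1 + ‖w‖) ^ 2 := by
      rw [← Real.rpow_natCast (1 + ‖w‖) 2, ← Real.rpow_add hw]
      norm_num
    rw [h4]
    have h5 : (1 + ‖w‖) ^ (q - 2) * (1 + ‖w‖) ^ 2 ≤ A ^ (q - 2) * (2 + 2 * nsq w) :=
      mul_le_mul h3 h2 (by positivity) p2
    linarith

private lemma m3_kap {q A : ℝ} (hq : 0 ≤ q) (hq2 : q < 2) (hA : 1 ≤ A) {F : Vec d → Vec d → ℝ}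
    (hF : Slice F) (x : Vec d) :
    kap q (F x) ≤ A ^ q * (∫ v, F x v) +
      A ^ (q - 2) * (2 * (∫ v, F x v) + 2 * ∫ v, F x v * nsq v) := by
  have hc := m3_cx hF x
  have hr := m3_rd hF x
  have i0 : Integrable (F x) := hr.integrable hc.aestronglyMeasurable
  have i1 : Integrable (fun v => F x v * nsq v) :=
    (hr.mul_PG PG.nsq).integrable (hc.mul continuous_sq).aestronglyMeasurable
  have i2 : Integrable (fun v => A ^ q * F x v + A ^ (q - 2) * (2 * F x v + 2 * (F x v * nsq v))) :=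
    (i0.const_mul _).add (((i0.const_mul 2).add (i1.const_mul 2)).const_mul _)
  have e : ∫ v, (A ^ q * F x v + A ^ (q - 2) * (2 * F x v + 2 * (F x v * nsq v))) =
      A ^ q * (∫ v, F x v) + A ^ (q - 2) * (2 * (∫ v, F x v) + 2 * ∫ v, F x v * nsq v) := by
    have j1 : Integrable (fun v => A ^ q * F x v) := i0.const_mul _
    have j2 : Integrable (fun v => 2 * F x v) := i0.const_mul 2
    have j3 : Integrable (fun v => 2 * (F x v * nsq v)) := i1.const_mul 2
    have j4 : Integrable (fun v => A ^ (q - 2) * (2 * F x v + 2 * (F x v * nsq v))) :=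
      (j2.add j3).const_mul _
    rw [integral_add j1 j4, integral_const_mul, integral_const_mul, integral_add j2 j3,
      integral_const_mul, integral_const_mul]
  rw [← e]
  unfold kap
  have hpt : ∀ v, F x v * (1 + ‖v‖) ^ q ≤
      A ^ q * F x v + A ^ (q - 2) * (2 * F x v + 2 * (F x v * nsq v)) := fun v => by
    have h1 := mul_le_mul_of_nonneg_left (m3_w hq hq2 hA v) (hF.nonneg x v)
    refine h1.trans (le_of_eq ?_)
    ring
  refine integral_mono_of_nonneg (Eventually.of_forall fun v => ?_) i2 (Eventually.of_forall hpt)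
  exact mul_nonneg (hF.nonneg x v) (Real.rpow_nonneg (w_pos v).le _)

private lemma m3_kapm (q : ℝ) {F : Vec d → Vec d → ℝ} (hF : Slice F) :
    Measurable (fun x => kap q (F x)) := by
  have hc : Continuous (Function.uncurry fun x w : Vec d => F x w * (1 + ‖w‖) ^ q) := by
    refine (hF.cont).mul ?_
    refine Continuous.rpow_const (continuous_const.add continuous_snd.norm) fun p => Or.inl ?_
    exact (w_pos p.2).ne'
  exact hc.stronglyMeasurable.integral_prod_right.measurable

private lemma m3_kapi {q : ℝ} (hq : 0 ≤ q) (hq2 : q < 2) {F : Vec d → Vec d → ℝ} (hF : Slice F) :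
    Integrable (fun x => kap q (F x)) (muD d) := by
  have i1 := (m3_rho hF).1
  have i2 := (m3_en hF).1
  have i3 : Integrable (fun x => (1 : ℝ) ^ q * (∫ v, F x v) +
      (1 : ℝ) ^ (q - 2) * (2 * (∫ v, F x v) + 2 * ∫ v, F x v * nsq v)) (muD d) :=
    (i1.const_mul _).add (((i1.const_mul 2).add (i2.const_mul 2)).const_mul _)
  refine i3.mono' (m3_kapm q hF).aestronglyMeasurable (Eventually.of_forall fun x => ?_)
  rw [Real.norm_eq_abs, abs_of_nonneg (kap_nonneg q (hF.nonneg x))]
  exact m3_kap hq hq2 (le_refl 1) hF x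

theorem kap_total {q : ℝ} (hq : 0 ≤ q) (hq2 : q < 2) (m M : ℝ) : ∃ C : ℝ, 0 ≤ C ∧
    ∀ F : Vec d → Vec d → ℝ, Slice F → Glob m M F → ∫ x, kap q (F x) ∂(muD d) ≤ C := by
  refine ⟨5 * |M|, by positivity, fun F hF hG => ?_⟩
  obtain ⟨i1, e1⟩ := m3_rho hF
  obtain ⟨i2, e2⟩ := m3_en hF
  have i3 : Integrable (fun x => 3 * (∫ v, F x v) + 2 * ∫ v, F x v * nsq v) (muD d) :=
    (i1.const_mul 3).add (i2.const_mul 2)
  have h1 : ∫ x, kap q (F x) ∂(muD d) ≤
      ∫ x, (3 * (∫ v, F x v) + 2 * ∫ v, F x v * nsq v) ∂(muD d) := by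
    refine integral_mono (m3_kapi hq hq2 hF) i3 fun x => ?_
    have h2 := m3_kap hq hq2 (le_refl 1) hF x
    rw [Real.one_rpow, Real.one_rpow] at h2
    simp only
    linarith
  rw [integral_add (i1.const_mul 3) (i2.const_mul 2), integral_const_mul, integral_const_mul,
    e1, e2] at h1
  have h3 := hG.massU
  have h4 := hG.energy
  have h5 := le_abs_self M
  linarith

private lemma m3_cheb {g : Vec d → ℝ} (hg0 : ∀ x, 0 ≤ g x) (hgi : Integrable g (muD d)) {K N : ℝ}
    (hK : ∫ x, g x ∂(muD d) ≤ K) (hN : 0 < N) :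
    (muD d).real {x | N ≤ g x} ≤ K / N := by
  have h := mul_meas_ge_le_integral_of_nonneg (Eventually.of_forall hg0) hgi N
  rw [le_div_iff₀ hN, mul_comm]
  exact h.trans hK

private lemma m3_univ : (muD d).real univ = 1 := by
  unfold muD
  rw [Measure.real, Measure.restrict_apply_univ, Real.volume_Icc_pi]
  simp

private lemma m3_zg : 0 ≤ zg d := integral_nonneg fun _ => (Real.exp_pos _).le

theorem coupling {q : ℝ} (hq : 0 ≤ q) (hq2 : q < 2) (m M : ℝ) {ε : ℝ} (hε : 0 < ε) :
    ∃ m₁ N C : ℝ, 0 < m₁ ∧ m₁ ≤ ε ∧ 0 ≤ C ∧ ∀ F : Vec d → Vec d → ℝ, Slice F → Glob m M F →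
      (∀ ζ : Vec d → ℝ, Measurable ζ → (∀ x, 0 ≤ ζ x) → (∀ x, ζ x ≤ 1) →
        ∫ x, kap q (F x) * ζ x ∂(muD d) ≤
          C * ∫ x in {x | Good m₁ N (F x)}, ζ x ∂(muD d) + ε) ∧
      muD d {x | m₁ ≤ (∫ v, F x v) ∧ ¬ Good m₁ N (F x)} ≤ ENNReal.ofReal ε := by
  -- the truncation of the velocities
  obtain ⟨A, hA1, hA⟩ : ∃ A : ℝ, 1 ≤ A ∧ A ^ (q - 2) * (4 * |M|) ≤ ε / 2 := by
    have ht := tendsto_rpow_neg_atTop (show 0 < 2 - q by linarith)
    have hpos : 0 < ε / 2 / (4 * |M| + 1) := by positivity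
    obtain ⟨A, h1, h2⟩ := ((ht.eventually (gt_mem_nhds hpos)).and (eventually_ge_atTop 1)).exists
    refine ⟨A, h2, ?_⟩
    rw [show q - 2 = -(2 - q) by ring]
    have h3 : (0 : ℝ) < 4 * |M| + 1 := by positivity
    rw [lt_div_iff₀ h3] at h1
    have h4 : 0 ≤ A ^ (-(2 - q)) := Real.rpow_nonneg (by linarith) _
    nlinarith
  have hA0 : 0 < A := by linarith
  set a : ℝ := A ^ q with ha
  have ha0 : 0 < a := Real.rpow_pos_of_pos hA0 _
  set b : ℝ := A ^ (q - 2) with hb
  have hb0 : 0 < b := Real.rpow_pos_of_pos hA0 _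
  have hε' : 0 < ε / (4 * a) := by positivity
  obtain ⟨η, hη, hequi⟩ := equi_int (d := d) m M hε'
  set K : ℝ := 4 * |M| + zg d with hK
  have hK0 : 0 ≤ K := by
    have := m3_zg (d := d)
    positivity
  have hmin : 0 < min η ε := lt_min hη hε
  set N : ℝ := K / min η ε + 1 with hN
  have hN0 : 0 < N := by positivity
  have hKN : K / N ≤ min η ε := by
    rw [div_le_iff₀ hN0, hN]
    have h1 : min η ε * (K / min η ε + 1) = K + min η ε := by
      field_simp
    linarith
  set m₁ : ℝ := min ε (ε / (4 * a)) with hm₁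
  have hm0 : 0 < m₁ := lt_min hε hε'
  refine ⟨m₁, N, a * N, hm0, min_le_left _ _, by positivity, fun F hF hG => ?_⟩
  obtain ⟨i1, e1⟩ := m3_rho hF
  obtain ⟨i2, e2⟩ := m3_en hF
  obtain ⟨i3, e3⟩ := m3_ent hF
  have g1 := hG.massU
  have g2 := hG.energy
  have g3 := plog_bound hF hG
  rw [← e1] at g1
  rw [← e2] at g2
  rw [← e3] at g3
  have hMa := le_abs_self M
  -- measurability
  have mρ : Measurable (fun x => ∫ v, F x v) := by
    have hc : Continuous (Function.uncurry fun x w : Vec d => F x w) := hF.cont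
    exact hc.stronglyMeasurable.integral_prod_right.measurable
  have me : Measurable (fun x => ∫ v, F x v * nsq v) := by
    have hc : Continuous (Function.uncurry fun x w : Vec d => F x w * nsq w) :=
      hF.cont.mul (continuous_sq.comp continuous_snd)
    exact hc.stronglyMeasurable.integral_prod_right.measurable
  have mh : Measurable (fun x => ∫ v, F x v * Real.log (F x v)) := by
    have hc : Continuous (Function.uncurry fun x w : Vec d => F x w * Real.log (F x w)) :=
      Real.continuous_mul_log.comp hF.cont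
    exact hc.stronglyMeasurable.integral_prod_right.measurable
  have hGs : {x | Good m₁ N (F x)} = {x | m₁ ≤ ∫ v, F x v} ∩ {x | ∫ v, F x v ≤ N} ∩
      {x | ∫ v, F x v * nsq v ≤ N} ∩ {x | ∫ v, F x v * Real.log (F x v) ≤ N} := by
    ext x
    simp only [mem_inter_iff, mem_ofPred_eq]
    exact ⟨fun h => ⟨⟨⟨h.mass, h.massU⟩, h.energy⟩, h.entropy⟩,
      fun h => ⟨h.1.1.1, h.1.1.2, h.1.2, h.2⟩⟩
  have hGm : MeasurableSet {x | Good m₁ N (F x)} := by
    rw [hGs]
    exact (((measurableSet_le measurable_const mρ).inter (measurableSet_le mρ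
      measurable_const)).inter (measurableSet_le me measurable_const)).inter
      (measurableSet_le mh measurable_const)
  set W : Set (Vec d) := {x | m₁ ≤ (∫ v, F x v) ∧ ¬ Good m₁ N (F x)} with hW
  have hWm : MeasurableSet W := (measurableSet_le measurable_const mρ).inter hGm.compl
  -- the measure of the wild fibers
  have hWsub : W ⊆ {x | N ≤ ∫ v, F x v} ∪ {x | N ≤ ∫ v, F x v * nsq v} ∪
      {x | N ≤ ∫ v, F x v * max 0 (Real.log (F x v))} := by
    rintro x ⟨hx1, hx2⟩
    by_contra hcon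
    simp only [mem_union, mem_ofPred_eq, not_or, not_le] at hcon
    obtain ⟨⟨c1, c2⟩, c3⟩ := hcon
    exact hx2 ⟨hx1, c1.le, c2.le, (m3_logint hF x).trans c3.le⟩
  have hWr : (muD d).real W ≤ K / N := by
    have c1 := m3_cheb (m3_rho0 hF) i1 g1 hN0
    have c2 := m3_cheb (m3_en0 hF) i2 g2 hN0
    have c3 := m3_cheb (m3_ent0 hF) i3 g3 hN0
    have h1 := measureReal_mono (μ := muD d) hWsub
    have h2 := measureReal_union_le (μ := muD d)
      ({x | N ≤ ∫ v, F x v} ∪ {x | N ≤ ∫ v, F x v * nsq v})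
      {x | N ≤ ∫ v, F x v * max 0 (Real.log (F x v))}
    have h3 := measureReal_union_le (μ := muD d)
      {x | N ≤ ∫ v, F x v} {x | N ≤ ∫ v, F x v * nsq v}
    have h4 : M / N + M / N + (2 * M + zg d) / N ≤ K / N := by
      rw [← add_div, ← add_div, hK]
      exact div_le_div_of_nonneg_right (by linarith) hN0.le
    linarith
  have hWmu : muD d W ≤ ENNReal.ofReal (min η ε) := by
    rw [← ofReal_measureReal (measure_ne_top _ _)]
    exact ENNReal.ofReal_le_ofReal (hWr.trans hKN)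
  refine ⟨fun ζ hζm hζ0 hζ1 => ?_, hWmu.trans (ENNReal.ofReal_le_ofReal (min_le_right _ _))⟩
  have hWint : ∫ x in W, (∫ v, F x v) ∂(muD d) ≤ ε / (4 * a) :=
    hequi F hF hG W hWm (hWmu.trans (ENNReal.ofReal_le_ofReal (min_le_left _ _)))
  have iζ : Integrable ζ (muD d) :=
    Integrable.of_bound hζm.aestronglyMeasurable 1 (Eventually.of_forall fun x => by
      rw [Real.norm_eq_abs, abs_of_nonneg (hζ0 x)]
      exact hζ1 x)
  have iGζ : Integrable (indicator {x | Good m₁ N (F x)} ζ) (muD d) := iζ.indicator hGm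
  have iWρ : Integrable (indicator W fun x => ∫ v, F x v) (muD d) := i1.indicator hWm
  have ic : Integrable (fun _ : Vec d => a * m₁) (muD d) := integrable_const _
  have j1 : Integrable (fun x => a * N * indicator {x | Good m₁ N (F x)} ζ x + a * m₁) (muD d) :=
    (iGζ.const_mul _).add ic
  have j2 : Integrable (fun x => a * indicator W (fun x => ∫ v, F x v) x) (muD d) := iWρ.const_mul _
  have j3 : Integrable (fun x => b * (2 * (∫ v, F x v) + 2 * ∫ v, F x v * nsq v)) (muD d) :=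
    ((i1.const_mul 2).add (i2.const_mul 2)).const_mul _
  have hpt : ∀ x, kap q (F x) * ζ x ≤ (a * N * indicator {x | Good m₁ N (F x)} ζ x + a * m₁) +
      a * indicator W (fun x => ∫ v, F x v) x +
      b * (2 * (∫ v, F x v) + 2 * ∫ v, F x v * nsq v) := by
    intro x
    have h1 := m3_kap hq hq2 hA1 hF x
    rw [← ha, ← hb] at h1
    have r0 := m3_rho0 hF x
    have r1 := m3_en0 hF x
    have z0 := hζ0 x
    have z1 := hζ1 x
    set r : ℝ := ∫ v, F x v with hr
    set t : ℝ := b * (2 * r + 2 * ∫ v, F x v * nsq v) with ht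
    have t0 : 0 ≤ t := by positivity
    have h2 : kap q (F x) * ζ x ≤ a * (r * ζ x) + t := by
      have h3 := mul_le_mul_of_nonneg_right h1 z0
      have h4 : t * ζ x ≤ t := mul_le_of_le_one_right t0 z1
      have h5 : (a * r + t) * ζ x = a * (r * ζ x) + t * ζ x := by ring
      linarith
    have h6 : r * ζ x ≤ N * indicator {x | Good m₁ N (F x)} ζ x + m₁ +
        indicator W (fun x => ∫ v, F x v) x := by
      by_cases hg : Good m₁ N (F x)
      · rw [indicator_of_mem (show x ∈ {x | Good m₁ N (F x)} from hg)]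
        have h7 : 0 ≤ indicator W (fun x => ∫ v, F x v) x := indicator_nonneg (fun y _ => m3_rho0 hF y) x
        have h8 : r * ζ x ≤ N * ζ x := mul_le_mul_of_nonneg_right hg.massU z0
        linarith
      · rw [indicator_of_notMem (show x ∉ {x | Good m₁ N (F x)} from hg), mul_zero, zero_add]
        have h9 : r * ζ x ≤ r := mul_le_of_le_one_right r0 z1
        rcases lt_or_ge r m₁ with h10 | h10
        · have h7 : 0 ≤ indicator W (fun x => ∫ v, F x v) x :=
            indicator_nonneg (fun y _ => m3_rho0 hF y) x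
          linarith
        · rw [indicator_of_mem (show x ∈ W from ⟨h10, hg⟩)]
          change r * ζ x ≤ m₁ + r
          linarith
    have h11 := mul_le_mul_of_nonneg_left h6 ha0.le
    have h12 : a * (N * indicator {x | Good m₁ N (F x)} ζ x + m₁ +
        indicator W (fun x => ∫ v, F x v) x) =
        (a * N * indicator {x | Good m₁ N (F x)} ζ x + a * m₁) +
        a * indicator W (fun x => ∫ v, F x v) x := by ring
    linarith
  have hint : ∫ x, kap q (F x) * ζ x ∂(muD d) ≤
      ∫ x, ((a * N * indicator {x | Good m₁ N (F x)} ζ x + a * m₁) +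
      a * indicator W (fun x => ∫ v, F x v) x +
      b * (2 * (∫ v, F x v) + 2 * ∫ v, F x v * nsq v)) ∂(muD d) :=
    integral_mono_of_nonneg (Eventually.of_forall fun x =>
      mul_nonneg (kap_nonneg q (hF.nonneg x)) (hζ0 x)) ((j1.add j2).add j3)
      (Eventually.of_forall hpt)
  have j0 : Integrable (fun x => a * N * indicator {x | Good m₁ N (F x)} ζ x) (muD d) :=
    iGζ.const_mul _
  have j12 : Integrable (fun x => (a * N * indicator {x | Good m₁ N (F x)} ζ x + a * m₁) +
      a * indicator W (fun x => ∫ v, F x v) x) (muD d) := j1.add j2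
  have l1 : Integrable (fun x => 2 * (∫ v, F x v)) (muD d) := i1.const_mul 2
  have l2 : Integrable (fun x => 2 * ∫ v, F x v * nsq v) (muD d) := i2.const_mul 2
  rw [integral_add j12 j3, integral_add j1 j2, integral_add j0 ic,
    integral_const_mul, integral_const_mul, integral_const_mul, integral_const,
    integral_indicator hGm, integral_indicator hWm, integral_const_mul b,
    integral_add l1 l2, integral_const_mul, integral_const_mul,
    m3_univ, smul_eq_mul, one_mul] at hint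
  have k1 : a * m₁ ≤ ε / 4 := by
    have : a * m₁ ≤ a * (ε / (4 * a)) := mul_le_mul_of_nonneg_left (min_le_right _ _) ha0.le
    have h2 : a * (ε / (4 * a)) = ε / 4 := by field_simp
    linarith
  have k2 : a * ∫ x in W, (∫ v, F x v) ∂(muD d) ≤ ε / 4 := by
    have : a * ∫ x in W, (∫ v, F x v) ∂(muD d) ≤ a * (ε / (4 * a)) :=
      mul_le_mul_of_nonneg_left hWint ha0.le
    have h2 : a * (ε / (4 * a)) = ε / 4 := by field_simp
    linarith
  have k3 : b * (2 * ∫ x, (∫ v, F x v) ∂(muD d) + 2 * ∫ x, (∫ v, F x v * nsq v) ∂(muD d)) ≤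
      ε / 2 := by
    refine le_trans (mul_le_mul_of_nonneg_left ?_ hb0.le) hA
    linarith
  linarith

end Pool.Agent.H15.AV
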