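import Pool.Agent.H15.AV.Slc
import Pool.Agent.H15.AV.Tr

/-!
# The renormalized equation

MODULE TrC. `ren δ f = kf δ ∘ f` solves `(∂_t + v·∇_x) (ren δ f) = renS Q δ f`: chain rule, using that
`kf δ` is smooth on `(-δ, ∞)` and `f ≥ 0` (the derivative of `unc (ren δ f)` at a point is
`kd δ (f t x v) • fderiv ℝ (unc f) (t,x,v)`); the bounds follow from `kf δ a ≤ a/δ`, `kd δ a ≤ 1/δ`,
`IsClassicalSol.f_le` and `IsClassicalSol.Q_le`.
-/

set_option autoImplicit false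

open MeasureTheory Set Filter Topology Pool.Agent.H25.Kin

namespace Pool.Agent.H15.AV

variable {d : ℕ} {T : ℝ} {Q : (Vec d → ℝ) → Vec d → ℝ} {f : ℝ → Vec d → Vec d → ℝ}

private lemma TrC_contkf {δ a : ℝ} (h0 : 0 < δ) (h1 : δ ≤ 1) (ha : 0 ≤ a) :
    ContinuousAt (kf δ) a :=
  (contDiffAt_kf (n := 1) h0 h1 (by linarith)).continuousAt

private lemma TrC_contkd {δ a : ℝ} (h0 : 0 < δ) (h1 : δ ≤ 1) (ha : 0 ≤ a) :
    ContinuousAt (kd δ) a :=
  (contDiffAt_kd (n := 1) h0 h1 (by linarith)).continuousAt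

private lemma TrC_nn (hf : IsClassicalSol T (fun t x => Q (f t x)) f) {q : ℝ × Vec d × Vec d}
    (hq : q ∈ Ico 0 T ×ˢ (univ : Set (Vec d × Vec d))) : 0 ≤ unc f q :=
  hf.nonneg q.1 hq.1 q.2.1 q.2.2

/-- the bound of the renormalization -/
private lemma TrC_dec (hf : IsClassicalSol T (fun t x => Q (f t x)) f) {δ : ℝ} (h0 : 0 < δ)
    (h1 : δ ≤ 1) {T₁ : ℝ} (hT : T₁ < T) :
    ∃ C, 0 ≤ C ∧ ∀ t ∈ Icc 0 T₁, ∀ x v, |ren δ f t x v| ≤ C * wt d v := by
  obtain ⟨C, hC0, hC⟩ := IsClassicalSol.f_le hf hT (d + 1)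
  refine ⟨C / δ, by positivity, fun t ht x v => ?_⟩
  have e0 := hf.nonneg t ⟨ht.1, ht.2.trans_lt hT⟩ x v
  have e1 := hC t ht x v
  rw [abs_of_nonneg e0] at e1
  unfold ren
  rw [abs_of_nonneg (kf_nonneg h0 h1 e0)]
  refine (kf_le_div h0 h1 e0).trans ?_
  rw [div_mul_eq_mul_div]
  exact div_le_div_of_nonneg_right e1 h0.le

/-- the bound of the source -/
private lemma TrC_decS (hf : IsClassicalSol T (fun t x => Q (f t x)) f) {δ : ℝ} (h0 : 0 < δ)
    (h1 : δ ≤ 1) {T₀ T₁ : ℝ} (hT₀ : 0 < T₀) (hT : T₁ < T) :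
    ∃ C, 0 ≤ C ∧ ∀ t ∈ Icc T₀ T₁, ∀ x v, |renS Q δ f t x v| ≤ C * wt d v := by
  obtain ⟨C, hC0, hC⟩ := IsClassicalSol.Q_le hf hT₀ hT (d + 1)
  refine ⟨1 / δ * C, by positivity, fun t ht x v => ?_⟩
  have e0 := hf.nonneg t ⟨hT₀.le.trans ht.1, ht.2.trans_lt hT⟩ x v
  unfold renS
  rw [abs_mul, abs_of_nonneg (kd_nonneg h0 h1 e0), mul_assoc]
  exact mul_le_mul (kd_le h0 h1 e0) (hC t ht x v) (abs_nonneg _) (by positivity)

theorem tsol_ren (hf : IsClassicalSol T (fun t x => Q (f t x)) f) {δ : ℝ} (h0 : 0 < δ)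
    (h1 : δ ≤ 1) : TSol T (renS Q δ f) (ren δ f) := by
  have hsub : ∀ q ∈ Ioo 0 T ×ˢ (univ : Set (Vec d × Vec d)),
      q ∈ Ico 0 T ×ˢ (univ : Set (Vec d × Vec d)) := fun q hq => ⟨⟨hq.1.1.le, hq.1.2⟩, mem_univ _⟩
  refine ⟨?_, ?_, ?_, ?_, ?_, ?_⟩
  · intro t ht x v i
    unfold ren
    rw [hf.periodic t ht]
  · intro q hq
    exact (TrC_contkf h0 h1 (TrC_nn hf hq)).comp_continuousWithinAt (IsClassicalSol.cont hf q hq)
  · intro q hq
    have e1 : ContDiffWithinAt ℝ 1 (unc f) (Ioo 0 T ×ˢ univ) q :=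
      (IsClassicalSol.smooth hf q hq).of_le (by norm_num)
    have e2 := TrC_nn hf (hsub q hq)
    have e3 : -δ < unc f q := by linarith
    exact (contDiffAt_kf (n := 1) h0 h1 e3).comp_contDiffWithinAt q e1
  · intro T₁ hT
    obtain ⟨C, -, hC⟩ := TrC_dec hf h0 h1 hT
    exact ⟨C, hC⟩
  · intro T₀ hT₀ T₁ hT
    obtain ⟨C, -, hC⟩ := TrC_decS hf h0 h1 hT₀ hT
    exact ⟨C, hC⟩
  · intro t ht x v
    have e1 : HasFDerivAt (unc f) (fderiv ℝ (unc f) (t, x, v)) (t, x, v) :=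
      ((IsClassicalSol.cda hf ht x v).differentiableAt (by norm_num)).hasFDerivAt
    have e0 := hf.nonneg t ⟨ht.1.le, ht.2⟩ x v
    have e2 : HasDerivAt (kf δ) (kd δ (unc f (t, x, v))) (unc f (t, x, v)) :=
      hasDerivAt_kf h0 h1 (by
        have e3 : unc f (t, x, v) = f t x v := rfl
        rw [e3]
        linarith)
    have e3 := e2.comp_hasFDerivAt (t, x, v) e1
    have e4 : unc (ren δ f) = kf δ ∘ unc f := rfl
    unfold transport
    rw [e4, e3.fderiv]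
    have e5 := IsClassicalSol.eqn hf t ht x v
    change kd δ (unc f (t, x, v)) * fderiv ℝ (unc f) (t, x, v) (1, v, 0) = _
    rw [e5]
    rfl

/-- the renormalized equation, tested -/
theorem ren_ftc (hf : IsClassicalSol T (fun t x => Q (f t x)) f) {δ : ℝ} (h0 : 0 < δ) (h1 : δ ≤ 1)
    {φ : Vec d × Vec d → ℝ} (hφ : Continuous φ) {A : ℝ} (hb : ∀ q, |φ q| ≤ A)
    (hp : ∀ v, Per fun y => φ (v, y)) {s t : ℝ} (hs : 0 < s) (hst : s ≤ t) (ht : t < T) :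
    Integrable (fun p : ℝ × Vec d => src Q δ (f p.1 p.2) fun v => φ (v, p.2 - p.1 • v)) (st d s t) ∧
      pair φ (ren δ f) t - pair φ (ren δ f) s =
        ∫ p, src Q δ (f p.1 p.2) (fun v => φ (v, p.2 - p.1 • v)) ∂(st d s t) :=
  TSol.ftc_st (tsol_ren hf h0 h1) hφ hb hp hs hst ht

/-- a bounded function supported in a ball is dominated by the weight -/
private lemma TrC_supp {φ : Vec d × Vec d → ℝ} {A R : ℝ} (hb : ∀ q, |φ q| ≤ A)
    (hR : ∀ v y, R ≤ ‖v‖ → φ (v, y) = 0) (q : Vec d × Vec d) :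
    |φ q| ≤ A * (1 + |R|) ^ (d + 1) * wt d q.1 := by
  have hA : 0 ≤ A := (abs_nonneg _).trans (hb q)
  have hw := wt_nonneg q.1
  by_cases h : R ≤ ‖q.1‖
  · have e1 : φ q = 0 := hR q.1 q.2 h
    rw [e1, abs_zero]
    positivity
  · rw [not_le] at h
    have e1 : (1 + ‖q.1‖) ^ (d + 1) ≤ (1 + |R|) ^ (d + 1) :=
      pow_le_pow_left₀ (w_pos q.1).le (by linarith [le_abs_self R]) _
    have e2 : 1 ≤ (1 + |R|) ^ (d + 1) * wt d q.1 := by
      unfold wt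
      rw [← div_eq_mul_inv, one_le_div (pow_pos (w_pos q.1) _)]
      exact e1
    calc |φ q| ≤ A * 1 := by rw [mul_one]; exact hb q
      _ ≤ A * ((1 + |R|) ^ (d + 1) * wt d q.1) := mul_le_mul_of_nonneg_left e2 hA
      _ = _ := by ring

/-- the deficit and the renormalization -/
private lemma TrC_pairU (hf : IsClassicalSol T (fun t x => Q (f t x)) f) {δ : ℝ} (h0 : 0 < δ)
    (h1 : δ ≤ 1) {φ : Vec d × Vec d → ℝ} (hφ : Continuous φ) {A R : ℝ} (hb : ∀ q, |φ q| ≤ A)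
    (hR : ∀ v y, R ≤ ‖v‖ → φ (v, y) = 0) (hp : ∀ v, Per fun y => φ (v, y)) {t : ℝ}
    (ht : t ∈ Ico 0 T) :
    pairU φ δ f t = lam δ * (∫ q, φ q ∂(nu d)) - pair φ (ren δ f) t := by
  have hA : 0 ≤ A := (abs_nonneg _).trans (hb 0)
  have hc : Continuous fun q : Vec d × Vec d => φ (q.1, q.2 - t • q.1) := hφ.comp (by fun_prop)
  have i1 : Integrable (fun q : Vec d × Vec d => φ (q.1, q.2 - t • q.1)) (nu d) :=
    integrable_nu hc.aestronglyMeasurable fun q => TrC_supp hb hR (q.1, q.2 - t • q.1)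
  obtain ⟨C, hC0, hC⟩ := TrC_dec hf h0 h1 ht.2
  have hnn : ∀ q : Vec d × Vec d, 0 ≤ f t q.2 q.1 := fun q => hf.nonneg t ht q.2 q.1
  have hc2 : Continuous fun q : Vec d × Vec d => ren δ f t q.2 q.1 := by
    rw [continuous_iff_continuousAt]
    intro q
    have e1 : Continuous fun q : Vec d × Vec d => f t q.2 q.1 :=
      (IsClassicalSol.cont_slice hf ht).comp
        (by fun_prop : Continuous fun q : Vec d × Vec d => (q.2, q.1))
    exact ContinuousAt.comp (f := fun q : Vec d × Vec d => f t q.2 q.1)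
      (TrC_contkf h0 h1 (hnn q)) e1.continuousAt
  have i2 : Integrable (fun q : Vec d × Vec d => φ (q.1, q.2 - t • q.1) * ren δ f t q.2 q.1)
      (nu d) := by
    refine integrable_nu (C := A * C) (hc.mul hc2).aestronglyMeasurable fun q => ?_
    rw [abs_mul, mul_assoc]
    exact mul_le_mul (hb _) (hC t ⟨ht.1, le_rfl⟩ q.2 q.1) (abs_nonneg _) hA
  unfold pairU pair
  rw [← pair_const hφ (TrC_supp hb hR) hp t, ← integral_const_mul,
    ← integral_sub (i1.const_mul _) i2]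
  refine integral_congr_ae (Eventually.of_forall fun q => ?_)
  simp only
  have e1 := kf_add_uf δ (f t q.2 q.1)
  have e2 : ren δ f t q.2 q.1 = kf δ (f t q.2 q.1) := rfl
  rw [e2, ← e1]
  ring

/-- the equation for the deficit, tested; the support condition makes the integrals converge -/
theorem pairU_diff (hf : IsClassicalSol T (fun t x => Q (f t x)) f) {δ : ℝ} (h0 : 0 < δ)
    (h1 : δ ≤ 1) {φ : Vec d × Vec d → ℝ} (hφ : Continuous φ) {A R : ℝ} (hb : ∀ q, |φ q| ≤ A)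
    (hR : ∀ v y, R ≤ ‖v‖ → φ (v, y) = 0) (hp : ∀ v, Per fun y => φ (v, y)) {s t : ℝ} (hs : 0 < s)
    (hst : s ≤ t) (ht : t < T) :
    pairU φ δ f t - pairU φ δ f s =
      -∫ p, src Q δ (f p.1 p.2) (fun v => φ (v, p.2 - p.1 • v)) ∂(st d s t) := by
  rw [TrC_pairU hf h0 h1 hφ hb hR hp ⟨hs.le.trans hst, ht⟩,
    TrC_pairU hf h0 h1 hφ hb hR hp ⟨hs.le, hst.trans_lt ht⟩, ← (ren_ftc hf h0 h1 hφ hb hp hs hst
      ht).2]
  ring

theorem pairU_cont (hf : IsClassicalSol T (fun t x => Q (f t x)) f) {δ : ℝ} (h0 : 0 < δ)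
    (h1 : δ ≤ 1) {φ : Vec d × Vec d → ℝ} (hφ : Continuous φ) {A R : ℝ} (hb : ∀ q, |φ q| ≤ A)
    (hR : ∀ v y, R ≤ ‖v‖ → φ (v, y) = 0) (hp : ∀ v, Per fun y => φ (v, y)) :
    ContinuousOn (pairU φ δ f) (Ico 0 T) := by
  have h := TSol.pair_cont (tsol_ren hf h0 h1) hφ hb hp
  refine ContinuousOn.congr (f := fun t => lam δ * (∫ q, φ q ∂(nu d)) - pair φ (ren δ f) t)
    (continuousOn_const.sub h) fun t ht => ?_
  exact TrC_pairU hf h0 h1 hφ hb hR hp ht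

/-- a test function depending on the velocity only -/
theorem src_cont (hf : IsClassicalSol T (fun t x => Q (f t x)) f) {δ : ℝ} (h0 : 0 < δ)
    (h1 : δ ≤ 1) {Θ : Vec d → ℝ} (hΘ : Continuous Θ) {A R : ℝ} (hb : ∀ v, |Θ v| ≤ A) 
    (hR : ∀ v, R ≤ ‖v‖ → Θ v = 0) :
    ContinuousOn (fun p : ℝ × Vec d => src Q δ (f p.1 p.2) Θ) (Ioo 0 T ×ˢ univ) := by
  have hA : 0 ≤ A := (abs_nonneg _).trans (hb 0)
  refine cont_int (G := fun t x v => Θ v * (kd δ (f t x v) * Q (f t x) v)) ?_ fun t ht => ?_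
  · have e1 : ContinuousOn (fun q : ℝ × Vec d × Vec d => kd δ (unc f q)) (Ioo 0 T ×ˢ univ) := by
      intro q hq
      have hq' : q ∈ Ico 0 T ×ˢ (univ : Set (Vec d × Vec d)) := ⟨⟨hq.1.1.le, hq.1.2⟩, mem_univ _⟩
      exact (TrC_contkd h0 h1 (TrC_nn hf hq')).comp_continuousWithinAt
        ((IsClassicalSol.cont hf q hq').mono fun r hr => ⟨⟨hr.1.1.le, hr.1.2⟩, mem_univ _⟩)
    have e2 : ContinuousOn (fun q : ℝ × Vec d × Vec d => Q (f q.1 q.2.1) q.2.2)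
        (Ioo 0 T ×ˢ univ) := by
      have e3 : ContinuousOn (fun q : ℝ × Vec d × Vec d => fderiv ℝ (unc f) q (1, q.2.2, 0))
          (Ioo 0 T ×ˢ univ) := by
        refine ContinuousOn.clm_apply (IsClassicalSol.cont_fderiv hf) ?_
        have e4 : Continuous fun q : ℝ × Vec d × Vec d => ((1 : ℝ), q.2.2, (0 : Vec d)) := by
          fun_prop
        exact e4.continuousOn
      refine e3.congr fun q hq => ?_
      exact (IsClassicalSol.eqn hf q.1 hq.1 q.2.1 q.2.2).symm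
    have e5 : Continuous fun q : ℝ × Vec d × Vec d => Θ q.2.2 := hΘ.comp (by fun_prop)
    exact e5.continuousOn.mul (e1.mul e2)
  · have hT1 : (t + T) / 2 < T := by linarith [ht.2]
    have hT0 : 0 < t / 2 := by linarith [ht.1]
    obtain ⟨C, hC0, hC⟩ := TrC_decS hf h0 h1 hT0 hT1
    have hU : Ioo (t / 2) ((t + T) / 2) ∈ 𝓝[Ioo 0 T] t :=
      mem_nhdsWithin_of_mem_nhds (Ioo_mem_nhds (by linarith [ht.1]) (by linarith [ht.2]))
    refine ⟨_, hU, A * C, fun s hs x v => ?_⟩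
    rw [abs_mul, mul_assoc]
    exact mul_le_mul (hb v) (hC s ⟨hs.1.le, hs.2.le⟩ x v) (abs_nonneg _) hA

end Pool.Agent.H15.AV
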