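import Pool.Agent.H15.AV.Av5
import Pool.Agent.H15.AV.TrC
import Pool.Agent.H15.AV.Mac3

/-!
# Velocity averaging for solutions

MODULE AvA. Apply `velocity_averaging` to `h = ren (1/2) f`, `S = renS Q (1/2) f` (`tsol_ren`,
`kf_nonneg`, `half_le_one`) and `μ(t,x) = C₁ (kap q (f t x) + src Q (1/2) (f t x) φ)` with `C₁, φ` from
`FibTh.source`. The integral of `μ` over `st (t₁ - ρ^12) t₂`: `kap_total` for the first term, and
`ren_ftc` with the test function `φ(v)` (independent of the position) for the second: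
`∫ src = pair φ (ren) t₂ - pair φ (ren) (t₁ - ρ^12) ≤ ∫ φ ≤ C (2R')^d`.
-/

set_option autoImplicit false

open MeasureTheory Set Filter Topology Pool.Agent.H25.Kin

namespace Pool.Agent.H15.AV

variable {d : ℕ} {q : ℝ} {Q : (Vec d → ℝ) → Vec d → ℝ}

private theorem AvA_st (d : ℕ) (s t : ℝ) : st d s t =
    (volume : Measure (ℝ × Vec d)).restrict (Icc s t ×ˢ Icc (0 : Vec d) 1) := by
  unfold st muD
  rw [Measure.prod_restrict]
  rfl

private theorem AvA_int {F : ℝ × Vec d → ℝ} {T s t : ℝ}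
    (hF : ContinuousOn F (Ico 0 T ×ˢ univ)) (hs : 0 < s) (ht : t < T) :
    Integrable F (st d s t) := by
  rw [AvA_st]
  have hc : IsCompact (Icc s t ×ˢ Icc (0 : Vec d) 1) := isCompact_Icc.prod isCompact_Icc
  refine ContinuousOn.integrableOn_compact hc (hF.mono ?_)
  rintro ⟨a, b⟩ ⟨ha, _⟩
  exact ⟨⟨hs.le.trans ha.1, ha.2.trans_lt ht⟩, mem_univ _⟩

private theorem AvA_le {F : ℝ × Vec d → ℝ} {T s t C : ℝ}
    (hF : ContinuousOn F (Ico 0 T ×ˢ univ)) (hs : 0 < s) (hst : s ≤ t) (ht : t < T)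
    (hC : ∀ τ ∈ Ico 0 T, ∫ x, F (τ, x) ∂(muD d) ≤ C) :
    ∫ p, F p ∂(st d s t) ≤ C * (t - s) := by
  have hI := AvA_int hF hs ht
  unfold st at hI ⊢
  rw [integral_prod _ hI]
  calc ∫ τ in Icc s t, ∫ x, F (τ, x) ∂(muD d) ≤ ∫ _τ in Icc s t, C := by
        refine setIntegral_mono_on hI.integral_prod_left (integrableOn_const measure_Icc_lt_top.ne)
          measurableSet_Icc fun τ hτ => hC τ ⟨hs.le.trans hτ.1, hτ.2.trans_lt ht⟩
    _ = C * (t - s) := by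
        rw [setIntegral_const, Measure.real, Real.volume_Icc, ENNReal.toReal_ofReal (by linarith),
          smul_eq_mul]
        ring

theorem va_app (hQ : FibTh q Q) (hq : 0 ≤ q) (hq2 : q < 2) (m M : ℝ) {χ : Vec d → ℝ} {R K : ℝ}
    (hR : 0 < R) (hχ : Tst R K χ) :
    ∃ C : ℝ, 0 ≤ C ∧ ∀ (T : ℝ) (f : ℝ → Vec d → Vec d → ℝ),
      IsClassicalSol T (fun t x => Q (f t x)) f → (∀ t ∈ Ico 0 T, Glob m M (f t)) →
      ∀ ρ ∈ Ioc (0 : ℝ) 1, ∀ t₁ t₂ : ℝ, ρ ^ 12 < t₁ → t₁ ≤ t₂ → t₂ ≤ t₁ + 1 → t₂ < T →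
      ∀ ε : ℝ × Vec d → ℝ, Measurable ε → (∀ p, |ε p| ≤ 1) → (∀ t, Per fun x => ε (t, x)) →
        |∫ p, ε p * (av (ρ ^ 16) (gav χ f p.1) p.2 - gav χ f p.1 p.2) ∂(st d t₁ t₂)| ≤ C * ρ := by
  obtain ⟨C₁, R', φ, hC₁, hR', hφT, hφ0, hsrc⟩ := hQ.source R hR
  obtain ⟨C₂, hC₂, hva⟩ := velocity_averaging (d := d) hR hχ
  obtain ⟨C₃, hC₃, hkap⟩ := kap_total (d := d) hq hq2 m M
  have hφc : Continuous φ := hφT.smooth.continuous
  have hφs : HasCompactSupport φ := by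
    refine HasCompactSupport.intro (isCompact_closedBall (0 : Vec d) R') fun v hv => ?_
    rw [Metric.mem_closedBall, dist_zero_right, not_le] at hv
    exact hφT.supp v hv.le
  have hφi : Integrable (fun q : Vec d × Vec d => φ q.1) (nu d) :=
    (hφc.integrable_of_hasCompactSupport hφs).comp_fst (muD d)
  set P : ℝ := ∫ q : Vec d × Vec d, φ q.1 ∂(nu d) with hP
  have hP0 : 0 ≤ P := integral_nonneg fun q => hφ0 q.1
  refine ⟨C₂ * (1 + C₁ * (2 * C₃ + P)), by positivity, ?_⟩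
  intro T f hf hG ρ hρ t₁ t₂ h1 h2 h3 h4 ε hε1 hε2 hε3
  have hp0 : 0 < ρ ^ 12 := pow_pos hρ.1 12
  have hp1 : ρ ^ 12 ≤ 1 := pow_le_one₀ hρ.1.le hρ.2
  set s : ℝ := t₁ - ρ ^ 12 with hs
  have hs0 : 0 < s := by rw [hs]; linarith
  have hst : s ≤ t₂ := by rw [hs]; linarith
  have hlen : t₂ - s ≤ 2 := by rw [hs]; linarith
  have ht2 : t₂ ∈ Ico 0 T := ⟨hs0.le.trans hst, h4⟩
  have hsT : s ∈ Ico 0 T := ⟨hs0.le, hst.trans_lt h4⟩
  have hh : (0 : ℝ) < 1 / 2 := by norm_num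
  have hh1 : (1 / 2 : ℝ) ≤ 1 := by norm_num
  have hkc := kap_cont hf q
  have hsc : ContinuousOn (fun p : ℝ × Vec d => src Q (1 / 2) (f p.1 p.2) φ) (Ioo 0 T ×ˢ univ) :=
    src_cont hf hh hh1 hφc hφT.le0 hφT.supp
  have hmain := hva T (renS Q (1 / 2) f) (ren (1 / 2) f) (tsol_ren hf hh hh1)
    (fun t ht x v => ⟨kf_nonneg hh hh1 (hf.nonneg t ht x v), half_le_one (hf.nonneg t ht x v)⟩)
    (fun p => C₁ * (kap q (f p.1 p.2) + src Q (1 / 2) (f p.1 p.2) φ))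
    (continuousOn_const.mul ((hkc.mono (prod_mono Ioo_subset_Ico_self subset_rfl)).add hsc))
    (fun t ht x K' Θ hΘ => hsrc (f t x) (sol_nice hf ht x)
      (fun v => hf.nonneg t ⟨ht.1.le, ht.2⟩ x v) K' Θ hΘ)
    ρ hρ t₁ t₂ h1 h2 h3 h4 ε hε1 hε2 hε3
  refine hmain.trans ?_
  have hk1 : Integrable (fun p : ℝ × Vec d => kap q (f p.1 p.2)) (st d s t₂) :=
    AvA_int hkc hs0 h4
  have hk2 : ∫ p : ℝ × Vec d, kap q (f p.1 p.2) ∂(st d s t₂) ≤ C₃ * (t₂ - s) :=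
    AvA_le (F := fun p : ℝ × Vec d => kap q (f p.1 p.2)) hkc hs0 hst h4
      fun τ hτ => hkap (f τ) (sol_slice hf hτ) (hG τ hτ)
  obtain ⟨hr1, hr2⟩ := ren_ftc hf hh hh1 (φ := fun q : Vec d × Vec d => φ q.1)
    (hφc.comp continuous_fst) (A := C₁) (fun q => hφT.le0 q.1) (fun v x i => rfl) hs0 hst h4
  have hpair2 : pair (fun q : Vec d × Vec d => φ q.1) (ren (1 / 2) f) t₂ ≤ P := by
    refine integral_mono_of_nonneg (Eventually.of_forall fun q => ?_) hφi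
      (Eventually.of_forall fun q => ?_)
    · exact mul_nonneg (hφ0 q.1) (kf_nonneg hh hh1 (hf.nonneg t₂ ht2 q.2 q.1))
    · exact mul_le_of_le_one_right (hφ0 q.1) (half_le_one (hf.nonneg t₂ ht2 q.2 q.1))
  have hpair1 : 0 ≤ pair (fun q : Vec d × Vec d => φ q.1) (ren (1 / 2) f) s :=
    integral_nonneg fun q =>
      mul_nonneg (hφ0 q.1) (kf_nonneg hh hh1 (hf.nonneg s hsT q.2 q.1))
  have hr3 : ∫ p : ℝ × Vec d, src Q (1 / 2) (f p.1 p.2) φ ∂(st d s t₂) ≤ P := by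
    have e : ∫ p : ℝ × Vec d, src Q (1 / 2) (f p.1 p.2) φ ∂(st d s t₂) =
        pair (fun q : Vec d × Vec d => φ q.1) (ren (1 / 2) f) t₂ -
          pair (fun q : Vec d × Vec d => φ q.1) (ren (1 / 2) f) s := hr2.symm
    rw [e]
    linarith
  have hmu : ∫ p : ℝ × Vec d, C₁ * (kap q (f p.1 p.2) + src Q (1 / 2) (f p.1 p.2) φ)
      ∂(st d s t₂) ≤ C₁ * (2 * C₃ + P) := by
    rw [integral_const_mul, integral_add hk1 hr1]
    refine mul_le_mul_of_nonneg_left ?_ hC₁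
    have : C₃ * (t₂ - s) ≤ C₃ * 2 := mul_le_mul_of_nonneg_left hlen hC₃
    have hr3' : ∫ p : ℝ × Vec d, src Q (1 / 2) (f p.1 p.2)
        (fun v => (fun q : Vec d × Vec d => φ q.1) (v, p.2 - p.1 • v)) ∂(st d s t₂) ≤ P := hr3
    linarith
  calc C₂ * ρ * (1 + ∫ p : ℝ × Vec d, C₁ * (kap q (f p.1 p.2) + src Q (1 / 2) (f p.1 p.2) φ)
      ∂(st d s t₂)) ≤ C₂ * ρ * (1 + C₁ * (2 * C₃ + P)) :=
        mul_le_mul_of_nonneg_left (by linarith) (mul_nonneg hC₂ hρ.1.le)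
    _ = C₂ * (1 + C₁ * (2 * C₃ + P)) * ρ := by ring

end Pool.Agent.H15.AV
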