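import Pool.Agent.H25.Kin.Admis
import Pool.Agent.H25.Kin.Flux
import Pool.Agent.H25.Kin.Trans
import Pool.Agent.H25.Kin.Macro2

/-!
# Hydrodynamic bounds in measure: definitions

Everything about the collision operator that is used in the proof is contained in the structures
`FibTh` (estimates for the source of the renormalized equation in one fiber) and `HTh`
(H-theorem). The renormalization is `k_δ(a) = log (1 + a/δ) - log (1 + a)`, with `0 ≤ k_δ ≤ lam δ`.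
-/

set_option autoImplicit false

open MeasureTheory Set Filter Topology Pool.Agent.H25.Kin

namespace Pool.Agent.H15.AV

variable {d : ℕ}

/-- the bounded logarithmic renormalization -/
noncomputable def kf (δ a : ℝ) : ℝ := Real.log (δ + a) - Real.log δ - Real.log (1 + a)

/-- the derivative of `kf δ` -/
noncomputable def kd (δ a : ℝ) : ℝ := (δ + a)⁻¹ - (1 + a)⁻¹

/-- the supremum of `kf δ` -/
noncomputable def lam (δ : ℝ) : ℝ := -Real.log δ

/-- the deficit `lam δ - kf δ a` -/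
noncomputable def uf (δ a : ℝ) : ℝ := Real.log (1 + a) - Real.log (δ + a)

/-- the moment which couples a fiber to test functions -/
noncomputable def kap (q : ℝ) (g : Vec d → ℝ) : ℝ := ∫ w, g w * (1 + ‖w‖) ^ q

/-- test functions of the velocity, supported in the ball of radius `R`, with `C²` norm `≤ K` -/
structure Tst (R K : ℝ) (Ψ : Vec d → ℝ) : Prop where
  smooth : ContDiff ℝ 2 Ψ
  supp : ∀ v, R ≤ ‖v‖ → Ψ v = 0
  le0 : ∀ v, |Ψ v| ≤ K
  le1 : ∀ v, ‖fderiv ℝ Ψ v‖ ≤ K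
  le2 : ∀ v, ‖fderiv ℝ (fderiv ℝ Ψ) v‖ ≤ K

/-- good fibers -/
structure Good (m N : ℝ) (g : Vec d → ℝ) : Prop where
  mass : m ≤ ∫ v, g v
  massU : ∫ v, g v ≤ N
  energy : ∫ v, g v * nsq v ≤ N
  entropy : ∫ v, g v * Real.log (g v) ≤ N

/-- the source of the renormalized equation, tested with `Θ` -/
noncomputable def src (Q : (Vec d → ℝ) → Vec d → ℝ) (δ : ℝ) (g Θ : Vec d → ℝ) : ℝ :=
  ∫ v, Θ v * (kd δ (g v) * Q g v)

/-- the integral of the deficit over a ball -/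
noncomputable def ub (δ R : ℝ) (g : Vec d → ℝ) : ℝ :=
  ∫ v in Metric.closedBall (0 : Vec d) R, uf δ (g v)

/-- The fiber estimates: `drift` (the source is bounded below by the coupling moment times the
deficit), `good` (in a good fiber the deficit is `o(lam δ)` up to the dissipation), `source` (the
source of the fixed renormalization `δ = 1/2` is a distribution of order two with an integrable
bound). -/
structure FibTh (q : ℝ) (Q : (Vec d → ℝ) → Vec d → ℝ) : Prop where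
  drift : ∀ R > 0, ∀ η > 0, ∃ C R' : ℝ, 0 ≤ C ∧ R ≤ R' ∧
    ∀ δ ∈ Ioc (0 : ℝ) (1 / 2), ∀ g : Vec d → ℝ, Nice g → (∀ v, 0 ≤ g v) →
    ∀ (K : ℝ) (Ψ : Vec d → ℝ), Tst R K Ψ → (∀ v, 0 ≤ Ψ v) →
      -(K * kap q g * (C * (1 + ub δ R' g) + η * lam δ)) ≤ src Q δ g Ψ
  good : ∀ R > 0, ∀ m > 0, ∀ N : ℝ, ∀ η > 0, ∃ (C R' δ₀ : ℝ) (φ : Vec d → ℝ),
    0 ≤ C ∧ 0 < R' ∧ 0 < δ₀ ∧ δ₀ ≤ 1 / 2 ∧ Tst R' C φ ∧ (∀ v, 0 ≤ φ v) ∧
    ∀ δ ∈ Ioc (0 : ℝ) δ₀, ∀ g : Vec d → ℝ, Nice g → (∀ v, 0 ≤ g v) → Good m N g →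
      ub δ R g ≤ η * lam δ + C / lam δ * (src Q δ g φ + C * kap q g * lam δ)
  source : ∀ R > 0, ∃ (C R' : ℝ) (φ : Vec d → ℝ), 0 ≤ C ∧ 0 < R' ∧ Tst R' C φ ∧ (∀ v, 0 ≤ φ v) ∧
    ∀ g : Vec d → ℝ, Nice g → (∀ v, 0 ≤ g v) →
    ∀ (K : ℝ) (Θ : Vec d → ℝ), Tst R K Θ →
      |src Q (1 / 2) g Θ| ≤ K * (C * (kap q g + src Q (1 / 2) g φ))

/-- rapidly decaying functions with given bounds -/
structure UNice (C : ℕ → ℝ) (g : Vec d → ℝ) : Prop where
  nice : Nice g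
  nonneg : ∀ v, 0 ≤ g v
  le : ∀ (N : ℕ) (v : Vec d),
    (1 + ‖v‖) ^ N * (g v + ‖fderiv ℝ g v‖ + ‖fderiv ℝ (fderiv ℝ g) v‖) ≤ C N

/-- the Gaussian used to regularize the logarithm -/
noncomputable def gau (v : Vec d) : ℝ := Real.exp (-nsq v)

/-- the H-theorem, in a regularized form which is uniform on bounded sets -/
def HTh (Q : (Vec d → ℝ) → Vec d → ℝ) : Prop :=
  ∀ C : ℕ → ℝ, ∀ ε > 0, ∃ δ₀ > 0, ∀ δ ∈ Ioc (0 : ℝ) δ₀, ∀ g : Vec d → ℝ, UNice C g →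
    ∫ v, Q g v * Real.log (g v + δ * gau v) ≤ ε

/-- regular nonnegative phase space densities on the torus -/
structure Slice (F : Vec d → Vec d → ℝ) : Prop where
  nonneg : ∀ x v, 0 ≤ F x v
  per : ∀ x v i, F (x + Pi.single i 1) v = F x v
  cont : Continuous fun q : Vec d × Vec d => F q.1 q.2
  decay : ∀ N : ℕ, ∃ C, ∀ x v, (1 + ‖v‖) ^ N * F x v ≤ C

/-- global bounds: total mass `≥ m`; total mass, energy, entropy `≤ M` -/
structure Glob (m M : ℝ) (F : Vec d → Vec d → ℝ) : Prop where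
  mass : m ≤ ∫ q, F q.2 q.1 ∂(nu d)
  massU : ∫ q, F q.2 q.1 ∂(nu d) ≤ M
  energy : ∫ q, F q.2 q.1 * nsq q.1 ∂(nu d) ≤ M
  entropy : ∫ q, F q.2 q.1 * Real.log (F q.2 q.1) ∂(nu d) ≤ M

/-- Lebesgue measure on `[s,t] × torus` -/
noncomputable def st (d : ℕ) (s t : ℝ) : Measure (ℝ × Vec d) :=
  (volume.restrict (Icc s t)).prod (muD d)

/-- the pairing on phase space with a test function transported by the free flow -/
noncomputable def pair (φ : Vec d × Vec d → ℝ) (h : ℝ → Vec d → Vec d → ℝ) (t : ℝ) : ℝ :=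
  ∫ q, φ (q.1, q.2 - t • q.1) * h t q.2 q.1 ∂(nu d)

/-- regular solutions of `(∂_t + v·∇_x) h = S` on the torus -/
structure TSol (T : ℝ) (S h : ℝ → Vec d → Vec d → ℝ) : Prop where
  per : ∀ t ∈ Ico 0 T, ∀ x v i, h t (x + Pi.single i 1) v = h t x v
  cont : ContinuousOn (unc h) (Ico 0 T ×ˢ univ)
  smooth : ContDiffOn ℝ 1 (unc h) (Ioo 0 T ×ˢ univ)
  dec : ∀ T₁ < T, ∃ C, ∀ t ∈ Icc 0 T₁, ∀ x v, |h t x v| ≤ C * wt d v
  decS : ∀ T₀ > 0, ∀ T₁ < T, ∃ C, ∀ t ∈ Icc T₀ T₁, ∀ x v, |S t x v| ≤ C * wt d v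
  solves : ∀ t ∈ Ioo 0 T, ∀ x v, transport h t x v = S t x v

/-- the pairing of the deficit with a transported test function -/
noncomputable def pairU (φ : Vec d × Vec d → ℝ) (δ : ℝ) (f : ℝ → Vec d → Vec d → ℝ) (t : ℝ) : ℝ :=
  ∫ q, φ (q.1, q.2 - t • q.1) * uf δ (f t q.2 q.1) ∂(nu d)

/-- the renormalized solution -/
noncomputable def ren (δ : ℝ) (f : ℝ → Vec d → Vec d → ℝ) (t : ℝ) (x v : Vec d) : ℝ :=
  kf δ (f t x v)

/-- its source -/
noncomputable def renS (Q : (Vec d → ℝ) → Vec d → ℝ) (δ : ℝ) (f : ℝ → Vec d → Vec d → ℝ) (t : ℝ)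
    (x v : Vec d) : ℝ := kd δ (f t x v) * Q (f t x) v

/-- the velocity average of the renormalization with `δ = 1/2` -/
noncomputable def gav (χ : Vec d → ℝ) (f : ℝ → Vec d → Vec d → ℝ) (t : ℝ) (x : Vec d) : ℝ :=
  ∫ v, χ v * kf (1 / 2) (f t x v)

end Pool.Agent.H15.AV
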