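import Pool.Agent.H15.AV.TrC
import Pool.Agent.H15.AV.Mac3

/-!
# Good fibers: the deficit is small on average

MODULE Dis. Let `C, R', δ₀, φ` be as in `FibTh.good` (with `η/2`) and let `C'` be such that
`0 ≤ src Q δ g φ + C' kap q g lam δ` for every nice `g ≥ 0` and `δ ≤ 1/2` (from `FibTh.drift` with
radius `R'`, `η = 1`, `ub_le` and `lam δ ≥ log 2`). With `C'' = max C C'`: on good fibers
`ub ≤ (η/2) lam + C/lam (src + C'' kap lam)`, on all fibers `src + C'' kap lam ≥ 0`. Integrate over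
`st d s t` (total mass `≤ 1`): `∫ src = pair φ (ren) t - pair φ (ren) s ≤ lam δ ∫ φ` (`ren_ftc`,
`kf_le_lam`) and `∫ kap ≤ C(M)` (`kap_total`). The result is `(η/2) lam δ + C'''`, and `lam δ → ∞`.
-/

set_option autoImplicit false

open MeasureTheory Set Filter Topology Pool.Agent.H25.Kin

namespace Pool.Agent.H15.AV

variable {d : ℕ} {q : ℝ} {Q : (Vec d → ℝ) → Vec d → ℝ}

private lemma dis_ae (s t : ℝ) : ∀ᵐ p ∂(st d s t), p.1 ∈ Icc s t := by
  unfold st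
  exact Measure.quasiMeasurePreserving_fst.ae (ae_restrict_mem measurableSet_Icc)

private lemma dis_int_phi {R' C : ℝ} {φ : Vec d → ℝ} (hφ : Tst R' C φ) (hR' : 0 < R') :
    Integrable (fun q : Vec d × Vec d => φ q.1) (nu d) := by
  refine integrable_nu (C := C * (1 + R') ^ (d + 1))
    (hφ.smooth.continuous.comp continuous_fst).aestronglyMeasurable fun q => ?_
  have hC : 0 ≤ C := (abs_nonneg _).trans (hφ.le0 0)
  rcases le_or_gt R' ‖q.1‖ with h | h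
  · rw [hφ.supp _ h, abs_zero]
    exact mul_nonneg (mul_nonneg hC (by positivity)) (wt_nonneg _)
  · refine (hφ.le0 _).trans ?_
    have h1 : 1 ≤ (1 + R') ^ (d + 1) * wt d q.1 := by
      unfold wt
      rw [← div_eq_mul_inv, one_le_div (pow_pos (w_pos q.1) _)]
      exact pow_le_pow_left₀ (w_pos q.1).le (by linarith) _
    calc C = C * 1 := (mul_one C).symm
      _ ≤ C * ((1 + R') ^ (d + 1) * wt d q.1) := mul_le_mul_of_nonneg_left h1 hC
      _ = _ := by ring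

private lemma dis_kap {q : ℝ} {m M Ck : ℝ} (hCk : 0 ≤ Ck)
    (hk : ∀ F : Vec d → Vec d → ℝ, Slice F → Glob m M F → ∫ x, kap q (F x) ∂(muD d) ≤ Ck)
    {T : ℝ} {f : ℝ → Vec d → Vec d → ℝ} (hf : IsClassicalSol T (fun t x => Q (f t x)) f)
    (hG : ∀ t ∈ Ico 0 T, Glob m M (f t)) {s t : ℝ} (hs : 0 < s) (hst : s ≤ t) (h1 : t ≤ s + 1)
    (ht : t < T) :
    Integrable (fun p : ℝ × Vec d => kap q (f p.1 p.2)) (st d s t) ∧
      ∫ p, kap q (f p.1 p.2) ∂(st d s t) ≤ Ck := by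
  have hsub : Icc s t ×ˢ (univ : Set (Vec d)) ⊆ Ico 0 T ×ˢ univ := fun p hp =>
    ⟨⟨hs.le.trans hp.1.1, hp.1.2.trans_lt ht⟩, mem_univ _⟩
  have hint : Integrable (fun p : ℝ × Vec d => kap q (f p.1 p.2)) (st d s t) :=
    st_integrable ((kap_cont hf q).mono hsub)
  refine ⟨hint, ?_⟩
  rw [st_integral hst hint]
  have h2 : ‖∫ τ in s..t, ∫ x, kap q (f τ x) ∂(muD d)‖ ≤ Ck * |t - s| := by
    refine intervalIntegral.norm_integral_le_of_norm_le_const fun τ hτ => ?_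
    rw [uIoc_of_le hst] at hτ
    have hτ' : τ ∈ Ico 0 T := ⟨(hs.trans hτ.1).le, hτ.2.trans_lt ht⟩
    have hsl := sol_slice hf hτ'
    rw [Real.norm_eq_abs, abs_of_nonneg (integral_nonneg fun x => kap_nonneg q (hsl.nonneg x))]
    exact hk _ hsl (hG τ hτ')
  have h3 := (le_abs_self _).trans h2
  rw [abs_of_nonneg (by linarith)] at h3
  refine h3.trans ?_
  nlinarith

theorem good_small (hQ : FibTh q Q) (hq : 0 ≤ q) (hq2 : q < 2) (m M : ℝ) {R m₁ : ℝ} (hR : 0 < R)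
    (hm₁ : 0 < m₁) (N : ℝ) {η : ℝ} (hη : 0 < η) :
    ∃ δ₀ > 0, δ₀ ≤ 1 / 2 ∧ ∀ δ ∈ Ioc (0 : ℝ) δ₀, ∀ (T : ℝ) (f : ℝ → Vec d → Vec d → ℝ),
      IsClassicalSol T (fun t x => Q (f t x)) f → (∀ t ∈ Ico 0 T, Glob m M (f t)) →
      ∀ s t : ℝ, 0 < s → s ≤ t → t ≤ s + 1 → t < T →
        ∫ p in {p : ℝ × Vec d | Good m₁ N (f p.1 p.2)}, ub δ R (f p.1 p.2) ∂(st d s t) ≤
          η * lam δ := by
  obtain ⟨C, R', δ₀, φ, hC, hR', hδ₀, hδ₀1, hφ, φ0, hgood⟩ := hQ.good R hR m₁ hm₁ N (η / 2) (half_pos hη)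
  obtain ⟨C₁, R'', hC₁, hRR, hdr⟩ := hQ.drift R' hR' 1 one_pos
  obtain ⟨Ck, hCk, hk⟩ := kap_total (d := d) hq hq2 m M
  have hR'' : 0 ≤ R'' := hR'.le.trans hRR
  set V : ℝ := (2 * R'') ^ d with hV
  have hV0 : 0 ≤ V := by positivity
  set C' : ℝ := C * (C₁ * (2 + V) + 1) with hC'
  set D : ℝ := max C C' with hD
  have hD0 : 0 ≤ D := hC.trans (le_max_left _ _)
  set I₀ : ℝ := ∫ q : Vec d × Vec d, φ q.1 ∂(nu d) with hI₀
  have hI0 : 0 ≤ I₀ := integral_nonneg fun q => φ0 q.1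
  obtain ⟨δ₁, hδ₁, hδ₁1, hlam⟩ := exists_lam_ge (2 * (C * (I₀ + D * Ck)) / η)
  refine ⟨min δ₀ δ₁, lt_min hδ₀ hδ₁, (min_le_left _ _).trans hδ₀1, ?_⟩
  intro δ hδ T f hf hG s t hs hst hts htT
  have hδ0 : 0 < δ := hδ.1
  have hδa : δ ≤ δ₀ := hδ.2.trans (min_le_left _ _)
  have hδb : δ ≤ δ₁ := hδ.2.trans (min_le_right _ _)
  have hδh : δ ≤ 1 / 2 := hδa.trans hδ₀1
  have hδ1 : δ ≤ 1 := by linarith
  have hlp : 0 < lam δ := lam_pos hδ0 (by linarith)
  have hl2 : 1 ≤ 2 * lam δ := by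
    have h1 : Real.log δ ≤ Real.log (1 / 2) := Real.log_le_log hδ0 hδh
    have h2 : Real.log (1 / 2) = -Real.log 2 := by rw [one_div, Real.log_inv]
    have h3 := Real.log_two_gt_d9
    unfold lam
    linarith
  have hll := hlam δ ⟨hδ0, hδb⟩
  -- the lower bound on all fibers
  have hall : ∀ p : ℝ × Vec d, p.1 ∈ Icc s t →
      0 ≤ src Q δ (f p.1 p.2) φ + D * kap q (f p.1 p.2) * lam δ := by
    intro p hp
    have hp' : p.1 ∈ Ioo 0 T := ⟨hs.trans_le hp.1, hp.2.trans_lt htT⟩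
    have hp'' : p.1 ∈ Ico 0 T := ⟨hp'.1.le, hp'.2⟩
    have hn := sol_nice hf hp' p.2
    have hg0 : ∀ v, 0 ≤ f p.1 p.2 v := hf.nonneg p.1 hp'' p.2
    have hk0 := kap_nonneg q hg0
    have h1 := hdr δ ⟨hδ0, hδh⟩ (f p.1 p.2) hn hg0 C φ hφ φ0
    have h2 : ub δ R'' (f p.1 p.2) ≤ V * lam δ := ub_le hδ0 hδ1 hR'' hn.cont hg0
    have h3 : C₁ * (1 + ub δ R'' (f p.1 p.2)) + 1 * lam δ ≤ (C₁ * (2 + V) + 1) * lam δ := by
      have : C₁ * (1 + ub δ R'' (f p.1 p.2)) ≤ C₁ * (2 * lam δ + V * lam δ) :=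
        mul_le_mul_of_nonneg_left (by linarith) hC₁
      linarith
    have h4 : C * kap q (f p.1 p.2) * (C₁ * (1 + ub δ R'' (f p.1 p.2)) + 1 * lam δ) ≤
        C * kap q (f p.1 p.2) * ((C₁ * (2 + V) + 1) * lam δ) :=
      mul_le_mul_of_nonneg_left h3 (mul_nonneg hC hk0)
    have h5 : C' * (kap q (f p.1 p.2) * lam δ) ≤ D * (kap q (f p.1 p.2) * lam δ) :=
      mul_le_mul_of_nonneg_right (le_max_right _ _) (mul_nonneg hk0 hlp.le)
    have h6 : C * kap q (f p.1 p.2) * ((C₁ * (2 + V) + 1) * lam δ) =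
        C' * (kap q (f p.1 p.2) * lam δ) := by rw [hC']; ring
    linarith
  set h : ℝ × Vec d → ℝ := fun p => η / 2 * lam δ +
    C / lam δ * (src Q δ (f p.1 p.2) φ + D * kap q (f p.1 p.2) * lam δ) with hh
  have hh0 : ∀ p : ℝ × Vec d, p.1 ∈ Icc s t → 0 ≤ h p := fun p hp =>
    add_nonneg (by positivity) (mul_nonneg (div_nonneg hC hlp.le) (hall p hp))
  have hgd : ∀ p : ℝ × Vec d, p.1 ∈ Icc s t → Good m₁ N (f p.1 p.2) →
      ub δ R (f p.1 p.2) ≤ h p := by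
    intro p hp hgo
    have hp' : p.1 ∈ Ioo 0 T := ⟨hs.trans_le hp.1, hp.2.trans_lt htT⟩
    have hp'' : p.1 ∈ Ico 0 T := ⟨hp'.1.le, hp'.2⟩
    have hn := sol_nice hf hp' p.2
    have hg0 : ∀ v, 0 ≤ f p.1 p.2 v := hf.nonneg p.1 hp'' p.2
    have hk0 := kap_nonneg q hg0
    refine (hgood δ ⟨hδ0, hδa⟩ _ hn hg0 hgo).trans ?_
    simp only [hh]
    have h5 : C * kap q (f p.1 p.2) * lam δ ≤ D * kap q (f p.1 p.2) * lam δ := by
      have := le_max_left C C'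
      gcongr
    have h6 := mul_le_mul_of_nonneg_left (add_le_add_right h5 (src Q δ (f p.1 p.2) φ))
      (div_nonneg hC hlp.le)
    linarith
  -- integrability
  obtain ⟨hki, hkI⟩ := dis_kap hCk hk hf hG hs hst hts htT
  have hA : ∀ q : Vec d × Vec d, |φ q.1| ≤ C := fun q => hφ.le0 q.1
  obtain ⟨hsi, hsI⟩ := ren_ftc hf hδ0 hδ1 (φ := fun q : Vec d × Vec d => φ q.1)
    (hφ.smooth.continuous.comp continuous_fst) hA (fun v x i => rfl) hs hst htT
  have hfin : IsFiniteMeasure (st d s t) :=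
    ⟨by rw [st_univ hst]; exact ENNReal.ofReal_lt_top⟩
  have hsi' : Integrable (fun p : ℝ × Vec d => src Q δ (f p.1 p.2) φ) (st d s t) := hsi
  have hsI' : pair (fun q : Vec d × Vec d => φ q.1) (ren δ f) t -
      pair (fun q : Vec d × Vec d => φ q.1) (ren δ f) s =
      ∫ p, src Q δ (f p.1 p.2) φ ∂(st d s t) := hsI
  have hki' : Integrable (fun p : ℝ × Vec d => D * kap q (f p.1 p.2) * lam δ) (st d s t) :=
    (hki.const_mul D).mul_const _
  have hhi : Integrable h (st d s t) :=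
    (integrable_const _).add ((hsi'.add hki').const_mul _)
  have hub : Integrable (fun p : ℝ × Vec d => ub δ R (f p.1 p.2)) (st d s t) := by
    refine st_integrable ((ub_cont hf hδ0 hδ1 R).mono fun p hp => ?_)
    exact ⟨⟨hs.le.trans hp.1.1, hp.1.2.trans_lt htT⟩, mem_univ _⟩
  -- the set of good fibers
  set A : Set (ℝ × Vec d) := {p : ℝ × Vec d | Good m₁ N (f p.1 p.2)} ∩ (Icc s t ×ˢ univ) with hAdef
  have hAm : MeasurableSet A := good_meas hf m₁ N hs.le htT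
  have hAe : ({p : ℝ × Vec d | Good m₁ N (f p.1 p.2)} : Set (ℝ × Vec d)) =ᵐ[st d s t] A := by
    filter_upwards [dis_ae (d := d) s t] with p hp
    apply propext
    constructor
    · intro hp1
      exact ⟨hp1, hp, mem_univ _⟩
    · intro hp1
      exact hp1.1
  rw [setIntegral_congr_set hAe]
  have hs1 : ∫ p in A, ub δ R (f p.1 p.2) ∂(st d s t) ≤ ∫ p in A, h p ∂(st d s t) :=
    setIntegral_mono_on hub.integrableOn hhi.integrableOn hAm fun p hp => hgd p hp.2.1 hp.1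
  have hs2 : ∫ p in A, h p ∂(st d s t) ≤ ∫ p, h p ∂(st d s t) := by
    refine setIntegral_le_integral hhi ?_
    filter_upwards [dis_ae (d := d) s t] with p hp
    exact hh0 p hp
  have hmass : (st d s t).real univ ≤ 1 := by
    rw [measureReal_def, st_univ hst, ENNReal.toReal_ofReal (by linarith)]
    linarith
  have hs3 : ∫ p, h p ∂(st d s t) = (st d s t).real univ * (η / 2 * lam δ) +
      C / lam δ * ((∫ p, src Q δ (f p.1 p.2) φ ∂(st d s t)) +
        D * (∫ p, kap q (f p.1 p.2) ∂(st d s t)) * lam δ) := by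
    have hX : Integrable (fun p : ℝ × Vec d => src Q δ (f p.1 p.2) φ +
        D * kap q (f p.1 p.2) * lam δ) (st d s t) := hsi'.add hki'
    have e1 : ∫ p, (src Q δ (f p.1 p.2) φ + D * kap q (f p.1 p.2) * lam δ) ∂(st d s t) =
        (∫ p, src Q δ (f p.1 p.2) φ ∂(st d s t)) + ∫ p, D * kap q (f p.1 p.2) * lam δ ∂(st d s t) :=
      integral_add hsi' hki'
    have e2 : ∫ p, h p ∂(st d s t) = (∫ _p, η / 2 * lam δ ∂(st d s t)) +
        ∫ p, C / lam δ * (src Q δ (f p.1 p.2) φ + D * kap q (f p.1 p.2) * lam δ) ∂(st d s t) :=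
      integral_add (integrable_const _) (hX.const_mul _)
    rw [e2, integral_const, integral_const_mul, e1, integral_mul_const, integral_const_mul,
      smul_eq_mul]
  -- the pairing
  have hp1 : pair (fun q : Vec d × Vec d => φ q.1) (ren δ f) t ≤ I₀ * lam δ := by
    unfold pair
    rw [hI₀, ← integral_mul_const]
    have htI : t ∈ Ico 0 T := ⟨(hs.trans_le hst).le, htT⟩
    refine integral_mono_of_nonneg (Eventually.of_forall fun q => ?_)
      ((dis_int_phi hφ hR').mul_const _) (Eventually.of_forall fun q => ?_)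
    · exact mul_nonneg (φ0 _) (kf_nonneg hδ0 hδ1 (hf.nonneg t htI _ _))
    · exact mul_le_mul_of_nonneg_left (kf_le_lam hδ0 hδ1 (hf.nonneg t htI _ _)) (φ0 _)
  have hp2 : 0 ≤ pair (fun q : Vec d × Vec d => φ q.1) (ren δ f) s := by
    unfold pair
    have hsI : s ∈ Ico 0 T := ⟨hs.le, hst.trans_lt htT⟩
    exact integral_nonneg fun q => mul_nonneg (φ0 _) (kf_nonneg hδ0 hδ1 (hf.nonneg s hsI _ _))
  have hs4 : ∫ p, src Q δ (f p.1 p.2) φ ∂(st d s t) ≤ I₀ * lam δ := by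
    rw [← hsI']
    linarith
  have hs5 : (∫ p, src Q δ (f p.1 p.2) φ ∂(st d s t)) +
        D * (∫ p, kap q (f p.1 p.2) ∂(st d s t)) * lam δ ≤ (I₀ + D * Ck) * lam δ := by
    have : D * (∫ p, kap q (f p.1 p.2) ∂(st d s t)) * lam δ ≤ D * Ck * lam δ := by gcongr
    linarith
  have hs6 := mul_le_mul_of_nonneg_left hs5 (div_nonneg hC hlp.le)
  have hs7 : C / lam δ * ((I₀ + D * Ck) * lam δ) = C * (I₀ + D * Ck) := by
    field_simp
  have hs8 : C * (I₀ + D * Ck) ≤ η / 2 * lam δ := by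
    rw [div_le_iff₀ hη] at hll
    linarith
  have hs9 : (st d s t).real univ * (η / 2 * lam δ) ≤ η / 2 * lam δ := by
    have : 0 ≤ η / 2 * lam δ := by positivity
    nlinarith
  linarith

end Pool.Agent.H15.AV
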