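import Pool.Agent.H15.AV.Dis

/-!
# Evolution of the deficit

MODULE Evo. `coupling_small`: apply `coupling` (for each time) to
`ζ(x) = ub δ R (f τ x) / ((2R)^d lam δ)` and integrate in time, then `good_small`. `evol`: integrate
`FibTh.drift` over `st d s t` (`pairU_diff`), with `coupling_small` (radius `R'`) and `kap_total`.
`evol_crude`: the same with `ub ≤ (2R')^d lam δ`, on `[s,t]`, then `s → 0` (`pairU_cont`).
-/

set_option autoImplicit false

open MeasureTheory Set Filter Topology Pool.Agent.H25.Kin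

namespace Pool.Agent.H15.AV

variable {d : ℕ} {q : ℝ} {Q : (Vec d → ℝ) → Vec d → ℝ}

private theorem Evo_ae (s t : ℝ) : ∀ᵐ p : ℝ × Vec d ∂(st d s t), p.1 ∈ Icc s t := by
  have h1 : ∀ᵐ τ : ℝ ∂(volume.restrict (Icc s t)), τ ∈ Icc s t :=
    ae_restrict_mem measurableSet_Icc
  exact (Measure.quasiMeasurePreserving_fst (μ := volume.restrict (Icc s t))
    (ν := muD d)).ae h1

/-- comparison of slices -/
private theorem Evo_slices {s t : ℝ} {F G : ℝ × Vec d → ℝ} (hF : Integrable F (st d s t))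
    (hG : Integrable G (st d s t))
    (h : ∀ τ ∈ Icc s t, ∫ x, F (τ, x) ∂(muD d) ≤ ∫ x, G (τ, x) ∂(muD d)) :
    ∫ p, F p ∂(st d s t) ≤ ∫ p, G p ∂(st d s t) := by
  unfold st at hF hG ⊢
  rw [integral_prod _ hF, integral_prod _ hG]
  refine integral_mono_ae hF.integral_prod_left hG.integral_prod_left ?_
  filter_upwards [ae_restrict_mem measurableSet_Icc] with τ hτ
  exact h τ hτ

private theorem Evo_kap_int {Q' : ℝ → Vec d → Vec d → ℝ} {T : ℝ} {f : ℝ → Vec d → Vec d → ℝ}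
    (hf : IsClassicalSol T Q' f) (q : ℝ) {s t : ℝ} (hs : 0 ≤ s) (ht : t < T) :
    Integrable (fun p : ℝ × Vec d => kap q (f p.1 p.2)) (st d s t) :=
  st_integrable ((kap_cont hf q).mono (prod_mono (fun _ hτ => ⟨hs.trans hτ.1,
    lt_of_le_of_lt hτ.2 ht⟩) le_rfl))

private theorem Evo_ub_int {Q' : ℝ → Vec d → Vec d → ℝ} {T : ℝ} {f : ℝ → Vec d → Vec d → ℝ}
    (hf : IsClassicalSol T Q' f) {δ : ℝ} (h0 : 0 < δ) (h1 : δ ≤ 1) (R : ℝ) {s t : ℝ}
    (hs : 0 ≤ s) (ht : t < T) :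
    Integrable (fun p : ℝ × Vec d => ub δ R (f p.1 p.2)) (st d s t) :=
  st_integrable ((ub_cont hf h0 h1 R).mono (prod_mono (fun _ hτ => ⟨hs.trans hτ.1,
    lt_of_le_of_lt hτ.2 ht⟩) le_rfl))

private theorem Evo_ku_int {Q' : ℝ → Vec d → Vec d → ℝ} {T : ℝ} {f : ℝ → Vec d → Vec d → ℝ}
    (hf : IsClassicalSol T Q' f) (q : ℝ) {δ : ℝ} (h0 : 0 < δ) (h1 : δ ≤ 1) (R : ℝ) {s t : ℝ}
    (hs : 0 ≤ s) (ht : t < T) :
    Integrable (fun p : ℝ × Vec d => kap q (f p.1 p.2) * ub δ R (f p.1 p.2)) (st d s t) := by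
  have hsub : Icc s t ×ˢ (univ : Set (Vec d)) ⊆ Ico 0 T ×ˢ univ :=
    prod_mono (fun _ hτ => ⟨hs.trans hτ.1, lt_of_le_of_lt hτ.2 ht⟩) le_rfl
  exact st_integrable (((kap_cont hf q).mono hsub).mul ((ub_cont hf h0 h1 R).mono hsub))

/-- the total coupling moment -/
private theorem Evo_kap_tot {Q' : ℝ → Vec d → Vec d → ℝ} {T : ℝ} {f : ℝ → Vec d → Vec d → ℝ}
    (hf : IsClassicalSol T Q' f) {q m M C : ℝ} (hG : ∀ t ∈ Ico 0 T, Glob m M (f t))
    (hC : ∀ F : Vec d → Vec d → ℝ, Slice F → Glob m M F → ∫ x, kap q (F x) ∂(muD d) ≤ C)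
    {s t : ℝ} (hs : 0 ≤ s) (hst : s ≤ t) (ht : t < T) :
    ∫ p, kap q (f p.1 p.2) ∂(st d s t) ≤ C * (t - s) := by
  have hI := Evo_kap_int hf q (s := s) hs ht
  unfold st at hI ⊢
  rw [integral_prod _ hI]
  have h1 : ∀ τ ∈ Icc s t, ∫ x, kap q (f τ x) ∂(muD d) ≤ C := fun τ hτ =>
    hC _ (sol_slice hf ⟨hs.trans hτ.1, lt_of_le_of_lt hτ.2 ht⟩)
      (hG τ ⟨hs.trans hτ.1, lt_of_le_of_lt hτ.2 ht⟩)
  have h2 : ∫ τ in Icc s t, (∫ x, kap q (f τ x) ∂(muD d)) ≤ ∫ _ in Icc s t, C := by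
    refine integral_mono_ae hI.integral_prod_left (integrable_const C) ?_
    filter_upwards [ae_restrict_mem measurableSet_Icc] with τ hτ
    exact h1 τ hτ
  refine h2.trans (le_of_eq ?_)
  rw [setIntegral_const, smul_eq_mul, Real.volume_real_Icc_of_le hst]
  ring

theorem coupling_small (hQ : FibTh q Q) (hq : 0 ≤ q) (hq2 : q < 2) (m M : ℝ) {R : ℝ} (hR : 0 < R)
    {η : ℝ} (hη : 0 < η) :
    ∃ δ₀ > 0, δ₀ ≤ 1 / 2 ∧ ∀ δ ∈ Ioc (0 : ℝ) δ₀, ∀ (T : ℝ) (f : ℝ → Vec d → Vec d → ℝ),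
      IsClassicalSol T (fun t x => Q (f t x)) f → (∀ t ∈ Ico 0 T, Glob m M (f t)) →
      ∀ s t : ℝ, 0 < s → s ≤ t → t ≤ s + 1 → t < T →
        ∫ p, kap q (f p.1 p.2) * ub δ R (f p.1 p.2) ∂(st d s t) ≤ η * lam δ := by
  have hA : 0 < (2 * R) ^ d := by positivity
  obtain ⟨m₁, N, C, hm₁, hm₂, hC, hcp⟩ := coupling (d := d) hq hq2 m M
    (ε := η / (2 * (2 * R) ^ d)) (by positivity)
  obtain ⟨δ₀, hδ₀, hδ₁, hgs⟩ := good_small (d := d) hQ hq hq2 m M hR hm₁ N
    (η := η / (2 * (C + 1))) (by positivity)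
  refine ⟨δ₀, hδ₀, hδ₁, fun δ hδ T f hf hG s t hs hst hst1 ht => ?_⟩
  have h0 : 0 < δ := hδ.1
  have h1 : δ ≤ 1 := hδ.2.trans (hδ₁.trans (by norm_num))
  have hlam : 0 < lam δ := lam_pos h0 (lt_of_le_of_lt hδ.2 (lt_of_le_of_lt hδ₁ (by norm_num)))
  have hgs1 := hgs δ hδ T f hf hG s t hs hst hst1 ht
  have hms := good_meas hf m₁ N hs.le ht (s := s)
  set G : Set (ℝ × Vec d) := {p : ℝ × Vec d | Good m₁ N (f p.1 p.2)} ∩ (Icc s t ×ˢ univ) with hGdef
  have hub := Evo_ub_int hf h0 h1 R (s := s) hs.le ht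
  have hku := Evo_ku_int hf q h0 h1 R (s := s) hs.le ht
  have hGub : ∫ p in {p : ℝ × Vec d | Good m₁ N (f p.1 p.2)}, ub δ R (f p.1 p.2) ∂(st d s t) =
      ∫ p, G.indicator (fun p => ub δ R (f p.1 p.2)) p ∂(st d s t) := by
    rw [integral_indicator hms]
    have e : ({p : ℝ × Vec d | Good m₁ N (f p.1 p.2)} : Set (ℝ × Vec d)) =ᵐ[st d s t] G := by
      filter_upwards [Evo_ae (d := d) s t] with p hp
      refine propext ?_
      change Good m₁ N (f p.1 p.2) ↔ (Good m₁ N (f p.1 p.2) ∧ p ∈ Icc s t ×ˢ univ)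
      exact ⟨fun h => ⟨h, ⟨hp, mem_univ _⟩⟩, fun h => h.1⟩
    rw [Measure.restrict_congr_set e]
  rw [hGub] at hgs1
  have hindI : Integrable (G.indicator (fun p => ub δ R (f p.1 p.2))) (st d s t) :=
    hub.indicator hms
  have hfin : IsFiniteMeasure (st d s t) := by unfold st; infer_instance
  -- comparison
  have hmain : ∫ p, kap q (f p.1 p.2) * ub δ R (f p.1 p.2) ∂(st d s t) ≤
      ∫ p, (C * G.indicator (fun p => ub δ R (f p.1 p.2)) p + η / 2 * lam δ) ∂(st d s t) := by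
    refine Evo_slices hku ((hindI.const_mul C).add (integrable_const _)) fun τ hτ => ?_
    have hτ' : τ ∈ Ico 0 T := ⟨hs.le.trans hτ.1, lt_of_le_of_lt hτ.2 ht⟩
    have hsl := sol_slice hf hτ'
    have hcv : ∀ x, Continuous (f τ x) := fun x =>
      hsl.cont.comp (Continuous.prodMk continuous_const continuous_id)
    have hucx : Continuous fun x => ub δ R (f τ x) := by
      have h2 := (ub_cont hf h0 h1 R).comp_continuous (f := fun x : Vec d => (τ, x))
        (by fun_prop) (fun x => ⟨hτ', mem_univ _⟩)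
      exact h2
    have hL : 0 < (2 * R) ^ d * lam δ := by positivity
    have h3 := (hcp (f τ) hsl (hG τ hτ')).1 (fun x => ub δ R (f τ x) / ((2 * R) ^ d * lam δ))
      (hucx.div_const _).measurable
      (fun x => div_nonneg (ub_nonneg h0 h1 R (hsl.nonneg x)) hL.le)
      (fun x => (div_le_one hL).2 (ub_le h0 h1 hR.le (hcv x) (hsl.nonneg x)))
    have e1 : ∫ x, kap q (f τ x) * (ub δ R (f τ x) / ((2 * R) ^ d * lam δ)) ∂(muD d) =
        (∫ x, kap q (f τ x) * ub δ R (f τ x) ∂(muD d)) / ((2 * R) ^ d * lam δ) := by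
      rw [← integral_div]
      congr 1
      funext x
      ring
    have e2 : ∫ x in {x | Good m₁ N (f τ x)}, ub δ R (f τ x) / ((2 * R) ^ d * lam δ) ∂(muD d) =
        (∫ x in {x | Good m₁ N (f τ x)}, ub δ R (f τ x) ∂(muD d)) / ((2 * R) ^ d * lam δ) := by
      rw [← integral_div]
    have hmsx : MeasurableSet {x | Good m₁ N (f τ x)} := by
      have h4 : {x | Good m₁ N (f τ x)} = (fun x : Vec d => (τ, x)) ⁻¹' G := by
        ext x
        change Good m₁ N (f τ x) ↔ (Good m₁ N (f τ x) ∧ (τ, x) ∈ Icc s t ×ˢ univ)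
        exact ⟨fun h => ⟨h, ⟨hτ, mem_univ _⟩⟩, fun h => h.1⟩
      rw [h4]
      exact measurable_prodMk_left hms
    have e3 : ∀ x, G.indicator (fun p => ub δ R (f p.1 p.2)) (τ, x) =
        {x | Good m₁ N (f τ x)}.indicator (fun x => ub δ R (f τ x)) x := by
      intro x
      by_cases hx : Good m₁ N (f τ x)
      · rw [indicator_of_mem (show x ∈ {x | Good m₁ N (f τ x)} from hx),
          indicator_of_mem (show (τ, x) ∈ G from ⟨hx, ⟨hτ, mem_univ _⟩⟩)]
      · rw [indicator_of_notMem (show x ∉ {x | Good m₁ N (f τ x)} from hx),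
          indicator_of_notMem (show (τ, x) ∉ G from fun h => hx h.1)]
    have hmu : (muD d).real univ = 1 := by
      unfold muD
      rw [measureReal_def, Measure.restrict_apply_univ, Real.volume_Icc_pi]
      simp
    have hux : Integrable (fun x => ub δ R (f τ x)) (muD d) := by
      refine Integrable.of_bound hucx.aestronglyMeasurable ((2 * R) ^ d * lam δ)
        (Eventually.of_forall fun x => ?_)
      rw [Real.norm_eq_abs, abs_of_nonneg (ub_nonneg h0 h1 R (hsl.nonneg x))]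
      exact ub_le h0 h1 hR.le (hcv x) (hsl.nonneg x)
    have e4 : ∫ x, (C * G.indicator (fun p => ub δ R (f p.1 p.2)) (τ, x) + η / 2 * lam δ) ∂(muD d) =
        C * (∫ x in {x | Good m₁ N (f τ x)}, ub δ R (f τ x) ∂(muD d)) + η / 2 * lam δ := by
      have h5 : (fun x => C * G.indicator (fun p => ub δ R (f p.1 p.2)) (τ, x) + η / 2 * lam δ) =
          fun x => C * {x | Good m₁ N (f τ x)}.indicator (fun x => ub δ R (f τ x)) x +
            η / 2 * lam δ := by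
        funext x
        rw [e3 x]
      rw [h5, integral_add ((hux.indicator hmsx).const_mul C) (integrable_const _),
        integral_const_mul, integral_indicator hmsx, integral_const, hmu, one_smul]
    rw [e4]
    rw [e1, e2, div_le_iff₀ hL] at h3
    refine h3.trans (le_of_eq ?_)
    field_simp
  have h6 : ∫ p, (C * G.indicator (fun p => ub δ R (f p.1 p.2)) p + η / 2 * lam δ) ∂(st d s t) =
      C * (∫ p, G.indicator (fun p => ub δ R (f p.1 p.2)) p ∂(st d s t)) +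
        η / 2 * lam δ * (t - s) := by
    rw [integral_add (hindI.const_mul C) (integrable_const _), integral_const_mul, integral_const,
      measureReal_def, st_univ hst, ENNReal.toReal_ofReal (sub_nonneg.2 hst), smul_eq_mul]
    ring
  rw [h6] at hmain
  refine hmain.trans ?_
  have h7 : C * (∫ p, G.indicator (fun p => ub δ R (f p.1 p.2)) p ∂(st d s t)) ≤
      η / 2 * lam δ := by
    have h8 := mul_le_mul_of_nonneg_left hgs1 hC
    refine h8.trans ?_
    have h9 : C * (η / (2 * (C + 1)) * lam δ) = (C / (C + 1)) * (η / 2 * lam δ) := by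
      field_simp
    rw [h9]
    have h10 : C / (C + 1) ≤ 1 := (div_le_one (by linarith)).2 (by linarith)
    have h11 : 0 ≤ η / 2 * lam δ := by positivity
    nlinarith
  have h12 : η / 2 * lam δ * (t - s) ≤ η / 2 * lam δ := by
    have h11 : 0 ≤ η / 2 * lam δ := by positivity
    have h13 : t - s ≤ 1 := by linarith
    nlinarith
  linarith

/-- data extracted from the test functions -/
private theorem Evo_test {R K s t : ℝ} (hst : s ≤ t) {φ : Vec d × Vec d → ℝ}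
    (hφ : ∀ τ ∈ Icc s t, ∀ x, Tst R K fun v => φ (v, x - τ • v)) :
    0 ≤ K ∧ (∀ q, |φ q| ≤ K) ∧ ∀ v y, R ≤ ‖v‖ → φ (v, y) = 0 := by
  have hs : s ∈ Icc s t := ⟨le_rfl, hst⟩
  have h1 : ∀ v y, φ (v, y) = (fun v' => φ (v', (y + s • v) - s • v')) v := by
    intro v y
    change φ (v, y) = φ (v, (y + s • v) - s • v)
    rw [add_sub_cancel_right]
  refine ⟨(abs_nonneg _).trans ((hφ s hs 0).le0 0), ?_, ?_⟩
  · rintro ⟨v, y⟩
    rw [h1 v y]
    exact (hφ s hs (y + s • v)).le0 v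
  · intro v y hv
    rw [h1 v y]
    exact (hφ s hs (y + s • v)).supp v hv

theorem evol (hQ : FibTh q Q) (hq : 0 ≤ q) (hq2 : q < 2) (m M : ℝ) {R : ℝ} (hR : 0 < R)
    {η : ℝ} (hη : 0 < η) :
    ∃ δ₀ > 0, δ₀ ≤ 1 / 2 ∧ ∀ δ ∈ Ioc (0 : ℝ) δ₀, ∀ (T : ℝ) (f : ℝ → Vec d → Vec d → ℝ),
      IsClassicalSol T (fun t x => Q (f t x)) f → (∀ t ∈ Ico 0 T, Glob m M (f t)) →
      ∀ s t : ℝ, 0 < s → s ≤ t → t ≤ s + 1 → t < T →
      ∀ (K : ℝ) (φ : Vec d × Vec d → ℝ), Continuous φ → (∀ q, 0 ≤ φ q) →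
      (∀ v, Per fun y => φ (v, y)) → (∀ τ ∈ Icc s t, ∀ x, Tst R K fun v => φ (v, x - τ • v)) →
        pairU φ δ f t ≤ pairU φ δ f s + K * (η * lam δ) := by
  obtain ⟨CM, hCM, hkt⟩ := kap_total (d := d) hq hq2 m M
  obtain ⟨C, R', hC, hRR', hdr⟩ := hQ.drift R hR (η / (3 * (CM + 1))) (by positivity)
  have hR' : 0 < R' := lt_of_lt_of_le hR hRR'
  obtain ⟨δ₁, hδ₁, hδ₁', hcs⟩ := coupling_small (d := d) hQ hq hq2 m M hR'
    (η := η / (3 * (C + 1))) (by positivity)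
  obtain ⟨δ₂, hδ₂, hδ₂', hlm⟩ := exists_lam_ge (3 * C * CM / η)
  refine ⟨min δ₁ δ₂, lt_min hδ₁ hδ₂, (min_le_left _ _).trans hδ₁', ?_⟩
  intro δ hδ T f hf hG s t hs hst hst1 ht K φ hφc hφ0 hφp hφT
  have h0 : 0 < δ := hδ.1
  have hδa : δ ≤ δ₁ := hδ.2.trans (min_le_left _ _)
  have hδb : δ ≤ δ₂ := hδ.2.trans (min_le_right _ _)
  have h2 : δ ≤ 1 / 2 := hδa.trans hδ₁'
  have h1 : δ ≤ 1 := h2.trans (by norm_num)
  obtain ⟨hK, hφb, hφR⟩ := Evo_test hst hφT
  have hpd := pairU_diff hf h0 h1 hφc hφb hφR hφp hs hst ht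
  have hsI := (ren_ftc hf h0 h1 hφc hφb hφp hs hst ht).1
  have hkI := Evo_kap_int hf q (s := s) hs.le ht
  have hkuI := Evo_ku_int hf q h0 h1 R' (s := s) hs.le ht
  have hk1 : ∫ p, kap q (f p.1 p.2) ∂(st d s t) ≤ CM := by
    refine (Evo_kap_tot hf hG hkt hs.le hst ht).trans ?_
    have : t - s ≤ 1 := by linarith
    nlinarith
  have hk2 := hcs δ ⟨h0, hδa⟩ T f hf hG s t hs hst hst1 ht
  have hl := hlm δ ⟨h0, hδb⟩
  have hlam : 0 < lam δ := lam_pos h0 (lt_of_le_of_lt h2 (by norm_num))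
  have hle : -∫ p, src Q δ (f p.1 p.2) (fun v => φ (v, p.2 - p.1 • v)) ∂(st d s t) ≤
      ∫ p, (K * ((C + η / (3 * (CM + 1)) * lam δ) * kap q (f p.1 p.2) +
        C * (kap q (f p.1 p.2) * ub δ R' (f p.1 p.2)))) ∂(st d s t) := by
    rw [← integral_neg]
    refine integral_mono_ae hsI.neg (((hkI.const_mul _).add (hkuI.const_mul C)).const_mul K) ?_
    filter_upwards [Evo_ae (d := d) s t] with p hp
    have hτ' : p.1 ∈ Ioo 0 T := ⟨lt_of_lt_of_le hs hp.1, lt_of_le_of_lt hp.2 ht⟩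
    have h3 := hdr δ ⟨h0, h2⟩ (f p.1 p.2) (sol_nice hf hτ' p.2)
      (fun v => hf.nonneg p.1 ⟨hτ'.1.le, hτ'.2⟩ p.2 v) K (fun v => φ (v, p.2 - p.1 • v))
      (hφT p.1 hp p.2) (fun v => hφ0 _)
    change -src Q δ (f p.1 p.2) (fun v => φ (v, p.2 - p.1 • v)) ≤
      K * ((C + η / (3 * (CM + 1)) * lam δ) * kap q (f p.1 p.2) +
        C * (kap q (f p.1 p.2) * ub δ R' (f p.1 p.2)))
    have e : K * ((C + η / (3 * (CM + 1)) * lam δ) * kap q (f p.1 p.2) +
        C * (kap q (f p.1 p.2) * ub δ R' (f p.1 p.2))) =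
        K * kap q (f p.1 p.2) * (C * (1 + ub δ R' (f p.1 p.2)) + η / (3 * (CM + 1)) * lam δ) := by
      ring
    rw [e]
    linarith
  rw [integral_const_mul, integral_add (hkI.const_mul _) (hkuI.const_mul C), integral_const_mul,
    integral_const_mul] at hle
  have hb1 : (C + η / (3 * (CM + 1)) * lam δ) * ∫ p, kap q (f p.1 p.2) ∂(st d s t) ≤
      η / 3 * lam δ + η / 3 * lam δ := by
    have h4 : 0 ≤ C + η / (3 * (CM + 1)) * lam δ := by positivity
    refine (mul_le_mul_of_nonneg_left hk1 h4).trans ?_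
    have h5 : C * CM ≤ η / 3 * lam δ := by
      rw [div_le_iff₀ hη] at hl
      linarith
    have h6 : η / (3 * (CM + 1)) * lam δ * CM ≤ η / 3 * lam δ := by
      have h7 : η / (3 * (CM + 1)) * lam δ * CM = (CM / (CM + 1)) * (η / 3 * lam δ) := by
        field_simp
      rw [h7]
      have h8 : CM / (CM + 1) ≤ 1 := (div_le_one (by linarith)).2 (by linarith)
      have h9 : 0 ≤ η / 3 * lam δ := by positivity
      nlinarith
    have h10 : (C + η / (3 * (CM + 1)) * lam δ) * CM =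
        C * CM + η / (3 * (CM + 1)) * lam δ * CM := by ring
    rw [h10]
    linarith
  have hb2 : C * ∫ p, kap q (f p.1 p.2) * ub δ R' (f p.1 p.2) ∂(st d s t) ≤ η / 3 * lam δ := by
    refine (mul_le_mul_of_nonneg_left hk2 hC).trans ?_
    have h7 : C * (η / (3 * (C + 1)) * lam δ) = (C / (C + 1)) * (η / 3 * lam δ) := by
      field_simp
    rw [h7]
    have h8 : C / (C + 1) ≤ 1 := (div_le_one (by linarith)).2 (by linarith)
    have h9 : 0 ≤ η / 3 * lam δ := by positivity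
    nlinarith
  have h11 := mul_le_mul_of_nonneg_left (add_le_add hb1 hb2) hK
  have h12 : K * (η / 3 * lam δ + η / 3 * lam δ + η / 3 * lam δ) = K * (η * lam δ) := by ring
  rw [h12] at h11
  linarith

theorem evol_crude (hQ : FibTh q Q) (hq : 0 ≤ q) (hq2 : q < 2) (m M : ℝ) {R : ℝ} (hR : 0 < R) :
    ∃ C : ℝ, 0 ≤ C ∧ ∀ δ ∈ Ioc (0 : ℝ) (1 / 2), ∀ (T : ℝ) (f : ℝ → Vec d → Vec d → ℝ),
      IsClassicalSol T (fun t x => Q (f t x)) f → (∀ t ∈ Ico 0 T, Glob m M (f t)) →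
      ∀ t ∈ Ico 0 T, t ≤ 1 → ∀ (K : ℝ) (φ : Vec d × Vec d → ℝ), Continuous φ → (∀ q, 0 ≤ φ q) →
      (∀ v, Per fun y => φ (v, y)) → (∀ τ ∈ Icc 0 t, ∀ x, Tst R K fun v => φ (v, x - τ • v)) →
        pairU φ δ f t ≤ pairU φ δ f 0 + K * (C * t * lam δ) := by
  obtain ⟨CM, hCM, hkt⟩ := kap_total (d := d) hq hq2 m M
  obtain ⟨C, R', hC, hRR', hdr⟩ := hQ.drift R hR 1 one_pos
  have hR' : 0 < R' := lt_of_lt_of_le hR hRR'
  have hℓ : 0 < lam (1 / 2) := lam_pos (by norm_num) (by norm_num)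
  set C₁ : ℝ := C / lam (1 / 2) + C * (2 * R') ^ d + 1 with hC₁
  have hC₁0 : 0 ≤ C₁ := by positivity
  refine ⟨C₁ * CM, by positivity, ?_⟩
  intro δ hδ T f hf hG t ht ht1 K φ hφc hφ0 hφp hφT
  have h0 : 0 < δ := hδ.1
  have h2 : δ ≤ 1 / 2 := hδ.2
  have h1 : δ ≤ 1 := h2.trans (by norm_num)
  obtain ⟨hK, hφb, hφR⟩ := Evo_test ht.1 hφT
  have hlam : 0 < lam δ := lam_pos h0 (lt_of_le_of_lt h2 (by norm_num))
  have hlℓ : lam (1 / 2) ≤ lam δ := by
    unfold lam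
    exact neg_le_neg (Real.log_le_log h0 h2)
  -- the estimate on `[s, t]`
  have hst : ∀ s, 0 < s → s ≤ t → pairU φ δ f t ≤ pairU φ δ f s + K * (C₁ * CM * t * lam δ) := by
    intro s hs hst
    have hpd := pairU_diff hf h0 h1 hφc hφb hφR hφp hs hst ht.2
    have hsI := (ren_ftc hf h0 h1 hφc hφb hφp hs hst ht.2).1
    have hkI := Evo_kap_int hf q (s := s) hs.le ht.2
    have hk1 : ∫ p, kap q (f p.1 p.2) ∂(st d s t) ≤ CM * t := by
      refine (Evo_kap_tot hf hG hkt hs.le hst ht.2).trans ?_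
      have : t - s ≤ t := by linarith
      nlinarith
    have hle : -∫ p, src Q δ (f p.1 p.2) (fun v => φ (v, p.2 - p.1 • v)) ∂(st d s t) ≤
        ∫ p, (K * (C₁ * lam δ) * kap q (f p.1 p.2)) ∂(st d s t) := by
      rw [← integral_neg]
      refine integral_mono_ae hsI.neg (hkI.const_mul _) ?_
      filter_upwards [Evo_ae (d := d) s t] with p hp
      have hτ' : p.1 ∈ Ioo 0 T := ⟨lt_of_lt_of_le hs hp.1, lt_of_le_of_lt hp.2 ht.2⟩
      have hnn : ∀ v, 0 ≤ f p.1 p.2 v := fun v => hf.nonneg p.1 ⟨hτ'.1.le, hτ'.2⟩ p.2 v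
      have hsl := sol_slice hf (t := p.1) ⟨hτ'.1.le, hτ'.2⟩
      have hcv : Continuous (f p.1 p.2) :=
        hsl.cont.comp (Continuous.prodMk continuous_const continuous_id)
      have h3 := hdr δ ⟨h0, h2⟩ (f p.1 p.2) (sol_nice hf hτ' p.2) hnn K
        (fun v => φ (v, p.2 - p.1 • v))
        (hφT p.1 ⟨hs.le.trans hp.1, hp.2⟩ p.2) (fun v => hφ0 _)
      have h4 := ub_le h0 h1 hR'.le hcv hnn
      have h5 : C ≤ C / lam (1 / 2) * lam δ := by
        rw [div_mul_eq_mul_div, le_div_iff₀ hℓ]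
        exact mul_le_mul_of_nonneg_left hlℓ hC
      have h6 : C * (1 + ub δ R' (f p.1 p.2)) + 1 * lam δ ≤ C₁ * lam δ := by
        have h7 := mul_le_mul_of_nonneg_left h4 hC
        have h8 : C₁ * lam δ = C / lam (1 / 2) * lam δ + C * ((2 * R') ^ d * lam δ) +
            1 * lam δ := by
          rw [hC₁]; ring
        rw [h8]
        linarith
      have h9 : 0 ≤ K * kap q (f p.1 p.2) := mul_nonneg hK (kap_nonneg q hnn)
      have h10 := mul_le_mul_of_nonneg_left h6 h9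
      change -src Q δ (f p.1 p.2) (fun v => φ (v, p.2 - p.1 • v)) ≤
        K * (C₁ * lam δ) * kap q (f p.1 p.2)
      have h11 : K * (C₁ * lam δ) * kap q (f p.1 p.2) = K * kap q (f p.1 p.2) * (C₁ * lam δ) := by
        ring
      rw [h11]
      linarith
    rw [integral_const_mul] at hle
    have h12 := mul_le_mul_of_nonneg_left hk1 (show 0 ≤ K * (C₁ * lam δ) by positivity)
    have h13 : K * (C₁ * lam δ) * (CM * t) = K * (C₁ * CM * t * lam δ) := by ring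
    rw [h13] at h12
    linarith
  rcases eq_or_lt_of_le ht.1 with h3 | h3
  · rw [← h3]
    have : K * (C₁ * CM * 0 * lam δ) = 0 := by ring
    rw [this, add_zero]
  · have hc := pairU_cont hf h0 h1 hφc hφb hφR hφp
    have h4 : Tendsto (pairU φ δ f) (𝓝[>] 0) (𝓝 (pairU φ δ f 0)) := by
      have h5 := hc 0 ⟨le_rfl, lt_of_le_of_lt ht.1 ht.2⟩
      refine h5.mono_left ?_
      have h6 : 𝓝[Ico 0 T] (0 : ℝ) = 𝓝[Ici 0] 0 :=
        nhdsWithin_Ico_eq_nhdsGE (lt_of_le_of_lt ht.1 ht.2)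
      rw [h6]
      exact nhdsWithin_mono _ Ioi_subset_Ici_self
    refine ge_of_tendsto (h4.add_const (K * (C₁ * CM * t * lam δ))) ?_
    filter_upwards [Ioc_mem_nhdsGT h3] with s hs
    exact hst s hs.1 hs.2

end Pool.Agent.H15.AV
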