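import Pool.Agent.H15.AV.Evo
import Pool.Agent.H15.AV.One
import Pool.Agent.H15.AV.AvA

/-!
# No vacuum in measure, at times `t ≥ h`

MODULE Fin. See the worklog of MP_c15324_an, step (VI).
-/

set_option autoImplicit false

open MeasureTheory Set Filter Topology Pool.Agent.H25.Kin

namespace Pool.Agent.H15.AV

variable {d : ℕ} {q : ℝ} {Q : (Vec d → ℝ) → Vec d → ℝ}

/-- continuity of the velocity average in `(t,x)` -/
theorem gav_contOn {T : ℝ} {Q' f : ℝ → Vec d → Vec d → ℝ} (hf : IsClassicalSol T Q' f)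
    {χ : Vec d → ℝ} {R K : ℝ} (hR : 0 < R) (hχ : Tst R K χ) :
    ContinuousOn (fun p : ℝ × Vec d => gav χ f p.1 p.2) (Ico 0 T ×ˢ univ) := by
  have hχc := hχ.smooth.continuous
  refine cont_int (G := fun t x v => χ v * kf (1 / 2) (f t x v)) ?_ ?_
  · have h1 : ContinuousOn (fun p : ℝ × Vec d × Vec d => kf (1 / 2) (unc f p)) (Ico 0 T ×ˢ univ) := by
      intro p hp
      have hp0 : 0 ≤ unc f p := hf.nonneg p.1 hp.1 p.2.1 p.2.2
      have hk : ContinuousAt (kf (1 / 2)) (unc f p) :=
        (hasDerivAt_kf (by norm_num) (by norm_num) (by linarith)).continuousAt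
      exact hk.comp_continuousWithinAt (hf.isCont p hp)
    have h2 : ContinuousOn (fun p : ℝ × Vec d × Vec d => χ p.2.2) (Ico 0 T ×ˢ univ) :=
      (hχc.comp (continuous_snd.comp continuous_snd)).continuousOn
    exact h2.mul h1
  · intro t ht
    refine ⟨Ico 0 T, self_mem_nhdsWithin, K * (1 + R) ^ (d + 1), fun s hs x v => ?_⟩
    have hK : 0 ≤ K := (abs_nonneg _).trans (hχ.le0 0)
    have hR1 : 0 < 1 + R := by linarith
    by_cases hv : R ≤ ‖v‖
    · rw [hχ.supp v hv, zero_mul, abs_zero]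
      exact mul_nonneg (mul_nonneg hK (pow_nonneg hR1.le _)) (wt_nonneg v)
    · push Not at hv
      have h1 : |kf (1 / 2) (f s x v)| ≤ 1 := by
        have h0 := hf.nonneg s hs x v
        rw [abs_of_nonneg (kf_nonneg (by norm_num) (by norm_num) h0)]
        exact half_le_one h0
      have h2 : (1 : ℝ) ≤ (1 + R) ^ (d + 1) * wt d v := by
        unfold wt
        rw [← div_eq_mul_inv, le_div_iff₀ (pow_pos (w_pos v) _), one_mul]
        exact pow_le_pow_left₀ (w_pos v).le (by linarith) _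
      rw [abs_mul]
      calc |χ v| * |kf (1 / 2) (f s x v)| ≤ K * 1 :=
            mul_le_mul (hχ.le0 v) h1 (abs_nonneg _) hK
        _ ≤ K * ((1 + R) ^ (d + 1) * wt d v) := mul_le_mul_of_nonneg_left h2 hK
        _ = K * (1 + R) ^ (d + 1) * wt d v := by ring

/-- continuity in `(t,x)` of the averages -/
theorem av_contOn {I : Set ℝ} {g : ℝ → Vec d → ℝ} {A : ℝ} (r : ℝ)
    (hc : ContinuousOn (fun p : ℝ × Vec d => g p.1 p.2) (I ×ˢ univ))
    (hb : ∀ t ∈ I, ∀ x, |g t x| ≤ A) :
    ContinuousOn (fun p : ℝ × Vec d => av r (g p.1) p.2) (I ×ˢ univ) := by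
  unfold av
  refine continuousOn_of_dominated (bound := fun y => kb d y * A) ?_ ?_
    (kb_integrable.mul_const A) ?_
  · intro p hp
    have h1 : Continuous fun y : Vec d => g p.1 (p.2 - r • y) := by
      have h2 : Continuous fun y : Vec d => (p.1, p.2 - r • y) := by fun_prop
      exact hc.comp_continuous h2 fun y => ⟨hp.1, mem_univ _⟩
    exact (kb_cont.mul h1).aestronglyMeasurable
  · intro p hp
    refine Eventually.of_forall fun y => ?_
    rw [norm_mul, Real.norm_eq_abs, Real.norm_eq_abs, abs_of_nonneg (kb_nonneg y)]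
    exact mul_le_mul_of_nonneg_left (hb _ hp.1 _) (kb_nonneg y)
  · refine Eventually.of_forall fun y => ?_
    refine continuousOn_const.mul ?_
    have h1 : Continuous fun p : ℝ × Vec d => (p.1, p.2 - r • y) := by fun_prop
    exact hc.comp h1.continuousOn fun p hp => ⟨hp.1, mem_univ _⟩

theorem main_pos (hQ : FibTh q Q) (hq : 0 ≤ q) (hq2 : q < 2) {m : ℝ} (hm : 0 < m) (M : ℝ)
    {h ε : ℝ} (hh : 0 < h) (hε : 0 < ε) :
    ∃ δ > 0, ∀ (T : ℝ) (f : ℝ → Vec d → Vec d → ℝ),
      IsClassicalSol T (fun t x => Q (f t x)) f → (∀ t ∈ Ico 0 T, Glob m M (f t)) →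
      ∀ t ∈ Ico 0 T, h ≤ t → muD d {x | ∫ v, f t x v < δ} ≤ ENNReal.ofReal ε := by
  -- parameters
  set h' := min h 1 with hh'
  have hp' : 0 < h' := lt_min hh one_pos
  have hp1 : h' ≤ 1 := min_le_right _ _
  obtain ⟨c, hc, R₁, hR₁, hgl⟩ := gav_lower (d := d) hm M
  set R := max R₁ (4 / h') with hRdef
  have hR : 0 < R := lt_of_lt_of_le hR₁ (le_max_left _ _)
  have hR4 : 4 / h' ≤ R := le_max_right _ _
  obtain ⟨Kχ, χ, hχ, χ0, χ1, χR⟩ := exists_chi d hR
  have h2R : 0 < 2 * R := by linarith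
  have hKχ : 0 ≤ Kχ := (abs_nonneg _).trans (hχ.le0 0)
  set V := (4 * R) ^ d with hV
  have hV0 : 0 < V := by positivity
  obtain ⟨Cva, hCva, Hva⟩ := va_app hQ hq hq2 m M h2R hχ
  obtain ⟨Cs, hCs, Hs⟩ := av_smooth d
  have hcε : 0 < c * ε := mul_pos hc hε
  -- choice of rho
  obtain ⟨ρ, hρ0, hρ1, hρh, hρV⟩ : ∃ ρ : ℝ, 0 < ρ ∧ ρ ≤ 1 ∧ ρ ≤ h' / 4 ∧
      V * (Cva * ρ) * (4 / h') ≤ c * ε / 6 := by
    set B := V * Cva * (4 / h') with hB
    have hB0 : 0 ≤ B := by positivity
    refine ⟨min (h' / 4) (c * ε / 6 / (B + 1)), lt_min (by linarith) (by positivity), ?_,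
      min_le_left _ _, ?_⟩
    · exact (min_le_left _ _).trans (by linarith)
    · have h1 : min (h' / 4) (c * ε / 6 / (B + 1)) ≤ c * ε / 6 / (B + 1) := min_le_right _ _
      calc V * (Cva * min (h' / 4) (c * ε / 6 / (B + 1))) * (4 / h') =
            B * min (h' / 4) (c * ε / 6 / (B + 1)) := by rw [hB]; ring
        _ ≤ B * (c * ε / 6 / (B + 1)) := mul_le_mul_of_nonneg_left h1 hB0
        _ ≤ (B + 1) * (c * ε / 6 / (B + 1)) :=
            mul_le_mul_of_nonneg_right (by linarith) (by positivity)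
        _ = c * ε / 6 := by field_simp
  set r := ρ ^ 16 with hr
  have hr0 : 0 < r := pow_pos hρ0 _
  have hr1 : r ≤ 1 := pow_le_one₀ hρ0.le hρ1
  have hρ12 : ρ ^ 12 < h' / 2 := by
    have h1 : ρ ^ 12 ≤ ρ := pow_le_of_le_one hρ0.le hρ1 (by norm_num)
    linarith
  set K := 4 * Kχ * (V + Cs * V / r + Cs * V / r ^ 2) with hK
  have hK0 : 0 ≤ K := by positivity
  -- choice of the thresholds
  set ε₂ := min (c * ε / (12 * V)) (c * ε / (6 * V ^ 2)) with hε₂
  have hε₂0 : 0 < ε₂ := lt_min (by positivity) (by positivity)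
  obtain ⟨m₁, N, Cc, hm₁, hm₁ε, hCc, Hc⟩ := coupling (d := d) hq hq2 m M hε₂0
  obtain ⟨δ₁, hδ₁, hδ₁h, Hev⟩ := evol hQ hq hq2 m M h2R
    (η := c * ε / (6 * (K + 1))) (by positivity)
  obtain ⟨δ₂, hδ₂, hδ₂h, Hgd⟩ := good_small hQ hq hq2 m M h2R hm₁ N
    (η := c * ε * h' / (24 * V)) (by positivity)
  obtain ⟨δ₃, hδ₃, hδ₃h, Hlam⟩ := exists_lam_ge (6 * V / (c * ε))
  set δ := min δ₁ (min δ₂ δ₃) with hδ
  have hδ0 : 0 < δ := lt_min hδ₁ (lt_min hδ₂ hδ₃)
  have hδh : δ ≤ 1 / 2 := (min_le_left _ _).trans hδ₁h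
  refine ⟨δ, hδ0, fun T f hf hG t ht hht => ?_⟩
  have hht' : h' ≤ t := (min_le_left _ _).trans hht
  have hlam : 6 * V / (c * ε) ≤ lam δ :=
    Hlam δ ⟨hδ0, (min_le_right _ _).trans (min_le_right _ _)⟩
  have hlam0 : 0 < lam δ := lt_of_lt_of_le (by positivity) hlam
  -- the time interval
  set a := t - h' / 2 with ha
  set b := t - h' / 4 with hb
  have ha0 : h' / 2 ≤ a := by rw [ha]; linarith
  have hap : 0 < a := by linarith
  have hab : a ≤ b := by rw [ha, hb]; linarith
  have hbt : b < T := by rw [hb]; linarith [ht.2]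
  have hba : b - a = h' / 4 := by rw [ha, hb]; ring
  have hI : ∀ s ∈ Icc a b, s ∈ Ico 0 T := fun s hs => ⟨by linarith [hs.1], by linarith [hs.2]⟩
  -- the averages
  set g : ℝ → Vec d → ℝ := gav χ f with hg
  have hgcont : ContinuousOn (fun p : ℝ × Vec d => g p.1 p.2) (Ico 0 T ×ˢ univ) :=
    gav_contOn hf h2R hχ
  have hgb : ∀ s ∈ Ico 0 T, ∀ x, 0 ≤ g s x ∧ g s x ≤ V ∧ g s x ≤ 2 * ∫ v, f s x v := by
    intro s hs x
    exact gav_bounds (sol_slice hf hs) hR hχ χ0 χ1 x
  have hgabs : ∀ s ∈ Ico 0 T, ∀ x, |g s x| ≤ V := fun s hs x => by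
    rw [abs_of_nonneg (hgb s hs x).1]; exact (hgb s hs x).2.1
  have hgc : ∀ s ∈ Ico 0 T, Continuous (g s) := by
    intro s hs
    have h1 : Continuous fun x : Vec d => (s, x) := by fun_prop
    exact hgcont.comp_continuous h1 fun x => ⟨hs, mem_univ _⟩
  have hgp : ∀ s ∈ Ico 0 T, Per (g s) := by
    intro s hs x i
    show ∫ v, χ v * kf (1 / 2) (f s (x + Pi.single i 1) v) = ∫ v, χ v * kf (1 / 2) (f s x v)
    congr 1
    funext v
    rw [hf.periodic s hs x v i]
  -- the inequality for each s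
  set low : Set (ℝ × Vec d) := {p : ℝ × Vec d | ∫ v, f p.1 p.2 v < m₁} ∩ (Icc a b ×ˢ univ) with hlow
  have hlowm : MeasurableSet low := low_meas hf m₁ hap.le hbt
  set e : ℝ × Vec d → ℝ := low.indicator fun _ => 1 with he
  have hem : Measurable e := measurable_const.indicator hlowm
  have heb : ∀ p, |e p| ≤ 1 := by
    intro p
    by_cases hp : p ∈ low
    · rw [he, indicator_of_mem hp]; simp
    · rw [he, indicator_of_notMem hp]; simp
  have hep : ∀ s, Per fun x => e (s, x) := by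
    intro s x i
    by_cases hs : s ∈ Icc a b
    · have h1 : ((s, x + Pi.single i 1) ∈ low) ↔ ((s, x) ∈ low) := by
        have h2 : ∫ v, f s (x + Pi.single i 1) v = ∫ v, f s x v := by
          congr 1
          funext v
          rw [hf.periodic s (hI s hs) x v i]
        simp only [hlow, mem_inter_iff, mem_ofPred_eq, mem_prod, mem_univ, and_true]
        rw [h2]
      by_cases h3 : (s, x) ∈ low
      · simp only [he]
        rw [indicator_of_mem h3, indicator_of_mem (h1.2 h3)]
      · simp only [he]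
        rw [indicator_of_notMem h3, indicator_of_notMem fun h4 => h3 (h1.1 h4)]
    · have h1 : ∀ y : Vec d, (s, y) ∉ low := fun y hy => hs hy.2.1
      simp only [he]
      rw [indicator_of_notMem (h1 _), indicator_of_notMem (h1 _)]
  set G : ℝ → Vec d → ℝ := fun s => av r (g s) with hGdef
  have hGcont : ContinuousOn (fun p : ℝ × Vec d => G p.1 p.2) (Ico 0 T ×ˢ univ) :=
    av_contOn r hgcont hgabs
  have hGc : ∀ s ∈ Ico 0 T, Continuous (G s) := by
    intro s hs
    have h1 : Continuous fun x : Vec d => (s, x) := by fun_prop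
    exact hGcont.comp_continuous h1 fun x => ⟨hs, mem_univ _⟩
  have hG0 : ∀ s ∈ Ico 0 T, ∀ x, 0 ≤ G s x := fun s hs x => av_nonneg r (fun y => (hgb s hs y).1) x
  have hGV : ∀ s ∈ Ico 0 T, ∀ x, G s x ≤ V := fun s hs x =>
    (le_abs_self _).trans (av_abs_le r (hgabs s hs) x)
  have hGp : ∀ s ∈ Ico 0 T, Per (G s) := fun s hs => av_per r (hgp s hs)
  have hGi : ∀ s ∈ Ico 0 T, c ≤ ∫ x, G s x ∂(muD d) := by
    intro s hs
    rw [hGdef]
    show c ≤ ∫ x, av r (g s) x ∂(muD d)
    rw [av_int r (hgc s hs).measurable (hgabs s hs) (hgp s hs)]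
    exact hgl (f s) (sol_slice hf hs) (hG s hs) χ hχ.smooth.continuous χ0
      (fun v hv => (χR v (hv.trans (le_max_left _ _))).ge) ⟨2 * R, hχ.supp⟩
  set β := ((muD d) {x | ∫ v, f t x v < δ}).toReal with hβ
  have hβ0 : 0 ≤ β := ENNReal.toReal_nonneg
  set η₁ := c * ε / (6 * (K + 1)) with hη₁
  set A₁ : ℝ → ℝ := fun s => ∫ x, e (s, x) * G s x ∂(muD d) with hA₁
  set gd : Set (ℝ × Vec d) := {p : ℝ × Vec d | Good m₁ N (f p.1 p.2)} ∩ (Icc a b ×ˢ univ) with hgd
  have hgdm : MeasurableSet gd := good_meas hf m₁ N hap.le hbt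
  set A₂ : ℝ → ℝ := fun s => ∫ x, gd.indicator (fun p => ub δ (2 * R) (f p.1 p.2)) (s, x) ∂(muD d)
    with hA₂
  have hδ1 : δ ≤ 1 := by linarith
  have key : ∀ s ∈ Icc a b, β * (lam δ * c) ≤
      V + K * (η₁ * lam δ) + (V * lam δ * A₁ s + V * A₂ s + V * (V * lam δ) * ε₂) := by
    intro s hs
    have hsI := hI s hs
    have hts : t - s ≤ h' / 2 := by rw [ha] at hs; linarith [hs.1]
    have hts2 : h' / 4 ≤ t - s := by rw [hb] at hs; linarith [hs.2]
    have hτ0 : 0 < t - s := by linarith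
    have hτ1 : t - s ≤ 1 := by linarith
    have hτR : 1 / 2 ≤ (t - s) * R := by
      have h1 : h' / 4 * (4 / h') ≤ (t - s) * R :=
        mul_le_mul hts2 hR4 (by positivity) hτ0.le
      have h2 : h' / 4 * (4 / h') = 1 := by field_simp
      linarith
    -- the test function
    set φ : Vec d × Vec d → ℝ := fun p => χ p.1 * G s (p.2 + s • p.1) with hφ
    have hφc : Continuous φ := by
      refine (hχ.smooth.continuous.comp continuous_fst).mul ?_
      exact (hGc s hsI).comp (by fun_prop)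
    have hφ0 : ∀ p, 0 ≤ φ p := fun p => mul_nonneg (χ0 _) (hG0 s hsI _)
    have hφp : ∀ v, Per fun y => φ (v, y) := by
      intro v y i
      show χ v * G s (y + Pi.single i 1 + s • v) = χ v * G s (y + s • v)
      rw [add_right_comm, hGp s hsI]
    have hφT : ∀ τ ∈ Icc s t, ∀ x, Tst (2 * R) K fun v => φ (v, x - τ • v) := by
      intro τ hτ x
      obtain ⟨s1, s2, s3⟩ := Hs r ⟨hr0, hr1⟩ (g s) (hgc s hsI).measurable V (hgabs s hsI)
      have h1 := tst_mul_comp hχ s1 (B₀ := V) (B₁ := Cs * V / r) (B₂ := Cs * V / r ^ 2)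
        (av_abs_le r (hgabs s hsI)) s2 s3 x (s - τ)
      have h2 : (fun v => φ (v, x - τ • v)) = fun v => χ v * av r (g s) (x + (s - τ) • v) := by
        funext v
        show χ v * av r (g s) (x - τ • v + s • v) = _
        congr 2
        rw [sub_smul]
        abel
      rw [h2]
      have h3 : |s - τ| ≤ 1 := by
        rw [abs_le]
        constructor <;> linarith [hτ.1, hτ.2]
      have h4 : (s - τ) ^ 2 ≤ 1 := by
        rw [← sq_abs]
        exact pow_le_one₀ (abs_nonneg _) h3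
      have h5 : 4 * Kχ * (V + |s - τ| * (Cs * V / r) + (s - τ) ^ 2 * (Cs * V / r ^ 2)) ≤ K := by
        rw [hK]
        have h6 : |s - τ| * (Cs * V / r) ≤ 1 * (Cs * V / r) :=
          mul_le_mul_of_nonneg_right h3 (by positivity)
        have h7 : (s - τ) ^ 2 * (Cs * V / r ^ 2) ≤ 1 * (Cs * V / r ^ 2) :=
          mul_le_mul_of_nonneg_right h4 (by positivity)
        exact mul_le_mul_of_nonneg_left (by linarith) (by positivity)
      exact ⟨h1.smooth, h1.supp, fun v => (h1.le0 v).trans h5, fun v => (h1.le1 v).trans h5,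
        fun v => (h1.le2 v).trans h5⟩
    have e1 := Hev δ ⟨hδ0, min_le_left _ _⟩ T f hf hG s t (by linarith [hs.1])
      (by linarith) (by linarith) ht.2 K φ hφc hφ0 hφp hφT
    have e2 := lower_t (sol_slice hf ht) hδ0 hδh hR hχ χ0 χ1 χR hτ0 hτ1 hτR (hGc s hsI)
      (hG0 s hsI) (hGV s hsI) (hGp s hsI)
    have e3 := upper_s (sol_slice hf hsI) hδ0 hδh hR hχ χ0 χ1 (hGc s hsI)
      (hG0 s hsI) (hGV s hsI) (hGp s hsI) m₁ N
    have p1 : pairU φ δ f t =
        ∫ q, χ q.1 * G s (q.2 - (t - s) • q.1) * uf δ (f t q.2 q.1) ∂(nu d) := by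
      unfold pairU
      congr 1
      funext p
      show χ p.1 * G s (p.2 - t • p.1 + s • p.1) * _ = _
      congr 3
      rw [sub_smul]
      abel
    have p2 : pairU φ δ f s = ∫ q, χ q.1 * G s q.2 * uf δ (f s q.2 q.1) ∂(nu d) := by
      unfold pairU
      congr 1
      funext p
      show χ p.1 * G s (p.2 - s • p.1 + s • p.1) * _ = _
      rw [sub_add_cancel]
    -- the three terms of `e3`
    have q1 : ∫ x in {x | ∫ v, f s x v < m₁}, G s x ∂(muD d) = A₁ s := by
      have hm1 : MeasurableSet {x : Vec d | ∫ v, f s x v < m₁} := by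
        have h1 : {x : Vec d | ∫ v, f s x v < m₁} = (fun x => (s, x)) ⁻¹' low := by
          ext x
          simp only [hlow, mem_preimage, mem_inter_iff, mem_ofPred_eq, mem_prod, mem_univ, and_true]
          exact ⟨fun h2 => ⟨h2, hs⟩, fun h2 => h2.1⟩
        rw [h1]
        exact hlowm.preimage measurable_prodMk_left
      rw [← integral_indicator hm1, hA₁]
      congr 1
      funext x
      by_cases hx : ∫ v, f s x v < m₁
      · rw [indicator_of_mem (show x ∈ {x : Vec d | ∫ v, f s x v < m₁} from hx)]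
        have h1 : (s, x) ∈ low := ⟨hx, hs, mem_univ _⟩
        show _ = e (s, x) * G s x
        rw [he, indicator_of_mem h1, one_mul]
      · rw [indicator_of_notMem (show x ∉ {x : Vec d | ∫ v, f s x v < m₁} from hx)]
        have h1 : (s, x) ∉ low := fun h2 => hx h2.1
        show _ = e (s, x) * G s x
        rw [he, indicator_of_notMem h1, zero_mul]
    have q2 : ∫ x in {x | Good m₁ N (f s x)}, ub δ (2 * R) (f s x) ∂(muD d) = A₂ s := by
      have hm1 : MeasurableSet {x : Vec d | Good m₁ N (f s x)} := by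
        have h1 : {x : Vec d | Good m₁ N (f s x)} = (fun x => (s, x)) ⁻¹' gd := by
          ext x
          simp only [hgd, mem_preimage, mem_inter_iff, mem_ofPred_eq, mem_prod, mem_univ, and_true]
          exact ⟨fun h2 => ⟨h2, hs⟩, fun h2 => h2.1⟩
        rw [h1]
        exact hgdm.preimage measurable_prodMk_left
      rw [← integral_indicator hm1, hA₂]
      congr 1
      funext x
      by_cases hx : Good m₁ N (f s x)
      · rw [indicator_of_mem (show x ∈ {x : Vec d | Good m₁ N (f s x)} from hx)]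
        have h1 : (s, x) ∈ gd := ⟨hx, hs, mem_univ _⟩
        rw [indicator_of_mem h1]
      · rw [indicator_of_notMem (show x ∉ {x : Vec d | Good m₁ N (f s x)} from hx)]
        have h1 : (s, x) ∉ gd := fun h2 => hx h2.1
        rw [indicator_of_notMem h1]
    have q3 : ((muD d) {x | m₁ ≤ (∫ v, f s x v) ∧ ¬ Good m₁ N (f s x)}).toReal ≤ ε₂ :=
      ENNReal.toReal_le_of_le_ofReal hε₂0.le (Hc (f s) (sol_slice hf hsI) (hG s hsI)).2
    have q4 : β * (lam δ * c) ≤ β * (lam δ * ∫ y, G s y ∂(muD d)) :=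
      mul_le_mul_of_nonneg_left (mul_le_mul_of_nonneg_left (hGi s hsI) hlam0.le) hβ0
    have q5 : V * (V * lam δ) * ((muD d) {x | m₁ ≤ (∫ v, f s x v) ∧ ¬ Good m₁ N (f s x)}).toReal ≤
        V * (V * lam δ) * ε₂ := mul_le_mul_of_nonneg_left q3 (by positivity)
    rw [q1, q2, ← hV] at e3
    rw [← p2] at e3
    rw [← p1] at e2
    linarith
  -- integrability in space-time
  have hsub : Icc a b ×ˢ (univ : Set (Vec d)) ⊆ Ico 0 T ×ˢ univ := fun p hp => ⟨hI _ hp.1, hp.2⟩
  have iG : Integrable (fun p : ℝ × Vec d => G p.1 p.2) (st d a b) :=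
    st_integrable (hGcont.mono hsub)
  have ig : Integrable (fun p : ℝ × Vec d => g p.1 p.2) (st d a b) :=
    st_integrable (hgcont.mono hsub)
  have iu : Integrable (fun p : ℝ × Vec d => ub δ (2 * R) (f p.1 p.2)) (st d a b) :=
    st_integrable ((ub_cont hf hδ0 hδ1 (2 * R)).mono hsub)
  have hemul : ∀ F : ℝ × Vec d → ℝ, Integrable F (st d a b) →
      Integrable (fun p => e p * F p) (st d a b) := by
    intro F hF
    have h1 : (fun p => e p * F p) = low.indicator F := by
      funext p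
      by_cases hp : p ∈ low
      · rw [he, indicator_of_mem hp, indicator_of_mem hp, one_mul]
      · rw [he, indicator_of_notMem hp, indicator_of_notMem hp, zero_mul]
    rw [h1]
    exact hF.indicator hlowm
  have ieG := hemul _ iG
  have ieg := hemul _ ig
  have iug : Integrable (gd.indicator fun p : ℝ × Vec d => ub δ (2 * R) (f p.1 p.2)) (st d a b) :=
    iu.indicator hgdm
  have hst_ae : ∀ᵐ p ∂(st d a b), p ∈ Icc a b ×ˢ (univ : Set (Vec d)) := by
    have h1 : ∀ᵐ s ∂(volume.restrict (Icc a b)), s ∈ Icc a b := ae_restrict_mem measurableSet_Icc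
    have h2 : (Icc a b ×ˢ (univ : Set (Vec d))) = Prod.fst ⁻¹' (Icc a b) := by
      ext p; simp
    rw [h2]
    exact Measure.quasiMeasurePreserving_fst.ae h1
  have I₁ : ∫ s in a..b, A₁ s = ∫ p, e p * G p.1 p.2 ∂(st d a b) :=
    (st_integral hab ieG).symm
  have I₂ : ∫ s in a..b, A₂ s = ∫ p, gd.indicator (fun p => ub δ (2 * R) (f p.1 p.2)) p ∂(st d a b) :=
    (st_integral hab iug).symm
  have J₁ : ∫ p, e p * G p.1 p.2 ∂(st d a b) ≤ Cva * ρ + 2 * m₁ * (b - a) := by
    have h1 : ∫ p, e p * G p.1 p.2 ∂(st d a b) =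
        ∫ p, e p * (G p.1 p.2 - g p.1 p.2) ∂(st d a b) + ∫ p, e p * g p.1 p.2 ∂(st d a b) := by
      have h0 : Integrable (fun p => e p * (G p.1 p.2 - g p.1 p.2)) (st d a b) := by
        refine (ieG.sub ieg).congr (Eventually.of_forall fun p => ?_)
        show e p * G p.1 p.2 - e p * g p.1 p.2 = _
        ring
      rw [← integral_add h0 ieg]
      congr 1
      funext p
      ring
    have h2 : ∫ p, e p * (G p.1 p.2 - g p.1 p.2) ∂(st d a b) ≤ Cva * ρ :=
      (le_abs_self _).trans (Hva T f hf hG ρ ⟨hρ0, hρ1⟩ a b (by linarith) hab (by linarith) hbt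
        e hem heb hep)
    have h3 : ∫ p, e p * g p.1 p.2 ∂(st d a b) ≤ ∫ _p, 2 * m₁ ∂(st d a b) := by
      have hfin : IsFiniteMeasure (st d a b) := ⟨by
        rw [st_univ hab]; exact ENNReal.ofReal_lt_top⟩
      refine integral_mono_ae ieg (integrable_const _) ?_
      filter_upwards [hst_ae] with p hp
      by_cases hpl : p ∈ low
      · rw [he, indicator_of_mem hpl, one_mul]
        have h4 := (hgb p.1 (hI _ hp.1) p.2).2.2
        have h5 : ∫ v, f p.1 p.2 v < m₁ := hpl.1
        linarith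
      · rw [he, indicator_of_notMem hpl, zero_mul]
        linarith
    have h4 : ∫ _p, 2 * m₁ ∂(st d a b) = 2 * m₁ * (b - a) := by
      rw [integral_const, smul_eq_mul, measureReal_def, st_univ hab,
        ENNReal.toReal_ofReal (by linarith)]
      ring
    linarith
  have J₂ : ∫ p, gd.indicator (fun p => ub δ (2 * R) (f p.1 p.2)) p ∂(st d a b) ≤
      c * ε * h' / (24 * V) * lam δ := by
    rw [integral_indicator hgdm]
    have h1 : ∫ p in gd, ub δ (2 * R) (f p.1 p.2) ∂(st d a b) =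
        ∫ p in {p : ℝ × Vec d | Good m₁ N (f p.1 p.2)}, ub δ (2 * R) (f p.1 p.2) ∂(st d a b) := by
      refine setIntegral_congr_set ?_
      filter_upwards [hst_ae] with p hp
      exact propext ⟨fun h2 => h2.1, fun h2 => ⟨h2, hp⟩⟩
    rw [h1]
    exact Hgd δ ⟨hδ0, (min_le_right _ _).trans (min_le_left _ _)⟩ T f hf hG a b hap hab
      (by linarith) hbt
  have v₁ : IntervalIntegrable A₁ volume a b := by
    rw [intervalIntegrable_iff_integrableOn_Icc_of_le hab]
    exact ieG.integral_prod_left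
  have v₂ : IntervalIntegrable A₂ volume a b := by
    rw [intervalIntegrable_iff_integrableOn_Icc_of_le hab]
    exact iug.integral_prod_left
  have vc : ∀ y : ℝ, IntervalIntegrable (fun _ => y) volume a b := fun y =>
    intervalIntegrable_const
  have hint : ∫ _s in a..b, β * (lam δ * c) ≤ ∫ s in a..b,
      (V + K * (η₁ * lam δ) + (V * lam δ * A₁ s + V * A₂ s + V * (V * lam δ) * ε₂)) := by
    refine intervalIntegral.integral_mono_on hab (vc _) ?_ key
    exact (vc _).add (((v₁.const_mul _).add (v₂.const_mul _)).add (vc _))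
  have hcomp : ∫ s in a..b,
      (V + K * (η₁ * lam δ) + (V * lam δ * A₁ s + V * A₂ s + V * (V * lam δ) * ε₂)) =
      (b - a) * (V + K * (η₁ * lam δ)) + (V * lam δ * (∫ s in a..b, A₁ s) +
        V * (∫ s in a..b, A₂ s) + (b - a) * (V * (V * lam δ) * ε₂)) := by
    rw [intervalIntegral.integral_add (vc _) (((v₁.const_mul _).add (v₂.const_mul _)).add (vc _)),
      intervalIntegral.integral_add ((v₁.const_mul _).add (v₂.const_mul _)) (vc _),
      intervalIntegral.integral_add (v₁.const_mul _) (v₂.const_mul _),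
      intervalIntegral.integral_const_mul, intervalIntegral.integral_const_mul,
      intervalIntegral.integral_const, intervalIntegral.integral_const, smul_eq_mul, smul_eq_mul]
  rw [hcomp, I₁, I₂, intervalIntegral.integral_const, smul_eq_mul] at hint
  -- conclusion
  have hfin : β * (lam δ * c) * (h' / 4) ≤ c * ε * lam δ * (h' / 4) := by
    rw [hba] at hint J₁
    have t1 : V * lam δ * (∫ p, e p * G p.1 p.2 ∂(st d a b)) ≤
        V * lam δ * (Cva * ρ + 2 * m₁ * (h' / 4)) :=
      mul_le_mul_of_nonneg_left J₁ (by positivity)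
    have t2 : V * (∫ p, gd.indicator (fun p => ub δ (2 * R) (f p.1 p.2)) p ∂(st d a b)) ≤
        V * (c * ε * h' / (24 * V) * lam δ) := mul_le_mul_of_nonneg_left J₂ hV0.le
    have t2' : V * (c * ε * h' / (24 * V) * lam δ) = c * ε / 6 * lam δ * (h' / 4) := by
      field_simp
      ring
    have t3 : V ≤ c * ε / 6 * lam δ := by
      have h1 : 6 * V / (c * ε) * (c * ε / 6) ≤ lam δ * (c * ε / 6) :=
        mul_le_mul_of_nonneg_right hlam (by positivity)
      have h2 : 6 * V / (c * ε) * (c * ε / 6) = V := by field_simp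
      linarith
    have t4 : K * (η₁ * lam δ) ≤ c * ε / 6 * lam δ := by
      have h1 : K * η₁ ≤ c * ε / 6 := by
        rw [hη₁]
        have h2 : K * (c * ε / (6 * (K + 1))) = c * ε / 6 * (K / (K + 1)) := by field_simp
        rw [h2]
        have h3 : K / (K + 1) ≤ 1 := (div_le_one (by linarith)).2 (by linarith)
        exact mul_le_of_le_one_right (by positivity) h3
      calc K * (η₁ * lam δ) = K * η₁ * lam δ := by ring
        _ ≤ _ := mul_le_mul_of_nonneg_right h1 hlam0.le
    have t5 : V * (V * lam δ) * ε₂ ≤ c * ε / 6 * lam δ := by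
      have h1 : ε₂ ≤ c * ε / (6 * V ^ 2) := min_le_right _ _
      calc V * (V * lam δ) * ε₂ ≤ V * (V * lam δ) * (c * ε / (6 * V ^ 2)) :=
            mul_le_mul_of_nonneg_left h1 (by positivity)
        _ = c * ε / 6 * lam δ := by field_simp
    have t6 : V * lam δ * (2 * m₁ * (h' / 4)) ≤ c * ε / 6 * lam δ * (h' / 4) := by
      have h1 : m₁ ≤ c * ε / (12 * V) := hm₁ε.trans (min_le_left _ _)
      have h2 : V * (2 * m₁) ≤ c * ε / 6 := by
        calc V * (2 * m₁) ≤ V * (2 * (c * ε / (12 * V))) :=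
              mul_le_mul_of_nonneg_left (by linarith) hV0.le
          _ = c * ε / 6 := by field_simp; ring
      calc V * lam δ * (2 * m₁ * (h' / 4)) = V * (2 * m₁) * (lam δ * (h' / 4)) := by ring
        _ ≤ c * ε / 6 * (lam δ * (h' / 4)) := mul_le_mul_of_nonneg_right h2 (by positivity)
        _ = _ := by ring
    have t7 : V * lam δ * (Cva * ρ) ≤ c * ε / 6 * lam δ * (h' / 4) := by
      have h1 : V * (Cva * ρ) ≤ c * ε / 6 * (h' / 4) := by
        have h2 : V * (Cva * ρ) * (4 / h') * (h' / 4) ≤ c * ε / 6 * (h' / 4) :=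
          mul_le_mul_of_nonneg_right hρV (by positivity)
        have h3 : V * (Cva * ρ) * (4 / h') * (h' / 4) = V * (Cva * ρ) := by field_simp
        linarith
      calc V * lam δ * (Cva * ρ) = V * (Cva * ρ) * lam δ := by ring
        _ ≤ c * ε / 6 * (h' / 4) * lam δ := mul_le_mul_of_nonneg_right h1 hlam0.le
        _ = _ := by ring
    have u1 : h' / 4 * (V + K * (η₁ * lam δ)) ≤ h' / 4 * (c * ε / 6 * lam δ + c * ε / 6 * lam δ) :=
      mul_le_mul_of_nonneg_left (by linarith) (by positivity)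
    have u2 : h' / 4 * (V * (V * lam δ) * ε₂) ≤ h' / 4 * (c * ε / 6 * lam δ) :=
      mul_le_mul_of_nonneg_left t5 (by positivity)
    have u3 : V * lam δ * (Cva * ρ + 2 * m₁ * (h' / 4)) =
        V * lam δ * (Cva * ρ) + V * lam δ * (2 * m₁ * (h' / 4)) := by ring
    rw [u3] at t1
    rw [t2'] at t2
    linarith
  have hβε : β ≤ ε := by
    have h1 : β * (lam δ * c * (h' / 4)) ≤ ε * (lam δ * c * (h' / 4)) := by
      calc β * (lam δ * c * (h' / 4)) = β * (lam δ * c) * (h' / 4) := by ring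
        _ ≤ c * ε * lam δ * (h' / 4) := hfin
        _ = _ := by ring
    exact le_of_mul_le_mul_right h1 (by positivity)
  exact (ENNReal.le_ofReal_iff_toReal_le (measure_ne_top _ _) hε.le).2 hβε

end Pool.Agent.H15.AV
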