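import Pool.Agent.H15.AV.Defs

/-!
# Calculus of the renormalization `kf δ`

MODULE Kfun. One-variable calculus. For `0 < δ ≤ 1` and `a ≥ 0`:
`kf δ a = log ((δ + a) / δ) - log (1 + a)`, `kd` is its derivative, `kd' = -(δ+a)⁻² + (1+a)⁻²`.
-/

set_option autoImplicit false

open MeasureTheory Set Filter Topology Pool.Agent.H25.Kin

namespace Pool.Agent.H15.AV

theorem kf_add_uf (δ a : ℝ) : kf δ a + uf δ a = lam δ := by
  unfold kf uf lam; ring

theorem lam_pos {δ : ℝ} (h0 : 0 < δ) (h1 : δ < 1) : 0 < lam δ := by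
  have := Real.log_neg h0 h1
  unfold lam
  linarith

/-- `lam δ → ∞` as `δ → 0`. -/
theorem exists_lam_ge (A : ℝ) : ∃ δ₀ > 0, δ₀ ≤ 1 / 2 ∧ ∀ δ ∈ Ioc (0 : ℝ) δ₀, A ≤ lam δ := by
  refine ⟨min (1 / 2) (Real.exp (-A)), lt_min (by norm_num) (Real.exp_pos _), min_le_left _ _, ?_⟩
  rintro δ ⟨h0, h1⟩
  have h2 : Real.log δ ≤ -A := by
    rw [Real.log_le_iff_le_exp h0]
    exact h1.trans (min_le_right _ _)
  unfold lam
  linarith

theorem kf_zero (δ : ℝ) : kf δ 0 = 0 := by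
  simp [kf]

theorem kf_nonneg {δ a : ℝ} (h0 : 0 < δ) (h1 : δ ≤ 1) (ha : 0 ≤ a) : 0 ≤ kf δ a := by
  have h2 : Real.log (δ * (1 + a)) = Real.log δ + Real.log (1 + a) :=
    Real.log_mul h0.ne' (by positivity)
  have h3 : Real.log (δ * (1 + a)) ≤ Real.log (δ + a) :=
    Real.log_le_log (by positivity) (by nlinarith)
  unfold kf
  linarith

theorem kf_le_lam {δ a : ℝ} (h0 : 0 < δ) (h1 : δ ≤ 1) (ha : 0 ≤ a) : kf δ a ≤ lam δ := by
  have h3 : Real.log (δ + a) ≤ Real.log (1 + a) :=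
    Real.log_le_log (by positivity) (by linarith)
  unfold kf lam
  linarith

theorem uf_nonneg {δ a : ℝ} (h0 : 0 < δ) (h1 : δ ≤ 1) (ha : 0 ≤ a) : 0 ≤ uf δ a := by
  have h3 := kf_le_lam h0 h1 ha
  have h4 := kf_add_uf δ a
  linarith

theorem uf_le_lam {δ a : ℝ} (h0 : 0 < δ) (h1 : δ ≤ 1) (ha : 0 ≤ a) : uf δ a ≤ lam δ := by
  have h3 := kf_nonneg h0 h1 ha
  have h4 := kf_add_uf δ a
  linarith

/-- `kf δ a ≤ a / δ` -/
theorem kf_le_div {δ a : ℝ} (h0 : 0 < δ) (h1 : δ ≤ 1) (ha : 0 ≤ a) : kf δ a ≤ a / δ := by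
  have h2 : Real.log ((δ + a) / δ) = Real.log (δ + a) - Real.log δ :=
    Real.log_div (by positivity) h0.ne'
  have h3 : Real.log ((δ + a) / δ) ≤ (δ + a) / δ - 1 :=
    Real.log_le_sub_one_of_pos (by positivity)
  have h4 : (δ + a) / δ - 1 = a / δ := by field_simp; ring
  have h5 : 0 ≤ Real.log (1 + a) := Real.log_nonneg (by linarith)
  unfold kf
  linarith

/-- `uf δ a ≤ log (1 + 1/ℓ)` for `a ≥ ℓ` -/
theorem uf_le {δ a ℓ : ℝ} (h0 : 0 < δ) (hℓ : 0 < ℓ) (ha : ℓ ≤ a) :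
    uf δ a ≤ Real.log (1 + 1 / ℓ) := by
  have ha0 : 0 < a := lt_of_lt_of_le hℓ ha
  have h1 : Real.log a ≤ Real.log (δ + a) := Real.log_le_log ha0 (by linarith)
  have h2 : Real.log ((1 + a) / a) = Real.log (1 + a) - Real.log a :=
    Real.log_div (by positivity) ha0.ne'
  have h3 : Real.log ((1 + a) / a) ≤ Real.log (1 + 1 / ℓ) := by
    refine Real.log_le_log (by positivity) ?_
    have h4 : (1 + a) / a = 1 + 1 / a := by field_simp; ring
    rw [h4]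
    have := one_div_le_one_div_of_le hℓ ha
    linarith
  unfold uf
  linarith

theorem half_lower {a : ℝ} (ha : 0 ≤ a) : a / (1 + 2 * a) ≤ kf (1 / 2) a := by
  have h1 : Real.log ((1 + 2 * a) / (1 + a)) = Real.log (1 + 2 * a) - Real.log (1 + a) :=
    Real.log_div (by positivity) (by positivity)
  have h2 : Real.log ((1 + 2 * a) * (1 / 2)) = Real.log (1 + 2 * a) + Real.log (1 / 2) :=
    Real.log_mul (by positivity) (by norm_num)
  have h3 : (1 + 2 * a) * (1 / 2) = 1 / 2 + a := by ring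
  have h4 := Real.one_sub_inv_le_log_of_pos (show 0 < (1 + 2 * a) / (1 + a) by positivity)
  have h5 : 1 - ((1 + 2 * a) / (1 + a))⁻¹ = a / (1 + 2 * a) := by
    rw [inv_div]
    field_simp
    ring
  rw [h3] at h2
  unfold kf
  linarith

theorem half_le_one {a : ℝ} (ha : 0 ≤ a) : kf (1 / 2) a ≤ 1 := by
  refine (kf_le_lam (by norm_num) (by norm_num) ha).trans ?_
  unfold lam
  rw [one_div, Real.log_inv, neg_neg]
  linarith [Real.log_two_lt_d9]

theorem hasDerivAt_kf {δ a : ℝ} (h0 : 0 < δ) (h1 : δ ≤ 1) (ha : -δ < a) :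
    HasDerivAt (kf δ) (kd δ a) a := by
  have h2 : HasDerivAt (fun a => Real.log (δ + a)) (δ + a)⁻¹ a := by
    have := ((hasDerivAt_id a).const_add δ).log (show δ + id a ≠ 0 by simp; linarith)
    simpa using this
  have h3 : HasDerivAt (fun a => Real.log (1 + a)) (1 + a)⁻¹ a := by
    have := ((hasDerivAt_id a).const_add 1).log (show 1 + id a ≠ 0 by simp; linarith)
    simpa using this
  exact (h2.sub_const _).sub h3

theorem hasDerivAt_kd {δ a : ℝ} (h0 : 0 < δ) (h1 : δ ≤ 1) (ha : -δ < a) :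
    HasDerivAt (kd δ) (-((δ + a) ^ 2)⁻¹ + ((1 + a) ^ 2)⁻¹) a := by
  have h2 := ((hasDerivAt_id a).const_add δ).fun_inv (show δ + id a ≠ 0 by simp; linarith)
  have h3 := ((hasDerivAt_id a).const_add 1).fun_inv (show 1 + id a ≠ 0 by simp; linarith)
  refine (h2.sub h3).congr_deriv ?_
  simp only [id]
  rw [div_eq_mul_inv, div_eq_mul_inv]
  ring

theorem kd_nonneg {δ a : ℝ} (h0 : 0 < δ) (h1 : δ ≤ 1) (ha : 0 ≤ a) : 0 ≤ kd δ a := by
  have : (1 + a)⁻¹ ≤ (δ + a)⁻¹ := inv_anti₀ (by positivity) (by linarith)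
  unfold kd
  linarith

theorem kd_le {δ a : ℝ} (h0 : 0 < δ) (h1 : δ ≤ 1) (ha : 0 ≤ a) : kd δ a ≤ 1 / δ := by
  have h2 : 0 < (1 + a)⁻¹ := by positivity
  have h3 : (δ + a)⁻¹ ≤ δ⁻¹ := inv_anti₀ h0 (by linarith)
  unfold kd
  rw [one_div]
  linarith

theorem mul_kd_le {δ a : ℝ} (h0 : 0 < δ) (h1 : δ ≤ 1) (ha : 0 ≤ a) : a * kd δ a ≤ 1 := by
  have h2 : 0 < (1 + a)⁻¹ := by positivity
  have h4 : a * (δ + a)⁻¹ ≤ 1 := by
    rw [← div_eq_mul_inv, div_le_one (by positivity)]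
    linarith
  have h5 : 0 ≤ a * (1 + a)⁻¹ := by positivity
  unfold kd
  rw [mul_sub]
  linarith

/-- `kf'' ≤ - kf'²` -/
theorem kdd_le {δ a : ℝ} (h0 : 0 < δ) (h1 : δ ≤ 1) (ha : 0 ≤ a) :
    -((δ + a) ^ 2)⁻¹ + ((1 + a) ^ 2)⁻¹ ≤ -(kd δ a) ^ 2 := by
  have h2 : 0 < (1 + a)⁻¹ := by positivity
  have h3 : (1 + a)⁻¹ ≤ (δ + a)⁻¹ := inv_anti₀ (by positivity) (by linarith)
  unfold kd
  rw [← inv_pow, ← inv_pow]
  nlinarith

/-- `kf δ` is monotone on `[0,∞)` -/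
theorem kf_mono {δ a b : ℝ} (h0 : 0 < δ) (h1 : δ ≤ 1) (ha : 0 ≤ a) (hab : a ≤ b) :
    kf δ a ≤ kf δ b := by
  have hb : 0 ≤ b := ha.trans hab
  have h2 : Real.log ((δ + a) * (1 + b)) = Real.log (δ + a) + Real.log (1 + b) :=
    Real.log_mul (by positivity) (by positivity)
  have h3 : Real.log ((δ + b) * (1 + a)) = Real.log (δ + b) + Real.log (1 + a) :=
    Real.log_mul (by positivity) (by positivity)
  have h4 : Real.log ((δ + a) * (1 + b)) ≤ Real.log ((δ + b) * (1 + a)) :=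
    Real.log_le_log (by positivity) (by nlinarith [mul_nonneg (sub_nonneg.2 hab) (sub_nonneg.2 h1)])
  unfold kf
  linarith

/-- smoothness on `(-δ, ∞)` -/
theorem contDiffAt_kf {δ a : ℝ} (h0 : 0 < δ) (h1 : δ ≤ 1) (ha : -δ < a) {n : WithTop ℕ∞} :
    ContDiffAt ℝ n (kf δ) a := by
  have h2 : δ + a ≠ 0 := by linarith
  have h3 : 1 + a ≠ 0 := by linarith
  have h4 : ContDiffAt ℝ n (fun a : ℝ => δ + a) a := by fun_prop
  have h5 : ContDiffAt ℝ n (fun a : ℝ => 1 + a) a := by fun_prop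
  exact ((h4.log h2).sub contDiffAt_const).sub (h5.log h3)

theorem contDiffAt_kd {δ a : ℝ} (h0 : 0 < δ) (h1 : δ ≤ 1) (ha : -δ < a) {n : WithTop ℕ∞} :
    ContDiffAt ℝ n (kd δ) a := by
  have h2 : δ + a ≠ 0 := by linarith
  have h3 : 1 + a ≠ 0 := by linarith
  have h4 : ContDiffAt ℝ n (fun a : ℝ => δ + a) a := by fun_prop
  have h5 : ContDiffAt ℝ n (fun a : ℝ => 1 + a) a := by fun_prop
  exact (h4.inv h2).sub (h5.inv h3)

theorem measurable_kf (δ : ℝ) : Measurable (kf δ) := by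
  unfold kf; fun_prop

theorem measurable_kd (δ : ℝ) : Measurable (kd δ) := by
  unfold kd; fun_prop

theorem measurable_uf (δ : ℝ) : Measurable (uf δ) := by
  unfold uf; fun_prop

end Pool.Agent.H15.AV
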