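import Pool.Agent.H15.AV.SlcB
import Pool.Agent.H82.LK.Alg

/-!
# The diffusion matrix of the Landau operator

MODULE LCo. `ab γ g i j = a_ij * g`. Positive semidefinite because
`∑ a_ij(z) ξ_i ξ_j = (|z|² |ξ|² - (z·ξ)²) |z|^γ ≥ 0`; bound `|a_ij(z)| ≤ 2 |z|^(γ+2)` (`landauA_le`)
and `|v-w|^(γ+2) ≤ C_R (1+‖w‖)^(γ+2)` for `‖v‖ ≤ R`; derivatives by `Kern.conv_hasFDerivAt`.
-/

set_option autoImplicit false

open MeasureTheory Set Filter Topology Pool.Agent.H25.Kin

namespace Pool.Agent.H15.AV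

variable {d : ℕ} {γ : ℝ}

/-- the diffusion matrix, `(a_ij * g)(v)` -/
noncomputable def ab (γ : ℝ) (g : Vec d → ℝ) (i j : Fin d) (v : Vec d) : ℝ :=
  conv (fun z => landauA γ z i j) g v

/-- `∑ a_ij(z) ξ_i ξ_j = (|z|²|ξ|² - (z·ξ)²) |z|^γ` -/
theorem landauA_form (γ : ℝ) (z ξ : Vec d) :
    ∑ i, ∑ j, landauA γ z i j * (ξ i * ξ j) =
      (nsq z * nsq ξ - (∑ i, z i * ξ i) ^ 2) * nsq z ^ (γ / 2) := by
  have h1 : ∀ i j, landauA γ z i j * (ξ i * ξ j) =
      ((if i = j then nsq z * ξ i ^ 2 else 0) - (z i * ξ i) * (z j * ξ j)) * nsq z ^ (γ / 2) := by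
    intro i j
    unfold landauA
    by_cases h : i = j
    · subst h
      rw [if_pos rfl, if_pos rfl]
      ring
    · rw [if_neg h, if_neg h]
      ring
  have h2 : ∀ i, ∑ j, landauA γ z i j * (ξ i * ξ j) =
      (nsq z * ξ i ^ 2 - (z i * ξ i) * ∑ j, z j * ξ j) * nsq z ^ (γ / 2) := by
    intro i
    rw [Finset.sum_congr rfl fun j _ => h1 i j, ← Finset.sum_mul, Finset.sum_sub_distrib,
      Finset.sum_ite_eq, if_pos (Finset.mem_univ i), Finset.mul_sum]
  rw [Finset.sum_congr rfl fun i _ => h2 i, ← Finset.sum_mul, Finset.sum_sub_distrib,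
    ← Finset.mul_sum, ← Finset.sum_mul, sq (∑ i, z i * ξ i)]
  rfl

private theorem lco_symm (γ : ℝ) (z : Vec d) (i j : Fin d) :
    landauA γ z i j = landauA γ z j i := by
  unfold landauA
  by_cases h : i = j
  · subst h
    rfl
  · rw [if_neg h, if_neg (Ne.symm h), mul_comm (z i)]

private theorem lco_ab_symm (γ : ℝ) (g : Vec d → ℝ) (i j : Fin d) (v : Vec d) :
    ab γ g i j v = ab γ g j i v := by
  unfold ab conv
  refine integral_congr_ae (Eventually.of_forall fun z => ?_)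
  simp only
  rw [lco_symm]

private theorem lco_form (h1 : -2 < γ) (h2 : γ ≤ 0) {g : Vec d → ℝ} (hg : Nice g)
    (v ξ ζ : Vec d) : ∑ i, ∑ j, ab γ g i j v * (ξ i * ζ j) =
      ∫ z, (∑ i, ∑ j, landauA γ z i j * (ξ i * ζ j)) * g (v - z) := by
  have hi : ∀ i j, Integrable fun z => landauA γ z i j * (ξ i * ζ j) * g (v - z) := by
    intro i j
    have h3 := ((kern_landauA (d := d) h1 h2 i j).integrable hg.cont hg.rd v).const_mul (ξ i * ζ j)
    refine h3.congr (Eventually.of_forall fun z => ?_)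
    simp only [smul_eq_mul]
    ring
  have e : ∀ i j, ab γ g i j v * (ξ i * ζ j) =
      ∫ z, landauA γ z i j * (ξ i * ζ j) * g (v - z) := by
    intro i j
    unfold ab conv
    rw [← integral_mul_const]
    refine integral_congr_ae (Eventually.of_forall fun z => ?_)
    simp only [smul_eq_mul]
    ring
  rw [Finset.sum_congr rfl fun i _ => Finset.sum_congr rfl fun j _ => e i j]
  have e2 : ∀ z, (∑ i, ∑ j, landauA γ z i j * (ξ i * ζ j)) * g (v - z) =
      ∑ i, ∑ j, landauA γ z i j * (ξ i * ζ j) * g (v - z) := by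
    intro z
    rw [Finset.sum_mul]
    exact Finset.sum_congr rfl fun i _ => Finset.sum_mul _ _ _
  rw [integral_congr_ae (Eventually.of_forall e2),
    integral_finsetSum _ fun i _ => integrable_finsetSum _ fun j _ => hi i j]
  exact Finset.sum_congr rfl fun i _ => (integral_finsetSum _ fun j _ => hi i j).symm

theorem ab_psd (h1 : -2 < γ) (h2 : γ ≤ 0) {g : Vec d → ℝ} (hg : Nice g) (h0 : ∀ v, 0 ≤ g v)
    (v ξ : Vec d) : 0 ≤ ∑ i, ∑ j, ab γ g i j v * (ξ i * ξ j) := by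
  rw [lco_form h1 h2 hg]
  refine integral_nonneg fun z => ?_
  rw [landauA_form]
  refine mul_nonneg (mul_nonneg ?_ (Real.rpow_nonneg (sq_nonneg' z) _)) (h0 _)
  have := Finset.sum_mul_sq_le_sq_mul_sq Finset.univ (fun i => z i) (fun i => ξ i)
  unfold nsq
  linarith

private theorem lco_rpow (h1 : -2 < γ) (z : Vec d) :
    nsq z * nsq z ^ (γ / 2) ≤ (d : ℝ) ^ (1 + γ / 2) * (1 + ‖z‖) ^ (γ + 2) := by
  have h0 := sq_nonneg' z
  rcases h0.eq_or_lt with h | h
  · rw [← h, zero_mul]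
    exact mul_nonneg (Real.rpow_nonneg (Nat.cast_nonneg d) _) (Real.rpow_nonneg (w_pos z).le _)
  · have e : nsq z * nsq z ^ (γ / 2) = nsq z ^ (1 + γ / 2) := by
      rw [Real.rpow_add h, Real.rpow_one]
    have hp : 0 ≤ 1 + γ / 2 := by linarith
    rw [e]
    calc nsq z ^ (1 + γ / 2) ≤ (d * ‖z‖ ^ 2) ^ (1 + γ / 2) :=
          Real.rpow_le_rpow h0 (sq_le z) hp
      _ ≤ (d * (1 + ‖z‖) ^ 2) ^ (1 + γ / 2) := by
          refine Real.rpow_le_rpow (by positivity) ?_ hp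
          gcongr
          linarith
      _ = (d : ℝ) ^ (1 + γ / 2) * (1 + ‖z‖) ^ (γ + 2) := by
          rw [Real.mul_rpow (Nat.cast_nonneg d) (by positivity), ← Real.rpow_natCast (1 + ‖z‖) 2,
            ← Real.rpow_mul (w_pos z).le]
          congr 2
          push_cast
          ring

private theorem lco_int (h2 : γ ≤ 0) {g : Vec d → ℝ} (hg : Nice g) :
    Integrable fun w => g w * (1 + ‖w‖) ^ (γ + 2) := by
  have hc : Continuous fun w : Vec d => (1 + ‖w‖) ^ (γ + 2) := by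
    refine Continuous.rpow_const (by fun_prop) fun w => Or.inl (w_pos w).ne'
  have hp : PG fun w : Vec d => (1 + ‖w‖) ^ (γ + 2) := by
    refine ⟨2, 1, fun w => ?_⟩
    rw [Real.norm_eq_abs, abs_of_nonneg (Real.rpow_nonneg (w_pos w).le _), one_mul]
    rw [← Real.rpow_natCast (1 + ‖w‖) 2]
    exact Real.rpow_le_rpow_of_exponent_le (one_le_w w) (by push_cast; linarith)
  exact (hg.rd.mul_PG hp).integrable (hg.cont.mul hc).aestronglyMeasurable

theorem ab_le (h1 : -2 < γ) (h2 : γ ≤ 0) {R : ℝ} (hR : 0 < R) : ∃ C : ℝ, 0 ≤ C ∧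
    ∀ g : Vec d → ℝ, Nice g → (∀ v, 0 ≤ g v) → ∀ (i j : Fin d) (v : Vec d), ‖v‖ ≤ R →
      |ab γ g i j v| ≤ C * kap (γ + 2) g := by
  refine ⟨2 * (d : ℝ) ^ (1 + γ / 2) * (1 + R) ^ (γ + 2), ?_, ?_⟩
  · exact mul_nonneg (mul_nonneg two_pos.le (Real.rpow_nonneg (Nat.cast_nonneg d) _))
      (Real.rpow_nonneg (by linarith) _)
  intro g hg h0 i j v hv
  have hI := (kern_landauA (d := d) h1 h2 i j).integrable hg.cont hg.rd v
  have e1 : ab γ g i j v = ∫ w, landauA γ (v - w) i j • g w := by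
    unfold ab conv
    rw [← integral_sub_left_eq_self (fun z : Vec d => landauA γ z i j • g (v - z)) volume v]
    refine integral_congr_ae (Eventually.of_forall fun w => ?_)
    simp only [sub_sub_cancel]
  rw [e1]
  have hk := (lco_int h2 hg).const_mul (2 * (d : ℝ) ^ (1 + γ / 2) * (1 + R) ^ (γ + 2))
  have h3 : ‖∫ w, landauA γ (v - w) i j • g w‖ ≤
      ∫ w, 2 * (d : ℝ) ^ (1 + γ / 2) * (1 + R) ^ (γ + 2) * (g w * (1 + ‖w‖) ^ (γ + 2)) := by
    refine norm_integral_le_of_norm_le hk (Eventually.of_forall fun w => ?_)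
    rw [norm_smul, Real.norm_eq_abs, Real.norm_eq_abs, abs_of_nonneg (h0 w)]
    have h4 := landauA_le γ (v - w) i j
    have h5 := lco_rpow h1 (v - w)
    have h6 : (1 + ‖v - w‖) ^ (γ + 2) ≤ (1 + R) ^ (γ + 2) * (1 + ‖w‖) ^ (γ + 2) := by
      rw [← Real.mul_rpow (by linarith) (w_pos w).le]
      refine Real.rpow_le_rpow (w_pos _).le ((w_sub_le v w).trans ?_) (by linarith)
      exact mul_le_mul_of_nonneg_right (by linarith) (w_pos w).le
    have h7 : |landauA γ (v - w) i j| ≤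
        2 * ((d : ℝ) ^ (1 + γ / 2) * ((1 + R) ^ (γ + 2) * (1 + ‖w‖) ^ (γ + 2))) := by
      refine h4.trans (mul_le_mul_of_nonneg_left (h5.trans ?_) two_pos.le)
      exact mul_le_mul_of_nonneg_left h6 (Real.rpow_nonneg (Nat.cast_nonneg d) _)
    calc |landauA γ (v - w) i j| * g w ≤
        2 * ((d : ℝ) ^ (1 + γ / 2) * ((1 + R) ^ (γ + 2) * (1 + ‖w‖) ^ (γ + 2))) * g w :=
          mul_le_mul_of_nonneg_right h7 (h0 w)
      _ = _ := by ring
  rw [integral_const_mul] at h3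
  rw [← Real.norm_eq_abs]
  exact h3

theorem ab_cont (h1 : -2 < γ) (h2 : γ ≤ 0) {h : Vec d → ℝ} (hc : Continuous h) (hr : RD h)
    (i j : Fin d) : Continuous (ab γ h i j) := by
  have hk := kern_landauA (d := d) h1 h2 i j
  obtain ⟨D, hD0, hD⟩ := hr.bound (d + 3)
  rw [continuous_iff_continuousAt]
  intro v
  unfold ab conv
  refine continuousAt_of_dominated (F := fun v z => landauA γ z i j • h (v - z))
    (bound := fun z => 2 * (d + 1) * D * (2 + ‖v‖) ^ (d + 3) * wt d z) ?_ ?_ ?_ ?_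
  · exact Eventually.of_forall fun w => hk.aesm hc w
  · filter_upwards [Metric.ball_mem_nhds v one_pos] with w hw
    refine Eventually.of_forall fun z => ?_
    refine (hk.le hD0 hD w z).trans ?_
    have h3 : 1 + ‖w‖ ≤ 2 + ‖v‖ := by
      have h4 : ‖w‖ ≤ ‖w - v‖ + ‖v‖ := by simpa using norm_add_le (w - v) v
      have h5 : ‖w - v‖ < 1 := by simpa [dist_eq_norm] using hw
      linarith
    have h6 := pow_le_pow_left₀ (w_pos w).le h3 (d + 3)
    have h7 := wt_nonneg z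
    have h8 := mul_nonneg hk.nonneg hD0
    gcongr
  · exact integrable_wt.const_mul _
  · refine Eventually.of_forall fun z => ?_
    exact ((hc.comp (continuous_id.sub continuous_const)).const_smul
      (landauA γ z i j)).continuousAt

/-- derivatives fall on the function -/
theorem ab_hasFDerivAt (h1 : -2 < γ) (h2 : γ ≤ 0) {h : Vec d → ℝ} (hs : ContDiff ℝ 1 h) (hr : RD h)
    (hr1 : RD (fderiv ℝ h)) (i j : Fin d) (v : Vec d) :
    HasFDerivAt (ab γ h i j) (conv (fun z => landauA γ z i j) (fderiv ℝ h) v) v :=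
  (kern_landauA h1 h2 i j).conv_hasFDerivAt hs hr hr1 v

theorem pd_ab (h1 : -2 < γ) (h2 : γ ≤ 0) {h : Vec d → ℝ} (hs : ContDiff ℝ 1 h) (hr : RD h)
    (hr1 : RD (fderiv ℝ h)) (i j k : Fin d) (v : Vec d) :
    pd k (ab γ h i j) v = ab γ (pd k h) i j v := by
  unfold pd
  rw [(ab_hasFDerivAt h1 h2 hs hr hr1 i j v).fderiv]
  unfold ab conv
  rw [ContinuousLinearMap.integral_apply ((kern_landauA (d := d) h1 h2 i j).integrable
    (hs.continuous_fderiv (by norm_num)) hr1 v)]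
  rfl

/-- Cauchy-Schwarz for the diffusion matrix, with the bound of the trace -/
theorem ab_cauchy (h1 : -2 < γ) (h2 : γ ≤ 0) {R : ℝ} (hR : 0 < R) : ∃ C : ℝ, 0 ≤ C ∧
    ∀ g : Vec d → ℝ, Nice g → (∀ v, 0 ≤ g v) → ∀ (v : Vec d), ‖v‖ ≤ R → ∀ ξ ζ : Vec d, ∀ s > 0,
      2 * |∑ i, ∑ j, ab γ g i j v * (ξ i * ζ j)| ≤
        s * (∑ i, ∑ j, ab γ g i j v * (ζ i * ζ j)) + C / s * kap (γ + 2) g * nsq ξ := by
  obtain ⟨C, hC0, hC⟩ := ab_le (d := d) h1 h2 hR
  refine ⟨d * d * C, by positivity, ?_⟩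
  intro g hg h0 v hv ξ ζ s hs
  set X := ∑ i, ∑ j, ab γ g i j v * (ξ i * ζ j) with hX
  set Y := ∑ i, ∑ j, ab γ g i j v * (ζ i * ζ j) with hY
  set Z := ∑ i, ∑ j, ab γ g i j v * (ξ i * ξ j) with hZ
  have hX' : ∑ i, ∑ j, ab γ g i j v * (ζ i * ξ j) = X := by
    rw [Finset.sum_comm, hX]
    refine Finset.sum_congr rfl fun i _ => Finset.sum_congr rfl fun j _ => ?_
    rw [lco_ab_symm γ g j i]
    ring
  have hexp : ∀ t : ℝ, ∑ i, ∑ j, ab γ g i j v * ((s • ζ + t • ξ) i * (s • ζ + t • ξ) j) =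
      s ^ 2 * Y + 2 * s * t * X + t ^ 2 * Z := by
    intro t
    have e : ∀ i j, ab γ g i j v * ((s • ζ + t • ξ) i * (s • ζ + t • ξ) j) =
        s ^ 2 * (ab γ g i j v * (ζ i * ζ j)) + s * t * (ab γ g i j v * (ζ i * ξ j)) +
          s * t * (ab γ g i j v * (ξ i * ζ j)) + t ^ 2 * (ab γ g i j v * (ξ i * ξ j)) := by
      intro i j
      simp only [Pi.add_apply, Pi.smul_apply, smul_eq_mul]
      ring
    rw [Finset.sum_congr rfl fun i _ => Finset.sum_congr rfl fun j _ => e i j]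
    simp_rw [Finset.sum_add_distrib, ← Finset.mul_sum]
    rw [hX']
    ring
  have hp := ab_psd h1 h2 hg h0 v (s • ζ + (1 : ℝ) • ξ)
  have hm := ab_psd h1 h2 hg h0 v (s • ζ + (-1 : ℝ) • ξ)
  rw [hexp] at hp hm
  have hZle : Z ≤ d * d * C * kap (γ + 2) g * nsq ξ := by
    have h3 : ∀ i j : Fin d, ab γ g i j v * (ξ i * ξ j) ≤ C * kap (γ + 2) g * nsq ξ := by
      intro i j
      refine (le_abs_self _).trans ?_
      rw [abs_mul]
      exact mul_le_mul (hC g hg h0 i j v hv) (coord_mul_le ξ i j) (abs_nonneg _)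
        ((abs_nonneg _).trans (hC g hg h0 i j v hv))
    calc Z ≤ ∑ _i : Fin d, ∑ _j : Fin d, C * kap (γ + 2) g * nsq ξ :=
          Finset.sum_le_sum fun i _ => Finset.sum_le_sum fun j _ => h3 i j
      _ = d * d * C * kap (γ + 2) g * nsq ξ := by
          simp only [Finset.sum_const, Finset.card_univ, Fintype.card_fin, nsmul_eq_mul]
          ring
  have h5 : 2 * |X| * s ≤ s * s * Y + d * d * C * kap (γ + 2) g * nsq ξ := by
    rcases abs_cases X with ⟨h6, -⟩ | ⟨h6, -⟩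
    · rw [h6]
      nlinarith
    · rw [h6]
      nlinarith
  have e3 : s * Y + d * d * C / s * kap (γ + 2) g * nsq ξ =
      (s * s * Y + d * d * C * kap (γ + 2) g * nsq ξ) / s := by
    field_simp
  rw [e3, le_div_iff₀ hs]
  exact h5

end Pool.Agent.H15.AV
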