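import Pool.Agent.H15.AV.Tub
import Pool.Agent.H15.AV.LCo

/-!
# Coercivity of the diffusion matrix in good fibers

MODULE LCv. For `ξ ≠ 0` choose `i` with `|ξ i| = ‖ξ‖` and some `j ≠ i` (`d ≥ 2`), `l = ξ j / ξ i`,
`|l| ≤ 1`. `nsq z nsq ξ - (z·ξ)² ≥ (z_j ξ_i - z_i ξ_j)²` (Lagrange identity) `= ξ_i² (z_j - l z_i)²`, and
`nsq ξ ≤ d ξ_i²`. Outside the slab `|z_j - l z_i| < ρ`, `z = v - w`, the integrand of
`∑ ab γ g i j v ξ_i ξ_j` is at least `g w ρ² (nsq ξ / d) (d (R + R₁)²)^(γ/2)`; use `good_mass`.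
-/

set_option autoImplicit false

open MeasureTheory Set Filter Topology Pool.Agent.H25.Kin

namespace Pool.Agent.H15.AV

variable {d : ℕ} {γ : ℝ}

private lemma lcv_lagrange (z ξ : Vec d) :
    ∑ k, ∑ l, (z k * ξ l - z l * ξ k) ^ 2 = 2 * (nsq z * nsq ξ - (∑ k, z k * ξ k) ^ 2) := by
  have h1 : ∀ k l, (z k * ξ l - z l * ξ k) ^ 2 =
      z k ^ 2 * ξ l ^ 2 + ξ k ^ 2 * z l ^ 2 - 2 * ((z k * ξ k) * (z l * ξ l)) := by
    intro k l
    ring
  simp_rw [h1, Finset.sum_sub_distrib, Finset.sum_add_distrib, ← Finset.mul_sum, ← Finset.sum_mul]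
  unfold nsq
  ring

private lemma lcv_two (z ξ : Vec d) {i j : Fin d} (hij : i ≠ j) :
    (z j * ξ i - z i * ξ j) ^ 2 ≤ nsq z * nsq ξ - (∑ k, z k * ξ k) ^ 2 := by
  have h1 := lcv_lagrange z ξ
  have h2 : (z i * ξ j - z j * ξ i) ^ 2 + (z j * ξ i - z i * ξ j) ^ 2 ≤
      ∑ k, ∑ l, (z k * ξ l - z l * ξ k) ^ 2 := by
    rw [← Fintype.sum_prod_type' (f := fun k l => (z k * ξ l - z l * ξ k) ^ 2)]
    have h3 : ∑ p ∈ ({(i, j), (j, i)} : Finset (Fin d × Fin d)),
        (z p.1 * ξ p.2 - z p.2 * ξ p.1) ^ 2 =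
        (z i * ξ j - z j * ξ i) ^ 2 + (z j * ξ i - z i * ξ j) ^ 2 := by
      rw [Finset.sum_pair]
      intro h
      exact hij (congrArg Prod.fst h)
    rw [← h3]
    exact Finset.sum_le_sum_of_subset_of_nonneg (Finset.subset_univ _) fun p _ _ => sq_nonneg _
  have h4 : (z i * ξ j - z j * ξ i) ^ 2 = (z j * ξ i - z i * ξ j) ^ 2 := by ring
  rw [h4, h1] at h2
  linarith

private lemma lcv_sum (h1 : -2 < γ) (h2 : γ ≤ 0) {g : Vec d → ℝ} (hg : Nice g) (v ξ : Vec d) :
    Integrable (fun w => (∑ i, ∑ j, landauA γ (v - w) i j * (ξ i * ξ j)) * g w) ∧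
    ∑ i, ∑ j, ab γ g i j v * (ξ i * ξ j) =
      ∫ w, (∑ i, ∑ j, landauA γ (v - w) i j * (ξ i * ξ j)) * g w := by
  have hI : ∀ i j, Integrable fun z => landauA γ z i j * g (v - z) * (ξ i * ξ j) := by
    intro i j
    have := (kern_landauA (d := d) h1 h2 i j).integrable hg.cont hg.rd v
    simp only [smul_eq_mul] at this
    exact this.mul_const _
  have hsum : ∀ z, (∑ i, ∑ j, landauA γ z i j * (ξ i * ξ j)) * g (v - z) =
      ∑ i, ∑ j, landauA γ z i j * g (v - z) * (ξ i * ξ j) := by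
    intro z
    rw [Finset.sum_mul]
    refine Finset.sum_congr rfl fun i _ => ?_
    rw [Finset.sum_mul]
    refine Finset.sum_congr rfl fun j _ => ?_
    ring
  have hint : Integrable fun z => (∑ i, ∑ j, landauA γ z i j * (ξ i * ξ j)) * g (v - z) := by
    have h3 : (fun z => (∑ i, ∑ j, landauA γ z i j * (ξ i * ξ j)) * g (v - z)) =
        fun z => ∑ i, ∑ j, landauA γ z i j * g (v - z) * (ξ i * ξ j) := funext hsum
    rw [h3]
    exact integrable_finsetSum _ fun i _ => integrable_finsetSum _ fun j _ => hI i j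
  have hint2 := hint.comp_sub_left v
  simp only [sub_sub_cancel] at hint2
  refine ⟨hint2, ?_⟩
  have h4 : ∫ w, (∑ i, ∑ j, landauA γ (v - w) i j * (ξ i * ξ j)) * g w =
      ∫ z, (∑ i, ∑ j, landauA γ z i j * (ξ i * ξ j)) * g (v - z) := by
    rw [← integral_sub_left_eq_self
      (fun w => (∑ i, ∑ j, landauA γ (v - w) i j * (ξ i * ξ j)) * g w) volume v]
    simp only [sub_sub_cancel]
  rw [h4]
  simp_rw [hsum]
  rw [integral_finsetSum _ fun i _ => integrable_finsetSum _ fun j _ => hI i j]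
  refine Finset.sum_congr rfl fun i _ => ?_
  rw [integral_finsetSum _ fun j _ => hI i j]
  refine Finset.sum_congr rfl fun j _ => ?_
  rw [integral_mul_const]
  rfl

theorem coercive (hd : 2 ≤ d) (h1 : -2 < γ) (h2 : γ ≤ 0) {R m : ℝ} (hR : 0 < R) (hm : 0 < m)
    (N : ℝ) : ∃ c > 0, ∀ g : Vec d → ℝ, Nice g → (∀ v, 0 ≤ g v) → Good m N g → ∀ v : Vec d,
      ‖v‖ ≤ R → ∀ ξ : Vec d, c * nsq ξ ≤ ∑ i, ∑ j, ab γ g i j v * (ξ i * ξ j) := by
  obtain ⟨R₁, hR₁, η, hη, hmass⟩ := good_mass (d := d) hm N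
  have hd0 : (0 : ℝ) < d := by
    have : 0 < d := by omega
    exact_mod_cast this
  set ρ : ℝ := η / (2 * (2 * R₁) ^ (d - 1)) with hρdef
  have hρ : 0 < ρ := by positivity
  set P : ℝ := (d * (R + R₁) ^ 2) ^ (γ / 2) with hPdef
  have hP : 0 < P := Real.rpow_pos_of_pos (by positivity) _
  refine ⟨ρ ^ 2 / d * P * (m / 2), by positivity, ?_⟩
  intro g hg h0 hgood v hv ξ
  by_cases hξ : ξ = 0
  · subst hξ
    simp [nsq]
  -- the two indices
  have hne : Nonempty (Fin d) := ⟨⟨0, by omega⟩⟩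
  obtain ⟨i, hi⟩ : ∃ i, ‖ξ‖ = ‖ξ i‖ := by
    obtain ⟨i, -, hi⟩ := Finset.exists_max_image Finset.univ (fun i => ‖ξ i‖)
      (Finset.univ_nonempty (α := Fin d))
    refine ⟨i, le_antisymm ?_ (norm_le_pi_norm ξ i)⟩
    exact (pi_norm_le_iff_of_nonneg (norm_nonneg _)).2 fun k => hi k (Finset.mem_univ k)
  have hξi : ξ i ≠ 0 := by
    intro h
    rw [h, norm_zero, norm_eq_zero] at hi
    exact hξ hi
  obtain ⟨j, hj⟩ : ∃ j : Fin d, i ≠ j := by
    have : Nontrivial (Fin d) := Fin.nontrivial_iff_two_le.2 hd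
    obtain ⟨j, hj⟩ := exists_ne i
    exact ⟨j, hj.symm⟩
  set l : ℝ := ξ j / ξ i with hl
  have hlξ : ξ j = l * ξ i := by
    rw [hl]
    field_simp
  -- the slab
  set A : Set (Vec d) := {w | ‖w‖ ≤ R₁ ∧ |w j - l * w i - (v j - l * v i)| < ρ} with hA
  have hAm : MeasurableSet A := by
    rw [hA]
    refine MeasurableSet.inter ?_ ?_
    · exact measurableSet_le measurable_norm measurable_const
    · have hmeas : Measurable fun w : Vec d => |w j - l * w i - (v j - l * v i)| := by fun_prop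
      exact measurableSet_lt hmeas measurable_const
  have hAv : volume (A ∩ Metric.closedBall 0 R₁) ≤ ENNReal.ofReal η := by
    refine (measure_mono inter_subset_left).trans ((slab_volume hj _ l hR₁.le hρ.le).trans ?_)
    refine ENNReal.ofReal_le_ofReal (le_of_eq ?_)
    rw [hρdef]
    field_simp
  have hmass' := hmass g hg h0 hgood A hAm hAv
  -- the integral
  obtain ⟨hint, hsum⟩ := lcv_sum h1 h2 hg v ξ
  have hpos : ∀ w, 0 ≤ (∑ i, ∑ j, landauA γ (v - w) i j * (ξ i * ξ j)) * g w := by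
    intro w
    refine mul_nonneg ?_ (h0 w)
    rw [landauA_form]
    refine mul_nonneg ?_ (Real.rpow_nonneg (sq_nonneg' _) _)
    exact (sq_nonneg _).trans (lcv_two (v - w) ξ hj)
  have hSm : MeasurableSet (Metric.closedBall (0 : Vec d) R₁ \ A) :=
    Metric.isClosed_closedBall.measurableSet.diff hAm
  have hgi : Integrable g := hg.rd.integrable hg.cont.aestronglyMeasurable
  have hnsq : nsq ξ ≤ d * ξ i ^ 2 := by
    have := H25.Kin.sq_le ξ
    rwa [hi, Real.norm_eq_abs, sq_abs] at this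
  rw [hsum]
  calc ρ ^ 2 / d * P * (m / 2) * nsq ξ
      = ρ ^ 2 / d * P * nsq ξ * (m / 2) := by ring
    _ ≤ ρ ^ 2 / d * P * nsq ξ * ∫ w in Metric.closedBall 0 R₁ \ A, g w :=
        mul_le_mul_of_nonneg_left hmass'
          (mul_nonneg (by positivity) (sq_nonneg' ξ))
    _ = ∫ w in Metric.closedBall 0 R₁ \ A, ρ ^ 2 / d * P * nsq ξ * g w :=
        (integral_const_mul _ _).symm
    _ ≤ ∫ w in Metric.closedBall 0 R₁ \ A,
          (∑ i, ∑ j, landauA γ (v - w) i j * (ξ i * ξ j)) * g w := by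
        refine setIntegral_mono_on (hgi.const_mul _).integrableOn hint.integrableOn hSm ?_
        intro w hw
        refine mul_le_mul_of_nonneg_right ?_ (h0 w)
        rw [landauA_form]
        have hw1 : ‖w‖ ≤ R₁ := by simpa using hw.1
        have hw2 : ρ ≤ |w j - l * w i - (v j - l * v i)| := by
          by_contra hcon
          exact hw.2 ⟨hw1, not_le.mp hcon⟩
        have hz : ‖v - w‖ ≤ R + R₁ := (norm_sub_le _ _).trans (add_le_add hv hw1)
        have hz2 : ρ ^ 2 ≤ ((v - w) j - l * (v - w) i) ^ 2 := by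
          have e : (v - w) j - l * (v - w) i = -(w j - l * w i - (v j - l * v i)) := by
            simp only [Pi.sub_apply]
            ring
          rw [e, neg_sq, ← sq_abs (w j - l * w i - (v j - l * v i))]
          exact pow_le_pow_left₀ hρ.le hw2 2
        have hzne : 0 < nsq (v - w) := by
          rcases (sq_nonneg' (v - w)).eq_or_lt with h | h
          · exfalso
            have h3 : ∀ k, (v - w) k = 0 := by
              intro k
              have h4 : (v - w) k ^ 2 ≤ nsq (v - w) :=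
                Finset.single_le_sum (f := fun k => (v - w) k ^ 2) (fun k _ => sq_nonneg _)
                  (Finset.mem_univ k)
              rw [← h] at h4
              exact pow_eq_zero_iff (two_ne_zero) |>.1 (le_antisymm h4 (sq_nonneg _))
            rw [h3 i, h3 j] at hz2
            have : 0 < ρ ^ 2 := by positivity
            linarith [show ((0 : ℝ) - l * 0) ^ 2 = 0 by ring]
          · exact h
        have hnz : nsq (v - w) ≤ d * (R + R₁) ^ 2 := by
          refine (H25.Kin.sq_le (v - w)).trans ?_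
          exact mul_le_mul_of_nonneg_left (pow_le_pow_left₀ (norm_nonneg _) hz 2) hd0.le
        have hPle : P ≤ nsq (v - w) ^ (γ / 2) :=
          Real.rpow_le_rpow_of_nonpos hzne hnz (by linarith)
        have hform : ρ ^ 2 / d * nsq ξ ≤
            nsq (v - w) * nsq ξ - (∑ k, (v - w) k * ξ k) ^ 2 := by
          refine le_trans ?_ (lcv_two (v - w) ξ hj)
          have e : (v - w) j * ξ i - (v - w) i * ξ j = ξ i * ((v - w) j - l * (v - w) i) := by
            rw [hlξ]
            ring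
          rw [e, mul_pow]
          calc ρ ^ 2 / d * nsq ξ ≤ ρ ^ 2 / d * (d * ξ i ^ 2) :=
                mul_le_mul_of_nonneg_left hnsq (by positivity)
            _ = ξ i ^ 2 * ρ ^ 2 := by field_simp
            _ ≤ _ := mul_le_mul_of_nonneg_left hz2 (sq_nonneg _)
        calc ρ ^ 2 / d * P * nsq ξ = ρ ^ 2 / d * nsq ξ * P := by ring
          _ ≤ _ := mul_le_mul hform hPle hP.le ((mul_nonneg (by positivity)
              (sq_nonneg' ξ)).trans hform)
    _ ≤ _ := setIntegral_le_integral hint (Eventually.of_forall hpos)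

end Pool.Agent.H15.AV
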