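import Pool.Agent.H15.AV.LIn
import Pool.Agent.H15.AV.One

/-!
# Drift and source estimates for the Landau operator

MODULE LDr. `diss_le`: in `fiber_ineq` bound `lin` below: `|∑ A_ij ∂_ij Ψ| ≤ C K kap`, and by
`ab_cauchy` (`ξ = ∇Ψ`, `ζ = D`, `s = Ψ/2` where `Ψ v > 0`; where `Ψ v = 0` also `∇Ψ v = 0`),
`2 |∑ A_ij ∂_iΨ D_j| ≤ (Ψ/2) ∑ A_ij D_i D_j + C kap |∇Ψ|²/Ψ`, `|∇Ψ|² ≤ C K Ψ` (`grad_sq_le_test`: for
`Ψ ≥ 0` with second derivative `≤ K`). The integrals run over the ball of radius `R`.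
`source_landau`: `N(Θ) = src - lin` is linear in `Θ` and `≥ diss ≥ 0` for `Θ ≥ 0`. With a cut-off `φ`
(`exists_chi`) and `K φ ± Θ ≥ 0`: `|N(Θ)| ≤ K N(φ)`; `|lin(Θ)| ≤ C K (kap + diss φ)` by `ab_cauchy` with
`s = K` (on the ball `φ = 1`, `uf (1/2) ≤ 1`), and `N(φ) ≤ 2 src φ + C kap`, `diss φ ≤ N(φ)`. For `K = 0`
use `Θ = 0`.
-/

set_option autoImplicit false

open MeasureTheory Set Filter Topology Pool.Agent.H25.Kin

namespace Pool.Agent.H15.AV

variable {d : ℕ} {γ : ℝ}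

private lemma tst_nn {R K : ℝ} {Ψ : Vec d → ℝ} (hΨ : Tst R K Ψ) : 0 ≤ K :=
  (abs_nonneg _).trans (hΨ.le0 0)

private lemma tst_C1 {R K : ℝ} {Ψ : Vec d → ℝ} (hΨ : Tst R K Ψ) : ContDiff ℝ 1 (fderiv ℝ Ψ) :=
  hΨ.smooth.fderiv_right (m := 1) (by norm_num)

private lemma taylor_test {R K : ℝ} {Ψ : Vec d → ℝ} (hΨ : Tst R K Ψ) (v u : Vec d) :
    |Ψ (v + u) - Ψ v - fderiv ℝ Ψ v u| ≤ K * ‖u‖ ^ 2 / 2 := by
  have d0 : Differentiable ℝ Ψ := hΨ.smooth.differentiable (by norm_num)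
  have d1 : Differentiable ℝ (fderiv ℝ Ψ) := (tst_C1 hΨ).differentiable (by norm_num)
  have hK := tst_nn hΨ
  have hl : ∀ w, ‖fderiv ℝ Ψ w - fderiv ℝ Ψ v‖ ≤ K * ‖w - v‖ := fun w =>
    Convex.norm_image_sub_le_of_norm_hasFDerivWithin_le (𝕜 := ℝ) (s := univ)
      (fun x _ => (d1 x).hasFDerivAt.hasFDerivWithinAt) (fun x _ => hΨ.le2 x) convex_univ
      (mem_univ _) (mem_univ _)
  have hp : ∀ t : ℝ, HasDerivAt (fun t : ℝ => v + t • u) u t := fun t => by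
    simpa using ((hasDerivAt_id t).smul_const u).const_add v
  have hf : ∀ t : ℝ, HasDerivAt (fun t : ℝ => Ψ (v + t • u) - Ψ v - t * fderiv ℝ Ψ v u)
      (fderiv ℝ Ψ (v + t • u) u - fderiv ℝ Ψ v u) t := fun t => by
    have h1 := (d0 (v + t • u)).hasFDerivAt.comp_hasDerivAt t (hp t)
    have h2 := (hasDerivAt_id' t).mul_const (fderiv ℝ Ψ v u)
    rw [one_mul] at h2
    exact (h1.sub_const (Ψ v)).sub h2
  have hB : ∀ t : ℝ, HasDerivAt (fun t : ℝ => K * ‖u‖ ^ 2 * t ^ 2 / 2) (K * ‖u‖ ^ 2 * t) t :=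
    fun t => by
    refine (((hasDerivAt_pow 2 t).const_mul (K * ‖u‖ ^ 2)).div_const 2).congr_deriv ?_
    simp only [Nat.cast_ofNat, Nat.add_one_sub_one, pow_one]
    ring
  have key := image_norm_le_of_norm_deriv_right_le_deriv_boundary (a := 0) (b := 1)
    (f := fun t : ℝ => Ψ (v + t • u) - Ψ v - t * fderiv ℝ Ψ v u)
    (f' := fun t => fderiv ℝ Ψ (v + t • u) u - fderiv ℝ Ψ v u)
    (B := fun t => K * ‖u‖ ^ 2 * t ^ 2 / 2) (B' := fun t => K * ‖u‖ ^ 2 * t)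
    (fun t _ => (hf t).continuousAt.continuousWithinAt) (fun t _ => (hf t).hasDerivWithinAt)
    (by simp) hB (fun t ht => by
      have e : fderiv ℝ Ψ (v + t • u) u - fderiv ℝ Ψ v u =
          (fderiv ℝ Ψ (v + t • u) - fderiv ℝ Ψ v) u := rfl
      rw [e]
      refine (ContinuousLinearMap.le_opNorm _ _).trans ?_
      have h3 := hl (v + t • u)
      rw [add_sub_cancel_left, norm_smul, Real.norm_eq_abs, abs_of_nonneg ht.1] at h3
      have h4 := mul_le_mul_of_nonneg_right h3 (norm_nonneg u)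
      refine h4.trans (le_of_eq ?_)
      ring) (right_mem_Icc.2 zero_le_one)
  simp only [one_smul, one_mul, one_pow, mul_one, Real.norm_eq_abs] at key
  exact key

theorem grad_sq_le_test {Ψ : Vec d → ℝ} {R K : ℝ} (hΨ : Tst R K Ψ) (h0 : ∀ v, 0 ≤ Ψ v)
    (v : Vec d) : nsq (fun i => pd i Ψ v) ≤ 2 * d * K * Ψ v := by
  have h1 : ∀ i, pd i Ψ v ^ 2 ≤ 2 * K * Ψ v := by
    intro i
    have h2 : ∀ s : ℝ, 0 ≤ K / 2 * (s * s) + pd i Ψ v * s + Ψ v := by
      intro s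
      have h3 := taylor_test hΨ v (s • (Pi.single i 1 : Vec d))
      have h4 : ‖s • (Pi.single i 1 : Vec d)‖ ^ 2 = s * s := by
        rw [norm_smul, Pi.norm_single, norm_one, mul_one, Real.norm_eq_abs, sq_abs, sq]
      rw [h4, map_smul, smul_eq_mul] at h3
      have h5 := (abs_le.1 h3).2
      have h6 := h0 (v + s • (Pi.single i 1 : Vec d))
      have h7 : pd i Ψ v = fderiv ℝ Ψ v (Pi.single i 1) := rfl
      rw [← h7] at h5
      linarith
    have h8 := discrim_le_zero h2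
    unfold discrim at h8
    linarith
  unfold nsq
  calc ∑ i, pd i Ψ v ^ 2 ≤ ∑ _i : Fin d, 2 * K * Ψ v := Finset.sum_le_sum fun i _ => h1 i
    _ = 2 * d * K * Ψ v := by
      rw [Finset.sum_const, Finset.card_univ, Fintype.card_fin, nsmul_eq_mul]; ring

theorem diss_nonneg (h1 : -2 < γ) (h2 : γ ≤ 0) {δ : ℝ} {g : Vec d → ℝ} (hg : Nice g)
    (h0 : ∀ v, 0 ≤ g v) {Ψ : Vec d → ℝ} (hΨ0 : ∀ v, 0 ≤ Ψ v) : 0 ≤ diss γ δ g Ψ :=
  integral_nonneg fun v => mul_nonneg (hΨ0 v)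
    (ab_psd h1 h2 hg h0 v fun i => kd δ (g v) * pd i g v)

private lemma cs_int {F : Vec d → ℝ} (hc : Continuous F) {R : ℝ} (hs : ∀ v, R ≤ ‖v‖ → F v = 0) :
    Integrable F := by
  refine hc.integrable_of_hasCompactSupport ?_
  refine HasCompactSupport.intro (isCompact_closedBall (0 : Vec d) R) fun v hv => hs v ?_
  rw [Metric.mem_closedBall, dist_zero_right, not_le] at hv
  exact hv.le

private lemma pd_supp {F : Vec d → ℝ} {R : ℝ} (hs : ∀ v, R ≤ ‖v‖ → F v = 0) (k : Fin d)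
    {v : Vec d} (hv : R < ‖v‖) : pd k F v = 0 := by
  have h : F =ᶠ[𝓝 v] fun _ => 0 := by
    filter_upwards [(isOpen_lt continuous_const continuous_norm).mem_nhds hv] with u hu
    exact hs u (le_of_lt hu)
  unfold pd
  rw [h.fderiv_eq]
  simp

private lemma pdd_supp {F : Vec d → ℝ} {R : ℝ} (hs : ∀ v, R ≤ ‖v‖ → F v = 0) (k l : Fin d)
    {v : Vec d} (hv : R < ‖v‖) : pd k (pd l F) v = 0 := by
  have h : pd l F =ᶠ[𝓝 v] fun _ => 0 := by
    filter_upwards [(isOpen_lt continuous_const continuous_norm).mem_nhds hv] with u hu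
    exact pd_supp hs l hu
  have e : pd k (pd l F) v = fderiv ℝ (pd l F) v (Pi.single k 1) := rfl
  rw [e, h.fderiv_eq]
  simp

private lemma kd_cont {δ : ℝ} (hδ : 0 < δ) {g : Vec d → ℝ} (hg : Nice g)
    (h0 : ∀ v, 0 ≤ g v) : Continuous fun v => kd δ (g v) := by
  unfold kd
  refine Continuous.sub (Continuous.inv₀ (continuous_const.add hg.cont) fun v => ?_)
    (Continuous.inv₀ (continuous_const.add hg.cont) fun v => ?_)
  · have := h0 v; linarith
  · have := h0 v; linarith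

private lemma uf_cont {δ : ℝ} (hδ : 0 < δ) {g : Vec d → ℝ} (hg : Nice g)
    (h0 : ∀ v, 0 ≤ g v) : Continuous fun v => uf δ (g v) := by
  unfold uf
  refine Continuous.sub (Continuous.log (continuous_const.add hg.cont) fun v => ?_)
    (Continuous.log (continuous_const.add hg.cont) fun v => ?_)
  · have := h0 v; linarith
  · have := h0 v; linarith

private lemma D_cont {δ : ℝ} (hδ : 0 < δ) {g : Vec d → ℝ} (hg : Nice g)
    (h0 : ∀ v, 0 ≤ g v) (j : Fin d) : Continuous fun v => kd δ (g v) * pd j g v :=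
  (kd_cont hδ hg h0).mul (hg.pd_cont j)

private lemma tst_pd_C1 {R K : ℝ} {Ψ : Vec d → ℝ} (hΨ : Tst R K Ψ) (i : Fin d) :
    ContDiff ℝ 1 (pd i Ψ) := (tst_C1 hΨ).clm_apply contDiff_const

private lemma tst_pdd_cont {R K : ℝ} {Ψ : Vec d → ℝ} (hΨ : Tst R K Ψ) (i j : Fin d) :
    Continuous (pd i (pd j Ψ)) :=
  ((tst_pd_C1 hΨ j).continuous_fderiv (by norm_num)).clm_apply continuous_const

private lemma pdd_eq {R K : ℝ} {Ψ : Vec d → ℝ} (hΨ : Tst R K Ψ) (i j : Fin d) (v : Vec d) :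
    pd i (pd j Ψ) v = fderiv ℝ (fderiv ℝ Ψ) v (Pi.single i 1) (Pi.single j 1) := by
  have d1 : Differentiable ℝ (fderiv ℝ Ψ) := (tst_C1 hΨ).differentiable (by norm_num)
  have h := ((d1 v).hasFDerivAt.clm_apply
    (hasFDerivAt_const (Pi.single j (1 : ℝ) : Vec d) v)).fderiv
  have e : pd i (pd j Ψ) v = fderiv ℝ (fun v => fderiv ℝ Ψ v (Pi.single j 1)) v
    (Pi.single i 1) := rfl
  rw [e, h]
  simp

private lemma pdd_abs_le {R K : ℝ} {Ψ : Vec d → ℝ} (hΨ : Tst R K Ψ) (i j : Fin d) (v : Vec d) :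
    |pd i (pd j Ψ) v| ≤ K := by
  rw [pdd_eq hΨ, ← Real.norm_eq_abs]
  refine (ContinuousLinearMap.le_opNorm _ _).trans ?_
  rw [Pi.norm_single, norm_one, mul_one]
  refine (ContinuousLinearMap.le_opNorm _ _).trans ?_
  rw [Pi.norm_single, norm_one, mul_one]
  exact hΨ.le2 v

private lemma grad_nsq_le {R K : ℝ} {Ψ : Vec d → ℝ} (hΨ : Tst R K Ψ) (v : Vec d) :
    nsq (fun i => pd i Ψ v) ≤ d * K ^ 2 := by
  unfold nsq
  calc ∑ i, pd i Ψ v ^ 2 ≤ ∑ _i : Fin d, K ^ 2 := Finset.sum_le_sum fun i _ => by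
        rw [← sq_abs]
        exact pow_le_pow_left₀ (abs_nonneg _) ((pd_le i Ψ v).trans (hΨ.le1 v)) 2
    _ = d * K ^ 2 := by
      rw [Finset.sum_const, Finset.card_univ, Fintype.card_fin, nsmul_eq_mul]

/-- the integrand of `lin` -/
private noncomputable def lint (γ δ : ℝ) (g Ψ : Vec d → ℝ) (v : Vec d) : ℝ :=
  uf δ (g v) * ∑ i, ∑ j, ab γ g i j v * pd i (pd j Ψ) v -
    2 * ∑ i, ∑ j, ab γ g i j v * (pd i Ψ v * (kd δ (g v) * pd j g v))

/-- the quadratic form -/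
private noncomputable def dq (γ δ : ℝ) (g : Vec d → ℝ) (v : Vec d) : ℝ :=
  ∑ i, ∑ j, ab γ g i j v * ((kd δ (g v) * pd i g v) * (kd δ (g v) * pd j g v))

private lemma dq_nonneg (h1 : -2 < γ) (h2 : γ ≤ 0) (δ : ℝ) {g : Vec d → ℝ} (hg : Nice g)
    (h0 : ∀ v, 0 ≤ g v) (v : Vec d) : 0 ≤ dq γ δ g v :=
  ab_psd h1 h2 hg h0 v fun i => kd δ (g v) * pd i g v

private lemma dq_cont (h1 : -2 < γ) (h2 : γ ≤ 0) {δ : ℝ} (hδ : 0 < δ) {g : Vec d → ℝ}
    (hg : Nice g) (h0 : ∀ v, 0 ≤ g v) : Continuous (dq γ δ g) := by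
  unfold dq
  exact continuous_finsetSum _ fun i _ => continuous_finsetSum _ fun j _ =>
    (ab_cont h1 h2 hg.cont hg.rd i j).mul ((D_cont hδ hg h0 i).mul (D_cont hδ hg h0 j))

private lemma lint_cont (h1 : -2 < γ) (h2 : γ ≤ 0) {δ : ℝ} (hδ : 0 < δ) {g : Vec d → ℝ}
    (hg : Nice g) (h0 : ∀ v, 0 ≤ g v) {R K : ℝ} {Ψ : Vec d → ℝ} (hΨ : Tst R K Ψ) :
    Continuous (lint γ δ g Ψ) := by
  unfold lint
  refine Continuous.sub ((uf_cont hδ hg h0).mul ?_) (continuous_const.mul ?_)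
  · exact continuous_finsetSum _ fun i _ => continuous_finsetSum _ fun j _ =>
      (ab_cont h1 h2 hg.cont hg.rd i j).mul (tst_pdd_cont hΨ i j)
  · exact continuous_finsetSum _ fun i _ => continuous_finsetSum _ fun j _ =>
      (ab_cont h1 h2 hg.cont hg.rd i j).mul ((tst_pd_C1 hΨ i).continuous.mul (D_cont hδ hg h0 j))

private lemma lint_supp (δ : ℝ) (g : Vec d → ℝ) {R K : ℝ} {Ψ : Vec d → ℝ} (hΨ : Tst R K Ψ)
    {v : Vec d} (hv : R < ‖v‖) : lint γ δ g Ψ v = 0 := by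
  unfold lint
  have e1 : ∑ i, ∑ j, ab γ g i j v * pd i (pd j Ψ) v = 0 :=
    Finset.sum_eq_zero fun i _ => Finset.sum_eq_zero fun j _ => by
      rw [pdd_supp hΨ.supp i j hv, mul_zero]
  have e2 : ∑ i, ∑ j, ab γ g i j v * (pd i Ψ v * (kd δ (g v) * pd j g v)) = 0 :=
    Finset.sum_eq_zero fun i _ => Finset.sum_eq_zero fun j _ => by
      rw [pd_supp hΨ.supp i hv, zero_mul, mul_zero]
  rw [e1, e2]
  ring

private lemma lint_int (h1 : -2 < γ) (h2 : γ ≤ 0) {δ : ℝ} (hδ : 0 < δ) {g : Vec d → ℝ}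
    (hg : Nice g) (h0 : ∀ v, 0 ≤ g v) {R K : ℝ} {Ψ : Vec d → ℝ} (hΨ : Tst R K Ψ) :
    Integrable (lint γ δ g Ψ) :=
  cs_int (lint_cont h1 h2 hδ hg h0 hΨ) (R := R + 1) fun v hv => lint_supp δ g hΨ (by linarith)

private lemma sum_le {A B : ℝ} (hA : 0 ≤ A) {a b : Fin d → Fin d → ℝ} (ha : ∀ i j, |a i j| ≤ A)
    (hb : ∀ i j, |b i j| ≤ B) : |∑ i, ∑ j, a i j * b i j| ≤ d * d * (A * B) := by
  refine (Finset.abs_sum_le_sum_abs _ _).trans ?_
  calc ∑ i, |∑ j, a i j * b i j| ≤ ∑ _i : Fin d, ∑ _j : Fin d, A * B := by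
        refine Finset.sum_le_sum fun i _ => (Finset.abs_sum_le_sum_abs _ _).trans
          (Finset.sum_le_sum fun j _ => ?_)
        rw [abs_mul]
        exact mul_le_mul (ha i j) (hb i j) (abs_nonneg _) hA
    _ = d * d * (A * B) := by
        rw [Finset.sum_const, Finset.sum_const, Finset.card_univ, Fintype.card_fin,
          nsmul_eq_mul, nsmul_eq_mul]
        ring

private lemma vol_ball {R : ℝ} (hR : 0 < R) :
    (volume (Metric.closedBall (0 : Vec d) R)).toReal = (2 * R) ^ d := by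
  rw [Real.volume_pi_closedBall _ hR.le, ENNReal.toReal_ofReal (by positivity), Fintype.card_fin]

private lemma uf_int {δ : ℝ} (h0 : 0 < δ) (h1 : δ ≤ 1) (R : ℝ) {g : Vec d → ℝ}
    (hc : Continuous g) (hg : ∀ v, 0 ≤ g v) :
    IntegrableOn (fun v => uf δ (g v)) (Metric.closedBall (0 : Vec d) R) := by
  refine IntegrableOn.of_bound (isCompact_closedBall _ _).measure_lt_top
    ((measurable_uf δ).comp hc.measurable).aestronglyMeasurable (lam δ) ?_
  refine Eventually.of_forall fun v => ?_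
  rw [Real.norm_eq_abs, abs_of_nonneg (uf_nonneg h0 h1 (hg v))]
  exact uf_le_lam h0 h1 (hg v)

/-- the integral over the ball of `a * uf + b` -/
private lemma ball_int {δ : ℝ} (h0 : 0 < δ) (h1 : δ ≤ 1) {R : ℝ} (hR : 0 < R) {g : Vec d → ℝ}
    (hc : Continuous g) (hg : ∀ v, 0 ≤ g v) (a b : ℝ) :
    ∫ v, (Metric.closedBall (0 : Vec d) R).indicator (fun v => a * uf δ (g v) + b) v =
      a * ub δ R g + b * (2 * R) ^ d := by
  rw [integral_indicator measurableSet_closedBall, integral_add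
    ((uf_int h0 h1 R hc hg).const_mul a)
    (integrableOn_const (isCompact_closedBall (0 : Vec d) R).measure_lt_top.ne),
    integral_const_mul, setIntegral_const, smul_eq_mul, measureReal_def, vol_ball hR]
  unfold ub
  ring

private lemma ball_intble {δ : ℝ} (h0 : 0 < δ) (h1 : δ ≤ 1) (R : ℝ) {g : Vec d → ℝ}
    (hc : Continuous g) (hg : ∀ v, 0 ≤ g v) (a b : ℝ) :
    Integrable ((Metric.closedBall (0 : Vec d) R).indicator (fun v => a * uf δ (g v) + b)) := by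
  rw [integrable_indicator_iff measurableSet_closedBall]
  exact ((uf_int h0 h1 R hc hg).const_mul a).add
    (integrableOn_const (isCompact_closedBall (0 : Vec d) R).measure_lt_top.ne)

private lemma lin_lower (d : ℕ) (h1 : -2 < γ) (h2 : γ ≤ 0) {R : ℝ} (hR : 0 < R) :
    ∃ C : ℝ, 0 ≤ C ∧ ∀ δ ∈ Ioc (0 : ℝ) 1, ∀ g : Vec d → ℝ, Nice g → (∀ v, 0 ≤ g v) →
      ∀ (K : ℝ) (Ψ : Vec d → ℝ), Tst R K Ψ → (∀ v, 0 ≤ Ψ v) →
        -(diss γ δ g Ψ / 2 + C * K * kap (γ + 2) g * (1 + ub δ R g)) ≤ lin γ δ g Ψ := by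
  obtain ⟨C₁, hC₁, hab⟩ := ab_le (d := d) h1 h2 hR
  obtain ⟨C₂, hC₂, hcs⟩ := ab_cauchy (d := d) h1 h2 hR
  refine ⟨d * d * C₁ + 4 * d * C₂ * (2 * R) ^ d, by positivity, ?_⟩
  intro δ hδ g hg h0 K Ψ hΨ hΨ0
  have hK := tst_nn hΨ
  have hkap := kap_nonneg (γ + 2) h0
  have hub := ub_nonneg hδ.1 hδ.2 R h0
  obtain ⟨k, hk⟩ : ∃ k, k = kap (γ + 2) g := ⟨_, rfl⟩
  rw [← hk] at hkap
  have hpt : ∀ v, -(1 / 2 * (Ψ v * dq γ δ g v) + (Metric.closedBall (0 : Vec d) R).indicator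
      (fun v => (d * d * (C₁ * k * K)) * uf δ (g v) + 4 * d * C₂ * k * K) v) ≤ lint γ δ g Ψ v := by
    intro v
    have hdq := dq_nonneg h1 h2 δ hg h0 v
    by_cases hv : ‖v‖ ≤ R
    · have hm : v ∈ Metric.closedBall (0 : Vec d) R := by
        rw [Metric.mem_closedBall, dist_zero_right]; exact hv
      rw [indicator_of_mem hm]
      have hu := uf_nonneg hδ.1 hδ.2 (h0 v)
      have hP := sum_le (A := C₁ * k) (B := K) (mul_nonneg hC₁ hkap)
        (a := fun i j => ab γ g i j v) (b := fun i j => pd i (pd j Ψ) v)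
        (fun i j => by rw [hk]; exact hab g hg h0 i j v hv) (fun i j => pdd_abs_le hΨ i j v)
      have hP2 := mul_le_mul_of_nonneg_left (abs_le.1 hP).1 hu
      have hX : 2 * |∑ i, ∑ j, ab γ g i j v * (pd i Ψ v * (kd δ (g v) * pd j g v))| ≤
          1 / 2 * (Ψ v * dq γ δ g v) + 4 * d * C₂ * k * K := by
        rcases (hΨ0 v).eq_or_lt with hz | hz
        · have h3 := grad_sq_le_test hΨ hΨ0 v
          rw [← hz, mul_zero] at h3
          have h4 : ∀ i, pd i Ψ v = 0 := by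
            intro i
            have h5 : pd i Ψ v ^ 2 ≤ nsq fun i => pd i Ψ v := by
              unfold nsq
              exact Finset.single_le_sum (f := fun i => pd i Ψ v ^ 2) (fun i _ => sq_nonneg _)
                (Finset.mem_univ i)
            have h6 : pd i Ψ v ^ 2 = 0 := le_antisymm (h5.trans h3) (sq_nonneg _)
            exact pow_eq_zero_iff (two_ne_zero) |>.1 h6
          have e2 : ∑ i, ∑ j, ab γ g i j v * (pd i Ψ v * (kd δ (g v) * pd j g v)) = 0 :=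
            Finset.sum_eq_zero fun i _ => Finset.sum_eq_zero fun j _ => by
              rw [h4 i, zero_mul, mul_zero]
          rw [e2, abs_zero, mul_zero, ← hz, zero_mul, mul_zero, zero_add]
          positivity
        · have h3 := hcs g hg h0 v hv (fun i => pd i Ψ v) (fun j => kd δ (g v) * pd j g v)
            (Ψ v / 2) (by linarith)
          refine h3.trans ?_
          have h4 := grad_sq_le_test hΨ hΨ0 v
          rw [← hk]
          have h5 : C₂ / (Ψ v / 2) * k * nsq (fun i => pd i Ψ v) ≤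
              C₂ / (Ψ v / 2) * k * (2 * d * K * Ψ v) :=
            mul_le_mul_of_nonneg_left h4 (by positivity)
          have h6 : C₂ / (Ψ v / 2) * k * (2 * d * K * Ψ v) = 4 * d * C₂ * k * K := by
            field_simp
            ring
          rw [h6] at h5
          have h7 : Ψ v / 2 * (∑ i, ∑ j, ab γ g i j v * ((kd δ (g v) * pd i g v) *
              (kd δ (g v) * pd j g v))) = 1 / 2 * (Ψ v * dq γ δ g v) := by
            unfold dq; ring
          rw [← h7]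
          exact add_le_add le_rfl h5
      have hX2 := le_abs_self
        (∑ i, ∑ j, ab γ g i j v * (pd i Ψ v * (kd δ (g v) * pd j g v)))
      unfold lint
      linarith
    · have hv' : R < ‖v‖ := not_le.1 hv
      have hm : v ∉ Metric.closedBall (0 : Vec d) R := by
        rw [Metric.mem_closedBall, dist_zero_right]; exact hv
      rw [indicator_of_notMem hm, lint_supp δ g hΨ hv', hΨ.supp v hv'.le]
      simp
  have hi1 : Integrable fun v => Ψ v * dq γ δ g v :=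
    cs_int (hΨ.smooth.continuous.mul (dq_cont h1 h2 hδ.1 hg h0)) (R := R) fun v hv => by
      rw [hΨ.supp v hv, zero_mul]
  have hi2 := ball_intble hδ.1 hδ.2 R hg.cont h0 (d * d * (C₁ * k * K)) (4 * d * C₂ * k * K)
  have hi3 := lint_int h1 h2 hδ.1 hg h0 hΨ
  have hm := integral_mono ((hi1.const_mul (1 / 2)).add hi2).neg hi3 hpt
  have e1 : ∫ v, (-((fun v => 1 / 2 * (Ψ v * dq γ δ g v)) +
      (Metric.closedBall (0 : Vec d) R).indicator
      (fun v => (d * d * (C₁ * k * K)) * uf δ (g v) + 4 * d * C₂ * k * K)) : Vec d → ℝ) v =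
      -(diss γ δ g Ψ / 2 + ((d * d * (C₁ * k * K)) * ub δ R g +
        4 * d * C₂ * k * K * (2 * R) ^ d)) := by
    rw [← ball_int hδ.1 hδ.2 hR hg.cont h0, integral_neg', integral_add'
      (hi1.const_mul (1 / 2)) hi2, integral_const_mul]
    unfold diss dq
    ring
  rw [e1] at hm
  have e2 : ∫ v, lint γ δ g Ψ v = lin γ δ g Ψ := rfl
  rw [e2] at hm
  refine le_trans ?_ hm
  rw [← hk]
  have hV : 0 ≤ (2 * R) ^ d := by positivity
  have t1 : 0 ≤ d * d * C₁ * K * k := by positivity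
  have t2 : 0 ≤ 4 * d * C₂ * (2 * R) ^ d * K * k * ub δ R g := by positivity
  have t3 : (d * d * C₁ + 4 * d * C₂ * (2 * R) ^ d) * K * k * (1 + ub δ R g) =
      d * d * (C₁ * k * K) * ub δ R g + 4 * d * C₂ * k * K * (2 * R) ^ d +
      d * d * C₁ * K * k + 4 * d * C₂ * (2 * R) ^ d * K * k * ub δ R g := by ring
  rw [t3]
  linarith

theorem diss_le (hd : 2 ≤ d) (h1 : -2 < γ) (h2 : γ ≤ 0) {R : ℝ} (hR : 0 < R) : ∃ C : ℝ, 0 ≤ C ∧
    ∀ δ ∈ Ioc (0 : ℝ) 1, ∀ g : Vec d → ℝ, Nice g → (∀ v, 0 ≤ g v) → ∀ (K : ℝ) (Ψ : Vec d → ℝ),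
      Tst R K Ψ → (∀ v, 0 ≤ Ψ v) →
        diss γ δ g Ψ / 2 ≤ src (landauQ γ) δ g Ψ + C * K * kap (γ + 2) g * (1 + ub δ R g) := by
  obtain ⟨C, hC, h⟩ := lin_lower d h1 h2 hR
  refine ⟨C, hC, fun δ hδ g hg h0 K Ψ hΨ hΨ0 => ?_⟩
  have h3 := h δ hδ g hg h0 K Ψ hΨ hΨ0
  have h4 := fiber_ineq hd h1 h2 hδ.1 hδ.2 hg h0 hΨ hΨ0
  linarith

private lemma tst_comb {R R₂ K₁ K₂ K : ℝ} {Θ₁ Θ₂ : Vec d → ℝ} (t1 : Tst R K₁ Θ₁)
    (t2 : Tst R₂ K₂ Θ₂) (a b : ℝ) (hR : R ≤ R₂) (hK : |a| * K₁ + |b| * K₂ ≤ K) :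
    Tst R₂ K fun v => a * Θ₁ v + b * Θ₂ v := by
  have d1 : Differentiable ℝ Θ₁ := t1.smooth.differentiable (by norm_num)
  have d2 : Differentiable ℝ Θ₂ := t2.smooth.differentiable (by norm_num)
  have dd1 : Differentiable ℝ (fderiv ℝ Θ₁) := (tst_C1 t1).differentiable (by norm_num)
  have dd2 : Differentiable ℝ (fderiv ℝ Θ₂) := (tst_C1 t2).differentiable (by norm_num)
  have e1 : fderiv ℝ (fun v => a * Θ₁ v + b * Θ₂ v) =
      fun v => a • fderiv ℝ Θ₁ v + b • fderiv ℝ Θ₂ v := by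
    funext v
    exact (((d1 v).hasFDerivAt.const_mul a).add ((d2 v).hasFDerivAt.const_mul b)).fderiv
  have e2 : ∀ v, fderiv ℝ (fun v => a • fderiv ℝ Θ₁ v + b • fderiv ℝ Θ₂ v) v =
      a • fderiv ℝ (fderiv ℝ Θ₁) v + b • fderiv ℝ (fderiv ℝ Θ₂) v := fun v =>
    (((dd1 v).hasFDerivAt.const_smul a).add ((dd2 v).hasFDerivAt.const_smul b)).fderiv
  refine ⟨(contDiff_const.mul t1.smooth).add (contDiff_const.mul t2.smooth), ?_, ?_, ?_, ?_⟩
  · intro v hv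
    rw [t1.supp v (hR.trans hv), t2.supp v hv]
    ring
  · intro v
    refine (abs_add_le _ _).trans (le_trans ?_ hK)
    rw [abs_mul, abs_mul]
    exact add_le_add (mul_le_mul_of_nonneg_left (t1.le0 v) (abs_nonneg a))
      (mul_le_mul_of_nonneg_left (t2.le0 v) (abs_nonneg b))
  · intro v
    rw [e1]
    refine (norm_add_le _ _).trans (le_trans ?_ hK)
    rw [norm_smul, norm_smul, Real.norm_eq_abs, Real.norm_eq_abs]
    exact add_le_add (mul_le_mul_of_nonneg_left (t1.le1 v) (abs_nonneg a))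
      (mul_le_mul_of_nonneg_left (t2.le1 v) (abs_nonneg b))
  · intro v
    rw [e1, e2]
    refine (norm_add_le (a • fderiv ℝ (fderiv ℝ Θ₁) v) (b • fderiv ℝ (fderiv ℝ Θ₂) v)).trans
      (le_trans ?_ hK)
    refine add_le_add ((ContinuousLinearMap.opNorm_smul_le a _).trans ?_)
      ((ContinuousLinearMap.opNorm_smul_le b _).trans ?_)
    · rw [Real.norm_eq_abs]
      exact mul_le_mul_of_nonneg_left (t1.le2 v) (abs_nonneg a)
    · rw [Real.norm_eq_abs]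
      exact mul_le_mul_of_nonneg_left (t2.le2 v) (abs_nonneg b)

private lemma pd_comb {F G : Vec d → ℝ} (dF : Differentiable ℝ F) (dG : Differentiable ℝ G)
    (a b : ℝ) (k : Fin d) : pd k (fun v => a * F v + b * G v) =
      fun v => a * pd k F v + b * pd k G v := by
  funext v
  have h := (((dF v).hasFDerivAt.const_mul a).add ((dG v).hasFDerivAt.const_mul b)).fderiv
  have e : pd k (fun v => a * F v + b * G v) v =
      fderiv ℝ ((fun v => a * F v) + fun v => b * G v) v (Pi.single k 1) := rfl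
  rw [e, h]
  rfl

private lemma lint_comb {R R₂ K₁ K₂ : ℝ} {Θ₁ Θ₂ : Vec d → ℝ} (t1 : Tst R K₁ Θ₁)
    (t2 : Tst R₂ K₂ Θ₂) (a b δ : ℝ) (g : Vec d → ℝ) (v : Vec d) :
    lint γ δ g (fun v => a * Θ₁ v + b * Θ₂ v) v = a * lint γ δ g Θ₁ v + b * lint γ δ g Θ₂ v := by
  have d1 : Differentiable ℝ Θ₁ := t1.smooth.differentiable (by norm_num)
  have d2 : Differentiable ℝ Θ₂ := t2.smooth.differentiable (by norm_num)
  have dd1 : ∀ i, Differentiable ℝ (pd i Θ₁) := fun i =>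
    (tst_pd_C1 t1 i).differentiable (by norm_num)
  have dd2 : ∀ i, Differentiable ℝ (pd i Θ₂) := fun i =>
    (tst_pd_C1 t2 i).differentiable (by norm_num)
  have e1 : ∑ i, ∑ j, ab γ g i j v * pd i (pd j fun v => a * Θ₁ v + b * Θ₂ v) v =
      a * ∑ i, ∑ j, ab γ g i j v * pd i (pd j Θ₁) v +
      b * ∑ i, ∑ j, ab γ g i j v * pd i (pd j Θ₂) v := by
    rw [Finset.mul_sum, Finset.mul_sum, ← Finset.sum_add_distrib]
    refine Finset.sum_congr rfl fun i _ => ?_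
    rw [Finset.mul_sum, Finset.mul_sum, ← Finset.sum_add_distrib]
    refine Finset.sum_congr rfl fun j _ => ?_
    rw [pd_comb d1 d2 a b j, pd_comb (dd1 j) (dd2 j) a b i]
    ring
  have e2 : ∑ i, ∑ j, ab γ g i j v * (pd i (fun v => a * Θ₁ v + b * Θ₂ v) v *
      (kd δ (g v) * pd j g v)) =
      a * ∑ i, ∑ j, ab γ g i j v * (pd i Θ₁ v * (kd δ (g v) * pd j g v)) +
      b * ∑ i, ∑ j, ab γ g i j v * (pd i Θ₂ v * (kd δ (g v) * pd j g v)) := by
    rw [Finset.mul_sum, Finset.mul_sum, ← Finset.sum_add_distrib]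
    refine Finset.sum_congr rfl fun i _ => ?_
    rw [Finset.mul_sum, Finset.mul_sum, ← Finset.sum_add_distrib]
    refine Finset.sum_congr rfl fun j _ => ?_
    rw [pd_comb d1 d2 a b i]
    ring
  unfold lint
  rw [e1, e2]
  ring

private lemma lin_comb (h1 : -2 < γ) (h2 : γ ≤ 0) {δ : ℝ} (hδ : 0 < δ) {g : Vec d → ℝ}
    (hg : Nice g) (h0 : ∀ v, 0 ≤ g v) {R R₂ K₁ K₂ : ℝ} {Θ₁ Θ₂ : Vec d → ℝ} (t1 : Tst R K₁ Θ₁)
    (t2 : Tst R₂ K₂ Θ₂) (a b : ℝ) :
    lin γ δ g (fun v => a * Θ₁ v + b * Θ₂ v) = a * lin γ δ g Θ₁ + b * lin γ δ g Θ₂ := by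
  have e : ∀ Ψ : Vec d → ℝ, lin γ δ g Ψ = ∫ v, lint γ δ g Ψ v := fun _ => rfl
  rw [e, e, e, ← integral_const_mul, ← integral_const_mul, ← integral_add
    ((lint_int h1 h2 hδ hg h0 t1).const_mul a) ((lint_int h1 h2 hδ hg h0 t2).const_mul b)]
  exact integral_congr_ae (Eventually.of_forall fun v => lint_comb t1 t2 a b δ g v)

private lemma pdd_cont {g : Vec d → ℝ} (hg : Nice g) (i j : Fin d) :
    Continuous (pd i (pd j g)) := (hg.pd_cont1 j).clm_apply continuous_const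

private lemma pdd_RD {g : Vec d → ℝ} (hg : Nice g) (i j : Fin d) : RD (pd i (pd j g)) :=
  (hg.pd_rd1 j).mono 1 fun v => by rw [one_mul]; exact pd_le i (pd j g) v

private lemma landauQ_cont (h1 : -2 < γ) (h2 : γ ≤ 0) {g : Vec d → ℝ} (hg : Nice g) :
    Continuous (landauQ γ g) := by
  have e : landauQ γ g = fun v => ∑ i, ∑ j, (ab γ g i j v * pd i (pd j g) v -
      g v * ab γ (pd i (pd j g)) i j v) :=
    funext fun v => Pool.Agent.H82.LK.landauQ_eq h1 h2 hg v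
  rw [e]
  refine continuous_finsetSum _ fun i _ => continuous_finsetSum _ fun j _ => ?_
  exact ((ab_cont h1 h2 hg.cont hg.rd i j).mul (pdd_cont hg i j)).sub
    (hg.cont.mul (ab_cont h1 h2 (pdd_cont hg i j) (pdd_RD hg i j) i j))

private lemma src_int (h1 : -2 < γ) (h2 : γ ≤ 0) {δ : ℝ} (hδ : 0 < δ) {g : Vec d → ℝ}
    (hg : Nice g) (h0 : ∀ v, 0 ≤ g v) {R K : ℝ} {Θ : Vec d → ℝ} (t : Tst R K Θ) :
    Integrable fun v => Θ v * (kd δ (g v) * landauQ γ g v) :=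
  cs_int (t.smooth.continuous.mul ((kd_cont hδ hg h0).mul (landauQ_cont h1 h2 hg))) (R := R)
    fun v hv => by rw [t.supp v hv, zero_mul]

private lemma src_comb (h1 : -2 < γ) (h2 : γ ≤ 0) {δ : ℝ} (hδ : 0 < δ) {g : Vec d → ℝ}
    (hg : Nice g) (h0 : ∀ v, 0 ≤ g v) {R R₂ K₁ K₂ : ℝ} {Θ₁ Θ₂ : Vec d → ℝ} (t1 : Tst R K₁ Θ₁)
    (t2 : Tst R₂ K₂ Θ₂) (a b : ℝ) :
    src (landauQ γ) δ g (fun v => a * Θ₁ v + b * Θ₂ v) =
      a * src (landauQ γ) δ g Θ₁ + b * src (landauQ γ) δ g Θ₂ := by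
  unfold src
  rw [← integral_const_mul, ← integral_const_mul, ← integral_add
    ((src_int h1 h2 hδ hg h0 t1).const_mul a) ((src_int h1 h2 hδ hg h0 t2).const_mul b)]
  exact integral_congr_ae (Eventually.of_forall fun v => by simp only; ring)

private lemma lam_half_le : lam (1 / 2) ≤ 1 := by
  unfold lam
  rw [one_div, Real.log_inv, neg_neg]
  exact Real.log_two_lt_d9.le.trans (by norm_num)

/-- the bound of `lin` by the dissipation of a cut-off -/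
private lemma lin_abs (d : ℕ) (h1 : -2 < γ) (h2 : γ ≤ 0) {R : ℝ} (hR : 0 < R) :
    ∃ C : ℝ, 0 ≤ C ∧ ∀ g : Vec d → ℝ, Nice g → (∀ v, 0 ≤ g v) →
      ∀ (K : ℝ) (Θ : Vec d → ℝ), Tst R K Θ → ∀ (R₂ K₂ : ℝ) (χ : Vec d → ℝ), Tst R₂ K₂ χ →
      (∀ v, 0 ≤ χ v) → (∀ v, ‖v‖ ≤ R → χ v = 1) →
        |lin γ (1 / 2) g Θ| ≤ K * (diss γ (1 / 2) g χ + C * kap (γ + 2) g) := by
  obtain ⟨C₁, hC₁, hab⟩ := ab_le (d := d) h1 h2 hR
  obtain ⟨C₂, hC₂, hcs⟩ := ab_cauchy (d := d) h1 h2 hR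
  refine ⟨(d * d * C₁ + d * C₂) * (2 * R) ^ d, by positivity, ?_⟩
  intro g hg h0 K Θ hΘ R₂ K₂ χ hχ hχ0 hχ1
  have hδ : (0 : ℝ) < 1 / 2 := by norm_num
  have hδ1 : (1 / 2 : ℝ) ≤ 1 := by norm_num
  have hK := tst_nn hΘ
  have hkap := kap_nonneg (γ + 2) h0
  obtain ⟨k, hk⟩ : ∃ k, k = kap (γ + 2) g := ⟨_, rfl⟩
  rw [← hk] at hkap
  have hpt : ∀ v, |lint γ (1 / 2) g Θ v| ≤ K * (χ v * dq γ (1 / 2) g v) +
      (Metric.closedBall (0 : Vec d) R).indicator
      (fun v => 0 * uf (1 / 2) (g v) + (d * d * C₁ + d * C₂) * k * K) v := by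
    intro v
    have hdq := dq_nonneg h1 h2 (1 / 2) hg h0 v
    by_cases hv : ‖v‖ ≤ R
    · have hm : v ∈ Metric.closedBall (0 : Vec d) R := by
        rw [Metric.mem_closedBall, dist_zero_right]; exact hv
      rw [indicator_of_mem hm, hχ1 v hv, one_mul]
      have hu := uf_nonneg hδ hδ1 (h0 v)
      have hu1 := (uf_le_lam hδ hδ1 (h0 v)).trans lam_half_le
      have hP := sum_le (A := C₁ * k) (B := K) (mul_nonneg hC₁ hkap)
        (a := fun i j => ab γ g i j v) (b := fun i j => pd i (pd j Θ) v)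
        (fun i j => by rw [hk]; exact hab g hg h0 i j v hv) (fun i j => pdd_abs_le hΘ i j v)
      have hP2 : |uf (1 / 2) (g v) * ∑ i, ∑ j, ab γ g i j v * pd i (pd j Θ) v| ≤
          1 * (d * d * (C₁ * k * K)) := by
        rw [abs_mul, abs_of_nonneg hu]
        exact mul_le_mul hu1 hP (abs_nonneg _) zero_le_one
      have hX : |2 * ∑ i, ∑ j, ab γ g i j v * (pd i Θ v * (kd (1 / 2) (g v) * pd j g v))| ≤
          K * dq γ (1 / 2) g v + d * C₂ * k * K := by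
        rw [abs_mul, abs_two]
        rcases hK.eq_or_lt with hz | hz
        · have h4 : ∀ i, pd i Θ v = 0 := by
            intro i
            have h5 := (pd_le i Θ v).trans (hΘ.le1 v)
            rw [← hz] at h5
            exact abs_nonpos_iff.1 h5
          have e2 : ∑ i, ∑ j, ab γ g i j v * (pd i Θ v * (kd (1 / 2) (g v) * pd j g v)) = 0 :=
            Finset.sum_eq_zero fun i _ => Finset.sum_eq_zero fun j _ => by
              rw [h4 i, zero_mul, mul_zero]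
          rw [e2, abs_zero, mul_zero, ← hz]
          simp
        · have h3 := hcs g hg h0 v hv (fun i => pd i Θ v) (fun j => kd (1 / 2) (g v) * pd j g v)
            K hz
          refine h3.trans ?_
          have h4 := grad_nsq_le hΘ v
          rw [← hk]
          have h5 : C₂ / K * k * nsq (fun i => pd i Θ v) ≤ C₂ / K * k * (d * K ^ 2) :=
            mul_le_mul_of_nonneg_left h4 (by positivity)
          have h6 : C₂ / K * k * (d * K ^ 2) = d * C₂ * k * K := by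
            field_simp
          rw [h6] at h5
          exact add_le_add le_rfl h5
      have h7 := abs_sub (uf (1 / 2) (g v) * ∑ i, ∑ j, ab γ g i j v * pd i (pd j Θ) v)
        (2 * ∑ i, ∑ j, ab γ g i j v * (pd i Θ v * (kd (1 / 2) (g v) * pd j g v)))
      unfold lint
      linarith
    · have hv' : R < ‖v‖ := not_le.1 hv
      have hm : v ∉ Metric.closedBall (0 : Vec d) R := by
        rw [Metric.mem_closedBall, dist_zero_right]; exact hv
      rw [indicator_of_notMem hm, lint_supp _ g hΘ hv', abs_zero, add_zero]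
      exact mul_nonneg hK (mul_nonneg (hχ0 v) hdq)
  have hi1 : Integrable fun v => χ v * dq γ (1 / 2) g v :=
    cs_int (hχ.smooth.continuous.mul (dq_cont h1 h2 hδ hg h0)) (R := R₂) fun v hv => by
      rw [hχ.supp v hv, zero_mul]
  have hi2 := ball_intble hδ hδ1 R hg.cont h0 0 ((d * d * C₁ + d * C₂) * k * K)
  have hi3 := lint_int h1 h2 hδ hg h0 hΘ
  have hm := integral_mono hi3.abs ((hi1.const_mul K).add hi2) hpt
  have e1 : ∫ v, ((fun v => K * (χ v * dq γ (1 / 2) g v)) +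
      (Metric.closedBall (0 : Vec d) R).indicator
      (fun v => 0 * uf (1 / 2) (g v) + (d * d * C₁ + d * C₂) * k * K) : Vec d → ℝ) v =
      K * (diss γ (1 / 2) g χ + (d * d * C₁ + d * C₂) * (2 * R) ^ d * k) := by
    rw [integral_add' (hi1.const_mul K) hi2, ball_int hδ hδ1 hR hg.cont h0, integral_const_mul]
    unfold diss dq
    ring
  rw [e1] at hm
  rw [← hk]
  exact (abs_integral_le_integral_abs (f := lint γ (1 / 2) g Θ)).trans hm

theorem source_landau (hd : 2 ≤ d) (h1 : -2 < γ) (h2 : γ ≤ 0) {R : ℝ} (hR : 0 < R) :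
    ∃ (C R' : ℝ) (φ : Vec d → ℝ), 0 ≤ C ∧ 0 < R' ∧ Tst R' C φ ∧ (∀ v, 0 ≤ φ v) ∧
    ∀ g : Vec d → ℝ, Nice g → (∀ v, 0 ≤ g v) → ∀ (K : ℝ) (Θ : Vec d → ℝ), Tst R K Θ →
      |src (landauQ γ) (1 / 2) g Θ| ≤
        K * (C * (kap (γ + 2) g + src (landauQ γ) (1 / 2) g φ)) := by
  obtain ⟨K₀, χ, hχ, hχ0, hχ1, hχR⟩ := exists_chi d hR
  have hK₀ := tst_nn hχ
  have h2R : 0 < 2 * R := by linarith
  obtain ⟨C₁, hC₁, hlow⟩ := lin_lower d h1 h2 h2R
  obtain ⟨C₂, hC₂, habs⟩ := lin_abs d h1 h2 hR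
  have hδ : (0 : ℝ) < 1 / 2 := by norm_num
  have hδ1 : (1 / 2 : ℝ) ≤ 1 := by norm_num
  obtain ⟨V, hV⟩ : ∃ V, V = (2 * (2 * R)) ^ d := ⟨_, rfl⟩
  have hV0 : 0 ≤ V := by rw [hV]; positivity
  obtain ⟨C₃, hC₃⟩ : ∃ C₃, C₃ = 4 * (C₁ * K₀ * (1 + V)) + C₂ := ⟨_, rfl⟩
  have hC₃0 : 0 ≤ C₃ := by rw [hC₃]; positivity
  obtain ⟨C, hC⟩ : ∃ C, C = C₃ + 4 + K₀ := ⟨_, rfl⟩
  have hC4 : 4 ≤ C := by linarith
  have hCp : 0 < C := by linarith
  refine ⟨C, 2 * R, fun v => 4 / C * χ v + 0 * χ v, hCp.le, h2R, ?_, ?_, ?_⟩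
  · refine tst_comb hχ hχ (4 / C) 0 le_rfl ?_
    rw [abs_of_nonneg (by positivity), abs_zero, zero_mul, add_zero]
    have : 4 / C ≤ 1 := (div_le_one hCp).2 hC4
    nlinarith
  · intro v
    have := hχ0 v
    positivity
  intro g hg h0 K Θ hΘ
  have hK := tst_nn hΘ
  have hkap := kap_nonneg (γ + 2) h0
  obtain ⟨k, hk⟩ : ∃ k, k = kap (γ + 2) g := ⟨_, rfl⟩
  rw [← hk] at hkap ⊢
  -- the positive functional `N`
  have hN : ∀ (R' K' : ℝ) (Ψ : Vec d → ℝ), Tst R' K' Ψ → (∀ v, 0 ≤ Ψ v) →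
      diss γ (1 / 2) g Ψ ≤ src (landauQ γ) (1 / 2) g Ψ - lin γ (1 / 2) g Ψ := fun R' K' Ψ t hp => by
    have := fiber_ineq hd h1 h2 hδ hδ1 hg h0 t hp
    linarith
  have hNχ := hN _ _ χ hχ hχ0
  have hdχ := diss_nonneg (δ := 1 / 2) h1 h2 hg h0 hχ0
  obtain ⟨S, hS⟩ : ∃ S, S = src (landauQ γ) (1 / 2) g χ := ⟨_, rfl⟩
  obtain ⟨L, hL⟩ : ∃ L, L = lin γ (1 / 2) g χ := ⟨_, rfl⟩
  obtain ⟨D, hD⟩ : ∃ D, D = diss γ (1 / 2) g χ := ⟨_, rfl⟩
  -- domination
  have hdom : ∀ v, |Θ v| ≤ K * χ v := by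
    intro v
    rcases le_or_gt ‖v‖ R with hv | hv
    · rw [hχR v hv, mul_one]; exact hΘ.le0 v
    · rw [hΘ.supp v hv.le, abs_zero]; exact mul_nonneg hK (hχ0 v)
  have hab : |src (landauQ γ) (1 / 2) g Θ - lin γ (1 / 2) g Θ| ≤ K * (S - L) := by
    have hp : ∀ b : ℝ, |b| = 1 → 0 ≤ b * (src (landauQ γ) (1 / 2) g Θ - lin γ (1 / 2) g Θ) +
        K * (S - L) := by
      intro b hb
      have t := tst_comb hΘ hχ b K (by linarith) le_rfl
      have hnn : ∀ v, 0 ≤ b * Θ v + K * χ v := by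
        intro v
        have h3 := hdom v
        have h4 : |b * Θ v| ≤ K * χ v := by rw [abs_mul, hb, one_mul]; exact h3
        have := (abs_le.1 h4).1
        linarith
      have h5 := hN _ _ _ t hnn
      have h6 := diss_nonneg (δ := 1 / 2) h1 h2 hg h0 hnn
      rw [src_comb h1 h2 hδ hg h0 hΘ hχ b K, lin_comb h1 h2 hδ hg h0 hΘ hχ b K] at h5
      rw [hS, hL]
      linarith
    have hp1 := hp 1 (by norm_num)
    have hp2 := hp (-1) (by norm_num)
    rw [abs_le]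
    constructor <;> linarith
  have hlΘ := habs g hg h0 K Θ hΘ _ _ χ hχ hχ0 hχR
  have hlχ := hlow (1 / 2) ⟨hδ, hδ1⟩ g hg h0 K₀ χ hχ hχ0
  have hub : ub (1 / 2) (2 * R) g ≤ V := by
    rw [hV]
    refine (ub_le hδ hδ1 h2R.le hg.cont h0).trans ?_
    have := lam_half_le
    have h3 : 0 ≤ (2 * (2 * R)) ^ d := by positivity
    nlinarith
  rw [← hk, ← hD] at hlΘ hlχ
  rw [← hS, ← hL, ← hD] at hNχ
  rw [← hD] at hdχ
  rw [← hL] at hlχ
  have h3 : C₁ * K₀ * k * (1 + ub (1 / 2) (2 * R) g) ≤ C₁ * K₀ * k * (1 + V) :=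
    mul_le_mul_of_nonneg_left (by linarith) (by positivity)
  -- `N χ ≤ 2 S + 2 c k`
  have h4 : S - L ≤ 2 * S + 2 * (C₁ * K₀ * (1 + V)) * k := by nlinarith
  have h5 : |src (landauQ γ) (1 / 2) g Θ| ≤ K * (S - L) + K * (D + C₂ * k) := by
    have h6 : src (landauQ γ) (1 / 2) g Θ =
      (src (landauQ γ) (1 / 2) g Θ - lin γ (1 / 2) g Θ) + lin γ (1 / 2) g Θ := by ring
    rw [h6]
    exact (abs_add_le _ _).trans (add_le_add hab hlΘ)
  have h7 : S - L + (D + C₂ * k) ≤ 4 * S + C₃ * k := by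
    rw [hC₃]; nlinarith
  have h8 : src (landauQ γ) (1 / 2) g (fun v => 4 / C * χ v + 0 * χ v) = 4 / C * S := by
    rw [src_comb h1 h2 hδ hg h0 hχ hχ, ← hS]; ring
  rw [h8]
  refine h5.trans ?_
  rw [← mul_add]
  refine mul_le_mul_of_nonneg_left ?_ hK
  have h9 : C * (k + 4 / C * S) = C * k + 4 * S := by
    field_simp
  rw [h9]
  have h10 : C₃ * k ≤ C * k := mul_le_mul_of_nonneg_right (by linarith) hkap
  linarith

end Pool.Agent.H15.AV
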