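import Pool.Agent.H15.AV.LCo
import Pool.Agent.H82.LK.Lim
import Pool.Agent.H82.LK.Refl

/-!
# The zero order term of the Landau operator has a sign

MODULE LDv. `∑ ∂_i ∂_j a_ij(z) = -(d-1)(d+γ) |z|^γ ≤ 0` for `d + γ ≥ 0`. Same proof as
`reg_ibp` (H82/LK/Reg) and `lim_ibp` (H82/LK/Lim), with the other inequality: for the regularized
matrix `∑ ∂_i ∂_j regA = -(d-1)(d (nsq z+ε)^(γ/2) + γ nsq z (nsq z+ε)^(γ/2-1)) ≤ 0`, so for
`φ ≥ 0`: `∑ ∫ regA γ ε z i j * pd i (pd j φ) z ≤ 0`, then `ε → 0`. (Private helper lemmas of these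
files may be copied.) Finally `φ z = g (v - z)` with `nice_refl`, `pd_pd_refl`.
-/

set_option autoImplicit false

open MeasureTheory Set Filter Topology Pool.Agent.H25.Kin Pool.Agent.H82.LK

namespace Pool.Agent.H15.AV

variable {d : ℕ} {γ : ℝ}

/-- differentiable, of polynomial growth together with the derivative -/
private structure PD (f : Vec d → ℝ) : Prop where
  diff : Differentiable ℝ f
  pg : PG f
  pg1 : PG (fderiv ℝ f)

private theorem PG.norm_smul' {h : Vec d → ℝ} {k : Vec d → (Vec d →L[ℝ] ℝ)} (hh : PG h)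
    (hk : PG k) : PG (fun v => h v • k v) := by
  obtain ⟨N, C, hC0, hC⟩ := hh.pos
  obtain ⟨M, D, hD0, hD⟩ := hk.pos
  refine ⟨N + M, C * D, fun v => ?_⟩
  calc ‖h v • k v‖ = ‖h v‖ * ‖k v‖ := norm_smul _ _
    _ ≤ (C * (1 + ‖v‖) ^ N) * (D * (1 + ‖v‖) ^ M) := by
        gcongr
        · exact hC v
        · exact hD v
    _ = C * D * (1 + ‖v‖) ^ (N + M) := by ring

private theorem PD.const (c : ℝ) : PD (fun _ : Vec d => c) := by
  refine ⟨differentiable_const c, PG.const c, ?_⟩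
  have : fderiv ℝ (fun _ : Vec d => c) = fun _ => 0 := by
    funext v
    simp
  rw [this]
  exact PG.const 0

private theorem PD.coord (i : Fin d) : PD (fun v : Vec d => v i) := by
  have h1 : ∀ v : Vec d, HasFDerivAt (fun v : Vec d => v i)
      (ContinuousLinearMap.proj (R := ℝ) (φ := fun _ : Fin d => ℝ) i) v := fun v =>
    (ContinuousLinearMap.proj (R := ℝ) (φ := fun _ : Fin d => ℝ) i).hasFDerivAt
  refine ⟨fun v => (h1 v).differentiableAt, PG.coord i, ?_⟩
  have : fderiv ℝ (fun v : Vec d => v i) = fun _ =>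
      ContinuousLinearMap.proj (R := ℝ) (φ := fun _ : Fin d => ℝ) i := by
    funext v
    exact (h1 v).fderiv
  rw [this]
  exact PG.const _

private theorem PD.add {f g : Vec d → ℝ} (hf : PD f) (hg : PD g) : PD (fun v => f v + g v) := by
  refine ⟨hf.diff.add hg.diff, hf.pg.add hg.pg, ?_⟩
  have : fderiv ℝ (fun v => f v + g v) = fun v => fderiv ℝ f v + fderiv ℝ g v := by
    funext v
    exact ((hf.diff v).hasFDerivAt.add (hg.diff v).hasFDerivAt).fderiv
  rw [this]
  exact hf.pg1.add hg.pg1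

private theorem PD.mul {f g : Vec d → ℝ} (hf : PD f) (hg : PD g) : PD (fun v => f v * g v) := by
  refine ⟨hf.diff.mul hg.diff, hf.pg.mul hg.pg, ?_⟩
  have : fderiv ℝ (fun v => f v * g v) = fun v => f v • fderiv ℝ g v + g v • fderiv ℝ f v := by
    funext v
    exact ((hf.diff v).hasFDerivAt.mul (hg.diff v).hasFDerivAt).fderiv
  rw [this]
  exact (PG.norm_smul' hf.pg hg.pg1).add (PG.norm_smul' hg.pg hf.pg1)

private theorem PD.neg {f : Vec d → ℝ} (hf : PD f) : PD (fun v => -f v) := by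
  have := (PD.const (d := d) (-1)).mul hf
  simpa using this

private theorem PD.sub {f g : Vec d → ℝ} (hf : PD f) (hg : PD g) : PD (fun v => f v - g v) := by
  have := hf.add hg.neg
  simpa [sub_eq_add_neg] using this

private theorem PD.nsq : PD (fun v : Vec d => nsq v) := by
  have h1 : ∀ s : Finset (Fin d), PD (fun v : Vec d => ∑ i ∈ s, v i ^ 2) := by
    intro s
    classical
    induction s using Finset.induction_on with
    | empty => simpa using PD.const (d := d) (0 : ℝ)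
    | insert a s ha ih =>
      have h2 := ((PD.coord a).mul (PD.coord a)).add ih
      simpa [Finset.sum_insert ha, pow_two] using h2
  exact h1 Finset.univ

private theorem pd_add' {f g : Vec d → ℝ} (hf : PD f) (hg : PD g) (i : Fin d) (v : Vec d) :
    pd i (fun v => f v + g v) v = pd i f v + pd i g v := by
  unfold pd
  have := ((hf.diff v).hasFDerivAt.add (hg.diff v).hasFDerivAt).fderiv
  change fderiv ℝ (fun v => f v + g v) v = _ at this
  rw [this]
  rfl

private theorem pd_sub' {f g : Vec d → ℝ} (hf : PD f) (hg : PD g) (i : Fin d) (v : Vec d) :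
    pd i (fun v => f v - g v) v = pd i f v - pd i g v := by
  unfold pd
  have := ((hf.diff v).hasFDerivAt.sub (hg.diff v).hasFDerivAt).fderiv
  change fderiv ℝ (fun v => f v - g v) v = _ at this
  rw [this]
  rfl

private theorem pd_mul' {f g : Vec d → ℝ} (hf : PD f) (hg : PD g) (i : Fin d) (v : Vec d) :
    pd i (fun v => f v * g v) v = pd i f v * g v + f v * pd i g v := by
  unfold pd
  have := ((hf.diff v).hasFDerivAt.mul (hg.diff v).hasFDerivAt).fderiv
  change fderiv ℝ (fun v => f v * g v) v = _ at this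
  rw [this]
  simp only [ContinuousLinearMap.add_apply, ContinuousLinearMap.smul_apply, smul_eq_mul]
  ring

private theorem pd_const' (c : ℝ) (i : Fin d) (v : Vec d) :
    pd i (fun _ : Vec d => c) v = 0 := by
  unfold pd
  simp

private theorem pd_coord' (i j : Fin d) (v : Vec d) :
    pd i (fun v : Vec d => v j) v = if i = j then 1 else 0 := by
  unfold pd
  have h1 : HasFDerivAt (fun v : Vec d => v j)
      (ContinuousLinearMap.proj (R := ℝ) (φ := fun _ : Fin d => ℝ) j) v :=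
    (ContinuousLinearMap.proj (R := ℝ) (φ := fun _ : Fin d => ℝ) j).hasFDerivAt
  rw [h1.fderiv, ContinuousLinearMap.proj_apply, Pi.single_apply]
  simp only [eq_comm]

private theorem pd_nsq' (i : Fin d) (v : Vec d) : pd i (fun v : Vec d => nsq v) v = 2 * v i := by
  have h1 : ∀ s : Finset (Fin d), PD (fun v : Vec d => ∑ k ∈ s, v k ^ 2) ∧
      pd i (fun v : Vec d => ∑ k ∈ s, v k ^ 2) v = ∑ k ∈ s, if i = k then 2 * v k else 0 := by
    intro s
    classical
    induction s using Finset.induction_on with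
    | empty =>
      refine ⟨by simpa using PD.const (d := d) (0 : ℝ), ?_⟩
      simpa using pd_const' (d := d) 0 i v
    | insert a s ha ih =>
      have h2 := ((PD.coord a).mul (PD.coord a)).add ih.1
      have h3 := pd_add' ((PD.coord a).mul (PD.coord a)) ih.1 i v
      rw [pd_mul' (PD.coord a) (PD.coord a), pd_coord', ih.2] at h3
      refine ⟨by simpa [Finset.sum_insert ha, pow_two] using h2, ?_⟩
      have e : (fun v : Vec d => ∑ k ∈ insert a s, v k ^ 2) =
          fun v => v a * v a + ∑ k ∈ s, v k ^ 2 := by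
        funext w
        rw [Finset.sum_insert ha, pow_two]
      rw [e, h3, Finset.sum_insert ha]
      congr 1
      split_ifs <;> ring
  have h2 := (h1 Finset.univ).2
  rw [Finset.sum_ite_eq, if_pos (Finset.mem_univ i)] at h2
  exact h2

section weight

variable {ε : ℝ}

private theorem base_pos (hε : 0 < ε) (z : Vec d) : 0 < nsq z + ε := by
  have := sq_nonneg' z
  linarith

private theorem rpow_PG (hε : 0 < ε) {b : ℝ} (hb : b ≤ 0) :
    PG (fun z : Vec d => (nsq z + ε) ^ b) := by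
  refine ⟨0, ε ^ b, fun z => ?_⟩
  rw [pow_zero, mul_one, Real.norm_eq_abs, abs_of_nonneg (Real.rpow_nonneg (base_pos hε z).le _)]
  refine Real.rpow_le_rpow_of_nonpos hε ?_ hb
  have := sq_nonneg' z
  linarith

private theorem wt_hasFDerivAt (hε : 0 < ε) (γ : ℝ) (z : Vec d) :
    HasFDerivAt (fun z : Vec d => (nsq z + ε) ^ (γ / 2))
      ((γ / 2 * (nsq z + ε) ^ (γ / 2 - 1)) • fderiv ℝ (fun v : Vec d => nsq v) z) z := by
  have h1 : HasFDerivAt (fun z : Vec d => nsq z + ε)
      (fderiv ℝ (fun v : Vec d => nsq v) z) z := by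
    have := (PD.nsq.diff z).hasFDerivAt (𝕜 := ℝ)
    exact this.add_const ε
  have h2 := h1.rpow_const (p := γ / 2) (Or.inl (base_pos hε z).ne')
  exact h2

private theorem wt_PD (hε : 0 < ε) (h2 : γ ≤ 0) :
    PD (fun z : Vec d => (nsq z + ε) ^ (γ / 2)) := by
  refine ⟨fun z => (wt_hasFDerivAt hε γ z).differentiableAt, rpow_PG hε (by linarith), ?_⟩
  have e : fderiv ℝ (fun z : Vec d => (nsq z + ε) ^ (γ / 2)) = fun z =>
      (γ / 2 * (nsq z + ε) ^ (γ / 2 - 1)) • fderiv ℝ (fun v : Vec d => nsq v) z := by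
    funext z
    exact (wt_hasFDerivAt hε γ z).fderiv
  rw [e]
  exact PG.norm_smul' ((PG.const (γ / 2)).mul (rpow_PG hε (by linarith))) PD.nsq.pg1

private theorem pd_wt (hε : 0 < ε) (γ : ℝ) (i : Fin d) (z : Vec d) :
    pd i (fun z : Vec d => (nsq z + ε) ^ (γ / 2)) z =
      γ * (nsq z + ε) ^ (γ / 2 - 1) * z i := by
  have h1 : pd i (fun z : Vec d => (nsq z + ε) ^ (γ / 2)) z =
      (γ / 2 * (nsq z + ε) ^ (γ / 2 - 1)) * pd i (fun v : Vec d => nsq v) z := by
    unfold pd
    rw [(wt_hasFDerivAt hε γ z).fderiv]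
    rfl
  rw [h1, pd_nsq']
  ring

private theorem coef_PD (i j : Fin d) :
    PD (fun z : Vec d => (if i = j then nsq z else 0) - z i * z j) := by
  have h1 : PD (fun z : Vec d => (if i = j then nsq z else 0)) := by
    by_cases h : i = j
    · simpa [h] using PD.nsq (d := d)
    · simpa [h] using PD.const (d := d) 0
  exact h1.sub ((PD.coord i).mul (PD.coord j))

private theorem pd_coef (i j : Fin d) (z : Vec d) :
    pd i (fun z : Vec d => (if i = j then nsq z else 0) - z i * z j) z =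
      (if i = j then 2 * z i else 0) - (z j + if i = j then z i else 0) := by
  have h1 : PD (fun z : Vec d => (if i = j then nsq z else 0)) := by
    by_cases h : i = j
    · simpa [h] using PD.nsq (d := d)
    · simpa [h] using PD.const (d := d) 0
  rw [pd_sub' h1 ((PD.coord i).mul (PD.coord j)), pd_mul' (PD.coord i) (PD.coord j), pd_coord',
    pd_coord']
  have h2 : pd i (fun z : Vec d => (if i = j then nsq z else 0)) z =
      if i = j then 2 * z i else 0 := by
    by_cases h : i = j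
    · simp only [h, if_true]
      exact pd_nsq' j z
    · simp only [h, if_false]
      exact pd_const' 0 i z
  rw [h2]
  congr 1
  rw [if_pos rfl, one_mul]
  split_ifs <;> simp

private theorem regA_PD (hε : 0 < ε) (h2 : γ ≤ 0) (i j : Fin d) :
    PD (fun z : Vec d => regA γ ε z i j) := (coef_PD i j).mul (wt_PD hε h2)

private theorem pd_regA (hε : 0 < ε) (h2 : γ ≤ 0) (i j : Fin d) (z : Vec d) :
    pd i (fun z : Vec d => regA γ ε z i j) z =
      ((if i = j then 2 * z i else 0) - (z j + if i = j then z i else 0)) *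
        (nsq z + ε) ^ (γ / 2) +
      ((if i = j then nsq z else 0) - z i * z j) * (γ * (nsq z + ε) ^ (γ / 2 - 1) * z i) := by
  have h := pd_mul' (coef_PD i j) (wt_PD hε h2) i z
  rw [pd_coef, pd_wt hε] at h
  exact h

private theorem sum_pd_regA (hε : 0 < ε) (h2 : γ ≤ 0) (j : Fin d) (z : Vec d) :
    ∑ i, pd i (fun z : Vec d => regA γ ε z i j) z =
      -((d : ℝ) - 1) * (z j * (nsq z + ε) ^ (γ / 2)) := by
  simp_rw [pd_regA hε h2]
  rw [Finset.sum_add_distrib, ← Finset.sum_mul]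
  have h3 : ∑ i : Fin d, ((if i = j then 2 * z i else 0) - (z j + if i = j then z i else 0)) =
      -((d : ℝ) - 1) * z j := by
    rw [Finset.sum_sub_distrib, Finset.sum_add_distrib, Finset.sum_ite_eq', Finset.sum_ite_eq',
      if_pos (Finset.mem_univ j), if_pos (Finset.mem_univ j)]
    simp
    ring
  have h4 : ∑ i : Fin d, ((if i = j then nsq z else 0) - z i * z j) *
      (γ * (nsq z + ε) ^ (γ / 2 - 1) * z i) = 0 := by
    have h5 : ∀ i : Fin d, ((if i = j then nsq z else 0) - z i * z j) *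
        (γ * (nsq z + ε) ^ (γ / 2 - 1) * z i) = (γ * (nsq z + ε) ^ (γ / 2 - 1)) *
          ((if i = j then nsq z * z i else 0) - z i ^ 2 * z j) := by
      intro i
      split_ifs <;> ring
    simp_rw [h5]
    rw [← Finset.mul_sum, Finset.sum_sub_distrib, Finset.sum_ite_eq',
      if_pos (Finset.mem_univ j), ← Finset.sum_mul]
    have h6 : ∑ i : Fin d, z i ^ 2 = nsq z := rfl
    rw [h6, sub_self, mul_zero]
  rw [h3, h4, add_zero]
  ring

private theorem zh_PD (hε : 0 < ε) (h2 : γ ≤ 0) (j : Fin d) :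
    PD (fun z : Vec d => z j * (nsq z + ε) ^ (γ / 2)) := (PD.coord j).mul (wt_PD hε h2)

private theorem pd_zh (hε : 0 < ε) (h2 : γ ≤ 0) (j : Fin d) (z : Vec d) :
    pd j (fun z : Vec d => z j * (nsq z + ε) ^ (γ / 2)) z =
      (nsq z + ε) ^ (γ / 2) + z j ^ 2 * (γ * (nsq z + ε) ^ (γ / 2 - 1)) := by
  have h := pd_mul' (PD.coord j) (wt_PD hε h2) j z
  rw [pd_coord', if_pos rfl, pd_wt hε] at h
  rw [h]
  ring

private theorem sum_pd_zh (hε : 0 < ε) (h2 : γ ≤ 0) (z : Vec d) :
    ∑ j, pd j (fun z : Vec d => z j * (nsq z + ε) ^ (γ / 2)) z =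
      d * (nsq z + ε) ^ (γ / 2) + nsq z * (γ * (nsq z + ε) ^ (γ / 2 - 1)) := by
  simp_rw [pd_zh hε h2]
  rw [Finset.sum_add_distrib, ← Finset.sum_mul]
  have h6 : ∑ i : Fin d, z i ^ 2 = nsq z := rfl
  rw [h6]
  simp

end weight

private theorem pd_measurable (i : Fin d) (f : Vec d → ℝ) : Measurable (pd i f) :=
  measurable_fderiv_apply_const ℝ f _

private theorem pd_PG {f : Vec d → ℝ} (hf : PD f) (i : Fin d) : PG (pd i f) := by
  obtain ⟨N, C, hC⟩ := hf.pg1
  exact ⟨N, C, fun v => (pd_le i f v).trans (hC v)⟩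

private theorem reg_nonpos (hd : 2 ≤ d) (h1 : -2 < γ) (h2 : γ ≤ 0) {φ : Vec d → ℝ} (hφ : Nice φ)
    (h0 : ∀ z, 0 ≤ φ z) {ε : ℝ} (hε : 0 < ε) :
    ∑ i, ∑ j, ∫ z, regA γ ε z i j * pd i (pd j φ) z ≤ 0 := by
  have hd' : (0 : ℝ) ≤ (d : ℝ) - 1 := by
    have : (2 : ℝ) ≤ d := by exact_mod_cast hd
    linarith
  -- first integration by parts
  have s1 : ∀ i j : Fin d, ∫ z, regA γ ε z i j * pd i (pd j φ) z =
      -∫ z, pd j φ z * pd i (fun z : Vec d => regA γ ε z i j) z := by
    intro i j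
    have hA := regA_PD (d := d) hε h2 i j
    rw [← ibp (hφ.pd_diff j) (hφ.pd_RD j) (hφ.pd_rd1 j) hA.diff hA.pg hA.pg1 i]
    refine integral_congr_ae (Filter.Eventually.of_forall fun z => ?_)
    exact mul_comm _ _
  have i1 : ∀ i j : Fin d, Integrable fun z =>
      pd j φ z * pd i (fun z : Vec d => regA γ ε z i j) z := by
    intro i j
    refine ((hφ.pd_RD j).mul_PG (pd_PG (regA_PD hε h2 i j) i)).integrable ?_
    exact ((hφ.pd_cont j).measurable.mul (pd_measurable i _)).aestronglyMeasurable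
  have s2 : ∀ j : Fin d, ∑ i, ∫ z, regA γ ε z i j * pd i (pd j φ) z =
      ((d : ℝ) - 1) * ∫ z, pd j φ z * (z j * (nsq z + ε) ^ (γ / 2)) := by
    intro j
    simp_rw [s1]
    rw [Finset.sum_neg_distrib, ← integral_finsetSum _ (fun i _ => i1 i j)]
    have e : ∀ z : Vec d, ∑ i, pd j φ z * pd i (fun z : Vec d => regA γ ε z i j) z =
        -((d : ℝ) - 1) * (pd j φ z * (z j * (nsq z + ε) ^ (γ / 2))) := by
      intro z
      rw [← Finset.mul_sum, sum_pd_regA hε h2]
      ring
    simp_rw [e]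
    rw [integral_const_mul]
    ring
  -- second integration by parts
  have s3 : ∀ j : Fin d, ∫ z, pd j φ z * (z j * (nsq z + ε) ^ (γ / 2)) =
      -∫ z, φ z * pd j (fun z : Vec d => z j * (nsq z + ε) ^ (γ / 2)) z := by
    intro j
    have hA := zh_PD (d := d) hε h2 j
    exact ibp hφ.diff hφ.rd hφ.rd1 hA.diff hA.pg hA.pg1 j
  have i3 : ∀ j : Fin d, Integrable fun z =>
      φ z * pd j (fun z : Vec d => z j * (nsq z + ε) ^ (γ / 2)) z := by
    intro j
    refine (hφ.rd.mul_PG (pd_PG (zh_PD hε h2 j) j)).integrable ?_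
    exact (hφ.cont.measurable.mul (pd_measurable j _)).aestronglyMeasurable
  have s4 : ∑ i, ∑ j, ∫ z, regA γ ε z i j * pd i (pd j φ) z =
      -((d : ℝ) - 1) * ∫ z, φ z * (d * (nsq z + ε) ^ (γ / 2) +
        nsq z * (γ * (nsq z + ε) ^ (γ / 2 - 1))) := by
    rw [Finset.sum_comm]
    simp_rw [s2, s3]
    rw [← Finset.mul_sum, Finset.sum_neg_distrib, ← integral_finsetSum _ (fun j _ => i3 j)]
    have e : ∀ z : Vec d, ∑ j, φ z * pd j (fun z : Vec d => z j * (nsq z + ε) ^ (γ / 2)) z =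
        φ z * (d * (nsq z + ε) ^ (γ / 2) + nsq z * (γ * (nsq z + ε) ^ (γ / 2 - 1))) := by
      intro z
      rw [← Finset.mul_sum, sum_pd_zh hε h2]
    simp_rw [e]
    ring
  rw [s4]
  have hi : 0 ≤ ∫ z, φ z * (d * (nsq z + ε) ^ (γ / 2) +
      nsq z * (γ * (nsq z + ε) ^ (γ / 2 - 1))) := by
    refine integral_nonneg fun z => mul_nonneg (h0 z) ?_
    have hb := base_pos hε z
    have h3 : (nsq z + ε) ^ (γ / 2) = (nsq z + ε) * (nsq z + ε) ^ (γ / 2 - 1) := by
      rw [Real.rpow_sub_one hb.ne']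
      field_simp
    rw [h3]
    have h4 := Real.rpow_nonneg hb.le (γ / 2 - 1)
    have h5 := sq_nonneg' z
    have h6 : (2 : ℝ) ≤ d := by exact_mod_cast hd
    have h7 : 0 ≤ (d : ℝ) * (nsq z + ε) + nsq z * γ := by nlinarith
    have h8 : (d : ℝ) * ((nsq z + ε) * (nsq z + ε) ^ (γ / 2 - 1)) +
        nsq z * (γ * (nsq z + ε) ^ (γ / 2 - 1)) =
        ((d : ℝ) * (nsq z + ε) + nsq z * γ) * (nsq z + ε) ^ (γ / 2 - 1) := by ring
    rw [h8]
    exact mul_nonneg h7 h4
  have := mul_nonneg hd' hi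
  linarith

private lemma lim_rpow_le {γ ε : ℝ} (h2 : γ ≤ 0) (hε : 0 < ε) {z : Vec d} (hz : z ≠ 0) :
    (nsq z + ε) ^ (γ / 2) ≤ nsq z ^ (γ / 2) :=
  Real.rpow_le_rpow_of_nonpos (sq_pos_of_ne hz) (by linarith) (by linarith)

private lemma lim_len_rpow (γ : ℝ) (z : Vec d) : nsq z ^ (γ / 2) = len z ^ γ := by
  unfold len
  rw [Real.sqrt_eq_rpow, ← Real.rpow_mul (sq_nonneg' z)]
  congr 1
  ring

private lemma lim_regA_le {γ ε : ℝ} (h1 : -2 < γ) (h2 : γ ≤ 0) (hε : 0 < ε) {z : Vec d}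
    (hz : z ≠ 0) (i j : Fin d) : |regA γ ε z i j| ≤ 2 * (d + 1) * (1 + ‖z‖) ^ 2 := by
  have h3 : |regA γ ε z i j| ≤ |landauA γ z i j| := by
    unfold regA landauA
    rw [abs_mul, abs_mul]
    refine mul_le_mul_of_nonneg_left ?_ (abs_nonneg _)
    have hn := sq_nonneg' z
    rw [abs_of_nonneg (Real.rpow_nonneg (by linarith) _), abs_of_nonneg (Real.rpow_nonneg hn _)]
    exact lim_rpow_le h2 hε hz
  exact h3.trans (landauA_PG h1 h2 z i j)

private lemma lim_cont_rpow (γ : ℝ) {ε : ℝ} (hε : 0 < ε) :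
    Continuous fun z : Vec d => (nsq z + ε) ^ (γ / 2) :=
  (continuous_sq.add continuous_const).rpow_const fun z =>
    Or.inl (by
      have h3 := sq_nonneg' z
      have h4 : 0 < nsq z + ε := by linarith
      exact h4.ne')

private lemma lim_regA_meas (γ : ℝ) {ε : ℝ} (hε : 0 < ε) (i j : Fin d) :
    Measurable fun z : Vec d => regA γ ε z i j := by
  unfold regA
  refine Measurable.mul (Measurable.sub ?_ ?_) (lim_cont_rpow γ hε).measurable
  · by_cases h : i = j
    · simpa [h] using (continuous_sq (d := d)).measurable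
    · simp [h]
  · fun_prop

theorem sum_int_nonpos (hd : 2 ≤ d) (h1 : -2 < γ) (h2 : γ ≤ 0) {φ : Vec d → ℝ} (hφ : Nice φ)
    (h0 : ∀ z, 0 ≤ φ z) : ∑ i, ∑ j, ∫ z, landauA γ z i j * pd i (pd j φ) z ≤ 0 := by
  have : Nonempty (Fin d) := ⟨⟨0, by omega⟩⟩
  have hae : ∀ᵐ z : Vec d, z ≠ 0 := by
    rw [ae_iff]
    simp
  have hstep : ∀ n : ℕ, ∑ i, ∑ j, ∫ z, regA γ (1 / ((n : ℝ) + 1)) z i j * pd i (pd j φ) z ≤ 0 :=
    fun n => reg_nonpos hd h1 h2 hφ h0 (by positivity)
  refine le_of_tendsto' (x := (atTop : Filter ℕ)) ?_ hstep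
  refine tendsto_finsetSum _ fun i _ => tendsto_finsetSum _ fun j _ => ?_
  have hm2 : Measurable (pd i (pd j φ)) := measurable_fderiv_apply_const ℝ (pd j φ) _
  have hrd : RD (pd i (pd j φ)) :=
    (hφ.pd_rd1 j).mono 1 fun v => by rw [one_mul]; exact pd_le i (pd j φ) v
  have hpg : PG fun z : Vec d => 2 * ((d : ℝ) + 1) * (1 + ‖z‖) ^ 2 := by
    refine ⟨2, 2 * ((d : ℝ) + 1), fun v => ?_⟩
    rw [Real.norm_eq_abs, abs_of_nonneg]
    have := w_pos v
    positivity
  have hmb : Measurable fun z : Vec d => pd i (pd j φ) z * (2 * ((d : ℝ) + 1) * (1 + ‖z‖) ^ 2) := by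
    fun_prop
  refine tendsto_integral_of_dominated_convergence
    (fun z => ‖pd i (pd j φ) z * (2 * ((d : ℝ) + 1) * (1 + ‖z‖) ^ 2)‖) ?_ ?_ ?_ ?_
  · intro n
    exact ((lim_regA_meas γ (by positivity) i j).mul hm2).aestronglyMeasurable
  · exact ((hrd.mul_PG hpg).integrable hmb.aestronglyMeasurable).norm
  · intro n
    filter_upwards [hae] with z hz
    have h3 := lim_regA_le h1 h2 (by positivity : (0 : ℝ) < 1 / ((n : ℝ) + 1)) hz i j
    have h4 := w_pos z
    rw [norm_mul, norm_mul, mul_comm]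
    refine mul_le_mul_of_nonneg_left ?_ (norm_nonneg _)
    rw [Real.norm_eq_abs, Real.norm_eq_abs,
      abs_of_nonneg (by positivity : (0 : ℝ) ≤ 2 * ((d : ℝ) + 1) * (1 + ‖z‖) ^ 2)]
    exact h3
  · filter_upwards [hae] with z hz
    refine Tendsto.mul_const _ ?_
    unfold regA landauA
    refine Tendsto.const_mul _ ?_
    have h5 : Tendsto (fun n : ℕ => nsq z + 1 / ((n : ℝ) + 1)) atTop (𝓝 (nsq z + 0)) :=
      tendsto_const_nhds.add tendsto_one_div_add_atTop_nhds_zero_nat
    rw [add_zero] at h5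
    exact h5.rpow_const (Or.inl (sq_pos_of_ne hz).ne')

theorem sum_ab_dd_nonpos (hd : 2 ≤ d) (h1 : -2 < γ) (h2 : γ ≤ 0) {g : Vec d → ℝ} (hg : Nice g)
    (h0 : ∀ v, 0 ≤ g v) (v : Vec d) : ∑ i, ∑ j, ab γ (pd i (pd j g)) i j v ≤ 0 := by
  have h := sum_int_nonpos hd h1 h2 (nice_refl hg v) (fun z => h0 (v - z))
  refine le_of_eq_of_le ?_ h
  refine Finset.sum_congr rfl fun i _ => Finset.sum_congr rfl fun j _ => ?_
  unfold ab conv
  refine integral_congr_ae (Filter.Eventually.of_forall fun z => ?_)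
  simp only [smul_eq_mul]
  rw [pd_pd_refl hg v z i j]

end Pool.Agent.H15.AV
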