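import Pool.Agent.H15.AV.Defs
import Pool.Agent.H25.Kin.Sym

/-!
# The H-theorem for the Landau operator, in one fiber

MODULE LE. `grad_sq_le`: Taylor with step `s ≤ 1` in the direction `∓ e_i` from `g ≥ 0`:
`|∂_i g| s ≤ g + B s²`, `B` the supremum of `|D² g|` over the unit ball around `v`; with
`s = |∂_i g| / (2 (B + |∂_i g|))` this gives `(∂_i g)² ≤ 4 g (B + |∂_i g|)`.
`landau_H`: `∫ landauQ g log g = -∑ ∫ flux_i ∂_i g / g` (integration by parts as in `ibp`; the products
decay rapidly because `flux_i = ∑_j (∂_j g A_ij - g ∂_j A_ij)` and `(∂_i g)²/g` is `RD`). Write `flux_i` as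
the double integral and symmetrize: with `φ = log g` the result is
`-(1/2) ∫∫ ∑ a_ij(v-w) g(v) g(w) (∂_iφ(v) - ∂_iφ(w)) (∂_jφ(v) - ∂_jφ(w)) ≤ 0`.
-/

set_option autoImplicit false

open MeasureTheory Set Filter Topology Pool.Agent.H25.Kin

namespace Pool.Agent.H15.AV

variable {d : ℕ} {γ : ℝ}

/-- Taylor with the supremum of the second derivative over a ball. -/
private theorem le_taylor {g : Vec d → ℝ} (hg : Nice g) {B : ℝ} (v : Vec d)
    (hB : ∀ w, ‖w - v‖ ≤ 1 → ‖fderiv ℝ (fderiv ℝ g) w‖ ≤ B) {s : ℝ} (hs0 : 0 ≤ s) (hs1 : s ≤ 1)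
    (e : Vec d) (he : ‖e‖ = 1) :
    |g (v + s • e) - g v - s * fderiv ℝ g v e| ≤ B * s ^ 2 := by
  have hB0 : 0 ≤ B := (norm_nonneg (fderiv ℝ (fderiv ℝ g) v)).trans (hB v (by simp))
  have hc : Convex ℝ (Metric.closedBall v s) := convex_closedBall v s
  have hv : v ∈ Metric.closedBall v s := Metric.mem_closedBall_self hs0
  have hmem : v + s • e ∈ Metric.closedBall v s := by
    rw [Metric.mem_closedBall, dist_eq_norm]
    simp [norm_smul, he, abs_of_nonneg hs0]
  have hin : ∀ w ∈ Metric.closedBall v s, ‖w - v‖ ≤ s := by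
    intro w hw
    rwa [Metric.mem_closedBall, dist_eq_norm] at hw
  have h1 : ∀ w ∈ Metric.closedBall v s, ‖fderiv ℝ g w - fderiv ℝ g v‖ ≤ B * s := by
    intro w hw
    have h := hc.norm_image_sub_le_of_norm_fderiv_le (𝕜 := ℝ) (f := fderiv ℝ g) (C := B)
      (x := v) (y := w) (fun x _ => hg.diff1 x)
      (fun x hx => hB x ((hin x hx).trans hs1)) hv hw
    exact h.trans (mul_le_mul_of_nonneg_left (hin w hw) hB0)
  have h2 := hc.norm_image_sub_le_of_norm_fderiv_le' (𝕜 := ℝ) (f := g) (C := B * s)
    (φ := fderiv ℝ g v) (x := v) (y := v + s • e) (fun x _ => hg.diff x) h1 hv hmem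
  have e1 : v + s • e - v = s • e := by abel
  rw [e1, map_smul, norm_smul, he, Real.norm_eq_abs, Real.norm_eq_abs, abs_of_nonneg hs0,
    mul_one, smul_eq_mul] at h2
  calc |g (v + s • e) - g v - s * fderiv ℝ g v e| ≤ B * s * s := h2
    _ = B * s ^ 2 := by ring

theorem grad_sq_le (C : ℕ → ℝ) : ∃ C' : ℕ → ℝ, ∀ g : Vec d → ℝ, UNice C g → ∀ (i : Fin d) (N : ℕ)
    (v : Vec d), (1 + ‖v‖) ^ N * (pd i g v) ^ 2 ≤ C' N * g v := by
  refine ⟨fun N => 4 * ((2 ^ N + 1) * C N), fun g hg i N v => ?_⟩
  have hw := w_pos v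
  have hwN : 0 < (1 + ‖v‖) ^ N := pow_pos hw N
  have hg0 := hg.nonneg v
  have hC : ∀ w : Vec d, (1 + ‖w‖) ^ N * ‖fderiv ℝ (fderiv ℝ g) w‖ ≤ C N := by
    intro w
    refine le_trans ?_ (hg.le N w)
    refine mul_le_mul_of_nonneg_left ?_ (pow_nonneg (w_pos w).le N)
    have := norm_nonneg (fderiv ℝ g w)
    have := hg.nonneg w
    linarith
  have hC1 : (1 + ‖v‖) ^ N * ‖fderiv ℝ g v‖ ≤ C N := by
    refine le_trans ?_ (hg.le N v)
    refine mul_le_mul_of_nonneg_left ?_ hwN.le
    have := norm_nonneg (fderiv ℝ (fderiv ℝ g) v)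
    linarith
  have hC0 : 0 ≤ C N := le_trans (by positivity) (hC v)
  set B : ℝ := 2 ^ N * C N / (1 + ‖v‖) ^ N with hBdef
  have hB0 : 0 ≤ B := by positivity
  have hB : ∀ w, ‖w - v‖ ≤ 1 → ‖fderiv ℝ (fderiv ℝ g) w‖ ≤ B := by
    intro w hwv
    have h1 : 1 + ‖v‖ ≤ 2 * (1 + ‖w‖) := by
      have h2 : ‖v‖ ≤ ‖w‖ + ‖w - v‖ := by
        have := norm_sub_norm_le v w
        rw [norm_sub_rev] at this
        linarith
      have := norm_nonneg w
      linarith
    have h3 : (1 + ‖v‖) ^ N ≤ 2 ^ N * (1 + ‖w‖) ^ N := by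
      rw [← mul_pow]; exact pow_le_pow_left₀ hw.le h1 N
    rw [hBdef, le_div_iff₀ hwN]
    calc ‖fderiv ℝ (fderiv ℝ g) w‖ * (1 + ‖v‖) ^ N
        ≤ ‖fderiv ℝ (fderiv ℝ g) w‖ * (2 ^ N * (1 + ‖w‖) ^ N) :=
          mul_le_mul_of_nonneg_left h3 (norm_nonneg (fderiv ℝ (fderiv ℝ g) w))
      _ = 2 ^ N * ((1 + ‖w‖) ^ N * ‖fderiv ℝ (fderiv ℝ g) w‖) := by ring
      _ ≤ 2 ^ N * C N := mul_le_mul_of_nonneg_left (hC w) (by positivity)
  set p : ℝ := |pd i g v| with hp
  have hp0 : 0 ≤ p := abs_nonneg _
  -- the one step inequality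
  have hstep : ∀ s : ℝ, 0 ≤ s → s ≤ 1 → p * s ≤ g v + B * s ^ 2 := by
    intro s hs0 hs1
    rcases le_total 0 (pd i g v) with h | h
    · have h1 := le_taylor hg.nice v hB hs0 hs1 (-(Pi.single i 1)) (by
        rw [norm_neg, norm_single_one])
      have h2 := (abs_le.1 h1).2
      have h3 := hg.nonneg (v + s • -(Pi.single i 1))
      rw [map_neg] at h2
      have h4 : fderiv ℝ g v (Pi.single i 1) = pd i g v := rfl
      rw [h4] at h2
      have h5 : p = pd i g v := abs_of_nonneg h
      rw [h5]
      linarith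
    · have h1 := le_taylor hg.nice v hB hs0 hs1 (Pi.single i 1) (norm_single_one i)
      have h2 := (abs_le.1 h1).2
      have h3 := hg.nonneg (v + s • (Pi.single i 1))
      have h4 : fderiv ℝ g v (Pi.single i 1) = pd i g v := rfl
      rw [h4] at h2
      have h5 : p = -pd i g v := abs_of_nonpos h
      rw [h5]
      linarith
  have hmain : p ^ 2 ≤ 4 * g v * (B + p) := by
    rcases hp0.eq_or_lt with h | h
    · rw [← h]
      simp only [ne_eq, OfNat.ofNat_ne_zero, not_false_eq_true, zero_pow, add_zero]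
      positivity
    · have hBp : 0 < B + p := by linarith
      have hs0 : 0 ≤ p / (2 * (B + p)) := by positivity
      have hs1 : p / (2 * (B + p)) ≤ 1 := by
        rw [div_le_one (by positivity)]; linarith
      have h1 := hstep _ hs0 hs1
      have h2 : p * (p / (2 * (B + p))) = p ^ 2 / (2 * (B + p)) := by ring
      have h3 : B * (p / (2 * (B + p))) ^ 2 ≤ p ^ 2 / (4 * (B + p)) := by
        have h4 : B * (p / (2 * (B + p))) ^ 2 = (B / (B + p)) * (p ^ 2 / (4 * (B + p))) := by
          field_simp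
          ring
        rw [h4]
        have h5 : B / (B + p) ≤ 1 := by rw [div_le_one hBp]; linarith
        calc B / (B + p) * (p ^ 2 / (4 * (B + p))) ≤ 1 * (p ^ 2 / (4 * (B + p))) :=
              mul_le_mul_of_nonneg_right h5 (by positivity)
          _ = _ := one_mul _
      rw [h2] at h1
      have h6 : p ^ 2 / (2 * (B + p)) = 2 * (p ^ 2 / (4 * (B + p))) := by
        field_simp
        ring
      rw [h6] at h1
      have h7 : p ^ 2 / (4 * (B + p)) ≤ g v := by linarith
      rw [div_le_iff₀ (by positivity)] at h7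
      linarith
  have hpN : (1 + ‖v‖) ^ N * p ≤ C N :=
    (mul_le_mul_of_nonneg_left (pd_le i g v) hwN.le).trans hC1
  have hBN : (1 + ‖v‖) ^ N * B = 2 ^ N * C N := by
    rw [hBdef]; field_simp
  calc (1 + ‖v‖) ^ N * (pd i g v) ^ 2 = (1 + ‖v‖) ^ N * p ^ 2 := by rw [hp, sq_abs]
    _ ≤ (1 + ‖v‖) ^ N * (4 * g v * (B + p)) := mul_le_mul_of_nonneg_left hmain hwN.le
    _ = 4 * g v * ((1 + ‖v‖) ^ N * B + (1 + ‖v‖) ^ N * p) := by ring
    _ ≤ 4 * g v * (2 ^ N * C N + C N) := by
        rw [hBN]
        refine mul_le_mul_of_nonneg_left (by linarith) (by positivity)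
    _ = 4 * ((2 ^ N + 1) * C N) * g v := by ring

/-- the Landau matrix is positive semidefinite -/
private theorem le_psd (γ : ℝ) (z ξ : Vec d) :
    0 ≤ ∑ i, ∑ j, landauA γ z i j * (ξ i * ξ j) := by
  have h1 : ∑ i, ∑ j, landauA γ z i j * (ξ i * ξ j) =
      ((∑ i, z i ^ 2) * (∑ i, ξ i ^ 2) - (∑ i, z i * ξ i) ^ 2) * nsq z ^ (γ / 2) := by
    have h2 : ∀ i j, landauA γ z i j * (ξ i * ξ j) =
        ((if i = j then nsq z * ξ i ^ 2 else 0) - (z i * ξ i) * (z j * ξ j)) * nsq z ^ (γ / 2) := by
      intro i j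
      unfold landauA
      by_cases h : i = j
      · subst h; simp only [if_true]; ring
      · simp only [h, if_false]; ring
    simp_rw [h2]
    simp_rw [← Finset.sum_mul, Finset.sum_sub_distrib]
    congr 1
    have h3 : ∀ i : Fin d, ∑ j, (if i = j then nsq z * ξ i ^ 2 else 0) = nsq z * ξ i ^ 2 := by
      intro i
      rw [Finset.sum_ite_eq]
      simp
    simp_rw [h3]
    rw [← Finset.mul_sum]
    have h4 : ∑ i, ∑ j, z i * ξ i * (z j * ξ j) = (∑ i, z i * ξ i) ^ 2 := by
      rw [pow_two, Finset.sum_mul_sum]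
    rw [h4]
    rfl
  rw [h1]
  refine mul_nonneg (sub_nonneg.2 ?_) (Real.rpow_nonneg (sq_nonneg' z) _)
  exact Finset.sum_mul_sq_le_sq_mul_sq Finset.univ z ξ

/-- half symmetrised form of `∫ flux_i P` for multipliers `P` which are only controlled together
with `g` and its derivatives -/
private theorem le_flux_mul (h1 : -2 < γ) (h2 : γ ≤ 0) {g : Vec d → ℝ} (hg : Nice g) (i : Fin d)
    {P : Vec d → ℝ} (ra : ∀ j, RD (fun v => P v * pd j g v)) (rb : RD (fun v => P v * g v))
    (hPm : Measurable P) :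
    ∫ v, landauFlux γ g i v * P v = ∑ j, ∫ p : Vec d × Vec d,
      landauA γ (p.1 - p.2) i j * (P p.1 - P p.2) * (pd j g p.1 * g p.2) ∂(volume.prod volume) := by
  rw [landauFlux_funext h1 h2 hg i]
  have k := fun j => kern_landauA (d := d) h1 h2 i j
  have mg := hg.cont.measurable
  have mp := fun j => (hg.pd_cont j).measurable
  have ca : ∀ j, Continuous (conv (fun z => landauA γ z i j) g) := fun j =>
    continuous_iff_continuousAt.2 fun v =>
      ((k j).conv_hasFDerivAt (hg.smooth.of_le (by norm_num)) hg.rd hg.rd1 v).continuousAt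
  have cb : ∀ j, Continuous (conv (fun z => landauA γ z i j) (pd j g)) := fun j =>
    continuous_iff_continuousAt.2 fun v =>
      ((k j).conv_hasFDerivAt (hg.pd_smooth1 j) (hg.pd_RD j) (hg.pd_rd1 j) v).continuousAt
  have i1 : ∀ j, Integrable (fun v => (P v * pd j g v) * conv (fun z => landauA γ z i j) g v) :=
    fun j => ((ra j).mul_PG ((k j).conv_PG hg.rd)).integrable
      ((hPm.mul (mp j)).mul (ca j).measurable).aestronglyMeasurable
  have i2 : ∀ j, Integrable (fun v => (P v * g v) * conv (fun z => landauA γ z i j) (pd j g) v) :=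
    fun j => (rb.mul_PG ((k j).conv_PG (hg.pd_RD j))).integrable
      ((hPm.mul mg).mul (cb j).measurable).aestronglyMeasurable
  have e : ∀ v, (∑ j, (pd j g v * conv (fun z => landauA γ z i j) g v -
      g v * conv (fun z => landauA γ z i j) (pd j g) v)) * P v =
      ∑ j, ((P v * pd j g v) * conv (fun z => landauA γ z i j) g v -
        (P v * g v) * conv (fun z => landauA γ z i j) (pd j g) v) := by
    intro v
    rw [Finset.sum_mul]
    refine Finset.sum_congr rfl fun j _ => ?_
    ring
  simp_rw [e]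
  rw [integral_finsetSum]
  swap
  · intro j _; exact (i1 j).sub (i2 j)
  refine Finset.sum_congr rfl fun j _ => ?_
  rw [integral_sub (i1 j) (i2 j), (k j).integral_conv_mul (ra j) hg.rd (hPm.mul (mp j)) mg,
    (k j).integral_conv_mul rb (hg.pd_RD j) (hPm.mul mg) (mp j),
    bil_symm (fun z => landauA_neg γ z i j) (fun v => P v * g v)]
  unfold bil
  rw [← integral_sub ((k j).integrable_prod (ra j) hg.rd (hPm.mul (mp j)) mg)
    ((k j).integrable_prod (hg.pd_RD j) rb (mp j) (hPm.mul mg))]
  refine integral_congr_ae (Eventually.of_forall fun p => ?_)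
  simp only
  ring

private theorem le_flux_int (h1 : -2 < γ) (h2 : γ ≤ 0) {g : Vec d → ℝ} (hg : Nice g) (i j : Fin d)
    {P : Vec d → ℝ} (ra : ∀ j, RD (fun v => P v * pd j g v)) (rb : RD (fun v => P v * g v))
    (hPm : Measurable P) :
    Integrable (fun p : Vec d × Vec d =>
      landauA γ (p.1 - p.2) i j * (P p.1 - P p.2) * (pd j g p.1 * g p.2))
      (volume.prod volume) := by
  have k := kern_landauA (d := d) h1 h2 i j
  have mg := hg.cont.measurable
  have mp := (hg.pd_cont j).measurable
  have := (k.integrable_prod (ra j) hg.rd (hPm.mul mp) mg).sub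
    (k.integrable_prod (hg.pd_RD j) rb mp (hPm.mul mg))
  refine this.congr (Eventually.of_forall fun p => ?_)
  simp only [Pi.sub_apply]
  ring

theorem landau_H (h1 : -2 < γ) (h2 : γ ≤ 0) {g : Vec d → ℝ} (hg : Nice g) (pos : ∀ v, 0 < g v)
    (hl : PG fun v => Real.log (g v)) (hr : ∀ i, RD fun v => (pd i g v) ^ 2 / g v) :
    ∫ v, landauQ γ g v * Real.log (g v) ≤ 0 := by
  have mg := hg.cont.measurable
  have mp := fun j => (hg.pd_cont j).measurable
  -- the products `∂_i g ∂_j g / g`
  have hprod : ∀ i j, RD fun v => pd i g v / g v * pd j g v := by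
    intro i j
    refine ((hr i).add (hr j)).mono 1 fun v => ?_
    have hp := pos v
    rw [one_mul, Real.norm_eq_abs, Real.norm_eq_abs,
      abs_of_nonneg (by positivity : 0 ≤ (pd i g v) ^ 2 / g v + (pd j g v) ^ 2 / g v)]
    have e : pd i g v / g v * pd j g v = (pd i g v * pd j g v) / g v := by ring
    rw [e, abs_div, abs_of_pos hp, ← add_div]
    refine div_le_div_of_nonneg_right ?_ hp.le
    rw [abs_le]
    constructor <;> nlinarith [sq_nonneg (pd i g v - pd j g v), sq_nonneg (pd i g v + pd j g v)]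
  have hPg : ∀ i, (fun v => pd i g v / g v * g v) = pd i g := by
    intro i
    funext v
    exact div_mul_cancel₀ _ (pos v).ne'
  have hrb : ∀ i, RD fun v => pd i g v / g v * g v := by
    intro i
    rw [hPg i]
    exact hg.pd_RD i
  have hPm : ∀ i, Measurable fun v => pd i g v / g v := fun i => (mp i).div mg
  -- the logarithm
  have hld : Differentiable ℝ fun v => Real.log (g v) := fun v =>
    (hg.diff v).log (pos v).ne'
  have hlpd : ∀ i v, pd i (fun v => Real.log (g v)) v = pd i g v / g v := by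
    intro i v
    unfold pd
    rw [fderiv.log (hg.diff v) (pos v).ne']
    rw [smul_apply, smul_eq_mul]
    ring
  -- integration by parts
  have hfr : ∀ i, RD fun v => landauFlux γ g i v * (pd i g v / g v) := by
    intro i
    rw [landauFlux_funext h1 h2 hg i]
    have k := fun j => kern_landauA (d := d) h1 h2 i j
    have e : (fun v => (∑ j, (pd j g v * conv (fun z => landauA γ z i j) g v -
        g v * conv (fun z => landauA γ z i j) (pd j g) v)) * (pd i g v / g v)) =
        fun v => ∑ j, ((pd i g v / g v * pd j g v) * conv (fun z => landauA γ z i j) g v -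
          (pd i g v / g v * g v) * conv (fun z => landauA γ z i j) (pd j g) v) := by
      funext v
      rw [Finset.sum_mul]
      refine Finset.sum_congr rfl fun j _ => ?_
      ring
    rw [e]
    refine RD.sum' _ fun j _ => ?_
    exact ((hprod i j).mul_PG ((k j).conv_PG hg.rd)).sub
      ((hrb i).mul_PG ((k j).conv_PG (hg.pd_RD j)))
  have hibp : ∀ i, ∫ v, pd i (landauFlux γ g i) v * Real.log (g v) =
      -∫ v, landauFlux γ g i v * (pd i g v / g v) := by
    intro i
    have hJ := landauFlux_diff h1 h2 hg i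
    have hJr := landauFlux_RD h1 h2 hg i
    have hJ1 := landauFlux_RD1 h1 h2 hg i
    have m1 : Measurable (pd i (landauFlux γ g i)) := measurable_fderiv_apply_const ℝ _ _
    have m2 : Measurable (pd i fun v => Real.log (g v)) := measurable_fderiv_apply_const ℝ _ _
    have mJ : Measurable (landauFlux γ g i) := hJ.continuous.measurable
    have mφ : Measurable fun v => Real.log (g v) := hld.continuous.measurable
    have r1 : RD (pd i (landauFlux γ g i)) := hJ1.mono 1 fun v => by rw [one_mul]; exact pd_le i _ v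
    have hfr' : RD fun v => landauFlux γ g i v * pd i (fun v => Real.log (g v)) v := by
      have e : (fun v => landauFlux γ g i v * pd i (fun v => Real.log (g v)) v) =
          fun v => landauFlux γ g i v * (pd i g v / g v) := by
        funext v; rw [hlpd i v]
      rw [e]; exact hfr i
    have h := integral_mul_fderiv_eq_neg_fderiv_mul_of_integrable (μ := (volume : Measure (Vec d)))
      (f := landauFlux γ g i) (g := fun v => Real.log (g v)) (v := Pi.single i 1)
      ((r1.mul_PG hl).integrable (m1.mul mφ).aestronglyMeasurable)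
      (hfr'.integrable (mJ.mul m2).aestronglyMeasurable)
      ((hJr.mul_PG hl).integrable (mJ.mul mφ).aestronglyMeasurable)
      (fun x _ => hJ x) (fun x _ => hld x)
    have h' : ∫ v, landauFlux γ g i v * pd i (fun v => Real.log (g v)) v =
        -∫ v, pd i (landauFlux γ g i) v * Real.log (g v) := h
    have e2 : ∫ v, landauFlux γ g i v * pd i (fun v => Real.log (g v)) v =
        ∫ v, landauFlux γ g i v * (pd i g v / g v) :=
      integral_congr_ae (Eventually.of_forall fun v => by simp only [hlpd i v])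
    rw [← e2, h', neg_neg]
  have hsum : ∫ v, landauQ γ g v * Real.log (g v) =
      -∑ i, ∫ v, landauFlux γ g i v * (pd i g v / g v) := by
    unfold landauQ
    simp_rw [Finset.sum_mul]
    rw [integral_finsetSum]
    · rw [← Finset.sum_neg_distrib]
      exact Finset.sum_congr rfl fun i _ => hibp i
    · intro i _
      have m1 : Measurable (pd i (landauFlux γ g i)) := measurable_fderiv_apply_const ℝ _ _
      have r1 : RD (pd i (landauFlux γ g i)) :=
        (landauFlux_RD1 h1 h2 hg i).mono 1 fun v => by rw [one_mul]; exact pd_le i _ v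
      exact (r1.mul_PG hl).integrable (m1.mul hld.continuous.measurable).aestronglyMeasurable
  rw [hsum, neg_nonpos]
  -- the kernel of the quadratic form
  let K : Vec d × Vec d → ℝ := fun p => ∑ i, ∑ j,
    landauA γ (p.1 - p.2) i j * (pd i g p.1 / g p.1 - pd i g p.2 / g p.2) * (pd j g p.1 * g p.2)
  have hint : ∀ i j, Integrable (fun p : Vec d × Vec d =>
      landauA γ (p.1 - p.2) i j * (pd i g p.1 / g p.1 - pd i g p.2 / g p.2) *
        (pd j g p.1 * g p.2)) (volume.prod volume) := fun i j =>
    le_flux_int h1 h2 hg i j (hprod i) (hrb i) (hPm i)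
  have hKint : Integrable K (volume.prod volume) :=
    integrable_finsetSum _ fun i _ => integrable_finsetSum _ fun j _ => hint i j
  have hKeq : ∑ i, ∫ v, landauFlux γ g i v * (pd i g v / g v) = ∫ p, K p ∂(volume.prod volume) := by
    have e1 : ∫ p, K p ∂(volume.prod volume) = ∑ i, ∑ j, ∫ p : Vec d × Vec d,
        landauA γ (p.1 - p.2) i j * (pd i g p.1 / g p.1 - pd i g p.2 / g p.2) *
          (pd j g p.1 * g p.2) ∂(volume.prod volume) := by
      rw [integral_finsetSum]
      · refine Finset.sum_congr rfl fun i _ => ?_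
        rw [integral_finsetSum]
        intro j _; exact hint i j
      · intro i _
        exact integrable_finsetSum _ fun j _ => hint i j
    rw [e1]
    exact Finset.sum_congr rfl fun i _ => le_flux_mul h1 h2 hg i (hprod i) (hrb i) (hPm i)
  rw [hKeq]
  have hswap : ∫ p, K p.swap ∂(volume.prod volume) = ∫ p, K p ∂(volume.prod volume) :=
    integral_prod_swap (μ := (volume : Measure (Vec d))) (ν := (volume : Measure (Vec d))) K
  have hKs : Integrable (fun p => K p.swap) (volume.prod volume) := hKint.swap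
  have h2K : 0 ≤ ∫ p, (K p + K p.swap) ∂(volume.prod volume) := by
    refine integral_nonneg fun p => ?_
    obtain ⟨v, w⟩ := p
    have hv := pos v
    have hw := pos w
    have e : K (v, w) + K (Prod.swap (v, w)) =
        (g v * g w) * ∑ i, ∑ j, landauA γ (v - w) i j *
          ((pd i g v / g v - pd i g w / g w) * (pd j g v / g v - pd j g w / g w)) := by
      simp only [K, Prod.swap_prod_mk]
      rw [← Finset.sum_add_distrib, Finset.mul_sum]
      refine Finset.sum_congr rfl fun i _ => ?_
      rw [← Finset.sum_add_distrib, Finset.mul_sum]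
      refine Finset.sum_congr rfl fun j _ => ?_
      have e3 : landauA γ (w - v) i j = landauA γ (v - w) i j := by
        rw [← landauA_neg, neg_sub]
      rw [e3]
      field_simp
      ring
    have hgoal : 0 ≤ K (v, w) + K (Prod.swap (v, w)) := by
      rw [e]
      exact mul_nonneg (mul_nonneg hv.le hw.le) (le_psd γ (v - w) fun i => pd i g v / g v - pd i g w / g w)
    exact hgoal
  rw [integral_add hKint hKs, hswap] at h2K
  linarith

end Pool.Agent.H15.AV
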