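import Pool.Agent.H15.AV.Defs

/-!
# The Poincaré inequality in `L¹` on a cube

MODULE Poi. `|u v - u w| ≤ ∫₀¹ ∑_i |∂_i u (w + s (v - w))| |v_i - w_i| ds`, `|v_i - w_i| ≤ 2R`. For
`s ≥ 1/2` substitute `p = w + s (v - w)` for fixed `w` (factor `s^{-d} ≤ 2^d`), for `s ≤ 1/2` for fixed
`v` (factor `(1-s)^{-d} ≤ 2^d`); the cube is convex. (Alternatively change one coordinate after the
other.)
-/

set_option autoImplicit false

open MeasureTheory Set Filter Topology Pool.Agent.H25.Kin

namespace Pool.Agent.H15.AV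

variable {d : ℕ}

private noncomputable def poiG (u : Vec d → ℝ) (v : Vec d) : ℝ := ∑ i, |pd i u v|

private lemma poiG_cont {u : Vec d → ℝ} (hu : ContDiff ℝ 1 u) : Continuous (poiG u) := by
  unfold poiG
  refine continuous_finsetSum _ fun i _ => ?_
  exact ((hu.continuous_fderiv one_ne_zero).clm_apply continuous_const).abs

private lemma poiG_nonneg (u : Vec d → ℝ) (v : Vec d) : 0 ≤ poiG u v :=
  Finset.sum_nonneg fun _ _ => abs_nonneg _

private lemma poi_fd (u : Vec d → ℝ) (x z : Vec d) : |fderiv ℝ u x z| ≤ ‖z‖ * poiG u x := by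
  have hz : z = ∑ i, z i • (Pi.single i (1 : ℝ) : Vec d) := by
    ext j
    simp [Finset.sum_apply, Pi.single_apply]
  have h1 : fderiv ℝ u x z = ∑ i, z i * pd i u x := by
    conv_lhs => rw [hz]
    rw [map_sum]
    refine Finset.sum_congr rfl fun i _ => ?_
    rw [map_smul, smul_eq_mul]
    rfl
  rw [h1]
  unfold poiG
  rw [Finset.mul_sum]
  refine (Finset.abs_sum_le_sum_abs _ _).trans (Finset.sum_le_sum fun i _ => ?_)
  rw [abs_mul]
  exact mul_le_mul_of_nonneg_right (norm_le_pi_norm z i) (abs_nonneg _)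

private lemma poi_pt {u : Vec d → ℝ} (hu : ContDiff ℝ 1 u) {R : ℝ} {v w : Vec d}
    (hv : v ∈ Metric.closedBall (0 : Vec d) R) (hw : w ∈ Metric.closedBall (0 : Vec d) R) :
    |u v - u w| ≤ 2 * R * ∫ s in Icc (0 : ℝ) 1, poiG u (w + s • (v - w)) := by
  have hd : ∀ s : ℝ, HasDerivAt (fun s : ℝ => u (w + s • (v - w)))
      (fderiv ℝ u (w + s • (v - w)) (v - w)) s := by
    intro s
    have h1 : HasDerivAt (fun s : ℝ => w + s • (v - w)) (v - w) s := by
      simpa using ((hasDerivAt_id s).smul_const (v - w)).const_add w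
    exact (hu.differentiable one_ne_zero _).hasFDerivAt.comp_hasDerivAt s h1
  have hc : Continuous fun s : ℝ => fderiv ℝ u (w + s • (v - w)) (v - w) :=
    ((hu.continuous_fderiv one_ne_zero).comp (by fun_prop)).clm_apply continuous_const
  have h2 := intervalIntegral.integral_eq_sub_of_hasDerivAt (fun s _ => hd s)
    (hc.intervalIntegrable 0 1)
  have hn : ‖v - w‖ ≤ 2 * R := by
    have h3 := norm_sub_le v w
    rw [mem_closedBall_zero_iff] at hv hw
    linarith
  have hG : Continuous fun s : ℝ => poiG u (w + s • (v - w)) :=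
    (poiG_cont hu).comp (by fun_prop)
  simp only [one_smul, add_sub_cancel, zero_smul, add_zero] at h2
  rw [← h2]
  refine (intervalIntegral.abs_integral_le_integral_abs zero_le_one).trans ?_
  rw [← intervalIntegral.integral_of_le zero_le_one |>.trans
    (integral_Icc_eq_integral_Ioc (x := (0 : ℝ)) (y := 1)).symm,
    ← intervalIntegral.integral_const_mul]
  refine intervalIntegral.integral_mono_on zero_le_one (hc.abs.intervalIntegrable _ _)
    ((hG.const_mul _).intervalIntegrable _ _) fun s _ => ?_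
  refine (poi_fd u _ _).trans ?_
  exact mul_le_mul_of_nonneg_right hn (poiG_nonneg u _)

private lemma poi_one {G : Vec d → ℝ} (hG : Continuous G) (hG0 : ∀ v, 0 ≤ G v) {R s : ℝ}
    (hs : 1 / 2 ≤ s) (hs1 : s ≤ 1) {w : Vec d} (hw : w ∈ Metric.closedBall (0 : Vec d) R) :
    ∫ v in Metric.closedBall (0 : Vec d) R, G (w + s • (v - w)) ≤
      2 ^ d * ∫ v in Metric.closedBall (0 : Vec d) R, G v := by
  set B := Metric.closedBall (0 : Vec d) R with hB
  have hBm : MeasurableSet B := Metric.isClosed_closedBall.measurableSet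
  have hBc : IsCompact B := isCompact_closedBall _ _
  have hs0 : 0 < s := by linarith
  set g := B.indicator G with hg
  have hgi : Integrable g :=
    (hG.continuousOn.integrableOn_compact hBc).integrable_indicator hBm
  have hg0 : ∀ x, 0 ≤ g x := fun x => indicator_nonneg (fun v _ => hG0 v) x
  have h1 : Integrable (fun v : Vec d => g (s • v + (w - s • w))) :=
    (hgi.comp_add_right (w - s • w)).comp_smul hs0.ne'
  have h2 : ∫ v, g (s • v + (w - s • w)) = (s ^ d)⁻¹ * ∫ v, g v := by
    have h3 := Measure.integral_comp_smul (volume : Measure (Vec d))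
      (fun x => g (x + (w - s • w))) s
    rw [h3, integral_add_right_eq_self (μ := (volume : Measure (Vec d))) g,
      Module.finrank_fin_fun, smul_eq_mul, abs_of_pos (by positivity)]
  have h4 : ∫ v in B, G (w + s • (v - w)) ≤ ∫ v, g (s • v + (w - s • w)) := by
    rw [← integral_indicator hBm]
    refine integral_mono ?_ h1 ?_
    · have hc : Continuous fun v : Vec d => G (w + s • (v - w)) := hG.comp (by fun_prop)
      exact (hc.continuousOn.integrableOn_compact hBc).integrable_indicator hBm
    · intro v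
      by_cases hv : v ∈ B
      · have h5 : s • v + (w - s • w) ∈ B := by
          have h6 := convex_closedBall (0 : Vec d) R hv hw hs0.le (by linarith : 0 ≤ 1 - s)
            (by ring)
          have h7 : s • v + (1 - s) • w = s • v + (w - s • w) := by
            rw [sub_smul, one_smul]
          rwa [h7] at h6
        simp only
        rw [indicator_of_mem hv, hg, indicator_of_mem h5]
        have h8 : w + s • (v - w) = s • v + (w - s • w) := by
          rw [smul_sub]; abel
        rw [h8]
      · simp only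
        rw [indicator_of_notMem hv]
        exact hg0 _
  have h5 : (s ^ d)⁻¹ ≤ 2 ^ d := by
    have h6 : (1 / 2 : ℝ) ^ d ≤ s ^ d := pow_le_pow_left₀ (by norm_num) hs d
    have h7 : (s ^ d)⁻¹ ≤ ((1 / 2 : ℝ) ^ d)⁻¹ := inv_anti₀ (by positivity) h6
    rw [one_div, inv_pow, inv_inv] at h7
    exact h7
  have h6 : ∫ v, g v = ∫ v in B, G v := integral_indicator hBm
  rw [h2, h6] at h4
  refine h4.trans (mul_le_mul_of_nonneg_right h5 ?_)
  exact integral_nonneg hG0

private lemma poi_vol {R : ℝ} (hR : 0 < R) :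
    (volume : Measure (Vec d)).real (Metric.closedBall (0 : Vec d) R) = (2 * R) ^ d := by
  rw [Measure.real, Real.volume_pi_closedBall _ hR.le, ENNReal.toReal_ofReal (by positivity),
    Fintype.card_fin]

private lemma poi_fin {R : ℝ} : (volume : Measure (Vec d)) (Metric.closedBall (0 : Vec d) R) < ⊤ :=
  (isCompact_closedBall _ _).measure_lt_top

private lemma poi_two {G : Vec d → ℝ} (hG : Continuous G) (hG0 : ∀ v, 0 ≤ G v) {R s : ℝ}
    (hR : 0 < R) (hs : 1 / 2 ≤ s) (hs1 : s ≤ 1) :
    ∫ p in Metric.closedBall (0 : Vec d) R ×ˢ Metric.closedBall (0 : Vec d) R,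
      G (p.1 + s • (p.2 - p.1)) ≤
      (2 ^ d * ∫ v in Metric.closedBall (0 : Vec d) R, G v) * (2 * R) ^ d := by
  set B := Metric.closedBall (0 : Vec d) R with hB
  have hBc : IsCompact B := isCompact_closedBall _ _
  have hc : Continuous fun p : Vec d × Vec d => G (p.1 + s • (p.2 - p.1)) :=
    hG.comp (by fun_prop)
  have hi : IntegrableOn (fun p : Vec d × Vec d => G (p.1 + s • (p.2 - p.1))) (B ×ˢ B)
      ((volume : Measure (Vec d)).prod volume) :=
    hc.continuousOn.integrableOn_compact (hBc.prod hBc)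
  have h1 : ∫ p in B ×ˢ B, G (p.1 + s • (p.2 - p.1)) =
      ∫ w in B, ∫ v in B, G (w + s • (v - w)) := by
    rw [Measure.volume_eq_prod]
    exact setIntegral_prod _ hi
  rw [h1]
  have h2 := norm_setIntegral_le_of_norm_le_const (μ := (volume : Measure (Vec d)))
    (s := B) (f := fun w => ∫ v in B, G (w + s • (v - w)))
    (C := 2 ^ d * ∫ v in B, G v) poi_fin ?_
  · rw [poi_vol hR] at h2
    exact (le_abs_self _).trans h2
  · intro w hw
    rw [Real.norm_eq_abs, abs_of_nonneg (integral_nonneg fun v => hG0 _)]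
    exact poi_one hG hG0 hs hs1 hw

private lemma poi_three {G : Vec d → ℝ} (hG : Continuous G) (hG0 : ∀ v, 0 ≤ G v) {R s : ℝ}
    (hR : 0 < R) (hs : 0 ≤ s) (hs1 : s ≤ 1) :
    ∫ p in Metric.closedBall (0 : Vec d) R ×ˢ Metric.closedBall (0 : Vec d) R,
      G (p.2 + s • (p.1 - p.2)) ≤
      (2 ^ d * ∫ v in Metric.closedBall (0 : Vec d) R, G v) * (2 * R) ^ d := by
  rcases le_total (1 / 2) s with h | h
  · have h1 := poi_two hG hG0 hR h hs1
    refine le_trans (le_of_eq ?_) h1
    rw [Measure.volume_eq_prod]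
    exact (setIntegral_prod_swap (μ := (volume : Measure (Vec d)))
      (ν := (volume : Measure (Vec d))) (Metric.closedBall (0 : Vec d) R)
      (Metric.closedBall (0 : Vec d) R) (fun p => G (p.1 + s • (p.2 - p.1))))
  · have h1 := poi_two hG hG0 hR (s := 1 - s) (by linarith) (by linarith)
    refine le_trans (le_of_eq ?_) h1
    congr 1
    funext p
    congr 1
    rw [sub_smul, one_smul, smul_sub, smul_sub]
    abel

theorem poincare (d : ℕ) {R : ℝ} (hR : 0 < R) : ∃ C : ℝ, 0 ≤ C ∧ ∀ u : Vec d → ℝ, ContDiff ℝ 1 u →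
    ∫ p in Metric.closedBall (0 : Vec d) R ×ˢ Metric.closedBall (0 : Vec d) R, |u p.1 - u p.2| ≤
      C * ∫ v in Metric.closedBall (0 : Vec d) R, ∑ i, |pd i u v| := by
  refine ⟨2 * R * (2 ^ d * (2 * R) ^ d), by positivity, fun u hu => ?_⟩
  change _ ≤ _ * ∫ v in Metric.closedBall (0 : Vec d) R, poiG u v
  set B := Metric.closedBall (0 : Vec d) R with hB
  have hBc : IsCompact B := isCompact_closedBall _ _
  have hBm : MeasurableSet B := Metric.isClosed_closedBall.measurableSet
  have hGc := poiG_cont hu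
  have hF : Continuous (Function.uncurry fun (p : Vec d × Vec d) (s : ℝ) =>
      poiG u (p.2 + s • (p.1 - p.2))) :=
    hGc.comp (by fun_prop)
  have h1 : ∫ p in B ×ˢ B, |u p.1 - u p.2| ≤
      ∫ p in B ×ˢ B, 2 * R * ∫ s in Icc (0 : ℝ) 1, poiG u (p.2 + s • (p.1 - p.2)) := by
    refine setIntegral_mono_on ?_ ?_ (hBm.prod hBm) fun p hp => poi_pt hu hp.1 hp.2
    · have hc : Continuous fun p : Vec d × Vec d => |u p.1 - u p.2| :=
        ((hu.continuous.comp continuous_fst).sub (hu.continuous.comp continuous_snd)).abs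
      exact hc.continuousOn.integrableOn_compact (hBc.prod hBc)
    · have hc := continuous_parametric_integral_of_continuous (μ := (volume : Measure ℝ)) hF
        (isCompact_Icc (a := (0 : ℝ)) (b := 1))
      exact (continuous_const.mul hc).continuousOn.integrableOn_compact (hBc.prod hBc)
  have h2 : ∫ p in B ×ˢ B, ∫ s in Icc (0 : ℝ) 1, poiG u (p.2 + s • (p.1 - p.2)) =
      ∫ s in Icc (0 : ℝ) 1, ∫ p in B ×ˢ B, poiG u (p.2 + s • (p.1 - p.2)) := by
    refine integral_integral_swap ?_
    rw [Measure.prod_restrict]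
    exact hF.continuousOn.integrableOn_compact ((hBc.prod hBc).prod isCompact_Icc)
  have h3 : ∫ s in Icc (0 : ℝ) 1, ∫ p in B ×ˢ B, poiG u (p.2 + s • (p.1 - p.2)) ≤
      (2 ^ d * ∫ v in B, poiG u v) * (2 * R) ^ d := by
    have h4 := norm_setIntegral_le_of_norm_le_const (μ := (volume : Measure ℝ))
      (s := Icc (0 : ℝ) 1) (f := fun s => ∫ p in B ×ˢ B, poiG u (p.2 + s • (p.1 - p.2)))
      (C := (2 ^ d * ∫ v in B, poiG u v) * (2 * R) ^ d) isCompact_Icc.measure_lt_top ?_
    · have h5 : (volume : Measure ℝ).real (Icc (0 : ℝ) 1) = 1 := by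
        rw [Measure.real, Real.volume_Icc]
        norm_num
      rw [h5, mul_one] at h4
      exact (le_abs_self _).trans h4
    · intro s hs
      rw [Real.norm_eq_abs, abs_of_nonneg (integral_nonneg fun v => poiG_nonneg u _)]
      exact poi_three hGc (poiG_nonneg u) hR hs.1 hs.2
  rw [integral_const_mul, h2] at h1
  refine h1.trans ?_
  refine (mul_le_mul_of_nonneg_left h3 (by positivity)).trans (le_of_eq ?_)
  ring

/-- a nonnegative function which is bounded on a set of positive measure -/
theorem poincare_set (d : ℕ) {R κ : ℝ} (hR : 0 < R) (hκ : 0 < κ) : ∃ C : ℝ, 0 ≤ C ∧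
    ∀ u : Vec d → ℝ, ContDiff ℝ 1 u → (∀ v, 0 ≤ u v) → ∀ (U : ℝ) (E : Set (Vec d)),
      MeasurableSet E → E ⊆ Metric.closedBall 0 R → ENNReal.ofReal κ ≤ volume E →
      (∀ v ∈ E, u v ≤ U) →
        ∫ v in Metric.closedBall (0 : Vec d) R, u v ≤
          (2 * R) ^ d * U + C * ∫ v in Metric.closedBall (0 : Vec d) R, ∑ i, |pd i u v| := by
  obtain ⟨C0, hC0, hC⟩ := poincare d hR
  refine ⟨κ⁻¹ * C0, by positivity, ?_⟩
  intro u hu hu0 U E hE hEB hκE hU
  have hP := hC u hu
  set B := Metric.closedBall (0 : Vec d) R with hB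
  have hBc : IsCompact B := isCompact_closedBall _ _
  have hBm : MeasurableSet B := Metric.isClosed_closedBall.measurableSet
  have hc2 : Continuous fun p : Vec d × Vec d => |u p.1 - u p.2| :=
    ((hu.continuous.comp continuous_fst).sub (hu.continuous.comp continuous_snd)).abs
  have hi2 : IntegrableOn (fun p : Vec d × Vec d => |u p.1 - u p.2|) (B ×ˢ B)
      ((volume : Measure (Vec d)).prod volume) :=
    hc2.continuousOn.integrableOn_compact (hBc.prod hBc)
  have hEf : volume E < ⊤ := (measure_mono hEB).trans_lt poi_fin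
  have hEr : κ ≤ (volume : Measure (Vec d)).real E := by
    rw [Measure.real]
    exact (ENNReal.ofReal_le_iff_le_toReal hEf.ne).1 hκE
  -- pointwise
  have h1 : ∀ v, u v ≤ U + κ⁻¹ * ∫ w in B, |u v - u w| := by
    intro v
    have hcv : Continuous fun w : Vec d => |u v - u w| := (continuous_const.sub hu.continuous).abs
    have hiB : IntegrableOn (fun w : Vec d => |u v - u w|) B :=
      hcv.continuousOn.integrableOn_compact hBc
    have h2 : ∫ w in E, (u v - U) ≤ ∫ w in E, |u v - u w| := by
      refine setIntegral_mono_on ?_ (hiB.mono_set hEB) hE fun w hw => ?_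
      · exact integrableOn_const hEf.ne
      · have h3 := hU w hw
        have h4 := le_abs_self (u v - u w)
        linarith
    have h3 : ∫ w in E, |u v - u w| ≤ ∫ w in B, |u v - u w| :=
      setIntegral_mono_set hiB (Eventually.of_forall fun w => abs_nonneg _)
        (LE.le.eventuallyLE hEB)
    rw [setIntegral_const, smul_eq_mul] at h2
    have h4 : 0 ≤ ∫ w in B, |u v - u w| := integral_nonneg fun w => abs_nonneg _
    have h5 : κ * (u v - U) ≤ ∫ w in B, |u v - u w| := by
      rcases le_total 0 (u v - U) with h | h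
      · exact (mul_le_mul_of_nonneg_right hEr h).trans (h2.trans h3)
      · exact (mul_nonpos_of_nonneg_of_nonpos hκ.le h).trans h4
    have h6 : u v - U ≤ κ⁻¹ * ∫ w in B, |u v - u w| := by
      rw [inv_mul_eq_div, le_div_iff₀ hκ]
      linarith
    linarith
  have hprod : ∫ p in B ×ˢ B, |u p.1 - u p.2| = ∫ v in B, ∫ w in B, |u v - u w| := by
    rw [Measure.volume_eq_prod]
    exact setIntegral_prod _ hi2
  have hcp : Continuous fun v : Vec d => ∫ w in B, |u v - u w| := by
    refine continuous_parametric_integral_of_continuous (μ := (volume : Measure (Vec d)))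
      (f := fun v w => |u v - u w|) ?_ hBc
    exact hc2
  have h2 : ∫ v in B, u v ≤ ∫ v in B, (U + κ⁻¹ * ∫ w in B, |u v - u w|) := by
    refine setIntegral_mono_on (hu.continuous.continuousOn.integrableOn_compact hBc) ?_ hBm
      fun v _ => h1 v
    exact (continuous_const.add (continuous_const.mul hcp)).continuousOn.integrableOn_compact hBc
  have h3 : ∫ v in B, (U + κ⁻¹ * ∫ w in B, |u v - u w|) =
      (2 * R) ^ d * U + κ⁻¹ * ∫ v in B, ∫ w in B, |u v - u w| := by
    have hia : IntegrableOn (fun _ : Vec d => U) B :=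
      continuous_const.continuousOn.integrableOn_compact hBc
    have hib : IntegrableOn (fun v : Vec d => κ⁻¹ * ∫ w in B, |u v - u w|) B :=
      (continuous_const.mul hcp).continuousOn.integrableOn_compact hBc
    rw [integral_add hia hib, setIntegral_const, poi_vol hR, smul_eq_mul, integral_const_mul]
  rw [h3, ← hprod] at h2
  refine h2.trans ?_
  have h4 : κ⁻¹ * ∫ p in B ×ˢ B, |u p.1 - u p.2| ≤
      κ⁻¹ * (C0 * ∫ v in B, ∑ i, |pd i u v|) :=
    mul_le_mul_of_nonneg_left hP (by positivity)
  rw [mul_assoc]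
  linarith

end Pool.Agent.H15.AV
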