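import Pool.Agent.H15.AV.LDr
import Pool.Agent.H15.AV.LCv
import Pool.Agent.H15.AV.Poi

/-!
# Good fibers of the Landau equation, and the fiber theory

MODULE LGd. `R₂ = max R R₁` with `R₁` of `good_level`; `E = {‖v‖ ≤ R₁, ℓ ≤ g}`, `U = log (1 + 1/ℓ)` (`uf_le`);
`poincare_set` on the ball of radius `R₂`, Cauchy-Schwarz `∑|∂_i u| ≤ a + (d/(4a)) nsq ∇u`, coercivity:
`∫_{R₂} nsq ∇u ≤ c⁻¹ diss γ δ g φ` with `φ = 1` on the ball (`exists_chi`), then `diss_le`, `ub_le` and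
`lam δ ≥` the constants for `δ ≤ δ₀`. `|∂_i u| = |kd δ (g v) * pd i g v|`.
`fibTh_landau`: `drift` is `diss_le` with `diss_nonneg` (`R' = R`).
-/

set_option autoImplicit false

open MeasureTheory Set Filter Topology Pool.Agent.H25.Kin

namespace Pool.Agent.H15.AV

variable {d : ℕ} {γ : ℝ}

private lemma lgd_ufun (δ : ℝ) (g : Vec d → ℝ) :
    (fun v => uf δ (g v)) = fun v => lam δ - kf δ (g v) := by
  funext v
  have := kf_add_uf δ (g v)
  linarith

private lemma lgd_smooth {δ : ℝ} (hδ : 0 < δ) (hδ1 : δ ≤ 1) {g : Vec d → ℝ} (hg : Nice g)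
    (h0 : ∀ v, 0 ≤ g v) : ContDiff ℝ 1 fun v => uf δ (g v) := by
  rw [lgd_ufun]
  refine contDiff_const.sub ?_
  rw [contDiff_iff_contDiffAt]
  intro v
  have h1 : ContDiffAt ℝ 1 (kf δ) (g v) := contDiffAt_kf hδ hδ1 (by linarith [h0 v])
  exact h1.comp v (hg.smooth.contDiffAt.of_le (by norm_num))

private lemma lgd_pd {δ : ℝ} (hδ : 0 < δ) (hδ1 : δ ≤ 1) {g : Vec d → ℝ} (hg : Nice g)
    (h0 : ∀ v, 0 ≤ g v) (i : Fin d) (v : Vec d) :
    pd i (fun v => uf δ (g v)) v = -(kd δ (g v) * pd i g v) := by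
  have h1 : HasFDerivAt (fun v => kf δ (g v)) (kd δ (g v) • fderiv ℝ g v) v :=
    (hasDerivAt_kf hδ hδ1 (by linarith [h0 v])).comp_hasFDerivAt v (hg.diff v).hasFDerivAt
  have h2 : HasFDerivAt (fun v => lam δ - kf δ (g v)) (-(kd δ (g v) • fderiv ℝ g v)) v :=
    h1.const_sub (lam δ)
  unfold pd
  rw [lgd_ufun, h2.fderiv]
  simp

private lemma lgd_kd_cont {δ : ℝ} (hδ : 0 < δ) {g : Vec d → ℝ} (hg : Nice g)
    (h0 : ∀ v, 0 ≤ g v) : Continuous fun v => kd δ (g v) := by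
  unfold kd
  exact ((continuous_const.add hg.cont).inv₀
      fun v => (add_pos_of_pos_of_nonneg hδ (h0 v)).ne').sub
    ((continuous_const.add hg.cont).inv₀
      fun v => (add_pos_of_pos_of_nonneg one_pos (h0 v)).ne')

private lemma lgd_sum_abs {d : ℕ} (hd : 2 ≤ d) {a : ℝ} (ha : 0 < a) (x : Fin d → ℝ) :
    ∑ i, |x i| ≤ a + d / (4 * a) * ∑ i, x i ^ 2 := by
  have hd0 : (0 : ℝ) < d := by
    have : (2 : ℝ) ≤ d := by exact_mod_cast hd
    linarith
  have h1 : ∀ y : ℝ, |y| ≤ a / d + d / (4 * a) * y ^ 2 := by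
    intro y
    have e : a / d + d / (4 * a) * y ^ 2 - |y| = (2 * a - d * |y|) ^ 2 / (4 * a * d) := by
      have h2 : y ^ 2 = |y| ^ 2 := (sq_abs y).symm
      rw [h2]
      field_simp
      ring
    have h3 : 0 ≤ (2 * a - d * |y|) ^ 2 / (4 * a * d) := by positivity
    linarith
  calc ∑ i, |x i| ≤ ∑ i, (a / d + d / (4 * a) * x i ^ 2) := Finset.sum_le_sum fun i _ => h1 (x i)
    _ = a + d / (4 * a) * ∑ i, x i ^ 2 := by
      rw [Finset.sum_add_distrib, Finset.sum_const, Finset.card_univ, Fintype.card_fin,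
        nsmul_eq_mul, ← Finset.mul_sum]
      field_simp

theorem good_landau (hd : 2 ≤ d) (h1 : -2 < γ) (h2 : γ ≤ 0) {R m : ℝ} (hR : 0 < R) (hm : 0 < m)
    (N : ℝ) {η : ℝ} (hη : 0 < η) : ∃ (C R' δ₀ : ℝ) (φ : Vec d → ℝ),
    0 ≤ C ∧ 0 < R' ∧ 0 < δ₀ ∧ δ₀ ≤ 1 / 2 ∧ Tst R' C φ ∧ (∀ v, 0 ≤ φ v) ∧
    ∀ δ ∈ Ioc (0 : ℝ) δ₀, ∀ g : Vec d → ℝ, Nice g → (∀ v, 0 ≤ g v) → Good m N g →
      ub δ R g ≤ η * lam δ +
        C / lam δ * (src (landauQ γ) δ g φ + C * kap (γ + 2) g * lam δ) := by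
  obtain ⟨R₁, hR₁, ℓ, hℓ, κ, hκ, hlev⟩ := good_level (d := d) hm N
  obtain ⟨R₂, hR₂⟩ : ∃ R₂ : ℝ, R₂ = max R R₁ := ⟨_, rfl⟩
  have hRR : R ≤ R₂ := by rw [hR₂]; exact le_max_left _ _
  have hR₁R : R₁ ≤ R₂ := by rw [hR₂]; exact le_max_right _ _
  have hR₂0 : 0 < R₂ := hR.trans_le hRR
  obtain ⟨K, χ, hχ, χ0, χ1, χR⟩ := exists_chi d hR₂0
  have hK : 0 ≤ K := (abs_nonneg _).trans (hχ.le0 0)
  obtain ⟨c, hc, hcoer⟩ := coercive hd h1 h2 hR₂0 hm N
  obtain ⟨Cd, hCd, hdiss⟩ := diss_le hd h1 h2 (mul_pos two_pos hR₂0)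
  obtain ⟨Cp, hCp, hpoi⟩ := poincare_set d hR₂0 hκ
  obtain ⟨V, hV⟩ : ∃ V : ℝ, V = (volume : Measure (Vec d)).real (Metric.closedBall 0 R₂) :=
    ⟨_, rfl⟩
  have hV0 : 0 ≤ V := by rw [hV]; exact measureReal_nonneg
  have hd0 : (0 : ℝ) < d := by
    have : (2 : ℝ) ≤ d := by exact_mod_cast hd
    linarith
  obtain ⟨U, hU⟩ : ∃ U : ℝ, U = Real.log (1 + 1 / ℓ) := ⟨_, rfl⟩
  obtain ⟨δ₀, hδ₀, hδ₀2, hlam⟩ := exists_lam_ge (max 1 (2 * ((2 * R₂) ^ d * U) / η))
  obtain ⟨a₀, ha₀⟩ : ∃ a₀ : ℝ, a₀ = η / (2 * ((Cp + 1) * (V + 1))) := ⟨_, rfl⟩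
  have ha₀0 : 0 < a₀ := by rw [ha₀]; positivity
  obtain ⟨W, hW⟩ : ∃ W : ℝ, W = (2 * (2 * R₂)) ^ d := ⟨_, rfl⟩
  have hW0 : 0 ≤ W := by rw [hW]; positivity
  obtain ⟨C1, hC1⟩ : ∃ C1 : ℝ, C1 = Cp * d / (2 * a₀ * c) := ⟨_, rfl⟩
  obtain ⟨C2, hC2⟩ : ∃ C2 : ℝ, C2 = Cd * K * (1 + W) := ⟨_, rfl⟩
  have hC10 : 0 ≤ C1 := by rw [hC1]; positivity
  have hC20 : 0 ≤ C2 := by rw [hC2]; positivity
  have hKC : K ≤ C1 + C2 + K := by linarith
  refine ⟨C1 + C2 + K, 2 * R₂, δ₀, χ, by positivity, by positivity, hδ₀, hδ₀2,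
    ⟨hχ.smooth, hχ.supp, fun v => (hχ.le0 v).trans hKC, fun v => (hχ.le1 v).trans hKC,
      fun v => (hχ.le2 v).trans hKC⟩, χ0, ?_⟩
  intro δ hδ g hg h0 hgood
  have hδ0 : 0 < δ := hδ.1
  have hδ1 : δ ≤ 1 := hδ.2.trans (hδ₀2.trans (by norm_num))
  have hlamδ := hlam δ hδ
  have hlam1 : 1 ≤ lam δ := (le_max_left _ _).trans hlamδ
  have hlam0 : 0 < lam δ := by linarith
  have hlam2 : (2 * R₂) ^ d * U ≤ η / 2 * lam δ := by
    have h3 : 2 * ((2 * R₂) ^ d * U) / η ≤ lam δ := (le_max_right _ _).trans hlamδ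
    rw [div_le_iff₀ hη] at h3
    linarith
  -- continuity
  have hkc := lgd_kd_cont hδ0 hg h0
  have hDc : ∀ i, Continuous fun v => kd δ (g v) * pd i g v := fun i => hkc.mul (hg.pd_cont i)
  have hSc : Continuous fun v => ∑ i, ∑ j, ab γ g i j v *
      ((kd δ (g v) * pd i g v) * (kd δ (g v) * pd j g v)) :=
    continuous_finsetSum _ fun i _ => continuous_finsetSum _ fun j _ =>
      (ab_cont h1 h2 hg.cont hg.rd i j).mul ((hDc i).mul (hDc j))
  have hNc : Continuous fun v => nsq fun i => kd δ (g v) * pd i g v := by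
    unfold nsq
    exact continuous_finsetSum _ fun i _ => (hDc i).pow 2
  have hS0 : ∀ v, 0 ≤ ∑ i, ∑ j, ab γ g i j v *
      ((kd δ (g v) * pd i g v) * (kd δ (g v) * pd j g v)) := fun v =>
    ab_psd h1 h2 hg h0 v (fun i => kd δ (g v) * pd i g v)
  have hBm : MeasurableSet (Metric.closedBall (0 : Vec d) R₂) := Metric.isClosed_closedBall.measurableSet
  have hint : ∀ {F : Vec d → ℝ}, Continuous F →
      IntegrableOn F (Metric.closedBall (0 : Vec d) R₂) volume := fun hF =>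
    hF.continuousOn.integrableOn_compact (isCompact_closedBall _ _)
  -- (3)
  have hG2 : c * ∫ v in Metric.closedBall (0 : Vec d) R₂, (nsq fun i => kd δ (g v) * pd i g v) ≤
      diss γ δ g χ := by
    have hFc : Continuous fun v => χ v * ∑ i, ∑ j, ab γ g i j v *
        ((kd δ (g v) * pd i g v) * (kd δ (g v) * pd j g v)) := hχ.smooth.continuous.mul hSc
    have hFi : Integrable (fun v => χ v * ∑ i, ∑ j, ab γ g i j v *
        ((kd δ (g v) * pd i g v) * (kd δ (g v) * pd j g v))) volume := by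
      refine hFc.integrable_of_hasCompactSupport
        (HasCompactSupport.intro (isCompact_closedBall (0 : Vec d) (2 * R₂)) fun v hv => ?_)
      have h3 : 2 * R₂ ≤ ‖v‖ := by
        rw [mem_closedBall_zero_iff, not_le] at hv
        exact hv.le
      rw [hχ.supp v h3, zero_mul]
    calc c * ∫ v in Metric.closedBall (0 : Vec d) R₂, (nsq fun i => kd δ (g v) * pd i g v)
        = ∫ v in Metric.closedBall (0 : Vec d) R₂, c * (nsq fun i => kd δ (g v) * pd i g v) :=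
          (integral_const_mul _ _).symm
      _ ≤ ∫ v in Metric.closedBall (0 : Vec d) R₂, χ v * ∑ i, ∑ j, ab γ g i j v *
          ((kd δ (g v) * pd i g v) * (kd δ (g v) * pd j g v)) := by
          refine setIntegral_mono_on (hint (continuous_const.mul hNc)) (hint hFc) hBm
            fun v hv => ?_
          rw [mem_closedBall_zero_iff] at hv
          rw [χR v hv, one_mul]
          exact hcoer g hg h0 hgood v hv (fun i => kd δ (g v) * pd i g v)
      _ ≤ ∫ v, χ v * ∑ i, ∑ j, ab γ g i j v *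
          ((kd δ (g v) * pd i g v) * (kd δ (g v) * pd j g v)) :=
          setIntegral_le_integral hFi (Eventually.of_forall fun v => mul_nonneg (χ0 v) (hS0 v))
      _ = diss γ δ g χ := rfl
  -- (4), (5)
  have hkap : 0 ≤ kap (γ + 2) g := kap_nonneg (γ + 2) h0
  have hdiss0 : 0 ≤ diss γ δ g χ := diss_nonneg h1 h2 hg h0 χ0
  have hX : diss γ δ g χ / 2 ≤ src (landauQ γ) δ g χ + C2 * kap (γ + 2) g * lam δ := by
    have h3 := hdiss δ ⟨hδ0, hδ1⟩ g hg h0 K χ hχ χ0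
    have h4 : ub δ (2 * R₂) g ≤ W * lam δ := by
      rw [hW]
      exact ub_le hδ0 hδ1 (by positivity) hg.cont h0
    have h5 : Cd * K * kap (γ + 2) g * (1 + ub δ (2 * R₂) g) ≤
        Cd * K * kap (γ + 2) g * ((1 + W) * lam δ) := by
      refine mul_le_mul_of_nonneg_left ?_ (by positivity)
      nlinarith
    have h6 : Cd * K * kap (γ + 2) g * ((1 + W) * lam δ) = C2 * kap (γ + 2) g * lam δ := by
      rw [hC2]; ring
    linarith
  -- (2)
  obtain ⟨a, ha⟩ : ∃ a : ℝ, a = a₀ * lam δ := ⟨_, rfl⟩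
  have ha0 : 0 < a := by rw [ha]; positivity
  have hpdc : Continuous fun v => ∑ i, |pd i (fun v => uf δ (g v)) v| := by
    refine continuous_finsetSum _ fun i _ => ?_
    have h3 : (fun v => |pd i (fun v => uf δ (g v)) v|) = fun v => |kd δ (g v) * pd i g v| := by
      funext v
      rw [lgd_pd hδ0 hδ1 hg h0, abs_neg]
    rw [h3]
    exact (hDc i).abs
  have hG1 : ∫ v in Metric.closedBall (0 : Vec d) R₂, ∑ i, |pd i (fun v => uf δ (g v)) v| ≤
      V * a + d / (4 * a) *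
        ∫ v in Metric.closedBall (0 : Vec d) R₂, (nsq fun i => kd δ (g v) * pd i g v) := by
    calc ∫ v in Metric.closedBall (0 : Vec d) R₂, ∑ i, |pd i (fun v => uf δ (g v)) v|
        ≤ ∫ v in Metric.closedBall (0 : Vec d) R₂,
          (a + d / (4 * a) * (nsq fun i => kd δ (g v) * pd i g v)) := by
          refine setIntegral_mono_on (hint hpdc)
            (hint (continuous_const.add (continuous_const.mul hNc))) hBm fun v _ => ?_
          have h3 : ∑ i, |pd i (fun v => uf δ (g v)) v| = ∑ i, |kd δ (g v) * pd i g v| :=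
            Finset.sum_congr rfl fun i _ => by rw [lgd_pd hδ0 hδ1 hg h0, abs_neg]
          rw [h3]
          exact lgd_sum_abs hd ha0 fun i => kd δ (g v) * pd i g v
      _ = _ := by
          have hI1 : Integrable (fun _ : Vec d => a)
              (volume.restrict (Metric.closedBall (0 : Vec d) R₂)) := hint continuous_const
          have hI2 : Integrable (fun v => d / (4 * a) * (nsq fun i => kd δ (g v) * pd i g v))
              (volume.restrict (Metric.closedBall (0 : Vec d) R₂)) :=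
            hint (continuous_const.mul hNc)
          rw [integral_add hI1 hI2, setIntegral_const, integral_const_mul, smul_eq_mul, ← hV]
  -- (1)
  have hub2 : ub δ R₂ g ≤ (2 * R₂) ^ d * U +
      Cp * ∫ v in Metric.closedBall (0 : Vec d) R₂, ∑ i, |pd i (fun v => uf δ (g v)) v| := by
    refine hpoi (fun v => uf δ (g v)) (lgd_smooth hδ0 hδ1 hg h0)
      (fun v => uf_nonneg hδ0 hδ1 (h0 v)) U {v | ‖v‖ ≤ R₁ ∧ ℓ ≤ g v} ?_ ?_ (hlev g hg h0 hgood) ?_
    · exact ((isClosed_le continuous_norm continuous_const).inter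
        (isClosed_le continuous_const hg.cont)).measurableSet
    · rintro v ⟨hv, -⟩
      rw [mem_closedBall_zero_iff]
      exact hv.trans hR₁R
    · rintro v ⟨-, hv⟩
      rw [hU]
      exact uf_le hδ0 hℓ hv
  have hub1 : ub δ R g ≤ ub δ R₂ g := ub_mono hδ0 hδ1 hRR hg.cont h0
  -- assembly
  obtain ⟨G1, hG1d⟩ : ∃ G1 : ℝ, G1 =
    ∫ v in Metric.closedBall (0 : Vec d) R₂, ∑ i, |pd i (fun v => uf δ (g v)) v| := ⟨_, rfl⟩
  obtain ⟨G2, hG2d⟩ : ∃ G2 : ℝ, G2 =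
    ∫ v in Metric.closedBall (0 : Vec d) R₂, (nsq fun i => kd δ (g v) * pd i g v) := ⟨_, rfl⟩
  rw [← hG1d] at hub2 hG1
  rw [← hG2d] at hG1 hG2
  obtain ⟨X, hXd⟩ : ∃ X : ℝ, X = src (landauQ γ) δ g χ + C2 * kap (γ + 2) g * lam δ := ⟨_, rfl⟩
  rw [← hXd] at hX
  have hX0 : 0 ≤ X := by linarith
  have e1 : Cp * (V * a) ≤ η / 2 * lam δ := by
    have h3 : Cp * V ≤ (Cp + 1) * (V + 1) := by nlinarith
    have h4 : Cp * V * a₀ ≤ η / 2 := by
      rw [ha₀, mul_div_assoc', div_le_iff₀ (by positivity)]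
      nlinarith
    rw [ha]
    nlinarith
  have e2 : G2 ≤ 2 * X / c := by
    rw [le_div_iff₀ hc]
    linarith
  have e3 : Cp * (d / (4 * a) * G2) ≤ C1 / lam δ * X := by
    have h3 : d / (4 * a) * G2 ≤ d / (4 * a) * (2 * X / c) :=
      mul_le_mul_of_nonneg_left e2 (by positivity)
    calc Cp * (d / (4 * a) * G2) ≤ Cp * (d / (4 * a) * (2 * X / c)) :=
          mul_le_mul_of_nonneg_left h3 hCp
      _ = C1 / lam δ * X := by
          rw [hC1, ha]
          field_simp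
          ring
  have e4 : C1 / lam δ * X ≤ (C1 + C2 + K) / lam δ *
      (src (landauQ γ) δ g χ + (C1 + C2 + K) * kap (γ + 2) g * lam δ) := by
    refine mul_le_mul ?_ ?_ hX0 (by positivity)
    · exact div_le_div_of_nonneg_right (by linarith) hlam0.le
    · rw [hXd]
      have h3 : C2 * kap (γ + 2) g * lam δ ≤ (C1 + C2 + K) * kap (γ + 2) g * lam δ := by
        refine mul_le_mul_of_nonneg_right (mul_le_mul_of_nonneg_right ?_ hkap) hlam0.le
        linarith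
      linarith
  have e5 : Cp * G1 ≤ Cp * (V * a) + Cp * (d / (4 * a) * G2) := by
    rw [← mul_add]
    exact mul_le_mul_of_nonneg_left hG1 hCp
  linarith

theorem fibTh_landau (hd : 2 ≤ d) (h1 : -2 < γ) (h2 : γ ≤ 0) :
    FibTh (d := d) (γ + 2) (landauQ γ) := by
  refine ⟨?_, ?_, ?_⟩
  · intro R hR η hη
    obtain ⟨C, hC, hdiss⟩ := diss_le hd h1 h2 hR
    refine ⟨C, R, hC, le_refl _, fun δ hδ g hg h0 K Ψ hΨ hΨ0 => ?_⟩
    have hδ1 : δ ≤ 1 := hδ.2.trans (by norm_num)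
    have h3 := hdiss δ ⟨hδ.1, hδ1⟩ g hg h0 K Ψ hΨ hΨ0
    have h4 := diss_nonneg (δ := δ) h1 h2 hg h0 hΨ0
    have hK : 0 ≤ K := (abs_nonneg _).trans (hΨ.le0 0)
    have hkap : 0 ≤ kap (γ + 2) g := kap_nonneg (γ + 2) h0
    have hlam : 0 < lam δ := lam_pos hδ.1 (hδ.2.trans_lt (by norm_num))
    have h5 : 0 ≤ K * kap (γ + 2) g * (η * lam δ) := by positivity
    have h6 : K * kap (γ + 2) g * (C * (1 + ub δ R g) + η * lam δ) =
        C * K * kap (γ + 2) g * (1 + ub δ R g) + K * kap (γ + 2) g * (η * lam δ) := by ring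
    linarith
  · intro R hR m hm N η hη
    exact good_landau hd h1 h2 hR hm N hη
  · intro R hR
    exact source_landau hd h1 h2 hR

end Pool.Agent.H15.AV
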