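import Pool.Agent.H15.AV.LE
import Pool.Agent.H82.LK.Split

/-!
# The H-theorem for the Landau operator

MODULE LH. `gau` is `Nice`. `landau_rem`: `landauQ_eq` for `g + δ gau` and for `g`; the difference is
`δ` (terms linear in `g`) `+ δ²` (terms in `gau`), every term a product of a rapidly decaying function
and a convolution of polynomial growth, with bounds depending on `C` only.
`hth_landau`: `G = g + δ gau` is `UNice`, positive, `|log G| ≤ log (1/δ) + nsq v + log (C 0 + 1)`, and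
`(∂_i G)²/G` is `RD` by `grad_sq_le` for `G`; so
`∫ landauQ g log G = ∫ landauQ G log G - ∫ (landauQ G - landauQ g) log G ≤ D δ (log (1/δ) + C')`.
-/

set_option autoImplicit false

open MeasureTheory Set Filter Topology Pool.Agent.H25.Kin

namespace Pool.Agent.H15.AV

variable {d : ℕ} {γ : ℝ}

private theorem lh_norm_sq_le (v : Vec d) : ‖v‖ ^ 2 ≤ nsq v := by
  have h1 : ∀ i, |v i| ≤ Real.sqrt (nsq v) := by
    intro i
    apply Real.abs_le_sqrt
    exact Finset.single_le_sum (f := fun i => v i ^ 2) (fun i _ => sq_nonneg _) (Finset.mem_univ i)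
  have h2 : ‖v‖ ≤ Real.sqrt (nsq v) := by
    rw [pi_norm_le_iff_of_nonneg (Real.sqrt_nonneg _)]
    intro i
    rw [Real.norm_eq_abs]
    exact h1 i
  calc ‖v‖ ^ 2 ≤ (Real.sqrt (nsq v)) ^ 2 := pow_le_pow_left₀ (norm_nonneg _) h2 2
    _ = nsq v := Real.sq_sqrt (sq_nonneg' v)

private theorem lh_gau_pos (v : Vec d) : 0 < gau v := Real.exp_pos _

private theorem lh_gau_le_one (v : Vec d) : gau v ≤ 1 := by
  unfold gau
  exact Real.exp_le_one_iff.2 (neg_nonpos.2 (sq_nonneg' v))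

private theorem lh_gau_rd : RD (gau (d := d)) := by
  intro N
  refine ⟨(N.factorial : ℝ) * Real.exp 2, fun v => ?_⟩
  have hw := w_pos v
  have h1 : (1 + ‖v‖) ^ N / (N.factorial : ℝ) ≤ Real.exp (1 + ‖v‖) :=
    Real.pow_div_factorial_le_exp (1 + ‖v‖) hw.le N
  have hf : (0 : ℝ) < (N.factorial : ℝ) := by exact_mod_cast Nat.factorial_pos N
  rw [div_le_iff₀ hf] at h1
  have h2 : ‖gau v‖ = Real.exp (-nsq v) := by
    unfold gau
    rw [Real.norm_eq_abs, abs_of_pos (Real.exp_pos _)]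
  rw [h2]
  have h3 : (1 + ‖v‖) - nsq v ≤ 2 := by
    have := lh_norm_sq_le v
    nlinarith [sq_nonneg (‖v‖ - 1), norm_nonneg v]
  calc (1 + ‖v‖) ^ N * Real.exp (-nsq v)
      ≤ Real.exp (1 + ‖v‖) * (N.factorial : ℝ) * Real.exp (-nsq v) :=
        mul_le_mul_of_nonneg_right h1 (Real.exp_pos _).le
    _ = (N.factorial : ℝ) * Real.exp ((1 + ‖v‖) - nsq v) := by
        rw [sub_eq_add_neg, Real.exp_add (1 + ‖v‖)]; ring
    _ ≤ (N.factorial : ℝ) * Real.exp 2 :=
        mul_le_mul_of_nonneg_left (Real.exp_le_exp.2 h3) hf.le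

/-- the derivative of `nsq` as a continuous linear map -/
private noncomputable def lhL (d : ℕ) : Vec d →L[ℝ] (Vec d →L[ℝ] ℝ) :=
  ∑ i, (2 : ℝ) • (ContinuousLinearMap.proj (R := ℝ) (φ := fun _ : Fin d => ℝ) i).smulRight
    (ContinuousLinearMap.proj (R := ℝ) (φ := fun _ : Fin d => ℝ) i)

private theorem lhL_apply (v : Vec d) : lhL d v =
    ∑ i, (2 * v i) • ContinuousLinearMap.proj (R := ℝ) (φ := fun _ : Fin d => ℝ) i := by
  unfold lhL
  rw [sum_apply]
  refine Finset.sum_congr rfl fun i _ => ?_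
  simp [smul_smul]

private theorem lh_gau_hasFDerivAt (v : Vec d) : HasFDerivAt (gau (d := d)) ((-gau v) • lhL d v) v := by
  have h := hasFDerivAt_sq v
  rw [← lhL_apply] at h
  have h2 : HasFDerivAt (gau (d := d)) (Real.exp (-nsq v) • -lhL d v) v := h.neg.exp
  have e : Real.exp (-nsq v) • -lhL d v = (-gau v) • lhL d v := by
    unfold gau
    rw [smul_neg]
    exact (neg_smul _ _).symm
  rw [e] at h2
  exact h2

private theorem lh_gau_fderiv : fderiv ℝ (gau (d := d)) = fun v => (-gau v) • lhL d v :=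
  funext fun v => (lh_gau_hasFDerivAt v).fderiv

private theorem lhL_PG : PG (fun v : Vec d => lhL d v) := by
  refine ⟨1, ‖lhL d‖, fun v => ?_⟩
  refine ((lhL d).le_opNorm v).trans ?_
  rw [pow_one]
  exact mul_le_mul_of_nonneg_left (by linarith) (norm_nonneg _)

private theorem lh_gau_rd1 : RD (fderiv ℝ (gau (d := d))) := by
  rw [lh_gau_fderiv]
  exact lh_gau_rd.neg.smul_PG lhL_PG

private theorem lh_gau_fderiv2 (v : Vec d) : HasFDerivAt (fderiv ℝ (gau (d := d)))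
    ((-gau v) • lhL d + (-((-gau v) • lhL d v)).smulRight (lhL d v)) v := by
  rw [lh_gau_fderiv]
  have h1 : HasFDerivAt (fun v : Vec d => -gau v) (-((-gau v) • lhL d v)) v :=
    (lh_gau_hasFDerivAt v).neg
  have h2 : HasFDerivAt (fun v : Vec d => lhL d v) (lhL d) v := (lhL d).hasFDerivAt
  exact h1.smul h2

private theorem lh_gau_rd2 : RD (fderiv ℝ (fderiv ℝ (gau (d := d)))) := by
  have e : fderiv ℝ (fderiv ℝ (gau (d := d))) = fun v =>
      ((-gau v) • lhL d + (-((-gau v) • lhL d v)).smulRight (lhL d v)) :=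
    funext fun v => (lh_gau_fderiv2 v).fderiv
  rw [e]
  have hA : RD fun v : Vec d => (-gau v) • lhL d := lh_gau_rd.neg.smul_PG (PG.const (lhL d))
  have hB : RD fun v : Vec d => (-((-gau v) • lhL d v)).smulRight (lhL d v) := by
    have h1 : RD fun v : Vec d => (-gau v) • lhL d v := lh_gau_rd.neg.smul_PG lhL_PG
    have h2 : RD fun v : Vec d => ‖(-gau v) • lhL d v‖ := by
      intro N
      obtain ⟨C, hC⟩ := h1 N
      exact ⟨C, fun v => by rw [norm_norm]; exact hC v⟩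
    have h3 : PG fun v : Vec d => ‖lhL d v‖ := by
      obtain ⟨N, C, hC⟩ := lhL_PG (d := d)
      exact ⟨N, C, fun v => by rw [norm_norm]; exact hC v⟩
    refine (h2.mul_PG h3).mono 1 fun v => ?_
    rw [one_mul, ContinuousLinearMap.norm_smulRight_apply, norm_neg, norm_mul, norm_norm, norm_norm]
  exact hA.add hB

theorem nice_gau : Nice (gau (d := d)) := by
  refine ⟨?_, lh_gau_rd, lh_gau_rd1, lh_gau_rd2⟩
  unfold gau nsq
  fun_prop

private theorem lh_nice_add {g : Vec d → ℝ} (hg : Nice g) (δ : ℝ) :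
    Nice fun v => g v + δ * gau v := by
  have hm := nice_gau (d := d)
  have e1 : fderiv ℝ (fun v => g v + δ * gau v) = fun v => fderiv ℝ g v + δ • fderiv ℝ gau v := by
    funext v
    exact ((hg.diff v).hasFDerivAt.add ((hm.diff v).hasFDerivAt.const_mul δ)).fderiv
  have e2 : fderiv ℝ (fderiv ℝ (fun v => g v + δ * gau v)) =
      fun v => fderiv ℝ (fderiv ℝ g) v + δ • fderiv ℝ (fderiv ℝ gau) v := by
    rw [e1]
    funext v
    exact ((hg.diff1 v).hasFDerivAt.add ((hm.diff1 v).hasFDerivAt.const_smul δ)).fderiv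
  have r : ∀ {E : Type} [NormedAddCommGroup E] [NormedSpace ℝ E] (h : Vec d → E), RD h →
      RD fun v => δ • h v := by
    intro E _ _ h hh
    refine hh.mono |δ| fun v => ?_
    rw [norm_smul, Real.norm_eq_abs]
  refine ⟨hg.smooth.add (contDiff_const.mul hm.smooth), ?_, ?_, ?_⟩
  · exact hg.rd.add (r _ hm.rd)
  · rw [e1]; exact hg.rd1.add (r _ hm.rd1)
  · rw [e2]; exact hg.rd2.add (r _ hm.rd2)

private theorem lh_fd1 {g : Vec d → ℝ} (hg : Nice g) (δ : ℝ) (v : Vec d) :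
    fderiv ℝ (fun v => g v + δ * gau v) v = fderiv ℝ g v + δ • fderiv ℝ gau v :=
  ((hg.diff v).hasFDerivAt.add (((nice_gau (d := d)).diff v).hasFDerivAt.const_mul δ)).fderiv

private theorem lh_fd2 {g : Vec d → ℝ} (hg : Nice g) (δ : ℝ) (v : Vec d) :
    fderiv ℝ (fderiv ℝ (fun v => g v + δ * gau v)) v =
      fderiv ℝ (fderiv ℝ g) v + δ • fderiv ℝ (fderiv ℝ gau) v := by
  have e1 : fderiv ℝ (fun v => g v + δ * gau v) = fun v => fderiv ℝ g v + δ • fderiv ℝ gau v :=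
    funext fun v => lh_fd1 hg δ v
  rw [e1]
  exact ((hg.diff1 v).hasFDerivAt.add
    (((nice_gau (d := d)).diff1 v).hasFDerivAt.const_smul δ)).fderiv

private theorem lh_pdpd {g : Vec d → ℝ} (hg : Nice g) (i j : Fin d) (v : Vec d) :
    pd i (pd j g) v = fderiv ℝ (fderiv ℝ g) v (Pi.single i 1) (Pi.single j 1) := by
  have h := hg.fderiv_pd j v
  unfold pd at h ⊢
  rw [h]
  rfl

private theorem lh_pdpd_le {g : Vec d → ℝ} (hg : Nice g) (i j : Fin d) (v : Vec d) :
    |pd i (pd j g) v| ≤ ‖fderiv ℝ (fderiv ℝ g) v‖ := by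
  rw [lh_pdpd hg]
  have h1 := (fderiv ℝ (fderiv ℝ g) v (Pi.single i 1)).le_opNorm (Pi.single j 1)
  have h2 := (fderiv ℝ (fderiv ℝ g) v).le_opNorm (Pi.single i 1)
  rw [norm_single_one, mul_one] at h1 h2
  exact h1.trans h2

private theorem lh_pdpd_add {g : Vec d → ℝ} (hg : Nice g) (δ : ℝ) (i j : Fin d) (v : Vec d) :
    pd i (pd j fun v => g v + δ * gau v) v = pd i (pd j g) v + δ * pd i (pd j gau) v := by
  rw [lh_pdpd (lh_nice_add hg δ), lh_fd2 hg, lh_pdpd hg, lh_pdpd nice_gau]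
  simp

private theorem lh_pdpd_cont {g : Vec d → ℝ} (hg : Nice g) (i j : Fin d) :
    Continuous (pd i (pd j g)) := (hg.pd_cont1 j).clm_apply continuous_const

private theorem lh_pdpd_RD {g : Vec d → ℝ} (hg : Nice g) (i j : Fin d) : RD (pd i (pd j g)) :=
  hg.rd2.mono 1 fun v => by
    rw [one_mul, Real.norm_eq_abs]; exact lh_pdpd_le hg i j v

/-- convolutions of sums -/
private theorem lh_conv_add {k : Vec d → ℝ} {A : ℝ} (hk : Kern k A) {h₁ h₂ : Vec d → ℝ} (δ : ℝ)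
    (c₁ : Continuous h₁) (c₂ : Continuous h₂) (r₁ : RD h₁) (r₂ : RD h₂) (v : Vec d) :
    conv k (fun v => h₁ v + δ * h₂ v) v = conv k h₁ v + δ * conv k h₂ v := by
  unfold conv
  rw [← integral_const_mul, ← integral_add (hk.integrable c₁ r₁ v)
    ((hk.integrable c₂ r₂ v).const_mul δ)]
  refine integral_congr_ae (Eventually.of_forall fun z => ?_)
  simp only [smul_eq_mul]
  ring

/-- the size of convolutions -/
private theorem lh_conv_le {k : Vec d → ℝ} {A : ℝ} (hk : Kern k A) {h : Vec d → ℝ} {D : ℝ}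
    (hD0 : 0 ≤ D) (hD : ∀ v, (1 + ‖v‖) ^ (d + 3) * |h v| ≤ D) (v : Vec d) :
    |conv k h v| ≤ A * D * (∫ z, wt d z) * (1 + ‖v‖) ^ (d + 3) := by
  have hb : ∀ v, ‖h v‖ ≤ D * ((1 + ‖v‖) ^ (d + 3))⁻¹ := by
    intro v
    rw [← div_eq_mul_inv, le_div_iff₀ (pow_pos (w_pos v) _), mul_comm]
    exact hD v
  unfold conv
  calc |∫ z, k z • h (v - z)| ≤ ∫ z, A * D * (1 + ‖v‖) ^ (d + 3) * wt d z :=
        norm_integral_le_of_norm_le (integrable_wt.const_mul _)
          (Eventually.of_forall fun z => hk.le hD0 hb v z)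
    _ = A * D * (∫ z, wt d z) * (1 + ‖v‖) ^ (d + 3) := by
        rw [integral_const_mul]; ring

/-- products of a convolution and a rapidly decaying function -/
private theorem lh_prod_le {k : Vec d → ℝ} {A : ℝ} (hk : Kern k A) {h f : Vec d → ℝ} {D E : ℝ}
    (hD0 : 0 ≤ D) (hD : ∀ v, (1 + ‖v‖) ^ (d + 3) * |h v| ≤ D)
    (hE : ∀ v, (1 + ‖v‖) ^ (2 * (d + 3)) * |f v| ≤ E) (v : Vec d) :
    (1 + ‖v‖) ^ (d + 3) * |conv k h v * f v| ≤ A * D * (∫ z, wt d z) * E := by
  have h1 := lh_conv_le hk hD0 hD v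
  have hw := w_pos v
  have hI : 0 ≤ ∫ z, wt d z := integral_nonneg fun z => wt_nonneg z
  have hA := hk.nonneg
  calc (1 + ‖v‖) ^ (d + 3) * |conv k h v * f v|
      = (1 + ‖v‖) ^ (d + 3) * (|conv k h v| * |f v|) := by rw [abs_mul]
    _ ≤ (1 + ‖v‖) ^ (d + 3) * (A * D * (∫ z, wt d z) * (1 + ‖v‖) ^ (d + 3) * |f v|) := by
        gcongr
    _ = A * D * (∫ z, wt d z) * ((1 + ‖v‖) ^ (2 * (d + 3)) * |f v|) := by
        rw [two_mul, pow_add]; ring
    _ ≤ A * D * (∫ z, wt d z) * E :=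
        mul_le_mul_of_nonneg_left (hE v) (by positivity)

theorem landau_rem (h1 : -2 < γ) (h2 : γ ≤ 0) (C : ℕ → ℝ) : ∃ D : ℝ, 0 ≤ D ∧
    ∀ g : Vec d → ℝ, UNice C g → ∀ δ ∈ Ioc (0 : ℝ) 1, ∀ v,
      (1 + ‖v‖) ^ (d + 3) * |landauQ γ (fun v => g v + δ * gau v) v - landauQ γ g v| ≤ δ * D := by
  have hm := nice_gau (d := d)
  obtain ⟨a3, ha3⟩ := hm.rd (d + 3)
  obtain ⟨a6, ha6⟩ := hm.rd (2 * (d + 3))
  obtain ⟨b3, hb3⟩ := hm.rd2 (d + 3)
  obtain ⟨b6, hb6⟩ := hm.rd2 (2 * (d + 3))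
  have hb3n : 0 ≤ b3 := le_trans (by positivity) (hb3 0)
  have hb6n : 0 ≤ b6 := le_trans (by positivity) (hb6 0)
  have ha3n : 0 ≤ a3 := le_trans (by positivity) (ha3 0)
  have ha6n : 0 ≤ a6 := le_trans (by positivity) (ha6 0)
  set I : ℝ := ∫ z, wt d z with hI
  have hI0 : 0 ≤ I := integral_nonneg fun z => wt_nonneg z
  set A : ℝ := 2 * ((d : ℝ) + 1) with hA
  have hA0 : 0 ≤ A := by positivity
  set c3 : ℝ := max (C (d + 3)) 0 with hc3
  set c6 : ℝ := max (C (2 * (d + 3))) 0 with hc6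
  have hc3n : 0 ≤ c3 := le_max_right _ _
  have hc6n : 0 ≤ c6 := le_max_right _ _
  set S : ℝ := A * c3 * I * b6 + A * a3 * I * c6 + A * a3 * I * b6 + A * b3 * I * c6 +
    A * c3 * I * a6 + A * b3 * I * a6 with hS
  have hS0 : 0 ≤ S := by positivity
  refine ⟨(d : ℝ) * ((d : ℝ) * S), by positivity, fun g hg δ hδ v => ?_⟩
  have hgn := hg.nice
  have hg3 : ∀ v, (1 + ‖v‖) ^ (d + 3) * |g v| ≤ c3 := by
    intro v
    refine le_trans ?_ ((hg.le (d + 3) v).trans (le_max_left _ _))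
    refine mul_le_mul_of_nonneg_left ?_ (pow_nonneg (w_pos v).le _)
    rw [abs_of_nonneg (hg.nonneg v)]
    have := norm_nonneg (fderiv ℝ g v)
    have := norm_nonneg (fderiv ℝ (fderiv ℝ g) v)
    linarith
  have hg6 : ∀ v, (1 + ‖v‖) ^ (2 * (d + 3)) * |g v| ≤ c6 := by
    intro v
    refine le_trans ?_ ((hg.le (2 * (d + 3)) v).trans (le_max_left _ _))
    refine mul_le_mul_of_nonneg_left ?_ (pow_nonneg (w_pos v).le _)
    rw [abs_of_nonneg (hg.nonneg v)]
    have := norm_nonneg (fderiv ℝ g v)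
    have := norm_nonneg (fderiv ℝ (fderiv ℝ g) v)
    linarith
  have hG3 : ∀ (i j : Fin d) (v : Vec d), (1 + ‖v‖) ^ (d + 3) * |pd i (pd j g) v| ≤ c3 := by
    intro i j v
    refine le_trans ?_ ((hg.le (d + 3) v).trans (le_max_left _ _))
    refine mul_le_mul_of_nonneg_left ?_ (pow_nonneg (w_pos v).le _)
    have := lh_pdpd_le hgn i j v
    have := norm_nonneg (fderiv ℝ g v)
    have := hg.nonneg v
    linarith
  have hG6 : ∀ (i j : Fin d) (v : Vec d), (1 + ‖v‖) ^ (2 * (d + 3)) * |pd i (pd j g) v| ≤ c6 := by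
    intro i j v
    refine le_trans ?_ ((hg.le (2 * (d + 3)) v).trans (le_max_left _ _))
    refine mul_le_mul_of_nonneg_left ?_ (pow_nonneg (w_pos v).le _)
    have := lh_pdpd_le hgn i j v
    have := norm_nonneg (fderiv ℝ g v)
    have := hg.nonneg v
    linarith
  have hm3 : ∀ v : Vec d, (1 + ‖v‖) ^ (d + 3) * |gau v| ≤ a3 := ha3
  have hm6 : ∀ v : Vec d, (1 + ‖v‖) ^ (2 * (d + 3)) * |gau v| ≤ a6 := ha6
  have hM3 : ∀ (i j : Fin d) (v : Vec d), (1 + ‖v‖) ^ (d + 3) * |pd i (pd j gau) v| ≤ b3 :=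
    fun i j v => (mul_le_mul_of_nonneg_left (lh_pdpd_le hm i j v)
      (pow_nonneg (w_pos v).le _)).trans (hb3 v)
  have hM6 : ∀ (i j : Fin d) (v : Vec d), (1 + ‖v‖) ^ (2 * (d + 3)) * |pd i (pd j gau) v| ≤ b6 :=
    fun i j v => (mul_le_mul_of_nonneg_left (lh_pdpd_le hm i j v)
      (pow_nonneg (w_pos v).le _)).trans (hb6 v)
  have hδ0 : 0 < δ := hδ.1
  have hδ1 : δ ≤ 1 := hδ.2
  -- one term
  have hterm : ∀ i j, (1 + ‖v‖) ^ (d + 3) *
      |(conv (fun z => landauA γ z i j) (fun v => g v + δ * gau v) v *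
          pd i (pd j fun v => g v + δ * gau v) v -
        (g v + δ * gau v) * conv (fun z => landauA γ z i j)
          (pd i (pd j fun v => g v + δ * gau v)) v) -
        (conv (fun z => landauA γ z i j) g v * pd i (pd j g) v -
          g v * conv (fun z => landauA γ z i j) (pd i (pd j g)) v)| ≤ δ * S := by
    intro i j
    have k := kern_landauA (d := d) h1 h2 i j
    have e1 : conv (fun z => landauA γ z i j) (fun v => g v + δ * gau v) v =
        conv (fun z => landauA γ z i j) g v + δ * conv (fun z => landauA γ z i j) gau v :=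
      lh_conv_add k δ hgn.cont hm.cont hgn.rd hm.rd v
    have e2 : conv (fun z => landauA γ z i j) (pd i (pd j fun v => g v + δ * gau v)) v =
        conv (fun z => landauA γ z i j) (pd i (pd j g)) v +
          δ * conv (fun z => landauA γ z i j) (pd i (pd j gau)) v := by
      have e3 : pd i (pd j fun v => g v + δ * gau v) =
          fun v => pd i (pd j g) v + δ * pd i (pd j gau) v :=
        funext fun v => lh_pdpd_add hgn δ i j v
      rw [e3]
      exact lh_conv_add k δ (lh_pdpd_cont hgn i j) (lh_pdpd_cont hm i j) (lh_pdpd_RD hgn i j)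
        (lh_pdpd_RD hm i j) v
    rw [e1, e2, lh_pdpd_add hgn δ i j v]
    set cg := conv (fun z => landauA γ z i j) g v with hcg
    set cm := conv (fun z => landauA γ z i j) gau v with hcm
    set cG := conv (fun z => landauA γ z i j) (pd i (pd j g)) v with hcG
    set cM := conv (fun z => landauA γ z i j) (pd i (pd j gau)) v with hcM
    set G := pd i (pd j g) v with hGdef
    set M := pd i (pd j gau) v with hMdef
    have t1 : (1 + ‖v‖) ^ (d + 3) * |cg * M| ≤ A * c3 * I * b6 :=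
      lh_prod_le k hc3n hg3 (hM6 i j) v
    have t2 : (1 + ‖v‖) ^ (d + 3) * |cm * G| ≤ A * a3 * I * c6 :=
      lh_prod_le k ha3n hm3 (hG6 i j) v
    have t3 : (1 + ‖v‖) ^ (d + 3) * |cm * M| ≤ A * a3 * I * b6 :=
      lh_prod_le k ha3n hm3 (hM6 i j) v
    have t4 : (1 + ‖v‖) ^ (d + 3) * |cM * g v| ≤ A * b3 * I * c6 :=
      lh_prod_le k hb3n (hM3 i j) hg6 v
    have t5 : (1 + ‖v‖) ^ (d + 3) * |cG * gau v| ≤ A * c3 * I * a6 :=
      lh_prod_le k hc3n (hG3 i j) hm6 v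
    have t6 : (1 + ‖v‖) ^ (d + 3) * |cM * gau v| ≤ A * b3 * I * a6 :=
      lh_prod_le k hb3n (hM3 i j) hm6 v
    have e4 : ((cg + δ * cm) * (G + δ * M) - (g v + δ * gau v) * (cG + δ * cM)) -
        (cg * G - g v * cG) = δ * (cg * M) + δ * (cm * G) + δ * (δ * (cm * M)) +
          -(δ * (cM * g v)) + -(δ * (cG * gau v)) + -(δ * (δ * (cM * gau v))) := by ring
    rw [e4]
    have hw : 0 ≤ (1 + ‖v‖) ^ (d + 3) := pow_nonneg (w_pos v).le _
    have habs : |δ * (cg * M) + δ * (cm * G) + δ * (δ * (cm * M)) +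
          -(δ * (cM * g v)) + -(δ * (cG * gau v)) + -(δ * (δ * (cM * gau v)))| ≤
        δ * (|cg * M| + |cm * G| + |cm * M| + |cM * g v| + |cG * gau v| + |cM * gau v|) := by
      have q1 : ∀ x : ℝ, |δ * x| = δ * |x| := fun x => by rw [abs_mul, abs_of_pos hδ0]
      have q2 : ∀ x : ℝ, |δ * (δ * x)| ≤ δ * |x| := fun x => by
        rw [q1, q1]
        have := mul_le_mul_of_nonneg_right hδ1 (abs_nonneg x)
        rw [one_mul] at this
        exact mul_le_mul_of_nonneg_left this hδ0.le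
      have s1 := abs_add_le (δ * (cg * M) + δ * (cm * G) + δ * (δ * (cm * M)) +
          -(δ * (cM * g v)) + -(δ * (cG * gau v))) (-(δ * (δ * (cM * gau v))))
      have s2 := abs_add_le (δ * (cg * M) + δ * (cm * G) + δ * (δ * (cm * M)) +
          -(δ * (cM * g v))) (-(δ * (cG * gau v)))
      have s3 := abs_add_le (δ * (cg * M) + δ * (cm * G) + δ * (δ * (cm * M)))
          (-(δ * (cM * g v)))
      have s4 := abs_add_le (δ * (cg * M) + δ * (cm * G)) (δ * (δ * (cm * M)))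
      have s5 := abs_add_le (δ * (cg * M)) (δ * (cm * G))
      rw [abs_neg] at s1 s2 s3
      rw [q1] at s2 s3
      rw [q1, q1] at s5
      have u1 := q2 (cM * gau v)
      have u2 := q2 (cm * M)
      linarith
    calc (1 + ‖v‖) ^ (d + 3) * |δ * (cg * M) + δ * (cm * G) + δ * (δ * (cm * M)) +
          -(δ * (cM * g v)) + -(δ * (cG * gau v)) + -(δ * (δ * (cM * gau v)))|
        ≤ (1 + ‖v‖) ^ (d + 3) * (δ * (|cg * M| + |cm * G| + |cm * M| + |cM * g v| +
            |cG * gau v| + |cM * gau v|)) := mul_le_mul_of_nonneg_left habs hw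
      _ = δ * ((1 + ‖v‖) ^ (d + 3) * |cg * M| + (1 + ‖v‖) ^ (d + 3) * |cm * G| +
            (1 + ‖v‖) ^ (d + 3) * |cm * M| + (1 + ‖v‖) ^ (d + 3) * |cM * g v| +
            (1 + ‖v‖) ^ (d + 3) * |cG * gau v| + (1 + ‖v‖) ^ (d + 3) * |cM * gau v|) := by ring
      _ ≤ δ * S := by
          refine mul_le_mul_of_nonneg_left ?_ hδ0.le
          rw [hS]
          linarith
  rw [Pool.Agent.H82.LK.landauQ_eq h1 h2 (lh_nice_add hgn δ), Pool.Agent.H82.LK.landauQ_eq h1 h2 hgn,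
    ← Finset.sum_sub_distrib]
  simp_rw [← Finset.sum_sub_distrib]
  have hw : 0 ≤ (1 + ‖v‖) ^ (d + 3) := pow_nonneg (w_pos v).le _
  calc (1 + ‖v‖) ^ (d + 3) * |∑ i, ∑ j,
        ((conv (fun z => landauA γ z i j) (fun v => g v + δ * gau v) v *
          pd i (pd j fun v => g v + δ * gau v) v -
        (g v + δ * gau v) * conv (fun z => landauA γ z i j)
          (pd i (pd j fun v => g v + δ * gau v)) v) -
        (conv (fun z => landauA γ z i j) g v * pd i (pd j g) v -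
          g v * conv (fun z => landauA γ z i j) (pd i (pd j g)) v))|
      ≤ (1 + ‖v‖) ^ (d + 3) * ∑ i, ∑ j,
        |(conv (fun z => landauA γ z i j) (fun v => g v + δ * gau v) v *
          pd i (pd j fun v => g v + δ * gau v) v -
        (g v + δ * gau v) * conv (fun z => landauA γ z i j)
          (pd i (pd j fun v => g v + δ * gau v)) v) -
        (conv (fun z => landauA γ z i j) g v * pd i (pd j g) v -
          g v * conv (fun z => landauA γ z i j) (pd i (pd j g)) v)| := by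
        refine mul_le_mul_of_nonneg_left ?_ hw
        refine (Finset.abs_sum_le_sum_abs _ _).trans ?_
        exact Finset.sum_le_sum fun i _ => Finset.abs_sum_le_sum_abs _ _
    _ = ∑ i, ∑ j, (1 + ‖v‖) ^ (d + 3) *
        |(conv (fun z => landauA γ z i j) (fun v => g v + δ * gau v) v *
          pd i (pd j fun v => g v + δ * gau v) v -
        (g v + δ * gau v) * conv (fun z => landauA γ z i j)
          (pd i (pd j fun v => g v + δ * gau v)) v) -
        (conv (fun z => landauA γ z i j) g v * pd i (pd j g) v -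
          g v * conv (fun z => landauA γ z i j) (pd i (pd j g)) v)| := by
        rw [Finset.mul_sum]
        exact Finset.sum_congr rfl fun i _ => Finset.mul_sum _ _ _
    _ ≤ ∑ _i : Fin d, ∑ _j : Fin d, δ * S :=
        Finset.sum_le_sum fun i _ => Finset.sum_le_sum fun j _ => hterm i j
    _ = δ * ((d : ℝ) * ((d : ℝ) * S)) := by
        simp only [Finset.sum_const, Finset.card_univ, Fintype.card_fin, nsmul_eq_mul]
        ring

private theorem lh_unice {C : ℕ → ℝ} : ∃ C' : ℕ → ℝ, ∀ g : Vec d → ℝ, UNice C g →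
    ∀ δ ∈ Ioc (0 : ℝ) 1, UNice C' fun v => g v + δ * gau v := by
  have hm := nice_gau (d := d)
  have h0 : ∀ N, ∃ a, ∀ v : Vec d, (1 + ‖v‖) ^ N * ‖gau v‖ ≤ a := hm.rd
  have h1 : ∀ N, ∃ a, ∀ v : Vec d, (1 + ‖v‖) ^ N * ‖fderiv ℝ gau v‖ ≤ a := hm.rd1
  have h2 : ∀ N, ∃ a, ∀ v : Vec d, (1 + ‖v‖) ^ N * ‖fderiv ℝ (fderiv ℝ gau) v‖ ≤ a := hm.rd2
  choose a0 ha0 using h0
  choose a1 ha1 using h1
  choose a2 ha2 using h2
  refine ⟨fun N => C N + (a0 N + a1 N + a2 N), fun g hg δ hδ => ?_⟩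
  have hδ0 : 0 < δ := hδ.1
  have hδ1 : δ ≤ 1 := hδ.2
  refine ⟨lh_nice_add hg.nice δ, fun v => add_nonneg (hg.nonneg v)
    (mul_nonneg hδ0.le (lh_gau_pos v).le), fun N v => ?_⟩
  have hw : 0 ≤ (1 + ‖v‖) ^ N := pow_nonneg (w_pos v).le _
  rw [lh_fd1 hg.nice, lh_fd2 hg.nice]
  have b0 : δ * gau v ≤ ‖gau v‖ := by
    rw [Real.norm_eq_abs, abs_of_pos (lh_gau_pos v)]
    have := mul_le_mul_of_nonneg_right hδ1 (lh_gau_pos v).le
    rwa [one_mul] at this
  have b1 : ‖fderiv ℝ g v + δ • fderiv ℝ gau v‖ ≤ ‖fderiv ℝ g v‖ + ‖fderiv ℝ gau v‖ := by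
    refine (norm_add_le _ _).trans (add_le_add le_rfl ?_)
    rw [norm_smul, Real.norm_eq_abs, abs_of_pos hδ0]
    have := mul_le_mul_of_nonneg_right hδ1 (norm_nonneg (fderiv ℝ (gau (d := d)) v))
    rwa [one_mul] at this
  have b2 : ‖fderiv ℝ (fderiv ℝ g) v + δ • fderiv ℝ (fderiv ℝ gau) v‖ ≤
      ‖fderiv ℝ (fderiv ℝ g) v‖ + ‖fderiv ℝ (fderiv ℝ gau) v‖ := by
    refine (norm_add_le (fderiv ℝ (fderiv ℝ g) v)
      (δ • fderiv ℝ (fderiv ℝ gau) v)).trans (add_le_add le_rfl ?_)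
    have hs : ‖δ • fderiv ℝ (fderiv ℝ (gau (d := d))) v‖ ≤
        ‖δ‖ * ‖fderiv ℝ (fderiv ℝ (gau (d := d))) v‖ :=
      ContinuousLinearMap.opNorm_smul_le δ (fderiv ℝ (fderiv ℝ (gau (d := d))) v)
    refine hs.trans ?_
    rw [Real.norm_eq_abs, abs_of_pos hδ0]
    have hn : 0 ≤ ‖fderiv ℝ (fderiv ℝ (gau (d := d))) v‖ :=
      (fderiv ℝ (fderiv ℝ (gau (d := d))) v).opNorm_nonneg
    have := mul_le_mul_of_nonneg_right hδ1 hn
    rwa [one_mul] at this
  have hgl := hg.le N v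
  have := ha0 N v
  have := ha1 N v
  have := ha2 N v
  calc (1 + ‖v‖) ^ N * (g v + δ * gau v + ‖fderiv ℝ g v + δ • fderiv ℝ gau v‖ +
        ‖fderiv ℝ (fderiv ℝ g) v + δ • fderiv ℝ (fderiv ℝ gau) v‖)
      ≤ (1 + ‖v‖) ^ N * (g v + ‖gau v‖ + (‖fderiv ℝ g v‖ + ‖fderiv ℝ gau v‖) +
        (‖fderiv ℝ (fderiv ℝ g) v‖ + ‖fderiv ℝ (fderiv ℝ gau) v‖)) := by
        refine mul_le_mul_of_nonneg_left ?_ hw
        linarith
    _ = (1 + ‖v‖) ^ N * (g v + ‖fderiv ℝ g v‖ + ‖fderiv ℝ (fderiv ℝ g) v‖) +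
        ((1 + ‖v‖) ^ N * ‖gau v‖ + (1 + ‖v‖) ^ N * ‖fderiv ℝ gau v‖ +
          (1 + ‖v‖) ^ N * ‖fderiv ℝ (fderiv ℝ gau) v‖) := by ring
    _ ≤ C N + (a0 N + a1 N + a2 N) := by linarith

private theorem lh_Q_meas (g : Vec d → ℝ) : Measurable (landauQ γ g) := by
  unfold landauQ
  exact Finset.measurable_fun_sum _ fun i _ => measurable_fderiv_apply_const ℝ _ _

private theorem lh_Q_RD (h1 : -2 < γ) (h2 : γ ≤ 0) {g : Vec d → ℝ} (hg : Nice g) :
    RD (landauQ γ g) := by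
  unfold landauQ
  refine RD.sum _ fun i _ => ?_
  exact (landauFlux_RD1 h1 h2 hg i).mono 1 fun v => by rw [one_mul]; exact pd_le i _ v

private theorem lh_small {D L c ε : ℝ} (hε : 0 < ε) :
    ∃ δ₀ > 0, δ₀ ≤ 1 ∧ ∀ δ ∈ Ioc (0 : ℝ) δ₀, δ * D * (-Real.log δ + c) * L ≤ ε := by
  have h1 : Tendsto (fun δ : ℝ => δ * D * (-Real.log δ + c) * L) (𝓝[>] 0) (𝓝 0) := by
    have h2 : Tendsto (fun δ : ℝ => Real.log δ * δ) (𝓝[>] 0) (𝓝 0) := by
      have := tendsto_log_mul_rpow_nhdsGT_zero (r := 1) one_pos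
      simpa using this
    have h3 : Tendsto (fun δ : ℝ => δ) (𝓝[>] 0) (𝓝 0) := tendsto_nhdsWithin_of_tendsto_nhds tendsto_id
    have h4 : Tendsto (fun δ : ℝ => (-(Real.log δ * δ) + c * δ) * (D * L)) (𝓝[>] 0)
        (𝓝 ((-0 + c * 0) * (D * L))) := ((h2.neg.add (h3.const_mul c)).mul_const _)
    have e : (-0 + c * 0) * (D * L) = 0 := by ring
    rw [e] at h4
    refine h4.congr fun δ => ?_
    ring
  have h5 : ∀ᶠ δ : ℝ in 𝓝[>] 0, δ * D * (-Real.log δ + c) * L < ε := (tendsto_order.1 h1).2 ε hε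
  rw [eventually_nhdsWithin_iff, Metric.eventually_nhds_iff] at h5
  obtain ⟨r, hr, h6⟩ := h5
  refine ⟨min (r / 2) 1, lt_min (by linarith) one_pos, min_le_right _ _, fun δ hδ => ?_⟩
  refine (h6 (y := δ) ?_ hδ.1).le
  rw [Real.dist_eq, sub_zero, abs_of_pos hδ.1]
  have := hδ.2.trans (min_le_left _ _)
  linarith

theorem hth_landau (h1 : -2 < γ) (h2 : γ ≤ 0) : HTh (d := d) (landauQ γ) := by
  intro C ε hε
  obtain ⟨D, hD0, hD⟩ := landau_rem (d := d) h1 h2 C
  obtain ⟨C1, hC1⟩ := lh_unice (d := d) (C := C)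
  obtain ⟨C2, hC2⟩ := grad_sq_le (d := d) C1
  have hI0 : 0 ≤ ∫ z, wt d z := integral_nonneg fun z => wt_nonneg z
  have hlog0 : 0 ≤ Real.log (max (C 0) 0 + 1) := Real.log_nonneg (by
    have := le_max_right (C 0) 0; linarith)
  obtain ⟨δ₀, hδ₀, hδ₀1, hsm⟩ := lh_small (D := D) (L := ∫ z, wt d z)
    (c := (d : ℝ) + Real.log (max (C 0) 0 + 1)) hε
  refine ⟨δ₀, hδ₀, fun δ hδ g hg => ?_⟩
  have hδI : δ ∈ Ioc (0 : ℝ) 1 := ⟨hδ.1, hδ.2.trans hδ₀1⟩
  have hδ0 : 0 < δ := hδ.1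
  have hGU := hC1 g hg δ hδI
  have hG := hGU.nice
  have hGpos : ∀ v, 0 < g v + δ * gau v := fun v =>
    add_pos_of_nonneg_of_pos (hg.nonneg v) (mul_pos hδ0 (lh_gau_pos v))
  -- bounds of the logarithm
  have hlogle : ∀ v, |Real.log (g v + δ * gau v)| ≤
      -Real.log δ + nsq v + Real.log (max (C 0) 0 + 1) := by
    intro v
    have hlδ : Real.log δ ≤ 0 := Real.log_nonpos hδ0.le hδI.2
    have hn := sq_nonneg' v
    rw [abs_le]
    constructor
    · have h3 : Real.log (δ * gau v) ≤ Real.log (g v + δ * gau v) :=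
        Real.log_le_log (mul_pos hδ0 (lh_gau_pos v)) (by linarith [hg.nonneg v])
      have h4 : Real.log (δ * gau v) = Real.log δ - nsq v := by
        rw [Real.log_mul hδ0.ne' (lh_gau_pos v).ne']
        unfold gau
        rw [Real.log_exp]
        ring
      rw [h4] at h3
      linarith
    · have h3 : g v + δ * gau v ≤ max (C 0) 0 + 1 := by
        have h4 : g v ≤ C 0 := by
          have := hg.le 0 v
          rw [pow_zero, one_mul] at this
          have := norm_nonneg (fderiv ℝ g v)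
          have := norm_nonneg (fderiv ℝ (fderiv ℝ g) v)
          linarith
        have h5 : δ * gau v ≤ 1 := by
          have := mul_le_mul hδI.2 (lh_gau_le_one v) (lh_gau_pos v).le zero_le_one
          linarith
        have := le_max_left (C 0) 0
        linarith
      have h6 := Real.log_le_log (hGpos v) h3
      linarith
  have hlPG : PG fun v => Real.log (g v + δ * gau v) := by
    have hp : PG fun v : Vec d => -Real.log δ + nsq v + Real.log (max (C 0) 0 + 1) :=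
      ((PG.const (-Real.log δ)).add PG.nsq).add (PG.const _)
    obtain ⟨N, K, hK⟩ := hp
    refine ⟨N, K, fun v => ?_⟩
    rw [Real.norm_eq_abs]
    refine (hlogle v).trans ((le_abs_self _).trans ?_)
    have := hK v
    rwa [Real.norm_eq_abs] at this
  have hlcont : Continuous fun v => Real.log (g v + δ * gau v) :=
    hG.cont.log fun v => (hGpos v).ne'
  have hr : ∀ i, RD fun v => (pd i (fun v => g v + δ * gau v) v) ^ 2 / (g v + δ * gau v) := by
    intro i N
    refine ⟨C2 N, fun v => ?_⟩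
    have h3 := hC2 _ hGU i N v
    have hp := hGpos v
    rw [Real.norm_eq_abs, abs_of_nonneg (by positivity), ← mul_div_assoc, div_le_iff₀ hp]
    exact h3
  have hH := landau_H h1 h2 hG hGpos hlPG hr
  -- the remainder
  have iQG : Integrable fun v => landauQ γ (fun v => g v + δ * gau v) v *
      Real.log (g v + δ * gau v) :=
    ((lh_Q_RD h1 h2 hG).mul_PG hlPG).integrable
      ((lh_Q_meas _).mul hlcont.measurable).aestronglyMeasurable
  have iR : Integrable fun v => (landauQ γ (fun v => g v + δ * gau v) v - landauQ γ g v) *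
      Real.log (g v + δ * gau v) :=
    (((lh_Q_RD h1 h2 hG).sub (lh_Q_RD h1 h2 hg.nice)).mul_PG hlPG).integrable
      (((lh_Q_meas _).sub (lh_Q_meas _)).mul hlcont.measurable).aestronglyMeasurable
  have e1 : ∫ v, landauQ γ g v * Real.log (g v + δ * gau v) =
      (∫ v, landauQ γ (fun v => g v + δ * gau v) v * Real.log (g v + δ * gau v)) -
        ∫ v, (landauQ γ (fun v => g v + δ * gau v) v - landauQ γ g v) *
          Real.log (g v + δ * gau v) := by
    rw [← integral_sub iQG iR]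
    refine integral_congr_ae (Eventually.of_forall fun v => ?_)
    simp only
    ring
  have e2 : |∫ v, (landauQ γ (fun v => g v + δ * gau v) v - landauQ γ g v) *
      Real.log (g v + δ * gau v)| ≤
        ∫ v, δ * D * (-Real.log δ + ((d : ℝ) + Real.log (max (C 0) 0 + 1))) * wt d v := by
    rw [← Real.norm_eq_abs]
    refine norm_integral_le_of_norm_le (integrable_wt.const_mul _)
      (Eventually.of_forall fun v => ?_)
    rw [norm_mul, Real.norm_eq_abs, Real.norm_eq_abs]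
    have hw := w_pos v
    have h3 := hD g hg δ hδI v
    have h4 := hlogle v
    have hlδ : 0 ≤ -Real.log δ := neg_nonneg.2 (Real.log_nonpos hδ0.le hδI.2)
    have h5 : -Real.log δ + nsq v + Real.log (max (C 0) 0 + 1) ≤
        (-Real.log δ + ((d : ℝ) + Real.log (max (C 0) 0 + 1))) * (1 + ‖v‖) ^ 2 := by
      have h6 := sq_le v
      have h7 : (1 : ℝ) ≤ (1 + ‖v‖) ^ 2 := one_le_pow₀ (one_le_w v)
      have h8 : ‖v‖ ^ 2 ≤ (1 + ‖v‖) ^ 2 :=
        pow_le_pow_left₀ (norm_nonneg v) (by linarith [norm_nonneg v]) 2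
      have hd : (0 : ℝ) ≤ d := Nat.cast_nonneg d
      have h9 : nsq v ≤ d * (1 + ‖v‖) ^ 2 := h6.trans (mul_le_mul_of_nonneg_left h8 hd)
      have h10 := mul_le_mul_of_nonneg_left h7 hlδ
      have h11 := mul_le_mul_of_nonneg_left h7 hlog0
      nlinarith
    have hwt : wt d v * (1 + ‖v‖) ^ (d + 3) = (1 + ‖v‖) ^ 2 := by
      unfold wt
      have hne : (1 + ‖v‖) ^ (d + 1) ≠ 0 := (pow_pos hw _).ne'
      have e7 : (1 + ‖v‖) ^ (d + 3) = (1 + ‖v‖) ^ (d + 1) * (1 + ‖v‖) ^ 2 := by ring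
      rw [e7, ← mul_assoc, inv_mul_cancel₀ hne, one_mul]
    have hwp : 0 < (1 + ‖v‖) ^ (d + 3) := pow_pos hw _
    have h12 : |landauQ γ (fun v => g v + δ * gau v) v - landauQ γ g v| ≤
        δ * D / (1 + ‖v‖) ^ (d + 3) := by
      rw [le_div_iff₀ hwp, mul_comm]
      exact h3
    calc |landauQ γ (fun v => g v + δ * gau v) v - landauQ γ g v| *
          |Real.log (g v + δ * gau v)|
        ≤ δ * D / (1 + ‖v‖) ^ (d + 3) *
          ((-Real.log δ + ((d : ℝ) + Real.log (max (C 0) 0 + 1))) * (1 + ‖v‖) ^ 2) :=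
          mul_le_mul h12 (h4.trans h5) (abs_nonneg _) (by positivity)
      _ = δ * D * (-Real.log δ + ((d : ℝ) + Real.log (max (C 0) 0 + 1))) *
          ((1 + ‖v‖) ^ 2 / (1 + ‖v‖) ^ (d + 3)) := by ring
      _ = δ * D * (-Real.log δ + ((d : ℝ) + Real.log (max (C 0) 0 + 1))) * wt d v := by
          rw [← hwt, mul_div_assoc, div_self hwp.ne', mul_one]
  have e3 : ∫ v, δ * D * (-Real.log δ + ((d : ℝ) + Real.log (max (C 0) 0 + 1))) * wt d v =
      δ * D * (-Real.log δ + ((d : ℝ) + Real.log (max (C 0) 0 + 1))) * ∫ v, wt d v :=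
    integral_const_mul _ _
  rw [e3] at e2
  have e4 := hsm δ hδ
  have e5 := (abs_le.1 e2).1
  rw [e1]
  linarith

end Pool.Agent.H15.AV
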