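import Pool.Agent.H15.AV.LDv
import Pool.Agent.H82.LK.Split

/-!
# The fiber inequality for the Landau operator

MODULE LIn. Notation `w = kf δ ∘ g`, `u = uf δ ∘ g = lam δ - w`, `D_i = kd δ (g v) * pd i g v = ∂_i w =
-∂_i u`, `A_ij = ab γ g i j`.
(1) `landauQ_eq`: `landauQ g = ∑ (A_ij ∂_ij g - g (a_ij * ∂_ij g))`, and `∑ a_ij * ∂_ij g ≤ 0`
(`sum_ab_dd_nonpos`), `kd ≥ 0`, `g ≥ 0`. (2) `kd(g) ∂_ij g = ∂_ij w - kd'(g) ∂_i g ∂_j g` and
`kdd_le`, `ab_psd`: `kd(g) landauQ g ≥ ∑ A_ij ∂_ij w + ∑ A_ij D_i D_j` pointwise (`pointwise_ineq`).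
(3) `∫ Ψ ∑ A_ij ∂_ij w = lin γ δ g Ψ - ∫ Ψ u ∑ (a_ij * ∂_ij g)` by integrations by parts
(`Ψ` has compact support): `∫ Ψ A_ij ∂_ij w = -∫ Ψ_i A_ij w_j - ∫ Ψ (∂_i A_ij) w_j`,
`-∫ Ψ (∂_i A_ij) w_j = ∫ Ψ (∂_i A_ij) u_j = -∫ Ψ_j (∂_i A_ij) u - ∫ Ψ (∂_ij A_ij) u`,
`-∫ Ψ_j (∂_i A_ij) u = ∫ A_ij (Ψ_ij u + Ψ_j u_i)`.
-/

set_option autoImplicit false

open MeasureTheory Set Filter Topology Pool.Agent.H25.Kin

namespace Pool.Agent.H15.AV

variable {d : ℕ} {γ : ℝ}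

/-- the dissipation -/
noncomputable def diss (γ δ : ℝ) (g Ψ : Vec d → ℝ) : ℝ :=
  ∫ v, Ψ v * ∑ i, ∑ j, ab γ g i j v * ((kd δ (g v) * pd i g v) * (kd δ (g v) * pd j g v))

/-- the terms which are linear in the test function -/
noncomputable def lin (γ δ : ℝ) (g Ψ : Vec d → ℝ) : ℝ :=
  ∫ v, (uf δ (g v) * ∑ i, ∑ j, ab γ g i j v * pd i (pd j Ψ) v -
    2 * ∑ i, ∑ j, ab γ g i j v * (pd i Ψ v * (kd δ (g v) * pd j g v)))

private lemma cs_int {F : Vec d → ℝ} (hc : Continuous F) {R : ℝ} (hs : ∀ v, R ≤ ‖v‖ → F v = 0) :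
    Integrable F := by
  refine hc.integrable_of_hasCompactSupport ?_
  refine HasCompactSupport.intro (isCompact_closedBall (0 : Vec d) R) fun v hv => hs v ?_
  rw [Metric.mem_closedBall, dist_zero_right, not_le] at hv
  exact hv.le

private lemma pd_supp {F : Vec d → ℝ} {R : ℝ} (hs : ∀ v, R ≤ ‖v‖ → F v = 0) (k : Fin d)
    {v : Vec d} (hv : R < ‖v‖) : pd k F v = 0 := by
  have h : F =ᶠ[𝓝 v] fun _ => 0 := by
    filter_upwards [(isOpen_lt continuous_const continuous_norm).mem_nhds hv] with u hu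
    exact hs u (le_of_lt hu)
  unfold pd
  rw [h.fderiv_eq]
  simp

/-- integration by parts with a factor of compact support -/
private lemma ibp_cs {F G : Vec d → ℝ} {R : ℝ} (k : Fin d) (dF : Differentiable ℝ F)
    (dG : Differentiable ℝ G) (hs : ∀ v, R ≤ ‖v‖ → F v = 0) (cF : Continuous (pd k F))
    (cG : Continuous (pd k G)) : ∫ v, F v * pd k G v = -∫ v, pd k F v * G v := by
  have i1 : Integrable fun v => pd k F v * G v := cs_int (cF.mul dG.continuous) (R := R + 1)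
    fun v hv => by rw [pd_supp hs k (by linarith), zero_mul]
  have i2 : Integrable fun v => F v * pd k G v := cs_int (dF.continuous.mul cG) (R := R)
    fun v hv => by rw [hs v hv, zero_mul]
  have i3 : Integrable fun v => F v * G v := cs_int (dF.continuous.mul dG.continuous) (R := R)
    fun v hv => by rw [hs v hv, zero_mul]
  exact integral_mul_fderiv_eq_neg_fderiv_mul_of_integrable (μ := (volume : Measure (Vec d)))
    (f := F) (g := G) (v := Pi.single k 1) i1 i2 i3 (fun x _ => dF x) (fun x _ => dG x)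

/-- second derivative of `kf δ` -/
private noncomputable def kdd (δ a : ℝ) : ℝ := -((δ + a) ^ 2)⁻¹ + ((1 + a) ^ 2)⁻¹

private lemma w_hasFDerivAt {δ : ℝ} (hδ : 0 < δ) (hδ1 : δ ≤ 1) {g : Vec d → ℝ} (hg : Nice g)
    (h0 : ∀ v, 0 ≤ g v) (v : Vec d) :
    HasFDerivAt (fun v => kf δ (g v)) (kd δ (g v) • fderiv ℝ g v) v :=
  (hasDerivAt_kf hδ hδ1 (by linarith [h0 v])).comp_hasFDerivAt v (hg.diff v).hasFDerivAt

private lemma pd_w {δ : ℝ} (hδ : 0 < δ) (hδ1 : δ ≤ 1) {g : Vec d → ℝ} (hg : Nice g)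
    (h0 : ∀ v, 0 ≤ g v) (j : Fin d) :
    pd j (fun v => kf δ (g v)) = fun v => kd δ (g v) * pd j g v := by
  funext v
  unfold pd
  rw [(w_hasFDerivAt hδ hδ1 hg h0 v).fderiv]
  rfl

private lemma D_hasFDerivAt {δ : ℝ} (hδ : 0 < δ) (hδ1 : δ ≤ 1) {g : Vec d → ℝ} (hg : Nice g)
    (h0 : ∀ v, 0 ≤ g v) (j : Fin d) (v : Vec d) :
    HasFDerivAt (fun v => kd δ (g v) * pd j g v) (kd δ (g v) • fderiv ℝ (pd j g) v +
      pd j g v • (kdd δ (g v) • fderiv ℝ g v)) v := by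
  have h1 : HasFDerivAt (fun v => kd δ (g v)) (kdd δ (g v) • fderiv ℝ g v) v :=
    (hasDerivAt_kd hδ hδ1 (by linarith [h0 v])).comp_hasFDerivAt v (hg.diff v).hasFDerivAt
  exact h1.mul (hg.pd_diff j v).hasFDerivAt

private lemma pd_D {δ : ℝ} (hδ : 0 < δ) (hδ1 : δ ≤ 1) {g : Vec d → ℝ} (hg : Nice g)
    (h0 : ∀ v, 0 ≤ g v) (i j : Fin d) :
    pd i (fun v => kd δ (g v) * pd j g v) = fun v => kd δ (g v) * pd i (pd j g) v +
      pd j g v * (kdd δ (g v) * pd i g v) := by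
  funext v
  have h := (D_hasFDerivAt hδ hδ1 hg h0 j v).fderiv
  have e : pd i (fun v => kd δ (g v) * pd j g v) v =
      fderiv ℝ (fun v => kd δ (g v) * pd j g v) v (Pi.single i 1) := rfl
  rw [e, h]
  rfl

private lemma kd_cont {δ : ℝ} (hδ : 0 < δ) {g : Vec d → ℝ} (hg : Nice g)
    (h0 : ∀ v, 0 ≤ g v) : Continuous fun v => kd δ (g v) := by
  unfold kd
  refine Continuous.sub (Continuous.inv₀ (continuous_const.add hg.cont) fun v => ?_)
    (Continuous.inv₀ (continuous_const.add hg.cont) fun v => ?_)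
  · have := h0 v; linarith
  · have := h0 v; linarith

private lemma kdd_cont {δ : ℝ} (hδ : 0 < δ) {g : Vec d → ℝ} (hg : Nice g)
    (h0 : ∀ v, 0 ≤ g v) : Continuous fun v => kdd δ (g v) := by
  unfold kdd
  refine Continuous.add (Continuous.neg (Continuous.inv₀ ((continuous_const.add hg.cont).pow 2)
    fun v => ?_)) (Continuous.inv₀ ((continuous_const.add hg.cont).pow 2) fun v => ?_)
  · have := h0 v
    exact pow_ne_zero 2 (by linarith)
  · have := h0 v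
    exact pow_ne_zero 2 (by linarith)

private lemma pdd_cont {g : Vec d → ℝ} (hg : Nice g) (i j : Fin d) :
    Continuous (pd i (pd j g)) := by
  have h := hg.pd_cont1 j
  exact h.clm_apply continuous_const

private lemma pdd_RD {g : Vec d → ℝ} (hg : Nice g) (i j : Fin d) : RD (pd i (pd j g)) :=
  (hg.pd_rd1 j).mono 1 fun v => by rw [one_mul]; exact pd_le i (pd j g) v

private lemma D_cont {δ : ℝ} (hδ : 0 < δ) {g : Vec d → ℝ} (hg : Nice g)
    (h0 : ∀ v, 0 ≤ g v) (j : Fin d) : Continuous fun v => kd δ (g v) * pd j g v :=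
  (kd_cont hδ hg h0).mul (hg.pd_cont j)

private lemma pdD_cont {δ : ℝ} (hδ : 0 < δ) (hδ1 : δ ≤ 1) {g : Vec d → ℝ} (hg : Nice g)
    (h0 : ∀ v, 0 ≤ g v) (i j : Fin d) : Continuous (pd i (fun v => kd δ (g v) * pd j g v)) := by
  rw [pd_D hδ hδ1 hg h0]
  exact ((kd_cont hδ hg h0).mul (pdd_cont hg i j)).add
    ((hg.pd_cont j).mul ((kdd_cont hδ hg h0).mul (hg.pd_cont i)))

private lemma u_hasFDerivAt {δ : ℝ} (hδ : 0 < δ) (hδ1 : δ ≤ 1) {g : Vec d → ℝ} (hg : Nice g)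
    (h0 : ∀ v, 0 ≤ g v) (v : Vec d) :
    HasFDerivAt (fun v => uf δ (g v)) (-(kd δ (g v) • fderiv ℝ g v)) v := by
  have e : (fun v => uf δ (g v)) = fun v => lam δ - kf δ (g v) := by
    funext v
    have := kf_add_uf δ (g v)
    linarith
  rw [e]
  exact (w_hasFDerivAt hδ hδ1 hg h0 v).const_sub (lam δ)

private lemma pd_u {δ : ℝ} (hδ : 0 < δ) (hδ1 : δ ≤ 1) {g : Vec d → ℝ} (hg : Nice g)
    (h0 : ∀ v, 0 ≤ g v) (j : Fin d) :
    pd j (fun v => uf δ (g v)) = fun v => -(kd δ (g v) * pd j g v) := by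
  funext v
  unfold pd
  rw [(u_hasFDerivAt hδ hδ1 hg h0 v).fderiv]
  rfl

private lemma nice_pd_C1 {g : Vec d → ℝ} (hg : Nice g) (i : Fin d) : ContDiff ℝ 1 (pd i g) :=
  hg.smooth1.clm_apply contDiff_const

private lemma tst_pd_C1 {R K : ℝ} {Ψ : Vec d → ℝ} (hΨ : Tst R K Ψ) (i : Fin d) :
    ContDiff ℝ 1 (pd i Ψ) :=
  (hΨ.smooth.fderiv_right (m := 1) (by norm_num)).clm_apply contDiff_const

private lemma ab_diff (h1 : -2 < γ) (h2 : γ ≤ 0) {h : Vec d → ℝ} (hs : ContDiff ℝ 1 h) (hr : RD h)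
    (hr1 : RD (fderiv ℝ h)) (i j : Fin d) : Differentiable ℝ (ab γ h i j) := fun v =>
  (ab_hasFDerivAt h1 h2 hs hr hr1 i j v).differentiableAt

private lemma pd_mul {F G : Vec d → ℝ} (dF : Differentiable ℝ F) (dG : Differentiable ℝ G)
    (k : Fin d) : pd k (fun v => F v * G v) = fun v => pd k F v * G v + F v * pd k G v := by
  funext v
  have h := ((dF v).hasFDerivAt.mul (dG v).hasFDerivAt).fderiv
  have e : pd k (fun v => F v * G v) v = fderiv ℝ (F * G) v (Pi.single k 1) := rfl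
  rw [e, h]
  simp only [add_apply, smul_apply, smul_eq_mul]
  unfold pd
  ring

private lemma ab_swap (γ : ℝ) (h : Vec d → ℝ) (i j : Fin d) : ab γ h i j = ab γ h j i := by
  have e : (fun z : Vec d => landauA γ z i j) = fun z => landauA γ z j i := by
    funext z
    unfold landauA
    by_cases h : i = j
    · subst h; rfl
    · have h' : ¬ j = i := fun e => h e.symm
      simp only [h, h', if_false]
      ring
  funext v
  unfold ab
  rw [e]

theorem pointwise_ineq (hd : 2 ≤ d) (h1 : -2 < γ) (h2 : γ ≤ 0) {δ : ℝ} (hδ : 0 < δ) (hδ1 : δ ≤ 1)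
    {g : Vec d → ℝ} (hg : Nice g) (h0 : ∀ v, 0 ≤ g v) (v : Vec d) :
    ∑ i, ∑ j, ab γ g i j v * pd i (pd j fun v => kf δ (g v)) v +
      ∑ i, ∑ j, ab γ g i j v * ((kd δ (g v) * pd i g v) * (kd δ (g v) * pd j g v)) ≤
      kd δ (g v) * landauQ γ g v := by
  have hQ := Pool.Agent.H82.LK.landauQ_eq h1 h2 hg v
  have hz := sum_ab_dd_nonpos hd h1 h2 hg h0 v
  have hpsd := ab_psd h1 h2 hg h0 v (fun i => pd i g v)
  have hk0 := kd_nonneg hδ hδ1 (h0 v)
  have hkdd := kdd_le hδ hδ1 (h0 v)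
  have hk2 : -((δ + g v) ^ 2)⁻¹ + ((1 + g v) ^ 2)⁻¹ = kdd δ (g v) := rfl
  rw [hk2] at hkdd
  obtain ⟨k, hk⟩ : ∃ k, k = kd δ (g v) := ⟨_, rfl⟩
  obtain ⟨k', hk'⟩ : ∃ k', k' = kdd δ (g v) := ⟨_, rfl⟩
  obtain ⟨S, hS⟩ : ∃ S, S = ∑ i, ∑ j, ab γ g i j v * (pd i g v * pd j g v) := ⟨_, rfl⟩
  obtain ⟨P, hP⟩ : ∃ P, P = ∑ i, ∑ j, ab γ g i j v * pd i (pd j g) v := ⟨_, rfl⟩
  obtain ⟨Z, hZ⟩ : ∃ Z, Z = ∑ i, ∑ j, ab γ (pd i (pd j g)) i j v := ⟨_, rfl⟩
  have e1 : ∑ i, ∑ j, ab γ g i j v * pd i (pd j fun v => kf δ (g v)) v = k * P + k' * S := by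
    rw [hP, hS, Finset.mul_sum, Finset.mul_sum, ← Finset.sum_add_distrib]
    refine Finset.sum_congr rfl fun i _ => ?_
    rw [Finset.mul_sum, Finset.mul_sum, ← Finset.sum_add_distrib]
    refine Finset.sum_congr rfl fun j _ => ?_
    rw [pd_w hδ hδ1 hg h0 j, pd_D hδ hδ1 hg h0 i j, hk, hk']
    ring
  have e2 : ∑ i, ∑ j, ab γ g i j v * ((kd δ (g v) * pd i g v) * (kd δ (g v) * pd j g v)) =
      k ^ 2 * S := by
    rw [hS, Finset.mul_sum]
    refine Finset.sum_congr rfl fun i _ => ?_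
    rw [Finset.mul_sum]
    refine Finset.sum_congr rfl fun j _ => ?_
    rw [hk]
    ring
  have e3 : landauQ γ g v = P - g v * Z := by
    rw [hQ, hP, hZ, Finset.mul_sum, ← Finset.sum_sub_distrib]
    refine Finset.sum_congr rfl fun i _ => ?_
    rw [Finset.mul_sum, ← Finset.sum_sub_distrib]
    rfl
  rw [← hS] at hpsd
  rw [← hZ] at hz
  rw [← hk, ← hk'] at hkdd
  rw [← hk] at hk0
  rw [e1, e2, e3, ← hk]
  have t1 : 0 ≤ k * (g v * -Z) := mul_nonneg hk0 (mul_nonneg (h0 v) (by linarith))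
  have t2 : (k' + k ^ 2) * S ≤ 0 := mul_nonpos_of_nonpos_of_nonneg (by linarith) hpsd
  have t3 : k * (P - g v * Z) = k * P + k * (g v * -Z) := by ring
  have t4 : k * P + k' * S + k ^ 2 * S = k * P + (k' + k ^ 2) * S := by ring
  rw [t3, t4]
  linarith

private lemma parts_one (h1 : -2 < γ) (h2 : γ ≤ 0) {δ : ℝ} (hδ : 0 < δ) (hδ1 : δ ≤ 1)
    {g : Vec d → ℝ} (hg : Nice g) (h0 : ∀ v, 0 ≤ g v) {R K : ℝ} {Ψ : Vec d → ℝ} (hΨ : Tst R K Ψ)
    (i j : Fin d) :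
    ∫ v, Ψ v * (ab γ g i j v * pd i (pd j fun v => kf δ (g v)) v) =
      (∫ v, uf δ (g v) * (ab γ g i j v * pd i (pd j Ψ) v)) -
      (∫ v, ab γ g i j v * (pd i Ψ v * (kd δ (g v) * pd j g v))) -
      (∫ v, ab γ g i j v * (pd j Ψ v * (kd δ (g v) * pd i g v))) -
      ∫ v, Ψ v * (uf δ (g v) * ab γ (pd j (pd i g)) i j v) := by
  have hgC1 : ContDiff ℝ 1 g := hg.smooth.of_le (by norm_num)
  have dΨ : Differentiable ℝ Ψ := hΨ.smooth.differentiable (by norm_num)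
  have cΨ : Continuous Ψ := hΨ.smooth.continuous
  have dΨj : ∀ j, Differentiable ℝ (pd j Ψ) := fun j =>
    (tst_pd_C1 hΨ j).differentiable (by norm_num)
  have cΨj : ∀ j, Continuous (pd j Ψ) := fun j => (tst_pd_C1 hΨ j).continuous
  have cΨij : ∀ i j, Continuous (pd i (pd j Ψ)) := fun i j =>
    ((tst_pd_C1 hΨ j).continuous_fderiv (by norm_num)).clm_apply continuous_const
  have dA : Differentiable ℝ (ab γ g i j) := ab_diff h1 h2 hgC1 hg.rd hg.rd1 i j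
  have cA : Continuous (ab γ g i j) := dA.continuous
  have pA : pd i (ab γ g i j) = ab γ (pd i g) i j := funext fun v =>
    pd_ab h1 h2 hgC1 hg.rd hg.rd1 i j i v
  have dAi : Differentiable ℝ (ab γ (pd i g) i j) :=
    ab_diff h1 h2 (nice_pd_C1 hg i) (hg.pd_RD i) (hg.pd_rd1 i) i j
  have cAi : Continuous (ab γ (pd i g) i j) := dAi.continuous
  have pAi : pd j (ab γ (pd i g) i j) = ab γ (pd j (pd i g)) i j := funext fun v =>
    pd_ab h1 h2 (nice_pd_C1 hg i) (hg.pd_RD i) (hg.pd_rd1 i) i j j v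
  have cAij : Continuous (ab γ (pd j (pd i g)) i j) :=
    ab_cont h1 h2 (pdd_cont hg j i) (pdd_RD hg j i) i j
  have dD : ∀ j, Differentiable ℝ (fun v => kd δ (g v) * pd j g v) := fun j v =>
    (D_hasFDerivAt hδ hδ1 hg h0 j v).differentiableAt
  have cD : ∀ j, Continuous (fun v => kd δ (g v) * pd j g v) := fun j => (dD j).continuous
  have cpD : Continuous (pd i fun v => kd δ (g v) * pd j g v) := pdD_cont hδ hδ1 hg h0 i j
  have du : Differentiable ℝ (fun v => uf δ (g v)) := fun v =>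
    (u_hasFDerivAt hδ hδ1 hg h0 v).differentiableAt
  have cu : Continuous (fun v => uf δ (g v)) := du.continuous
  have cpu : ∀ j, Continuous (pd j fun v => uf δ (g v)) := fun j => by
    rw [pd_u hδ hδ1 hg h0 j]; exact (cD j).neg
  have sΨ := hΨ.supp
  have sΨj : ∀ j v, R + 1 ≤ ‖v‖ → pd j Ψ v = 0 := fun j v hv =>
    pd_supp sΨ j (by linarith)
  have sΨij : ∀ i j v, R + 2 ≤ ‖v‖ → pd i (pd j Ψ) v = 0 := fun i j v hv =>
    pd_supp (sΨj j) i (by linarith)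
  -- step 1
  have s1 := ibp_cs (F := fun v => Ψ v * ab γ g i j v) (G := fun v => kd δ (g v) * pd j g v)
    (R := R) i (dΨ.mul dA) (dD j) (fun v hv => by rw [sΨ v hv, zero_mul])
    (by rw [pd_mul dΨ dA, pA]; exact ((cΨj i).mul cA).add (cΨ.mul cAi)) cpD
  -- step 2
  have s2 := ibp_cs (F := fun v => Ψ v * ab γ (pd i g) i j v) (G := fun v => uf δ (g v))
    (R := R) j (dΨ.mul dAi) du (fun v hv => by rw [sΨ v hv, zero_mul])
    (by rw [pd_mul dΨ dAi, pAi]; exact ((cΨj j).mul cAi).add (cΨ.mul cAij)) (cpu j)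
  -- step 3
  have s3 := ibp_cs (F := fun v => pd j Ψ v * uf δ (g v)) (G := ab γ g i j)
    (R := R + 1) i ((dΨj j).mul du) dA (fun v hv => by rw [sΨj j v hv, zero_mul])
    (by rw [pd_mul (dΨj j) du, pd_u hδ hδ1 hg h0 i]
        exact ((cΨij i j).mul cu).add ((cΨj j).mul (cD i).neg)) (by rw [pA]; exact cAi)
  rw [pd_mul dΨ dA, pA] at s1
  rw [pd_mul dΨ dAi, pAi, pd_u hδ hδ1 hg h0 j] at s2
  rw [pd_mul (dΨj j) du, pd_u hδ hδ1 hg h0 i, pA] at s3
  -- the integrals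
  obtain ⟨I1, hI1⟩ : ∃ I1, I1 = ∫ v, ab γ g i j v * (pd i Ψ v * (kd δ (g v) * pd j g v)) :=
    ⟨_, rfl⟩
  obtain ⟨I2, hI2⟩ : ∃ I2, I2 = ∫ v, Ψ v * ab γ (pd i g) i j v * (kd δ (g v) * pd j g v) :=
    ⟨_, rfl⟩
  obtain ⟨I3, hI3⟩ : ∃ I3, I3 = ∫ v, pd j Ψ v * uf δ (g v) * ab γ (pd i g) i j v :=
    ⟨_, rfl⟩
  obtain ⟨I4, hI4⟩ : ∃ I4, I4 = ∫ v, Ψ v * (uf δ (g v) * ab γ (pd j (pd i g)) i j v) :=
    ⟨_, rfl⟩
  obtain ⟨I5, hI5⟩ : ∃ I5, I5 = ∫ v, uf δ (g v) * (ab γ g i j v * pd i (pd j Ψ) v) :=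
    ⟨_, rfl⟩
  obtain ⟨I6, hI6⟩ : ∃ I6, I6 = ∫ v, ab γ g i j v * (pd j Ψ v * (kd δ (g v) * pd i g v)) :=
    ⟨_, rfl⟩
  have n1 : Integrable fun v => ab γ g i j v * (pd i Ψ v * (kd δ (g v) * pd j g v)) :=
    cs_int (cA.mul ((cΨj i).mul (cD j))) (R := R + 1) fun v hv => by rw [sΨj i v hv]; ring
  have n2 : Integrable fun v => Ψ v * ab γ (pd i g) i j v * (kd δ (g v) * pd j g v) :=
    cs_int ((cΨ.mul cAi).mul (cD j)) (R := R) fun v hv => by rw [sΨ v hv]; ring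
  have n3 : Integrable fun v => pd j Ψ v * uf δ (g v) * ab γ (pd i g) i j v :=
    cs_int (((cΨj j).mul cu).mul cAi) (R := R + 1) fun v hv => by rw [sΨj j v hv]; ring
  have n4 : Integrable fun v => Ψ v * (uf δ (g v) * ab γ (pd j (pd i g)) i j v) :=
    cs_int (cΨ.mul (cu.mul cAij)) (R := R) fun v hv => by rw [sΨ v hv]; ring
  have n5 : Integrable fun v => uf δ (g v) * (ab γ g i j v * pd i (pd j Ψ) v) :=
    cs_int (cu.mul (cA.mul (cΨij i j))) (R := R + 2) fun v hv => by rw [sΨij i j v hv]; ring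
  have n6 : Integrable fun v => ab γ g i j v * (pd j Ψ v * (kd δ (g v) * pd i g v)) :=
    cs_int (cA.mul ((cΨj j).mul (cD i))) (R := R + 1) fun v hv => by rw [sΨj j v hv]; ring
  have t1 : ∫ v, Ψ v * (ab γ g i j v * pd i (pd j fun v => kf δ (g v)) v) = -(I1 + I2) := by
    rw [pd_w hδ hδ1 hg h0 j]
    have e : ∀ v, Ψ v * (ab γ g i j v * pd i (fun v => kd δ (g v) * pd j g v) v) =
        Ψ v * ab γ g i j v * pd i (fun v => kd δ (g v) * pd j g v) v := fun v => by ring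
    rw [integral_congr_ae (Eventually.of_forall e), s1, hI1, hI2, ← integral_add n1 n2]
    congr 1
    exact integral_congr_ae (Eventually.of_forall fun v => by simp only; ring)
  have t2 : I2 = I3 + I4 := by
    have e : ∫ v, Ψ v * ab γ (pd i g) i j v * -(kd δ (g v) * pd j g v) = -I2 := by
      rw [hI2, ← integral_neg]
      exact integral_congr_ae (Eventually.of_forall fun v => by simp only; ring)
    rw [e] at s2
    have e2 : ∫ v, (pd j Ψ v * ab γ (pd i g) i j v + Ψ v * ab γ (pd j (pd i g)) i j v) *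
        uf δ (g v) = I3 + I4 := by
      rw [hI3, hI4, ← integral_add n3 n4]
      exact integral_congr_ae (Eventually.of_forall fun v => by simp only; ring)
    have e3 := neg_injective s2
    rw [e3]
    exact e2
  have t3 : I3 = -(I5 - I6) := by
    rw [hI3, s3, hI5, hI6, ← integral_sub n5 n6]
    congr 1
    exact integral_congr_ae (Eventually.of_forall fun v => by simp only; ring)
  rw [t1, ← hI5, ← hI1, ← hI6, ← hI4, t2, t3]
  ring

theorem parts_identity (h1 : -2 < γ) (h2 : γ ≤ 0) {δ : ℝ} (hδ : 0 < δ) (hδ1 : δ ≤ 1)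
    {g : Vec d → ℝ} (hg : Nice g) (h0 : ∀ v, 0 ≤ g v) {R K : ℝ} {Ψ : Vec d → ℝ} (hΨ : Tst R K Ψ) :
    ∫ v, Ψ v * ∑ i, ∑ j, ab γ g i j v * pd i (pd j fun v => kf δ (g v)) v =
      lin γ δ g Ψ - ∫ v, Ψ v * (uf δ (g v) * ∑ i, ∑ j, ab γ (pd i (pd j g)) i j v) := by
  have hgC1 : ContDiff ℝ 1 g := hg.smooth.of_le (by norm_num)
  have cΨ : Continuous Ψ := hΨ.smooth.continuous
  have cΨj : ∀ j, Continuous (pd j Ψ) := fun j => (tst_pd_C1 hΨ j).continuous
  have cΨij : ∀ i j, Continuous (pd i (pd j Ψ)) := fun i j =>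
    ((tst_pd_C1 hΨ j).continuous_fderiv (by norm_num)).clm_apply continuous_const
  have cA : ∀ i j, Continuous (ab γ g i j) := fun i j =>
    (ab_diff h1 h2 hgC1 hg.rd hg.rd1 i j).continuous
  have cAij : ∀ i j k l, Continuous (ab γ (pd k (pd l g)) i j) := fun i j k l =>
    ab_cont h1 h2 (pdd_cont hg k l) (pdd_RD hg k l) i j
  have cD : ∀ j, Continuous (fun v => kd δ (g v) * pd j g v) := fun j => D_cont hδ hg h0 j
  have cpD : ∀ i j, Continuous (pd i (pd j fun v => kf δ (g v))) := fun i j => by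
    rw [pd_w hδ hδ1 hg h0 j]; exact pdD_cont hδ hδ1 hg h0 i j
  have cu : Continuous (fun v => uf δ (g v)) :=
    (show Differentiable ℝ (fun v => uf δ (g v)) from fun v =>
      (u_hasFDerivAt hδ hδ1 hg h0 v).differentiableAt).continuous
  have sΨ := hΨ.supp
  have sΨj : ∀ j v, R + 1 ≤ ‖v‖ → pd j Ψ v = 0 := fun j v hv =>
    pd_supp sΨ j (by linarith)
  have sΨij : ∀ i j v, R + 2 ≤ ‖v‖ → pd i (pd j Ψ) v = 0 := fun i j v hv =>
    pd_supp (sΨj j) i (by linarith)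
  have n0 : ∀ i j, Integrable fun v => Ψ v * (ab γ g i j v * pd i (pd j fun v => kf δ (g v)) v) :=
    fun i j => cs_int (cΨ.mul ((cA i j).mul (cpD i j))) (R := R) fun v hv => by
      rw [sΨ v hv]; ring
  have n1 : ∀ i j, Integrable fun v => ab γ g i j v * (pd i Ψ v * (kd δ (g v) * pd j g v)) :=
    fun i j => cs_int ((cA i j).mul ((cΨj i).mul (cD j))) (R := R + 1) fun v hv => by
      rw [sΨj i v hv]; ring
  have n4 : ∀ i j, Integrable fun v => Ψ v * (uf δ (g v) * ab γ (pd i (pd j g)) i j v) :=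
    fun i j => cs_int (cΨ.mul (cu.mul (cAij i j i j))) (R := R) fun v hv => by rw [sΨ v hv]; ring
  have n5 : ∀ i j, Integrable fun v => uf δ (g v) * (ab γ g i j v * pd i (pd j Ψ) v) :=
    fun i j => cs_int (cu.mul ((cA i j).mul (cΨij i j))) (R := R + 2) fun v hv => by
      rw [sΨij i j v hv]; ring
  have e0 : ∫ v, Ψ v * ∑ i, ∑ j, ab γ g i j v * pd i (pd j fun v => kf δ (g v)) v =
      ∑ i, ∑ j, ∫ v, Ψ v * (ab γ g i j v * pd i (pd j fun v => kf δ (g v)) v) := by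
    have e : (fun v => Ψ v * ∑ i, ∑ j, ab γ g i j v * pd i (pd j fun v => kf δ (g v)) v) =
        fun v => ∑ i, ∑ j, Ψ v * (ab γ g i j v * pd i (pd j fun v => kf δ (g v)) v) := by
      funext v
      simp_rw [Finset.mul_sum]
    rw [e, integral_finsetSum _ fun i _ => integrable_finsetSum _ fun j _ => n0 i j]
    exact Finset.sum_congr rfl fun i _ => integral_finsetSum _ fun j _ => n0 i j
  have e5 : ∫ v, uf δ (g v) * ∑ i, ∑ j, ab γ g i j v * pd i (pd j Ψ) v =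
      ∑ i, ∑ j, ∫ v, uf δ (g v) * (ab γ g i j v * pd i (pd j Ψ) v) := by
    have e : (fun v => uf δ (g v) * ∑ i, ∑ j, ab γ g i j v * pd i (pd j Ψ) v) =
        fun v => ∑ i, ∑ j, uf δ (g v) * (ab γ g i j v * pd i (pd j Ψ) v) := by
      funext v
      simp_rw [Finset.mul_sum]
    rw [e, integral_finsetSum _ fun i _ => integrable_finsetSum _ fun j _ => n5 i j]
    exact Finset.sum_congr rfl fun i _ => integral_finsetSum _ fun j _ => n5 i j
  have e1 : ∫ v, ∑ i, ∑ j, ab γ g i j v * (pd i Ψ v * (kd δ (g v) * pd j g v)) =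
      ∑ i, ∑ j, ∫ v, ab γ g i j v * (pd i Ψ v * (kd δ (g v) * pd j g v)) := by
    rw [integral_finsetSum _ fun i _ => integrable_finsetSum _ fun j _ => n1 i j]
    exact Finset.sum_congr rfl fun i _ => integral_finsetSum _ fun j _ => n1 i j
  have e4 : ∫ v, Ψ v * (uf δ (g v) * ∑ i, ∑ j, ab γ (pd i (pd j g)) i j v) =
      ∑ i, ∑ j, ∫ v, Ψ v * (uf δ (g v) * ab γ (pd i (pd j g)) i j v) := by
    have e : (fun v => Ψ v * (uf δ (g v) * ∑ i, ∑ j, ab γ (pd i (pd j g)) i j v)) =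
        fun v => ∑ i, ∑ j, Ψ v * (uf δ (g v) * ab γ (pd i (pd j g)) i j v) := by
      funext v
      simp_rw [Finset.mul_sum]
    rw [e, integral_finsetSum _ fun i _ => integrable_finsetSum _ fun j _ => n4 i j]
    exact Finset.sum_congr rfl fun i _ => integral_finsetSum _ fun j _ => n4 i j
  have elin : lin γ δ g Ψ =
      (∑ i, ∑ j, ∫ v, uf δ (g v) * (ab γ g i j v * pd i (pd j Ψ) v)) -
      2 * ∑ i, ∑ j, ∫ v, ab γ g i j v * (pd i Ψ v * (kd δ (g v) * pd j g v)) := by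
    unfold lin
    rw [← e5, ← e1, ← integral_const_mul, ← integral_sub]
    · have e : (fun v => uf δ (g v) * ∑ i, ∑ j, ab γ g i j v * pd i (pd j Ψ) v) =
          fun v => ∑ i, ∑ j, uf δ (g v) * (ab γ g i j v * pd i (pd j Ψ) v) := by
        funext v
        simp_rw [Finset.mul_sum]
      rw [e]
      exact integrable_finsetSum _ fun i _ => integrable_finsetSum _ fun j _ => n5 i j
    · exact (integrable_finsetSum _ fun i _ => integrable_finsetSum _ fun j _ => n1 i j).const_mul 2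
  rw [e0, elin, e4]
  have hsw1 : ∑ i, ∑ j, ∫ v, ab γ g i j v * (pd j Ψ v * (kd δ (g v) * pd i g v)) =
      ∑ i, ∑ j, ∫ v, ab γ g i j v * (pd i Ψ v * (kd δ (g v) * pd j g v)) := by
    rw [Finset.sum_comm]
    refine Finset.sum_congr rfl fun i _ => Finset.sum_congr rfl fun j _ => ?_
    rw [ab_swap γ g j i]
  have hsw2 : ∑ i, ∑ j, ∫ v, Ψ v * (uf δ (g v) * ab γ (pd j (pd i g)) i j v) =
      ∑ i, ∑ j, ∫ v, Ψ v * (uf δ (g v) * ab γ (pd i (pd j g)) i j v) := by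
    rw [Finset.sum_comm]
    refine Finset.sum_congr rfl fun i _ => Finset.sum_congr rfl fun j _ => ?_
    rw [ab_swap γ (pd i (pd j g)) j i]
  rw [← hsw2]
  have hall : ∑ i, ∑ j, ∫ v, Ψ v * (ab γ g i j v * pd i (pd j fun v => kf δ (g v)) v) =
      (∑ i, ∑ j, ∫ v, uf δ (g v) * (ab γ g i j v * pd i (pd j Ψ) v)) -
      (∑ i, ∑ j, ∫ v, ab γ g i j v * (pd i Ψ v * (kd δ (g v) * pd j g v))) -
      (∑ i, ∑ j, ∫ v, ab γ g i j v * (pd j Ψ v * (kd δ (g v) * pd i g v))) -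
      ∑ i, ∑ j, ∫ v, Ψ v * (uf δ (g v) * ab γ (pd j (pd i g)) i j v) := by
    simp_rw [← Finset.sum_sub_distrib]
    exact Finset.sum_congr rfl fun i _ => Finset.sum_congr rfl fun j _ =>
      parts_one h1 h2 hδ hδ1 hg h0 hΨ i j
  rw [hall, hsw1]
  ring

private lemma landauQ_cont (h1 : -2 < γ) (h2 : γ ≤ 0) {g : Vec d → ℝ} (hg : Nice g) :
    Continuous (landauQ γ g) := by
  have e : landauQ γ g = fun v => ∑ i, ∑ j, (ab γ g i j v * pd i (pd j g) v -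
      g v * ab γ (pd i (pd j g)) i j v) :=
    funext fun v => Pool.Agent.H82.LK.landauQ_eq h1 h2 hg v
  rw [e]
  refine continuous_finsetSum _ fun i _ => continuous_finsetSum _ fun j _ => ?_
  exact ((ab_cont h1 h2 hg.cont hg.rd i j).mul (pdd_cont hg i j)).sub
    (hg.cont.mul (ab_cont h1 h2 (pdd_cont hg i j) (pdd_RD hg i j) i j))

/-- THE FIBER INEQUALITY -/
theorem fiber_ineq (hd : 2 ≤ d) (h1 : -2 < γ) (h2 : γ ≤ 0) {δ : ℝ} (hδ : 0 < δ) (hδ1 : δ ≤ 1)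
    {g : Vec d → ℝ} (hg : Nice g) (h0 : ∀ v, 0 ≤ g v) {R K : ℝ} {Ψ : Vec d → ℝ} (hΨ : Tst R K Ψ)
    (hΨ0 : ∀ v, 0 ≤ Ψ v) : diss γ δ g Ψ + lin γ δ g Ψ ≤ src (landauQ γ) δ g Ψ := by
  have cΨ : Continuous Ψ := hΨ.smooth.continuous
  have cA : ∀ i j, Continuous (ab γ g i j) := fun i j => ab_cont h1 h2 hg.cont hg.rd i j
  have cD : ∀ j, Continuous (fun v => kd δ (g v) * pd j g v) := fun j => D_cont hδ hg h0 j
  have cpD : ∀ i j, Continuous (pd i (pd j fun v => kf δ (g v))) := fun i j => by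
    rw [pd_w hδ hδ1 hg h0 j]; exact pdD_cont hδ hδ1 hg h0 i j
  have n1 : Integrable fun v => Ψ v * ∑ i, ∑ j, ab γ g i j v * pd i (pd j fun v => kf δ (g v)) v :=
    cs_int (cΨ.mul (continuous_finsetSum _ fun i _ => continuous_finsetSum _ fun j _ =>
      (cA i j).mul (cpD i j))) (R := R) fun v hv => by rw [hΨ.supp v hv, zero_mul]
  have n2 : Integrable fun v => Ψ v * ∑ i, ∑ j, ab γ g i j v *
      ((kd δ (g v) * pd i g v) * (kd δ (g v) * pd j g v)) :=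
    cs_int (cΨ.mul (continuous_finsetSum _ fun i _ => continuous_finsetSum _ fun j _ =>
      (cA i j).mul ((cD i).mul (cD j)))) (R := R) fun v hv => by rw [hΨ.supp v hv, zero_mul]
  have n3 : Integrable fun v => Ψ v * (kd δ (g v) * landauQ γ g v) :=
    cs_int (cΨ.mul ((kd_cont hδ hg h0).mul (landauQ_cont h1 h2 hg))) (R := R) fun v hv => by
      rw [hΨ.supp v hv, zero_mul]
  have e1 := parts_identity h1 h2 hδ hδ1 hg h0 hΨ
  have e2 : ∫ v, Ψ v * (uf δ (g v) * ∑ i, ∑ j, ab γ (pd i (pd j g)) i j v) ≤ 0 := by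
    refine integral_nonpos fun v => ?_
    exact mul_nonpos_of_nonneg_of_nonpos (hΨ0 v) (mul_nonpos_of_nonneg_of_nonpos
      (uf_nonneg hδ hδ1 (h0 v)) (sum_ab_dd_nonpos hd h1 h2 hg h0 v))
  have e3 : (∫ v, Ψ v * ∑ i, ∑ j, ab γ g i j v * pd i (pd j fun v => kf δ (g v)) v) +
      diss γ δ g Ψ ≤ src (landauQ γ) δ g Ψ := by
    unfold diss src
    rw [← integral_add n1 n2]
    refine integral_mono (n1.add n2) n3 fun v => ?_
    have := mul_le_mul_of_nonneg_left (pointwise_ineq hd h1 h2 hδ hδ1 hg h0 v) (hΨ0 v)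
    simp only
    linarith
  rw [e1] at e3
  linarith

end Pool.Agent.H15.AV
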