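import Pool.Agent.H15.AV.Abs
import Pool.Agent.H15.AV.LGd
import Pool.Agent.H15.AV.LH
import Pool.Agent.H25.Kin.Close

/-!
# Hydrodynamic bounds in measure for the Landau equation
-/

set_option autoImplicit false

open MeasureTheory Set Filter Topology Pool.Agent.H25.Kin
open scoped ContDiff

namespace Pool.Agent.H15.AV

variable {d : ℕ}

theorem slice_of_admissible {μ : ℝ} (hμ : 0 < μ) {F : Vec d → Vec d → ℝ} (hF : IsAdmissible μ F) :
    Slice F := by
  refine ⟨hF.nonneg, fun x v i => hF.periodic x v i, hF.smooth.continuous, fun N => ?_⟩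
  obtain ⟨C, hC⟩ := hF.gauss
  have hC0 : 0 ≤ C := by
    have h1 := (hF.nonneg 0 0).trans (hC 0 0)
    have h2 : nsq (0 : Vec d) = 0 := by simp [nsq]
    rw [h2, mul_zero, Real.exp_zero, mul_one] at h1
    exact h1
  obtain ⟨D, hD⟩ := exp_RD (d := d) hμ N
  refine ⟨C * D, fun x v => ?_⟩
  have h1 := hD v
  rw [Real.norm_eq_abs, abs_of_pos (Real.exp_pos _)] at h1
  calc (1 + ‖v‖) ^ N * F x v ≤ (1 + ‖v‖) ^ N * (C * Real.exp (-μ * nsq v)) :=
        mul_le_mul_of_nonneg_left (hC x v) (pow_nonneg (w_pos v).le _)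
    _ = C * ((1 + ‖v‖) ^ N * Real.exp (-μ * nsq v)) := by ring
    _ ≤ C * D := mul_le_mul_of_nonneg_left h1 hC0

theorem landau_main (hd : 2 ≤ d) {γ μ : ℝ} (h1 : -2 < γ) (h2 : γ < 0) (hμ : 0 < μ)
    {F₀ : Vec d → Vec d → ℝ} (hF : IsAdmissible μ F₀) {ε : ℝ} (hε : 0 < ε) :
    ∃ m > 0, ∃ M E H : ℝ, ∀ (T : ℝ) (f : ℝ → Vec d → Vec d → ℝ), IsLandauSol γ T f → f 0 = F₀ →
      ∀ t ∈ Ico 0 T,
        volume {x ∈ Icc (0 : Vec d) 1 | ¬ HydroBounds m M E H (f t x)} ≤ ENNReal.ofReal ε := by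
  refine hydro_in_measure (q := γ + 2) (Q := landauQ γ) (fibTh_landau hd h1 h2.le)
    (hth_landau h1 h2.le) (by linarith) (by linarith) ?_
    (contDiff_infty.1 hF.smooth 2) (slice_of_admissible hμ hF) hF.mass_pos hε
  intro T f hf t ht x
  have hn := hf.nice ht x
  exact ⟨landauQ_mass h1 h2.le hn, fun i => landauQ_momentum h1 h2.le hn i,
    landauQ_energy h1 h2.le hn⟩

end Pool.Agent.H15.AV
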