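import Pool.Agent.H15.AV.LMain
import Pool.Agent.H15.AV.AbsU

/-!
# Hydrodynamic bounds in measure for the Landau equation, quantitative form
-/

set_option autoImplicit false

open MeasureTheory Set Filter Topology Pool.Agent.H25.Kin
open scoped ContDiff

namespace Pool.Agent.H15.AV

variable {d : ℕ}

theorem landau_universal (hd : 2 ≤ d) {γ : ℝ} (h1 : -2 < γ) (h2 : γ < 0) {a : ℝ} (ha : 0 < a)
    (A : ℝ) {h ε : ℝ} (hh : 0 < h) (hε : 0 < ε) :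
    ∃ m > 0, ∃ M E H : ℝ, ∀ μ > 0, ∀ F₀ : Vec d → Vec d → ℝ, IsAdmissible μ F₀ →
      a ≤ ∫ x in Icc (0 : Vec d) 1, ∫ v, F₀ x v → ∫ x in Icc (0 : Vec d) 1, ∫ v, F₀ x v ≤ A →
      ∫ x in Icc (0 : Vec d) 1, ∫ v, F₀ x v * nsq v ≤ A →
      ∫ x in Icc (0 : Vec d) 1, ∫ v, F₀ x v * Real.log (F₀ x v) ≤ A →
      ∃ m₀ > 0, ∀ (T : ℝ) (f : ℝ → Vec d → Vec d → ℝ), IsLandauSol γ T f → f 0 = F₀ →
        ∀ t ∈ Ico 0 T, volume {x ∈ Icc (0 : Vec d) 1 |
          ¬ HydroBounds (if t < h then m₀ else m) M E H (f t x)} ≤ ENNReal.ofReal ε := by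
  obtain ⟨m, hm, M, E, H, hu⟩ := hydro_universal (q := γ + 2) (Q := landauQ γ)
    (fibTh_landau hd h1 h2.le) (hth_landau h1 h2.le) (by linarith) (by linarith)
    (fun T f hf t ht x => by
      have hn := hf.nice ht x
      exact ⟨landauQ_mass h1 h2.le hn, fun i => landauQ_momentum h1 h2.le hn i,
        landauQ_energy h1 h2.le hn⟩) ha A hh hε
  exact ⟨m, hm, M, E, H, fun μ hμ F₀ hF => hu F₀ (contDiff_infty.1 hF.smooth 2)
    (slice_of_admissible hμ hF) hF.mass_pos⟩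

end Pool.Agent.H15.AV
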