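import Pool.Agent.H15.AV.SlcB

/-!
# Consequences of the bounds for mass, energy and entropy at one time

MODULE Mac. `zg d = ∫ exp (-|v|²)`, `gibbs_pt` in H25/Kin/Macro2.
Key facts: `(a log a)⁻ ≤ n a + exp (-1 - n)` with `n = |v|²` (`gibbs_pt` with `θ = exp (-1)`), hence
`∫ F log⁺ F ≤ 2 M + zg d`. For `K > 1`: `∫_{F > K} F ≤ (2M + zg d) / log K`, and
`∫_{‖v‖ > A} F ≤ M / A²` because `‖v‖² ≤ nsq v` (`norm_sq_le_sq` in H25/Kin/Bound).
-/

set_option autoImplicit false

open MeasureTheory Set Filter Topology Pool.Agent.H25.Kin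

namespace Pool.Agent.H15.AV

variable {d : ℕ}

private lemma Mac_cont {F : Vec d → Vec d → ℝ} (hF : Slice F) :
    Continuous fun q : Vec d × Vec d => F q.2 q.1 :=
  hF.cont.comp (by fun_prop : Continuous fun q : Vec d × Vec d => (q.2, q.1))

private lemma Mac_le {F : Vec d → Vec d → ℝ} (hF : Slice F) (N : ℕ) :
    ∃ C, 0 ≤ C ∧ ∀ x v, |F x v| ≤ C * ((1 + ‖v‖) ^ N)⁻¹ := by
  obtain ⟨C, hC⟩ := hF.decay N
  refine ⟨|C|, abs_nonneg _, fun x v => ?_⟩
  rw [abs_of_nonneg (hF.nonneg x v), ← div_eq_mul_inv, le_div_iff₀ (pow_pos (w_pos v) _),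
    mul_comm]
  exact (hC x v).trans (le_abs_self C)

private lemma Mac_int {F : Vec d → Vec d → ℝ} (hF : Slice F) {p : Vec d → ℝ} (hp : PG p)
    (hpc : Continuous p) : Integrable (fun q : Vec d × Vec d => F q.2 q.1 * p q.1) (nu d) := by
  obtain ⟨m, P, hP0, hP⟩ := hp.pos
  obtain ⟨C, hC0, hC⟩ := Mac_le hF (m + (d + 1))
  refine integrable_nu (C := P * C)
    ((Mac_cont hF).mul (hpc.comp continuous_fst)).aestronglyMeasurable fun q => ?_
  have e1 := hC q.2 q.1
  have e2 := hP q.1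
  rw [Real.norm_eq_abs] at e2
  rw [abs_mul, mul_comm, ← wt_bound hP0 hC0 q.1 m]
  exact mul_le_mul e2 e1 (abs_nonneg _) (mul_nonneg hP0 (pow_nonneg (w_pos q.1).le _))

private lemma Mac_int1 {F : Vec d → Vec d → ℝ} (hF : Slice F) :
    Integrable (fun q : Vec d × Vec d => F q.2 q.1) (nu d) := by
  have h := Mac_int hF (PG.const (d := d) (1 : ℝ)) continuous_const
  simpa using h

private lemma Mac_intlog {F : Vec d → Vec d → ℝ} (hF : Slice F) :
    Integrable (fun q : Vec d × Vec d => F q.2 q.1 * Real.log (F q.2 q.1)) (nu d) := by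
  obtain ⟨C, hC0, hC⟩ := Mac_le hF (2 * (d + 1))
  refine integrable_nu (C := 2 * Real.sqrt C + C ^ 2)
    (Real.continuous_mul_log.comp (Mac_cont hF)).aestronglyMeasurable fun q => ?_
  have e1 := hC q.2 q.1
  have e0 := hF.nonneg q.2 q.1
  rw [abs_of_nonneg e0] at e1
  have hw0 := wt_nonneg q.1
  have hw1 : wt d q.1 ≤ 1 := inv_le_one_of_one_le₀ (one_le_pow₀ (one_le_w q.1))
  have e2 : ((1 + ‖q.1‖) ^ (2 * (d + 1)))⁻¹ = wt d q.1 ^ 2 := by
    unfold wt
    rw [inv_pow, ← pow_mul, mul_comm]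
  rw [e2] at e1
  have e3 : Real.sqrt (F q.2 q.1) ≤ Real.sqrt C * wt d q.1 := by
    refine (Real.sqrt_le_sqrt e1).trans (le_of_eq ?_)
    rw [Real.sqrt_mul hC0, Real.sqrt_sq hw0]
  have e4 : F q.2 q.1 ^ 2 ≤ C ^ 2 * wt d q.1 := by
    have e5 : F q.2 q.1 ^ 2 ≤ (C * wt d q.1 ^ 2) ^ 2 := pow_le_pow_left₀ e0 e1 2
    have e6 : wt d q.1 ^ 4 ≤ wt d q.1 := pow_le_of_le_one hw0 hw1 (by norm_num)
    calc F q.2 q.1 ^ 2 ≤ (C * wt d q.1 ^ 2) ^ 2 := e5
      _ = C ^ 2 * wt d q.1 ^ 4 := by ring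
      _ ≤ C ^ 2 * wt d q.1 := mul_le_mul_of_nonneg_left e6 (sq_nonneg C)
  refine (abs_mul_log_le e0).trans ?_
  nlinarith

private lemma Mac_intplog {F : Vec d → Vec d → ℝ} (hF : Slice F) :
    Integrable (fun q : Vec d × Vec d => F q.2 q.1 * max 0 (Real.log (F q.2 q.1))) (nu d) := by
  have h := (integrable_zero (Vec d × Vec d) ℝ (nu d)).sup (Mac_intlog hF)
  refine h.congr (Eventually.of_forall fun q => ?_)
  change max 0 (F q.2 q.1 * Real.log (F q.2 q.1)) = F q.2 q.1 * max 0 (Real.log (F q.2 q.1))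
  rw [mul_max_of_nonneg _ _ (hF.nonneg q.2 q.1), mul_zero]

private lemma Mac_muD : (muD d) univ = 1 := by
  unfold muD
  rw [Measure.restrict_apply_univ, Real.volume_Icc_pi]
  simp

private lemma Mac_gauss : Integrable (fun v : Vec d => Real.exp (-1 * nsq v)) := by
  by_contra h
  have h1 : zg d = 0 := by
    unfold zg
    exact integral_undef h
  have h2 : ∀ v : Vec d, Real.exp (-1 * nsq v) = ∏ i, Real.exp (-1 * (v i) ^ 2) := by
    intro v
    rw [← Real.exp_sum]
    congr 1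
    unfold nsq
    rw [Finset.mul_sum]
  refine h ?_
  have h3 : Integrable (fun v : Vec d => ∏ i, Real.exp (-1 * (v i) ^ 2)) :=
    Integrable.fintype_prod fun _ => integrable_exp_neg_mul_sq (by norm_num : (0 : ℝ) < 1)
  exact h3.congr (Eventually.of_forall fun v => (h2 v).symm)

/-- the positive part of the entropy is bounded -/
theorem plog_bound {m M : ℝ} {F : Vec d → Vec d → ℝ} (hF : Slice F) (hG : Glob m M F) :
    ∫ q, F q.2 q.1 * max 0 (Real.log (F q.2 q.1)) ∂(nu d) ≤ 2 * M + zg d := by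
  have i1 := Mac_intlog hF
  have i2 := Mac_int hF PG.nsq continuous_sq
  have i3 : Integrable (fun q : Vec d × Vec d => Real.exp (-1 * nsq q.1)) (nu d) :=
    Integrable.comp_fst (Mac_gauss (d := d)) (muD d)
  have h1 : ∫ q : Vec d × Vec d, F q.2 q.1 * max 0 (Real.log (F q.2 q.1)) ∂(nu d) ≤
      ∫ q : Vec d × Vec d, ((F q.2 q.1 * Real.log (F q.2 q.1) + F q.2 q.1 * nsq q.1) +
        Real.exp (-1 * nsq q.1)) ∂(nu d) := by
    refine integral_mono (Mac_intplog hF) ((i1.add i2).add i3) fun q => ?_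
    have e0 := hF.nonneg q.2 q.1
    have e1 := gibbs_pt (n := nsq q.1) e0 (Real.exp_pos (-1))
    rw [Real.log_exp] at e1
    have e2 : Real.exp (-1) ≤ 1 := Real.exp_le_one_iff.2 (by norm_num)
    have e3 := Real.exp_pos (-1 * nsq q.1)
    have e4 : Real.exp (-1) * Real.exp (-1 * nsq q.1) ≤ 1 * Real.exp (-1 * nsq q.1) :=
      mul_le_mul_of_nonneg_right e2 e3.le
    have e5 : 0 ≤ F q.2 q.1 * nsq q.1 := mul_nonneg e0 (sq_nonneg' _)
    change F q.2 q.1 * max 0 (Real.log (F q.2 q.1)) ≤ F q.2 q.1 * Real.log (F q.2 q.1) +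
      F q.2 q.1 * nsq q.1 + Real.exp (-1 * nsq q.1)
    rw [mul_max_of_nonneg _ _ e0, mul_zero]
    refine max_le ?_ ?_
    · nlinarith
    · linarith
  refine h1.trans ?_
  have i12 : Integrable (fun q : Vec d × Vec d => F q.2 q.1 * Real.log (F q.2 q.1) +
      F q.2 q.1 * nsq q.1) (nu d) := i1.add i2
  rw [integral_add i12 i3, integral_add i1 i2]
  have h2 : ∫ q : Vec d × Vec d, Real.exp (-1 * nsq q.1) ∂(nu d) = zg d := by
    unfold nu
    rw [integral_fun_fst (μ := (volume : Measure (Vec d))) (ν := muD d)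
      (fun v : Vec d => Real.exp (-1 * nsq v)), measureReal_def, Mac_muD]
    simp [zg]
  rw [h2]
  have h3 := hG.entropy
  have h4 := hG.energy
  linarith

private lemma Mac_pt {K A a : ℝ} (hK : 1 < K) (hA : 0 < A) (ha : 0 ≤ a) (v : Vec d)
    (h : ¬ (a ≤ K ∧ ‖v‖ ≤ A)) :
    a ≤ a * max 0 (Real.log a) / Real.log K + a * nsq v / A ^ 2 := by
  have hl := Real.log_pos hK
  have hn := sq_nonneg' v
  by_cases h1 : a ≤ K
  · have h2 : A < ‖v‖ := by
      by_contra h3
      exact h ⟨h1, not_lt.1 h3⟩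
    have h3 : A ^ 2 ≤ nsq v := (pow_le_pow_left₀ hA.le h2.le 2).trans (norm_sq_le_sq v)
    have h4 : a ≤ a * nsq v / A ^ 2 := by
      rw [le_div_iff₀ (by positivity)]
      exact mul_le_mul_of_nonneg_left h3 ha
    have h5 : 0 ≤ a * max 0 (Real.log a) / Real.log K :=
      div_nonneg (mul_nonneg ha (le_max_left _ _)) hl.le
    linarith
  · rw [not_le] at h1
    have h2 : Real.log K ≤ max 0 (Real.log a) :=
      (Real.log_le_log (by linarith) h1.le).trans (le_max_right _ _)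
    have h4 : a ≤ a * max 0 (Real.log a) / Real.log K := by
      rw [le_div_iff₀ hl]
      exact mul_le_mul_of_nonneg_left h2 ha
    have h5 : 0 ≤ a * nsq v / A ^ 2 := by positivity
    linarith

private lemma Mac_const (B : ℝ) {ε : ℝ} (hε : 0 < ε) :
    ∃ K > 1, ∃ A > 0, B / Real.log K ≤ ε ∧ B / A ^ 2 ≤ ε := by
  have hL : 0 < |B| / ε + 1 := by positivity
  have hB : B / (|B| / ε + 1) ≤ ε := by
    rw [div_le_iff₀ hL, mul_add, mul_div_cancel₀ _ hε.ne', mul_one]
    linarith [le_abs_self B]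
  refine ⟨Real.exp (|B| / ε + 1), Real.one_lt_exp_iff.2 hL, Real.sqrt (|B| / ε + 1),
    Real.sqrt_pos.2 hL, ?_, ?_⟩
  · rw [Real.log_exp]
    exact hB
  · rw [Real.sq_sqrt hL.le]
    exact hB

/-- equi-integrability of the mass density -/
theorem equi_int (m M : ℝ) {ε : ℝ} (hε : 0 < ε) : ∃ η > 0, ∀ F : Vec d → Vec d → ℝ, Slice F →
    Glob m M F → ∀ X : Set (Vec d), MeasurableSet X → muD d X ≤ ENNReal.ofReal η →
      ∫ x in X, (∫ v, F x v) ∂(muD d) ≤ ε := by
  obtain ⟨K, hK, A, hA, hBK, hBA⟩ := Mac_const (max (2 * M + zg d) M)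
    (by positivity : (0 : ℝ) < ε / 3)
  set V : ℝ := (volume : Measure (Vec d)).real (Metric.closedBall 0 A) with hV
  have hV0 : 0 ≤ V := measureReal_nonneg
  have hK0 : 0 < K := by linarith
  have hl := Real.log_pos hK
  refine ⟨ε / (3 * (K * V + 1)), by positivity, fun F hF hG X hX hm => ?_⟩
  have hmX : (muD d X).toReal ≤ ε / (3 * (K * V + 1)) := by
    refine ENNReal.toReal_le_of_le_ofReal (by positivity) hm
  set b : Vec d → ℝ := (Metric.closedBall (0 : Vec d) A).indicator fun _ => 1 with hb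
  set c : Vec d → ℝ := X.indicator fun _ => 1 with hc
  have hbi : Integrable b := by
    refine IntegrableOn.integrable_indicator ?_ Metric.isClosed_closedBall.measurableSet
    exact integrableOn_const measure_closedBall_lt_top.ne
  have hci : Integrable c (muD d) :=
    IntegrableOn.integrable_indicator (integrableOn_const (measure_ne_top _ _)) hX
  have hc0 : ∀ x, 0 ≤ c x := fun x => indicator_nonneg (fun _ _ => zero_le_one) x
  have hc1 : ∀ x, c x ≤ 1 := fun x => indicator_le_self' (fun _ _ => zero_le_one) x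
  have i1 := Mac_int1 hF
  have i2 := Mac_intplog hF
  have i3 := Mac_int hF PG.nsq continuous_sq
  have i4 : Integrable (fun q : Vec d × Vec d => b q.1 * c q.2) (nu d) := hbi.mul_prod hci
  have i5 : Integrable (fun q : Vec d × Vec d => c q.2 * F q.2 q.1) (nu d) := by
    refine i1.mono' ?_ (Eventually.of_forall fun q => ?_)
    · refine AEStronglyMeasurable.mul ?_ (Mac_cont hF).aestronglyMeasurable
      exact ((measurable_const.indicator hX).comp measurable_snd).aestronglyMeasurable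
    · have e0 := hF.nonneg q.2 q.1
      rw [Real.norm_eq_abs, abs_of_nonneg (mul_nonneg (hc0 _) e0)]
      exact mul_le_of_le_one_left e0 (hc1 _)
  have h1 : ∫ x in X, (∫ v, F x v) ∂(muD d) = ∫ q : Vec d × Vec d, c q.2 * F q.2 q.1 ∂(nu d) := by
    rw [nu_integral i5, ← integral_indicator hX]
    refine integral_congr_ae (Eventually.of_forall fun x => ?_)
    simp only
    rw [integral_const_mul]
    by_cases hx : x ∈ X
    · rw [indicator_of_mem hx, hc, indicator_of_mem hx, one_mul]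
    · rw [indicator_of_notMem hx, hc, indicator_of_notMem hx, zero_mul]
  have h2 : ∫ q : Vec d × Vec d, c q.2 * F q.2 q.1 ∂(nu d) ≤
      ∫ q : Vec d × Vec d, (K * (b q.1 * c q.2) +
        ((Real.log K)⁻¹ * (F q.2 q.1 * max 0 (Real.log (F q.2 q.1))) +
          (A ^ 2)⁻¹ * (F q.2 q.1 * nsq q.1))) ∂(nu d) := by
    refine integral_mono i5 ((i4.const_mul K).add ((i2.const_mul _).add (i3.const_mul _)))
      fun q => ?_
    have e0 := hF.nonneg q.2 q.1
    have e1 := hc0 q.2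
    have e2 := hc1 q.2
    have e3 : 0 ≤ (Real.log K)⁻¹ * (F q.2 q.1 * max 0 (Real.log (F q.2 q.1))) :=
      mul_nonneg (inv_nonneg.2 hl.le) (mul_nonneg e0 (le_max_left _ _))
    have e4 : 0 ≤ (A ^ 2)⁻¹ * (F q.2 q.1 * nsq q.1) :=
      mul_nonneg (by positivity) (mul_nonneg e0 (sq_nonneg' _))
    have e5 : 0 ≤ b q.1 := indicator_nonneg (fun _ _ => zero_le_one) _
    change c q.2 * F q.2 q.1 ≤ K * (b q.1 * c q.2) +
      ((Real.log K)⁻¹ * (F q.2 q.1 * max 0 (Real.log (F q.2 q.1))) +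
        (A ^ 2)⁻¹ * (F q.2 q.1 * nsq q.1))
    by_cases h : F q.2 q.1 ≤ K ∧ ‖q.1‖ ≤ A
    · have e6 : b q.1 = 1 := by
        rw [hb]
        exact indicator_of_mem (mem_closedBall_zero_iff.2 h.2) _
      rw [e6, one_mul]
      have e7 : c q.2 * F q.2 q.1 ≤ c q.2 * K := mul_le_mul_of_nonneg_left h.1 e1
      linarith
    · have e6 := Mac_pt hK hA e0 q.1 h
      have e7 : c q.2 * F q.2 q.1 ≤ F q.2 q.1 := mul_le_of_le_one_left e0 e2
      have e8 : 0 ≤ K * (b q.1 * c q.2) := by positivity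
      rw [div_eq_inv_mul, div_eq_inv_mul] at e6
      linarith
  rw [h1]
  refine h2.trans ?_
  have i23 : Integrable (fun q : Vec d × Vec d =>
      (Real.log K)⁻¹ * (F q.2 q.1 * max 0 (Real.log (F q.2 q.1))) +
        (A ^ 2)⁻¹ * (F q.2 q.1 * nsq q.1)) (nu d) := (i2.const_mul _).add (i3.const_mul _)
  rw [integral_add (i4.const_mul K) i23,
    integral_add (i2.const_mul _) (i3.const_mul _), integral_const_mul, integral_const_mul,
    integral_const_mul]
  have h3 : ∫ q : Vec d × Vec d, b q.1 * c q.2 ∂(nu d) = V * (muD d X).toReal := by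
    unfold nu
    rw [integral_prod_mul, hb, hc, integral_indicator Metric.isClosed_closedBall.measurableSet,
      integral_indicator hX]
    simp [V, measureReal_def]
  rw [h3]
  have h4 := plog_bound hF hG
  have h5 := hG.energy
  have h6 : (Real.log K)⁻¹ * ∫ q : Vec d × Vec d, F q.2 q.1 * max 0 (Real.log (F q.2 q.1)) ∂(nu d) ≤
      ε / 3 := by
    refine (mul_le_mul_of_nonneg_left (h4.trans (le_max_left _ M)) (inv_nonneg.2 hl.le)).trans ?_
    rw [← div_eq_inv_mul]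
    exact hBK
  have h7 : (A ^ 2)⁻¹ * ∫ q : Vec d × Vec d, F q.2 q.1 * nsq q.1 ∂(nu d) ≤ ε / 3 := by
    refine (mul_le_mul_of_nonneg_left (h5.trans (le_max_right (2 * M + zg d) _))
      (by positivity)).trans ?_
    rw [← div_eq_inv_mul]
    exact hBA
  have h8 : K * (V * (muD d X).toReal) ≤ ε / 3 := by
    have e1 : K * (V * (muD d X).toReal) ≤ (K * V + 1) * (muD d X).toReal := by
      have e2 : 0 ≤ (muD d X).toReal := ENNReal.toReal_nonneg
      nlinarith
    refine e1.trans ((mul_le_mul_of_nonneg_left hmX (by positivity)).trans (le_of_eq ?_))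
    field_simp
  linarith

/-- lower bound for the mass in a ball with bounded density -/
theorem gav_lower {m : ℝ} (hm : 0 < m) (M : ℝ) : ∃ c > 0, ∃ R₁ > 0, ∀ F : Vec d → Vec d → ℝ,
    Slice F → Glob m M F → ∀ χ : Vec d → ℝ, Continuous χ → (∀ v, 0 ≤ χ v) →
    (∀ v, ‖v‖ ≤ R₁ → 1 ≤ χ v) → (∃ R, ∀ v, R ≤ ‖v‖ → χ v = 0) →
      c ≤ ∫ x, (∫ v, χ v * kf (1 / 2) (F x v)) ∂(muD d) := by
  obtain ⟨K, hK, A, hA, hBK, hBA⟩ := Mac_const (max (2 * M + zg d) M)
    (by positivity : (0 : ℝ) < m / 4)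
  have hK0 : 0 < K := by linarith
  have hl := Real.log_pos hK
  refine ⟨m / 2 / (1 + 2 * K), by positivity, A, hA, fun F hF hG χ hχ hχ0 hχ1 hχs => ?_⟩
  obtain ⟨R, hR⟩ := hχs
  have hχi : Integrable χ := by
    refine hχ.integrable_of_hasCompactSupport ?_
    refine HasCompactSupport.intro (isCompact_closedBall (0 : Vec d) R) fun v hv => hR v ?_
    rw [mem_closedBall_zero_iff, not_le] at hv
    exact hv.le
  have i1 := Mac_int1 hF
  have i2 := Mac_intplog hF
  have i3 := Mac_int hF PG.nsq continuous_sq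
  have hk0 : ∀ q : Vec d × Vec d, 0 ≤ kf (1 / 2) (F q.2 q.1) := fun q =>
    kf_nonneg (by norm_num) (by norm_num) (hF.nonneg q.2 q.1)
  have i4 : Integrable (fun q : Vec d × Vec d => χ q.1 * kf (1 / 2) (F q.2 q.1)) (nu d) := by
    refine (Integrable.comp_fst hχi (muD d)).mono' ?_ (Eventually.of_forall fun q => ?_)
    · refine AEStronglyMeasurable.mul (hχ.comp continuous_fst).aestronglyMeasurable ?_
      exact ((measurable_kf (1 / 2)).comp (Mac_cont hF).measurable).aestronglyMeasurable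
    · rw [Real.norm_eq_abs, abs_of_nonneg (mul_nonneg (hχ0 _) (hk0 q))]
      exact mul_le_of_le_one_right (hχ0 _) (half_le_one (hF.nonneg q.2 q.1))
  have h2 : ∫ q : Vec d × Vec d, F q.2 q.1 ∂(nu d) ≤
      ∫ q : Vec d × Vec d, ((1 + 2 * K) * (χ q.1 * kf (1 / 2) (F q.2 q.1)) +
        ((Real.log K)⁻¹ * (F q.2 q.1 * max 0 (Real.log (F q.2 q.1))) +
          (A ^ 2)⁻¹ * (F q.2 q.1 * nsq q.1))) ∂(nu d) := by
    refine integral_mono i1 ((i4.const_mul _).add ((i2.const_mul _).add (i3.const_mul _)))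
      fun q => ?_
    have e0 := hF.nonneg q.2 q.1
    have e3 : 0 ≤ (Real.log K)⁻¹ * (F q.2 q.1 * max 0 (Real.log (F q.2 q.1))) :=
      mul_nonneg (inv_nonneg.2 hl.le) (mul_nonneg e0 (le_max_left _ _))
    have e4 : 0 ≤ (A ^ 2)⁻¹ * (F q.2 q.1 * nsq q.1) :=
      mul_nonneg (by positivity) (mul_nonneg e0 (sq_nonneg' _))
    change F q.2 q.1 ≤ (1 + 2 * K) * (χ q.1 * kf (1 / 2) (F q.2 q.1)) +
      ((Real.log K)⁻¹ * (F q.2 q.1 * max 0 (Real.log (F q.2 q.1))) +
        (A ^ 2)⁻¹ * (F q.2 q.1 * nsq q.1))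
    by_cases h : F q.2 q.1 ≤ K ∧ ‖q.1‖ ≤ A
    · have e5 := half_lower e0
      have e6 : F q.2 q.1 / (1 + 2 * K) ≤ F q.2 q.1 / (1 + 2 * F q.2 q.1) :=
        div_le_div_of_nonneg_left e0 (by linarith) (by linarith [h.1])
      have e7 := e6.trans e5
      rw [div_le_iff₀ (by linarith)] at e7
      have e8 : kf (1 / 2) (F q.2 q.1) ≤ χ q.1 * kf (1 / 2) (F q.2 q.1) :=
        le_mul_of_one_le_left (hk0 q) (hχ1 q.1 h.2)
      have e9 : (1 + 2 * K) * kf (1 / 2) (F q.2 q.1) ≤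
          (1 + 2 * K) * (χ q.1 * kf (1 / 2) (F q.2 q.1)) :=
        mul_le_mul_of_nonneg_left e8 (by linarith)
      linarith
    · have e6 := Mac_pt hK hA e0 q.1 h
      have e8 : 0 ≤ (1 + 2 * K) * (χ q.1 * kf (1 / 2) (F q.2 q.1)) :=
        mul_nonneg (by linarith) (mul_nonneg (hχ0 _) (hk0 q))
      rw [div_eq_inv_mul, div_eq_inv_mul] at e6
      linarith
  have i23 : Integrable (fun q : Vec d × Vec d =>
      (Real.log K)⁻¹ * (F q.2 q.1 * max 0 (Real.log (F q.2 q.1))) +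
        (A ^ 2)⁻¹ * (F q.2 q.1 * nsq q.1)) (nu d) := (i2.const_mul _).add (i3.const_mul _)
  rw [integral_add (i4.const_mul _) i23,
    integral_add (i2.const_mul _) (i3.const_mul _), integral_const_mul, integral_const_mul,
    integral_const_mul] at h2
  have h4 := plog_bound hF hG
  have h5 := hG.energy
  have h6 : (Real.log K)⁻¹ * ∫ q : Vec d × Vec d, F q.2 q.1 * max 0 (Real.log (F q.2 q.1)) ∂(nu d) ≤
      m / 4 := by
    refine (mul_le_mul_of_nonneg_left (h4.trans (le_max_left _ M)) (inv_nonneg.2 hl.le)).trans ?_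
    rw [← div_eq_inv_mul]
    exact hBK
  have h7 : (A ^ 2)⁻¹ * ∫ q : Vec d × Vec d, F q.2 q.1 * nsq q.1 ∂(nu d) ≤ m / 4 := by
    refine (mul_le_mul_of_nonneg_left (h5.trans (le_max_right (2 * M + zg d) _))
      (by positivity)).trans ?_
    rw [← div_eq_inv_mul]
    exact hBA
  have h8 := hG.mass
  rw [← nu_integral i4, div_le_iff₀ (by linarith)]
  linarith

end Pool.Agent.H15.AV
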