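import Pool.Agent.H15.AV.Kfun

/-!
# Continuity of fiber integrals; slices of a classical solution

MODULE Slc. All functions below are integrals over `v` of functions which are continuous in
`(t,x,v)` and bounded by `C * wt d v`, locally uniformly in `t`.
-/

set_option autoImplicit false

open MeasureTheory Set Filter Topology Pool.Agent.H25.Kin

namespace Pool.Agent.H15.AV

variable {d : ℕ}

/-- integrals of dominated continuous functions are continuous, for any measure -/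
private lemma Slc_gen {I : Set ℝ} {G : ℝ → Vec d → Vec d → ℝ} (μ : Measure (Vec d))
    (hc : ContinuousOn (unc G) (I ×ˢ univ))
    (hb : ∀ t ∈ I, ∃ U ∈ 𝓝[I] t, ∃ b : Vec d → ℝ, Integrable b μ ∧
      ∀ s ∈ U, ∀ x v, |G s x v| ≤ b v) :
    ContinuousOn (fun p : ℝ × Vec d => ∫ v, G p.1 p.2 v ∂μ) (I ×ˢ univ) := by
  rintro ⟨t, x⟩ ⟨ht, -⟩
  obtain ⟨U, hU, b, hbi, hbd⟩ := hb t ht
  have hfst : Tendsto (Prod.fst : ℝ × Vec d → ℝ) (𝓝[I ×ˢ univ] (t, x)) (𝓝[I] t) := by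
    rw [nhdsWithin_prod_eq]
    exact tendsto_fst
  refine continuousWithinAt_of_dominated (bound := b) ?_ ?_ hbi ?_
  · filter_upwards [self_mem_nhdsWithin] with p hp
    have h1 : Continuous fun v : Vec d => (p.1, p.2, v) := by fun_prop
    exact (hc.comp_continuous h1 fun v => ⟨hp.1, mem_univ _⟩).aestronglyMeasurable
  · filter_upwards [hfst hU] with p hp
    exact Eventually.of_forall fun v => hbd p.1 hp p.2 v
  · refine Eventually.of_forall fun v => ?_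
    have h1 : Continuous fun p : ℝ × Vec d => (p.1, p.2, v) := by fun_prop
    exact (hc.comp h1.continuousOn fun p hp => ⟨hp.1, mem_univ _⟩) (t, x) ⟨ht, mem_univ _⟩

/-- fiber integrals of dominated continuous functions are continuous -/
theorem cont_int {I : Set ℝ} {G : ℝ → Vec d → Vec d → ℝ}
    (hc : ContinuousOn (unc G) (I ×ˢ univ))
    (hb : ∀ t ∈ I, ∃ U ∈ 𝓝[I] t, ∃ C, ∀ s ∈ U, ∀ x v, |G s x v| ≤ C * wt d v) :
    ContinuousOn (fun p : ℝ × Vec d => ∫ v, G p.1 p.2 v) (I ×ˢ univ) := by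
  refine Slc_gen volume hc fun t ht => ?_
  obtain ⟨U, hU, C, hC⟩ := hb t ht
  exact ⟨U, hU, fun v => C * wt d v, (integrable_wt (d := d)).const_mul C, hC⟩

variable {T : ℝ} {Q : (Vec d → ℝ) → Vec d → ℝ} {f : ℝ → Vec d → Vec d → ℝ}

theorem sol_slice {Q' : ℝ → Vec d → Vec d → ℝ} (hf : IsClassicalSol T Q' f) {t : ℝ}
    (ht : t ∈ Ico 0 T) : Slice (f t) := by
  refine ⟨hf.nonneg t ht, hf.periodic t ht, IsClassicalSol.cont_slice hf ht, fun N => ?_⟩
  obtain ⟨C, hC⟩ := hf.decay t ht.2 N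
  exact ⟨C, fun x v => hC t ⟨ht.1, le_rfl⟩ x v⟩

/-- time slices at positive times are in the class `Nice` -/
theorem sol_nice {Q' : ℝ → Vec d → Vec d → ℝ} (hf : IsClassicalSol T Q' f) {t : ℝ}
    (ht : t ∈ Ioo 0 T) (x : Vec d) : Nice (f t x) :=
  IsClassicalSol.nice hf ht x

/-- time slices are in the class `UNice`, locally uniformly in time -/
theorem sol_unice {Q' : ℝ → Vec d → Vec d → ℝ} (hf : IsClassicalSol T Q' f) {T₀ T₁ : ℝ}
    (h0 : 0 < T₀) (h1 : T₁ < T) : ∃ C : ℕ → ℝ, ∀ t ∈ Icc T₀ T₁, ∀ x, UNice C (f t x) := by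
  choose C hC using hf.decay T₁ h1
  choose D hD using IsClassicalSol.decay_deriv hf T₀ h0 T₁ h1
  refine ⟨fun N => C N + D N, fun t ht x => ?_⟩
  have ht' : t ∈ Ioo 0 T := ⟨h0.trans_le ht.1, ht.2.trans_lt h1⟩
  refine ⟨IsClassicalSol.nice hf ht' x, fun v => hf.nonneg t ⟨ht'.1.le, ht'.2⟩ x v,
    fun N v => ?_⟩
  have e1 := hC N t ⟨ht'.1.le, ht.2⟩ x v
  have e2 := hD N t ht x v
  have e3 : ‖fderiv ℝ (f t x) v‖ ≤ ‖fderiv ℝ (unc f) (t, x, v)‖ := by
    rw [IsClassicalSol.slice_fderiv hf ht' x v]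
    have h3 := ContinuousLinearMap.opNorm_comp_le (fderiv ℝ (unc f) (t, x, v)) (iv d)
    have h4 : ‖fderiv ℝ (unc f) (t, x, v)‖ * ‖iv d‖ ≤ ‖fderiv ℝ (unc f) (t, x, v)‖ * 1 :=
      mul_le_mul_of_nonneg_left norm_iv_le (norm_nonneg _)
    linarith
  have e4 := IsClassicalSol.slice_fderiv2 hf ht' x v
  have hw := pow_pos (w_pos v) N
  have e5 : (1 + ‖v‖) ^ N * (‖fderiv ℝ (f t x) v‖ + ‖fderiv ℝ (fderiv ℝ (f t x)) v‖) ≤ D N :=
    (mul_le_mul_of_nonneg_left (add_le_add e3 e4) hw.le).trans e2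
  calc (1 + ‖v‖) ^ N * (f t x v + ‖fderiv ℝ (f t x) v‖ + ‖fderiv ℝ (fderiv ℝ (f t x)) v‖)
      = (1 + ‖v‖) ^ N * f t x v + (1 + ‖v‖) ^ N *
          (‖fderiv ℝ (f t x) v‖ + ‖fderiv ℝ (fderiv ℝ (f t x)) v‖) := by ring
    _ ≤ C N + D N := add_le_add e1 e5

/-- a neighbourhood in which the decay is uniform -/
private lemma Slc_nhds {T t : ℝ} (ht : t ∈ Ico 0 T) :
    Ico 0 ((t + T) / 2) ∈ 𝓝[Ico 0 T] t := by
  have h1 : Iio ((t + T) / 2) ∈ 𝓝 t := Iio_mem_nhds (by linarith [ht.2])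
  filter_upwards [self_mem_nhdsWithin, mem_nhdsWithin_of_mem_nhds h1] with s hs hs'
  exact ⟨hs.1, hs'⟩

/-- moments of polynomial growth are continuous -/
private lemma Slc_pg {Q' : ℝ → Vec d → Vec d → ℝ} (hf : IsClassicalSol T Q' f) {p : Vec d → ℝ}
    (hp : PG p) (hpc : Continuous p) :
    ContinuousOn (fun q : ℝ × Vec d => ∫ v, f q.1 q.2 v * p v) (Ico 0 T ×ˢ univ) := by
  refine cont_int (G := fun t x v => f t x v * p v) ?_ fun t ht => ?_
  · have h1 : Continuous fun q : ℝ × Vec d × Vec d => p q.2.2 := hpc.comp (by fun_prop)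
    exact (IsClassicalSol.cont hf).mul h1.continuousOn
  · obtain ⟨m, P, hP0, hP⟩ := hp.pos
    have hT1 : (t + T) / 2 < T := by linarith [ht.2]
    obtain ⟨C, hC0, hC⟩ := IsClassicalSol.f_le hf hT1 (m + (d + 1))
    refine ⟨_, Slc_nhds ht, P * C, fun s hs x v => ?_⟩
    have e1 := hC s ⟨hs.1, hs.2.le⟩ x v
    have e2 := hP v
    rw [Real.norm_eq_abs] at e2
    rw [abs_mul, mul_comm, ← wt_bound hP0 hC0 v m]
    exact mul_le_mul e2 e1 (abs_nonneg _)
      (mul_nonneg hP0 (pow_nonneg (w_pos v).le _))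

theorem rho_cont {Q' : ℝ → Vec d → Vec d → ℝ} (hf : IsClassicalSol T Q' f) :
    ContinuousOn (fun p : ℝ × Vec d => ∫ v, f p.1 p.2 v) (Ico 0 T ×ˢ univ) := by
  have h := Slc_pg hf (PG.const (d := d) (1 : ℝ)) continuous_const
  simpa using h

theorem energy_cont {Q' : ℝ → Vec d → Vec d → ℝ} (hf : IsClassicalSol T Q' f) :
    ContinuousOn (fun p : ℝ × Vec d => ∫ v, f p.1 p.2 v * nsq v) (Ico 0 T ×ˢ univ) :=
  Slc_pg hf PG.nsq continuous_sq

theorem entropy_cont {Q' : ℝ → Vec d → Vec d → ℝ} (hf : IsClassicalSol T Q' f) :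
    ContinuousOn (fun p : ℝ × Vec d => ∫ v, f p.1 p.2 v * Real.log (f p.1 p.2 v))
      (Ico 0 T ×ˢ univ) := by
  refine cont_int (G := fun t x v => f t x v * Real.log (f t x v)) ?_ fun t ht => ?_
  · exact Real.continuous_mul_log.comp_continuousOn (IsClassicalSol.cont hf)
  · have hT1 : (t + T) / 2 < T := by linarith [ht.2]
    obtain ⟨C, hC0, hC⟩ := IsClassicalSol.f_le hf hT1 (2 * (d + 1))
    refine ⟨_, Slc_nhds ht, 2 * Real.sqrt C + C ^ 2, fun s hs x v => ?_⟩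
    have e1 := hC s ⟨hs.1, hs.2.le⟩ x v
    have e0 := hf.nonneg s ⟨hs.1, hs.2.trans hT1⟩ x v
    rw [abs_of_nonneg e0] at e1
    have hw0 := wt_nonneg v
    have hw1 : wt d v ≤ 1 := inv_le_one_of_one_le₀ (one_le_pow₀ (one_le_w v))
    have e2 : ((1 + ‖v‖) ^ (2 * (d + 1)))⁻¹ = wt d v ^ 2 := by
      unfold wt
      rw [inv_pow, ← pow_mul, mul_comm]
    rw [e2] at e1
    have e3 : Real.sqrt (f s x v) ≤ Real.sqrt C * wt d v := by
      refine (Real.sqrt_le_sqrt e1).trans (le_of_eq ?_)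
      rw [Real.sqrt_mul hC0, Real.sqrt_sq hw0]
    have e4 : f s x v ^ 2 ≤ C ^ 2 * wt d v := by
      have e5 : f s x v ^ 2 ≤ (C * wt d v ^ 2) ^ 2 := pow_le_pow_left₀ e0 e1 2
      have e6 : wt d v ^ 4 ≤ wt d v := pow_le_of_le_one hw0 hw1 (by norm_num)
      calc f s x v ^ 2 ≤ (C * wt d v ^ 2) ^ 2 := e5
        _ = C ^ 2 * wt d v ^ 4 := by ring
        _ ≤ C ^ 2 * wt d v := mul_le_mul_of_nonneg_left e6 (sq_nonneg C)
    refine (abs_mul_log_le e0).trans ?_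
    nlinarith

theorem kap_cont {Q' : ℝ → Vec d → Vec d → ℝ} (hf : IsClassicalSol T Q' f) (q : ℝ) :
    ContinuousOn (fun p : ℝ × Vec d => kap q (f p.1 p.2)) (Ico 0 T ×ˢ univ) := by
  unfold kap
  refine Slc_pg hf (p := fun w => (1 + ‖w‖) ^ q) ?_ ?_
  · obtain ⟨n, hn⟩ := exists_nat_ge q
    refine ⟨n, 1, fun v => ?_⟩
    rw [Real.norm_eq_abs, abs_of_nonneg (Real.rpow_nonneg (w_pos v).le _), one_mul,
      ← Real.rpow_natCast]
    exact Real.rpow_le_rpow_of_exponent_le (one_le_w v) hn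
  · exact (continuous_const.add continuous_norm).rpow_const fun v => Or.inl (w_pos v).ne'

theorem ub_cont {Q' : ℝ → Vec d → Vec d → ℝ} (hf : IsClassicalSol T Q' f) {δ : ℝ} (h0 : 0 < δ)
    (h1 : δ ≤ 1) (R : ℝ) :
    ContinuousOn (fun p : ℝ × Vec d => ub δ R (f p.1 p.2)) (Ico 0 T ×ˢ univ) := by
  unfold ub
  refine Slc_gen (G := fun t x v => uf δ (f t x v)) _ ?_ fun t ht => ?_
  · have hnn : ∀ q ∈ Ico 0 T ×ˢ (univ : Set (Vec d × Vec d)), 0 ≤ unc f q := fun q hq =>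
      hf.nonneg q.1 hq.1 q.2.1 q.2.2
    have h3 : ContinuousOn (fun q => Real.log (1 + unc f q)) (Ico 0 T ×ˢ univ) :=
      ContinuousOn.log (continuousOn_const.add (IsClassicalSol.cont hf)) fun q hq => by
        have := hnn q hq
        positivity
    have h4 : ContinuousOn (fun q => Real.log (δ + unc f q)) (Ico 0 T ×ˢ univ) :=
      ContinuousOn.log (continuousOn_const.add (IsClassicalSol.cont hf)) fun q hq => by
        have := hnn q hq
        positivity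
    exact h3.sub h4
  · refine ⟨_, self_mem_nhdsWithin, fun _ => lam δ, ?_, fun s hs x v => ?_⟩
    · have : IsFiniteMeasure (volume.restrict (Metric.closedBall (0 : Vec d) R)) :=
        ⟨by rw [Measure.restrict_apply_univ]; exact measure_closedBall_lt_top⟩
      exact integrable_const _
    · have h5 := hf.nonneg s hs x v
      rw [abs_of_nonneg (uf_nonneg h0 h1 h5)]
      exact uf_le_lam h0 h1 h5

end Pool.Agent.H15.AV
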