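import Pool.Agent.H15.AV.Defs

/-!
# Volume of slabs; superlevel sets of good fibers

MODULE Tub. `slab_volume`: the linear map `w ↦ w - l (w i) e_j` (`i ≠ j`) preserves the volume
(`Real.volume_preserving_transvectionStruct`) and maps the set into a box.
`good_mass`: for a good fiber, `∫_{‖v‖ > R₁} g ≤ N/R₁²`, and `∫_A g ≤ η'` when `|A|` is small (entropy:
`∫ g log⁺ g ≤ 2 N + zg d` by `gibbs_pt` with `θ = exp (-1)`).
-/

set_option autoImplicit false

open MeasureTheory Set Filter Topology Pool.Agent.H25.Kin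

namespace Pool.Agent.H15.AV

variable {d : ℕ}

theorem slab_volume {i j : Fin d} (hij : i ≠ j) (c l : ℝ) {R ρ : ℝ} (hR : 0 ≤ R) (hρ : 0 ≤ ρ) :
    volume {w : Vec d | ‖w‖ ≤ R ∧ |w j - l * w i - c| < ρ} ≤
      ENNReal.ofReal ((2 * R) ^ (d - 1) * (2 * ρ)) := by
  classical
  set t : Matrix.TransvectionStruct (Fin d) ℝ := ⟨j, i, hij.symm, -l⟩ with ht
  have hT := Real.volume_preserving_transvectionStruct t
  have hk : ∀ (w : Vec d) (k : Fin d), Matrix.toLin' t.toMatrix w k =
      if k = j then w j - l * w i else w k := by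
    intro w k
    rw [Matrix.toLin'_apply, ht, Matrix.TransvectionStruct.toMatrix_mk, Matrix.transvection,
      Matrix.add_mulVec, Matrix.one_mulVec, Pi.add_apply]
    have h1 : (Matrix.single j i (-l)).mulVec w k = if k = j then -l * w i else 0 := by
      rw [Matrix.mulVec, dotProduct]
      rw [Finset.sum_eq_single i]
      · by_cases hkj : k = j
        · subst hkj
          simp
        · rw [if_neg hkj, Matrix.single_apply_of_row_ne (Ne.symm hkj)]
          simp
      · intro b _ hb
        rw [Matrix.single_apply_of_col_ne _ _ (Ne.symm hb)]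
        simp
      · intro h
        exact absurd (Finset.mem_univ _) h
    rw [h1]
    by_cases hkj : k = j
    · rw [if_pos hkj, if_pos hkj, hkj]
      ring
    · rw [if_neg hkj, if_neg hkj, add_zero]
  set S : Fin d → Set ℝ := fun k => if k = j then Ioo (c - ρ) (c + ρ) else Icc (-R) R with hS
  have hSm : ∀ k, MeasurableSet (S k) := by
    intro k
    simp only [hS]
    split_ifs
    · exact measurableSet_Ioo
    · exact measurableSet_Icc
  have hsub : {w : Vec d | ‖w‖ ≤ R ∧ |w j - l * w i - c| < ρ} ⊆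
      Matrix.toLin' t.toMatrix ⁻¹' (Set.pi univ S) := by
    rintro w ⟨h1, h2⟩
    rw [mem_preimage, mem_univ_pi]
    intro k
    rw [hk]
    simp only [hS]
    by_cases hkj : k = j
    · rw [if_pos hkj, if_pos hkj]
      rw [abs_lt] at h2
      exact ⟨by linarith, by linarith⟩
    · rw [if_neg hkj, if_neg hkj]
      have h3 : |w k| ≤ R := by
        rw [← Real.norm_eq_abs]
        exact (norm_le_pi_norm w k).trans h1
      exact abs_le.1 h3
  refine (measure_mono hsub).trans ?_
  rw [hT.measure_preimage (MeasurableSet.univ_pi hSm).nullMeasurableSet, volume_pi_pi]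
  refine le_of_eq ?_
  rw [← Finset.mul_prod_erase Finset.univ (fun k => volume (S k)) (Finset.mem_univ j)]
  have e1 : volume (S j) = ENNReal.ofReal (2 * ρ) := by
    simp only [hS, if_pos]
    rw [Real.volume_Ioo]
    congr 1
    ring
  have e2 : ∏ k ∈ Finset.univ.erase j, volume (S k) = ENNReal.ofReal ((2 * R) ^ (d - 1)) := by
    rw [Finset.prod_congr rfl (g := fun _ => ENNReal.ofReal (2 * R))]
    · rw [Finset.prod_const, Finset.card_erase_of_mem (Finset.mem_univ j), Finset.card_univ,
        Fintype.card_fin, ENNReal.ofReal_pow (by positivity)]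
    · intro k hkm
      have hkj : k ≠ j := Finset.ne_of_mem_erase hkm
      simp only [hS]
      rw [if_neg hkj, Real.volume_Icc]
      congr 1
      ring
  rw [e1, e2, ← ENNReal.ofReal_mul (by positivity), mul_comm]

/-- mass in a large ball, outside small sets -/
theorem good_mass {m : ℝ} (hm : 0 < m) (N : ℝ) : ∃ R₁ > 0, ∃ η > 0, ∀ g : Vec d → ℝ, Nice g →
    (∀ v, 0 ≤ g v) → Good m N g → ∀ A : Set (Vec d), MeasurableSet A →
      volume (A ∩ Metric.closedBall 0 R₁) ≤ ENNReal.ofReal η →
        m / 2 ≤ ∫ v in Metric.closedBall 0 R₁ \ A, g v := by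
  set N' : ℝ := max N 0 with hN'
  have hN0 : 0 ≤ N' := le_max_right _ _
  have hz : 0 ≤ zg d := integral_nonneg fun _ => (Real.exp_pos _).le
  set R₁ : ℝ := 4 * N' / m + 1 with hR₁
  have hR1 : 1 ≤ R₁ := by
    have : 0 ≤ 4 * N' / m := by positivity
    linarith
  set L : ℝ := 8 * (2 * N' + zg d) / m + 1 with hL
  have hL1 : 1 ≤ L := by
    have : 0 ≤ 8 * (2 * N' + zg d) / m := by positivity
    linarith
  refine ⟨R₁, by linarith, m / (8 * Real.exp L), by positivity, ?_⟩
  intro g hn hg0 hG A hA hvol
  set B : Set (Vec d) := Metric.closedBall 0 R₁ with hB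
  have hBm : MeasurableSet B := measurableSet_closedBall
  have i1 : Integrable g := hn.rd.integrable hn.cont.aestronglyMeasurable
  have i2 : Integrable (fun v => g v * nsq v) :=
    (hn.rd.mul_PG PG.nsq).integrable (hn.cont.mul continuous_sq).aestronglyMeasurable
  have i3 : Integrable (fun v : Vec d => Real.exp (-1 * nsq v)) :=
    (exp_RD one_pos).integrable
      (Real.continuous_exp.comp (continuous_const.mul continuous_sq)).aestronglyMeasurable
  have i4 : Integrable (fun v => g v * Real.log (g v)) :=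
    (rd_mul_log hg0 hn.rd).integrable (Real.continuous_mul_log.comp hn.cont).aestronglyMeasurable
  have hNN : N ≤ N' := le_max_left _ _
  -- the tail
  have t1 : ∫ v in Bᶜ, g v ≤ m / 4 := by
    have h1 : ∫ v in Bᶜ, g v ≤ ∫ v in Bᶜ, g v * nsq v / R₁ := by
      refine setIntegral_mono_on i1.integrableOn (i2.div_const _).integrableOn hBm.compl ?_
      intro v hv
      have h2 : R₁ < ‖v‖ := by
        have h3 : v ∉ Metric.closedBall (0 : Vec d) R₁ := hv
        rw [Metric.mem_closedBall, dist_zero_right, not_le] at h3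
        exact h3
      have h4 := norm_sq_le_sq v
      have h5 : R₁ ≤ nsq v := by nlinarith
      rw [le_div_iff₀ (by linarith)]
      exact mul_le_mul_of_nonneg_left h5 (hg0 v)
    have h6 : ∫ v in Bᶜ, g v * nsq v / R₁ ≤ ∫ v, g v * nsq v / R₁ :=
      setIntegral_le_integral (i2.div_const _) (Eventually.of_forall fun v =>
        div_nonneg (mul_nonneg (hg0 v) (sq_nonneg' v)) (by linarith))
    have h7 : ∫ v, g v * nsq v / R₁ = (∫ v, g v * nsq v) / R₁ := integral_div _ _
    have h8 : (∫ v, g v * nsq v) / R₁ ≤ m / 4 := by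
      rw [div_le_iff₀ (by linarith)]
      have h9 : m / 4 * R₁ = N' + m / 4 := by
        rw [hR₁]; field_simp
      linarith [hG.energy]
    linarith
  -- the mass in `A`
  have t2 : ∫ v in A ∩ B, g v ≤ m / 4 := by
    have hABm : MeasurableSet (A ∩ B) := hA.inter hBm
    have hfin : volume (A ∩ B) < ⊤ := hvol.trans_lt ENNReal.ofReal_lt_top
    set h : Vec d → ℝ := fun v => g v * Real.log (g v) + g v * nsq v + Real.exp (-1 * nsq v)
      with hh
    have ih : Integrable h := (i4.add i2).add i3
    have hgib : ∀ v, 0 ≤ h v := by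
      intro v
      have h1 := gibbs_pt (a := g v) (θ := Real.exp (-1)) (n := nsq v) (hg0 v) (Real.exp_pos _)
      rw [Real.log_exp] at h1
      have h2 : Real.exp (-1) ≤ 1 := Real.exp_le_one_iff.2 (by norm_num)
      have h3 : Real.exp (-1) * Real.exp (-1 * nsq v) ≤ 1 * Real.exp (-1 * nsq v) :=
        mul_le_mul_of_nonneg_right h2 (Real.exp_pos _).le
      simp only [hh]
      linarith
    have hpt : ∀ v, g v ≤ Real.exp L + h v / L := by
      intro v
      have h0 : 0 ≤ h v / L := div_nonneg (hgib v) (by linarith)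
      rcases le_or_gt (g v) (Real.exp L) with hc | hc
      · linarith
      · have h1 : L ≤ Real.log (g v) := by
          rw [Real.le_log_iff_exp_le ((Real.exp_pos L).trans hc)]
          exact hc.le
        have h2 : g v * L ≤ h v := by
          have h3 : g v * L ≤ g v * Real.log (g v) := mul_le_mul_of_nonneg_left h1 (hg0 v)
          have h4 : 0 ≤ g v * nsq v := mul_nonneg (hg0 v) (sq_nonneg' v)
          have h5 := (Real.exp_pos (-1 * nsq v)).le
          simp only [hh]
          linarith
        have h6 : g v ≤ h v / L := by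
          rw [le_div_iff₀ (by linarith)]
          exact h2
        linarith [Real.exp_pos L]
    have h1 : ∫ v in A ∩ B, g v ≤ ∫ v in A ∩ B, (Real.exp L + h v / L) :=
      integral_mono i1.integrableOn
        ((integrableOn_const hfin.ne).add (ih.div_const _).integrableOn) hpt
    have h2 : ∫ v in A ∩ B, (Real.exp L + h v / L) =
        Real.exp L * volume.real (A ∩ B) + ∫ v in A ∩ B, h v / L := by
      have h3 : IntegrableOn (fun _ : Vec d => Real.exp L) (A ∩ B) := integrableOn_const hfin.ne
      rw [integral_add h3 (ih.div_const _).integrableOn, setIntegral_const, smul_eq_mul, mul_comm]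
    have h4 : ∫ v in A ∩ B, h v / L ≤ (∫ v, h v) / L := by
      rw [← integral_div]
      exact setIntegral_le_integral (ih.div_const _) (Eventually.of_forall fun v =>
        div_nonneg (hgib v) (by linarith))
    have h5 : ∫ v, h v ≤ 2 * N' + zg d := by
      have h6 : ∫ v, h v = (∫ v, g v * Real.log (g v)) + (∫ v, g v * nsq v) + zg d := by
        unfold zg
        have i5 : Integrable (fun v => g v * Real.log (g v) + g v * nsq v) := i4.add i2
        simp only [hh]
        rw [integral_add i5 i3, integral_add i4 i2]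
      rw [h6]
      linarith [hG.energy, hG.entropy]
    have h7 : (∫ v, h v) / L ≤ m / 8 := by
      rw [div_le_iff₀ (by linarith)]
      have h8 : m / 8 * L = (2 * N' + zg d) + m / 8 := by
        rw [hL]; field_simp
      linarith
    have h9 : volume.real (A ∩ B) ≤ m / (8 * Real.exp L) := by
      rw [measureReal_def]
      exact ENNReal.toReal_le_of_le_ofReal (by positivity) hvol
    have h10 : Real.exp L * volume.real (A ∩ B) ≤ m / 8 := by
      calc Real.exp L * volume.real (A ∩ B) ≤ Real.exp L * (m / (8 * Real.exp L)) :=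
            mul_le_mul_of_nonneg_left h9 (Real.exp_pos L).le
        _ = m / 8 := by field_simp
    linarith
  have e1 : (∫ v in B, g v) + ∫ v in Bᶜ, g v = ∫ v, g v := integral_add_compl hBm i1
  have e2 : (∫ v in A ∩ B, g v) + ∫ v in B \ A, g v = ∫ v in B, g v := by
    rw [inter_comm]
    exact integral_inter_add_sdiff hA i1.integrableOn
  have hM := hG.mass
  linarith

/-- superlevel sets -/
theorem good_level {m : ℝ} (hm : 0 < m) (N : ℝ) : ∃ R₁ > 0, ∃ ℓ > 0, ∃ κ > 0,
    ∀ g : Vec d → ℝ, Nice g → (∀ v, 0 ≤ g v) → Good m N g →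
      ENNReal.ofReal κ ≤ volume {v : Vec d | ‖v‖ ≤ R₁ ∧ ℓ ≤ g v} := by
  obtain ⟨R₁, hR, η, hη, H⟩ := good_mass (d := d) hm N
  have hpd : 0 < (2 * R₁) ^ d := by positivity
  refine ⟨R₁, hR, m / (4 * (2 * R₁) ^ d), by positivity, η, hη, ?_⟩
  intro g hn hg0 hG
  set ℓ : ℝ := m / (4 * (2 * R₁) ^ d) with hℓ
  by_contra hc
  rw [not_le] at hc
  have hA : MeasurableSet {v : Vec d | ℓ ≤ g v} :=
    (isClosed_le continuous_const hn.cont).measurableSet
  have e : {v : Vec d | ‖v‖ ≤ R₁ ∧ ℓ ≤ g v} = {v : Vec d | ℓ ≤ g v} ∩ Metric.closedBall 0 R₁ := by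
    ext v
    simp only [mem_inter_iff, mem_ofPred_eq, Metric.mem_closedBall, dist_zero_right]
    tauto
  rw [e] at hc
  have h1 := H g hn hg0 hG _ hA hc.le
  have i1 : Integrable g := hn.rd.integrable hn.cont.aestronglyMeasurable
  have hBm : MeasurableSet (Metric.closedBall (0 : Vec d) R₁) := measurableSet_closedBall
  have hBf : volume (Metric.closedBall (0 : Vec d) R₁) < ⊤ :=
    (isCompact_closedBall _ _).measure_lt_top
  have hDf : volume (Metric.closedBall (0 : Vec d) R₁ \ {v : Vec d | ℓ ≤ g v}) < ⊤ :=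
    (measure_mono sdiff_subset).trans_lt hBf
  have h2 : ∫ v in Metric.closedBall 0 R₁ \ {v : Vec d | ℓ ≤ g v}, g v ≤
      ∫ _ in Metric.closedBall (0 : Vec d) R₁ \ {v : Vec d | ℓ ≤ g v}, ℓ := by
    refine setIntegral_mono_on i1.integrableOn (integrableOn_const hDf.ne) (hBm.diff hA) ?_
    intro v hv
    exact (not_le.1 fun h => hv.2 h).le
  rw [setIntegral_const, smul_eq_mul] at h2
  have h3 : volume.real (Metric.closedBall (0 : Vec d) R₁ \ {v : Vec d | ℓ ≤ g v}) ≤
      (2 * R₁) ^ d := by
    refine (measureReal_mono sdiff_subset hBf.ne).trans (le_of_eq ?_)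
    rw [measureReal_def, Real.volume_pi_closedBall _ hR.le, ENNReal.toReal_ofReal (by positivity),
      Fintype.card_fin]
  have h4 : volume.real (Metric.closedBall (0 : Vec d) R₁ \ {v : Vec d | ℓ ≤ g v}) * ℓ ≤
      m / 4 := by
    have hℓ0 : 0 ≤ ℓ := by rw [hℓ]; positivity
    calc volume.real (Metric.closedBall (0 : Vec d) R₁ \ {v : Vec d | ℓ ≤ g v}) * ℓ
        ≤ (2 * R₁) ^ d * ℓ := mul_le_mul_of_nonneg_right h3 hℓ0
      _ = m / 4 := by rw [hℓ]; field_simp
  linarith

end Pool.Agent.H15.AV
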